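import Mathlib

/-! Haar probability measure on the unitary group `U(k)`; basic notation. -/

namespace Pool.Agent.H667R2.FG

open MeasureTheory Matrix
open scoped Matrix.Norms.L2Operator

/-- complex `k × k` matrices (with the operator norm on `ℂ^k`). -/
abbrev Mat (k : ℕ) := Matrix (Fin k) (Fin k) ℂ

/-- the unitary group `U(k)`. -/
abbrev UU (k : ℕ) := Matrix.unitaryGroup (Fin k) ℂ

noncomputable instance instMeasUU (k : ℕ) : MeasurableSpace (UU k) := borel _
instance instBorelUU (k : ℕ) : BorelSpace (UU k) := ⟨rfl⟩

theorem norm_unitary_le {k : ℕ} (u : UU k) : ‖(u : Mat k)‖ ≤ 1 := by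
  rcases subsingleton_or_nontrivial (Mat k) with h | h
  · have : (u : Mat k) = 0 := Subsingleton.elim _ _
    rw [this]; simp
  · exact (CStarRing.norm_coe_unitary u).le

instance instCompactUU (k : ℕ) : CompactSpace (UU k) := by
  have h1 : IsClosed ((Matrix.unitaryGroup (Fin k) ℂ : Submonoid (Mat k)) : Set (Mat k)) :=
    isClosed_unitary
  have h2 : IsCompact ((Matrix.unitaryGroup (Fin k) ℂ : Submonoid (Mat k)) : Set (Mat k)) := by
    apply Metric.isCompact_of_isClosed_isBounded h1
    rw [Metric.isBounded_iff_subset_closedBall 0]
    refine ⟨1, fun u hu => ?_⟩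
    rw [mem_closedBall_zero_iff]
    exact norm_unitary_le ⟨u, hu⟩
  exact isCompact_iff_compactSpace.mp h2

/-- Haar probability measure on `U(k)`. -/
noncomputable def haarU (k : ℕ) : Measure (UU k) := Measure.haarMeasure ⊤

instance instHaarUU (k : ℕ) : (haarU k).IsHaarMeasure := by unfold haarU; infer_instance

instance instProbUU (k : ℕ) : IsProbabilityMeasure (haarU k) := by
  constructor
  have := Measure.haarMeasure_self (K₀ := (⊤ : TopologicalSpace.PositiveCompacts (UU k)))
  simpa [haarU] using this

instance instRightUU (k : ℕ) : (haarU k).IsMulRightInvariant := by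
  constructor
  intro g
  have h1 : (Measure.map (· * g) (haarU k)).IsHaarMeasure := by infer_instance
  have h2 : IsProbabilityMeasure (Measure.map (· * g) (haarU k)) :=
    Measure.isProbabilityMeasure_map (measurable_mul_const g).aemeasurable
  exact Measure.isHaarMeasure_eq_of_isProbabilityMeasure _ _

instance instInvUU (k : ℕ) : (haarU k).IsInvInvariant := by
  constructor
  have h0 : ((haarU k).inv).IsMulLeftInvariant := by
    constructor
    intro g
    have e : (haarU k).inv = Measure.map (fun u : UU k => u⁻¹) (haarU k) := rfl
    rw [e, Measure.map_map (measurable_const_mul g) measurable_inv]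
    have : ((fun x : UU k => g * x) ∘ fun u => u⁻¹) = (fun u => u⁻¹) ∘ (fun x => x * g⁻¹) := by
      funext x; simp
    rw [this, ← Measure.map_map measurable_inv (measurable_mul_const _),
      map_mul_right_eq_self]
  have h2 : IsProbabilityMeasure ((haarU k).inv) := by
    have e : (haarU k).inv = Measure.map (fun u : UU k => u⁻¹) (haarU k) := rfl
    rw [e]
    exact Measure.isProbabilityMeasure_map measurable_inv.aemeasurable
  have h3 := Measure.isMulInvariant_eq_smul_of_compactSpace ((haarU k).inv) (haarU k)
  have h4 : (haarU k).inv Set.univ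
      = (Measure.haarScalarFactor ((haarU k).inv) (haarU k) • (haarU k)) Set.univ := by
    rw [← h3]
  simp only [measure_univ, Measure.smul_apply, ENNReal.smul_def, smul_eq_mul, mul_one] at h4
  have h5 : Measure.haarScalarFactor ((haarU k).inv) (haarU k) = 1 := by
    exact_mod_cast h4.symm
  rw [h3, h5, one_smul]

end Pool.Agent.H667R2.FG
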