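import Mathlib
import Pool.Agent.H667R2.FG.Basic

/-! Definitions for the microstates argument: normalised traces, words, perturbations. -/

namespace Pool.Agent.H667R2.FG

open MeasureTheory Matrix Filter
open scoped Matrix.Norms.L2Operator

/-- normalised trace -/
noncomputable def ntr {k : ℕ} (a : Mat k) : ℂ := (k : ℂ)⁻¹ * a.trace

/-- normalised Hilbert–Schmidt norm -/
noncomputable def hs {k : ℕ} (a : Mat k) : ℝ :=
  Real.sqrt ((k : ℝ)⁻¹ * ∑ i, ∑ j, ‖a i j‖ ^ 2)

/-- product of Haar probability measures on `U(k)^ι` -/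
noncomputable abbrev haarP (k : ℕ) (ι : Type) [Fintype ι] : Measure (ι → UU k) :=
  Measure.pi fun _ : ι => haarU k

/-- value of a word at a tuple of unitaries (in any ring with involution) -/
def wd {A : Type} [Monoid A] [StarMul A] {ι : Type} (U : ι → unitary A) (w : FreeGroup ι) : A :=
  ((FreeGroup.lift U w : unitary A) : A)

/-- value of a finite combination of words -/
noncomputable def pol {A : Type} [Ring A] [StarRing A] [Module ℂ A] {ι : Type}
    (U : ι → unitary A) (f : FreeGroup ι →₀ ℂ) : A := f.sum fun w c => c • wd U w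

/-! ### syllable words -/

/-- a syllable `(i, b, a)` stands for `U_i ^ (±1) * a` (`b = true` for `+1`). -/
abbrev Syl (k : ℕ) (ι : Type) := ι × Bool × Mat k

/-- the letter `U_i ^ (±1)` -/
def lt {k : ℕ} {ι : Type} (U : ι → UU k) (i : ι) (b : Bool) : Mat k :=
  if b then (U i : Mat k) else ((U i)⁻¹ : UU k)

/-- value of a syllable word -/
def evS {k : ℕ} {ι : Type} (U : ι → UU k) : List (Syl k ι) → Mat k
  | [] => 1
  | s :: w => lt U s.1 s.2.1 * s.2.2 * evS U w

/-- product of the norms of the coefficients -/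
noncomputable def nrm {k : ℕ} {ι : Type} (w : List (Syl k ι)) : ℝ := (w.map fun s => ‖s.2.2‖).prod

/-- every coefficient standing between `U_i^(±1)` and `U_i^(∓1)` has trace zero
(the last coefficient of the word is unconstrained). -/
def GoodW {k : ℕ} {ι : Type} (w : List (Syl k ι)) : Prop :=
  List.IsChain (fun s t => s.1 = t.1 → s.2.1 ≠ t.2.1 → s.2.2.trace = 0) w

/-- the terms `(σ, L, R)` of the derivative: inserting `A` in the word at all letters `U_{i₀}^{±1}`
gives `∑ σ • L * A * R`. -/
noncomputable def terms {k : ℕ} {ι : Type} [DecidableEq ι] (U : ι → UU k) (i₀ : ι) :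
    List (Syl k ι) → List (ℂ × Mat k × Mat k)
  | [] => []
  | s :: w => (if s.1 = i₀ then
        (if s.2.1 then [(1, 1, lt U s.1 s.2.1 * s.2.2 * evS U w)]
          else [(-1, lt U s.1 s.2.1, s.2.2 * evS U w)]) else []) ++
      (terms U i₀ w).map (fun t => (t.1, lt U s.1 s.2.1 * s.2.2 * t.2.1, t.2.2))

/-! ### perturbations -/

/-- `y₀ = x₀`, `y_{i+1} = x_{i+1} W_i⁻¹ r_i W_i`. -/
def pert {k d : ℕ} (x : Fin (d + 1) → UU k) (r W : Fin d → UU k) : Fin (d + 1) → UU k :=
  Fin.cons (x 0) (fun i => x i.succ * (W i)⁻¹ * r i * W i)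

/-- number of letters of the word different from `a₀^{±1}` -/
def blen {d : ℕ} (w : FreeGroup (Fin (d + 1))) : ℕ := (w.toWord.filter fun p => p.1 ≠ 0).length

/-- the damping factor of a word -/
noncomputable def phi {k d : ℕ} (r : Fin d → UU k) (w : FreeGroup (Fin (d + 1))) : ℂ :=
  (w.toWord.map fun p => (Fin.cons 1 (fun i => if p.2 then ntr (r i : Mat k)
    else (starRingEnd ℂ) (ntr (r i : Mat k))) : Fin (d + 1) → ℂ) p.1).prod

/-- all nontrivial words of length at most `N` have normalised trace at most `κ` -/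
def SmallTr {k n : ℕ} (κ : ℝ) (N : ℕ) (x : Fin n → UU k) : Prop :=
  ∀ w : FreeGroup (Fin n), w ≠ 1 → w.norm ≤ N → ‖ntr (wd x w)‖ ≤ κ

end Pool.Agent.H667R2.FG
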