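import Mathlib
import Pool.Agent.H667R2.FG.Defs

/-! The group von Neumann algebra `L(G)` on `ℓ²(G)`. -/

namespace Pool.Agent.H667R2.FG

open Matrix

/-- The Hilbert space `ℓ²(G)`. -/
abbrev Ell (G : Type) : Type := lp (fun _ : G => ℂ) 2

/-- The operator `f ↦ f ∘ e` on `ℓ²(G)` given by a bijection `e` of `G`. -/
noncomputable def permOp {G : Type} (e : G ≃ G) : Ell G →L[ℂ] Ell G :=
  LinearIsometry.toContinuousLinearMap
    { toFun := fun f => ⟨fun h => f (e h), by
        have h1 := (lp.memℓp f).summable (by norm_num)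
        refine memℓp_gen ?_
        exact (e.summable_iff (f := fun h => ‖f h‖ ^ (2 : ENNReal).toReal)).2 h1⟩
      map_add' := fun f g => by ext h; rfl
      map_smul' := fun c f => by ext h; rfl
      norm_map' := fun f => by
        have h1 : (0 : ℝ) < (2 : ENNReal).toReal := by norm_num
        rw [lp.norm_eq_tsum_rpow h1, lp.norm_eq_tsum_rpow h1]
        congr 1
        exact e.tsum_eq (fun h => ‖f h‖ ^ (2 : ENNReal).toReal) }

section

variable {G : Type} [Group G]

/-- the left regular representation: `(λ_g f)(h) = f(g⁻¹ h)` -/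
noncomputable def lam (g : G) : Ell G →L[ℂ] Ell G := permOp (Equiv.mulLeft g⁻¹)

/-- the right regular representation: `(ρ_g f)(h) = f(h g)` -/
noncomputable def rho (g : G) : Ell G →L[ℂ] Ell G := permOp (Equiv.mulRight g)

/-- the basis vector `δ_g` of `ℓ²(G)` -/
noncomputable def delta (g : G) : Ell G :=
  haveI := Classical.decEq G
  lp.single 2 g (1 : ℂ)

variable (G) in
/-- The group von Neumann algebra `L(G)`: the von Neumann algebra generated by the left
translations `λ_g` (the bicommutant of `{λ_g}`, which is the closure of the group algebra in the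
weak operator topology). -/
noncomputable def LG : VonNeumannAlgebra (Ell G) where
  toStarSubalgebra := StarSubalgebra.centralizer ℂ
    (StarSubalgebra.centralizer ℂ (Set.range (lam (G := G))) : Set (Ell G →L[ℂ] Ell G))
  centralizer_centralizer' := by
    show Set.centralizer (Set.centralizer ((StarSubalgebra.centralizer ℂ
      (StarSubalgebra.centralizer ℂ (Set.range (lam (G := G))) : Set (Ell G →L[ℂ] Ell G)) :
        StarSubalgebra ℂ (Ell G →L[ℂ] Ell G)) :
        Set (Ell G →L[ℂ] Ell G))) = ((StarSubalgebra.centralizer ℂ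
      (StarSubalgebra.centralizer ℂ (Set.range (lam (G := G))) : Set (Ell G →L[ℂ] Ell G)) :
        StarSubalgebra ℂ (Ell G →L[ℂ] Ell G)) :
        Set (Ell G →L[ℂ] Ell G))
    rw [StarSubalgebra.coe_centralizer_centralizer, Set.centralizer_centralizer_centralizer]

variable (G) in
/-- the star algebra of elements of `L(G)` -/
abbrev EltG : Type := (LG G).toStarSubalgebra

/-- the canonical trace `τ(x) = ⟨δ_1, x δ_1⟩ = (x δ_1)(1)` -/
noncomputable def tau (x : Ell G →L[ℂ] Ell G) : ℂ := (x (delta 1)) 1

end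

/-- The data used in the proof: unitaries `v_1, …, v_m` on `ℓ²(F_n)` commuting with the right
translations, free Haar unitaries for the canonical trace, with `δ_1` cyclic for them. -/
structure Core (m n : ℕ)
    (v : Fin m → unitary (Ell (FreeGroup (Fin n)) →L[ℂ] Ell (FreeGroup (Fin n)))) : Prop where
  comm : ∀ (j : Fin m) (g : FreeGroup (Fin n)),
    (v j : Ell (FreeGroup (Fin n)) →L[ℂ] Ell (FreeGroup (Fin n))) * rho g = rho g * v j
  free : ∀ w : FreeGroup (Fin m), w ≠ 1 → tau (wd v w) = 0
  dense : ∀ (ξ : Ell (FreeGroup (Fin n))) (ε : ℝ), 0 < ε →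
    ∃ f : FreeGroup (Fin m) →₀ ℂ, ‖ξ - (pol v f) (delta 1)‖ < ε

/-- `Zm k u` (a matrix depending on a unitary tuple) and the operator `Zo` are uniformly
approximated by the same finite combinations of words. -/
def Appr {m n : ℕ} (v : Fin m → unitary (Ell (FreeGroup (Fin n)) →L[ℂ] Ell (FreeGroup (Fin n))))
    (Zm : ∀ k : ℕ, (Fin m → UU k) → Mat k)
    (Zo : Ell (FreeGroup (Fin n)) →L[ℂ] Ell (FreeGroup (Fin n))) : Prop :=
  open scoped Matrix.Norms.L2Operator in
  ∀ η : ℝ, 0 < η → ∃ f : FreeGroup (Fin m) →₀ ℂ,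
    (∀ (k : ℕ) (U : Fin m → UU k), ‖Zm k U - pol U f‖ ≤ η) ∧ ‖Zo - pol v f‖ ≤ η

end Pool.Agent.H667R2.FG
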