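import Mathlib
import Pool.Agent.H667R2.FG.Defs
import Pool.Agent.H667R2.FG.OpDefs

namespace Pool.Agent.H667R2.FG

/-- Hermitian matrix from a real matrix; an isometry for the Euclidean norms -/
noncomputable def herm {k : ℕ} (S : Fin k × Fin k → ℝ) : Mat k := fun i j =>
  (((S (i, j) + S (j, i)) / 2 : ℝ) : ℂ) + (((S (i, j) - S (j, i)) / 2 : ℝ) : ℂ) * Complex.I

/-- operators on `ℓ²(G)` -/
abbrev Op (G : Type) := Ell G →L[ℂ] Ell G

end Pool.Agent.H667R2.FG
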