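import Mathlib
import Pool.Agent.H667R2.FG.Defs
import Pool.Agent.H667R2.FG.OpDefs
import Pool.Agent.H667R2.FG.Herm

/-! Task L2: facts on `ℓ²(G)`. -/

namespace Pool.Agent.H667R2.FG.TL2

open MeasureTheory Matrix Filter
open scoped Matrix.Norms.L2Operator ComplexConjugate ENNReal InnerProductSpace

section
variable {G : Type}

theorem permOp_apply (e : G ≃ G) (f : Ell G) (h : G) : (permOp e f) h = f (e h) := rfl

theorem permOp_mul (e e' : G ≃ G) : permOp e * permOp e' = permOp (e.trans e') := by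
  ext f h
  rfl

theorem permOp_refl : permOp (Equiv.refl G) = 1 := by
  ext f h
  rfl

theorem star_permOp (e : G ≃ G) : star (permOp e) = permOp e.symm := by
  rw [ContinuousLinearMap.star_eq_adjoint]
  symm
  rw [ContinuousLinearMap.eq_adjoint_iff]
  intro x y
  have h1 := lp.hasSum_inner (𝕜 := ℂ) (permOp e.symm x) y
  have h2 := lp.hasSum_inner (𝕜 := ℂ) x (permOp e y)
  have h3 := (e.symm.hasSum_iff (f := fun i => ⟪x i, (permOp e y) i⟫_ℂ)
    (a := ⟪x, permOp e y⟫_ℂ)).2 h2
  refine h1.unique ?_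
  refine h3.congr_fun ?_
  intro i
  show ⟪(permOp e.symm x) i, y i⟫_ℂ = ⟪x (e.symm i), (permOp e y) (e.symm i)⟫_ℂ
  rw [permOp_apply, permOp_apply, e.apply_symm_apply]

variable [Group G]

theorem delta_apply [DecidableEq G] (g h : G) : (delta g : Ell G) h = if h = g then 1 else 0 := by
  by_cases hh : h = g
  · subst hh
    rw [if_pos rfl]
    exact @lp.single_apply_self G (fun _ : G => ℂ) _ (Classical.decEq G) 2 h (1 : ℂ)
  · rw [if_neg hh]
    exact @lp.single_apply_ne G (fun _ : G => ℂ) _ (Classical.decEq G) 2 g (1 : ℂ) h hh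

theorem norm_delta (g : G) : ‖(delta g : Ell G)‖ = 1 := by
  letI := Classical.decEq G
  exact (lp.norm_single (E := fun _ : G => ℂ) (p := 2) (by norm_num) g (1 : ℂ)).trans norm_one

theorem inner_delta (g : G) (y : Ell G) : ⟪(delta g : Ell G), y⟫_ℂ = y g := by
  letI := Classical.decEq G
  exact (lp.inner_single_left (𝕜 := ℂ) (G := fun _ : G => ℂ) g (1 : ℂ) y).trans (by simp)

theorem lam_delta (g h : G) : lam g (delta h) = delta (g * h) := by
  classical
  ext k
  show (delta h : Ell G) (g⁻¹ * k) = (delta (g * h) : Ell G) k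
  rw [delta_apply, delta_apply]
  have : g⁻¹ * k = h ↔ k = g * h := by
    constructor
    · rintro rfl; group
    · rintro rfl; group
  simp only [this]

theorem rho_delta (g h : G) : rho g (delta h) = delta (h * g⁻¹) := by
  classical
  ext k
  show (delta h : Ell G) (k * g) = (delta (h * g⁻¹) : Ell G) k
  rw [delta_apply, delta_apply]
  have : k * g = h ↔ k = h * g⁻¹ := by
    constructor
    · rintro rfl; group
    · rintro rfl; group
  simp only [this]

theorem lam_mul (g h : G) : lam (g * h) = lam g * lam h := by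
  unfold lam
  rw [permOp_mul]
  congr 1
  ext k
  show (g * h)⁻¹ * k = h⁻¹ * (g⁻¹ * k)
  group

theorem lam_one : lam (1 : G) = 1 := by
  unfold lam
  rw [← permOp_refl]
  congr 1
  ext k
  show (1 : G)⁻¹ * k = k
  group

theorem star_lam (g : G) : star (lam g) = lam g⁻¹ := by
  unfold lam
  rw [star_permOp]
  congr 1
  ext k
  rfl

theorem star_rho (g : G) : star (rho g) = rho g⁻¹ := by
  unfold rho
  rw [star_permOp]
  congr 1
  ext k
  rfl

theorem lam_unitary (g : G) : lam g ∈ unitary (Ell G →L[ℂ] Ell G) := by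
  rw [Unitary.mem_iff, star_lam, ← lam_mul, ← lam_mul, inv_mul_cancel, mul_inv_cancel, lam_one]
  exact ⟨rfl, rfl⟩

theorem lam_rho (g h : G) : lam g * rho h = rho h * lam g := by
  unfold lam rho
  rw [permOp_mul, permOp_mul]
  congr 1
  ext k
  show g⁻¹ * k * h = g⁻¹ * (k * h)
  group

theorem mem_LG (z : Ell G →L[ℂ] Ell G) : z ∈ LG G ↔
    ∀ t ∈ StarSubalgebra.centralizer ℂ (Set.range (lam (G := G))), t * z = z * t ∧
      star t * z = z * star t :=
  StarSubalgebra.mem_centralizer_iff (R := ℂ)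

theorem mem_comm (t : Ell G →L[ℂ] Ell G) :
    t ∈ StarSubalgebra.centralizer ℂ (Set.range (lam (G := G))) ↔
      ∀ g : G, lam g * t = t * lam g := by
  rw [StarSubalgebra.mem_centralizer_iff (R := ℂ)]
  constructor
  · intro h g
    exact (h _ ⟨g, rfl⟩).1
  · rintro h _ ⟨g, rfl⟩
    refine ⟨h g, ?_⟩
    rw [star_lam]
    exact h g⁻¹

theorem lam_mem (g : G) : lam g ∈ LG G := by
  rw [mem_LG]
  intro t ht
  have ht' := (mem_comm t).1 ht
  refine ⟨(ht' g).symm, ?_⟩
  have h1 := congrArg star (ht' g⁻¹)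
  rw [star_mul, star_mul, star_lam, inv_inv] at h1
  exact h1

/-- elements of `L(G)` commute with right translations -/
theorem comm_rho (x : Ell G →L[ℂ] Ell G) (hx : x ∈ LG G) (g : G) : x * rho g = rho g * x := by
  rw [mem_LG] at hx
  exact ((hx (rho g) ((mem_comm _).2 fun h => lam_rho h g)).1).symm

theorem coef_apply (x : Ell G →L[ℂ] Ell G) (hx : ∀ g, x * rho g = rho g * x) (h k : G) :
    (x (delta h)) k = (x (delta 1)) (k * h⁻¹) := by
  have h1 : (delta h : Ell G) = rho h⁻¹ (delta 1) := by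
    rw [rho_delta]
    congr 1
    group
  have h2 := congrArg (fun z : Ell G →L[ℂ] Ell G => z (delta 1)) (hx h⁻¹)
  have h3 : x (rho h⁻¹ (delta 1)) = rho h⁻¹ (x (delta 1)) := h2
  rw [h1, h3]
  rfl

theorem star_coef (x : Ell G →L[ℂ] Ell G) (hx : ∀ g, x * rho g = rho g * x) (h : G) :
    ((star x) (delta 1)) h = conj ((x (delta 1)) h⁻¹) := by
  rw [← inner_delta h, ContinuousLinearMap.star_eq_adjoint,
    ContinuousLinearMap.adjoint_inner_right, ← inner_conj_symm, inner_delta,
    coef_apply x hx h 1, one_mul]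

/-- an operator commuting with right translations: the trace property -/
theorem norm_star_delta (x : Ell G →L[ℂ] Ell G) (hx : ∀ g, x * rho g = rho g * x) :
    ‖(star x) (delta 1)‖ = ‖x (delta 1)‖ := by
  have h1 : (0 : ℝ) < (2 : ENNReal).toReal := by norm_num
  rw [lp.norm_eq_tsum_rpow h1, lp.norm_eq_tsum_rpow h1]
  congr 1
  rw [← (Equiv.inv G).tsum_eq (fun h => ‖(x (delta 1)) h‖ ^ (2 : ENNReal).toReal)]
  refine tsum_congr fun h => ?_
  rw [star_coef x hx h, RCLike.norm_conj]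
  rfl

theorem star_comm_rho (x : Ell G →L[ℂ] Ell G) (hx : ∀ g, x * rho g = rho g * x) (g : G) :
    star x * rho g = rho g * star x := by
  have h1 := congrArg star (hx g⁻¹)
  rw [star_mul, star_mul, star_rho, inv_inv] at h1
  exact h1.symm

/-- right multiplication by a unitary of the algebra preserves the 2-norm -/
theorem norm_mul_unitary_delta (x u : Ell G →L[ℂ] Ell G) (hx : ∀ g, x * rho g = rho g * x)
    (hu : ∀ g, u * rho g = rho g * u) (hu' : u ∈ unitary (Ell G →L[ℂ] Ell G)) :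
    ‖(x * u) (delta 1)‖ = ‖x (delta 1)‖ := by
  have hxu : ∀ g, (x * u) * rho g = rho g * (x * u) := by
    intro g
    rw [mul_assoc, hu, ← mul_assoc, hx, mul_assoc]
  rw [← norm_star_delta (x * u) hxu, star_mul]
  show ‖(star u) ((star x) (delta 1))‖ = _
  rw [ContinuousLinearMap.norm_map_of_mem_unitary (Unitary.star_mem hu'), norm_star_delta x hx]

theorem norm_tau_le (x : Ell G →L[ℂ] Ell G) : ‖tau x‖ ≤ ‖x (delta 1)‖ :=
  lp.norm_apply_le_norm (by norm_num) _ _

theorem exp_comm_rho (a : Ell G →L[ℂ] Ell G) (ha' : ∀ g, a * rho g = rho g * a) (g : G) :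
    NormedSpace.exp (Complex.I • a) * rho g = rho g * NormedSpace.exp (Complex.I • a) := by
  have h : Commute (Complex.I • a) (rho g) := (show Commute a (rho g) from ha' g).smul_left _
  exact h.exp_left

theorem pow_sub_pow_delta (A B : Ell G →L[ℂ] Ell G) (hA : ∀ g, A * rho g = rho g * A)
    (hB : ∀ g, B * rho g = rho g * B) (hA' : A ∈ unitary (Ell G →L[ℂ] Ell G))
    (hB' : B ∈ unitary (Ell G →L[ℂ] Ell G)) (n : ℕ) :
    ‖(A ^ n - B ^ n) (delta 1)‖ ≤ n * ‖(A - B) (delta 1)‖ := by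
  induction n with
  | zero => simp
  | succ n ih =>
    have e : A ^ (n + 1) - B ^ (n + 1) = A * (A ^ n - B ^ n) + (A - B) * B ^ n := by
      rw [pow_succ', pow_succ']
      noncomm_ring
    have hAB : ∀ g, (A - B) * rho g = rho g * (A - B) := by
      intro g
      rw [sub_mul, mul_sub, hA, hB]
    have hBn : ∀ g, B ^ n * rho g = rho g * B ^ n := by
      intro g
      exact ((show Commute B (rho g) from hB g).pow_left n)
    have hBn' : B ^ n ∈ unitary (Ell G →L[ℂ] Ell G) := pow_mem hB' n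
    rw [e]
    refine (norm_add_le ((A * (A ^ n - B ^ n)) (delta 1)) (((A - B) * B ^ n) (delta 1))).trans ?_
    rw [norm_mul_unitary_delta (A - B) (B ^ n) hAB hBn hBn']
    have h2 : ‖(A * (A ^ n - B ^ n)) (delta 1)‖ = ‖(A ^ n - B ^ n) (delta 1)‖ :=
      ContinuousLinearMap.norm_map_of_mem_unitary hA' _
    rw [h2, Nat.cast_succ]
    linarith

theorem hasDerivAt_exp0 (c : Ell G →L[ℂ] Ell G) :
    HasDerivAt (fun t : ℂ => NormedSpace.exp (t • (Complex.I • c))) (Complex.I • c) 0 := by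
  have h := hasDerivAt_exp_smul_const (𝕂 := ℂ) (Complex.I • c) (0 : ℂ)
  have e : NormedSpace.exp ((0 : ℂ) • (Complex.I • c)) * (Complex.I • c) = Complex.I • c := by
    have e0 : (0 : ℂ) • (Complex.I • c) = 0 := zero_smul ℂ _
    rw [e0, NormedSpace.exp_zero, one_mul]
  rw [e] at h
  exact h

theorem exp_mem_unitary (c : Ell G →L[ℂ] Ell G) (hc : IsSelfAdjoint c) :
    NormedSpace.exp (Complex.I • c) ∈ unitary (Ell G →L[ℂ] Ell G) := by
  have := (selfAdjoint.expUnitary ⟨c, selfAdjoint.mem_iff.2 hc.star_eq⟩).2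
  rwa [selfAdjoint.expUnitary_coe] at this

/-- `L²`-Lipschitz bound for exponentials -/
theorem exp_lip_delta (a b : Ell G →L[ℂ] Ell G) (ha : IsSelfAdjoint a) (hb : IsSelfAdjoint b)
    (ha' : ∀ g, a * rho g = rho g * a) (hb' : ∀ g, b * rho g = rho g * b) :
    ‖(NormedSpace.exp (Complex.I • a) - NormedSpace.exp (Complex.I • b)) (delta 1)‖
      ≤ ‖(a - b) (delta 1)‖ := by
  -- the function `f t = (e^{ita} - e^{itb}) δ`
  set f : ℂ → Ell G := fun t =>
    (NormedSpace.exp (t • (Complex.I • a)) - NormedSpace.exp (t • (Complex.I • b))) (delta 1) with hf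
  have hd : HasDerivAt f ((Complex.I • a - Complex.I • b) (delta 1)) 0 := by
    have h3 := (hasDerivAt_exp0 a).sub (hasDerivAt_exp0 b)
    have h4 := (ContinuousLinearMap.apply ℂ (Ell G)
      (delta 1 : Ell G)).hasFDerivAt.comp_hasDerivAt (0 : ℂ) h3
    exact h4
  have hslope := hd.tendsto_slope_zero
  have hne : ∀ n : ℕ, ((n : ℂ) + 1) ≠ 0 := fun n => Nat.cast_add_one_ne_zero n
  have hseq : Tendsto (fun n : ℕ => (1 / ((n : ℂ) + 1))) atTop (nhdsWithin 0 {0}ᶜ) := by
    rw [tendsto_nhdsWithin_iff]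
    refine ⟨tendsto_one_div_add_atTop_nhds_zero_nat, Eventually.of_forall fun n => ?_⟩
    simp only [Set.mem_compl_iff, Set.mem_singleton_iff]
    exact one_div_ne_zero (hne n)
  have hlim := (hslope.comp hseq).norm
  have hnorm : ‖(Complex.I • a - Complex.I • b) (delta 1)‖ = ‖(a - b) (delta 1)‖ := by
    rw [← smul_sub]
    show ‖Complex.I • ((a - b) (delta 1))‖ = _
    rw [norm_smul, Complex.norm_I, one_mul]
  rw [hnorm] at hlim
  refine ge_of_tendsto' hlim fun n => ?_
  have hf0 : f 0 = 0 := by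
    show (NormedSpace.exp ((0 : ℂ) • (Complex.I • a)) - NormedSpace.exp ((0 : ℂ) • (Complex.I • b))) (delta 1) = 0
    have e0 : ∀ c : Ell G →L[ℂ] Ell G, (0 : ℂ) • (Complex.I • c) = 0 := fun c => zero_smul ℂ _
    rw [e0, e0, sub_self]
    rfl
  have hpos : (0 : ℝ) < (n : ℝ) + 1 := by positivity
  have hval : ‖((fun t : ℂ => t⁻¹ • (f (0 + t) - f 0)) ∘ fun n : ℕ => (1 / ((n : ℂ) + 1))) n‖
      = ((n : ℝ) + 1) * ‖f (1 / ((n : ℂ) + 1))‖ := by
    simp only [Function.comp_apply]
    rw [zero_add, hf0, sub_zero, norm_smul, one_div, inv_inv]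
    congr 1
    have : ((n : ℂ) + 1) = (((n : ℝ) + 1 : ℝ) : ℂ) := by push_cast; rfl
    rw [this, Complex.norm_real, Real.norm_eq_abs, abs_of_pos hpos]
  rw [hval]
  -- telescoping
  have hcomm : ∀ c : Ell G →L[ℂ] Ell G, (1 / ((n : ℂ) + 1)) • (Complex.I • c)
      = Complex.I • ((1 / ((n : ℂ) + 1)) • c) := fun c => smul_comm _ _ _
  have hsa : ∀ (c : Ell G →L[ℂ] Ell G), IsSelfAdjoint c →
      IsSelfAdjoint ((1 / ((n : ℂ) + 1)) • c) := by
    intro c hc
    refine IsSelfAdjoint.smul ?_ hc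
    rw [isSelfAdjoint_iff]
    simp
  have hu : ∀ (c : Ell G →L[ℂ] Ell G), IsSelfAdjoint c →
      NormedSpace.exp ((1 / ((n : ℂ) + 1)) • (Complex.I • c)) ∈ unitary (Ell G →L[ℂ] Ell G) := by
    intro c hc
    rw [hcomm c]
    exact exp_mem_unitary _ (hsa c hc)
  have hc : ∀ (c : Ell G →L[ℂ] Ell G), (∀ g, c * rho g = rho g * c) → ∀ (g : G),
      NormedSpace.exp ((1 / ((n : ℂ) + 1)) • (Complex.I • c)) * rho g
        = rho g * NormedSpace.exp ((1 / ((n : ℂ) + 1)) • (Complex.I • c)) := by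
    intro c hc g
    rw [hcomm c]
    exact exp_comm_rho _ (fun g => by rw [smul_mul_assoc, hc g, mul_smul_comm]) g
  have key := pow_sub_pow_delta _ _ (hc a ha') (hc b hb') (hu a ha) (hu b hb) (n + 1)
  have hpow : ∀ c : Ell G →L[ℂ] Ell G,
      NormedSpace.exp ((1 / ((n : ℂ) + 1)) • (Complex.I • c)) ^ (n + 1)
        = NormedSpace.exp (Complex.I • c) := by
    intro c
    letI : NormedAlgebra ℚ (Ell G →L[ℂ] Ell G) := NormedAlgebra.restrictScalars ℚ ℂ _
    rw [← NormedSpace.exp_nsmul]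
    congr 1
    rw [← Nat.cast_smul_eq_nsmul ℂ, smul_smul]
    have : (((n + 1 : ℕ) : ℂ) * (1 / ((n : ℂ) + 1))) = 1 := by
      rw [Nat.cast_succ, mul_one_div_cancel (hne n)]
    rw [this, one_smul]
  rw [hpow, hpow, Nat.cast_succ] at key
  exact key

end

end Pool.Agent.H667R2.FG.TL2

namespace Pool.Agent.H667R2.FG

alias delta_apply := TL2.delta_apply
alias norm_delta := TL2.norm_delta
alias lam_delta := TL2.lam_delta
alias rho_delta := TL2.rho_delta
alias lam_mul := TL2.lam_mul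
alias lam_one := TL2.lam_one
alias star_lam := TL2.star_lam
alias lam_unitary := TL2.lam_unitary
alias lam_mem := TL2.lam_mem
alias lam_rho := TL2.lam_rho
alias comm_rho := TL2.comm_rho
alias norm_star_delta := TL2.norm_star_delta
alias star_comm_rho := TL2.star_comm_rho
alias norm_mul_unitary_delta := TL2.norm_mul_unitary_delta
alias norm_tau_le := TL2.norm_tau_le
alias exp_lip_delta := TL2.exp_lip_delta
alias exp_comm_rho := TL2.exp_comm_rho

end Pool.Agent.H667R2.FG
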