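import Mathlib
import Pool.Agent.H667R2.FG.Defs
import Pool.Agent.H667R2.FG.OpDefs

/-! Task statements (stubs). Do not import; each task gets its own file. -/

namespace Pool.Agent.H667R2.FG

open MeasureTheory Matrix Filter
open scoped Matrix.Norms.L2Operator ComplexConjugate ENNReal

/-! ## Task HS: basic properties of `ntr`, `hs`, `wd`, `pol` (all elementary) -/

section HS
variable {k : ℕ}

theorem hs_nonneg (a : Mat k) : 0 ≤ hs a := sorry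
theorem hs_sq (a : Mat k) : hs a ^ 2 = (k : ℝ)⁻¹ * ∑ i, ∑ j, ‖a i j‖ ^ 2 := sorry
theorem hs_sq_tr (a : Mat k) : ((hs a ^ 2 : ℝ) : ℂ) = ntr (aᴴ * a) := sorry
theorem hs_zero : hs (0 : Mat k) = 0 := sorry
theorem hs_add_le (a b : Mat k) : hs (a + b) ≤ hs a + hs b := sorry
theorem hs_neg (a : Mat k) : hs (-a) = hs a := sorry
theorem hs_smul (c : ℂ) (a : Mat k) : hs (c • a) = ‖c‖ * hs a := sorry
theorem hs_sub_le (a b : Mat k) : hs (a - b) ≤ hs a + hs b := sorry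
theorem hs_sub_comm (a b : Mat k) : hs (a - b) = hs (b - a) := sorry
theorem hs_conjTranspose (a : Mat k) : hs aᴴ = hs a := sorry
theorem hs_mul_le (a b : Mat k) : hs (a * b) ≤ ‖a‖ * hs b := sorry
theorem hs_mul_le' (a b : Mat k) : hs (a * b) ≤ hs a * ‖b‖ := sorry
theorem hs_le_norm (a : Mat k) : hs a ≤ ‖a‖ := sorry
theorem hs_unitary_mul (u : UU k) (a : Mat k) : hs ((u : Mat k) * a) = hs a := sorry
theorem hs_mul_unitary (u : UU k) (a : Mat k) : hs (a * (u : Mat k)) = hs a := sorry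
theorem hs_unitary (hk : 0 < k) (u : UU k) : hs (u : Mat k) = 1 := sorry
theorem norm_ntr_le (a : Mat k) : ‖ntr a‖ ≤ ‖a‖ := sorry
theorem norm_ntr_le_hs (a : Mat k) : ‖ntr a‖ ≤ hs a := sorry
theorem ntr_mul_comm (a b : Mat k) : ntr (a * b) = ntr (b * a) := sorry
theorem ntr_add (a b : Mat k) : ntr (a + b) = ntr a + ntr b := sorry
theorem ntr_sub (a b : Mat k) : ntr (a - b) = ntr a - ntr b := sorry
theorem ntr_smul (c : ℂ) (a : Mat k) : ntr (c • a) = c * ntr a := sorry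
theorem ntr_one (hk : 0 < k) : ntr (1 : Mat k) = 1 := sorry
theorem ntr_conjTranspose (a : Mat k) : ntr aᴴ = conj (ntr a) := sorry
theorem continuous_hs : Continuous (hs : Mat k → ℝ) := sorry
theorem continuous_ntr : Continuous (ntr : Mat k → ℂ) := sorry
theorem wd_one {ι : Type} (U : ι → UU k) : wd U 1 = (1 : Mat k) := sorry
theorem wd_mul {ι : Type} (U : ι → UU k) (v w : FreeGroup ι) :
    (wd U (v * w) : Mat k) = wd U v * wd U w := sorry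
theorem wd_inv {ι : Type} (U : ι → UU k) (w : FreeGroup ι) :
    (wd U w⁻¹ : Mat k) = (wd U w)ᴴ := sorry
theorem norm_wd_le {ι : Type} (U : ι → UU k) (w : FreeGroup ι) : ‖(wd U w : Mat k)‖ ≤ 1 := sorry
theorem norm_pol_le {ι : Type} (U : ι → UU k) (f : FreeGroup ι →₀ ℂ) :
    ‖(pol U f : Mat k)‖ ≤ f.sum fun _ c => ‖c‖ := sorry
theorem continuous_wd {ι : Type} (w : FreeGroup ι) :
    Continuous (fun U : ι → UU k => (wd U w : Mat k)) := sorry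
theorem continuous_pol {ι : Type} (f : FreeGroup ι →₀ ℂ) :
    Continuous (fun U : ι → UU k => (pol U f : Mat k)) := sorry
theorem wd_conj {ι : Type} (V : UU k) (U : ι → UU k) (w : FreeGroup ι) :
    (wd (fun i => V * U i * V⁻¹) w : Mat k) = (V : Mat k) * wd U w * ((V⁻¹ : UU k) : Mat k) := sorry
theorem pol_conj {ι : Type} (V : UU k) (U : ι → UU k) (f : FreeGroup ι →₀ ℂ) :
    (pol (fun i => V * U i * V⁻¹) f : Mat k) = (V : Mat k) * pol U f * ((V⁻¹ : UU k) : Mat k) := sorry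
/-- words are Lipschitz in the operator norm -/
theorem norm_wd_sub_le {n : ℕ} (x y : Fin n → UU k) (ε : ℝ)
    (h : ∀ i, ‖(x i : Mat k) - (y i : Mat k)‖ ≤ ε) (w : FreeGroup (Fin n)) :
    ‖(wd x w : Mat k) - wd y w‖ ≤ w.norm * ε := sorry
theorem norm_pol_sub_le {n : ℕ} (x y : Fin n → UU k) (ε : ℝ)
    (h : ∀ i, ‖(x i : Mat k) - (y i : Mat k)‖ ≤ ε) (f : FreeGroup (Fin n) →₀ ℂ) :
    ‖(pol x f : Mat k) - pol y f‖ ≤ (f.sum fun w c => ‖c‖ * w.norm) * ε := sorry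
end HS

/-! ## Task LOOP -/
theorem loop {k : ℕ} {ι : Type} [Fintype ι] [DecidableEq ι] (i₀ : ι) (w : List (Syl k ι)) :
    ∫ U, (((terms U i₀ w).map fun t => t.1 * t.2.1.trace * t.2.2.trace).sum) *
        conj (evS U w).trace ∂(haarP k ι)
      = ∫ U, ((terms U i₀ w).map fun t => t.1 * ((t.2.2 * t.2.1)ᴴ * evS U w).trace).sum
        ∂(haarP k ι) := sorry

/-! ## Task AF -/
theorem asympFree : ∃ C : ℕ → ℝ, (∀ r, 0 ≤ C r) ∧ ∀ (k : ℕ), 0 < k → ∀ (ι : Type) [Fintype ι]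
    [DecidableEq ι] (w : List (Syl k ι)), w ≠ [] → GoodW w →
    ∫ U, ‖ntr (evS U w)‖ ^ 2 ∂(haarP k ι) ≤ C w.length * nrm w ^ 2 / (k : ℝ) ^ 2 := sorry

/-! ## Task S1 -/
theorem haar_moments (m : ℕ) (f : FreeGroup (Fin m) →₀ ℂ) (η : ℝ) (hη : 0 < η) :
    ∀ᶠ k in atTop, haarP k (Fin m) {u | η ≤ ‖ntr (pol u f : Mat k) - f 1‖} ≤ ENNReal.ofReal η :=
  sorry

/-! ## Task S2 -/
theorem pertWord (d : ℕ) : ∃ C : ℕ → ℝ, (∀ N, 0 ≤ C N) ∧ ∀ (k : ℕ), 0 < k →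
    ∀ (x : Fin (d + 1) → UU k) (r : Fin d → UU k) (N : ℕ) (κ : ℝ), 0 ≤ κ → κ ≤ 1 →
    SmallTr κ N x → ∀ w : FreeGroup (Fin (d + 1)), w.norm ≤ N → ∀ B : Mat k, ‖B‖ ≤ 1 →
    ‖(∫ W, ntr (B * wd (pert x r W) w) ∂(haarP k (Fin d))) - phi r w * ntr (B * wd x w)‖
      ≤ C N * (κ + 1 / k) := sorry

/-! ## Task PHI -/
theorem phi_bound {k d : ℕ} (r : Fin d → UU k) (ε β : ℝ) (hε : 0 < ε) (hε' : ε ≤ 1 / 10)
    (hβ : 0 ≤ β)
    (h1 : ∀ i, ‖(r i : Mat k) - 1‖ ≤ 4 * ε) (h2 : ∀ i, |(ntr (r i : Mat k)).im| ≤ β) (hk : 0 < k)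
    (w : FreeGroup (Fin (d + 1))) :
    2 * (1 - (phi r w).re) ≤ 16 * min 1 ((blen w : ℝ) * ε ^ 2) + 2 * (w.norm : ℝ) * β := sorry
theorem norm_phi_le {k d : ℕ} (hk : 0 < k) (r : Fin d → UU k) (w : FreeGroup (Fin (d + 1))) :
    ‖phi r w‖ ≤ 1 := sorry

/-! ## Task QUAD (uses S2, PHI) -/
theorem quadEst (m d N : ℕ) (F : Fin m → (FreeGroup (Fin (d + 1)) →₀ ℂ)) (ε : ℝ)
    (ρ : Fin m → ℝ) (hm : 0 < m) (hε : 0 < ε) (hε' : ε ≤ 1 / 10) (hρ : ∀ j, ε ≤ ρ j)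
    (hN : ∀ j, ∀ w ∈ (F j).support, w.norm ≤ N)
    (hF : ∀ j, ((F j).sum fun w c => ‖c‖ ^ 2 * min 1 ((blen w : ℝ) * ε ^ 2)) ≤ ρ j ^ 2) :
    ∃ κ > 0, ∃ β > 0, ∃ k₀ : ℕ, ∀ k ≥ k₀, 0 < k → ∀ (x : Fin (d + 1) → UU k) (u : Fin m → UU k),
      SmallTr κ (2 * N) x → (∀ j, hs ((pol x (F j) : Mat k) - (u j : Mat k)) ≤ 2 * ρ j) →
      ∀ r : Fin d → UU k, (∀ i, ‖(r i : Mat k) - 1‖ ≤ 4 * ε) →
        (∀ i, |(ntr (r i : Mat k)).im| ≤ β) →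
        1 / 2 ≤ haarP k (Fin d)
          {W | ∀ j, hs ((pol (pert x r W) (F j) : Mat k) - (u j : Mat k)) ≤ 10 * √m * ρ j} := sorry

/-! ## Task EXPL: exponential facts in `M_k(ℂ)` -/
theorem unitary_exp {k : ℕ} (u : UU k) : ∃ c : ℂ, ‖c‖ = 1 ∧ ∃ h : Mat k, h.IsHermitian ∧
    ‖h‖ ≤ Real.pi ∧ (u : Mat k) = c • NormedSpace.exp (Complex.I • h) := sorry
theorem exp_lip {k : ℕ} (a b : Mat k) (ha : a.IsHermitian) (hb : b.IsHermitian) :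
    ‖NormedSpace.exp (Complex.I • a) - NormedSpace.exp (Complex.I • b)‖ ≤ ‖a - b‖ := sorry
theorem exp_lower {k : ℕ} (a b : Mat k) (ha : a.IsHermitian) (hb : b.IsHermitian)
    (ha' : ‖a‖ ≤ 1 / 4) (hb' : ‖b‖ ≤ 1 / 4) :
    hs (a - b) ≤ 2 * hs (NormedSpace.exp (Complex.I • a) - NormedSpace.exp (Complex.I • b)) :=
  sorry

/-! ## Task NET -/
theorem packing {E : Type*} [NormedAddCommGroup E] [NormedSpace ℝ E] [FiniteDimensional ℝ E]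
    (s : Finset E) (R δ : ℝ) (hR : 0 < R) (hδ : 0 < δ) (h1 : ∀ c ∈ s, ‖c‖ ≤ R)
    (h2 : ∀ c ∈ s, ∀ c' ∈ s, c ≠ c' → δ ≤ ‖c - c'‖) :
    (s.card : ℝ) ≤ (1 + 2 * R / δ) ^ (Module.finrank ℝ E) := sorry
/-- uses `packing`, `unitary_exp`, `exp_lip` -/
theorem net_unitary : ∃ C : ℝ, 1 ≤ C ∧ ∀ k : ℕ, 0 < k → ∀ ε : ℝ, 0 < ε → ε ≤ 1 →
    ∃ T : Finset (UU k), (T.card : ℝ) ≤ (C / ε) ^ (k ^ 2 + 1) ∧
      ∀ u : UU k, ∃ v ∈ T, ‖(u : Mat k) - (v : Mat k)‖ ≤ ε := sorry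

/-! ## Task PHASE (uses `net_unitary`) -/
theorem net_phase : ∃ C : ℝ, 1 ≤ C ∧ ∀ ε : ℝ, 0 < ε → ε ≤ 1 / 10 → ∀ β : ℝ, 0 < β →
    ∃ L : ℝ, 1 ≤ L ∧ ∀ k : ℕ, 0 < k →
    ∃ T : Finset (UU k), (T.card : ℝ) ≤ L * (C / ε) ^ (k ^ 2 + 1) ∧
      ∀ p : UU k, ∃ v ∈ T, ‖((p⁻¹ * v : UU k) : Mat k) - 1‖ ≤ 4 * ε ∧
        |(ntr ((p⁻¹ * v : UU k) : Mat k)).im| ≤ β := sorry

/-! ## Task DIAG (uses `unitary_exp`) -/
theorem net_diag : ∃ C : ℝ, 1 ≤ C ∧ ∀ k : ℕ, 0 < k → ∀ ε : ℝ, 0 < ε → ε ≤ 1 →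
    ∃ T : Finset (UU k), (T.card : ℝ) ≤ (C / ε) ^ k ∧
      ∀ u : UU k, ∃ V : UU k, ∃ v ∈ T, ‖((V⁻¹ * u * V : UU k) : Mat k) - (v : Mat k)‖ ≤ ε := sorry

/-! ## Task RAND: most Hermitian matrices with entries in the unit box have norm `O(√k)` -/
/-- Hermitian matrix from a real matrix; an isometry for the Euclidean norms -/
noncomputable def herm {k : ℕ} (S : Fin k × Fin k → ℝ) : Mat k := fun i j =>
  (((S (i, j) + S (j, i)) / 2 : ℝ) : ℂ) + (((S (i, j) - S (j, i)) / 2 : ℝ) : ℂ) * Complex.I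
theorem rand_norm : ∃ C : ℝ, 1 ≤ C ∧ ∀ k : ℕ, 0 < k →
    volume {S : Fin k × Fin k → ℝ | (∀ p, |S p| ≤ 1) ∧ C * √k ≤ ‖herm S‖}
      ≤ ENNReal.ofReal (2 ^ (k ^ 2) / 2) := sorry

/-! ## Task PACK (uses `rand_norm`) -/
theorem pack_herm : ∃ c : ℝ, 0 < c ∧ ∀ k : ℕ, 0 < k → ∀ δ : ℝ, 0 < δ → δ ≤ 1 →
    ∃ s : Finset (Mat k), (∀ a ∈ s, a.IsHermitian ∧ ‖a‖ ≤ 1 / 4) ∧
      (∀ a ∈ s, ∀ b ∈ s, a ≠ b → δ ≤ hs (a - b)) ∧ (c / δ) ^ (k ^ 2) ≤ s.card := sorry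

/-! ## Task BALL (uses `pack_herm`, `exp_lower`) -/
theorem small_ball : ∃ C : ℝ, 1 ≤ C ∧ ∀ k : ℕ, 0 < k → ∀ (T : Mat k) (δ : ℝ), 0 < δ →
    haarU k {u | hs ((u : Mat k) - T) ≤ δ} ≤ ENNReal.ofReal ((C * δ) ^ (k ^ 2)) := sorry

/-! ## Task ORB (uses `small_ball`, `net_unitary`) -/
theorem orbit_ball : ∃ C : ℝ, 1 ≤ C ∧ ∀ k : ℕ, 0 < k → ∀ (m : ℕ), 0 < m → ∀ (T : Fin m → Mat k)
    (A : Fin m → ℝ) (ρ₀ : ℝ), 0 < ρ₀ → ρ₀ ≤ 1 → (∀ j, ρ₀ ≤ A j) →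
    haarP k (Fin m) {u | ∃ V : UU k, ∀ j, hs ((u j : Mat k) - (V : Mat k) * T j * ((V⁻¹ : UU k) : Mat k)) ≤ A j}
      ≤ ENNReal.ofReal ((C / ρ₀) ^ (k ^ 2 + 1) * ∏ j, (C * A j) ^ (k ^ 2)) := sorry

/-! ## Task FUB -/
theorem fubini_net (k m d : ℕ) (D N : Finset (UU k)) (T : (Fin (d + 1) → UU k) → Fin m → Mat k)
    (hT : ∀ j, Continuous fun y => T y j) (A : Fin m → ℝ) (B : ℝ≥0∞)
    (hB : ∀ y, haarP k (Fin m)
      {u | ∃ V : UU k, ∀ j, hs ((u j : Mat k) - (V : Mat k) * T y j * ((V⁻¹ : UU k) : Mat k)) ≤ A j} ≤ B)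
    (S : Set (Fin m → UU k)) (hS : MeasurableSet S)
    (hmain : ∀ u ∈ S, ∃ V₀ : UU k, ∃ D₀ ∈ D, ∃ x' : Fin d → UU k, ∀ p : Fin d → UU k,
      ∃ η : Fin d → UU k, (∀ i, η i ∈ N) ∧
        1 / 2 ≤ haarP k (Fin d) {V' : Fin d → UU k | ∀ j, hs ((u j : Mat k) -
          (V₀ : Mat k) * T (Fin.cons D₀ fun i => x' i * (V' i)⁻¹ * (p i)⁻¹ * η i * V' i) j *
            ((V₀⁻¹ : UU k) : Mat k)) ≤ A j}) :
    haarP k (Fin m) S / 2 ≤ D.card * N.card ^ d * B := sorry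

/-! ## Task MT: the matrix inequality (uses QUAD, PHASE, DIAG, ORB, FUB, HS) -/
theorem matrix_ineq : ∃ C : ℝ, 1 ≤ C ∧ ∀ (m d N : ℕ)
    (F : Fin m → (FreeGroup (Fin (d + 1)) →₀ ℂ)) (ε ρ₀ : ℝ) (ρ : Fin m → ℝ),
    0 < m → 0 < ε → ε ≤ 1 / 10 → 0 < ρ₀ → ρ₀ ≤ 1 → (∀ j, ρ₀ ≤ ρ j) → (∀ j, ε ≤ ρ j) →
    (∀ j, ∀ w ∈ (F j).support, w.norm ≤ N) →
    (∀ j, ((F j).sum fun w c => ‖c‖ ^ 2 * min 1 ((blen w : ℝ) * ε ^ 2)) ≤ ρ j ^ 2) →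
    (∀ κ > 0, ∀ᶠ k in atTop, ∃ S : Set (Fin m → UU k), MeasurableSet S ∧
      1 / 2 ≤ haarP k (Fin m) S ∧ ∀ u ∈ S, ∃ x : Fin (d + 1) → UU k, SmallTr κ (2 * N) x ∧
        ∀ j, hs ((pol x (F j) : Mat k) - (u j : Mat k)) ≤ ρ j) →
    1 ≤ (C / ε) ^ d * (C / ρ₀) * ∏ j, (C * √m * ρ j) := sorry

/-! ## operator side -/

section Op
variable {n : ℕ}

/-! ## Task L2: facts on `ℓ²(G)` -/
section
variable {G : Type} [Group G]
theorem delta_apply [DecidableEq G] (g h : G) : (delta g : Ell G) h = if h = g then 1 else 0 := sorry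
theorem norm_delta (g : G) : ‖(delta g : Ell G)‖ = 1 := sorry
theorem lam_delta (g h : G) : lam g (delta h) = delta (g * h) := sorry
theorem rho_delta (g h : G) : rho g (delta h) = delta (h * g⁻¹) := sorry
theorem lam_mul (g h : G) : lam (g * h) = lam g * lam h := sorry
theorem lam_one : lam (1 : G) = 1 := sorry
theorem star_lam (g : G) : star (lam g) = lam g⁻¹ := sorry
theorem lam_unitary (g : G) : lam g ∈ unitary (Ell G →L[ℂ] Ell G) := sorry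
theorem lam_mem (g : G) : lam g ∈ LG G := sorry
theorem lam_rho (g h : G) : lam g * rho h = rho h * lam g := sorry
/-- elements of `L(G)` commute with right translations -/
theorem comm_rho (x : Ell G →L[ℂ] Ell G) (hx : x ∈ LG G) (g : G) : x * rho g = rho g * x := sorry
/-- an operator commuting with right translations: the trace property -/
theorem norm_star_delta (x : Ell G →L[ℂ] Ell G) (hx : ∀ g, x * rho g = rho g * x) :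
    ‖(star x) (delta 1)‖ = ‖x (delta 1)‖ := sorry
theorem star_comm_rho (x : Ell G →L[ℂ] Ell G) (hx : ∀ g, x * rho g = rho g * x) (g : G) :
    star x * rho g = rho g * star x := sorry
/-- right multiplication by a unitary of the algebra preserves the 2-norm -/
theorem norm_mul_unitary_delta (x u : Ell G →L[ℂ] Ell G) (hx : ∀ g, x * rho g = rho g * x)
    (hu : ∀ g, u * rho g = rho g * u) (hu' : u ∈ unitary (Ell G →L[ℂ] Ell G)) :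
    ‖(x * u) (delta 1)‖ = ‖x (delta 1)‖ := sorry
theorem norm_tau_le (x : Ell G →L[ℂ] Ell G) : ‖tau x‖ ≤ ‖x (delta 1)‖ := sorry
/-- `L²`-Lipschitz bound for exponentials -/
theorem exp_lip_delta (a b : Ell G →L[ℂ] Ell G) (ha : IsSelfAdjoint a) (hb : IsSelfAdjoint b)
    (ha' : ∀ g, a * rho g = rho g * a) (hb' : ∀ g, b * rho g = rho g * b) :
    ‖(NormedSpace.exp (Complex.I • a) - NormedSpace.exp (Complex.I • b)) (delta 1)‖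
      ≤ ‖(a - b) (delta 1)‖ := sorry
theorem exp_comm_rho (a : Ell G →L[ℂ] Ell G) (ha' : ∀ g, a * rho g = rho g * a) (g : G) :
    NormedSpace.exp (Complex.I • a) * rho g = rho g * NormedSpace.exp (Complex.I • a) := sorry
end

/-! ## Task ANG: a Haar unitary is almost the exponential of a trigonometric polynomial -/
theorem angle_approx {G : Type} [Group G] (g : G) (hg : ∀ l : ℤ, l ≠ 0 → g ^ l ≠ 1) (η : ℝ)
    (hη : 0 < η) : ∃ (L : ℕ) (c : ℤ → ℂ), (∀ l, c (-l) = conj (c l)) ∧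
      ‖(NormedSpace.exp (Complex.I • ∑ l ∈ Finset.Icc (-(L : ℤ)) L, c l • lam (g ^ l))
        - lam g) (delta 1)‖ ≤ η := sorry

/-! ## Task CORE -/
/-- the canonical unitaries of `L(G)` -/
noncomputable def lamE {G : Type} [Group G] (g : G) : EltG G := ⟨lam g, lam_mem g⟩
theorem core_of_iso (m n : ℕ) (θ : EltG (FreeGroup (Fin m)) ≃⋆ₐ[ℂ] EltG (FreeGroup (Fin n)))
    (hθ : ∀ x : EltG (FreeGroup (Fin m)),
      tau (θ x : Ell (FreeGroup (Fin n)) →L[ℂ] Ell (FreeGroup (Fin n)))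
        = tau (x : Ell (FreeGroup (Fin m)) →L[ℂ] Ell (FreeGroup (Fin m)))) :
    ∃ v : Fin m → unitary (Ell (FreeGroup (Fin n)) →L[ℂ] Ell (FreeGroup (Fin n))),
      (∀ j, (v j : Ell (FreeGroup (Fin n)) →L[ℂ] Ell (FreeGroup (Fin n)))
        = (θ (lamE (FreeGroup.of j)) : Ell (FreeGroup (Fin n)) →L[ℂ] Ell (FreeGroup (Fin n)))) ∧
      Core m n v := sorry

/-! ## Task APPR -/
section
variable {m : ℕ} (v : Fin m → unitary (Ell (FreeGroup (Fin n)) →L[ℂ] Ell (FreeGroup (Fin n))))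
theorem Appr.pol (f : FreeGroup (Fin m) →₀ ℂ) : Appr v (fun _ U => FG.pol U f) (FG.pol v f) := sorry
theorem Appr.add {Z Z' Zo Zo'} (h : Appr v Z Zo) (h' : Appr v Z' Zo') :
    Appr v (fun k U => Z k U + Z' k U) (Zo + Zo') := sorry
theorem Appr.smul (c : ℂ) {Z Zo} (h : Appr v Z Zo) : Appr v (fun k U => c • Z k U) (c • Zo) := sorry
theorem Appr.mul {Z Z' Zo Zo'} (h : Appr v Z Zo) (h' : Appr v Z' Zo') :
    Appr v (fun k U => Z k U * Z' k U) (Zo * Zo') := sorry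
theorem Appr.star {Z Zo} (h : Appr v Z Zo) : Appr v (fun k U => (Z k U)ᴴ) (star Zo) := sorry
theorem Appr.exp {Z Zo} (h : Appr v Z Zo) :
    Appr v (fun k U => NormedSpace.exp (Z k U)) (NormedSpace.exp Zo) := sorry
/-- transfer principle: if the traces of finite combinations of words are close to their limits,
so are the traces of `Z`. -/
theorem Appr.tr {Z Zo} (hv : Core m n v) (h : Appr v Z Zo) (η : ℝ) (hη : 0 < η) :
    ∃ f : FreeGroup (Fin m) →₀ ℂ, ∀ (k : ℕ), 0 < k → ∀ U : Fin m → UU k,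
      ‖ntr (FG.pol U f : Mat k) - f 1‖ < η / 3 → ‖ntr (Z k U) - tau Zo‖ < η := sorry
end

/-! ## Task OM (uses S1, L2, ANG, APPR, HS) -/
theorem op_main (m d : ℕ)
    (v : Fin m → unitary (Ell (FreeGroup (Fin (d + 1))) →L[ℂ] Ell (FreeGroup (Fin (d + 1)))))
    (hv : Core m (d + 1) v) (F : Fin m → (FreeGroup (Fin (d + 1)) →₀ ℂ)) (σ : Fin m → ℝ)
    (hσ : ∀ j, 0 < σ j)
    (hF : ∀ j, ‖(v j : Ell (FreeGroup (Fin (d + 1))) →L[ℂ] Ell (FreeGroup (Fin (d + 1)))) (delta 1)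
      - (F j).sum fun w c => c • delta w‖ ≤ σ j) (N : ℕ) (κ : ℝ) (hκ : 0 < κ) :
    ∀ᶠ k in atTop, ∃ S : Set (Fin m → UU k), MeasurableSet S ∧ 1 / 2 ≤ haarP k (Fin m) S ∧
      ∀ u ∈ S, ∃ x : Fin (d + 1) → UU k, SmallTr κ N x ∧
        ∀ j, hs ((pol x (F j) : Mat k) - (u j : Mat k)) ≤ 2 * σ j := sorry

end Op

/-! ## Task FIN: calculus -/
theorem final_calculus (m d : ℕ) (s : Fin m → ℝ) (K : ℝ) (hK : 0 < K) (j₀ : Fin m)
    (hs0 : ∀ j, 0 ≤ s j) (hj₀ : ∀ j, s j ≤ s j₀) (ε₀ : ℝ) (hε₀ : 0 < ε₀)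
    (h : ∀ ε : ℝ, 0 < ε → ε ≤ ε₀ →
      1 ≤ K * (1 / ε) ^ d * (1 / ε ^ (s j₀)) * ∏ j, ε ^ (s j)) :
    ∑ j ∈ Finset.univ.erase j₀, s j ≤ d := sorry

end Pool.Agent.H667R2.FG
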