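import Mathlib
import Pool.Agent.H667R2.FG.TL2

namespace Pool.Agent.H667R2.FG

/-- the canonical unitaries of `L(G)` -/
noncomputable def lamE {G : Type} [Group G] (g : G) : EltG G := ⟨lam g, lam_mem g⟩

end Pool.Agent.H667R2.FG
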