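import Mathlib
import Pool.Agent.H667R2.FG.Defs
import Pool.Agent.H667R2.FG.OpDefs
import Pool.Agent.H667R2.FG.Herm
import Pool.Agent.H667R2.FG.TL2

namespace Pool.Agent.H667R2.FG.TANG

open MeasureTheory Matrix Filter
open scoped Matrix.Norms.L2Operator ComplexConjugate ENNReal

noncomputable section

instance fact2pi : Fact (0 < 2 * Real.pi) := ⟨by positivity⟩

abbrev TT := AddCircle (2 * Real.pi)
abbrev CT := C(TT, ℂ)
abbrev L2T := Lp ℂ 2 (AddCircle.haarAddCircle (T := 2 * Real.pi))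

variable {G : Type} [Group G]

theorem ang_delta_eq [DecidableEq G] (g : G) : (delta g : Ell G) = lp.single 2 g (1 : ℂ) := by
  ext k
  rw [delta_apply]
  by_cases hk : k = g
  · subst hk
    rw [if_pos rfl, lp.single_apply_self]
  · rw [if_neg hk, lp.single_apply_ne _ _ _ hk]

theorem orthonormal_delta (g : G) (hg : ∀ l : ℤ, l ≠ 0 → g ^ l ≠ 1) :
    Orthonormal ℂ (fun l : ℤ => (delta (g ^ l) : Ell G)) := by
  classical
  rw [orthonormal_iff_ite]
  intro i j
  have h1 : inner ℂ (delta (g ^ i) : Ell G) (delta (g ^ j)) =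
      inner ℂ (1 : ℂ) ((delta (g ^ j) : Ell G) (g ^ i)) := by
    conv_lhs => rw [show (delta (g ^ i) : Ell G) = lp.single 2 (g ^ i) (1 : ℂ) by
      exact ang_delta_eq _]
    rw [lp.inner_single_left]
  rw [h1, delta_apply]
  by_cases hij : i = j
  · subst hij; simp
  · have : g ^ i ≠ g ^ j := by
      intro h
      apply hg (i - j) (sub_ne_zero.2 hij)
      rw [_root_.zpow_sub, h, mul_inv_cancel]
    simp [hij, this]

/-- the isometry `L² → ℓ²(G)` -/
def J₀ (g : G) (hg : ∀ l : ℤ, l ≠ 0 → g ^ l ≠ 1) : L2T →ₗᵢ[ℂ] Ell G :=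
  ((orthonormal_delta g hg).orthogonalFamily.linearIsometry).comp
    (fourierBasis (T := 2 * Real.pi)).repr.toLinearIsometry

theorem J₀_fourier (g : G) (hg : ∀ l : ℤ, l ≠ 0 → g ^ l ≠ 1) (l : ℤ) :
    J₀ g hg (fourierLp 2 l) = delta (g ^ l) := by
  classical
  unfold J₀
  rw [LinearIsometry.coe_comp, Function.comp_apply]
  have h1 : (fourierBasis (T := 2 * Real.pi)).repr.toLinearIsometry (fourierLp 2 l)
      = lp.single 2 l (1 : ℂ) := by
    have := HilbertBasis.repr_self (fourierBasis (T := 2 * Real.pi)) l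
    rw [coe_fourierBasis] at this
    exact this
  rw [h1, OrthogonalFamily.linearIsometry_apply_single]
  simp

def J (g : G) (hg : ∀ l : ℤ, l ≠ 0 → g ^ l ≠ 1) : CT →L[ℂ] Ell G :=
  (J₀ g hg).toContinuousLinearMap.comp (ContinuousMap.toLp 2 (AddCircle.haarAddCircle) ℂ)

theorem J_fourier (g : G) (hg : ∀ l : ℤ, l ≠ 0 → g ^ l ≠ 1) (l : ℤ) :
    J g hg (fourier l) = delta (g ^ l) := J₀_fourier g hg l

theorem J_one (g : G) (hg : ∀ l : ℤ, l ≠ 0 → g ^ l ≠ 1) :
    J g hg 1 = delta (1 : G) := by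
  have h := J_fourier g hg 0
  rw [zpow_zero] at h
  rw [← h]
  congr 1
  ext x
  simp

theorem norm_J (g : G) (hg : ∀ l : ℤ, l ≠ 0 → g ^ l ≠ 1) (f : CT) :
    ‖J g hg f‖ = ‖(ContinuousMap.toLp 2 (AddCircle.haarAddCircle) ℂ f : L2T)‖ :=
  (J₀ g hg).norm_map _

/-- the operator -/
def opA (g : G) (s : Finset ℤ) (c : ℤ → ℂ) : Ell G →L[ℂ] Ell G := ∑ l ∈ s, c l • lam (g ^ l)
/-- the function -/
def fnS (s : Finset ℤ) (c : ℤ → ℂ) : CT := ∑ l ∈ s, c l • fourier l

theorem intertw (g : G) (hg : ∀ l : ℤ, l ≠ 0 → g ^ l ≠ 1) (s : Finset ℤ) (c : ℤ → ℂ) (f : CT) :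
    opA g s c (J g hg f) = J g hg (fnS s c * f) := by
  have h : (opA g s c).comp (J g hg) =
      (J g hg).comp (ContinuousLinearMap.mul ℂ CT (fnS s c)) := by
    have hd : Dense (Submodule.span ℂ (Set.range <| @fourier (2 * Real.pi)) : Set CT) := by
      have := span_fourier_closure_eq_top (T := 2 * Real.pi)
      rwa [← Submodule.dense_iff_topologicalClosure_eq_top] at this
    refine ContinuousLinearMap.ext_on hd ?_
    rintro _ ⟨m, rfl⟩
    simp only [ContinuousLinearMap.comp_apply, ContinuousLinearMap.mul_apply']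
    rw [J_fourier]
    unfold opA fnS
    rw [_root_.sum_apply, Finset.sum_mul, map_sum]
    refine Finset.sum_congr rfl fun l _ => ?_
    rw [_root_.smul_apply, lam_delta, smul_mul_assoc, map_smul]
    congr 1
    rw [← _root_.zpow_add, ← J_fourier g hg]
    congr 1
    ext x
    exact fourier_add
  have := congrArg (fun F => F f) h
  simpa using this

theorem intertw_pow (g : G) (hg : ∀ l : ℤ, l ≠ 0 → g ^ l ≠ 1) (s : Finset ℤ) (c : ℤ → ℂ) (n : ℕ) :
    (opA g s c ^ n) (delta 1) = J g hg (fnS s c ^ n) := by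
  induction n with
  | zero => rw [pow_zero, pow_zero, J_one]; rfl
  | succ n ih =>
    rw [pow_succ', pow_succ', mul_apply_eq_comp, ih, intertw]

theorem exp_eq (g : G) (hg : ∀ l : ℤ, l ≠ 0 → g ^ l ≠ 1) (s : Finset ℤ) (c : ℤ → ℂ) :
    (NormedSpace.exp (Complex.I • opA g s c)) (delta 1)
      = J g hg (NormedSpace.exp (Complex.I • fnS s c)) := by
  have h1 := NormedSpace.exp_series_hasSum_exp' (𝕂 := ℂ) (Complex.I • opA g s c)
  have h2 := NormedSpace.exp_series_hasSum_exp' (𝕂 := ℂ) (Complex.I • fnS s c)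
  have h3 := h1.mapL (ContinuousLinearMap.apply ℂ (Ell G) (delta (1 : G)))
  have h4 := h2.mapL (J g hg)
  refine h3.unique ?_
  convert h4 using 1
  ext1 n
  rw [map_smul, map_smul, smul_pow, smul_pow, map_smul, map_smul, ← intertw_pow]
  rfl

theorem exp_apply (f : CT) (x : TT) : (NormedSpace.exp f) x = Complex.exp (f x) := by
  rw [Complex.exp_eq_exp_ℂ]
  have h1 := NormedSpace.exp_series_hasSum_exp' (𝕂 := ℂ) f
  have h2 := NormedSpace.exp_series_hasSum_exp' (𝕂 := ℂ) (f x)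
  have h3 := h1.mapL (ContinuousMap.evalCLM ℂ x)
  have h4 : (fun n : ℕ => ContinuousMap.evalCLM ℂ x (((Nat.factorial n : ℂ))⁻¹ • f ^ n))
      = fun n : ℕ => ((Nat.factorial n : ℂ))⁻¹ • f x ^ n := by
    ext1 n
    simp [ContinuousMap.evalCLM]
  rw [h4] at h3
  exact h3.unique h2

def ang (x : TT) : ℝ := ((AddCircle.equivIoc (2 * Real.pi) (-Real.pi)) x : ℝ)

theorem exp_ang (x : TT) : Complex.exp (Complex.I * ang x) = fourier 1 x := by
  have h : ((ang x : ℝ) : TT) = x := AddCircle.coe_equivIoc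
  conv_rhs => rw [← h]
  rw [fourier_coe_apply]
  congr 1
  have : (Real.pi : ℂ) ≠ 0 := by exact_mod_cast Real.pi_ne_zero
  push_cast
  field_simp

theorem measurable_ang : Measurable ang :=
  measurable_subtype_coe.comp (AddCircle.measurableEquivIoc (2 * Real.pi) (-Real.pi)).measurable

theorem abs_ang_le (x : TT) : |ang x| ≤ Real.pi := by
  have h := ((AddCircle.equivIoc (2 * Real.pi) (-Real.pi)) x).2
  rw [abs_le]
  constructor
  · exact h.1.le
  · have := h.2
    unfold ang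
    linarith

theorem memLp_ang : MemLp (fun x : TT => (ang x : ℂ)) 2 (AddCircle.haarAddCircle) := by
  refine MemLp.of_bound (C := Real.pi) ?_ ?_
  · exact (Complex.measurable_ofReal.comp measurable_ang).aestronglyMeasurable
  · refine Eventually.of_forall fun x => ?_
    rw [Complex.norm_real]
    exact abs_ang_le x

def Th : L2T := memLp_ang.toLp _

/-- Fourier coefficients of the angle -/
def cc (l : ℤ) : ℂ := fourierCoeff (T := 2 * Real.pi) (fun x => (ang x : ℂ)) l

theorem cc_eq (l : ℤ) : fourierCoeff (T := 2 * Real.pi) Th l = cc l := by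
  unfold cc fourierCoeff
  apply integral_congr_ae
  filter_upwards [memLp_ang.coeFn_toLp] with x hx
  show _ • (Th x) = _
  rw [show Th x = _ from hx]

theorem cc_neg (l : ℤ) : cc (-l) = conj (cc l) := by
  unfold cc fourierCoeff
  rw [← integral_conj]
  apply integral_congr_ae
  filter_upwards with x
  rw [smul_eq_mul, smul_eq_mul, map_mul, Complex.conj_ofReal, fourier_neg (n := -l)]

theorem fnS_real (L : ℕ) (x : TT) :
    conj (fnS (Finset.Icc (-(L : ℤ)) L) cc x) = fnS (Finset.Icc (-(L : ℤ)) L) cc x := by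
  unfold fnS
  rw [ContinuousMap.sum_apply, map_sum]
  refine Finset.sum_nbij' (fun l => -l) (fun l => -l) ?_ ?_ ?_ ?_ ?_
  · intro l hl; rw [Finset.mem_Icc] at *; omega
  · intro l hl; rw [Finset.mem_Icc] at *; omega
  · intro l _; simp
  · intro l _; simp
  · intro l _
    rw [ContinuousMap.smul_apply, ContinuousMap.smul_apply, smul_eq_mul, smul_eq_mul, map_mul,
      cc_neg, fourier_neg]

theorem tend : Tendsto (fun L : ℕ => ‖(ContinuousMap.toLp 2 (AddCircle.haarAddCircle) ℂ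
    (fnS (Finset.Icc (-(L : ℤ)) L) cc) : L2T) - Th‖) atTop (nhds 0) := by
  have h1 := hasSum_fourier_series_L2 (T := 2 * Real.pi) Th
  have h2 : Tendsto (fun L : ℕ => Finset.Icc (-(L : ℤ)) L) atTop atTop := by
    refine tendsto_atTop_finset_of_monotone ?_ ?_
    · intro a b hab
      apply Finset.Icc_subset_Icc <;> omega
    · intro x
      refine ⟨x.natAbs, ?_⟩
      rw [Finset.mem_Icc]; omega
  have h3 := h1.comp h2
  rw [← tendsto_iff_norm_sub_tendsto_zero]
  refine h3.congr fun L => ?_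
  simp only [Function.comp]
  unfold fnS
  rw [map_sum]
  refine Finset.sum_congr rfl fun l _ => ?_
  rw [map_smul, cc_eq]

theorem angle_approx (g : G) (hg : ∀ l : ℤ, l ≠ 0 → g ^ l ≠ 1) (η : ℝ)
    (hη : 0 < η) : ∃ (L : ℕ) (c : ℤ → ℂ), (∀ l, c (-l) = conj (c l)) ∧
      ‖(NormedSpace.exp (Complex.I • ∑ l ∈ Finset.Icc (-(L : ℤ)) L, c l • lam (g ^ l))
        - lam g) (delta 1)‖ ≤ η := by
  obtain ⟨L, hL⟩ := ((tendsto_order.1 tend).2 η hη).exists
  refine ⟨L, cc, cc_neg, le_trans ?_ hL.le⟩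
  have h1 : (NormedSpace.exp (Complex.I • ∑ l ∈ Finset.Icc (-(L : ℤ)) L, cc l • lam (g ^ l))
        - lam g) (delta 1) = J g hg (NormedSpace.exp (Complex.I • fnS (Finset.Icc (-(L : ℤ)) L) cc)
          - fourier 1) := by
    rw [_root_.sub_apply, map_sub, ← exp_eq, J_fourier, lam_delta, zpow_one, mul_one]
    rfl
  rw [h1, norm_J]
  apply Lp.norm_le_norm_of_ae_le
  filter_upwards [ContinuousMap.coeFn_toLp (p := 2) (𝕜 := ℂ) AddCircle.haarAddCircle
      (NormedSpace.exp (Complex.I • fnS (Finset.Icc (-(L : ℤ)) L) cc) - fourier 1 : CT),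
    Lp.coeFn_sub (ContinuousMap.toLp 2 (AddCircle.haarAddCircle) ℂ
      (fnS (Finset.Icc (-(L : ℤ)) L) cc) : L2T) Th,
    ContinuousMap.coeFn_toLp (p := 2) (𝕜 := ℂ) AddCircle.haarAddCircle
      (fnS (Finset.Icc (-(L : ℤ)) L) cc),
    memLp_ang.coeFn_toLp] with x e1 e2 e3 e4
  rw [e1, e2, Pi.sub_apply, e3, show Th x = _ from e4, ContinuousMap.sub_apply, exp_apply,
    ← exp_ang, ContinuousMap.smul_apply, smul_eq_mul]
  obtain ⟨r, hr⟩ := Complex.conj_eq_iff_real.1 (fnS_real L x)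
  rw [hr]
  have h5 : Complex.exp (Complex.I * r) - Complex.exp (Complex.I * ang x)
      = Complex.exp (Complex.I * ang x) * (Complex.exp (Complex.I * ((r - ang x : ℝ) : ℂ)) - 1) := by
    rw [mul_sub, mul_one, ← Complex.exp_add]
    congr 2
    push_cast; ring
  rw [h5, norm_mul, mul_comm Complex.I (ang x : ℂ), Complex.norm_exp_ofReal_mul_I, one_mul,
    ← Complex.ofReal_sub, Complex.norm_real]
  exact Real.norm_exp_I_mul_ofReal_sub_one_le

end

end Pool.Agent.H667R2.FG.TANG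

namespace Pool.Agent.H667R2.FG

alias angle_approx := TANG.angle_approx

end Pool.Agent.H667R2.FG
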