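import Mathlib
import Pool.Agent.H667R2.FG.Defs
import Pool.Agent.H667R2.FG.OpDefs
import Pool.Agent.H667R2.FG.Herm

/-! Basic properties of `ntr`, `hs`, `wd`, `pol`. -/

namespace Pool.Agent.H667R2.FG.THS

open MeasureTheory Matrix Filter
open scoped Matrix.Norms.L2Operator ComplexConjugate ENNReal

section HS
variable {k : ℕ}

theorem hs_nonneg (a : Mat k) : 0 ≤ hs a := Real.sqrt_nonneg _

theorem hs_sq (a : Mat k) : hs a ^ 2 = (k : ℝ)⁻¹ * ∑ i, ∑ j, ‖a i j‖ ^ 2 := by
  unfold hs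
  rw [Real.sq_sqrt]
  positivity

theorem hs_sq_tr (a : Mat k) : ((hs a ^ 2 : ℝ) : ℂ) = ntr (aᴴ * a) := by
  rw [hs_sq]
  unfold ntr
  push_cast
  congr 1
  simp only [Matrix.trace, Matrix.diag, Matrix.mul_apply, Matrix.conjTranspose_apply]
  rw [Finset.sum_comm]
  refine Finset.sum_congr rfl fun i _ => Finset.sum_congr rfl fun j _ => ?_
  rw [RCLike.star_def, RCLike.conj_mul]
  norm_cast

theorem hs_zero : hs (0 : Mat k) = 0 := by
  unfold hs; simp

/-- the entries as a Euclidean vector -/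
noncomputable def ev (a : Mat k) : EuclideanSpace ℂ (Fin k × Fin k) :=
  WithLp.toLp 2 fun p => a p.1 p.2

theorem hs_eq_ev (a : Mat k) : hs a = Real.sqrt ((k : ℝ)⁻¹) * ‖ev a‖ := by
  unfold hs
  rw [EuclideanSpace.norm_eq, ← Real.sqrt_mul (by positivity)]
  congr 2
  rw [Fintype.sum_prod_type]
  rfl

theorem hs_add_le (a b : Mat k) : hs (a + b) ≤ hs a + hs b := by
  rw [hs_eq_ev, hs_eq_ev, hs_eq_ev, ← mul_add]
  have : ev (a + b) = ev a + ev b := by
    unfold ev; ext p; simp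
  rw [this]
  exact mul_le_mul_of_nonneg_left (norm_add_le _ _) (Real.sqrt_nonneg _)

theorem hs_smul (c : ℂ) (a : Mat k) : hs (c • a) = ‖c‖ * hs a := by
  rw [hs_eq_ev, hs_eq_ev]
  have : ev (c • a) = c • ev a := by
    unfold ev; ext p; simp
  rw [this, norm_smul]; ring

theorem hs_neg (a : Mat k) : hs (-a) = hs a := by
  unfold hs; simp

theorem hs_sub_le (a b : Mat k) : hs (a - b) ≤ hs a + hs b := by
  rw [sub_eq_add_neg, ← hs_neg b]
  exact hs_add_le _ _

theorem hs_sub_comm (a b : Mat k) : hs (a - b) = hs (b - a) := by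
  rw [← hs_neg, neg_sub]

theorem hs_conjTranspose (a : Mat k) : hs aᴴ = hs a := by
  unfold hs
  rw [Finset.sum_comm]
  simp

theorem hs_mul_le (a b : Mat k) : hs (a * b) ≤ ‖a‖ * hs b := by
  have h : hs (a * b) ^ 2 ≤ (‖a‖ * hs b) ^ 2 := by
    rw [mul_pow, hs_sq, hs_sq]
    have e1 : ∑ i, ∑ j, ‖(a * b) i j‖ ^ 2 ≤ ‖a‖ ^ 2 * ∑ i, ∑ j, ‖b i j‖ ^ 2 := by
      rw [Finset.sum_comm, Finset.sum_comm (f := fun i j => ‖b i j‖ ^ 2), Finset.mul_sum]
      refine Finset.sum_le_sum fun j _ => ?_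
      have h1 := Matrix.l2_opNorm_mulVec a (WithLp.toLp 2 fun i => b i j)
      have h2 := pow_le_pow_left₀ (norm_nonneg _) h1 2
      rw [mul_pow, EuclideanSpace.norm_sq_eq, EuclideanSpace.norm_sq_eq] at h2
      refine le_trans (le_of_eq ?_) h2
      refine Finset.sum_congr rfl fun i _ => ?_
      rfl
    calc (k : ℝ)⁻¹ * ∑ i, ∑ j, ‖(a * b) i j‖ ^ 2
        ≤ (k : ℝ)⁻¹ * (‖a‖ ^ 2 * ∑ i, ∑ j, ‖b i j‖ ^ 2) :=
          mul_le_mul_of_nonneg_left e1 (by positivity)
      _ = _ := by ring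
  exact (abs_le_of_sq_le_sq' h (mul_nonneg (norm_nonneg _) (hs_nonneg _))).2

theorem hs_mul_le' (a b : Mat k) : hs (a * b) ≤ hs a * ‖b‖ := by
  rw [← hs_conjTranspose (a * b), Matrix.conjTranspose_mul]
  refine (hs_mul_le _ _).trans ?_
  rw [hs_conjTranspose, Matrix.l2_opNorm_conjTranspose, mul_comm]

theorem hs_one_le : hs (1 : Mat k) ≤ 1 := by
  unfold hs
  rw [Real.sqrt_le_one]
  have : ∑ i : Fin k, ∑ j : Fin k, ‖(1 : Mat k) i j‖ ^ 2 = k := by
    have : ∀ i : Fin k, ∑ j : Fin k, ‖(1 : Mat k) i j‖ ^ 2 = 1 := by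
      intro i
      rw [Finset.sum_eq_single i]
      · simp
      · intro j _ hj; simp [Matrix.one_apply_ne (Ne.symm hj)]
      · simp
    simp [this]
  rw [this]
  rcases Nat.eq_zero_or_pos k with h | h
  · subst h; simp
  · have : (k : ℝ) ≠ 0 := by positivity
    rw [inv_mul_cancel₀ this]

theorem hs_le_norm (a : Mat k) : hs a ≤ ‖a‖ := by
  have h := hs_mul_le a 1
  rw [mul_one] at h
  refine h.trans ?_
  calc ‖a‖ * hs (1 : Mat k) ≤ ‖a‖ * 1 := mul_le_mul_of_nonneg_left hs_one_le (norm_nonneg _)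
    _ = ‖a‖ := mul_one _

theorem star_coe_mul (u : UU k) : (u : Mat k)ᴴ * (u : Mat k) = 1 := by
  have := Unitary.coe_star_mul_self u
  simpa [Matrix.star_eq_conjTranspose] using this

theorem coe_mul_star (u : UU k) : (u : Mat k) * (u : Mat k)ᴴ = 1 := by
  have := Unitary.coe_mul_star_self u
  simpa [Matrix.star_eq_conjTranspose] using this

theorem hs_unitary_mul (u : UU k) (a : Mat k) : hs ((u : Mat k) * a) = hs a := by
  have h : hs ((u : Mat k) * a) ^ 2 = hs a ^ 2 := by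
    have h1 := hs_sq_tr ((u : Mat k) * a)
    have h2 := hs_sq_tr a
    rw [Matrix.conjTranspose_mul, Matrix.mul_assoc, ← Matrix.mul_assoc _ (u : Mat k) a,
      star_coe_mul, Matrix.one_mul, ← h2] at h1
    exact_mod_cast h1
  rw [← abs_of_nonneg (hs_nonneg ((u : Mat k) * a)), ← abs_of_nonneg (hs_nonneg a)]
  exact (sq_eq_sq_iff_abs_eq_abs _ _).1 h

theorem coe_inv (u : UU k) : ((u⁻¹ : UU k) : Mat k) = (u : Mat k)ᴴ := rfl

theorem hs_mul_unitary (u : UU k) (a : Mat k) : hs (a * (u : Mat k)) = hs a := by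
  rw [← hs_conjTranspose, Matrix.conjTranspose_mul, ← coe_inv, hs_unitary_mul, hs_conjTranspose]

theorem ntr_one (hk : 0 < k) : ntr (1 : Mat k) = 1 := by
  unfold ntr
  rw [Matrix.trace_one, Fintype.card_fin, inv_mul_cancel₀]
  exact_mod_cast hk.ne'

theorem hs_unitary (hk : 0 < k) (u : UU k) : hs (u : Mat k) = 1 := by
  have h1 := hs_sq_tr (u : Mat k)
  rw [star_coe_mul, ntr_one hk] at h1
  have h2 : hs (u : Mat k) ^ 2 = 1 := by exact_mod_cast h1
  exact (pow_eq_one_iff_of_nonneg (hs_nonneg _) two_ne_zero).1 h2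

theorem norm_ntr_le_hs (a : Mat k) : ‖ntr a‖ ≤ hs a := by
  unfold ntr hs
  apply Real.le_sqrt_of_sq_le
  rw [norm_mul, mul_pow, norm_inv, Complex.norm_natCast]
  have h1 : ‖a.trace‖ ^ 2 ≤ k * ∑ i, ∑ j, ‖a i j‖ ^ 2 := by
    have h2 : ‖a.trace‖ ≤ ∑ i, ‖a i i‖ := norm_sum_le _ _
    have h3 : (∑ i, ‖a i i‖) ^ 2 ≤ k * ∑ i, ‖a i i‖ ^ 2 := by
      have := @sq_sum_le_card_mul_sum_sq (Fin k) ℝ _ _ _ _ Finset.univ (fun i => ‖a i i‖)
      simpa using this
    calc ‖a.trace‖ ^ 2 ≤ (∑ i, ‖a i i‖) ^ 2 := pow_le_pow_left₀ (norm_nonneg _) h2 2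
      _ ≤ k * ∑ i, ‖a i i‖ ^ 2 := h3
      _ ≤ k * ∑ i, ∑ j, ‖a i j‖ ^ 2 := by
        refine mul_le_mul_of_nonneg_left (Finset.sum_le_sum fun i _ => ?_) (by positivity)
        exact Finset.single_le_sum (f := fun j => ‖a i j‖ ^ 2) (fun j _ => by positivity)
          (Finset.mem_univ i)
  rcases Nat.eq_zero_or_pos k with h | h
  · subst h; simp
  · have hk : (0 : ℝ) < k := by exact_mod_cast h
    calc ((k : ℝ)⁻¹) ^ 2 * ‖a.trace‖ ^ 2 ≤ ((k : ℝ)⁻¹) ^ 2 * (k * ∑ i, ∑ j, ‖a i j‖ ^ 2) :=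
          mul_le_mul_of_nonneg_left h1 (by positivity)
      _ = _ := by field_simp

theorem norm_ntr_le (a : Mat k) : ‖ntr a‖ ≤ ‖a‖ := (norm_ntr_le_hs a).trans (hs_le_norm a)

theorem ntr_mul_comm (a b : Mat k) : ntr (a * b) = ntr (b * a) := by
  unfold ntr; rw [Matrix.trace_mul_comm]

theorem ntr_add (a b : Mat k) : ntr (a + b) = ntr a + ntr b := by
  unfold ntr; rw [Matrix.trace_add, mul_add]

theorem ntr_sub (a b : Mat k) : ntr (a - b) = ntr a - ntr b := by
  unfold ntr; rw [Matrix.trace_sub, mul_sub]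

theorem ntr_smul (c : ℂ) (a : Mat k) : ntr (c • a) = c * ntr a := by
  unfold ntr; rw [Matrix.trace_smul, smul_eq_mul]; ring

theorem ntr_conjTranspose (a : Mat k) : ntr aᴴ = conj (ntr a) := by
  unfold ntr
  rw [Matrix.trace_conjTranspose, map_mul, map_inv₀, Complex.conj_natCast, RCLike.star_def]

theorem continuous_hs : Continuous (hs : Mat k → ℝ) := by
  unfold hs
  fun_prop

theorem continuous_ntr : Continuous (ntr : Mat k → ℂ) := by
  unfold ntr
  fun_prop

theorem wd_one {ι : Type} (U : ι → UU k) : wd U 1 = (1 : Mat k) := by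
  unfold wd; simp

theorem wd_mul {ι : Type} (U : ι → UU k) (v w : FreeGroup ι) :
    (wd U (v * w) : Mat k) = wd U v * wd U w := by
  unfold wd; simp

theorem wd_inv {ι : Type} (U : ι → UU k) (w : FreeGroup ι) :
    (wd U w⁻¹ : Mat k) = (wd U w)ᴴ := by
  unfold wd; rw [map_inv]; rfl

theorem norm_wd_le {ι : Type} (U : ι → UU k) (w : FreeGroup ι) : ‖(wd U w : Mat k)‖ ≤ 1 :=
  norm_unitary_le _

theorem norm_pol_le {ι : Type} (U : ι → UU k) (f : FreeGroup ι →₀ ℂ) :
    ‖(pol U f : Mat k)‖ ≤ f.sum fun _ c => ‖c‖ := by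
  unfold pol Finsupp.sum
  refine (norm_sum_le _ _).trans (Finset.sum_le_sum fun w _ => ?_)
  rw [norm_smul]
  calc ‖f w‖ * ‖(wd U w : Mat k)‖ ≤ ‖f w‖ * 1 :=
        mul_le_mul_of_nonneg_left (norm_wd_le U w) (norm_nonneg _)
    _ = ‖f w‖ := mul_one _

theorem continuous_lift {ι : Type} (w : FreeGroup ι) :
    Continuous (fun U : ι → UU k => (FreeGroup.lift U w : UU k)) := by
  induction w using FreeGroup.induction_on with
  | C1 => simp only [map_one]; exact continuous_const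
  | of i => simp only [FreeGroup.lift_apply_of]; exact continuous_apply i
  | inv_of i h => simp only [map_inv]; exact h.inv
  | mul x y hx hy => simp only [map_mul]; exact hx.mul hy

theorem continuous_wd {ι : Type} (w : FreeGroup ι) :
    Continuous (fun U : ι → UU k => (wd U w : Mat k)) :=
  continuous_subtype_val.comp (continuous_lift w)

theorem continuous_pol {ι : Type} (f : FreeGroup ι →₀ ℂ) :
    Continuous (fun U : ι → UU k => (pol U f : Mat k)) := by
  unfold pol Finsupp.sum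
  refine continuous_finsetSum _ fun w _ => ?_
  show Continuous fun U : ι → UU k => f w • (wd U w : Mat k)
  exact (continuous_wd w).const_smul (f w)

theorem wd_conj {ι : Type} (V : UU k) (U : ι → UU k) (w : FreeGroup ι) :
    (wd (fun i => V * U i * V⁻¹) w : Mat k)
      = (V : Mat k) * wd U w * ((V⁻¹ : UU k) : Mat k) := by
  have h : FreeGroup.lift (fun i => V * U i * V⁻¹) = (MulAut.conj V).toMonoidHom.comp
      (FreeGroup.lift U) := by
    ext i
    simp
  unfold wd
  rw [h]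
  rfl

theorem pol_conj {ι : Type} (V : UU k) (U : ι → UU k) (f : FreeGroup ι →₀ ℂ) :
    (pol (fun i => V * U i * V⁻¹) f : Mat k)
      = (V : Mat k) * pol U f * ((V⁻¹ : UU k) : Mat k) := by
  unfold pol Finsupp.sum
  rw [Finset.mul_sum, Finset.sum_mul]
  refine Finset.sum_congr rfl fun w _ => ?_
  show f w • (wd (fun i => V * U i * V⁻¹) w : Mat k)
    = (V : Mat k) * (f w • wd U w) * ((V⁻¹ : UU k) : Mat k)
  rw [wd_conj, Matrix.mul_smul, Matrix.smul_mul]

theorem norm_list_sub_le {n : ℕ} (x y : Fin n → UU k) (ε : ℝ)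
    (h : ∀ i, ‖(x i : Mat k) - (y i : Mat k)‖ ≤ ε) (L : List (Fin n × Bool)) :
    ‖((FreeGroup.lift x (FreeGroup.mk L) : UU k) : Mat k)
      - ((FreeGroup.lift y (FreeGroup.mk L) : UU k) : Mat k)‖ ≤ L.length * ε := by
  induction L with
  | nil =>
    have : (FreeGroup.mk ([] : List (Fin n × Bool))) = 1 := rfl
    rw [this, map_one, map_one]
    simp
  | cons p L ih =>
    have e : (FreeGroup.mk (p :: L)) = FreeGroup.mk [p] * FreeGroup.mk L := by
      rw [FreeGroup.mul_mk]; rfl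
    have hl : ‖((FreeGroup.lift x (FreeGroup.mk [p]) : UU k) : Mat k)
      - ((FreeGroup.lift y (FreeGroup.mk [p]) : UU k) : Mat k)‖ ≤ ε := by
      obtain ⟨i, b⟩ := p
      cases b with
      | true =>
        have : (FreeGroup.mk [(i, true)]) = FreeGroup.of i := rfl
        rw [this, FreeGroup.lift_apply_of, FreeGroup.lift_apply_of]
        exact h i
      | false =>
        have : (FreeGroup.mk [(i, false)]) = (FreeGroup.of i)⁻¹ := rfl
        rw [this, map_inv, map_inv, FreeGroup.lift_apply_of, FreeGroup.lift_apply_of, coe_inv,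
          coe_inv, ← Matrix.conjTranspose_sub, Matrix.l2_opNorm_conjTranspose]
        exact h i
    rw [e, map_mul, map_mul]
    generalize (FreeGroup.lift x (FreeGroup.mk [p]) : UU k) = a at hl ⊢
    generalize (FreeGroup.lift y (FreeGroup.mk [p]) : UU k) = a' at hl ⊢
    generalize (FreeGroup.lift x (FreeGroup.mk L) : UU k) = b at ih ⊢
    generalize (FreeGroup.lift y (FreeGroup.mk L) : UU k) = b' at ih ⊢
    have e2 : ((a * b : UU k) : Mat k) - ((a' * b' : UU k) : Mat k)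
        = ((a : Mat k) - a') * b + (a' : Mat k) * ((b : Mat k) - b') := by
      simp only [Submonoid.coe_mul, Matrix.sub_mul, Matrix.mul_sub]
      abel
    rw [e2]
    have h1 : ‖((a : Mat k) - a') * b‖ ≤ ε * 1 :=
      (Matrix.l2_opNorm_mul _ _).trans
        (mul_le_mul hl (norm_unitary_le b) (norm_nonneg _) ((norm_nonneg _).trans hl))
    have h2 : ‖(a' : Mat k) * ((b : Mat k) - b')‖ ≤ 1 * (L.length * ε) :=
      (Matrix.l2_opNorm_mul _ _).trans
        (mul_le_mul (norm_unitary_le a') ih (norm_nonneg _) zero_le_one)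
    refine (norm_add_le _ _).trans ((add_le_add h1 h2).trans (le_of_eq ?_))
    rw [List.length_cons]
    push_cast
    ring

/-- words are Lipschitz in the operator norm -/
theorem norm_wd_sub_le {n : ℕ} (x y : Fin n → UU k) (ε : ℝ)
    (h : ∀ i, ‖(x i : Mat k) - (y i : Mat k)‖ ≤ ε) (w : FreeGroup (Fin n)) :
    ‖(wd x w : Mat k) - wd y w‖ ≤ w.norm * ε := by
  have := norm_list_sub_le x y ε h w.toWord
  rw [FreeGroup.mk_toWord] at this
  exact this

theorem norm_pol_sub_le {n : ℕ} (x y : Fin n → UU k) (ε : ℝ)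
    (h : ∀ i, ‖(x i : Mat k) - (y i : Mat k)‖ ≤ ε) (f : FreeGroup (Fin n) →₀ ℂ) :
    ‖(pol x f : Mat k) - pol y f‖ ≤ (f.sum fun w c => ‖c‖ * w.norm) * ε := by
  unfold pol Finsupp.sum
  rw [← Finset.sum_sub_distrib, Finset.sum_mul]
  refine (norm_sum_le _ _).trans (Finset.sum_le_sum fun w _ => ?_)
  rw [← smul_sub, norm_smul, mul_assoc]
  exact mul_le_mul_of_nonneg_left (norm_wd_sub_le x y ε h w) (norm_nonneg _)

end HS

end Pool.Agent.H667R2.FG.THS

namespace Pool.Agent.H667R2.FG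

alias hs_nonneg := THS.hs_nonneg
alias hs_sq := THS.hs_sq
alias hs_sq_tr := THS.hs_sq_tr
alias hs_zero := THS.hs_zero
alias hs_add_le := THS.hs_add_le
alias hs_neg := THS.hs_neg
alias hs_smul := THS.hs_smul
alias hs_sub_le := THS.hs_sub_le
alias hs_sub_comm := THS.hs_sub_comm
alias hs_conjTranspose := THS.hs_conjTranspose
alias hs_mul_le := THS.hs_mul_le
alias hs_mul_le' := THS.hs_mul_le'
alias hs_le_norm := THS.hs_le_norm
alias hs_unitary_mul := THS.hs_unitary_mul
alias hs_mul_unitary := THS.hs_mul_unitary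
alias hs_unitary := THS.hs_unitary
alias norm_ntr_le := THS.norm_ntr_le
alias norm_ntr_le_hs := THS.norm_ntr_le_hs
alias ntr_mul_comm := THS.ntr_mul_comm
alias ntr_add := THS.ntr_add
alias ntr_sub := THS.ntr_sub
alias ntr_smul := THS.ntr_smul
alias ntr_one := THS.ntr_one
alias ntr_conjTranspose := THS.ntr_conjTranspose
alias continuous_hs := THS.continuous_hs
alias continuous_ntr := THS.continuous_ntr
alias wd_one := THS.wd_one
alias wd_mul := THS.wd_mul
alias wd_inv := THS.wd_inv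
alias norm_wd_le := THS.norm_wd_le
alias norm_pol_le := THS.norm_pol_le
alias continuous_wd := THS.continuous_wd
alias continuous_pol := THS.continuous_pol
alias wd_conj := THS.wd_conj
alias pol_conj := THS.pol_conj
alias norm_wd_sub_le := THS.norm_wd_sub_le
alias norm_pol_sub_le := THS.norm_pol_sub_le

end Pool.Agent.H667R2.FG
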