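import Mathlib
import Pool.Agent.H667R2.FG.Defs
import Pool.Agent.H667R2.FG.OpDefs
import Pool.Agent.H667R2.FG.Herm
import Pool.Agent.H667R2.FG.THS
import Pool.Agent.H667R2.FG.TL2

namespace Pool.Agent.H667R2.FG.TAPPR

open MeasureTheory Matrix Filter
open scoped Matrix.Norms.L2Operator ComplexConjugate ENNReal

set_option linter.unusedSectionVars false

section GenericAppr

variable {A : Type} [NormedRing A] [StarRing A] [CStarRing A] [NormedAlgebra ℂ A] [StarModule ℂ A]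
variable {ι : Type}

theorem appr_gnorm_unitary_le (u : unitary A) : ‖(u : A)‖ ≤ 1 := by
  rcases subsingleton_or_nontrivial A with h | h
  · have : (u : A) = 0 := Subsingleton.elim _ _
    rw [this]; simp
  · exact (CStarRing.norm_coe_unitary u).le

theorem appr_gwd_one (U : ι → unitary A) : wd U 1 = (1 : A) := by
  unfold wd; simp

theorem appr_gwd_mul (U : ι → unitary A) (v w : FreeGroup ι) : wd U (v * w) = wd U v * wd U w := by
  unfold wd; simp

theorem appr_gwd_inv (U : ι → unitary A) (w : FreeGroup ι) : wd U w⁻¹ = star (wd U w) := by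
  unfold wd
  rw [map_inv]
  rfl

theorem appr_gnorm_wd_le (U : ι → unitary A) (w : FreeGroup ι) : ‖wd U w‖ ≤ 1 :=
  appr_gnorm_unitary_le _

theorem appr_gpol_eq (U : ι → unitary A) (f : FreeGroup ι →₀ ℂ) :
    pol U f = Finsupp.linearCombination ℂ (fun w => wd U w) f := rfl

theorem appr_gnorm_pol_le (U : ι → unitary A) (f : FreeGroup ι →₀ ℂ) :
    ‖pol U f‖ ≤ f.sum fun _ c => ‖c‖ := by
  unfold pol Finsupp.sum
  refine (norm_sum_le _ _).trans (Finset.sum_le_sum fun w _ => ?_)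
  rw [norm_smul]
  exact mul_le_of_le_one_right (norm_nonneg _) (appr_gnorm_wd_le U w)

/-- convolution -/
noncomputable def apprCv (f g : FreeGroup ι →₀ ℂ) : FreeGroup ι →₀ ℂ :=
  f.sum fun w c => g.sum fun w' c' => Finsupp.single (w * w') (c * c')

theorem appr_gpol_cv (U : ι → unitary A) (f g : FreeGroup ι →₀ ℂ) :
    pol U (apprCv f g) = pol U f * pol U g := by
  rw [appr_gpol_eq]
  unfold apprCv Finsupp.sum
  rw [map_sum]
  simp only [map_sum, Finsupp.linearCombination_single, appr_gwd_mul]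
  unfold pol Finsupp.sum
  rw [Finset.sum_mul_sum]
  refine Finset.sum_congr rfl fun i _ => Finset.sum_congr rfl fun j _ => ?_
  rw [smul_mul_smul_comm]

/-- star -/
noncomputable def apprSv (f : FreeGroup ι →₀ ℂ) : FreeGroup ι →₀ ℂ :=
  f.sum fun w c => Finsupp.single w⁻¹ (star c)

theorem appr_gpol_sv (U : ι → unitary A) (f : FreeGroup ι →₀ ℂ) :
    pol U (apprSv f) = star (pol U f) := by
  rw [appr_gpol_eq]
  unfold apprSv Finsupp.sum
  simp only [map_sum, Finsupp.linearCombination_single, appr_gwd_inv]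
  unfold pol Finsupp.sum
  rw [star_sum]
  refine Finset.sum_congr rfl fun i _ => ?_
  rw [star_smul]

theorem appr_gpol_add (U : ι → unitary A) (f g : FreeGroup ι →₀ ℂ) :
    pol U (f + g) = pol U f + pol U g := by
  rw [appr_gpol_eq, map_add]; rfl

theorem appr_gpol_smul (U : ι → unitary A) (c : ℂ) (f : FreeGroup ι →₀ ℂ) :
    pol U (c • f) = c • pol U f := by
  rw [appr_gpol_eq, map_smul]; rfl

theorem appr_gpol_one (U : ι → unitary A) : pol U (Finsupp.single 1 1) = (1 : A) := by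
  rw [appr_gpol_eq, Finsupp.linearCombination_single, one_smul, appr_gwd_one]

/-- the tail of the exponential series -/
theorem appr_gexp_tail [CompleteSpace A] (z : A) (R : ℝ) (hz : ‖z‖ ≤ R) (P : ℕ) :
    ‖NormedSpace.exp z - ∑ p ∈ Finset.range (P + 1), ((Nat.factorial p : ℂ)⁻¹) • z ^ p‖
      ≤ ∑' p : ℕ, R ^ (p + (P + 1)) / (Nat.factorial (p + (P + 1)) : ℝ) := by
  have hR : 0 ≤ R := (norm_nonneg _).trans hz
  have h1 : HasSum (fun p : ℕ => ((Nat.factorial p : ℂ)⁻¹) • z ^ p) (NormedSpace.exp z) :=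
    NormedSpace.exp_series_hasSum_exp' (𝕂 := ℂ) z
  have h2 := (hasSum_nat_add_iff' (P + 1)).2 h1
  have hs : Summable (fun p : ℕ => R ^ (p + (P + 1)) / (Nat.factorial (p + (P + 1)) : ℝ)) :=
    (summable_nat_add_iff (P + 1)).2 (Real.summable_pow_div_factorial R)
  rw [← h2.tsum_eq]
  refine tsum_of_norm_bounded hs.hasSum fun p => ?_
  rw [norm_smul, norm_inv, Complex.norm_natCast, div_eq_inv_mul]
  refine mul_le_mul_of_nonneg_left ?_ (by positivity)
  refine (norm_pow_le' z (by omega)).trans ?_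
  exact pow_le_pow_left₀ (norm_nonneg _) hz _

theorem appr_tail_tendsto (R : ℝ) : Tendsto
    (fun P : ℕ => ∑' p : ℕ, R ^ (p + (P + 1)) / (Nat.factorial (p + (P + 1)) : ℝ)) atTop (nhds 0) := by
  have h := tendsto_sum_nat_add (fun p : ℕ => R ^ p / (Nat.factorial p : ℝ))
  exact h.comp (tendsto_add_atTop_nat 1)

end GenericAppr

section
variable {n : ℕ}
variable {m : ℕ} (v : Fin m → unitary (Ell (FreeGroup (Fin n)) →L[ℂ] Ell (FreeGroup (Fin n))))
theorem Appr.pol (f : FreeGroup (Fin m) →₀ ℂ) : Appr v (fun _ U => FG.pol U f) (FG.pol v f) := by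
  intro η hη
  exact ⟨f, fun k U => by simpa using hη.le, by simpa using hη.le⟩

theorem Appr.add {Z Z' Zo Zo'} (h : Appr v Z Zo) (h' : Appr v Z' Zo') :
    Appr v (fun k U => Z k U + Z' k U) (Zo + Zo') := by
  intro η hη
  obtain ⟨f, hf1, hf2⟩ := h (η / 2) (by positivity)
  obtain ⟨g, hg1, hg2⟩ := h' (η / 2) (by positivity)
  refine ⟨f + g, fun k U => ?_, ?_⟩
  · rw [appr_gpol_add]
    have e : Z k U + Z' k U - (FG.pol U f + FG.pol U g)
        = (Z k U - FG.pol U f) + (Z' k U - FG.pol U g) := by abel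
    rw [e]
    refine (norm_add_le _ _).trans ?_
    linarith [hf1 k U, hg1 k U]
  · rw [appr_gpol_add]
    have e : Zo + Zo' - (FG.pol v f + FG.pol v g) = (Zo - FG.pol v f) + (Zo' - FG.pol v g) := by abel
    rw [e]
    refine (norm_add_le _ _).trans ?_
    linarith

theorem Appr.smul (c : ℂ) {Z Zo} (h : Appr v Z Zo) : Appr v (fun k U => c • Z k U) (c • Zo) := by
  intro η hη
  have hc : 0 < ‖c‖ + 1 := by positivity
  obtain ⟨f, hf1, hf2⟩ := h (η / (‖c‖ + 1)) (by positivity)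
  have key : ‖c‖ * (η / (‖c‖ + 1)) ≤ η := by
    rw [mul_div_assoc', div_le_iff₀ hc]
    nlinarith [norm_nonneg c]
  refine ⟨c • f, fun k U => ?_, ?_⟩
  · rw [appr_gpol_smul, ← smul_sub, norm_smul]
    exact (mul_le_mul_of_nonneg_left (hf1 k U) (norm_nonneg _)).trans key
  · rw [appr_gpol_smul, ← smul_sub, norm_smul]
    exact (mul_le_mul_of_nonneg_left hf2 (norm_nonneg _)).trans key

theorem Appr.bound {Z Zo} (h : Appr v Z Zo) :
    ∃ R : ℝ, 0 ≤ R ∧ (∀ k U, ‖Z k U‖ ≤ R) ∧ ‖Zo‖ ≤ R := by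
  obtain ⟨f, hf1, hf2⟩ := h 1 one_pos
  have h0 : 0 ≤ f.sum fun _ c => ‖c‖ := Finset.sum_nonneg fun _ _ => norm_nonneg _
  refine ⟨(f.sum fun _ c => ‖c‖) + 1, by positivity, fun k U => ?_, ?_⟩
  · have e : Z k U = (Z k U - FG.pol U f) + FG.pol U f := by abel
    rw [e]
    refine (norm_add_le _ _).trans ?_
    linarith [hf1 k U, appr_gnorm_pol_le U f]
  · have e : Zo = (Zo - FG.pol v f) + FG.pol v f := by abel
    rw [e]
    refine (norm_add_le _ _).trans ?_
    linarith [appr_gnorm_pol_le v f]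

theorem appr_mul_aux {A : Type} [NormedRing A] (z z' p p' : A) (R η : ℝ) (hR : 0 ≤ R)
    (hη : 0 < η) (hz : ‖z‖ ≤ R) (hz' : ‖z'‖ ≤ R) (h : ‖z - p‖ ≤ min 1 (η / (2 * (R + 1))))
    (h' : ‖z' - p'‖ ≤ min 1 (η / (2 * (R + 1)))) : ‖z * z' - p * p'‖ ≤ η := by
  have e : z * z' - p * p' = z * (z' - p') + (z - p) * p' := by noncomm_ring
  have hp' : ‖p'‖ ≤ R + 1 := by
    have : p' = z' - (z' - p') := by abel
    rw [this]
    refine (norm_sub_le _ _).trans ?_
    linarith [h'.trans (min_le_left _ _)]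
  have h1 := h.trans (min_le_right _ _)
  have h1' := h'.trans (min_le_right _ _)
  have hR1 : 0 < R + 1 := by linarith
  have hx : (R + 1) * (η / (2 * (R + 1))) = η / 2 := by field_simp
  have hpos : 0 ≤ η / (2 * (R + 1)) := by positivity
  rw [e]
  calc ‖z * (z' - p') + (z - p) * p'‖ ≤ ‖z * (z' - p')‖ + ‖(z - p) * p'‖ := norm_add_le _ _
    _ ≤ ‖z‖ * ‖z' - p'‖ + ‖z - p‖ * ‖p'‖ := add_le_add (norm_mul_le _ _) (norm_mul_le _ _)
    _ ≤ (R + 1) * (η / (2 * (R + 1))) + (η / (2 * (R + 1))) * (R + 1) := by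
        refine add_le_add ?_ ?_
        · exact mul_le_mul (by linarith) h1' (norm_nonneg _) hR1.le
        · exact mul_le_mul h1 hp' (norm_nonneg _) hpos
    _ = η := by rw [mul_comm (η / (2 * (R + 1))), hx]; ring

theorem Appr.mul {Z Z' Zo Zo'} (h : Appr v Z Zo) (h' : Appr v Z' Zo') :
    Appr v (fun k U => Z k U * Z' k U) (Zo * Zo') := by
  intro η hη
  obtain ⟨R₁, hR₁, h1, h2⟩ := Appr.bound v h
  obtain ⟨R₂, hR₂, h1', h2'⟩ := Appr.bound v h'
  have hR : 0 ≤ max R₁ R₂ := hR₁.trans (le_max_left _ _)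
  have hpos : 0 < min 1 (η / (2 * (max R₁ R₂ + 1))) := lt_min one_pos (by positivity)
  obtain ⟨f, hf1, hf2⟩ := h _ hpos
  obtain ⟨g, hg1, hg2⟩ := h' _ hpos
  refine ⟨apprCv f g, fun k U => ?_, ?_⟩
  · rw [appr_gpol_cv]
    exact appr_mul_aux _ _ _ _ _ η hR hη ((h1 k U).trans (le_max_left _ _))
      ((h1' k U).trans (le_max_right _ _)) (hf1 k U) (hg1 k U)
  · rw [appr_gpol_cv]
    exact appr_mul_aux _ _ _ _ _ η hR hη (h2.trans (le_max_left _ _))
      (h2'.trans (le_max_right _ _)) hf2 hg2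

theorem Appr.star {Z Zo} (h : Appr v Z Zo) : Appr v (fun k U => (Z k U)ᴴ) (star Zo) := by
  intro η hη
  obtain ⟨f, hf1, hf2⟩ := h η hη
  refine ⟨apprSv f, fun k U => ?_, ?_⟩
  · rw [appr_gpol_sv]
    show ‖Star.star (Z k U) - Star.star (FG.pol U f)‖ ≤ η
    rw [← star_sub, norm_star]
    exact hf1 k U
  · rw [appr_gpol_sv, ← star_sub, norm_star]
    exact hf2

theorem Appr.pow {Z Zo} (h : Appr v Z Zo) (p : ℕ) : Appr v (fun k U => Z k U ^ p) (Zo ^ p) := by
  induction p with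
  | zero =>
    intro η hη
    refine ⟨Finsupp.single 1 1, fun k U => ?_, ?_⟩
    · rw [appr_gpol_one]; simpa using hη.le
    · rw [appr_gpol_one]; simpa using hη.le
  | succ p ih =>
    simpa only [pow_succ] using Appr.mul v ih h

theorem Appr.psum {Z Zo} (h : Appr v Z Zo) (P : ℕ) :
    Appr v (fun k U => ∑ p ∈ Finset.range P, ((Nat.factorial p : ℂ)⁻¹) • Z k U ^ p)
      (∑ p ∈ Finset.range P, ((Nat.factorial p : ℂ)⁻¹) • Zo ^ p) := by
  induction P with
  | zero =>
    intro η hη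
    refine ⟨0, fun k U => ?_, ?_⟩
    · simpa [FG.pol] using hη.le
    · simpa [FG.pol] using hη.le
  | succ P ih =>
    simp only [Finset.sum_range_succ]
    exact Appr.add v ih (Appr.smul v _ (Appr.pow v h P))

theorem Appr.exp {Z Zo} (h : Appr v Z Zo) :
    Appr v (fun k U => NormedSpace.exp (Z k U)) (NormedSpace.exp Zo) := by
  intro η hη
  obtain ⟨R, hR, h1, h2⟩ := Appr.bound v h
  obtain ⟨P, hP⟩ := ((appr_tail_tendsto R).eventually (gt_mem_nhds (show (0 : ℝ) < η / 2 by positivity))).exists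
  obtain ⟨f, hf1, hf2⟩ := Appr.psum v h (P + 1) (η / 2) (by positivity)
  refine ⟨f, fun k U => ?_, ?_⟩
  · have e : NormedSpace.exp (Z k U) - FG.pol U f
        = (NormedSpace.exp (Z k U) - ∑ p ∈ Finset.range (P + 1), ((Nat.factorial p : ℂ)⁻¹) • Z k U ^ p)
          + ((∑ p ∈ Finset.range (P + 1), ((Nat.factorial p : ℂ)⁻¹) • Z k U ^ p) - FG.pol U f) := by
      abel
    rw [e]
    refine (norm_add_le _ _).trans ?_
    linarith [hf1 k U, appr_gexp_tail (Z k U) R (h1 k U) P]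
  · have e : NormedSpace.exp Zo - FG.pol v f
        = (NormedSpace.exp Zo - ∑ p ∈ Finset.range (P + 1), ((Nat.factorial p : ℂ)⁻¹) • Zo ^ p)
          + ((∑ p ∈ Finset.range (P + 1), ((Nat.factorial p : ℂ)⁻¹) • Zo ^ p) - FG.pol v f) := by
      abel
    rw [e]
    refine (norm_add_le _ _).trans ?_
    linarith [appr_gexp_tail Zo R h2 P]

theorem appr_tau_pol (hv : Core m n v) (f : FreeGroup (Fin m) →₀ ℂ) : tau (FG.pol v f) = f 1 := by
  have h1 : tau (1 : Ell (FreeGroup (Fin n)) →L[ℂ] Ell (FreeGroup (Fin n))) = 1 := by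
    classical
    unfold tau
    show (delta (1 : FreeGroup (Fin n)) : Ell (FreeGroup (Fin n))) 1 = 1
    rw [delta_apply]; simp
  have h2 : tau (FG.pol v f) = f.sum fun w c => c * tau (wd v w) := by
    unfold tau FG.pol Finsupp.sum
    rw [_root_.sum_apply]
    rw [show ((∑ w ∈ f.support, (f w • wd v w : Ell (FreeGroup (Fin n)) →L[ℂ] Ell (FreeGroup (Fin n)))
      (delta 1) : Ell (FreeGroup (Fin n))) 1) = ∑ w ∈ f.support, ((f w • wd v w :
      Ell (FreeGroup (Fin n)) →L[ℂ] Ell (FreeGroup (Fin n))) (delta 1)) 1 by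
        rw [lp.coeFn_sum, Finset.sum_apply]]
    rfl
  rw [h2]
  unfold Finsupp.sum
  rw [Finset.sum_eq_single (1 : FreeGroup (Fin m))]
  · show f 1 * tau (wd v 1) = f 1
    rw [appr_gwd_one, h1, mul_one]
  · intro w _ hw
    show f w * tau (wd v w) = 0
    rw [hv.free w hw, mul_zero]
  · intro h
    show f 1 * tau (wd v 1) = 0
    rw [Finsupp.notMem_support_iff.1 h, zero_mul]

theorem Appr.tr {Z Zo} (hv : Core m n v) (h : Appr v Z Zo) (η : ℝ) (hη : 0 < η) :
    ∃ f : FreeGroup (Fin m) →₀ ℂ, ∀ (k : ℕ), 0 < k → ∀ U : Fin m → UU k,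
      ‖ntr (FG.pol U f : Mat k) - f 1‖ < η / 3 → ‖ntr (Z k U) - tau Zo‖ < η := by
  obtain ⟨f, hf1, hf2⟩ := h (η / 4) (by positivity)
  refine ⟨f, fun k hk U hU => ?_⟩
  have a1 : ‖ntr (Z k U) - ntr (FG.pol U f : Mat k)‖ ≤ η / 4 := by
    rw [← ntr_sub]
    exact (norm_ntr_le _).trans (hf1 k U)
  have a2 : ‖tau Zo - tau (FG.pol v f)‖ ≤ η / 4 := by
    have e : tau Zo - tau (FG.pol v f) = tau (Zo - FG.pol v f) := rfl
    rw [e]
    refine (norm_tau_le _).trans ?_
    refine (ContinuousLinearMap.le_opNorm _ _).trans ?_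
    rw [norm_delta, mul_one]
    exact hf2
  rw [appr_tau_pol v hv] at a2
  have e : ntr (Z k U) - tau Zo = (ntr (Z k U) - ntr (FG.pol U f : Mat k))
      + (ntr (FG.pol U f : Mat k) - f 1) - (tau Zo - f 1) := by ring
  rw [e]
  have := norm_sub_le ((ntr (Z k U) - ntr (FG.pol U f : Mat k)) + (ntr (FG.pol U f : Mat k) - f 1))
    (tau Zo - f 1)
  have := norm_add_le (ntr (Z k U) - ntr (FG.pol U f : Mat k)) (ntr (FG.pol U f : Mat k) - f 1)
  linarith
end

end Pool.Agent.H667R2.FG.TAPPR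

namespace Pool.Agent.H667R2.FG

alias Appr.pol := TAPPR.Appr.pol
alias Appr.add := TAPPR.Appr.add
alias Appr.smul := TAPPR.Appr.smul
alias Appr.mul := TAPPR.Appr.mul
alias Appr.star := TAPPR.Appr.star
alias Appr.exp := TAPPR.Appr.exp
alias Appr.tr := TAPPR.Appr.tr

end Pool.Agent.H667R2.FG
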