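import Mathlib
import Pool.Agent.H667R2.FG.Defs
import Pool.Agent.H667R2.FG.OpDefs
import Pool.Agent.H667R2.FG.Herm
import Pool.Agent.H667R2.FG.THS

/-! Task LOOP: the Schwinger-Dyson (loop) equation for Haar unitaries. -/

set_option autoImplicit false

namespace Pool.Agent.H667R2.FG.TLOOP

open MeasureTheory Matrix Filter
open scoped Matrix.Norms.L2Operator ComplexConjugate ENNReal

namespace Loop

variable {k : ℕ} {ι : Type}

/-! ### the derivative -/

/-- derivative of a letter -/
noncomputable def dlt [DecidableEq ι] (U : ι → UU k) (i₀ : ι) (A : Mat k) (i : ι) (b : Bool) :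
    Mat k :=
  if i = i₀ then (if b then A * lt U i b else -(lt U i b * A)) else 0

/-- insertion of `A` at all letters -/
noncomputable def DA [DecidableEq ι] (U : ι → UU k) (i₀ : ι) (A : Mat k) (w : List (Syl k ι)) :
    Mat k :=
  ((terms U i₀ w).map fun t => t.1 • (t.2.1 * A * t.2.2)).sum

theorem DA_nil [DecidableEq ι] (U : ι → UU k) (i₀ : ι) (A : Mat k) : DA U i₀ A [] = 0 := by
  simp [DA, terms]

theorem sum_mul_left' (l : List (ℂ × Mat k × Mat k)) (A B : Mat k) :
    ((l.map fun t => (t.1, B * t.2.1, t.2.2)).map fun t => t.1 • (t.2.1 * A * t.2.2)).sum =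
      B * (l.map fun t => t.1 • (t.2.1 * A * t.2.2)).sum := by
  induction l with
  | nil => simp
  | cons t l ih =>
    simp only [List.map_cons, List.sum_cons, mul_add]
    rw [ih]
    congr 1
    rw [Matrix.mul_smul]
    simp only [Matrix.mul_assoc]

theorem DA_cons [DecidableEq ι] (U : ι → UU k) (i₀ : ι) (A : Mat k) (s : Syl k ι)
    (w : List (Syl k ι)) :
    DA U i₀ A (s :: w) = dlt U i₀ A s.1 s.2.1 * s.2.2 * evS U w +
      lt U s.1 s.2.1 * s.2.2 * DA U i₀ A w := by
  unfold DA
  rw [terms, List.map_append, List.sum_append, sum_mul_left']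
  congr 1
  unfold dlt
  by_cases h : s.1 = i₀
  · rw [if_pos h, if_pos h]
    by_cases hb : s.2.1 = true
    · rw [hb]
      simp [Matrix.mul_assoc]
    · have hb' : s.2.1 = false := by simpa using hb
      rw [hb']
      simp [Matrix.mul_assoc]
  · rw [if_neg h, if_neg h]
    simp

/-! ### continuity -/

theorem continuous_lt (i : ι) (b : Bool) : Continuous fun U : ι → UU k => lt U i b := by
  unfold lt
  by_cases hb : b = true
  · simp only [hb, if_true]
    exact continuous_subtype_val.comp (continuous_apply i)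
  · simp only [hb]
    exact continuous_subtype_val.comp ((continuous_apply i).inv)

theorem continuous_evS (w : List (Syl k ι)) : Continuous fun U : ι → UU k => evS U w := by
  induction w with
  | nil => exact continuous_const
  | cons s w ih =>
    simp only [evS]
    exact ((continuous_lt s.1 s.2.1).mul continuous_const).mul ih

theorem continuous_dlt [DecidableEq ι] (i₀ : ι) (A : Mat k) (i : ι) (b : Bool) :
    Continuous fun U : ι → UU k => dlt U i₀ A i b := by
  unfold dlt
  by_cases h : i = i₀
  · simp only [h, if_true]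
    by_cases hb : b = true
    · simp only [hb, if_true]
      exact continuous_const.mul (continuous_lt i₀ true)
    · have hb' : b = false := by simpa using hb
      simp only [hb']
      exact ((continuous_lt i₀ false).mul continuous_const).neg
  · simp only [h, if_false]
    exact continuous_const

theorem continuous_DA [DecidableEq ι] (i₀ : ι) (A : Mat k) (w : List (Syl k ι)) :
    Continuous fun U : ι → UU k => DA U i₀ A w := by
  induction w with
  | nil => simp only [DA_nil]; exact continuous_const
  | cons s w ih =>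
    simp only [DA_cons]
    exact (((continuous_dlt i₀ A s.1 s.2.1).mul continuous_const).mul (continuous_evS w)).add
      (((continuous_lt s.1 s.2.1).mul continuous_const).mul ih)

/-! ### the one-parameter group -/

/-- `exp (θ i H)` -/
noncomputable def gg (H : selfAdjoint (Mat k)) (θ : ℝ) : UU k :=
  selfAdjoint.expUnitary (θ • H)

theorem gg_coe (H : selfAdjoint (Mat k)) (θ : ℝ) :
    (gg H θ : Mat k) = NormedSpace.exp (θ • (Complex.I • (H : Mat k))) := by
  unfold gg
  rw [selfAdjoint.expUnitary_coe]
  congr 1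
  change Complex.I • (θ • (H : Mat k)) = _
  rw [smul_comm]

theorem gg_zero (H : selfAdjoint (Mat k)) : gg H 0 = 1 := by
  unfold gg
  rw [zero_smul, selfAdjoint.expUnitary_zero]

theorem hasDerivAt_gg (H : selfAdjoint (Mat k)) (θ : ℝ) :
    HasDerivAt (fun s : ℝ => (gg H s : Mat k)) ((Complex.I • (H : Mat k)) * (gg H θ : Mat k)) θ := by
  simp only [gg_coe]
  exact hasDerivAt_exp_smul_const' (𝕂 := ℝ) (Complex.I • (H : Mat k)) θ

/-- rotated tuple -/
noncomputable def VV [DecidableEq ι] (i₀ : ι) (H : selfAdjoint (Mat k)) (U : ι → UU k) (θ : ℝ) :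
    ι → UU k := Pi.mulSingle i₀ (gg H θ) * U

theorem VV_zero [DecidableEq ι] (i₀ : ι) (H : selfAdjoint (Mat k)) (U : ι → UU k) :
    VV i₀ H U 0 = U := by
  unfold VV
  rw [gg_zero, Pi.mulSingle_one, one_mul]

theorem VV_same [DecidableEq ι] (i₀ : ι) (H : selfAdjoint (Mat k)) (U : ι → UU k) (θ : ℝ) :
    VV i₀ H U θ i₀ = gg H θ * U i₀ := by
  simp [VV]

theorem VV_ne [DecidableEq ι] (i₀ : ι) (H : selfAdjoint (Mat k)) (U : ι → UU k) (θ : ℝ) (i : ι)
    (hi : i ≠ i₀) : VV i₀ H U θ i = U i := by
  simp [VV, hi]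

theorem hasDerivAt_lt [DecidableEq ι] (i₀ : ι) (H : selfAdjoint (Mat k)) (U : ι → UU k) (θ : ℝ)
    (i : ι) (b : Bool) :
    HasDerivAt (fun s : ℝ => lt (VV i₀ H U s) i b)
      (dlt (VV i₀ H U θ) i₀ (Complex.I • (H : Mat k)) i b) θ := by
  by_cases h : i = i₀
  · subst h
    have h1 : HasDerivAt (fun s : ℝ => (VV i H U s i : Mat k))
        ((Complex.I • (H : Mat k)) * (VV i H U θ i : Mat k)) θ := by
      have h2 := (hasDerivAt_gg H θ).mul_const (U i : Mat k)
      have e : (fun s : ℝ => (VV i H U s i : Mat k)) = fun s => (gg H s : Mat k) * (U i : Mat k) := by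
        funext s
        rw [VV_same]
        rfl
      rw [e, VV_same]
      refine HasDerivAt.congr_deriv h2 ?_
      rw [Matrix.mul_assoc]
      rfl
    unfold dlt
    rw [if_pos rfl]
    by_cases hb : b = true
    · subst hb
      simp only [lt, if_true]
      exact h1
    · have hb' : b = false := by simpa using hb
      subst hb'
      have h3 := h1.star
      have e : (fun s : ℝ => lt (VV i H U s) i false) = fun s => star (VV i H U s i : Mat k) := by
        funext s
        simp only [lt]
        rfl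
      rw [e]
      refine HasDerivAt.congr_deriv h3 ?_
      rw [star_mul, star_smul]
      have hH : star (H : Mat k) = (H : Mat k) := H.2
      rw [hH]
      simp only [lt]
      simp
  · have e : (fun s : ℝ => lt (VV i₀ H U s) i b) = fun s => lt U i b := by
      funext s
      simp only [lt, VV_ne i₀ H U s i h]
    rw [e]
    simp only [dlt, h, if_false]
    exact hasDerivAt_const θ _

theorem hasDerivAt_evS [DecidableEq ι] (i₀ : ι) (H : selfAdjoint (Mat k)) (U : ι → UU k) (θ : ℝ)
    (w : List (Syl k ι)) :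
    HasDerivAt (fun s : ℝ => evS (VV i₀ H U s) w)
      (DA (VV i₀ H U θ) i₀ (Complex.I • (H : Mat k)) w) θ := by
  induction w with
  | nil =>
    simp only [evS, DA_nil]
    exact hasDerivAt_const θ _
  | cons s w ih =>
    simp only [evS, DA_cons]
    exact ((hasDerivAt_lt i₀ H U θ s.1 s.2.1).mul_const s.2.2).mul ih

/-! ### the scalar identity -/

instance : SecondCountableTopology (UU k) := by
  have : SecondCountableTopology (Mat k) := by
    change SecondCountableTopology (Fin k → Fin k → ℂ)
    infer_instance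
  infer_instance

/-- derivative of `M_ab * conj (tr M)` -/
noncomputable def GG [DecidableEq ι] (i₀ : ι) (A : Mat k) (w : List (Syl k ι)) (a b : Fin k)
    (U : ι → UU k) : ℂ :=
  DA U i₀ A w a b * conj (evS U w).trace + evS U w a b * conj (DA U i₀ A w).trace

theorem continuous_entry {X : Type*} [TopologicalSpace X] {f : X → Mat k} (hf : Continuous f)
    (a b : Fin k) : Continuous fun x => f x a b :=
  (continuous_apply b).comp ((continuous_apply a).comp hf)

theorem continuous_tr {X : Type*} [TopologicalSpace X] {f : X → Mat k} (hf : Continuous f) :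
    Continuous fun x => (f x).trace := by
  unfold Matrix.trace
  exact continuous_finsetSum _ fun i _ => continuous_entry hf i i

theorem continuous_GG [DecidableEq ι] (i₀ : ι) (A : Mat k) (w : List (Syl k ι)) (a b : Fin k) :
    Continuous (GG i₀ A w a b) := by
  unfold GG
  exact ((continuous_entry (continuous_DA i₀ A w) a b).mul
    (Complex.continuous_conj.comp (continuous_tr (continuous_evS w)))).add
    ((continuous_entry (continuous_evS w) a b).mul
    (Complex.continuous_conj.comp (continuous_tr (continuous_DA i₀ A w))))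

theorem hasDerivAt_entry {f : ℝ → Mat k} {f' : Mat k} {θ : ℝ} (hf : HasDerivAt f f' θ)
    (a b : Fin k) : HasDerivAt (fun s => f s a b) (f' a b) θ := by
  let L : Mat k →ₗ[ℝ] ℂ :=
    { toFun := fun M => M a b
      map_add' := fun _ _ => rfl
      map_smul' := fun _ _ => rfl }
  exact (LinearMap.toContinuousLinearMap L).hasFDerivAt.comp_hasDerivAt θ hf

theorem hasDerivAt_tr {f : ℝ → Mat k} {f' : Mat k} {θ : ℝ} (hf : HasDerivAt f f' θ) :
    HasDerivAt (fun s => (f s).trace) f'.trace θ := by
  unfold Matrix.trace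
  exact HasDerivAt.fun_sum fun i _ => hasDerivAt_entry hf i i

theorem hasDerivAt_F [DecidableEq ι] (i₀ : ι) (H : selfAdjoint (Mat k)) (U : ι → UU k)
    (w : List (Syl k ι)) (a b : Fin k) (θ : ℝ) :
    HasDerivAt (fun s : ℝ => evS (VV i₀ H U s) w a b * conj (evS (VV i₀ H U s) w).trace)
      (GG i₀ (Complex.I • (H : Mat k)) w a b (VV i₀ H U θ)) θ := by
  have h1 := hasDerivAt_evS i₀ H U θ w
  have h2 := hasDerivAt_entry h1 a b
  have h3 := (hasDerivAt_tr h1).star
  have h4 := h2.mul h3
  exact h4

theorem int_GG [Fintype ι] [DecidableEq ι] (i₀ : ι) (H : selfAdjoint (Mat k))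
    (w : List (Syl k ι)) (a b : Fin k) :
    ∫ U, GG i₀ (Complex.I • (H : Mat k)) w a b U ∂(haarP k ι) = 0 := by
  set F : ℝ → (ι → UU k) → ℂ := fun s U =>
    evS (VV i₀ H U s) w a b * conj (evS (VV i₀ H U s) w).trace with hF
  have hcont : Continuous fun U : ι → UU k => evS U w a b * conj (evS U w).trace :=
    (continuous_entry (continuous_evS w) a b).mul
      (Complex.continuous_conj.comp (continuous_tr (continuous_evS w)))
  have hVc : ∀ s, Continuous fun U : ι → UU k => VV i₀ H U s := by
    intro s
    unfold VV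
    exact continuous_const.mul continuous_id
  obtain ⟨C, hC⟩ : ∃ C, ∀ U : ι → UU k, ‖GG i₀ (Complex.I • (H : Mat k)) w a b U‖ ≤ C := by
    have := (isCompact_range (continuous_GG (k := k) i₀ (Complex.I • (H : Mat k)) w a b)).isBounded
    obtain ⟨C, hC⟩ := this.exists_norm_le
    exact ⟨C, fun U => hC _ ⟨U, rfl⟩⟩
  have key := hasDerivAt_integral_of_dominated_loc_of_deriv_le (μ := haarP k ι)
    (F := F) (F' := fun s U => GG i₀ (Complex.I • (H : Mat k)) w a b (VV i₀ H U s))
    (x₀ := (0 : ℝ)) (s := Metric.ball 0 1) (bound := fun _ => C)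
    (Metric.ball_mem_nhds _ one_pos)
    (Eventually.of_forall fun s => (hcont.comp (hVc s)).aestronglyMeasurable)
    ((hcont.comp (hVc 0)).integrable_of_hasCompactSupport (HasCompactSupport.of_compactSpace _))
    (((continuous_GG i₀ _ w a b).comp (hVc 0)).aestronglyMeasurable)
    (Eventually.of_forall fun U s _ => hC _)
    (integrable_const C)
    (Eventually.of_forall fun U s _ => hasDerivAt_F i₀ H U w a b s)
  have hconst : (fun s : ℝ => ∫ U, F s U ∂(haarP k ι)) = fun _ => ∫ U, evS U w a b * conj (evS U w).trace ∂(haarP k ι) := by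
    funext s
    exact integral_mul_left_eq_self (μ := haarP k ι)
      (fun U : ι → UU k => evS U w a b * conj (evS U w).trace) (Pi.mulSingle i₀ (gg H s))
  have h2 := key.2
  rw [hconst] at h2
  have h3 := (hasDerivAt_const (0 : ℝ) (∫ U, evS U w a b * conj (evS U w).trace ∂(haarP k ι))).unique h2
  simp only [VV_zero] at h3
  exact h3.symm

/-! ### linearity -/

/-- the sum over a list of terms -/
noncomputable def SS (l : List (ℂ × Mat k × Mat k)) (A : Mat k) : Mat k :=
  (l.map fun t => t.1 • (t.2.1 * A * t.2.2)).sum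

theorem SS_nil (A : Mat k) : SS [] A = 0 := by simp [SS]

theorem SS_cons (t : ℂ × Mat k × Mat k) (l : List (ℂ × Mat k × Mat k)) (A : Mat k) :
    SS (t :: l) A = t.1 • (t.2.1 * A * t.2.2) + SS l A := by simp [SS]

theorem SS_add (l : List (ℂ × Mat k × Mat k)) (A B : Mat k) : SS l (A + B) = SS l A + SS l B := by
  induction l with
  | nil => simp [SS_nil]
  | cons t l ih =>
    rw [SS_cons, SS_cons, SS_cons, ih, mul_add, add_mul, smul_add]
    abel

theorem SS_smul (l : List (ℂ × Mat k × Mat k)) (c : ℂ) (A : Mat k) :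
    SS l (c • A) = c • SS l A := by
  induction l with
  | nil => simp [SS_nil]
  | cons t l ih =>
    rw [SS_cons, SS_cons, ih, Matrix.mul_smul, Matrix.smul_mul, smul_add, smul_comm]

theorem DA_eq [DecidableEq ι] (U : ι → UU k) (i₀ : ι) (A : Mat k) (w : List (Syl k ι)) :
    DA U i₀ A w = SS (terms U i₀ w) A := rfl

/-- the integrand -/
noncomputable def Gm [DecidableEq ι] (i₀ : ι) (A : Mat k) (w : List (Syl k ι)) (a b : Fin k)
    (U : ι → UU k) : ℂ :=
  DA U i₀ A w a b * conj (evS U w).trace - evS U w a b * conj (DA U i₀ Aᴴ w).trace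

theorem continuous_Gm [DecidableEq ι] (i₀ : ι) (A : Mat k) (w : List (Syl k ι)) (a b : Fin k) :
    Continuous (Gm i₀ A w a b) := by
  unfold Gm
  exact ((continuous_entry (continuous_DA i₀ A w) a b).mul
    (Complex.continuous_conj.comp (continuous_tr (continuous_evS w)))).sub
    ((continuous_entry (continuous_evS w) a b).mul
    (Complex.continuous_conj.comp (continuous_tr (continuous_DA i₀ Aᴴ w))))

theorem integrable_Gm [Fintype ι] [DecidableEq ι] (i₀ : ι) (A : Mat k) (w : List (Syl k ι))
    (a b : Fin k) : Integrable (Gm i₀ A w a b) (haarP k ι) :=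
  (continuous_Gm i₀ A w a b).integrable_of_hasCompactSupport (HasCompactSupport.of_compactSpace _)

theorem Gm_add [DecidableEq ι] (i₀ : ι) (A B : Mat k) (w : List (Syl k ι)) (a b : Fin k)
    (U : ι → UU k) : Gm i₀ (A + B) w a b U = Gm i₀ A w a b U + Gm i₀ B w a b U := by
  unfold Gm
  rw [Matrix.conjTranspose_add]
  simp only [DA_eq, SS_add, Matrix.trace_add, map_add, Matrix.add_apply]
  ring

theorem Gm_smul [DecidableEq ι] (i₀ : ι) (c : ℂ) (A : Mat k) (w : List (Syl k ι)) (a b : Fin k)
    (U : ι → UU k) : Gm i₀ (c • A) w a b U = c * Gm i₀ A w a b U := by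
  unfold Gm
  rw [Matrix.conjTranspose_smul]
  simp only [DA_eq, SS_smul, Matrix.trace_smul, Matrix.smul_apply, smul_eq_mul, map_mul]
  simp
  ring

theorem int_Gm_sa [Fintype ι] [DecidableEq ι] (i₀ : ι) (H : selfAdjoint (Mat k))
    (w : List (Syl k ι)) (a b : Fin k) :
    ∫ U, Gm i₀ (H : Mat k) w a b U ∂(haarP k ι) = 0 := by
  have h1 := int_GG (k := k) i₀ H w a b
  have e : ∀ U : ι → UU k, GG i₀ (Complex.I • (H : Mat k)) w a b U =
      Complex.I * Gm i₀ (H : Mat k) w a b U := by
    intro U
    unfold GG Gm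
    have hH : (H : Mat k)ᴴ = (H : Mat k) := H.2
    rw [hH]
    simp only [DA_eq, SS_smul, Matrix.trace_smul, Matrix.smul_apply, smul_eq_mul, map_mul,
      Complex.conj_I]
    ring
  simp only [e] at h1
  rw [integral_const_mul] at h1
  rcases mul_eq_zero.mp h1 with h | h
  · exact absurd h Complex.I_ne_zero
  · exact h

theorem int_Gm [Fintype ι] [DecidableEq ι] (i₀ : ι) (A : Mat k)
    (w : List (Syl k ι)) (a b : Fin k) :
    ∫ U, Gm i₀ A w a b U ∂(haarP k ι) = 0 := by
  have e := realPart_add_I_smul_imaginaryPart A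
  rw [← e]
  simp only [Gm_add, Gm_smul]
  rw [integral_add (integrable_Gm _ _ _ _ _) ((integrable_Gm _ _ _ _ _).const_mul _),
    integral_const_mul, int_Gm_sa, int_Gm_sa]
  simp

/-! ### summation over the matrix units -/

theorem SS_sum_left (l : List (ℂ × Mat k × Mat k)) :
    ∑ a, ∑ b, SS l (Matrix.single a b (1 : ℂ)) a b =
      (l.map fun t => t.1 * t.2.1.trace * t.2.2.trace).sum := by
  induction l with
  | nil => simp [SS_nil]
  | cons t l ih =>
    simp only [SS_cons, Matrix.add_apply, Finset.sum_add_distrib, List.map_cons, List.sum_cons]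
    rw [ih]
    congr 1
    have : ∀ a b : Fin k, (t.1 • (t.2.1 * Matrix.single a b (1 : ℂ) * t.2.2)) a b =
        t.1 * (t.2.1 a a * t.2.2 b b) := by
      intro a b
      rw [Matrix.smul_apply, smul_eq_mul]
      congr 1
      simp [Matrix.mul_apply, Matrix.single_apply, ite_and]
    simp only [this]
    rw [mul_assoc]
    simp only [Matrix.trace, Matrix.diag_apply]
    rw [Finset.sum_mul_sum, Finset.mul_sum]
    refine Finset.sum_congr rfl fun a _ => ?_
    rw [Finset.mul_sum]

theorem SS_sum_right (l : List (ℂ × Mat k × Mat k)) (hl : ∀ t ∈ l, conj t.1 = t.1) (M : Mat k) :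
    ∑ a, ∑ b, M a b * conj (SS l (Matrix.single a b (1 : ℂ))ᴴ).trace =
      (l.map fun t => t.1 * ((t.2.2 * t.2.1)ᴴ * M).trace).sum := by
  induction l with
  | nil => simp [SS_nil]
  | cons t l ih =>
    have ih' := ih fun t ht => hl t (List.mem_cons_of_mem _ ht)
    simp only [SS_cons, Matrix.trace_add, map_add, mul_add, Finset.sum_add_distrib, List.map_cons,
      List.sum_cons]
    rw [ih']
    congr 1
    have : ∀ a b : Fin k, M a b * conj (t.1 • (t.2.1 * (Matrix.single a b (1 : ℂ))ᴴ * t.2.2)).trace =
        t.1 * (M a b * conj ((t.2.2 * t.2.1) a b)) := by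
      intro a b
      rw [Matrix.trace_smul, smul_eq_mul, map_mul, hl t List.mem_cons_self]
      have h2 : (t.2.1 * (Matrix.single a b (1 : ℂ))ᴴ * t.2.2).trace = (t.2.2 * t.2.1) a b := by
        rw [Matrix.trace_mul_cycle, Matrix.conjTranspose_single, star_one]
        simp [Matrix.trace, Matrix.mul_apply, Matrix.single_apply, ite_and]
      rw [h2]
      ring
    simp only [this]
    simp only [Matrix.trace, Matrix.diag_apply]
    have h3 : ∀ b : Fin k, ((t.2.2 * t.2.1)ᴴ * M) b b = ∑ a, conj ((t.2.2 * t.2.1) a b) * M a b := by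
      intro b
      rw [Matrix.mul_apply]
      refine Finset.sum_congr rfl fun a _ => ?_
      rw [Matrix.conjTranspose_apply]
      rfl
    simp only [h3]
    rw [Finset.sum_comm, Finset.mul_sum]
    refine Finset.sum_congr rfl fun b _ => ?_
    rw [Finset.mul_sum]
    refine Finset.sum_congr rfl fun a _ => ?_
    ring

theorem terms_real [DecidableEq ι] (U : ι → UU k) (i₀ : ι) (w : List (Syl k ι)) :
    ∀ t ∈ terms U i₀ w, conj t.1 = t.1 := by
  induction w with
  | nil => simp [terms]
  | cons s w ih =>
    intro t ht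
    rw [terms, List.mem_append] at ht
    rcases ht with ht | ht
    · by_cases h : s.1 = i₀
      · rw [if_pos h] at ht
        by_cases hb : s.2.1 = true
        · rw [if_pos hb, List.mem_singleton] at ht
          rw [ht]
          simp
        · rw [if_neg hb, List.mem_singleton] at ht
          rw [ht]
          simp
      · rw [if_neg h] at ht
        simp at ht
    · obtain ⟨t', ht', rfl⟩ := List.mem_map.mp ht
      exact ih t' ht'

end Loop

theorem loop {k : ℕ} {ι : Type} [Fintype ι] [DecidableEq ι] (i₀ : ι) (w : List (Syl k ι)) :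
    ∫ U, (((terms U i₀ w).map fun t => t.1 * t.2.1.trace * t.2.2.trace).sum) *
        conj (evS U w).trace ∂(haarP k ι)
      = ∫ U, ((terms U i₀ w).map fun t => t.1 * ((t.2.2 * t.2.1)ᴴ * evS U w).trace).sum
        ∂(haarP k ι) := by
  have h0 : ∑ a : Fin k, ∑ b : Fin k,
      ∫ U, Loop.Gm i₀ (Matrix.single a b (1 : ℂ)) w a b U ∂(haarP k ι) = 0 :=
    Finset.sum_eq_zero fun a _ => Finset.sum_eq_zero fun b _ => Loop.int_Gm i₀ _ w a b
  have h1 : ∀ a : Fin k, ∑ b : Fin k,
      ∫ U, Loop.Gm i₀ (Matrix.single a b (1 : ℂ)) w a b U ∂(haarP k ι) =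
      ∫ U, ∑ b : Fin k, Loop.Gm i₀ (Matrix.single a b (1 : ℂ)) w a b U ∂(haarP k ι) := by
    intro a
    rw [integral_finsetSum]
    exact fun b _ => Loop.integrable_Gm _ _ _ _ _
  simp only [h1] at h0
  rw [← integral_finsetSum _
    (fun a _ => integrable_finsetSum _ fun b _ => Loop.integrable_Gm _ _ _ _ _)] at h0
  have h2 : ∀ U : ι → UU k, ∑ a : Fin k, ∑ b : Fin k,
      Loop.Gm i₀ (Matrix.single a b (1 : ℂ)) w a b U =
      (((terms U i₀ w).map fun t => t.1 * t.2.1.trace * t.2.2.trace).sum) *
        conj (evS U w).trace -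
      ((terms U i₀ w).map fun t => t.1 * ((t.2.2 * t.2.1)ᴴ * evS U w).trace).sum := by
    intro U
    simp only [Loop.Gm, Finset.sum_sub_distrib, Loop.DA_eq]
    rw [← Loop.SS_sum_left, ← Loop.SS_sum_right _ (Loop.terms_real U i₀ w) (evS U w)]
    congr 1
    rw [Finset.sum_mul]
    refine Finset.sum_congr rfl fun a _ => ?_
    rw [Finset.sum_mul]
  simp only [h2] at h0
  have hc1 : Continuous fun U : ι → UU k =>
      (((terms U i₀ w).map fun t => t.1 * t.2.1.trace * t.2.2.trace).sum) *
        conj (evS U w).trace := by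
    have e : ∀ U : ι → UU k, (((terms U i₀ w).map fun t => t.1 * t.2.1.trace * t.2.2.trace).sum) =
        ∑ a, ∑ b, Loop.DA U i₀ (Matrix.single a b (1 : ℂ)) w a b := by
      intro U
      rw [← Loop.SS_sum_left]
      rfl
    simp only [e]
    exact (continuous_finsetSum _ fun a _ => continuous_finsetSum _ fun b _ =>
      Loop.continuous_entry (Loop.continuous_DA i₀ _ w) a b).mul
      (Complex.continuous_conj.comp (Loop.continuous_tr (Loop.continuous_evS w)))
  have hc2 : Continuous fun U : ι → UU k =>
      ((terms U i₀ w).map fun t => t.1 * ((t.2.2 * t.2.1)ᴴ * evS U w).trace).sum := by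
    have e : ∀ U : ι → UU k,
        ((terms U i₀ w).map fun t => t.1 * ((t.2.2 * t.2.1)ᴴ * evS U w).trace).sum =
        ∑ a, ∑ b, evS U w a b * conj (Loop.DA U i₀ (Matrix.single a b (1 : ℂ))ᴴ w).trace := by
      intro U
      rw [← Loop.SS_sum_right _ (Loop.terms_real U i₀ w) (evS U w)]
      rfl
    simp only [e]
    exact continuous_finsetSum _ fun a _ => continuous_finsetSum _ fun b _ =>
      (Loop.continuous_entry (Loop.continuous_evS w) a b).mul
      (Complex.continuous_conj.comp (Loop.continuous_tr (Loop.continuous_DA i₀ _ w)))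
  rw [integral_sub (hc1.integrable_of_hasCompactSupport (HasCompactSupport.of_compactSpace _))
    (hc2.integrable_of_hasCompactSupport (HasCompactSupport.of_compactSpace _))] at h0
  exact sub_eq_zero.mp h0

end Pool.Agent.H667R2.FG.TLOOP

namespace Pool.Agent.H667R2.FG

alias loop := TLOOP.loop

end Pool.Agent.H667R2.FG
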