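import Mathlib
import Pool.Agent.H667R2.FG.Defs
import Pool.Agent.H667R2.FG.OpDefs
import Pool.Agent.H667R2.FG.Herm
import Pool.Agent.H667R2.FG.THS
import Pool.Agent.H667R2.FG.TLOOP

namespace Pool.Agent.H667R2.FG.TAF

open MeasureTheory Matrix Filter
open scoped Matrix.Norms.L2Operator ComplexConjugate ENNReal

section AF

variable {k : ℕ} {ι : Type}

/-- splittings of a word at the letters `U_{i₀}^{±1}` -/
def splits [DecidableEq ι] (i₀ : ι) :
    List (Syl k ι) → List (List (Syl k ι) × Syl k ι × List (Syl k ι))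
  | [] => []
  | s :: w => (if s.1 = i₀ then [([], s, w)] else []) ++
      (splits i₀ w).map (fun q => (s :: q.1, q.2.1, q.2.2))

/-- the term of a splitting -/
noncomputable def tm (U : ι → UU k) (q : List (Syl k ι) × Syl k ι × List (Syl k ι)) :
    ℂ × Mat k × Mat k :=
  if q.2.1.2.1 then (1, evS U q.1, evS U (q.2.1 :: q.2.2))
  else (-1, evS U q.1 * lt U q.2.1.1 q.2.1.2.1, q.2.1.2.2 * evS U q.2.2)

lemma terms_eq [DecidableEq ι] (U : ι → UU k) (i₀ : ι) (w : List (Syl k ι)) :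
    terms U i₀ w = (splits i₀ w).map (tm U) := by
  induction w with
  | nil => rfl
  | cons s w ih =>
    simp only [terms, splits, ih, List.map_append, List.map_map]
    congr 1
    · by_cases h1 : s.1 = i₀
      · by_cases h2 : s.2.1 = true
        · simp [tm, evS, h1, h2]
        · simp [tm, evS, h1, h2]
      · simp [h1]
    · apply List.map_congr_left
      intro q _
      simp only [tm, Function.comp, evS]
      split_ifs <;> simp [mul_assoc]

lemma splits_mem [DecidableEq ι] (i₀ : ι) (w : List (Syl k ι))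
    (q : List (Syl k ι) × Syl k ι × List (Syl k ι)) (hq : q ∈ splits i₀ w) :
    w = q.1 ++ q.2.1 :: q.2.2 ∧ q.2.1.1 = i₀ := by
  induction w generalizing q with
  | nil => simp [splits] at hq
  | cons s w ih =>
    simp only [splits, List.mem_append, List.mem_map] at hq
    rcases hq with hq | ⟨q', hq', rfl⟩
    · by_cases h1 : s.1 = i₀
      · simp only [h1, if_true, List.mem_singleton] at hq
        subst hq
        exact ⟨rfl, h1⟩
      · simp [h1] at hq
    · obtain ⟨h1, h2⟩ := ih q' hq'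
      exact ⟨by simp [← h1], h2⟩

lemma splits_length [DecidableEq ι] (i₀ : ι) (w : List (Syl k ι)) :
    (splits i₀ w).length ≤ w.length := by
  induction w with
  | nil => simp [splits]
  | cons s w ih =>
    simp only [splits, List.length_append, List.length_map, List.length_cons]
    by_cases h1 : s.1 = i₀
    · simp [h1]; omega
    · simp [h1]; omega

lemma norm_lt_le (U : ι → UU k) (i : ι) (b : Bool) : ‖lt U i b‖ ≤ 1 := by
  unfold lt
  split_ifs
  · exact norm_unitary_le _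
  · exact norm_unitary_le _

lemma nrm_nonneg (w : List (Syl k ι)) : 0 ≤ nrm w := by
  unfold nrm
  apply List.prod_nonneg
  intro x hx
  simp only [List.mem_map] at hx
  obtain ⟨s, _, rfl⟩ := hx
  exact norm_nonneg _

lemma nrm_cons (s : Syl k ι) (w : List (Syl k ι)) : nrm (s :: w) = ‖s.2.2‖ * nrm w := by
  simp [nrm]

lemma nrm_append (u w : List (Syl k ι)) : nrm (u ++ w) = nrm u * nrm w := by
  simp [nrm]

lemma norm_one_le : ‖(1 : Mat k)‖ ≤ 1 := by
  simpa using norm_unitary_le (1 : UU k)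

lemma norm_evS_le (U : ι → UU k) (w : List (Syl k ι)) : ‖evS U w‖ ≤ nrm w := by
  induction w with
  | nil => simpa [evS, nrm] using norm_one_le
  | cons s w ih =>
    rw [evS, nrm_cons]
    calc ‖lt U s.1 s.2.1 * s.2.2 * evS U w‖ ≤ ‖lt U s.1 s.2.1 * s.2.2‖ * ‖evS U w‖ := norm_mul_le _ _
      _ ≤ (‖lt U s.1 s.2.1‖ * ‖s.2.2‖) * ‖evS U w‖ := by gcongr; exact norm_mul_le _ _
      _ ≤ (1 * ‖s.2.2‖) * nrm w := by
          gcongr
          exact norm_lt_le _ _ _
      _ = ‖s.2.2‖ * nrm w := by ring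

lemma evS_append (U : ι → UU k) (u w : List (Syl k ι)) : evS U (u ++ w) = evS U u * evS U w := by
  induction u with
  | nil => simp [evS]
  | cons s u ih => simp [evS, ih, mul_assoc]

lemma continuous_lt (i : ι) (b : Bool) : Continuous fun U : ι → UU k => lt U i b := by
  unfold lt
  cases b
  · simp only [Bool.false_eq_true, if_false]
    exact continuous_subtype_val.comp (continuous_inv.comp (continuous_apply i))
  · simp only [if_true]
    exact continuous_subtype_val.comp (continuous_apply i)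

lemma continuous_evS (w : List (Syl k ι)) : Continuous fun U : ι → UU k => evS U w := by
  induction w with
  | nil => simpa [evS] using continuous_const
  | cons s w ih =>
    simp only [evS]
    exact ((continuous_lt _ _).mul continuous_const).mul ih

lemma lt_inv (U : ι → UU k) (i : ι) (b : Bool) : lt U⁻¹ i b = lt U i (!b) := by
  cases b <;> simp [lt]

/-- flip all signs -/
def flipW (w : List (Syl k ι)) : List (Syl k ι) := w.map fun s => (s.1, !s.2.1, s.2.2)

lemma evS_inv (U : ι → UU k) (w : List (Syl k ι)) : evS U⁻¹ w = evS U (flipW w) := by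
  induction w with
  | nil => rfl
  | cons s w ih =>
    simp only [evS, flipW, List.map_cons, lt_inv] at ih ⊢
    rw [ih]

lemma flip_good (w : List (Syl k ι)) (h : GoodW w) : GoodW (flipW w) := by
  unfold GoodW flipW at *
  rw [List.isChain_map]
  refine h.imp ?_
  intro s t hst h1 h2
  apply hst h1
  intro h3
  exact h2 (by simp [h3])

lemma flip_nrm (w : List (Syl k ι)) : nrm (flipW w) = nrm w := by
  simp [nrm, flipW, Function.comp_def]

lemma flip_length (w : List (Syl k ι)) : (flipW w).length = w.length := by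
  simp [flipW]

variable [Fintype ι]

lemma integrable_cont {E : Type*} [NormedAddCommGroup E] {f : (ι → UU k) → E}
    (hf : Continuous f) : Integrable f (haarP k ι) := by
  exact hf.integrable_of_hasCompactSupport (HasCompactSupport.of_compactSpace f)

/-- second moment of the normalised trace -/
noncomputable def X (w : List (Syl k ι)) : ℝ := ∫ U, ‖ntr (evS U w)‖ ^ 2 ∂(haarP k ι)

lemma X_flip (w : List (Syl k ι)) : X (flipW w) = X w := by
  unfold X
  rw [← integral_inv_eq_self (fun U : ι → UU k => ‖ntr (evS U w)‖ ^ 2) (haarP k ι)]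
  simp only [evS_inv]


omit [Fintype ι] in
lemma tm_norm (U : ι → UU k) (q : List (Syl k ι) × Syl k ι × List (Syl k ι)) :
    ‖(tm U q).1‖ = 1 ∧ ‖(tm U q).2.1‖ ≤ nrm q.1 ∧ ‖(tm U q).2.2‖ ≤ nrm (q.2.1 :: q.2.2) := by
  unfold tm
  split_ifs
  · exact ⟨by simp, norm_evS_le _ _, norm_evS_le _ _⟩
  · refine ⟨by simp, ?_, ?_⟩
    · calc ‖evS U q.1 * lt U q.2.1.1 q.2.1.2.1‖ ≤ ‖evS U q.1‖ * ‖lt U q.2.1.1 q.2.1.2.1‖ :=
            norm_mul_le _ _
        _ ≤ nrm q.1 * 1 := by
            gcongr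
            · exact nrm_nonneg _
            · exact norm_evS_le _ _
            · exact norm_lt_le _ _ _
        _ = nrm q.1 := mul_one _
    · rw [nrm_cons]
      calc ‖q.2.1.2.2 * evS U q.2.2‖ ≤ ‖q.2.1.2.2‖ * ‖evS U q.2.2‖ := norm_mul_le _ _
        _ ≤ ‖q.2.1.2.2‖ * nrm q.2.2 := by gcongr; exact norm_evS_le _ _

omit [Fintype ι] in
lemma tm_cont (q : List (Syl k ι) × Syl k ι × List (Syl k ι)) :
    Continuous (fun U : ι → UU k => (tm U q).1) ∧ Continuous (fun U : ι → UU k => (tm U q).2.1) ∧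
      Continuous (fun U : ι → UU k => (tm U q).2.2) := by
  unfold tm
  split_ifs
  · exact ⟨continuous_const, continuous_evS _, continuous_evS _⟩
  · exact ⟨continuous_const, (continuous_evS _).mul (continuous_lt _ _),
      continuous_const.mul (continuous_evS _)⟩

omit [Fintype ι] in
lemma good_rot (s₁ z s : Syl k ι) (u v : List (Syl k ι)) (z' : Syl k ι) (h1 : z'.1 = z.1)
    (h2 : z'.2.1 = z.2.1) (h : GoodW (s₁ :: ((u ++ [z]) ++ s :: v))) : GoodW (u ++ [z']) := by
  unfold GoodW at *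
  have h3 := (List.isChain_cons.mp h).2
  have h4 := (List.isChain_append.mp h3).1
  rw [List.isChain_append] at h4 ⊢
  refine ⟨h4.1, by simp, ?_⟩
  intro x hx y hy hxy hxy'
  simp only [List.head?_cons, Option.mem_def, Option.some.injEq] at hy
  subst hy
  refine h4.2.2 x hx z (by simp) (hxy.trans h1) ?_
  rw [← h2]; exact hxy'

lemma keyA [DecidableEq ι] (hk : 0 < k) (c : ℝ) (hc : 0 ≤ c) (r : ℕ)
    (IH : ∀ w : List (Syl k ι), w.length ≤ r → w ≠ [] → GoodW w → X w ≤ c * nrm w ^ 2 / (k : ℝ) ^ 2)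
    (s₁ : Syl k ι) (w : List (Syl k ι)) (hw : (s₁ :: w).length ≤ r + 1) (hs₁ : s₁.2.1 = true)
    (hg : GoodW (s₁ :: w)) (q : List (Syl k ι) × Syl k ι × List (Syl k ι))
    (hq : q ∈ splits s₁.1 w) :
    ∫ U, ‖ntr (tm U (s₁ :: q.1, q.2)).2.1‖ ^ 2 ∂(haarP k ι)
      ≤ c * nrm (s₁ :: q.1) ^ 2 / (k : ℝ) ^ 2 := by
  obtain ⟨u, s, v⟩ := q
  obtain ⟨h1, h2⟩ := splits_mem _ _ _ hq
  simp only at h1 h2
  have hpos : 0 ≤ c * nrm (s₁ :: u) ^ 2 / (k : ℝ) ^ 2 := by positivity
  subst h1
  by_cases hs : s.2.1 = true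
  · have : ∀ U : ι → UU k, (tm U (s₁ :: u, s, v)).2.1 = evS U (s₁ :: u) := by
      intro U; simp [tm, hs]
    simp only [this]
    apply IH
    · simp at hw ⊢; omega
    · simp
    · unfold GoodW at *
      have := List.isChain_append.mp (show List.IsChain _ ((s₁ :: u) ++ s :: v) from hg)
      exact this.1
  · simp only [Bool.not_eq_true] at hs
    have hL : ∀ U : ι → UU k, ntr (tm U (s₁ :: u, s, v)).2.1 = ntr (s₁.2.2 * evS U u) := by
      intro U
      have : (tm U (s₁ :: u, s, v)).2.1 = evS U (s₁ :: u) * lt U s.1 s.2.1 := by simp [tm, hs]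
      rw [this, ntr_mul_comm, evS, hs, hs₁, h2]
      have h3 : lt U s₁.1 false * lt U s₁.1 true = 1 := by
        simp only [lt, Bool.false_eq_true, if_false, if_true]
        rw [← Submonoid.coe_mul, inv_mul_cancel]; rfl
      rw [show lt U s₁.1 false * (lt U s₁.1 true * s₁.2.2 * evS U u)
        = (lt U s₁.1 false * lt U s₁.1 true) * (s₁.2.2 * evS U u) by simp only [mul_assoc], h3,
        one_mul]
    simp only [hL]
    rcases List.eq_nil_or_concat u with rfl | ⟨u', z, rfl⟩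
    · have h4 : s₁.2.2.trace = 0 := by
        unfold GoodW at hg
        have := (List.isChain_cons.mp hg).1 s (by simp)
        exact this h2.symm (by simp [hs, hs₁])
      have h5 : ∀ U : ι → UU k, ntr (s₁.2.2 * evS U []) = 0 := by
        intro U; simp [evS, ntr, h4]
      simp only [h5]
      simpa using hpos
    · rw [List.concat_eq_append] at *
      set z' : Syl k ι := (z.1, z.2.1, z.2.2 * s₁.2.2) with hz'
      have h6 : ∀ U : ι → UU k, ntr (s₁.2.2 * evS U (u' ++ [z])) = ntr (evS U (u' ++ [z'])) := by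
        intro U
        rw [ntr_mul_comm, evS_append, evS_append]
        simp [evS, hz', mul_assoc]
      simp only [h6]
      have h7 := IH (u' ++ [z']) (by simp at hw ⊢; omega) (by simp)
        (good_rot s₁ z s u' v z' rfl rfl (by simpa using hg))
      refine h7.trans ?_
      have h8 : nrm (u' ++ [z']) ≤ nrm (s₁ :: (u' ++ [z])) := by
        rw [nrm_append, nrm_cons, nrm_cons, nrm_append, nrm_cons]
        simp only [hz', nrm, List.map_nil, List.prod_nil, mul_one]
        have h9 := nrm_nonneg u'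
        unfold nrm at h9
        calc _ ≤ (List.map (fun s : Syl k ι => ‖s.2.2‖) u').prod * (‖z.2.2‖ * ‖s₁.2.2‖) := by
              gcongr; exact norm_mul_le _ _
          _ = _ := by ring
      gcongr
      exact nrm_nonneg _

lemma trace_eq (hk : 0 < k) (a : Mat k) : a.trace = (k : ℂ) * ntr a := by
  have : (k : ℂ) ≠ 0 := by exact_mod_cast hk.ne'
  unfold ntr
  field_simp

lemma norm_trace_le (hk : 0 < k) (a : Mat k) : ‖a.trace‖ ≤ k * ‖a‖ := by
  rw [trace_eq hk, norm_mul, Complex.norm_natCast]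
  gcongr
  exact norm_ntr_le a

lemma list_int_sum {α : Type*} (l : List α) (f : α → (ι → UU k) → ℂ) (g : (ι → UU k) → ℂ)
    (hf : ∀ a ∈ l, Continuous (f a)) (hg : Continuous g) (B : ℝ)
    (hB : ∀ a ∈ l, ‖∫ U, f a U * g U ∂(haarP k ι)‖ ≤ B) :
    Continuous (fun U => (l.map (fun a => f a U)).sum) ∧
      ‖∫ U, (l.map (fun a => f a U)).sum * g U ∂(haarP k ι)‖ ≤ l.length * B := by
  induction l with
  | nil => simp [continuous_const]
  | cons a l ih =>
    obtain ⟨h1, h2⟩ := ih (fun b hb => hf b (by simp [hb])) (fun b hb => hB b (by simp [hb]))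
    have h3 : Continuous (f a) := hf a (by simp)
    refine ⟨?_, ?_⟩
    · simp only [List.map_cons, List.sum_cons]
      exact h3.add h1
    · simp only [List.map_cons, List.sum_cons, add_mul]
      have e1 : Integrable (fun U => f a U * g U) (haarP k ι) := integrable_cont (h3.mul hg)
      have e2 : Integrable (fun U => (l.map (fun a => f a U)).sum * g U) (haarP k ι) :=
        integrable_cont (h1.mul hg)
      rw [integral_add e1 e2]
      have h4 := hB a (by simp)
      calc _ ≤ ‖∫ U, f a U * g U ∂(haarP k ι)‖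
            + ‖∫ U, (l.map (fun a => f a U)).sum * g U ∂(haarP k ι)‖ := norm_add_le _ _
        _ ≤ B + l.length * B := by gcongr
        _ = _ := by simp; ring


lemma int_bound {f : (ι → UU k) → ℂ} (B : ℝ) (hf : ∀ U, ‖f U‖ ≤ B) :
    ‖∫ U, f U ∂(haarP k ι)‖ ≤ B := by
  have := norm_integral_le_of_norm_le_const (μ := haarP k ι) (Filter.Eventually.of_forall hf)
  simpa using this

lemma step [DecidableEq ι] (hk : 0 < k) (c : ℝ) (hc : 0 ≤ c) (r : ℕ)
    (IH : ∀ w : List (Syl k ι), w.length ≤ r → w ≠ [] → GoodW w → X w ≤ c * nrm w ^ 2 / (k : ℝ) ^ 2)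
    (s₁ : Syl k ι) (w : List (Syl k ι)) (hw : (s₁ :: w).length ≤ r + 1) (hs₁ : s₁.2.1 = true)
    (hg : GoodW (s₁ :: w)) :
    X (s₁ :: w) ≤ ((r + 1) ^ 2 * c + 2 * (r + 1)) * nrm (s₁ :: w) ^ 2 / (k : ℝ) ^ 2 := by
  have hk' : (0 : ℝ) < k := by exact_mod_cast hk
  set n : ℝ := nrm (s₁ :: w) with hn
  have hn0 : 0 ≤ n := nrm_nonneg _
  have hX0 : 0 ≤ X (s₁ :: w) := integral_nonneg fun U => by positivity
  -- the loop equation
  have h1 := loop s₁.1 (s₁ :: w)
  have h2 : ∀ U : ι → UU k, terms U s₁.1 (s₁ :: w) = (1, 1, evS U (s₁ :: w)) ::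
      ((splits s₁.1 w).map fun q => tm U (s₁ :: q.1, q.2)) := by
    intro U
    rw [terms_eq]
    simp [splits, tm, hs₁, evS, Function.comp_def]
  -- contribution of each splitting to the left side
  have hlen : (splits s₁.1 w).length ≤ r := by
    have := splits_length s₁.1 w
    simp at hw; omega
  set B : ℝ := (k : ℝ) ^ 3 * (X (s₁ :: w) / (2 * (r + 1)) + (r + 1) / 2 * (c * n ^ 2 / (k : ℝ) ^ 2))
    with hB
  have h3 : ∀ q ∈ splits s₁.1 w, ‖∫ U, ((tm U (s₁ :: q.1, q.2)).1 *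
      (tm U (s₁ :: q.1, q.2)).2.1.trace * (tm U (s₁ :: q.1, q.2)).2.2.trace) *
        conj (evS U (s₁ :: w)).trace ∂(haarP k ι)‖ ≤ B := by
    intro q hq
    have hA := keyA hk c hc r IH s₁ w hw hs₁ hg q hq
    have hnn : nrm (s₁ :: q.1) * nrm (q.2.1 :: q.2.2) = n := by
      rw [hn, (splits_mem _ _ _ hq).1, ← nrm_append]; rfl
    set nR := nrm (q.2.1 :: q.2.2) with hnR
    have hnR0 : 0 ≤ nR := nrm_nonneg _
    refine (norm_integral_le_integral_norm _).trans ?_
    have h4 : ∀ U : ι → UU k, ‖((tm U (s₁ :: q.1, q.2)).1 *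
      (tm U (s₁ :: q.1, q.2)).2.1.trace * (tm U (s₁ :: q.1, q.2)).2.2.trace) *
        conj (evS U (s₁ :: w)).trace‖ ≤ (k : ℝ) ^ 3 * (‖ntr (evS U (s₁ :: w))‖ ^ 2 / (2 * (r + 1)) +
          (r + 1) / 2 * (nR ^ 2 * ‖ntr (tm U (s₁ :: q.1, q.2)).2.1‖ ^ 2)) := by
      intro U
      obtain ⟨t1, t2, t3⟩ := tm_norm U (s₁ :: q.1, q.2)
      rw [norm_mul, norm_mul, norm_mul, t1, RCLike.norm_conj, trace_eq hk, trace_eq hk, trace_eq hk,
        norm_mul, norm_mul, norm_mul, Complex.norm_natCast]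
      have t4 : ‖ntr (tm U (s₁ :: q.1, q.2)).2.2‖ ≤ nR := (norm_ntr_le _).trans t3
      set a := ‖ntr (tm U (s₁ :: q.1, q.2)).2.1‖
      set b := ‖ntr (tm U (s₁ :: q.1, q.2)).2.2‖
      set m := ‖ntr (evS U (s₁ :: w))‖
      have ha : 0 ≤ a := norm_nonneg _
      have hb : 0 ≤ b := norm_nonneg _
      have hm : 0 ≤ m := norm_nonneg _
      have t5 : a * nR * m ≤ m ^ 2 / (2 * (r + 1)) + (r + 1) / 2 * (nR ^ 2 * a ^ 2) := by
        have hr : (0 : ℝ) < r + 1 := by positivity
        have : 0 ≤ (m - (r + 1) * (nR * a)) ^ 2 / (2 * (r + 1)) := by positivity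
        have e : (m - (r + 1) * (nR * a)) ^ 2 / (2 * (r + 1)) = m ^ 2 / (2 * (r + 1)) +
          (r + 1) / 2 * (nR ^ 2 * a ^ 2) - a * nR * m := by field_simp; ring
        linarith
      calc 1 * (k * a) * (k * b) * (k * m) = (k : ℝ) ^ 3 * (a * b * m) := by ring
        _ ≤ (k : ℝ) ^ 3 * (a * nR * m) := by gcongr
        _ ≤ _ := by gcongr
    have i1 : Integrable (fun U : ι → UU k => ‖ntr (evS U (s₁ :: w))‖ ^ 2) (haarP k ι) :=
      integrable_cont ((continuous_ntr.comp (continuous_evS _)).norm.pow 2)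
    have i2 : Integrable (fun U : ι → UU k => ‖ntr (tm U (s₁ :: q.1, q.2)).2.1‖ ^ 2) (haarP k ι) :=
      integrable_cont ((continuous_ntr.comp (tm_cont _).2.1).norm.pow 2)
    have h5 := integral_mono_of_nonneg (μ := haarP k ι) (Filter.Eventually.of_forall
      fun U => norm_nonneg (((tm U (s₁ :: q.1, q.2)).1 *
      (tm U (s₁ :: q.1, q.2)).2.1.trace * (tm U (s₁ :: q.1, q.2)).2.2.trace) *
        conj (evS U (s₁ :: w)).trace))
      (((i1.div_const (2 * (r + 1 : ℝ))).add ((i2.const_mul (nR ^ 2)).const_mul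
        ((r + 1 : ℝ) / 2))).const_mul ((k : ℝ) ^ 3)) (Filter.Eventually.of_forall h4)
    refine h5.trans ?_
    simp only [Pi.add_apply]
    rw [integral_const_mul, integral_add (i1.div_const _) ((i2.const_mul _).const_mul _),
      integral_div, integral_const_mul, integral_const_mul, hB]
    have h6 : nR ^ 2 * ∫ U, ‖ntr (tm U (s₁ :: q.1, q.2)).2.1‖ ^ 2 ∂(haarP k ι)
        ≤ c * n ^ 2 / (k : ℝ) ^ 2 := by
      calc _ ≤ nR ^ 2 * (c * nrm (s₁ :: q.1) ^ 2 / (k : ℝ) ^ 2) := by gcongr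
        _ = _ := by rw [← hnn]; ring
    have : X (s₁ :: w) = ∫ U, ‖ntr (evS U (s₁ :: w))‖ ^ 2 ∂(haarP k ι) := rfl
    rw [this]
    gcongr
  -- the right side
  have h7 : ‖∫ U, ((terms U s₁.1 (s₁ :: w)).map fun t => t.1 *
      ((t.2.2 * t.2.1)ᴴ * evS U (s₁ :: w)).trace).sum ∂(haarP k ι)‖ ≤ (r + 1) * (k * n ^ 2) := by
    apply int_bound
    intro U
    have h8 : ∀ (l : List (ℂ × Mat k × Mat k)) (C : ℝ), (∀ t ∈ l, ‖t.1 *
        ((t.2.2 * t.2.1)ᴴ * evS U (s₁ :: w)).trace‖ ≤ C) →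
        ‖(l.map fun t => t.1 * ((t.2.2 * t.2.1)ᴴ * evS U (s₁ :: w)).trace).sum‖ ≤ l.length * C := by
      intro l C hl
      induction l with
      | nil => simp
      | cons t l ih =>
        simp only [List.map_cons, List.sum_cons]
        have := ih fun t ht => hl t (by simp [ht])
        have h9 := hl t (by simp)
        calc _ ≤ ‖t.1 * ((t.2.2 * t.2.1)ᴴ * evS U (s₁ :: w)).trace‖ + _ := norm_add_le _ _
          _ ≤ C + l.length * C := add_le_add h9 this
          _ = _ := by simp; ring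
    have h10 : ∀ t ∈ terms U s₁.1 (s₁ :: w), ‖t.1 *
        ((t.2.2 * t.2.1)ᴴ * evS U (s₁ :: w)).trace‖ ≤ k * n ^ 2 := by
      rw [terms_eq]
      intro t ht
      simp only [List.mem_map] at ht
      obtain ⟨q, hq, rfl⟩ := ht
      obtain ⟨t1, t2, t3⟩ := tm_norm U q
      have hnn : nrm q.1 * nrm (q.2.1 :: q.2.2) = n := by
        rw [hn, (splits_mem _ _ _ hq).1, ← nrm_append]
      rw [norm_mul, t1, one_mul]
      refine (norm_trace_le hk _).trans ?_
      have t4 : ‖((tm U q).2.2 * (tm U q).2.1)ᴴ * evS U (s₁ :: w)‖ ≤ n ^ 2 := by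
        calc _ ≤ ‖((tm U q).2.2 * (tm U q).2.1)ᴴ‖ * ‖evS U (s₁ :: w)‖ := norm_mul_le _ _
          _ = ‖(tm U q).2.2 * (tm U q).2.1‖ * ‖evS U (s₁ :: w)‖ := by
              rw [Matrix.l2_opNorm_conjTranspose]
          _ ≤ (‖(tm U q).2.2‖ * ‖(tm U q).2.1‖) * ‖evS U (s₁ :: w)‖ := by
              gcongr; exact norm_mul_le _ _
          _ ≤ (nrm (q.2.1 :: q.2.2) * nrm q.1) * n := by
              gcongr
              · exact mul_nonneg (nrm_nonneg _) (nrm_nonneg _)
              · exact nrm_nonneg _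
              · exact norm_evS_le _ _
          _ = n ^ 2 := by rw [mul_comm (nrm (q.2.1 :: q.2.2)), hnn]; ring
      gcongr
    refine (h8 _ _ h10).trans ?_
    have h11 : ((terms U s₁.1 (s₁ :: w)).length : ℝ) ≤ r + 1 := by
      rw [terms_eq, List.length_map]
      exact_mod_cast (splits_length s₁.1 (s₁ :: w)).trans hw
    gcongr
  -- the main identity
  have hcM : Continuous fun U : ι → UU k => conj (evS U (s₁ :: w)).trace :=
    Complex.continuous_conj.comp (continuous_evS _).matrix_trace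
  obtain ⟨hc1, hc2⟩ := list_int_sum (splits s₁.1 w) (fun q U => (tm U (s₁ :: q.1, q.2)).1 *
      (tm U (s₁ :: q.1, q.2)).2.1.trace * (tm U (s₁ :: q.1, q.2)).2.2.trace)
    (fun U => conj (evS U (s₁ :: w)).trace) (by
      intro q _
      obtain ⟨t1, t2, t3⟩ := tm_cont (k := k) (s₁ :: q.1, q.2)
      exact (t1.mul t2.matrix_trace).mul t3.matrix_trace) hcM B h3
  have h12 : ∫ U, (((terms U s₁.1 (s₁ :: w)).map fun t => t.1 * t.2.1.trace * t.2.2.trace).sum) *
        conj (evS U (s₁ :: w)).trace ∂(haarP k ι) = (((k : ℝ) ^ 3 * X (s₁ :: w) : ℝ) : ℂ) +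
      ∫ U, ((splits s₁.1 w).map (fun q => (tm U (s₁ :: q.1, q.2)).1 *
      (tm U (s₁ :: q.1, q.2)).2.1.trace * (tm U (s₁ :: q.1, q.2)).2.2.trace)).sum *
        conj (evS U (s₁ :: w)).trace ∂(haarP k ι) := by
    have e1 : ∀ U : ι → UU k, (((terms U s₁.1 (s₁ :: w)).map
        fun t => t.1 * t.2.1.trace * t.2.2.trace).sum) * conj (evS U (s₁ :: w)).trace
        = (((k : ℝ) ^ 3 * ‖ntr (evS U (s₁ :: w))‖ ^ 2 : ℝ) : ℂ) +
        ((splits s₁.1 w).map (fun q => (tm U (s₁ :: q.1, q.2)).1 *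
      (tm U (s₁ :: q.1, q.2)).2.1.trace * (tm U (s₁ :: q.1, q.2)).2.2.trace)).sum *
        conj (evS U (s₁ :: w)).trace := by
      intro U
      rw [h2, List.map_cons, List.sum_cons, add_mul, List.map_map]
      congr 1
      simp only [one_mul, Matrix.trace_one, Fintype.card_fin]
      rw [trace_eq hk]
      push_cast
      rw [map_mul, ← Complex.mul_conj', Complex.conj_natCast]
      ring
    simp only [e1]
    have e2 : Integrable (fun U : ι → UU k =>
        (((k : ℝ) ^ 3 * ‖ntr (evS U (s₁ :: w))‖ ^ 2 : ℝ) : ℂ)) (haarP k ι) :=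
      integrable_cont (Complex.continuous_ofReal.comp (continuous_const.mul
        ((continuous_ntr.comp (continuous_evS _)).norm.pow 2)))
    have e3 : Integrable (fun U : ι → UU k =>
        ((splits s₁.1 w).map (fun q => (tm U (s₁ :: q.1, q.2)).1 *
      (tm U (s₁ :: q.1, q.2)).2.1.trace * (tm U (s₁ :: q.1, q.2)).2.2.trace)).sum *
        conj (evS U (s₁ :: w)).trace) (haarP k ι) := integrable_cont (hc1.mul hcM)
    rw [integral_add e2 e3]
    congr 1
    rw [integral_complex_ofReal, integral_const_mul]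
    rfl
  rw [h12] at h1
  have h13 : (k : ℝ) ^ 3 * X (s₁ :: w) ≤ (r + 1) * (k * n ^ 2) + r * B := by
    have e1 : (((k : ℝ) ^ 3 * X (s₁ :: w) : ℝ) : ℂ) = (∫ U, ((terms U s₁.1 (s₁ :: w)).map fun t =>
        t.1 * ((t.2.2 * t.2.1)ᴴ * evS U (s₁ :: w)).trace).sum ∂(haarP k ι)) -
      ∫ U, ((splits s₁.1 w).map (fun q => (tm U (s₁ :: q.1, q.2)).1 *
      (tm U (s₁ :: q.1, q.2)).2.1.trace * (tm U (s₁ :: q.1, q.2)).2.2.trace)).sum *
        conj (evS U (s₁ :: w)).trace ∂(haarP k ι) := by rw [← h1]; ring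
    have e2 : ‖(((k : ℝ) ^ 3 * X (s₁ :: w) : ℝ) : ℂ)‖ = (k : ℝ) ^ 3 * X (s₁ :: w) := by
      rw [Complex.norm_real, Real.norm_of_nonneg (by positivity)]
    rw [← e2, e1]
    refine (norm_sub_le _ _).trans (add_le_add h7 (hc2.trans ?_))
    have hB0 : 0 ≤ B := by rw [hB]; positivity
    gcongr
  rw [hB] at h13
  set x := X (s₁ :: w) with hx
  set y := n ^ 2 / (k : ℝ) ^ 2 with hy
  have hy0 : 0 ≤ y := by positivity
  have h14 : x ≤ (r + 1) * y + r * (x / (2 * (r + 1)) + (r + 1) / 2 * (c * y)) := by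
    have e : (r + 1) * (k * n ^ 2) + r * ((k : ℝ) ^ 3 * (x / (2 * (r + 1)) +
        (r + 1) / 2 * (c * n ^ 2 / (k : ℝ) ^ 2)))
        = (k : ℝ) ^ 3 * ((r + 1) * y + r * (x / (2 * (r + 1)) + (r + 1) / 2 * (c * y))) := by
      rw [hy]; field_simp
    rw [e] at h13
    exact le_of_mul_le_mul_left h13 (by positivity)
  have h15 : (r : ℝ) * (x / (2 * (r + 1))) ≤ x / 2 := by
    rw [← sub_nonneg]
    have : x / 2 - r * (x / (2 * (r + 1))) = x / (2 * (r + 1)) := by field_simp; ring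
    rw [this]; positivity
  have h16 : x ≤ ((r + 1) ^ 2 * c + 2 * (r + 1)) * y := by
    have hr : (0 : ℝ) ≤ r := by positivity
    have : 0 ≤ c * y := by positivity
    nlinarith [mul_nonneg hr this]
  calc x ≤ ((r + 1) ^ 2 * c + 2 * (r + 1)) * y := h16
    _ = _ := by rw [hy]; ring

end AF

theorem asympFree : ∃ C : ℕ → ℝ, (∀ r, 0 ≤ C r) ∧ ∀ (k : ℕ), 0 < k → ∀ (ι : Type) [Fintype ι]
    [DecidableEq ι] (w : List (Syl k ι)), w ≠ [] → GoodW w →
    ∫ U, ‖ntr (evS U w)‖ ^ 2 ∂(haarP k ι) ≤ C w.length * nrm w ^ 2 / (k : ℝ) ^ 2 := by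
  have main : ∀ r : ℕ, ∃ c : ℝ, 0 ≤ c ∧ ∀ (k : ℕ), 0 < k → ∀ (ι : Type) [Fintype ι]
    [DecidableEq ι] (w : List (Syl k ι)), w.length ≤ r → w ≠ [] → GoodW w →
    X w ≤ c * nrm w ^ 2 / (k : ℝ) ^ 2 := by
    intro r
    induction r with
    | zero =>
      refine ⟨0, le_rfl, fun k hk ι _ _ w hw hw' _ => ?_⟩
      exact absurd (List.length_eq_zero_iff.mp (Nat.le_zero.mp hw)) hw'
    | succ r ih =>
      obtain ⟨c, hc, ih⟩ := ih
      refine ⟨(r + 1) ^ 2 * c + 2 * (r + 1), by positivity, fun k hk ι _ _ w hw hw' hg => ?_⟩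
      obtain ⟨s₁, w, rfl⟩ := List.exists_cons_of_ne_nil hw'
      by_cases hs : s₁.2.1 = true
      · exact step hk c hc r (fun w h1 h2 h3 => ih k hk ι w h1 h2 h3) s₁ w hw hs hg
      · have h1 := step hk c hc r (fun w h1 h2 h3 => ih k hk ι w h1 h2 h3)
          (s₁.1, !s₁.2.1, s₁.2.2) (flipW w) (by simpa [flipW] using hw) (by simpa using hs)
          (flip_good _ hg)
        have h2 : (s₁.1, !s₁.2.1, s₁.2.2) :: flipW w = flipW (s₁ :: w) := rfl
        rw [h2, flip_nrm, X_flip] at h1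
        exact h1
  choose c hc hc' using main
  exact ⟨c, hc, fun k hk ι _ _ w hw hg => hc' w.length k hk ι w le_rfl hw hg⟩

end Pool.Agent.H667R2.FG.TAF

namespace Pool.Agent.H667R2.FG

alias asympFree := TAF.asympFree

end Pool.Agent.H667R2.FG
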