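import Mathlib
import Pool.Agent.H667R2.FG.Defs
import Pool.Agent.H667R2.FG.OpDefs
import Pool.Agent.H667R2.FG.Herm
import Pool.Agent.H667R2.FG.THS
import Pool.Agent.H667R2.FG.TAF

/-! Task S1: Haar unitaries are asymptotically free (moments of finite combinations of words). -/

namespace Pool.Agent.H667R2.FG.TS1

open MeasureTheory Matrix Filter
open scoped Matrix.Norms.L2Operator ComplexConjugate ENNReal

theorem s1_evS {k : ℕ} {ι : Type} (u : ι → UU k) (L : List (ι × Bool)) :
    (((List.map (fun x => bif x.2 then u x.1 else (u x.1)⁻¹) L).prod : UU k) : Mat k)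
      = evS u (L.map fun p => (p.1, p.2, (1 : Mat k))) := by
  induction L with
  | nil => rfl
  | cons p L ih =>
    rw [List.map_cons, List.prod_cons, List.map_cons, Submonoid.coe_mul, ih]
    simp only [evS, mul_one]
    congr 1
    unfold lt
    cases p.2 <;> simp

theorem s1_wd {k : ℕ} {ι : Type} [DecidableEq ι] (u : ι → UU k) (w : FreeGroup ι) :
    (wd u w : Mat k) = evS u (w.toWord.map fun p => (p.1, p.2, (1 : Mat k))) := by
  rw [← s1_evS]
  unfold wd
  conv_lhs => rw [← FreeGroup.mk_toWord (x := w)]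
  rw [FreeGroup.lift_mk]

theorem s1_good {k : ℕ} {ι : Type} [DecidableEq ι] (w : FreeGroup ι) :
    GoodW (w.toWord.map fun p => (p.1, p.2, (1 : Mat k))) := by
  unfold GoodW
  rw [List.isChain_map]
  have h : List.IsChain (fun a b : ι × Bool => a.1 = b.1 → a.2 = b.2) w.toWord :=
    FreeGroup.isReduced_toWord
  refine h.imp ?_
  intro a b hab h1 h2
  exact absurd (hab h1) h2

theorem s1_nrm {k : ℕ} {ι : Type} (L : List (ι × Bool)) :
    nrm (L.map fun p => (p.1, p.2, (1 : Mat k))) ≤ 1 := by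
  induction L with
  | nil => simp [nrm]
  | cons p L ih =>
    have h1 : ‖(1 : Mat k)‖ ≤ 1 := norm_unitary_le (1 : UU k)
    have h2 : nrm ((p :: L).map fun p => (p.1, p.2, (1 : Mat k)))
        = ‖(1 : Mat k)‖ * nrm (L.map fun p => (p.1, p.2, (1 : Mat k))) := by
      simp only [nrm, List.map_cons, List.prod_cons]
    rw [h2]
    have h3 : 0 ≤ nrm (L.map fun p => (p.1, p.2, (1 : Mat k))) := by
      unfold nrm
      apply List.prod_nonneg
      intro x hx
      obtain ⟨p, _, rfl⟩ := List.mem_map.1 hx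
      exact norm_nonneg _
    calc ‖(1 : Mat k)‖ * nrm (L.map fun p => (p.1, p.2, (1 : Mat k)))
        ≤ 1 * 1 := mul_le_mul h1 ih h3 zero_le_one
      _ = 1 := by norm_num

theorem s1_nrm_nonneg {k : ℕ} {ι : Type} (w : List (Syl k ι)) : 0 ≤ nrm w := by
  unfold nrm
  apply List.prod_nonneg
  intro x hx
  obtain ⟨p, _, rfl⟩ := List.mem_map.1 hx
  exact norm_nonneg _

theorem s1_borel (k m : ℕ) : BorelSpace (Fin m → UU k) := Pi.borelSpace

/-- second moment of a word -/
theorem s1_word (C : ℕ → ℝ) (hC0 : ∀ r, 0 ≤ C r) (hC : ∀ (k : ℕ), 0 < k → ∀ (ι : Type) [Fintype ι]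
    [DecidableEq ι] (w : List (Syl k ι)), w ≠ [] → GoodW w →
    ∫ U, ‖ntr (evS U w)‖ ^ 2 ∂(haarP k ι) ≤ C w.length * nrm w ^ 2 / (k : ℝ) ^ 2)
    (k : ℕ) (hk : 0 < k) (m : ℕ) (w : FreeGroup (Fin m)) (hw : w ≠ 1) :
    ∫ U, ‖ntr (wd U w : Mat k)‖ ^ 2 ∂(haarP k (Fin m)) ≤ C w.toWord.length / (k : ℝ) ^ 2 := by
  have h := hC k hk (Fin m) (w.toWord.map fun p => (p.1, p.2, (1 : Mat k)))
    (by
      intro h
      rw [List.map_eq_nil_iff] at h
      exact hw (FreeGroup.toWord_eq_nil_iff.1 h)) (s1_good w)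
  simp only [← s1_wd] at h
  refine h.trans ?_
  rw [List.length_map]
  have h1 := s1_nrm (k := k) w.toWord
  have h0 := s1_nrm_nonneg (w.toWord.map fun p => (p.1, p.2, (1 : Mat k)))
  have h2 : nrm (w.toWord.map fun p => (p.1, p.2, (1 : Mat k))) ^ 2 ≤ 1 := pow_le_one₀ h0 h1
  apply div_le_div_of_nonneg_right _ (by positivity)
  have := hC0 w.toWord.length
  nlinarith

theorem haar_moments (m : ℕ) (f : FreeGroup (Fin m) →₀ ℂ) (η : ℝ) (hη : 0 < η) :
    ∀ᶠ k in atTop, haarP k (Fin m) {u | η ≤ ‖ntr (pol u f : Mat k) - f 1‖} ≤ ENNReal.ofReal η := by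
  obtain ⟨C, hC0, hC⟩ := asympFree
  set T : Finset (FreeGroup (Fin m)) := f.support.erase 1 with hT
  set D : ℝ := T.card * ∑ w ∈ T, ‖f w‖ ^ 2 * C w.toWord.length with hD
  have hD0 : 0 ≤ D := by
    rw [hD]
    apply mul_nonneg (by positivity)
    exact Finset.sum_nonneg fun w _ => mul_nonneg (by positivity) (hC0 _)
  -- the second moment
  have hsec : ∀ k : ℕ, 0 < k → ∫ U, ‖ntr (pol U f : Mat k) - f 1‖ ^ 2 ∂(haarP k (Fin m))
      ≤ D / (k : ℝ) ^ 2 := by
    intro k hk
    have hB := s1_borel k m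
    have hint : ∀ g : (Fin m → UU k) → ℝ, Continuous g → Integrable g (haarP k (Fin m)) := by
      intro g hg
      exact hg.integrable_of_hasCompactSupport (HasCompactSupport.of_compactSpace g)
    have hcw : ∀ w : FreeGroup (Fin m), Continuous (fun U : Fin m → UU k => ‖ntr (wd U w : Mat k)‖ ^ 2) := by
      intro w
      exact ((continuous_ntr.comp (continuous_wd w)).norm).pow 2
    have hexp : ∀ U : Fin m → UU k, ntr (pol U f : Mat k) - f 1
        = ∑ w ∈ T, f w * ntr (wd U w : Mat k) := by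
      intro U
      have h1 : ntr (pol U f : Mat k) = ∑ w ∈ f.support, f w * ntr (wd U w : Mat k) := by
        unfold pol Finsupp.sum
        have h2 : ∀ s : Finset (FreeGroup (Fin m)), ntr (∑ w ∈ s, f w • (wd U w : Mat k))
            = ∑ w ∈ s, f w * ntr (wd U w : Mat k) := by
          intro s
          induction s using Finset.induction_on with
          | empty => simp [ntr]
          | insert a s ha ih => rw [Finset.sum_insert ha, Finset.sum_insert ha, ntr_add, ntr_smul, ih]
        exact h2 _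
      rw [h1, hT]
      by_cases h3 : (1 : FreeGroup (Fin m)) ∈ f.support
      · rw [← Finset.add_sum_erase _ _ h3, wd_one, ntr_one hk]
        ring
      · rw [Finset.erase_eq_of_notMem h3, Finsupp.notMem_support_iff.1 h3, sub_zero]
    have hpt : ∀ U : Fin m → UU k, ‖ntr (pol U f : Mat k) - f 1‖ ^ 2
        ≤ T.card * ∑ w ∈ T, ‖f w‖ ^ 2 * ‖ntr (wd U w : Mat k)‖ ^ 2 := by
      intro U
      rw [hexp U]
      calc ‖∑ w ∈ T, f w * ntr (wd U w : Mat k)‖ ^ 2
          ≤ (∑ w ∈ T, ‖f w * ntr (wd U w : Mat k)‖) ^ 2 := by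
            apply pow_le_pow_left₀ (norm_nonneg _)
            exact norm_sum_le _ _
        _ ≤ T.card * ∑ w ∈ T, ‖f w * ntr (wd U w : Mat k)‖ ^ 2 := sq_sum_le_card_mul_sum_sq
        _ = _ := by
            congr 1
            apply Finset.sum_congr rfl
            intro w _
            rw [norm_mul, mul_pow]
    have hcp : Continuous (fun U : Fin m → UU k => ‖ntr (pol U f : Mat k) - f 1‖ ^ 2) :=
      (((continuous_ntr.comp (continuous_pol f)).sub continuous_const).norm).pow 2
    calc ∫ U, ‖ntr (pol U f : Mat k) - f 1‖ ^ 2 ∂(haarP k (Fin m))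
        ≤ ∫ U, T.card * ∑ w ∈ T, ‖f w‖ ^ 2 * ‖ntr (wd U w : Mat k)‖ ^ 2 ∂(haarP k (Fin m)) := by
          apply integral_mono (hint _ hcp)
          · apply hint
            exact continuous_const.mul (continuous_finsetSum _ fun w _ => continuous_const.mul (hcw w))
          · exact hpt
      _ = T.card * ∑ w ∈ T, ‖f w‖ ^ 2 * ∫ U, ‖ntr (wd U w : Mat k)‖ ^ 2 ∂(haarP k (Fin m)) := by
          rw [integral_const_mul, integral_finsetSum]
          · congr 1
            apply Finset.sum_congr rfl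
            intro w _
            rw [integral_const_mul]
          · intro w _
            exact hint _ (continuous_const.mul (hcw w))
      _ ≤ T.card * ∑ w ∈ T, ‖f w‖ ^ 2 * (C w.toWord.length / (k : ℝ) ^ 2) := by
          apply mul_le_mul_of_nonneg_left _ (by positivity)
          apply Finset.sum_le_sum
          intro w hw
          apply mul_le_mul_of_nonneg_left _ (by positivity)
          exact s1_word C hC0 hC k hk m w (Finset.mem_erase.1 hw).1
      _ = D / (k : ℝ) ^ 2 := by
          rw [hD, mul_div_assoc, Finset.sum_div]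
          congr 1
          apply Finset.sum_congr rfl
          intro w _
          rw [mul_div_assoc]
  -- Markov
  have hlim : Tendsto (fun k : ℕ => D / ((k : ℝ) ^ 2 * η ^ 2)) atTop (nhds 0) := by
    have h1 : Tendsto (fun k : ℕ => (k : ℝ) ^ 2 * η ^ 2) atTop atTop := by
      apply Tendsto.atTop_mul_const (by positivity)
      exact (tendsto_pow_atTop (by norm_num)).comp tendsto_natCast_atTop_atTop
    exact h1.const_div_atTop D
  have hev := hlim.eventually (gt_mem_nhds hη)
  filter_upwards [hev, eventually_gt_atTop 0] with k hk1 hk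
  have hB := s1_borel k m
  have hcp : Continuous (fun U : Fin m → UU k => ‖ntr (pol U f : Mat k) - f 1‖ ^ 2) :=
    (((continuous_ntr.comp (continuous_pol f)).sub continuous_const).norm).pow 2
  have hi : Integrable (fun U : Fin m → UU k => ‖ntr (pol U f : Mat k) - f 1‖ ^ 2)
      (haarP k (Fin m)) :=
    hcp.integrable_of_hasCompactSupport (HasCompactSupport.of_compactSpace _)
  have hM := mul_meas_ge_le_integral_of_nonneg
    (Eventually.of_forall fun U => by positivity) hi (η ^ 2)
  have hset : {u : Fin m → UU k | η ≤ ‖ntr (pol u f : Mat k) - f 1‖}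
      = {u : Fin m → UU k | η ^ 2 ≤ ‖ntr (pol u f : Mat k) - f 1‖ ^ 2} := by
    ext u
    simp only [Set.mem_ofPred_eq]
    constructor
    · intro h
      exact pow_le_pow_left₀ hη.le h 2
    · intro h
      exact le_of_sq_le_sq h (norm_nonneg _)
  rw [hset]
  have hreal : (haarP k (Fin m)).real {u : Fin m → UU k |
      η ^ 2 ≤ ‖ntr (pol u f : Mat k) - f 1‖ ^ 2} ≤ η := by
    have hk' : (0 : ℝ) < (k : ℝ) ^ 2 := by positivity
    have h1 := hM.trans (hsec k hk)
    have h2 : (haarP k (Fin m)).real {u : Fin m → UU k |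
      η ^ 2 ≤ ‖ntr (pol u f : Mat k) - f 1‖ ^ 2} ≤ D / ((k : ℝ) ^ 2 * η ^ 2) := by
      rw [le_div_iff₀ (by positivity)]
      rw [le_div_iff₀ hk'] at h1
      nlinarith
    linarith
  rw [Measure.real] at hreal
  rw [ENNReal.le_ofReal_iff_toReal_le (measure_ne_top _ _) hη.le]
  exact hreal

end Pool.Agent.H667R2.FG.TS1

namespace Pool.Agent.H667R2.FG

alias haar_moments := TS1.haar_moments

end Pool.Agent.H667R2.FG
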