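import Mathlib
import Pool.Agent.H667R2.FG.Defs
import Pool.Agent.H667R2.FG.OpDefs
import Pool.Agent.H667R2.FG.Herm
import Pool.Agent.H667R2.FG.THS
import Pool.Agent.H667R2.FG.TS1
import Pool.Agent.H667R2.FG.TL2
import Pool.Agent.H667R2.FG.TANG
import Pool.Agent.H667R2.FG.TAPPR

/-! Operator side: existence of the matrices `x(u)` for most `u`. -/

namespace Pool.Agent.H667R2.FG.TOM

open MeasureTheory Matrix Filter
open scoped Matrix.Norms.L2Operator ComplexConjugate ENNReal

/-! ### words -/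

theorem om_wd_nil {A : Type} [Ring A] [StarRing A] {ι : Type} (U : ι → unitary A) :
    wd U (FreeGroup.mk []) = 1 := by
  unfold wd
  rw [FreeGroup.lift_mk]
  rfl

theorem om_wd_cons {A : Type} [Ring A] [StarRing A] {ι : Type} (U : ι → unitary A) (i : ι)
    (b : Bool) (L : List (ι × Bool)) :
    wd U (FreeGroup.mk ((i, b) :: L)) =
      (if b then (U i : A) else star (U i : A)) * wd U (FreeGroup.mk L) := by
  unfold wd
  rw [FreeGroup.lift_mk, FreeGroup.lift_mk, List.map_cons, List.prod_cons]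
  cases b <;> rfl

section Om
variable {n : ℕ}

/-- commutes with the right translations -/
def Cm (x : Ell (FreeGroup (Fin n)) →L[ℂ] Ell (FreeGroup (Fin n))) : Prop :=
  ∀ g, x * rho g = rho g * x

theorem cm_one : Cm (1 : Ell (FreeGroup (Fin n)) →L[ℂ] Ell (FreeGroup (Fin n))) := fun g => by
  rw [one_mul, mul_one]

theorem cm_zero : Cm (0 : Ell (FreeGroup (Fin n)) →L[ℂ] Ell (FreeGroup (Fin n))) := fun g => by
  rw [zero_mul, mul_zero]

theorem cm_mul {x y : Ell (FreeGroup (Fin n)) →L[ℂ] Ell (FreeGroup (Fin n))} (hx : Cm x)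
    (hy : Cm y) : Cm (x * y) := fun g => by
  rw [mul_assoc, hy g, ← mul_assoc, hx g, mul_assoc]

theorem cm_add {x y : Ell (FreeGroup (Fin n)) →L[ℂ] Ell (FreeGroup (Fin n))} (hx : Cm x)
    (hy : Cm y) : Cm (x + y) := fun g => by
  rw [add_mul, mul_add, hx g, hy g]

theorem cm_sub {x y : Ell (FreeGroup (Fin n)) →L[ℂ] Ell (FreeGroup (Fin n))} (hx : Cm x)
    (hy : Cm y) : Cm (x - y) := fun g => by
  rw [sub_mul, mul_sub, hx g, hy g]

theorem cm_smul (c : ℂ) {x : Ell (FreeGroup (Fin n)) →L[ℂ] Ell (FreeGroup (Fin n))} (hx : Cm x) :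
    Cm (c • x) := fun g => by
  rw [smul_mul_assoc, hx g, mul_smul_comm]

theorem cm_star {x : Ell (FreeGroup (Fin n)) →L[ℂ] Ell (FreeGroup (Fin n))} (hx : Cm x) :
    Cm (star x) := star_comm_rho x hx

theorem cm_sum {ι : Type} (s : Finset ι)
    (f : ι → Ell (FreeGroup (Fin n)) →L[ℂ] Ell (FreeGroup (Fin n))) (h : ∀ i ∈ s, Cm (f i)) :
    Cm (∑ i ∈ s, f i) := by
  classical
  induction s using Finset.induction_on with
  | empty => simpa using cm_zero
  | insert a s ha ih =>
    rw [Finset.sum_insert ha]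
    exact cm_add (h a (Finset.mem_insert_self _ _))
      (ih (fun i hi => h i (Finset.mem_insert_of_mem hi)))

theorem cm_wd_mk {ι : Type}
    (X : ι → unitary (Ell (FreeGroup (Fin n)) →L[ℂ] Ell (FreeGroup (Fin n))))
    (hX : ∀ i, Cm (X i : Ell (FreeGroup (Fin n)) →L[ℂ] Ell (FreeGroup (Fin n))))
    (L : List (ι × Bool)) : Cm (wd X (FreeGroup.mk L)) := by
  induction L with
  | nil => rw [om_wd_nil]; exact cm_one
  | cons p L ih =>
    obtain ⟨i, b⟩ := p
    rw [om_wd_cons]
    refine cm_mul ?_ ih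
    cases b
    · exact cm_star (hX i)
    · exact hX i

theorem cm_wd {ι : Type} [DecidableEq ι]
    (X : ι → unitary (Ell (FreeGroup (Fin n)) →L[ℂ] Ell (FreeGroup (Fin n))))
    (hX : ∀ i, Cm (X i : Ell (FreeGroup (Fin n)) →L[ℂ] Ell (FreeGroup (Fin n))))
    (w : FreeGroup ι) : Cm (wd X w) := by
  have := cm_wd_mk X hX w.toWord
  rwa [FreeGroup.mk_toWord] at this

theorem cm_pol {ι : Type} [DecidableEq ι]
    (X : ι → unitary (Ell (FreeGroup (Fin n)) →L[ℂ] Ell (FreeGroup (Fin n))))
    (hX : ∀ i, Cm (X i : Ell (FreeGroup (Fin n)) →L[ℂ] Ell (FreeGroup (Fin n))))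
    (f : FreeGroup ι →₀ ℂ) : Cm (pol X f) := by
  unfold pol Finsupp.sum
  exact cm_sum _ _ (fun w _ => cm_smul _ (cm_wd X hX w))

/-- telescoping -/
theorem om_est (X : Fin n → unitary (Ell (FreeGroup (Fin n)) →L[ℂ] Ell (FreeGroup (Fin n))))
    (hX : ∀ i, Cm (X i : Ell (FreeGroup (Fin n)) →L[ℂ] Ell (FreeGroup (Fin n)))) (ζ : ℝ)
    (h : ∀ i, ‖((X i : Ell (FreeGroup (Fin n)) →L[ℂ] Ell (FreeGroup (Fin n))) -
      lam (FreeGroup.of i)) (delta 1)‖ ≤ ζ) (L : List (Fin n × Bool)) :
    ‖(wd X (FreeGroup.mk L) - lam (FreeGroup.mk L)) (delta 1)‖ ≤ L.length * ζ := by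
  induction L with
  | nil =>
    rw [om_wd_nil]
    have : (FreeGroup.mk ([] : List (Fin n × Bool))) = 1 := rfl
    rw [this, lam_one, sub_self]
    simp
  | cons p L ih =>
    obtain ⟨i, b⟩ := p
    rw [om_wd_cons]
    -- the letter
    set u : Ell (FreeGroup (Fin n)) →L[ℂ] Ell (FreeGroup (Fin n)) :=
      if b then (X i : Ell (FreeGroup (Fin n)) →L[ℂ] Ell (FreeGroup (Fin n)))
      else star (X i : Ell (FreeGroup (Fin n)) →L[ℂ] Ell (FreeGroup (Fin n))) with hu
    set g : FreeGroup (Fin n) := if b then FreeGroup.of i else (FreeGroup.of i)⁻¹ with hg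
    have hmk : FreeGroup.mk ((i, b) :: L) = g * FreeGroup.mk L := by
      rw [hg]
      cases b
      · rw [FreeGroup.of]
        simp [FreeGroup.inv_mk, FreeGroup.invRev, FreeGroup.mul_mk]
      · simp [FreeGroup.of, FreeGroup.mul_mk]
    have hgl : lam g = if b then lam (FreeGroup.of i) else star (lam (FreeGroup.of i)) := by
      rw [hg]
      cases b
      · simp [star_lam]
      · simp
    have hcm : Cm (u - lam g) := by
      rw [hgl, hu]
      cases b
      · exact cm_sub (cm_star (hX i)) (cm_star (fun g => lam_rho _ g))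
      · exact cm_sub (hX i) (fun g => lam_rho _ g)
    have hlet : ‖(u - lam g) (delta 1)‖ ≤ ζ := by
      rw [hgl, hu]
      cases b
      · simp only [Bool.false_eq_true, if_false]
        rw [← star_sub, norm_star_delta _ (cm_sub (hX i) (fun g => lam_rho _ g))]
        exact h i
      · simp only [if_true]
        exact h i
    rw [hmk, lam_mul]
    have hdec : u * wd X (FreeGroup.mk L) - lam g * lam (FreeGroup.mk L) =
        (u - lam g) * wd X (FreeGroup.mk L) +
          lam g * (wd X (FreeGroup.mk L) - lam (FreeGroup.mk L)) := by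
      noncomm_ring
    have hsp : ((u - lam g) * wd X (FreeGroup.mk L) +
          lam g * (wd X (FreeGroup.mk L) - lam (FreeGroup.mk L))) (delta 1) =
        ((u - lam g) * wd X (FreeGroup.mk L)) (delta 1) +
          (lam g * (wd X (FreeGroup.mk L) - lam (FreeGroup.mk L))) (delta 1) := rfl
    rw [hdec, hsp]
    refine (norm_add_le _ _).trans ?_
    have h1 : ‖((u - lam g) * wd X (FreeGroup.mk L)) (delta 1)‖ ≤ ζ := by
      rw [norm_mul_unitary_delta _ _ hcm (cm_wd_mk X hX L)
        ((FreeGroup.lift X (FreeGroup.mk L)).2)]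
      exact hlet
    have h2 : ‖(lam g * (wd X (FreeGroup.mk L) - lam (FreeGroup.mk L))) (delta 1)‖ ≤
        L.length * ζ := by
      have h3 : (lam g * (wd X (FreeGroup.mk L) - lam (FreeGroup.mk L))) (delta 1) =
          lam g ((wd X (FreeGroup.mk L) - lam (FreeGroup.mk L)) (delta 1)) := rfl
      rw [h3]
      refine le_trans (le_of_eq ?_) ih
      exact Unitary.norm_map ⟨lam g, lam_unitary g⟩ _
    rw [List.length_cons, Nat.cast_add, Nat.cast_one, add_mul, one_mul]
    linarith

/-! ### approximation of words -/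

variable {m : ℕ} (v : Fin m → unitary (Ell (FreeGroup (Fin n)) →L[ℂ] Ell (FreeGroup (Fin n))))

theorem appr_one : Appr v (fun _ _ => 1) 1 := by
  have h := Appr.pol v (Finsupp.single 1 1)
  have e1 : (FG.pol v (Finsupp.single 1 1)) = 1 := by
    unfold FG.pol
    rw [Finsupp.sum_single_index (by rw [zero_smul]), one_smul]
    exact om_wd_nil v
  have e2 : (fun (k : ℕ) (U : Fin m → UU k) => (FG.pol U (Finsupp.single 1 1) : Mat k)) =
      fun _ _ => 1 := by
    funext k U
    unfold FG.pol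
    rw [Finsupp.sum_single_index (by rw [zero_smul]), one_smul]
    exact om_wd_nil U
  rw [e1, e2] at h
  exact h

theorem appr_var (j : Fin m) : Appr v (fun _ U => (U j : Matrix _ _ ℂ)) (v j) := by
  have h := Appr.pol v (Finsupp.single (FreeGroup.of j) 1)
  have key : ∀ {A : Type} [Ring A] [StarRing A] [Module ℂ A] (U : Fin m → unitary A),
      FG.pol U (Finsupp.single (FreeGroup.of j) 1) = (U j : A) := by
    intro A _ _ _ U
    unfold FG.pol
    rw [Finsupp.sum_single_index (by rw [zero_smul]), one_smul]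
    unfold wd
    rw [FreeGroup.lift_apply_of]
  rw [key v] at h
  have e2 : (fun (k : ℕ) (U : Fin m → UU k) =>
      (FG.pol U (Finsupp.single (FreeGroup.of j) 1) : Mat k)) =
      fun _ U => (U j : Matrix _ _ ℂ) := by
    funext k U
    exact key U
  rw [e2] at h
  exact h

theorem appr_zero : Appr v (fun _ _ => 0) 0 := by
  have h := Appr.smul v 0 (appr_one v)
  simpa using h

theorem appr_sub {Z Z' Zo Zo'} (h : Appr v Z Zo) (h' : Appr v Z' Zo') :
    Appr v (fun k U => Z k U - Z' k U) (Zo - Zo') := by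
  have h1 := Appr.add v h (Appr.smul v (-1) h')
  simpa [sub_eq_add_neg] using h1

theorem appr_sum {ι : Type} (s : Finset ι) (Z : ι → ∀ k : ℕ, (Fin m → UU k) → Mat k)
    (Zo : ι → Ell (FreeGroup (Fin n)) →L[ℂ] Ell (FreeGroup (Fin n)))
    (h : ∀ i ∈ s, Appr v (Z i) (Zo i)) :
    Appr v (fun k U => ∑ i ∈ s, Z i k U) (∑ i ∈ s, Zo i) := by
  classical
  induction s using Finset.induction_on with
  | empty => simpa using appr_zero v
  | insert a s ha ih =>
    simp only [Finset.sum_insert ha]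
    exact Appr.add v (h a (Finset.mem_insert_self _ _))
      (ih (fun i hi => h i (Finset.mem_insert_of_mem hi)))

theorem appr_wd_mk (x : ∀ k : ℕ, (Fin m → UU k) → Fin n → UU k)
    (X : Fin n → unitary (Ell (FreeGroup (Fin n)) →L[ℂ] Ell (FreeGroup (Fin n))))
    (h : ∀ i, Appr v (fun k U => (x k U i : Mat k)) (X i)) (L : List (Fin n × Bool)) :
    Appr v (fun k U => (wd (x k U) (FreeGroup.mk L) : Mat k)) (wd X (FreeGroup.mk L)) := by
  induction L with
  | nil =>
    simp only [om_wd_nil]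
    exact appr_one v
  | cons p L ih =>
    obtain ⟨i, b⟩ := p
    simp only [om_wd_cons]
    refine Appr.mul v ?_ ih
    cases b
    · simp only [Bool.false_eq_true, if_false, star_eq_conjTranspose]
      exact Appr.star v (h i)
    · simp only [if_true]
      exact h i

theorem appr_wd (x : ∀ k : ℕ, (Fin m → UU k) → Fin n → UU k)
    (X : Fin n → unitary (Ell (FreeGroup (Fin n)) →L[ℂ] Ell (FreeGroup (Fin n))))
    (h : ∀ i, Appr v (fun k U => (x k U i : Mat k)) (X i)) (w : FreeGroup (Fin n)) :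
    Appr v (fun k U => (wd (x k U) w : Mat k)) (wd X w) := by
  have := appr_wd_mk v x X h w.toWord
  rwa [FreeGroup.mk_toWord] at this

theorem appr_pol (x : ∀ k : ℕ, (Fin m → UU k) → Fin n → UU k)
    (X : Fin n → unitary (Ell (FreeGroup (Fin n)) →L[ℂ] Ell (FreeGroup (Fin n))))
    (h : ∀ i, Appr v (fun k U => (x k U i : Mat k)) (X i)) (f : FreeGroup (Fin n) →₀ ℂ) :
    Appr v (fun k U => (FG.pol (x k U) f : Mat k)) (FG.pol X f) := by
  unfold FG.pol Finsupp.sum
  exact appr_sum v _ (fun w k U => f w • wd (x k U) w) (fun w => f w • wd X w)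
    (fun w _ => Appr.smul v _ (appr_wd v x X h w))

end Om

/-! ### the trace -/

theorem om_tau_star_mul {G : Type} [Group G] (T : Ell G →L[ℂ] Ell G) :
    tau (star T * T) = ((‖T (delta 1)‖ ^ 2 : ℝ) : ℂ) := by
  classical
  have h1 : ∀ y : Ell G, (y : G → ℂ) 1 = inner ℂ (delta (1 : G)) y := by
    intro y
    unfold delta
    have := lp.inner_single_left (𝕜 := ℂ) (G := fun _ : G => ℂ) (1 : G) (1 : ℂ) y
    convert this.symm using 1
    · simp
  unfold tau
  rw [h1]
  have h2 : (star T * T) (delta 1) = (ContinuousLinearMap.adjoint T) (T (delta 1)) := rfl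
  rw [h2, ContinuousLinearMap.adjoint_inner_right, inner_self_eq_norm_sq_to_K]
  push_cast
  rfl

/-! ### the set of good tuples -/

theorem om_secondCountable (k : ℕ) : SecondCountableTopology (UU k) := by
  have h : SecondCountableTopology (Mat k) :=
    inferInstanceAs (SecondCountableTopology (Fin k → Fin k → ℂ))
  infer_instance

theorem om_set (m : ℕ) {ι : Type} [Fintype ι] (f : ι → (FreeGroup (Fin m) →₀ ℂ)) (t : ι → ℝ)
    (ht : ∀ i, 0 < t i) :
    ∀ᶠ k in atTop, MeasurableSet {u : Fin m → UU k | ∀ i, ‖ntr (pol u (f i) : Mat k) - f i 1‖ < t i} ∧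
      1 / 2 ≤ haarP k (Fin m) {u : Fin m → UU k | ∀ i, ‖ntr (pol u (f i) : Mat k) - f i 1‖ < t i} := by
  classical
  set c : ℝ := (Fintype.card ι : ℝ) with hc
  have hc0 : 0 ≤ c := Nat.cast_nonneg _
  set η : ι → ℝ := fun i => min (t i) (1 / (2 * (c + 1))) with hη
  have hη0 : ∀ i, 0 < η i := fun i => lt_min (ht i) (by positivity)
  have h1 : ∀ᶠ k in atTop, ∀ i, haarP k (Fin m)
      {u | η i ≤ ‖ntr (pol u (f i) : Mat k) - f i 1‖} ≤ ENNReal.ofReal (η i) :=
    Filter.eventually_all.2 fun i => haar_moments m (f i) (η i) (hη0 i)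
  filter_upwards [h1] with k hk
  have hsc := om_secondCountable k
  have hmeas : MeasurableSet {u : Fin m → UU k | ∀ i, ‖ntr (pol u (f i) : Mat k) - f i 1‖ < t i} := by
    have hopen : IsOpen {u : Fin m → UU k | ∀ i, ‖ntr (pol u (f i) : Mat k) - f i 1‖ < t i} := by
      have : {u : Fin m → UU k | ∀ i, ‖ntr (pol u (f i) : Mat k) - f i 1‖ < t i} =
          ⋂ i, {u : Fin m → UU k | ‖ntr (pol u (f i) : Mat k) - f i 1‖ < t i} := by
        ext u; simp
      rw [this]
      refine isOpen_iInter_of_finite fun i => isOpen_lt ?_ continuous_const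
      exact ((continuous_ntr.comp (continuous_pol (f i))).sub continuous_const).norm
    exact hopen.measurableSet
  refine ⟨hmeas, ?_⟩
  have hcompl : haarP k (Fin m) {u : Fin m → UU k | ∀ i, ‖ntr (pol u (f i) : Mat k) - f i 1‖ < t i}ᶜ
      ≤ 1 / 2 := by
    have hsub : {u : Fin m → UU k | ∀ i, ‖ntr (pol u (f i) : Mat k) - f i 1‖ < t i}ᶜ ⊆
        ⋃ i, {u : Fin m → UU k | η i ≤ ‖ntr (pol u (f i) : Mat k) - f i 1‖} := by
      intro u hu
      simp only [Set.mem_compl_iff, Set.mem_setOf_eq, not_forall, not_lt] at hu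
      obtain ⟨i, hi⟩ := hu
      exact Set.mem_iUnion.2 ⟨i, (min_le_left _ _).trans hi⟩
    refine (measure_mono hsub).trans ((measure_iUnion_fintype_le _ _).trans ?_)
    calc ∑ i, haarP k (Fin m) {u : Fin m → UU k | η i ≤ ‖ntr (pol u (f i) : Mat k) - f i 1‖}
        ≤ ∑ _i : ι, ENNReal.ofReal (1 / (2 * (c + 1))) :=
          Finset.sum_le_sum fun i _ => (hk i).trans (ENNReal.ofReal_le_ofReal (min_le_right _ _))
      _ = ENNReal.ofReal (c * (1 / (2 * (c + 1)))) := by
          rw [Finset.sum_const, Finset.card_univ, nsmul_eq_mul, ENNReal.ofReal_mul hc0, hc,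
            ENNReal.ofReal_natCast]
      _ ≤ ENNReal.ofReal (1 / 2) := by
          refine ENNReal.ofReal_le_ofReal ?_
          rw [mul_one_div, div_le_div_iff₀ (by positivity) (by norm_num)]
          linarith
      _ = 1 / 2 := by
          rw [ENNReal.ofReal_div_of_pos (by norm_num)]
          simp
  rw [prob_compl_eq_one_sub hmeas] at hcompl
  have h2 : (1 : ℝ≥0∞) ≤ 1 / 2 +
      haarP k (Fin m) {u : Fin m → UU k | ∀ i, ‖ntr (pol u (f i) : Mat k) - f i 1‖ < t i} :=
    tsub_le_iff_right.1 hcompl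
  have h4 : (1 / 2 : ℝ≥0∞) + 1 / 2 ≤ 1 / 2 +
      haarP k (Fin m) {u : Fin m → UU k | ∀ i, ‖ntr (pol u (f i) : Mat k) - f i 1‖ < t i} := by
    rw [ENNReal.add_halves]
    exact h2
  exact (ENNReal.add_le_add_iff_left (ENNReal.div_ne_top (by simp) (by simp))).1 h4

/-! ### the main statement -/

theorem om_zpow_ne {n : ℕ} (i : Fin n) (l : ℤ) (hl : l ≠ 0) : (FreeGroup.of i) ^ l ≠ 1 := by
  intro h
  have h1 : (FreeGroup.lift (fun _ : Fin n => Multiplicative.ofAdd (1 : ℤ)))
      (FreeGroup.of i ^ l) = 1 := by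
    rw [h]
    exact MonoidHom.map_one _
  rw [MonoidHom.map_zpow, FreeGroup.lift_apply_of] at h1
  have h2 := congrArg Multiplicative.toAdd h1
  rw [toAdd_zpow, toAdd_ofAdd, toAdd_one, smul_eq_mul, mul_one] at h2
  exact hl h2

theorem op_main (m d : ℕ)
    (v : Fin m → unitary (Ell (FreeGroup (Fin (d + 1))) →L[ℂ] Ell (FreeGroup (Fin (d + 1)))))
    (hv : Core m (d + 1) v) (F : Fin m → (FreeGroup (Fin (d + 1)) →₀ ℂ)) (σ : Fin m → ℝ)
    (hσ : ∀ j, 0 < σ j)
    (hF : ∀ j, ‖(v j : Ell (FreeGroup (Fin (d + 1))) →L[ℂ] Ell (FreeGroup (Fin (d + 1)))) (delta 1)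
      - (F j).sum fun w c => c • delta w‖ ≤ σ j) (N : ℕ) (κ : ℝ) (hκ : 0 < κ) :
    ∀ᶠ k in atTop, ∃ S : Set (Fin m → UU k), MeasurableSet S ∧ 1 / 2 ≤ haarP k (Fin m) S ∧
      ∀ u ∈ S, ∃ x : Fin (d + 1) → UU k, SmallTr κ N x ∧
        ∀ j, hs ((pol x (F j) : Mat k) - (u j : Mat k)) ≤ 2 * σ j := by
  classical
  -- the small parameter
  set A : Fin m → ℝ := fun j => (F j).sum fun w c => ‖c‖ * w.norm with hA
  have hA0 : ∀ j, 0 ≤ A j := fun j => Finset.sum_nonneg fun w _ => by positivity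
  obtain ⟨η, hη, hηκ, hησ⟩ : ∃ η : ℝ, 0 < η ∧ N * (2 * η) ≤ κ / 2 ∧
      ∀ j, A j * (2 * η) ≤ σ j / 2 := by
    set B : ℝ := (N + 1) / κ + ∑ j, (A j + 1) / σ j with hB
    have hB1 : (N + 1) / κ ≤ B := by
      rw [hB]
      have : 0 ≤ ∑ j, (A j + 1) / σ j := Finset.sum_nonneg fun j _ => by
        have := hA0 j
        have := hσ j
        positivity
      linarith
    have hB2 : ∀ j, (A j + 1) / σ j ≤ B := by
      intro j
      have h1 : (A j + 1) / σ j ≤ ∑ j, (A j + 1) / σ j :=
        Finset.single_le_sum (f := fun j => (A j + 1) / σ j) (fun j _ => by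
          have := hA0 j
          have := hσ j
          positivity) (Finset.mem_univ j)
      have h2 : (0 : ℝ) ≤ (N + 1) / κ := by positivity
      rw [hB]
      linarith
    have hB0 : 0 < B := lt_of_lt_of_le (by positivity) hB1
    refine ⟨1 / (4 * B), by positivity, ?_, fun j => ?_⟩
    · have h1 : (N : ℝ) + 1 ≤ B * κ := by rwa [div_le_iff₀ hκ] at hB1
      have h2 : (N : ℝ) * (2 * (1 / (4 * B))) = N / (2 * B) := by
        field_simp
        ring
      rw [h2, div_le_iff₀ (by positivity)]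
      nlinarith
    · have h1 : A j + 1 ≤ B * σ j := by
        have := hB2 j
        rwa [div_le_iff₀ (hσ j)] at this
      have h2 : A j * (2 * (1 / (4 * B))) = A j / (2 * B) := by
        field_simp
        ring
      rw [h2, div_le_iff₀ (by positivity)]
      nlinarith
  -- step 1
  choose L c hc hL using fun i : Fin (d + 1) =>
    angle_approx (FreeGroup.of i) (om_zpow_ne i) η hη
  let H : Fin (d + 1) → Ell (FreeGroup (Fin (d + 1))) →L[ℂ] Ell (FreeGroup (Fin (d + 1))) :=
    fun i => ∑ l ∈ Finset.Icc (-(L i : ℤ)) (L i), c i l • lam (FreeGroup.of i ^ l)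
  have hHsa : ∀ i, IsSelfAdjoint (H i) := by
    intro i
    have h1 : star (H i) = H i := by
      simp only [H, star_sum, star_smul, star_lam]
      refine Finset.sum_bij (fun l _ => -l) ?_ ?_ ?_ ?_
      · intro l hl
        rw [Finset.mem_Icc] at hl ⊢
        constructor <;> linarith [hl.1, hl.2]
      · intro a _ b _ h
        linarith [neg_injective h]
      · intro b hb
        refine ⟨-b, ?_, by ring⟩
        rw [Finset.mem_Icc] at hb ⊢
        constructor <;> linarith [hb.1, hb.2]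
      · intro l _
        rw [hc, _root_.zpow_neg]
        rfl
    exact h1
  have hHcm : ∀ i, Cm (H i) := fun i => cm_sum _ _ fun l _ => cm_smul _ fun g => lam_rho _ g
  -- step 2
  choose q hq using fun i : Fin (d + 1) => hv.dense (((1 / 2 : ℂ) • H i) (delta 1)) (η / 2)
    (by positivity)
  have hvcm : ∀ j, Cm (v j : Ell (FreeGroup (Fin (d + 1))) →L[ℂ] Ell (FreeGroup (Fin (d + 1)))) :=
    fun j g => hv.comm j g
  let Q : Fin (d + 1) → Ell (FreeGroup (Fin (d + 1))) →L[ℂ] Ell (FreeGroup (Fin (d + 1))) :=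
    fun i => pol v (q i) + star (pol v (q i))
  have hQsa : ∀ i, IsSelfAdjoint (Q i) := fun i => by
    have h1 : star (Q i) = Q i := by
      simp only [Q, star_add, star_star]
      exact add_comm _ _
    exact h1
  have hpcm : ∀ i, Cm (pol v (q i)) := fun i => cm_pol v hvcm _
  have hQcm : ∀ i, Cm (Q i) := fun i => cm_add (hpcm i) (cm_star (hpcm i))
  have hQH : ∀ i, ‖(Q i - H i) (delta 1)‖ ≤ η := by
    intro i
    have h1 : Q i - H i = -(((1 / 2 : ℂ) • H i - pol v (q i)) +
        star ((1 / 2 : ℂ) • H i - pol v (q i))) := by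
      have h2 : star ((1 / 2 : ℂ) • H i) = (1 / 2 : ℂ) • H i := by
        rw [star_smul, (hHsa i).star_eq]
        congr 1
        simp
      rw [star_sub, h2]
      have h3 : H i = (1 / 2 : ℂ) • H i + (1 / 2 : ℂ) • H i := by
        rw [← add_smul]
        norm_num
      simp only [Q]
      conv_lhs => rw [h3]
      abel
    rw [h1, ContinuousLinearMap.neg_apply, norm_neg, ContinuousLinearMap.add_apply]
    refine (norm_add_le _ _).trans ?_
    rw [norm_star_delta _ (cm_sub (cm_smul _ (hHcm i)) (hpcm i))]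
    have h4 := (hq i).le
    rw [← ContinuousLinearMap.sub_apply] at h4
    linarith
  let X : Fin (d + 1) → unitary (Ell (FreeGroup (Fin (d + 1))) →L[ℂ] Ell (FreeGroup (Fin (d + 1)))) :=
    fun i => selfAdjoint.expUnitary ⟨Q i, hQsa i⟩
  have hXe : ∀ i, (X i : Ell (FreeGroup (Fin (d + 1))) →L[ℂ] Ell (FreeGroup (Fin (d + 1)))) =
      NormedSpace.exp (Complex.I • Q i) := fun i => rfl
  have hXcm : ∀ i, Cm (X i : Ell (FreeGroup (Fin (d + 1))) →L[ℂ] Ell (FreeGroup (Fin (d + 1)))) := by
    intro i g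
    rw [hXe]
    exact exp_comm_rho (Q i) (hQcm i) g
  have hXl : ∀ i, ‖((X i : Ell (FreeGroup (Fin (d + 1))) →L[ℂ] Ell (FreeGroup (Fin (d + 1)))) -
      lam (FreeGroup.of i)) (delta 1)‖ ≤ 2 * η := by
    intro i
    have h1 : (X i : Ell (FreeGroup (Fin (d + 1))) →L[ℂ] Ell (FreeGroup (Fin (d + 1)))) -
        lam (FreeGroup.of i) = (NormedSpace.exp (Complex.I • Q i) - NormedSpace.exp (Complex.I • H i))
          + (NormedSpace.exp (Complex.I • H i) - lam (FreeGroup.of i)) := by
      rw [hXe]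
      abel
    rw [h1, ContinuousLinearMap.add_apply]
    refine (norm_add_le _ _).trans ?_
    have h2 := (exp_lip_delta (Q i) (H i) (hQsa i) (hHsa i) (hQcm i) (hHcm i)).trans (hQH i)
    have h3 := hL i
    linarith
  -- step 3
  have hword : ∀ w : FreeGroup (Fin (d + 1)),
      ‖(wd X w - lam w) (delta 1)‖ ≤ w.norm * (2 * η) := by
    intro w
    have h1 := om_est X hXcm (2 * η) hXl w.toWord
    rw [FreeGroup.mk_toWord] at h1
    exact h1
  have htau : ∀ w : FreeGroup (Fin (d + 1)), w ≠ 1 → w.norm ≤ N → ‖tau (wd X w)‖ ≤ κ / 2 := by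
    intro w hw hwN
    have h0 : tau (lam w) = 0 := by
      unfold tau
      rw [lam_delta, mul_one, delta_apply, if_neg (Ne.symm hw)]
    have h1 : tau (wd X w) = tau (wd X w - lam w) := by
      have h2 : tau (wd X w - lam w) = tau (wd X w) - tau (lam w) := by
        unfold tau
        rfl
      rw [h2, h0, sub_zero]
    rw [h1]
    refine (norm_tau_le _).trans ((hword w).trans (le_trans ?_ hηκ))
    have : (w.norm : ℝ) ≤ N := by exact_mod_cast hwN
    exact mul_le_mul_of_nonneg_right this (by positivity)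
  have hpolX : ∀ j, ‖(pol X (F j) -
      (v j : Ell (FreeGroup (Fin (d + 1))) →L[ℂ] Ell (FreeGroup (Fin (d + 1))))) (delta 1)‖ ≤
      3 / 2 * σ j := by
    intro j
    have h1 : (pol X (F j) -
        (v j : Ell (FreeGroup (Fin (d + 1))) →L[ℂ] Ell (FreeGroup (Fin (d + 1))))) (delta 1) =
        ((pol X (F j)) (delta 1) - (F j).sum fun w c => c • delta w) -
        ((v j : Ell (FreeGroup (Fin (d + 1))) →L[ℂ] Ell (FreeGroup (Fin (d + 1)))) (delta 1)
          - (F j).sum fun w c => c • delta w) := by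
      rw [ContinuousLinearMap.sub_apply]
      abel
    rw [h1]
    refine (norm_sub_le _ _).trans ?_
    have h2 : ‖(pol X (F j)) (delta 1) - (F j).sum fun w c => c • delta w‖ ≤ A j * (2 * η) := by
      have h3 : (pol X (F j)) (delta 1) - ((F j).sum fun w c => c • delta w) =
          ∑ w ∈ (F j).support, (F j w) • ((wd X w - lam w) (delta 1)) := by
        unfold pol Finsupp.sum
        rw [ContinuousLinearMap.sum_apply, ← Finset.sum_sub_distrib]
        refine Finset.sum_congr rfl fun w _ => ?_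
        rw [ContinuousLinearMap.smul_apply, ContinuousLinearMap.sub_apply, lam_delta, mul_one,
          smul_sub]
      rw [h3]
      refine (norm_sum_le _ _).trans ?_
      rw [hA]
      unfold Finsupp.sum
      rw [Finset.sum_mul]
      refine Finset.sum_le_sum fun w _ => ?_
      rw [norm_smul, mul_assoc]
      exact mul_le_mul_of_nonneg_left (hword w) (norm_nonneg _)
    have h4 := hF j
    have h5 := hησ j
    linarith
  -- step 4
  let Qm : ∀ k : ℕ, (Fin m → UU k) → Fin (d + 1) → Mat k :=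
    fun k u i => pol u (q i) + (pol u (q i))ᴴ
  have hQm : ∀ k u i, IsSelfAdjoint (Qm k u i) := by
    intro k u i
    have h1 : star (Qm k u i) = Qm k u i := by
      simp only [Qm, star_eq_conjTranspose, conjTranspose_add, conjTranspose_conjTranspose]
      exact add_comm _ _
    exact h1
  let x : ∀ k : ℕ, (Fin m → UU k) → Fin (d + 1) → UU k :=
    fun k u i => selfAdjoint.expUnitary ⟨Qm k u i, hQm k u i⟩
  have hx : ∀ i, Appr v (fun k U => (x k U i : Mat k)) (X i) := by
    intro i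
    have h1 : Appr v (fun k U => Complex.I • Qm k U i) (Complex.I • Q i) :=
      Appr.smul v _ (Appr.add v (Appr.pol v (q i)) (Appr.star v (Appr.pol v (q i))))
    exact Appr.exp v h1
  -- the finite set of words
  have hfin : {w : FreeGroup (Fin (d + 1)) | w.norm ≤ N}.Finite := by
    have h1 : {w : FreeGroup (Fin (d + 1)) | w.norm ≤ N} ⊆
        FreeGroup.mk '' {l : List (Fin (d + 1) × Bool) | l.length ≤ N} := by
      intro w hw
      exact ⟨w.toWord, hw, FreeGroup.mk_toWord⟩
    exact (List.finite_length_le _ N).image _ |>.subset h1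
  let 𝒲 : Finset (FreeGroup (Fin (d + 1))) := hfin.toFinset
  have htr1 : ∀ w : FreeGroup (Fin (d + 1)), ∃ f : FreeGroup (Fin m) →₀ ℂ,
      ∀ (k : ℕ), 0 < k → ∀ U : Fin m → UU k,
      ‖ntr (FG.pol U f : Mat k) - f 1‖ < κ / 2 / 3 →
        ‖ntr (wd (x k U) w : Mat k) - tau (wd X w)‖ < κ / 2 := fun w =>
    Appr.tr v hv (appr_wd v x X hx w) (κ / 2) (by positivity)
  choose f hf using htr1
  have htr2 : ∀ j : Fin m, ∃ f : FreeGroup (Fin m) →₀ ℂ,
      ∀ (k : ℕ), 0 < k → ∀ U : Fin m → UU k,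
      ‖ntr (FG.pol U f : Mat k) - f 1‖ < σ j ^ 2 / 3 →
        ‖ntr (((pol (x k U) (F j) : Mat k) - (U j : Mat k))ᴴ *
          ((pol (x k U) (F j) : Mat k) - (U j : Mat k))) -
          tau (star (pol X (F j) - (v j : Ell (FreeGroup (Fin (d + 1))) →L[ℂ]
            Ell (FreeGroup (Fin (d + 1))))) * (pol X (F j) -
            (v j : Ell (FreeGroup (Fin (d + 1))) →L[ℂ] Ell (FreeGroup (Fin (d + 1))))))‖ <
          σ j ^ 2 := fun j => by
    have h1 : Appr v (fun k U => (pol (x k U) (F j) : Mat k) - (U j : Mat k))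
        (pol X (F j) - (v j : Ell (FreeGroup (Fin (d + 1))) →L[ℂ] Ell (FreeGroup (Fin (d + 1))))) :=
      appr_sub v (appr_pol v x X hx (F j)) (appr_var v j)
    have h2 := hσ j
    exact Appr.tr v hv (Appr.mul v (Appr.star v h1) h1) (σ j ^ 2) (by positivity)
  choose f' hf' using htr2
  have hset := om_set m (ι := 𝒲 ⊕ Fin m)
    (Sum.elim (fun w => f w.1) f') (Sum.elim (fun _ => κ / 2 / 3) (fun j => σ j ^ 2 / 3)) (by
      rintro (w | j)
      · simp only [Sum.elim_inl]; positivity
      · have := hσ j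
        simp only [Sum.elim_inr]; positivity)
  filter_upwards [hset, eventually_gt_atTop 0] with k hk hk0
  refine ⟨_, hk.1, hk.2, fun u hu => ⟨x k u, ?_, fun j => ?_⟩⟩
  · intro w hw hwN
    have hwW : w ∈ 𝒲 := by
      simp only [𝒲, Set.Finite.mem_toFinset, Set.mem_setOf_eq]
      exact hwN
    have h1 := hf w k hk0 u (hu (Sum.inl ⟨w, hwW⟩))
    have h2 := htau w hw hwN
    have h3 : ntr (wd (x k u) w : Mat k) =
        (ntr (wd (x k u) w : Mat k) - tau (wd X w)) + tau (wd X w) := by ring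
    rw [h3]
    refine (norm_add_le _ _).trans ?_
    linarith
  · have h1 := hf' j k hk0 u (hu (Sum.inr j))
    rw [om_tau_star_mul, ← hs_sq_tr, ← Complex.ofReal_sub, Complex.norm_real, Real.norm_eq_abs,
      abs_lt] at h1
    have h2 := hpolX j
    have h3 : ‖(pol X (F j) -
      (v j : Ell (FreeGroup (Fin (d + 1))) →L[ℂ] Ell (FreeGroup (Fin (d + 1))))) (delta 1)‖ ^ 2 ≤
      (3 / 2 * σ j) ^ 2 := pow_le_pow_left₀ (norm_nonneg _) h2 2
    have h4 := hσ j
    have h5 : hs ((pol (x k u) (F j) : Mat k) - (u j : Mat k)) ^ 2 ≤ (2 * σ j) ^ 2 := by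
      have h6 : 0 < σ j ^ 2 := by positivity
      nlinarith [h1.2]
    exact le_of_pow_le_pow_left₀ (by norm_num) (by positivity) h5

end Pool.Agent.H667R2.FG.TOM

namespace Pool.Agent.H667R2.FG

alias op_main := TOM.op_main

end Pool.Agent.H667R2.FG
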