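import Mathlib
import Pool.Agent.H667R2.FG.Defs
import Pool.Agent.H667R2.FG.OpDefs
import Pool.Agent.H667R2.FG.Herm
import Pool.Agent.H667R2.FG.THS
import Pool.Agent.H667R2.FG.TS1
import Pool.Agent.H667R2.FG.TL2
import Pool.Agent.H667R2.FG.TANG
import Pool.Agent.H667R2.FG.TAPPR
import Pool.Agent.H667R2.FG.TOM

/-! Operator side for an arbitrary family of free generators. -/

namespace Pool.Agent.H667R2.FG.GOM

open MeasureTheory Matrix Filter
open scoped Matrix.Norms.L2Operator ComplexConjugate ENNReal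
open TOM

/-- The data used in the proof: unitaries `v_i` (`i : ι`) on `ℓ²(F_n)` commuting with the right
translations, free Haar unitaries for the canonical trace, with `δ_1` cyclic for them. -/
structure CoreG {ι : Type} (n : ℕ) (v : ι → unitary (Op (FreeGroup (Fin n)))) : Prop where
  comm : ∀ (j : ι) (g : FreeGroup (Fin n)),
    (v j : Op (FreeGroup (Fin n))) * rho g = rho g * v j
  free : ∀ w : FreeGroup ι, w ≠ 1 → tau (wd v w) = 0
  dense : ∀ (ξ : Ell (FreeGroup (Fin n))) (ε : ℝ), 0 < ε →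
    ∃ f : FreeGroup ι →₀ ℂ, ‖ξ - (pol v f) (delta 1)‖ < ε

/-! ### reduction to finitely many generators -/

theorem wd_map {A : Type} [Ring A] [StarRing A] {ι κ : Type} (v : ι → unitary A) (e : κ → ι)
    (w : FreeGroup κ) : wd v (FreeGroup.map e w) = wd (fun a => v (e a)) w := by
  unfold wd
  congr 1
  have h : (FreeGroup.lift v).comp (FreeGroup.map e) = FreeGroup.lift (fun a => v (e a)) := by
    apply FreeGroup.ext_hom
    intro a
    simp
  rw [← h]
  rfl

theorem exists_lift_word {ι κ : Type} (e : κ → ι) (L : List (ι × Bool))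
    (h : ∀ p ∈ L, p.1 ∈ Set.range e) : ∃ L' : List (κ × Bool),
      FreeGroup.map e (FreeGroup.mk L') = FreeGroup.mk L := by
  induction L with
  | nil => exact ⟨[], rfl⟩
  | cons p L ih =>
    obtain ⟨L', hL'⟩ := ih fun q hq => h q (List.mem_cons_of_mem _ hq)
    obtain ⟨a, ha⟩ := h p List.mem_cons_self
    refine ⟨(a, p.2) :: L', ?_⟩
    rw [FreeGroup.map.mk] at hL' ⊢
    rw [List.map_cons]
    have e1 : ∀ (x : ι × Bool) (M : List (ι × Bool)), FreeGroup.mk (x :: M)
        = FreeGroup.mk [x] * FreeGroup.mk M := fun x M => by rw [FreeGroup.mul_mk]; rfl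
    rw [e1 p L, ← hL', e1]
    congr 1
    simp [ha]

theorem exists_finite {ι : Type} (m : ℕ) (J : Fin m → ι) (hJ : Function.Injective J)
    {κ : Type} [Fintype κ] (q : κ → FreeGroup ι →₀ ℂ) :
    ∃ (M : ℕ) (e : Fin M → ι) (J' : Fin m → Fin M) (q' : κ → FreeGroup (Fin M) →₀ ℂ),
      Function.Injective e ∧ Function.Injective J' ∧ (∀ j, e (J' j) = J j) ∧
      ∀ (A : Type) [Ring A] [StarRing A] [Module ℂ A] (v : ι → unitary A) (i : κ),
        pol (fun a => v (e a)) (q' i) = pol v (q i) := by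
  classical
  set Λ : Finset ι := (Finset.univ.image J) ∪ (Finset.univ.biUnion fun i =>
    (q i).support.biUnion fun w => (w.toWord.map Prod.fst).toFinset) with hΛ
  have hJΛ : ∀ j, J j ∈ Λ := fun j =>
    Finset.mem_union_left _ (Finset.mem_image_of_mem _ (Finset.mem_univ j))
  set e : Fin Λ.card → ι := fun a => (Λ.equivFin.symm a : ι) with he
  have hinj : Function.Injective e := fun a b hab =>
    Λ.equivFin.symm.injective (Subtype.ext hab)
  have hrange : ∀ a ∈ Λ, a ∈ Set.range e := fun a ha =>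
    ⟨Λ.equivFin ⟨a, ha⟩, by simp [he]⟩
  have hw : ∀ w : FreeGroup ι, ∃ w' : FreeGroup (Fin Λ.card),
      (∀ a ∈ w.toWord.map Prod.fst, a ∈ Λ) → FreeGroup.map e w' = w := by
    intro w
    by_cases h : ∀ a ∈ w.toWord.map Prod.fst, a ∈ Λ
    · obtain ⟨L', hL'⟩ := exists_lift_word e w.toWord fun p hp =>
        hrange _ (h _ (List.mem_map_of_mem hp))
      exact ⟨FreeGroup.mk L', fun _ => by rw [hL', FreeGroup.mk_toWord]⟩
    · exact ⟨1, fun h' => absurd h' h⟩
  choose r hr using hw
  refine ⟨Λ.card, e, fun j => Λ.equivFin ⟨J j, hJΛ j⟩, fun i => (q i).mapDomain r, hinj, ?_,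
    fun j => by simp [he], ?_⟩
  · intro j j' h
    apply hJ
    have := Λ.equivFin.injective h
    exact congrArg Subtype.val this
  · intro A _ _ _ v i
    unfold pol
    rw [Finsupp.sum_mapDomain_index (by simp) (by intro b c d; rw [add_smul])]
    refine Finset.sum_congr rfl fun w hw' => ?_
    show (q i) w • wd (fun a => v (e a)) (r w) = (q i) w • wd v w
    rw [← wd_map v e, hr w]
    intro a ha
    apply Finset.mem_union_right
    rw [Finset.mem_biUnion]
    refine ⟨i, Finset.mem_univ i, ?_⟩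
    rw [Finset.mem_biUnion]
    exact ⟨w, hw', List.mem_toFinset.2 ha⟩

/-! ### projection of compact sets -/

theorem map_proj (k m M : ℕ) (J : Fin m → Fin M) (hJ : Function.Injective J) :
    Measure.map (fun (u : Fin M → UU k) (j : Fin m) => u (J j)) (haarP k (Fin M))
      = haarP k (Fin m) := by
  classical
  symm
  refine Measure.pi_eq fun s hs => ?_
  have hmeas : Measurable fun (u : Fin M → UU k) (j : Fin m) => u (J j) :=
    measurable_pi_lambda _ fun j => measurable_pi_apply _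
  rw [Measure.map_apply hmeas (MeasurableSet.univ_pi hs)]
  set t : Fin M → Set (UU k) := fun i => if h : ∃ j, J j = i then s h.choose else Set.univ with ht
  have htJ : ∀ j, t (J j) = s j := by
    intro j
    have h : ∃ j', J j' = J j := ⟨j, rfl⟩
    simp only [ht]
    rw [dif_pos h]
    congr 1
    exact hJ h.choose_spec
  have e1 : (fun (u : Fin M → UU k) (j : Fin m) => u (J j)) ⁻¹' (Set.univ.pi s)
      = Set.univ.pi t := by
    ext u
    simp only [Set.mem_preimage, Set.mem_univ_pi]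
    constructor
    · intro h i
      by_cases hi : ∃ j, J j = i
      · obtain ⟨j, rfl⟩ := hi
        rw [htJ]
        exact h j
      · simp only [ht]
        rw [dif_neg hi]
        exact Set.mem_univ _
    · intro h j
      have := h (J j)
      rwa [htJ] at this
  rw [e1, Measure.pi_pi]
  symm
  refine Fintype.prod_of_injective J hJ _ _ (fun i hi => ?_) (fun j => by rw [htJ])
  have : ¬ ∃ j, J j = i := fun ⟨j, hj⟩ => hi ⟨j, hj⟩
  simp only [ht]
  rw [dif_neg this, measure_univ]

theorem proj_closed (k m M : ℕ) (J : Fin m → Fin M) (hJ : Function.Injective J)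
    (S : Set (Fin M → UU k)) (hS : IsClosed S) :
    MeasurableSet ((fun (u : Fin M → UU k) (j : Fin m) => u (J j)) '' S) ∧
      haarP k (Fin M) S ≤ haarP k (Fin m) ((fun (u : Fin M → UU k) (j : Fin m) => u (J j)) '' S) := by
  have hsc := om_secondCountable k
  have hcont : Continuous fun (u : Fin M → UU k) (j : Fin m) => u (J j) :=
    continuous_pi fun j => continuous_apply _
  have hcomp : IsCompact ((fun (u : Fin M → UU k) (j : Fin m) => u (J j)) '' S) :=
    hS.isCompact.image hcont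
  have hm : MeasurableSet ((fun (u : Fin M → UU k) (j : Fin m) => u (J j)) '' S) :=
    hcomp.isClosed.measurableSet
  refine ⟨hm, ?_⟩
  have hmeas : Measurable fun (u : Fin M → UU k) (j : Fin m) => u (J j) :=
    measurable_pi_lambda _ fun j => measurable_pi_apply _
  rw [← map_proj k m M J hJ, Measure.map_apply hmeas hm]
  exact measure_mono (Set.subset_preimage_image _ _)

/-! ### traces -/

theorem appr_tau_pol' {M n : ℕ} (v : Fin M → unitary (Op (FreeGroup (Fin n))))
    (hfree : ∀ w : FreeGroup (Fin M), w ≠ 1 → tau (wd v w) = 0)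
    (f : FreeGroup (Fin M) →₀ ℂ) : tau (FG.pol v f) = f 1 := by
  have h1 : tau (1 : Op (FreeGroup (Fin n))) = 1 := by
    classical
    unfold tau
    show (delta (1 : FreeGroup (Fin n)) : Ell (FreeGroup (Fin n))) 1 = 1
    rw [delta_apply]; simp
  have h2 : tau (FG.pol v f) = f.sum fun w c => c * tau (wd v w) := by
    unfold tau FG.pol Finsupp.sum
    rw [_root_.sum_apply]
    rw [show ((∑ w ∈ f.support, (f w • wd v w : Op (FreeGroup (Fin n)))
      (delta 1) : Ell (FreeGroup (Fin n))) 1) = ∑ w ∈ f.support, ((f w • wd v w :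
      Op (FreeGroup (Fin n))) (delta 1)) 1 by
        rw [lp.coeFn_sum, Finset.sum_apply]]
    rfl
  rw [h2]
  unfold Finsupp.sum
  rw [Finset.sum_eq_single (1 : FreeGroup (Fin M))]
  · show f 1 * tau (wd v 1) = f 1
    have : wd v (1 : FreeGroup (Fin M)) = 1 := om_wd_nil v
    rw [this, h1, mul_one]
  · intro w _ hw
    show f w * tau (wd v w) = 0
    rw [hfree w hw, mul_zero]
  · intro h
    show f 1 * tau (wd v 1) = 0
    rw [Finsupp.notMem_support_iff.1 h, zero_mul]

theorem appr_tr' {M n : ℕ} (v : Fin M → unitary (Op (FreeGroup (Fin n))))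
    (hfree : ∀ w : FreeGroup (Fin M), w ≠ 1 → tau (wd v w) = 0) {Z Zo}
    (h : Appr v Z Zo) (η : ℝ) (hη : 0 < η) :
    ∃ f : FreeGroup (Fin M) →₀ ℂ, ∀ (k : ℕ), 0 < k → ∀ U : Fin M → UU k,
      ‖ntr (FG.pol U f : Mat k) - f 1‖ < η / 3 → ‖ntr (Z k U) - tau Zo‖ < η := by
  obtain ⟨f, hf1, hf2⟩ := h (η / 4) (by positivity)
  refine ⟨f, fun k hk U hU => ?_⟩
  have a1 : ‖ntr (Z k U) - ntr (FG.pol U f : Mat k)‖ ≤ η / 4 := by
    rw [← ntr_sub]
    exact (norm_ntr_le _).trans (hf1 k U)
  have a2 : ‖tau Zo - tau (FG.pol v f)‖ ≤ η / 4 := by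
    have e : tau Zo - tau (FG.pol v f) = tau (Zo - FG.pol v f) := rfl
    rw [e]
    refine (norm_tau_le _).trans ?_
    refine (ContinuousLinearMap.le_opNorm _ _).trans ?_
    rw [norm_delta, mul_one]
    exact hf2
  rw [appr_tau_pol' v hfree] at a2
  have e : ntr (Z k U) - tau Zo = (ntr (Z k U) - ntr (FG.pol U f : Mat k))
      + (ntr (FG.pol U f : Mat k) - f 1) - (tau Zo - f 1) := by ring
  rw [e]
  have := norm_sub_le ((ntr (Z k U) - ntr (FG.pol U f : Mat k)) + (ntr (FG.pol U f : Mat k) - f 1))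
    (tau Zo - f 1)
  have := norm_add_le (ntr (Z k U) - ntr (FG.pol U f : Mat k)) (ntr (FG.pol U f : Mat k) - f 1)
  linarith

theorem op_main_gen {ι : Type} (m d : ℕ) (v₀ : ι → unitary (Op (FreeGroup (Fin (d + 1)))))
    (hv₀ : CoreG (d + 1) v₀) (J₀ : Fin m → ι) (hJ₀ : Function.Injective J₀)
    (F : Fin m → (FreeGroup (Fin (d + 1)) →₀ ℂ)) (σ : Fin m → ℝ)
    (hσ : ∀ j, 0 < σ j)
    (hF₀ : ∀ j, ‖(v₀ (J₀ j) : Op (FreeGroup (Fin (d + 1)))) (delta 1)
      - (F j).sum fun w c => c • delta w‖ ≤ σ j) (N : ℕ) (κ : ℝ) (hκ : 0 < κ) :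
    ∀ᶠ k in atTop, ∃ S : Set (Fin m → UU k), MeasurableSet S ∧ 1 / 2 ≤ haarP k (Fin m) S ∧
      ∀ u ∈ S, ∃ x : Fin (d + 1) → UU k, SmallTr κ N x ∧
        ∀ j, hs ((pol x (F j) : Mat k) - (u j : Mat k)) ≤ 2 * σ j := by
  classical
  -- the small parameter
  set A : Fin m → ℝ := fun j => (F j).sum fun w c => ‖c‖ * w.norm with hA
  have hA0 : ∀ j, 0 ≤ A j := fun j => Finset.sum_nonneg fun w _ => by positivity
  obtain ⟨η, hη, hηκ, hησ⟩ : ∃ η : ℝ, 0 < η ∧ N * (2 * η) ≤ κ / 2 ∧
      ∀ j, A j * (2 * η) ≤ σ j / 2 := by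
    set B : ℝ := (N + 1) / κ + ∑ j, (A j + 1) / σ j with hB
    have hB1 : (N + 1) / κ ≤ B := by
      rw [hB]
      have : 0 ≤ ∑ j, (A j + 1) / σ j := Finset.sum_nonneg fun j _ => by
        have := hA0 j
        have := hσ j
        positivity
      linarith
    have hB2 : ∀ j, (A j + 1) / σ j ≤ B := by
      intro j
      have h1 : (A j + 1) / σ j ≤ ∑ j, (A j + 1) / σ j :=
        Finset.single_le_sum (f := fun j => (A j + 1) / σ j) (fun j _ => by
          have := hA0 j
          have := hσ j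
          positivity) (Finset.mem_univ j)
      have h2 : (0 : ℝ) ≤ (N + 1) / κ := by positivity
      rw [hB]
      linarith
    have hB0 : 0 < B := lt_of_lt_of_le (by positivity) hB1
    refine ⟨1 / (4 * B), by positivity, ?_, fun j => ?_⟩
    · have h1 : (N : ℝ) + 1 ≤ B * κ := by rwa [div_le_iff₀ hκ] at hB1
      have h2 : (N : ℝ) * (2 * (1 / (4 * B))) = N / (2 * B) := by
        field_simp
        ring
      rw [h2, div_le_iff₀ (by positivity)]
      nlinarith
    · have h1 : A j + 1 ≤ B * σ j := by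
        have := hB2 j
        rwa [div_le_iff₀ (hσ j)] at this
      have h2 : A j * (2 * (1 / (4 * B))) = A j / (2 * B) := by
        field_simp
        ring
      rw [h2, div_le_iff₀ (by positivity)]
      nlinarith
  -- step 1
  choose L c hc hL using fun i : Fin (d + 1) =>
    angle_approx (FreeGroup.of i) (om_zpow_ne i) η hη
  let H : Fin (d + 1) → Ell (FreeGroup (Fin (d + 1))) →L[ℂ] Ell (FreeGroup (Fin (d + 1))) :=
    fun i => ∑ l ∈ Finset.Icc (-(L i : ℤ)) (L i), c i l • lam (FreeGroup.of i ^ l)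
  have hHsa : ∀ i, IsSelfAdjoint (H i) := by
    intro i
    have h1 : star (H i) = H i := by
      simp only [H, star_sum, star_smul, star_lam]
      refine Finset.sum_bij (fun l _ => -l) ?_ ?_ ?_ ?_
      · intro l hl
        rw [Finset.mem_Icc] at hl ⊢
        constructor <;> linarith [hl.1, hl.2]
      · intro a _ b _ h
        linarith [neg_injective h]
      · intro b hb
        refine ⟨-b, ?_, by ring⟩
        rw [Finset.mem_Icc] at hb ⊢
        constructor <;> linarith [hb.1, hb.2]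
      · intro l _
        rw [hc, _root_.zpow_neg]
        rfl
    exact h1
  have hHcm : ∀ i, Cm (H i) := fun i => cm_sum _ _ fun l _ => cm_smul _ fun g => lam_rho _ g
  -- step 2
  choose q₀ hq₀ using fun i : Fin (d + 1) => hv₀.dense (((1 / 2 : ℂ) • H i) (delta 1)) (η / 2)
    (by positivity)
  obtain ⟨M, e, J, q, he, hJ, heJ, hpole⟩ := exists_finite m J₀ hJ₀ q₀
  set v : Fin M → unitary (Op (FreeGroup (Fin (d + 1)))) := fun a => v₀ (e a) with hvdef
  have hq : ∀ i, ‖((1 / 2 : ℂ) • H i) (delta 1) - (pol v (q i)) (delta 1)‖ < η / 2 := by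
    intro i
    rw [hpole _ v₀ i]
    exact hq₀ i
  have hfree : ∀ w : FreeGroup (Fin M), w ≠ 1 → tau (wd v w) = 0 := by
    intro w hw
    rw [hvdef, ← wd_map v₀ e]
    refine hv₀.free _ fun h => hw ?_
    apply FreeGroup.map_injective he
    rw [h, map_one]
  have hvcm : ∀ j, Cm (v j : Ell (FreeGroup (Fin (d + 1))) →L[ℂ] Ell (FreeGroup (Fin (d + 1)))) :=
    fun j g => hv₀.comm (e j) g
  have hF : ∀ j, ‖(v (J j) : Op (FreeGroup (Fin (d + 1)))) (delta 1)
      - (F j).sum fun w c => c • delta w‖ ≤ σ j := by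
    intro j
    rw [hvdef]
    show ‖(v₀ (e (J j)) : Op (FreeGroup (Fin (d + 1)))) (delta 1)
      - (F j).sum fun w c => c • delta w‖ ≤ σ j
    rw [heJ]
    exact hF₀ j
  let Q : Fin (d + 1) → Ell (FreeGroup (Fin (d + 1))) →L[ℂ] Ell (FreeGroup (Fin (d + 1))) :=
    fun i => pol v (q i) + star (pol v (q i))
  have hQsa : ∀ i, IsSelfAdjoint (Q i) := fun i => by
    have h1 : star (Q i) = Q i := by
      simp only [Q, star_add, star_star]
      exact add_comm _ _
    exact h1
  have hpcm : ∀ i, Cm (pol v (q i)) := fun i => cm_pol v hvcm _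
  have hQcm : ∀ i, Cm (Q i) := fun i => cm_add (hpcm i) (cm_star (hpcm i))
  have hQH : ∀ i, ‖(Q i - H i) (delta 1)‖ ≤ η := by
    intro i
    have h1 : Q i - H i = -(((1 / 2 : ℂ) • H i - pol v (q i)) +
        star ((1 / 2 : ℂ) • H i - pol v (q i))) := by
      have h2 : star ((1 / 2 : ℂ) • H i) = (1 / 2 : ℂ) • H i := by
        rw [star_smul, (hHsa i).star_eq]
        congr 1
        simp
      rw [star_sub, h2]
      have h3 : H i = (1 / 2 : ℂ) • H i + (1 / 2 : ℂ) • H i := by
        rw [← add_smul]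
        norm_num
      simp only [Q]
      conv_lhs => rw [h3]
      abel
    rw [h1, ContinuousLinearMap.neg_apply, norm_neg, ContinuousLinearMap.add_apply]
    refine (norm_add_le _ _).trans ?_
    rw [norm_star_delta _ (cm_sub (cm_smul _ (hHcm i)) (hpcm i))]
    have h4 := (hq i).le
    rw [← ContinuousLinearMap.sub_apply] at h4
    linarith
  let X : Fin (d + 1) → unitary (Ell (FreeGroup (Fin (d + 1))) →L[ℂ] Ell (FreeGroup (Fin (d + 1)))) :=
    fun i => selfAdjoint.expUnitary ⟨Q i, hQsa i⟩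
  have hXe : ∀ i, (X i : Ell (FreeGroup (Fin (d + 1))) →L[ℂ] Ell (FreeGroup (Fin (d + 1)))) =
      NormedSpace.exp (Complex.I • Q i) := fun i => rfl
  have hXcm : ∀ i, Cm (X i : Ell (FreeGroup (Fin (d + 1))) →L[ℂ] Ell (FreeGroup (Fin (d + 1)))) := by
    intro i g
    rw [hXe]
    exact exp_comm_rho (Q i) (hQcm i) g
  have hXl : ∀ i, ‖((X i : Ell (FreeGroup (Fin (d + 1))) →L[ℂ] Ell (FreeGroup (Fin (d + 1)))) -
      lam (FreeGroup.of i)) (delta 1)‖ ≤ 2 * η := by
    intro i
    have h1 : (X i : Ell (FreeGroup (Fin (d + 1))) →L[ℂ] Ell (FreeGroup (Fin (d + 1)))) -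
        lam (FreeGroup.of i) = (NormedSpace.exp (Complex.I • Q i) - NormedSpace.exp (Complex.I • H i))
          + (NormedSpace.exp (Complex.I • H i) - lam (FreeGroup.of i)) := by
      rw [hXe]
      abel
    rw [h1, ContinuousLinearMap.add_apply]
    refine (norm_add_le _ _).trans ?_
    have h2 := (exp_lip_delta (Q i) (H i) (hQsa i) (hHsa i) (hQcm i) (hHcm i)).trans (hQH i)
    have h3 := hL i
    linarith
  -- step 3
  have hword : ∀ w : FreeGroup (Fin (d + 1)),
      ‖(wd X w - lam w) (delta 1)‖ ≤ w.norm * (2 * η) := by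
    intro w
    have h1 := om_est X hXcm (2 * η) hXl w.toWord
    rw [FreeGroup.mk_toWord] at h1
    exact h1
  have htau : ∀ w : FreeGroup (Fin (d + 1)), w ≠ 1 → w.norm ≤ N → ‖tau (wd X w)‖ ≤ κ / 2 := by
    intro w hw hwN
    have h0 : tau (lam w) = 0 := by
      unfold tau
      rw [lam_delta, mul_one, delta_apply, if_neg (Ne.symm hw)]
    have h1 : tau (wd X w) = tau (wd X w - lam w) := by
      have h2 : tau (wd X w - lam w) = tau (wd X w) - tau (lam w) := by
        unfold tau
        rfl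
      rw [h2, h0, sub_zero]
    rw [h1]
    refine (norm_tau_le _).trans ((hword w).trans (le_trans ?_ hηκ))
    have : (w.norm : ℝ) ≤ N := by exact_mod_cast hwN
    exact mul_le_mul_of_nonneg_right this (by positivity)
  have hpolX : ∀ j, ‖(pol X (F j) -
      (v (J j) : Ell (FreeGroup (Fin (d + 1))) →L[ℂ] Ell (FreeGroup (Fin (d + 1))))) (delta 1)‖ ≤
      3 / 2 * σ j := by
    intro j
    have h1 : (pol X (F j) -
        (v (J j) : Ell (FreeGroup (Fin (d + 1))) →L[ℂ] Ell (FreeGroup (Fin (d + 1))))) (delta 1) =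
        ((pol X (F j)) (delta 1) - (F j).sum fun w c => c • delta w) -
        ((v (J j) : Ell (FreeGroup (Fin (d + 1))) →L[ℂ] Ell (FreeGroup (Fin (d + 1)))) (delta 1)
          - (F j).sum fun w c => c • delta w) := by
      rw [ContinuousLinearMap.sub_apply]
      abel
    rw [h1]
    refine (norm_sub_le _ _).trans ?_
    have h2 : ‖(pol X (F j)) (delta 1) - (F j).sum fun w c => c • delta w‖ ≤ A j * (2 * η) := by
      have h3 : (pol X (F j)) (delta 1) - ((F j).sum fun w c => c • delta w) =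
          ∑ w ∈ (F j).support, (F j w) • ((wd X w - lam w) (delta 1)) := by
        unfold pol Finsupp.sum
        rw [ContinuousLinearMap.sum_apply, ← Finset.sum_sub_distrib]
        refine Finset.sum_congr rfl fun w _ => ?_
        rw [ContinuousLinearMap.smul_apply, ContinuousLinearMap.sub_apply, lam_delta, mul_one,
          smul_sub]
      rw [h3]
      refine (norm_sum_le _ _).trans ?_
      rw [hA]
      unfold Finsupp.sum
      rw [Finset.sum_mul]
      refine Finset.sum_le_sum fun w _ => ?_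
      rw [norm_smul, mul_assoc]
      exact mul_le_mul_of_nonneg_left (hword w) (norm_nonneg _)
    have h4 := hF j
    have h5 := hησ j
    linarith
  -- step 4
  let Qm : ∀ k : ℕ, (Fin M → UU k) → Fin (d + 1) → Mat k :=
    fun k u i => pol u (q i) + (pol u (q i))ᴴ
  have hQm : ∀ k u i, IsSelfAdjoint (Qm k u i) := by
    intro k u i
    have h1 : star (Qm k u i) = Qm k u i := by
      simp only [Qm, star_eq_conjTranspose, conjTranspose_add, conjTranspose_conjTranspose]
      exact add_comm _ _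
    exact h1
  let x : ∀ k : ℕ, (Fin M → UU k) → Fin (d + 1) → UU k :=
    fun k u i => selfAdjoint.expUnitary ⟨Qm k u i, hQm k u i⟩
  have hx : ∀ i, Appr v (fun k U => (x k U i : Mat k)) (X i) := by
    intro i
    have h1 : Appr v (fun k U => Complex.I • Qm k U i) (Complex.I • Q i) :=
      Appr.smul v _ (Appr.add v (Appr.pol v (q i)) (Appr.star v (Appr.pol v (q i))))
    exact Appr.exp v h1
  -- the finite set of words
  have hfin : {w : FreeGroup (Fin (d + 1)) | w.norm ≤ N}.Finite := by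
    have h1 : {w : FreeGroup (Fin (d + 1)) | w.norm ≤ N} ⊆
        FreeGroup.mk '' {l : List (Fin (d + 1) × Bool) | l.length ≤ N} := by
      intro w hw
      exact ⟨w.toWord, hw, FreeGroup.mk_toWord⟩
    exact (List.finite_length_le _ N).image _ |>.subset h1
  let 𝒲 : Finset (FreeGroup (Fin (d + 1))) := hfin.toFinset
  have htr1 : ∀ w : FreeGroup (Fin (d + 1)), ∃ f : FreeGroup (Fin M) →₀ ℂ,
      ∀ (k : ℕ), 0 < k → ∀ U : Fin M → UU k,
      ‖ntr (FG.pol U f : Mat k) - f 1‖ < κ / 2 / 3 →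
        ‖ntr (wd (x k U) w : Mat k) - tau (wd X w)‖ < κ / 2 := fun w =>
    appr_tr' v hfree (appr_wd v x X hx w) (κ / 2) (by positivity)
  choose f hf using htr1
  have htr2 : ∀ j : Fin m, ∃ f : FreeGroup (Fin M) →₀ ℂ,
      ∀ (k : ℕ), 0 < k → ∀ U : Fin M → UU k,
      ‖ntr (FG.pol U f : Mat k) - f 1‖ < σ j ^ 2 / 3 →
        ‖ntr (((pol (x k U) (F j) : Mat k) - (U (J j) : Mat k))ᴴ *
          ((pol (x k U) (F j) : Mat k) - (U (J j) : Mat k))) -
          tau (star (pol X (F j) - (v (J j) : Ell (FreeGroup (Fin (d + 1))) →L[ℂ]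
            Ell (FreeGroup (Fin (d + 1))))) * (pol X (F j) -
            (v (J j) : Ell (FreeGroup (Fin (d + 1))) →L[ℂ] Ell (FreeGroup (Fin (d + 1))))))‖ <
          σ j ^ 2 := fun j => by
    have h1 : Appr v (fun k U => (pol (x k U) (F j) : Mat k) - (U (J j) : Mat k))
        (pol X (F j) - (v (J j) : Ell (FreeGroup (Fin (d + 1))) →L[ℂ] Ell (FreeGroup (Fin (d + 1))))) :=
      appr_sub v (appr_pol v x X hx (F j)) (appr_var v (J j))
    have h2 := hσ j
    exact appr_tr' v hfree (Appr.mul v (Appr.star v h1) h1) (σ j ^ 2) (by positivity)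
  choose f' hf' using htr2
  have hset := om_set M (ι := 𝒲 ⊕ Fin m)
    (Sum.elim (fun w => f w.1) f')
    (Sum.elim (fun _ => κ / 2 / 3 / 2) (fun j => σ j ^ 2 / 3 / 2)) (by
      rintro (w | j)
      · simp only [Sum.elim_inl]; positivity
      · have := hσ j
        simp only [Sum.elim_inr]; positivity)
  filter_upwards [hset, eventually_gt_atTop 0] with k hk hk0
  set T : Set (Fin M → UU k) := {u | ∀ i : 𝒲 ⊕ Fin m,
    ‖ntr (pol u (Sum.elim (fun w => f w.1) f' i) : Mat k) - Sum.elim (fun w => f w.1) f' i 1‖ ≤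
      Sum.elim (fun _ => κ / 2 / 3 / 2) (fun j => σ j ^ 2 / 3 / 2) i} with hT
  have hTclosed : IsClosed T := by
    have : T = ⋂ i : 𝒲 ⊕ Fin m, {u : Fin M → UU k |
      ‖ntr (pol u (Sum.elim (fun w => f w.1) f' i) : Mat k) - Sum.elim (fun w => f w.1) f' i 1‖ ≤
        Sum.elim (fun _ => κ / 2 / 3 / 2) (fun j => σ j ^ 2 / 3 / 2) i} := by
      ext u; simp [hT]
    rw [this]
    refine isClosed_iInter fun i => isClosed_le ?_ continuous_const
    exact ((continuous_ntr.comp (continuous_pol _)).sub continuous_const).norm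
  obtain ⟨hS1, hS2⟩ := proj_closed k m M J hJ T hTclosed
  refine ⟨_, hS1, le_trans (hk.2.trans (measure_mono fun u hu i => (hu i).le)) hS2, ?_⟩
  rintro _ ⟨u, hu, rfl⟩
  refine ⟨x k u, ?_, fun j => ?_⟩
  · intro w hw hwN
    have hwW : w ∈ 𝒲 := by
      simp only [𝒲, Set.Finite.mem_toFinset, Set.mem_setOf_eq]
      exact hwN
    have h1 := hf w k hk0 u (lt_of_le_of_lt (hu (Sum.inl ⟨w, hwW⟩)) (by
      simp only [Sum.elim_inl]; linarith))
    have h2 := htau w hw hwN
    have h3 : ntr (wd (x k u) w : Mat k) =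
        (ntr (wd (x k u) w : Mat k) - tau (wd X w)) + tau (wd X w) := by ring
    rw [h3]
    refine (norm_add_le _ _).trans ?_
    linarith
  · have h1 := hf' j k hk0 u (lt_of_le_of_lt (hu (Sum.inr j)) (by
      have := hσ j
      simp only [Sum.elim_inr]; nlinarith [sq_nonneg (σ j), mul_pos this this]))
    rw [om_tau_star_mul, ← hs_sq_tr, ← Complex.ofReal_sub, Complex.norm_real, Real.norm_eq_abs,
      abs_lt] at h1
    have h2 := hpolX j
    have h3 : ‖(pol X (F j) -
      (v (J j) : Ell (FreeGroup (Fin (d + 1))) →L[ℂ] Ell (FreeGroup (Fin (d + 1))))) (delta 1)‖ ^ 2 ≤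
      (3 / 2 * σ j) ^ 2 := pow_le_pow_left₀ (norm_nonneg _) h2 2
    have h4 := hσ j
    have h5 : hs ((pol (x k u) (F j) : Mat k) - (u (J j) : Mat k)) ^ 2 ≤ (2 * σ j) ^ 2 := by
      have h6 : 0 < σ j ^ 2 := by positivity
      nlinarith [h1.2]
    exact le_of_pow_le_pow_left₀ (by norm_num) (by positivity) h5

end Pool.Agent.H667R2.FG.GOM
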