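import Mathlib
import Pool.Agent.H667R2.FG.Defs
import Pool.Agent.H667R2.FG.OpDefs
import Pool.Agent.H667R2.FG.Herm
import Pool.Agent.H667R2.FG.TL2
import Pool.Agent.H667R2.FG.LamE

/-! Task CORE. -/

namespace Pool.Agent.H667R2.FG.TCORE

open MeasureTheory Matrix Filter
open scoped Matrix.Norms.L2Operator ComplexConjugate ENNReal InnerProductSpace

section
variable {G : Type}

theorem core_inner_delta (g : G) (y : Ell G) : ⟪(delta g : Ell G), y⟫_ℂ = y g := by
  letI := Classical.decEq G
  exact (lp.inner_single_left (𝕜 := ℂ) (G := fun _ : G => ℂ) g (1 : ℂ) y).trans (by simp)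

theorem core_single (g : G) (c : ℂ) :
    @lp.single G (fun _ : G => ℂ) _ (Classical.decEq G) 2 g c = c • (delta g : Ell G) := by
  classical
  ext k
  show _ = c * (delta g : Ell G) k
  by_cases hk : k = g
  · subst hk
    rw [@lp.single_apply_self G (fun _ : G => ℂ) _ (Classical.decEq G) 2 k c]
    have : (delta k : Ell G) k = 1 :=
      @lp.single_apply_self G (fun _ : G => ℂ) _ (Classical.decEq G) 2 k (1 : ℂ)
    rw [this, mul_one]
  · rw [@lp.single_apply_ne G (fun _ : G => ℂ) _ (Classical.decEq G) 2 g c k hk]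
    have : (delta g : Ell G) k = 0 :=
      @lp.single_apply_ne G (fun _ : G => ℂ) _ (Classical.decEq G) 2 g (1 : ℂ) k hk
    rw [this, mul_zero]

theorem core_dense_delta (ξ : Ell G) (ε : ℝ) (hε : 0 < ε) :
    ∃ f : G →₀ ℂ, ‖ξ - Finsupp.linearCombination ℂ (delta : G → Ell G) f‖ < ε := by
  have h := @lp.hasSum_single G (fun _ : G => ℂ) 2 _ (Classical.decEq G) _ ENNReal.ofNat_ne_top ξ
  have h2 := (h.eventually (Metric.ball_mem_nhds ξ hε)).exists
  obtain ⟨s, hs⟩ := h2
  refine ⟨∑ i ∈ s, Finsupp.single i (ξ i), ?_⟩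
  rw [map_sum]
  simp only [Finsupp.linearCombination_single]
  have hs : ‖ξ - ∑ i ∈ s, @lp.single G (fun _ : G => ℂ) _ (Classical.decEq G) 2 i (ξ i)‖ < ε := by
    rw [norm_sub_rev, ← dist_eq_norm]
    exact hs
  have e : ∑ i ∈ s, @lp.single G (fun _ : G => ℂ) _ (Classical.decEq G) 2 i (ξ i)
      = ∑ i ∈ s, ξ i • (delta i : Ell G) :=
    Finset.sum_congr rfl fun i _ => core_single i (ξ i)
  rw [e] at hs
  exact hs

variable [Group G]

theorem core_tau_star_mul (y : Ell G →L[ℂ] Ell G) :
    tau (star y * y) = ((‖y (delta 1)‖ ^ 2 : ℝ) : ℂ) := by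
  have h1 : tau (star y * y) = ⟪(delta (1 : G) : Ell G), (star y * y) (delta 1)⟫_ℂ := by
    rw [core_inner_delta]
    rfl
  have h2 : ⟪(delta (1 : G) : Ell G), (star y * y) (delta 1)⟫_ℂ
      = ⟪y (delta 1), y (delta 1)⟫_ℂ := by
    rw [ContinuousLinearMap.star_eq_adjoint]
    exact ContinuousLinearMap.adjoint_inner_right y (delta 1) (y (delta 1))
  rw [h1, h2, inner_self_eq_norm_sq_to_K]
  push_cast
  rfl

end

/-! ## Task CORE -/

theorem core_lamE_mul {G : Type} [Group G] (g h : G) : lamE (g * h) = lamE g * lamE h := by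
  apply Subtype.ext
  exact lam_mul g h

theorem core_lamE_one {G : Type} [Group G] : lamE (1 : G) = 1 := by
  apply Subtype.ext
  exact lam_one

theorem core_star_lamE {G : Type} [Group G] (g : G) : star (lamE g) = lamE g⁻¹ := by
  apply Subtype.ext
  exact star_lam g

theorem core_facts {A B : Type} [Ring A] [StarRing A] [Algebra ℂ A] [Ring B] [StarRing B]
    [Algebra ℂ B] (θ : A ≃⋆ₐ[ℂ] B) :
    (∀ x y, θ (x * y) = θ x * θ y) ∧ (∀ x, θ (star x) = star (θ x)) ∧ θ 1 = 1 ∧
      (∀ x y, θ (x - y) = θ x - θ y) ∧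
      (∀ (I : Type) (u : I → A) (f : I →₀ ℂ), θ (Finsupp.linearCombination ℂ u f)
        = Finsupp.linearCombination ℂ (fun i => θ (u i)) f) := by
  refine ⟨fun x y => map_mul θ x y, fun x => map_star θ x, map_one θ, fun x y => map_sub θ x y, ?_⟩
  intro I u f
  rw [Finsupp.linearCombination_apply, Finsupp.linearCombination_apply, Finsupp.sum, Finsupp.sum,
    map_sum]
  exact Finset.sum_congr rfl fun i _ => map_smul θ _ _

theorem core_lin {H : Type} [NormedAddCommGroup H] [InnerProductSpace ℂ H] [CompleteSpace H]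
    (S : StarSubalgebra ℂ (H →L[ℂ] H)) {I : Type} (u : I → S) (f : I →₀ ℂ) (ξ : H) :
    ((Finsupp.linearCombination ℂ u f : S) : H →L[ℂ] H) ξ
      = Finsupp.linearCombination ℂ (fun i => (u i : H →L[ℂ] H) ξ) f := by
  rw [Finsupp.linearCombination_apply, Finsupp.linearCombination_apply, Finsupp.sum, Finsupp.sum]
  rw [AddSubmonoidClass.coe_finset_sum, ContinuousLinearMap.sum_apply]
  rfl

theorem core_of_iso (m n : ℕ) (θ : EltG (FreeGroup (Fin m)) ≃⋆ₐ[ℂ] EltG (FreeGroup (Fin n)))
    (hθ : ∀ x : EltG (FreeGroup (Fin m)),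
      tau (θ x : Ell (FreeGroup (Fin n)) →L[ℂ] Ell (FreeGroup (Fin n)))
        = tau (x : Ell (FreeGroup (Fin m)) →L[ℂ] Ell (FreeGroup (Fin m)))) :
    ∃ v : Fin m → unitary (Ell (FreeGroup (Fin n)) →L[ℂ] Ell (FreeGroup (Fin n))),
      (∀ j, (v j : Ell (FreeGroup (Fin n)) →L[ℂ] Ell (FreeGroup (Fin n)))
        = (θ (lamE (FreeGroup.of j)) : Ell (FreeGroup (Fin n)) →L[ℂ] Ell (FreeGroup (Fin n)))) ∧
      Core m n v := by
  classical
  obtain ⟨tmul, tstar, tone, tsub, tlin⟩ := core_facts θ
  -- unitaries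
  have hun : ∀ w : FreeGroup (Fin m),
      ((θ (lamE w) : EltG (FreeGroup (Fin n))) :
        Ell (FreeGroup (Fin n)) →L[ℂ] Ell (FreeGroup (Fin n))) ∈
        unitary (Ell (FreeGroup (Fin n)) →L[ℂ] Ell (FreeGroup (Fin n))) := by
    intro w
    have h1 : star (θ (lamE w)) * θ (lamE w) = 1 := by
      rw [← tstar, ← tmul, core_star_lamE, ← core_lamE_mul, inv_mul_cancel, core_lamE_one,
        tone]
    have h2 : θ (lamE w) * star (θ (lamE w)) = 1 := by
      rw [← tstar, ← tmul, core_star_lamE, ← core_lamE_mul, mul_inv_cancel, core_lamE_one,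
        tone]
    rw [Unitary.mem_iff]
    exact ⟨congrArg Subtype.val h1, congrArg Subtype.val h2⟩
  let Φ : FreeGroup (Fin m) →* unitary (Ell (FreeGroup (Fin n)) →L[ℂ] Ell (FreeGroup (Fin n))) :=
    { toFun := fun w => ⟨(θ (lamE w) : EltG (FreeGroup (Fin n))), hun w⟩
      map_one' := by
        apply Subtype.ext
        show ((θ (lamE 1) : EltG (FreeGroup (Fin n))) :
          Ell (FreeGroup (Fin n)) →L[ℂ] Ell (FreeGroup (Fin n))) = 1
        rw [core_lamE_one, tone]
        rfl
      map_mul' := fun g h => by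
        apply Subtype.ext
        show ((θ (lamE (g * h)) : EltG (FreeGroup (Fin n))) :
          Ell (FreeGroup (Fin n)) →L[ℂ] Ell (FreeGroup (Fin n)))
          = (θ (lamE g) : EltG (FreeGroup (Fin n))) * (θ (lamE h) : EltG (FreeGroup (Fin n)))
        rw [core_lamE_mul, tmul]
        rfl }
  let v : Fin m → unitary (Ell (FreeGroup (Fin n)) →L[ℂ] Ell (FreeGroup (Fin n))) :=
    fun j => Φ (FreeGroup.of j)
  have hwd : ∀ w : FreeGroup (Fin m), wd v w
      = ((θ (lamE w) : EltG (FreeGroup (Fin n))) :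
        Ell (FreeGroup (Fin n)) →L[ℂ] Ell (FreeGroup (Fin n))) := by
    intro w
    have hlift : FreeGroup.lift v = Φ := by
      apply FreeGroup.ext_hom
      intro a
      rw [FreeGroup.lift_apply_of]
    unfold wd
    rw [hlift]
    rfl
  refine ⟨v, fun j => rfl, ?_, ?_, ?_⟩
  · intro j g
    exact comm_rho _ (θ (lamE (FreeGroup.of j))).2 g
  · intro w hw
    rw [hwd, hθ]
    show (lam w (delta 1)) 1 = 0
    rw [lam_delta, mul_one, delta_apply, if_neg (Ne.symm hw)]
  · -- density
    -- the isometry identity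
    have hnorm : ∀ y : EltG (FreeGroup (Fin m)),
        ‖(θ y : Ell (FreeGroup (Fin n)) →L[ℂ] Ell (FreeGroup (Fin n))) (delta 1)‖
          = ‖(y : Ell (FreeGroup (Fin m)) →L[ℂ] Ell (FreeGroup (Fin m))) (delta 1)‖ := by
      intro y
      have h1 := core_tau_star_mul
        (θ y : Ell (FreeGroup (Fin n)) →L[ℂ] Ell (FreeGroup (Fin n)))
      have h2 := core_tau_star_mul
        (y : Ell (FreeGroup (Fin m)) →L[ℂ] Ell (FreeGroup (Fin m)))
      have h3 := hθ (star y * y)
      have h4 : ((θ (star y * y) : EltG (FreeGroup (Fin n))) :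
          Ell (FreeGroup (Fin n)) →L[ℂ] Ell (FreeGroup (Fin n)))
          = star (θ y : Ell (FreeGroup (Fin n)) →L[ℂ] Ell (FreeGroup (Fin n))) * (θ y) := by
        rw [tmul, tstar]
        rfl
      have h5 : ((star y * y : EltG (FreeGroup (Fin m))) :
          Ell (FreeGroup (Fin m)) →L[ℂ] Ell (FreeGroup (Fin m)))
          = star (y : Ell (FreeGroup (Fin m)) →L[ℂ] Ell (FreeGroup (Fin m))) * y := rfl
      rw [h4, h5, h1, h2] at h3
      have h6 := Complex.ofReal_injective h3
      exact (pow_left_inj₀ (norm_nonneg _) (norm_nonneg _) two_ne_zero).1 h6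
    let Λ : (FreeGroup (Fin m) →₀ ℂ) →ₗ[ℂ] Ell (FreeGroup (Fin n)) :=
      Finsupp.linearCombination ℂ (fun w => (wd v w) (delta 1))
    have hΛ : ∀ f, (pol v f) (delta 1) = Λ f := by
      intro f
      rw [Finsupp.linearCombination_apply]
      unfold pol Finsupp.sum
      rw [ContinuousLinearMap.sum_apply]
      rfl
    have hcl : ∀ g : FreeGroup (Fin n),
        (delta g : Ell (FreeGroup (Fin n))) ∈ (LinearMap.range Λ).topologicalClosure := by
      intro g
      show (delta g : Ell (FreeGroup (Fin n))) ∈ closure ((LinearMap.range Λ :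
        Submodule ℂ (Ell (FreeGroup (Fin n)))) : Set (Ell (FreeGroup (Fin n))))
      rw [Metric.mem_closure_iff]
      intro ε hε
      set x : EltG (FreeGroup (Fin m)) := θ.symm (lamE g) with hx
      obtain ⟨f, hf⟩ := core_dense_delta
        ((x : Ell (FreeGroup (Fin m)) →L[ℂ] Ell (FreeGroup (Fin m))) (delta 1)) ε hε
      refine ⟨Λ f, ⟨f, rfl⟩, ?_⟩
      let y : EltG (FreeGroup (Fin m)) := x - Finsupp.linearCombination ℂ lamE f
      have hy : (y : Ell (FreeGroup (Fin m)) →L[ℂ] Ell (FreeGroup (Fin m))) (delta 1)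
          = (x : Ell (FreeGroup (Fin m)) →L[ℂ] Ell (FreeGroup (Fin m))) (delta 1)
            - Finsupp.linearCombination ℂ
              (delta : FreeGroup (Fin m) → Ell (FreeGroup (Fin m))) f := by
        show (x : Ell (FreeGroup (Fin m)) →L[ℂ] Ell (FreeGroup (Fin m))) (delta 1)
          - ((Finsupp.linearCombination ℂ lamE f : EltG (FreeGroup (Fin m))) :
            Ell (FreeGroup (Fin m)) →L[ℂ] Ell (FreeGroup (Fin m))) (delta 1) = _
        rw [core_lin]
        have efun : (fun w : FreeGroup (Fin m) => ((lamE w : EltG (FreeGroup (Fin m))) :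
            Ell (FreeGroup (Fin m)) →L[ℂ] Ell (FreeGroup (Fin m))) (delta 1))
            = (delta : FreeGroup (Fin m) → Ell (FreeGroup (Fin m))) := by
          funext w
          show lam w (delta 1) = delta w
          rw [lam_delta, mul_one]
        rw [efun]
      have hθy : θ y = lamE g - Finsupp.linearCombination ℂ (fun w => θ (lamE w)) f := by
        rw [tsub, tlin, hx]
        congr 1
        exact θ.apply_symm_apply _
      have hθy' : (θ y : Ell (FreeGroup (Fin n)) →L[ℂ] Ell (FreeGroup (Fin n))) (delta 1)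
          = delta g - Λ f := by
        rw [hθy]
        show (lam g) (delta 1) - ((Finsupp.linearCombination ℂ (fun w => θ (lamE w)) f :
          EltG (FreeGroup (Fin n))) : Ell (FreeGroup (Fin n)) →L[ℂ] Ell (FreeGroup (Fin n)))
            (delta 1) = _
        rw [core_lin, lam_delta, mul_one]
        have efun : (fun w : FreeGroup (Fin m) => ((θ (lamE w) : EltG (FreeGroup (Fin n))) :
            Ell (FreeGroup (Fin n)) →L[ℂ] Ell (FreeGroup (Fin n))) (delta 1))
            = (fun w => (wd v w) (delta 1)) := by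
          funext w
          rw [hwd]
        rw [efun]
      rw [dist_eq_norm, ← hθy', hnorm, hy]
      exact hf
    intro ξ ε hε
    have hmem : ξ ∈ (LinearMap.range Λ).topologicalClosure := by
      show ξ ∈ closure ((LinearMap.range Λ :
        Submodule ℂ (Ell (FreeGroup (Fin n)))) : Set (Ell (FreeGroup (Fin n))))
      have hclosed : IsClosed (((LinearMap.range Λ).topologicalClosure :
        Submodule ℂ (Ell (FreeGroup (Fin n)))) : Set (Ell (FreeGroup (Fin n)))) :=
        Submodule.isClosed_topologicalClosure _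
      have : ξ ∈ closure (((LinearMap.range Λ).topologicalClosure :
        Submodule ℂ (Ell (FreeGroup (Fin n)))) : Set (Ell (FreeGroup (Fin n)))) := by
        rw [Metric.mem_closure_iff]
        intro δ hδ
        obtain ⟨f, hf⟩ := core_dense_delta ξ δ hδ
        refine ⟨_, ?_, by rw [dist_eq_norm]; exact hf⟩
        rw [Finsupp.linearCombination_apply]
        exact Submodule.sum_mem _ fun g _ => Submodule.smul_mem _ _ (hcl g)
      rw [hclosed.closure_eq] at this
      exact this
    have hmem' : ξ ∈ closure ((LinearMap.range Λ :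
        Submodule ℂ (Ell (FreeGroup (Fin n)))) : Set (Ell (FreeGroup (Fin n)))) := hmem
    rw [Metric.mem_closure_iff] at hmem'
    obtain ⟨_, ⟨f, rfl⟩, hf⟩ := hmem' ε hε
    refine ⟨f, ?_⟩
    rw [hΛ, ← dist_eq_norm]
    exact hf

end Pool.Agent.H667R2.FG.TCORE

namespace Pool.Agent.H667R2.FG

alias core_of_iso := TCORE.core_of_iso

end Pool.Agent.H667R2.FG
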