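import Mathlib
import Pool.Agent.H667R2.FG.TCORE
import Pool.Agent.H667R2.FG.GOM

/-! From a trace preserving isomorphism to the data of `CoreG`. -/

namespace Pool.Agent.H667R2.FG.GCORE

open MeasureTheory Matrix Filter
open scoped Matrix.Norms.L2Operator ComplexConjugate ENNReal InnerProductSpace
open TCORE

theorem core_of_isoG {ι : Type} (n : ℕ) (θ : EltG (FreeGroup ι) ≃⋆ₐ[ℂ] EltG (FreeGroup (Fin n)))
    (hθ : ∀ x : EltG (FreeGroup ι),
      tau (θ x : Ell (FreeGroup (Fin n)) →L[ℂ] Ell (FreeGroup (Fin n)))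
        = tau (x : Ell (FreeGroup ι) →L[ℂ] Ell (FreeGroup ι))) :
    ∃ v : ι → unitary (Ell (FreeGroup (Fin n)) →L[ℂ] Ell (FreeGroup (Fin n))),
      (∀ j, (v j : Ell (FreeGroup (Fin n)) →L[ℂ] Ell (FreeGroup (Fin n)))
        = (θ (lamE (FreeGroup.of j)) : Ell (FreeGroup (Fin n)) →L[ℂ] Ell (FreeGroup (Fin n)))) ∧
      GOM.CoreG n v := by
  classical
  obtain ⟨tmul, tstar, tone, tsub, tlin⟩ := core_facts θ
  -- unitaries
  have hun : ∀ w : FreeGroup ι,
      ((θ (lamE w) : EltG (FreeGroup (Fin n))) :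
        Ell (FreeGroup (Fin n)) →L[ℂ] Ell (FreeGroup (Fin n))) ∈
        unitary (Ell (FreeGroup (Fin n)) →L[ℂ] Ell (FreeGroup (Fin n))) := by
    intro w
    have h1 : star (θ (lamE w)) * θ (lamE w) = 1 := by
      rw [← tstar, ← tmul, core_star_lamE, ← core_lamE_mul, inv_mul_cancel, core_lamE_one,
        tone]
    have h2 : θ (lamE w) * star (θ (lamE w)) = 1 := by
      rw [← tstar, ← tmul, core_star_lamE, ← core_lamE_mul, mul_inv_cancel, core_lamE_one,
        tone]
    rw [Unitary.mem_iff]
    exact ⟨congrArg Subtype.val h1, congrArg Subtype.val h2⟩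
  let Φ : FreeGroup ι →* unitary (Ell (FreeGroup (Fin n)) →L[ℂ] Ell (FreeGroup (Fin n))) :=
    { toFun := fun w => ⟨(θ (lamE w) : EltG (FreeGroup (Fin n))), hun w⟩
      map_one' := by
        apply Subtype.ext
        show ((θ (lamE 1) : EltG (FreeGroup (Fin n))) :
          Ell (FreeGroup (Fin n)) →L[ℂ] Ell (FreeGroup (Fin n))) = 1
        rw [core_lamE_one, tone]
        rfl
      map_mul' := fun g h => by
        apply Subtype.ext
        show ((θ (lamE (g * h)) : EltG (FreeGroup (Fin n))) :
          Ell (FreeGroup (Fin n)) →L[ℂ] Ell (FreeGroup (Fin n)))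
          = (θ (lamE g) : EltG (FreeGroup (Fin n))) * (θ (lamE h) : EltG (FreeGroup (Fin n)))
        rw [core_lamE_mul, tmul]
        rfl }
  let v : ι → unitary (Ell (FreeGroup (Fin n)) →L[ℂ] Ell (FreeGroup (Fin n))) :=
    fun j => Φ (FreeGroup.of j)
  have hwd : ∀ w : FreeGroup ι, wd v w
      = ((θ (lamE w) : EltG (FreeGroup (Fin n))) :
        Ell (FreeGroup (Fin n)) →L[ℂ] Ell (FreeGroup (Fin n))) := by
    intro w
    have hlift : FreeGroup.lift v = Φ := by
      apply FreeGroup.ext_hom
      intro a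
      rw [FreeGroup.lift_apply_of]
    unfold wd
    rw [hlift]
    rfl
  refine ⟨v, fun j => rfl, ?_, ?_, ?_⟩
  · intro j g
    exact comm_rho _ (θ (lamE (FreeGroup.of j))).2 g
  · intro w hw
    rw [hwd, hθ]
    show (lam w (delta 1)) 1 = 0
    rw [lam_delta, mul_one, delta_apply, if_neg (Ne.symm hw)]
  · -- density
    -- the isometry identity
    have hnorm : ∀ y : EltG (FreeGroup ι),
        ‖(θ y : Ell (FreeGroup (Fin n)) →L[ℂ] Ell (FreeGroup (Fin n))) (delta 1)‖
          = ‖(y : Ell (FreeGroup ι) →L[ℂ] Ell (FreeGroup ι)) (delta 1)‖ := by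
      intro y
      have h1 := core_tau_star_mul
        (θ y : Ell (FreeGroup (Fin n)) →L[ℂ] Ell (FreeGroup (Fin n)))
      have h2 := core_tau_star_mul
        (y : Ell (FreeGroup ι) →L[ℂ] Ell (FreeGroup ι))
      have h3 := hθ (star y * y)
      have h4 : ((θ (star y * y) : EltG (FreeGroup (Fin n))) :
          Ell (FreeGroup (Fin n)) →L[ℂ] Ell (FreeGroup (Fin n)))
          = star (θ y : Ell (FreeGroup (Fin n)) →L[ℂ] Ell (FreeGroup (Fin n))) * (θ y) := by
        rw [tmul, tstar]
        rfl
      have h5 : ((star y * y : EltG (FreeGroup ι)) :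
          Ell (FreeGroup ι) →L[ℂ] Ell (FreeGroup ι))
          = star (y : Ell (FreeGroup ι) →L[ℂ] Ell (FreeGroup ι)) * y := rfl
      rw [h4, h5, h1, h2] at h3
      have h6 := Complex.ofReal_injective h3
      exact (pow_left_inj₀ (norm_nonneg _) (norm_nonneg _) two_ne_zero).1 h6
    let Λ : (FreeGroup ι →₀ ℂ) →ₗ[ℂ] Ell (FreeGroup (Fin n)) :=
      Finsupp.linearCombination ℂ (fun w => (wd v w) (delta 1))
    have hΛ : ∀ f, (pol v f) (delta 1) = Λ f := by
      intro f
      rw [Finsupp.linearCombination_apply]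
      unfold pol Finsupp.sum
      rw [ContinuousLinearMap.sum_apply]
      rfl
    have hcl : ∀ g : FreeGroup (Fin n),
        (delta g : Ell (FreeGroup (Fin n))) ∈ (LinearMap.range Λ).topologicalClosure := by
      intro g
      show (delta g : Ell (FreeGroup (Fin n))) ∈ closure ((LinearMap.range Λ :
        Submodule ℂ (Ell (FreeGroup (Fin n)))) : Set (Ell (FreeGroup (Fin n))))
      rw [Metric.mem_closure_iff]
      intro ε hε
      set x : EltG (FreeGroup ι) := θ.symm (lamE g) with hx
      obtain ⟨f, hf⟩ := core_dense_delta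
        ((x : Ell (FreeGroup ι) →L[ℂ] Ell (FreeGroup ι)) (delta 1)) ε hε
      refine ⟨Λ f, ⟨f, rfl⟩, ?_⟩
      let y : EltG (FreeGroup ι) := x - Finsupp.linearCombination ℂ lamE f
      have hy : (y : Ell (FreeGroup ι) →L[ℂ] Ell (FreeGroup ι)) (delta 1)
          = (x : Ell (FreeGroup ι) →L[ℂ] Ell (FreeGroup ι)) (delta 1)
            - Finsupp.linearCombination ℂ
              (delta : FreeGroup ι → Ell (FreeGroup ι)) f := by
        show (x : Ell (FreeGroup ι) →L[ℂ] Ell (FreeGroup ι)) (delta 1)
          - ((Finsupp.linearCombination ℂ lamE f : EltG (FreeGroup ι)) :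
            Ell (FreeGroup ι) →L[ℂ] Ell (FreeGroup ι)) (delta 1) = _
        rw [core_lin]
        have efun : (fun w : FreeGroup ι => ((lamE w : EltG (FreeGroup ι)) :
            Ell (FreeGroup ι) →L[ℂ] Ell (FreeGroup ι)) (delta 1))
            = (delta : FreeGroup ι → Ell (FreeGroup ι)) := by
          funext w
          show lam w (delta 1) = delta w
          rw [lam_delta, mul_one]
        rw [efun]
      have hθy : θ y = lamE g - Finsupp.linearCombination ℂ (fun w => θ (lamE w)) f := by
        rw [tsub, tlin, hx]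
        congr 1
        exact θ.apply_symm_apply _
      have hθy' : (θ y : Ell (FreeGroup (Fin n)) →L[ℂ] Ell (FreeGroup (Fin n))) (delta 1)
          = delta g - Λ f := by
        rw [hθy]
        show (lam g) (delta 1) - ((Finsupp.linearCombination ℂ (fun w => θ (lamE w)) f :
          EltG (FreeGroup (Fin n))) : Ell (FreeGroup (Fin n)) →L[ℂ] Ell (FreeGroup (Fin n)))
            (delta 1) = _
        rw [core_lin, lam_delta, mul_one]
        have efun : (fun w : FreeGroup ι => ((θ (lamE w) : EltG (FreeGroup (Fin n))) :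
            Ell (FreeGroup (Fin n)) →L[ℂ] Ell (FreeGroup (Fin n))) (delta 1))
            = (fun w => (wd v w) (delta 1)) := by
          funext w
          rw [hwd]
        rw [efun]
      rw [dist_eq_norm, ← hθy', hnorm, hy]
      exact hf
    intro ξ ε hε
    have hmem : ξ ∈ (LinearMap.range Λ).topologicalClosure := by
      show ξ ∈ closure ((LinearMap.range Λ :
        Submodule ℂ (Ell (FreeGroup (Fin n)))) : Set (Ell (FreeGroup (Fin n))))
      have hclosed : IsClosed (((LinearMap.range Λ).topologicalClosure :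
        Submodule ℂ (Ell (FreeGroup (Fin n)))) : Set (Ell (FreeGroup (Fin n)))) :=
        Submodule.isClosed_topologicalClosure _
      have : ξ ∈ closure (((LinearMap.range Λ).topologicalClosure :
        Submodule ℂ (Ell (FreeGroup (Fin n)))) : Set (Ell (FreeGroup (Fin n)))) := by
        rw [Metric.mem_closure_iff]
        intro δ hδ
        obtain ⟨f, hf⟩ := core_dense_delta ξ δ hδ
        refine ⟨_, ?_, by rw [dist_eq_norm]; exact hf⟩
        rw [Finsupp.linearCombination_apply]
        exact Submodule.sum_mem _ fun g _ => Submodule.smul_mem _ _ (hcl g)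
      rw [hclosed.closure_eq] at this
      exact this
    have hmem' : ξ ∈ closure ((LinearMap.range Λ :
        Submodule ℂ (Ell (FreeGroup (Fin n)))) : Set (Ell (FreeGroup (Fin n)))) := hmem
    rw [Metric.mem_closure_iff] at hmem'
    obtain ⟨_, ⟨f, rfl⟩, hf⟩ := hmem' ε hε
    refine ⟨f, ?_⟩
    rw [hΛ, ← dist_eq_norm]
    exact hf

end Pool.Agent.H667R2.FG.GCORE
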