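import Mathlib
import Pool.Agent.H667R2.FG.Defs
import Pool.Agent.H667R2.FG.OpDefs
import Pool.Agent.H667R2.FG.Herm
import Pool.Agent.H667R2.FG.TL2

/-! Task TPOW: Powers averaging in the free group (helper989). -/

namespace Pool.Agent.H667R2.FG.TTPOW

open Matrix Filter
open scoped ComplexConjugate Topology

namespace Pow

section hilbert

variable {G : Type}

theorem two_pos' : (0 : ℝ) < (2 : ENNReal).toReal := by norm_num

open Classical in
/-- restriction of a square summable function to a set -/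
noncomputable def cut (S : Set G) (f : Ell G) : Ell G :=
  ⟨fun g => if g ∈ S then f g else 0, by
    have h1 := (lp.memℓp f).summable two_pos'
    refine memℓp_gen ?_
    refine Summable.of_nonneg_of_le (fun g => by positivity) (fun g => ?_) h1
    split_ifs
    · exact le_rfl
    · simp⟩

open Classical in
theorem cut_apply (S : Set G) (f : Ell G) (g : G) :
    (cut S f) g = if g ∈ S then f g else 0 := rfl

theorem norm_le_of_pt {f k : Ell G} (h : ∀ g, ‖f g‖ ≤ ‖k g‖) : ‖f‖ ≤ ‖k‖ := by
  refine lp.norm_le_of_forall_sum_le two_pos' (norm_nonneg _) fun s => ?_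
  refine le_trans (Finset.sum_le_sum fun g _ => ?_) (lp.sum_rpow_le_norm_rpow two_pos' k s)
  exact Real.rpow_le_rpow (norm_nonneg _) (h g) two_pos'.le

theorem norm_cut_le (S : Set G) (f : Ell G) : ‖cut S f‖ ≤ ‖f‖ := by
  refine norm_le_of_pt fun g => ?_
  rw [cut_apply]
  split_ifs
  · exact le_rfl
  · simp

theorem norm_sub_cut_le (S : Set G) (f : Ell G) : ‖f - cut S f‖ ≤ ‖f‖ := by
  refine norm_le_of_pt fun g => ?_
  have : (f - cut S f) g = f g - (cut S f) g := rfl
  rw [this, cut_apply]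
  split_ifs
  · simp
  · simp

theorem inner_cut {S T : Set G} (h : Disjoint S T) (x y : Ell G) :
    inner ℂ (cut S x) (cut T y) = 0 := by
  rw [lp.inner_eq_tsum]
  have : ∀ g, inner ℂ ((cut S x) g) ((cut T y) g) = 0 := by
    intro g
    rw [cut_apply, cut_apply]
    by_cases h1 : g ∈ S
    · have h2 : g ∉ T := fun h3 => Set.disjoint_left.1 h h1 h3
      simp [h2]
    · simp [h1]
  rw [tsum_congr this, tsum_zero]

theorem pyth {ι : Type*} [DecidableEq ι] (s : Finset ι) (z : ι → Ell G)
    (h : ∀ i j, i ≠ j → inner ℂ (z i) (z j) = 0) :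
    ‖∑ i ∈ s, z i‖ ^ 2 = ∑ i ∈ s, ‖z i‖ ^ 2 := by
  induction s using Finset.induction_on with
  | empty => simp
  | insert a s ha ih =>
    rw [Finset.sum_insert ha, Finset.sum_insert ha, ← ih]
    have h0 : inner ℂ (z a) (∑ i ∈ s, z i) = 0 := by
      rw [inner_sum]
      refine Finset.sum_eq_zero fun i hi => h a i ?_
      rintro rfl
      exact ha hi
    have := norm_add_sq_eq_norm_sq_add_norm_sq_of_inner_eq_zero (𝕜 := ℂ) (z a) (∑ i ∈ s, z i) h0
    nlinarith

variable [Group G]

theorem lam_apply (h : G) (f : Ell G) (g : G) : (lam h f) g = f (h⁻¹ * g) := rfl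

theorem norm_lam (h : G) (f : Ell G) : ‖lam h f‖ = ‖f‖ := by
  unfold lam permOp
  simp only [LinearIsometry.coe_toContinuousLinearMap, LinearIsometry.norm_map]

theorem norm_sum_lam_le (N : ℕ) (h : Fin N → G) (A : Fin N → Set G)
    (hd : ∀ i j, i ≠ j → Disjoint (A i) (A j)) (hA : ∀ i g, g ∉ A i → h i * g ∈ A i) :
    ‖∑ i, lam (h i)‖ ≤ 2 * √N := by
  classical
  refine ContinuousLinearMap.opNorm_le_bound _ (by positivity) fun ξ => ?_
  have hdec : ∀ i, lam (h i) ξ = lam (h i) (cut (A i) ξ)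
      + cut (A i) (lam (h i) (ξ - cut (A i) ξ)) := by
    intro i
    ext g
    have e1 : (lam (h i) (cut (A i) ξ) + cut (A i) (lam (h i) (ξ - cut (A i) ξ))) g
      = (lam (h i) (cut (A i) ξ)) g + (cut (A i) (lam (h i) (ξ - cut (A i) ξ))) g := rfl
    have e2 : (ξ - cut (A i) ξ) ((h i)⁻¹ * g) = ξ ((h i)⁻¹ * g) - (cut (A i) ξ) ((h i)⁻¹ * g) := rfl
    rw [e1, cut_apply, lam_apply, lam_apply, lam_apply, e2, cut_apply]
    by_cases h1 : (h i)⁻¹ * g ∈ A i
    · simp [h1]
    · have h2 : g ∈ A i := by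
        have := hA i _ h1
        simpa using this
      simp [h1, h2]
  have hsum : (∑ i, lam (h i)) ξ = ∑ i, lam (h i) (cut (A i) ξ)
      + ∑ i, cut (A i) (lam (h i) (ξ - cut (A i) ξ)) := by
    rw [ContinuousLinearMap.sum_apply, ← Finset.sum_add_distrib]
    exact Finset.sum_congr rfl fun i _ => hdec i
  -- first part
  have hS : ∑ i, ‖cut (A i) ξ‖ ^ 2 ≤ ‖ξ‖ ^ 2 := by
    rw [← pyth Finset.univ (fun i => cut (A i) ξ) (fun i j hij => inner_cut (hd i j hij) _ _)]
    apply pow_le_pow_left₀ (norm_nonneg _)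
    refine norm_le_of_pt fun g => ?_
    have e1 : (∑ i, cut (A i) ξ) g = ∑ i, (cut (A i) ξ) g := by
      rw [lp.coeFn_sum, Finset.sum_apply]
    rw [e1]
    by_cases hex : ∃ i, g ∈ A i
    · obtain ⟨i, hi⟩ := hex
      rw [Finset.sum_eq_single i]
      · rw [cut_apply, if_pos hi]
      · intro j _ hj
        rw [cut_apply, if_neg]
        exact fun h' => Set.disjoint_left.1 (hd j i hj) h' hi
      · intro h'; exact absurd (Finset.mem_univ i) h'
    · push Not at hex
      rw [Finset.sum_eq_zero fun i _ => by rw [cut_apply, if_neg (hex i)]]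
      simp
  have h1 : ‖∑ i, lam (h i) (cut (A i) ξ)‖ ≤ √N * ‖ξ‖ := by
    refine (norm_sum_le _ _).trans ?_
    simp only [norm_lam]
    apply le_of_sq_le_sq _ (by positivity)
    rw [mul_pow, Real.sq_sqrt (Nat.cast_nonneg N)]
    have := sq_sum_le_card_mul_sum_sq (s := (Finset.univ : Finset (Fin N)))
      (f := fun i => ‖cut (A i) ξ‖)
    rw [Finset.card_univ, Fintype.card_fin] at this
    exact this.trans (mul_le_mul_of_nonneg_left hS (Nat.cast_nonneg N))
  have h2 : ‖∑ i, cut (A i) (lam (h i) (ξ - cut (A i) ξ))‖ ≤ √N * ‖ξ‖ := by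
    apply le_of_sq_le_sq _ (by positivity)
    rw [mul_pow, Real.sq_sqrt (Nat.cast_nonneg N)]
    rw [pyth Finset.univ (fun i => cut (A i) (lam (h i) (ξ - cut (A i) ξ)))
      (fun i j hij => inner_cut (hd i j hij) _ _)]
    have h3 : ∀ i ∈ (Finset.univ : Finset (Fin N)),
        ‖cut (A i) (lam (h i) (ξ - cut (A i) ξ))‖ ^ 2 ≤ ‖ξ‖ ^ 2 := by
      intro i _
      apply pow_le_pow_left₀ (norm_nonneg _)
      refine (norm_cut_le _ _).trans ?_
      rw [norm_lam]
      exact norm_sub_cut_le _ _
    refine (Finset.sum_le_sum h3).trans ?_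
    simp
  rw [hsum]
  refine (norm_add_le _ _).trans ?_
  linarith

end hilbert

section words

open FreeGroup

variable {m : ℕ}

theorem red_append {L1 L2 : List (Fin m × Bool)} (h1 : IsReduced L1) (h2 : IsReduced L2)
    (h : ∀ a ∈ L1.getLast?, ∀ b ∈ L2.head?, a.1 = b.1 → a.2 = b.2) : IsReduced (L1 ++ L2) :=
  List.isChain_append.2 ⟨h1, h2, h⟩

/-- the elements whose reduced word starts with the letter `a` or its inverse -/
def SA (a : Fin m) : Set (FreeGroup (Fin m)) := {g | ∃ e, (toWord g).head? = some (a, e)}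

theorem word_mul {L : List (Fin m × Bool)} (hL : IsReduced L) {g : FreeGroup (Fin m)}
    (h : ∀ a ∈ L.getLast?, ∀ b ∈ (toWord g).head?, a.1 = b.1 → a.2 = b.2) :
    toWord (mk L * g) = L ++ toWord g := by
  rw [toWord_mul, toWord_mk, hL.reduce_eq]
  exact (red_append hL isReduced_toWord h).reduce_eq

theorem pow_mul_notMem {a b : Fin m} (hab : a ≠ b) {n : ℕ} (hn : n ≠ 0) {u : FreeGroup (Fin m)}
    (hu : u ∈ SA a) : (FreeGroup.of b) ^ n * u ∉ SA a := by
  obtain ⟨e, he⟩ := hu
  rintro ⟨e', he'⟩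
  have hL : IsReduced (List.replicate n (b, true)) := by
    rw [← toWord_of_pow b n]; exact isReduced_toWord
  have h1 : toWord (mk (List.replicate n (b, true)) * u)
      = List.replicate n (b, true) ++ toWord u := by
    apply word_mul hL
    intro x hx y hy
    rw [he] at hy
    have hx' : x = (b, true) := by
      have := List.mem_of_getLast? hx
      exact List.eq_of_mem_replicate this
    have hy' : y = (a, e) := by simpa using hy.symm
    rw [hx', hy']
    intro h; exact absurd h.symm hab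
  have h2 : (FreeGroup.of b) ^ n = mk (List.replicate n (b, true)) := by
    rw [← toWord_of_pow b n, mk_toWord]
  rw [h2, h1] at he'
  obtain ⟨n', rfl⟩ : ∃ n', n = n' + 1 := ⟨n - 1, by omega⟩
  rw [List.replicate_succ, List.cons_append, List.head?_cons] at he'
  have := congrArg Prod.fst (Option.some.inj he')
  exact hab this.symm

/-- conjugation to a word starting and ending with `a` or its inverse -/
theorem exists_conj {a b : Fin m} (hab : a ≠ b) {w : FreeGroup (Fin m)} (hw : w ≠ 1) :
    ∃ (c : FreeGroup (Fin m)) (L : List (Fin m × Bool)), c * w * c⁻¹ = mk L ∧ IsReduced L ∧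
      (∃ e, L.head? = some (a, e)) ∧ ∃ e, L.getLast? = some (a, e) := by
  have hne : toWord w ≠ [] := fun h => hw (toWord_eq_nil_iff.1 h)
  obtain ⟨x, hx⟩ : ∃ x, (toWord w).head? = some x := by
    cases h : (toWord w) with
    | nil => exact absurd h hne
    | cons x l => exact ⟨x, by simp⟩
  obtain ⟨y, hy⟩ : ∃ y, (toWord w).getLast? = some y :=
    ⟨(toWord w).getLast hne, List.getLast?_eq_some_getLast hne⟩
  have key : ∀ C : List (Fin m × Bool), IsReduced C → IsReduced (invRev C) →
      (∃ e, C.head? = some (a, e)) → (∃ e, (invRev C).getLast? = some (a, e)) →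
      (∀ z ∈ C.getLast?, z.1 = x.1 → z.2 = x.2) →
      (∀ z ∈ (invRev C).head?, y.1 = z.1 → y.2 = z.2) →
      ∃ (c : FreeGroup (Fin m)) (L : List (Fin m × Bool)), c * w * c⁻¹ = mk L ∧ IsReduced L ∧
      (∃ e, L.head? = some (a, e)) ∧ ∃ e, L.getLast? = some (a, e) := by
    intro C hC hC' hh hl h1 h2
    have hCne : C ≠ [] := by
      rintro rfl
      obtain ⟨e, he⟩ := hh
      simp at he
    have hCne' : invRev C ≠ [] := by
      rintro h
      rw [h] at hl
      obtain ⟨e, he⟩ := hl
      simp at he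
    refine ⟨mk C, C ++ toWord w ++ invRev C, ?_, ?_, ?_, ?_⟩
    · rw [inv_mk]
      conv_lhs => rw [← mk_toWord (x := w)]
      rw [mul_mk, mul_mk]
    · apply red_append
      · apply red_append hC isReduced_toWord
        intro z hz z' hz'
        rw [hx] at hz'
        have : z' = x := by simpa using hz'.symm
        rw [this]
        exact h1 z hz
      · exact hC'
      · intro z hz z' hz'
        rw [List.getLast?_append_of_ne_nil _ hne, hy] at hz
        have : z = y := by simpa using hz.symm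
        rw [this]
        exact h2 z' hz'
    · obtain ⟨e, he⟩ := hh
      refine ⟨e, ?_⟩
      rw [List.append_assoc, List.head?_append, he]
      rfl
    · obtain ⟨e, he⟩ := hl
      refine ⟨e, ?_⟩
      rw [List.getLast?_append_of_ne_nil _ hCne', he]
  by_cases hcase : x.1 = a ∧ y.1 = a ∧ y.2 = x.2
  · -- conjugate by `a b`
    obtain ⟨hxa, hya, _⟩ := hcase
    refine key [(a, true), (b, true)] ?_ ?_ ⟨true, rfl⟩ ⟨false, ?_⟩ ?_ ?_
    · simp [FreeGroup.IsReduced, hab]
    · simp [invRev, FreeGroup.IsReduced, hab.symm]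
    · simp [invRev]
    · intro z hz
      have : z = (b, true) := by simpa using hz.symm
      rw [this, hxa]
      intro h; exact absurd h.symm hab
    · intro z hz
      have : z = (b, false) := by simpa [invRev] using hz.symm
      rw [this, hya]
      intro h; exact absurd h hab
  · -- conjugate by one letter
    obtain ⟨e, he1, he2⟩ : ∃ e : Bool, (a = x.1 → e = x.2) ∧ (y.1 = a → y.2 = !e) := by
      by_cases hxa : x.1 = a
      · refine ⟨x.2, fun _ => rfl, fun hya => ?_⟩
        have : ¬ y.2 = x.2 := fun h => hcase ⟨hxa, hya, h⟩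
        revert this
        cases y.2 <;> cases x.2 <;> simp
      · exact ⟨!y.2, fun h => absurd h.symm hxa, fun _ => by simp⟩
    refine key [(a, e)] ?_ ?_ ⟨e, rfl⟩ ⟨!e, ?_⟩ ?_ ?_
    · exact FreeGroup.IsReduced.singleton
    · simp [invRev, FreeGroup.IsReduced]
    · simp [invRev]
    · intro z hz
      have : z = (a, e) := by simpa using hz.symm
      rw [this]
      exact he1
    · intro z hz
      have : z = (a, !e) := by simpa [invRev] using hz.symm
      rw [this]
      exact he2

end words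

end Pow

open Pow in
/-- Powers averaging in the free group -/
theorem powers (m : ℕ) (hm : 2 ≤ m) (w : FreeGroup (Fin m)) (hw : w ≠ 1) (N : ℕ) :
    ∃ g : Fin N → FreeGroup (Fin m), ‖∑ i, lam (g i * w * (g i)⁻¹)‖ ≤ 2 * √N := by
  set a : Fin m := ⟨0, by omega⟩
  set b : Fin m := ⟨1, by omega⟩
  have hab : a ≠ b := by simp [a, b, Fin.ext_iff]
  obtain ⟨c, L, hL, hred, ⟨e1, he1⟩, ⟨e2, he2⟩⟩ := exists_conj hab hw
  set β : FreeGroup (Fin m) := FreeGroup.of b
  refine ⟨fun i => β ^ (i : ℕ) * c, ?_⟩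
  refine norm_sum_lam_le N _ (fun i => {g | (β ^ (i : ℕ))⁻¹ * g ∈ SA a}) ?_ ?_
  · intro i j hij
    rw [Set.disjoint_left]
    intro g hi hj
    simp only [Set.mem_setOf_eq] at hi hj
    rcases lt_or_gt_of_ne (fun h => hij (Fin.ext h) : (i : ℕ) ≠ j) with h | h
    · obtain ⟨d, hd⟩ : ∃ d, (j : ℕ) = i + d := ⟨j - i, by omega⟩
      have hd0 : d ≠ 0 := by omega
      have h1 := pow_mul_notMem hab hd0 hj
      apply h1
      have e : (FreeGroup.of b) ^ d * ((β ^ (j : ℕ))⁻¹ * g) = (β ^ (i : ℕ))⁻¹ * g := by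
        show β ^ d * ((β ^ (j : ℕ))⁻¹ * g) = (β ^ (i : ℕ))⁻¹ * g
        rw [hd, pow_add]
        group
      rw [e]
      exact hi
    · obtain ⟨d, hd⟩ : ∃ d, (i : ℕ) = j + d := ⟨i - j, by omega⟩
      have hd0 : d ≠ 0 := by omega
      have h1 := pow_mul_notMem hab hd0 hi
      apply h1
      have e : (FreeGroup.of b) ^ d * ((β ^ (i : ℕ))⁻¹ * g) = (β ^ (j : ℕ))⁻¹ * g := by
        show β ^ d * ((β ^ (i : ℕ))⁻¹ * g) = (β ^ (j : ℕ))⁻¹ * g
        rw [hd, pow_add]
        group
      rw [e]
      exact hj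
  · intro i g hg
    simp only [Set.mem_setOf_eq] at hg ⊢
    have e : (β ^ (i : ℕ))⁻¹ * (β ^ (i : ℕ) * c * w * (β ^ (i : ℕ) * c)⁻¹ * g)
        = FreeGroup.mk L * ((β ^ (i : ℕ))⁻¹ * g) := by
      rw [← hL]; group
    rw [e]
    refine ⟨e1, ?_⟩
    rw [word_mul hred]
    · rw [List.head?_append, he1]; rfl
    · intro x hx y hy
      rw [he2] at hx
      have hx' : x = (a, e2) := by simpa using hx.symm
      intro hxy
      exfalso
      apply hg
      refine ⟨y.2, ?_⟩
      rw [hx'] at hxy
      have : y = (a, y.2) := by ext <;> simp [← hxy]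
      rw [← this]
      exact hy

end Pool.Agent.H667R2.FG.TTPOW

namespace Pool.Agent.H667R2.FG

alias powers := TTPOW.powers

end Pool.Agent.H667R2.FG
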