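import Mathlib
import Pool.Agent.H667R2.FG.TTPOW

/-! Powers averaging in an arbitrary nonabelian free group. -/

namespace Pool.Agent.H667R2.FG.GPOW

open Matrix Filter
open scoped ComplexConjugate Topology
open TTPOW.Pow (norm_sum_lam_le)

section words

open FreeGroup

variable {α : Type} [DecidableEq α]

theorem red_append {L1 L2 : List (α × Bool)} (h1 : IsReduced L1) (h2 : IsReduced L2)
    (h : ∀ a ∈ L1.getLast?, ∀ b ∈ L2.head?, a.1 = b.1 → a.2 = b.2) : IsReduced (L1 ++ L2) :=
  List.isChain_append.2 ⟨h1, h2, h⟩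

/-- the elements whose reduced word starts with the letter `a` or its inverse -/
def SA (a : α) : Set (FreeGroup α) := {g | ∃ e, (toWord g).head? = some (a, e)}

theorem word_mul {L : List (α × Bool)} (hL : IsReduced L) {g : FreeGroup α}
    (h : ∀ a ∈ L.getLast?, ∀ b ∈ (toWord g).head?, a.1 = b.1 → a.2 = b.2) :
    toWord (mk L * g) = L ++ toWord g := by
  rw [toWord_mul, toWord_mk, hL.reduce_eq]
  exact (red_append hL isReduced_toWord h).reduce_eq

theorem pow_mul_notMem {a b : α} (hab : a ≠ b) {n : ℕ} (hn : n ≠ 0) {u : FreeGroup α}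
    (hu : u ∈ SA a) : (FreeGroup.of b) ^ n * u ∉ SA a := by
  obtain ⟨e, he⟩ := hu
  rintro ⟨e', he'⟩
  have hL : IsReduced (List.replicate n (b, true)) := by
    rw [← toWord_of_pow b n]; exact isReduced_toWord
  have h1 : toWord (mk (List.replicate n (b, true)) * u)
      = List.replicate n (b, true) ++ toWord u := by
    apply word_mul hL
    intro x hx y hy
    rw [he] at hy
    have hx' : x = (b, true) := by
      have := List.mem_of_getLast? hx
      exact List.eq_of_mem_replicate this
    have hy' : y = (a, e) := by simpa using hy.symm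
    rw [hx', hy']
    intro h; exact absurd h.symm hab
  have h2 : (FreeGroup.of b) ^ n = mk (List.replicate n (b, true)) := by
    rw [← toWord_of_pow b n, mk_toWord]
  rw [h2, h1] at he'
  obtain ⟨n', rfl⟩ : ∃ n', n = n' + 1 := ⟨n - 1, by omega⟩
  rw [List.replicate_succ, List.cons_append, List.head?_cons] at he'
  have := congrArg Prod.fst (Option.some.inj he')
  exact hab this.symm

/-- conjugation to a word starting and ending with `a` or its inverse -/
theorem exists_conj {a b : α} (hab : a ≠ b) {w : FreeGroup α} (hw : w ≠ 1) :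
    ∃ (c : FreeGroup α) (L : List (α × Bool)), c * w * c⁻¹ = mk L ∧ IsReduced L ∧
      (∃ e, L.head? = some (a, e)) ∧ ∃ e, L.getLast? = some (a, e) := by
  have hne : toWord w ≠ [] := fun h => hw (toWord_eq_nil_iff.1 h)
  obtain ⟨x, hx⟩ : ∃ x, (toWord w).head? = some x := by
    cases h : (toWord w) with
    | nil => exact absurd h hne
    | cons x l => exact ⟨x, by simp⟩
  obtain ⟨y, hy⟩ : ∃ y, (toWord w).getLast? = some y :=
    ⟨(toWord w).getLast hne, List.getLast?_eq_some_getLast hne⟩
  have key : ∀ C : List (α × Bool), IsReduced C → IsReduced (invRev C) →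
      (∃ e, C.head? = some (a, e)) → (∃ e, (invRev C).getLast? = some (a, e)) →
      (∀ z ∈ C.getLast?, z.1 = x.1 → z.2 = x.2) →
      (∀ z ∈ (invRev C).head?, y.1 = z.1 → y.2 = z.2) →
      ∃ (c : FreeGroup α) (L : List (α × Bool)), c * w * c⁻¹ = mk L ∧ IsReduced L ∧
      (∃ e, L.head? = some (a, e)) ∧ ∃ e, L.getLast? = some (a, e) := by
    intro C hC hC' hh hl h1 h2
    have hCne : C ≠ [] := by
      rintro rfl
      obtain ⟨e, he⟩ := hh
      simp at he
    have hCne' : invRev C ≠ [] := by
      rintro h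
      rw [h] at hl
      obtain ⟨e, he⟩ := hl
      simp at he
    refine ⟨mk C, C ++ toWord w ++ invRev C, ?_, ?_, ?_, ?_⟩
    · rw [inv_mk]
      conv_lhs => rw [← mk_toWord (x := w)]
      rw [mul_mk, mul_mk]
    · apply red_append
      · apply red_append hC isReduced_toWord
        intro z hz z' hz'
        rw [hx] at hz'
        have : z' = x := by simpa using hz'.symm
        rw [this]
        exact h1 z hz
      · exact hC'
      · intro z hz z' hz'
        rw [List.getLast?_append_of_ne_nil _ hne, hy] at hz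
        have : z = y := by simpa using hz.symm
        rw [this]
        exact h2 z' hz'
    · obtain ⟨e, he⟩ := hh
      refine ⟨e, ?_⟩
      rw [List.append_assoc, List.head?_append, he]
      rfl
    · obtain ⟨e, he⟩ := hl
      refine ⟨e, ?_⟩
      rw [List.getLast?_append_of_ne_nil _ hCne', he]
  by_cases hcase : x.1 = a ∧ y.1 = a ∧ y.2 = x.2
  · -- conjugate by `a b`
    obtain ⟨hxa, hya, _⟩ := hcase
    refine key [(a, true), (b, true)] ?_ ?_ ⟨true, rfl⟩ ⟨false, ?_⟩ ?_ ?_
    · simp [FreeGroup.IsReduced, hab]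
    · simp [invRev, FreeGroup.IsReduced, hab.symm]
    · simp [invRev]
    · intro z hz
      have : z = (b, true) := by simpa using hz.symm
      rw [this, hxa]
      intro h; exact absurd h.symm hab
    · intro z hz
      have : z = (b, false) := by simpa [invRev] using hz.symm
      rw [this, hya]
      intro h; exact absurd h hab
  · -- conjugate by one letter
    obtain ⟨e, he1, he2⟩ : ∃ e : Bool, (a = x.1 → e = x.2) ∧ (y.1 = a → y.2 = !e) := by
      by_cases hxa : x.1 = a
      · refine ⟨x.2, fun _ => rfl, fun hya => ?_⟩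
        have : ¬ y.2 = x.2 := fun h => hcase ⟨hxa, hya, h⟩
        revert this
        cases y.2 <;> cases x.2 <;> simp
      · exact ⟨!y.2, fun h => absurd h.symm hxa, fun _ => by simp⟩
    refine key [(a, e)] ?_ ?_ ⟨e, rfl⟩ ⟨!e, ?_⟩ ?_ ?_
    · exact FreeGroup.IsReduced.singleton
    · simp [invRev, FreeGroup.IsReduced]
    · simp [invRev]
    · intro z hz
      have : z = (a, e) := by simpa using hz.symm
      rw [this]
      exact he1
    · intro z hz
      have : z = (a, !e) := by simpa [invRev] using hz.symm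
      rw [this]
      exact he2

end words

/-- Powers averaging in the free group -/
theorem powersG {α : Type} [Nontrivial α] (w : FreeGroup α) (hw : w ≠ 1) (N : ℕ) :
    ∃ g : Fin N → FreeGroup α, ‖∑ i, lam (g i * w * (g i)⁻¹)‖ ≤ 2 * √N := by
  classical
  obtain ⟨a, b, hab⟩ := exists_pair_ne α
  obtain ⟨c, L, hL, hred, ⟨e1, he1⟩, ⟨e2, he2⟩⟩ := exists_conj hab hw
  set β : FreeGroup α := FreeGroup.of b
  refine ⟨fun i => β ^ (i : ℕ) * c, ?_⟩
  refine norm_sum_lam_le N _ (fun i => {g | (β ^ (i : ℕ))⁻¹ * g ∈ SA a}) ?_ ?_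
  · intro i j hij
    rw [Set.disjoint_left]
    intro g hi hj
    simp only [Set.mem_setOf_eq] at hi hj
    rcases lt_or_gt_of_ne (fun h => hij (Fin.ext h) : (i : ℕ) ≠ j) with h | h
    · obtain ⟨d, hd⟩ : ∃ d, (j : ℕ) = i + d := ⟨j - i, by omega⟩
      have hd0 : d ≠ 0 := by omega
      have h1 := pow_mul_notMem hab hd0 hj
      apply h1
      have e : (FreeGroup.of b) ^ d * ((β ^ (j : ℕ))⁻¹ * g) = (β ^ (i : ℕ))⁻¹ * g := by
        show β ^ d * ((β ^ (j : ℕ))⁻¹ * g) = (β ^ (i : ℕ))⁻¹ * g
        rw [hd, pow_add]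
        group
      rw [e]
      exact hi
    · obtain ⟨d, hd⟩ : ∃ d, (i : ℕ) = j + d := ⟨i - j, by omega⟩
      have hd0 : d ≠ 0 := by omega
      have h1 := pow_mul_notMem hab hd0 hi
      apply h1
      have e : (FreeGroup.of b) ^ d * ((β ^ (i : ℕ))⁻¹ * g) = (β ^ (j : ℕ))⁻¹ * g := by
        show β ^ d * ((β ^ (i : ℕ))⁻¹ * g) = (β ^ (j : ℕ))⁻¹ * g
        rw [hd, pow_add]
        group
      rw [e]
      exact hj
  · intro i g hg
    simp only [Set.mem_setOf_eq] at hg ⊢
    have e : (β ^ (i : ℕ))⁻¹ * (β ^ (i : ℕ) * c * w * (β ^ (i : ℕ) * c)⁻¹ * g)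
        = FreeGroup.mk L * ((β ^ (i : ℕ))⁻¹ * g) := by
      rw [← hL]; group
    rw [e]
    refine ⟨e1, ?_⟩
    rw [word_mul hred]
    · rw [List.head?_append, he1]; rfl
    · intro x hx y hy
      rw [he2] at hx
      have hx' : x = (a, e2) := by simpa using hx.symm
      intro hxy
      exfalso
      apply hg
      refine ⟨y.2, ?_⟩
      rw [hx'] at hxy
      have : y = (a, y.2) := by ext <;> simp [← hxy]
      rw [← this]
      exact hy

end Pool.Agent.H667R2.FG.GPOW
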