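import Mathlib
import Pool.Agent.H667R2.FG.Defs
import Pool.Agent.H667R2.FG.OpDefs
import Pool.Agent.H667R2.FG.Herm
import Pool.Agent.H667R2.FG.TL2

/-! Kaplansky density for `L(G)`. -/

namespace Pool.Agent.H667R2.FG.TTKAP

open Matrix Filter
open scoped ComplexConjugate Topology

section Abs

variable {A : Type} [CStarAlgebra A]

theorem kap_pos (t : ℝ) : 0 < 1 + t * t := by nlinarith [mul_self_nonneg t]

/-- the resolvent `(1+p²)⁻¹` of a self-adjoint element -/
theorem kap_res (p : A) (hp : IsSelfAdjoint p) : ∃ r : A, IsSelfAdjoint r ∧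
    (1 + p * p) * r = 1 ∧ r * (1 + p * p) = 1 ∧ ‖r‖ ≤ 1 ∧ ‖r * p‖ ≤ 1 / 2 ∧ ‖p * r‖ ≤ 1 / 2 ∧
    (∀ b : A, Commute p b → Commute r b) := by
  have hc : ContinuousOn (fun t : ℝ => (1 + t * t)⁻¹) (spectrum ℝ p) := by
    apply ContinuousOn.inv₀ (by fun_prop)
    intro t _
    exact (kap_pos t).ne'
  have hq : cfc (fun t : ℝ => 1 + t * t) p = 1 + p * p := by
    rw [cfc_add (R := ℝ) p (fun _ : ℝ => (1:ℝ)) (fun t => t * t), cfc_mul (R := ℝ) (fun t => t) (fun t => t) p,
      cfc_id' ℝ p, cfc_const (1:ℝ) p, map_one]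
  refine ⟨cfc (fun t : ℝ => (1 + t * t)⁻¹) p, cfc_predicate _ _, ?_, ?_, ?_, ?_, ?_, ?_⟩
  · rw [← hq, ← cfc_mul (R := ℝ) (fun t : ℝ => 1 + t * t) (fun t : ℝ => (1 + t * t)⁻¹) p,
      ← cfc_one ℝ p]
    apply cfc_congr
    intro t _
    have : (1 + t * t : ℝ) ≠ 0 := (kap_pos t).ne'
    simp [this]
  · rw [← hq, ← cfc_mul (R := ℝ) (fun t : ℝ => (1 + t * t)⁻¹) (fun t : ℝ => 1 + t * t) p,
      ← cfc_one ℝ p]
    apply cfc_congr
    intro t _
    have : (1 + t * t : ℝ) ≠ 0 := (kap_pos t).ne'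
    simp [this]
  · apply norm_cfc_le (by norm_num)
    intro t _
    rw [norm_inv, Real.norm_of_nonneg (kap_pos t).le]
    apply inv_le_one_of_one_le₀
    nlinarith [mul_self_nonneg t]
  · have h1 : cfc (fun t : ℝ => (1 + t * t)⁻¹) p * p
        = cfc (fun t : ℝ => (1 + t * t)⁻¹ * t) p := by
      rw [cfc_mul (R := ℝ) (fun t : ℝ => (1 + t * t)⁻¹) (fun t => t) p, cfc_id' ℝ p]
    rw [h1]
    apply norm_cfc_le (by norm_num)
    intro t _
    rw [Real.norm_eq_abs, abs_mul, abs_of_pos (inv_pos.2 (kap_pos t)),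
      inv_mul_le_iff₀ (kap_pos t)]
    nlinarith [sq_nonneg (|t| - 1), sq_abs t]
  · have h1 : p * cfc (fun t : ℝ => (1 + t * t)⁻¹) p
        = cfc (fun t : ℝ => t * (1 + t * t)⁻¹) p := by
      rw [cfc_mul (R := ℝ) (fun t => t) (fun t : ℝ => (1 + t * t)⁻¹) p, cfc_id' ℝ p]
    rw [h1]
    apply norm_cfc_le (by norm_num)
    intro t _
    rw [Real.norm_eq_abs, abs_mul, abs_of_pos (inv_pos.2 (kap_pos t)),
      mul_inv_le_iff₀ (kap_pos t)]
    nlinarith [sq_nonneg (|t| - 1), sq_abs t]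
  · intro b hb
    exact Commute.cfc hb (by rw [hp.star_eq]; exact hb) _

/-- the inverse of `t ↦ 2t/(1+t²)` -/
theorem kap_inv (x : A) (hx : IsSelfAdjoint x) (hx1 : ‖x‖ ≤ 1) : ∃ y : A, IsSelfAdjoint y ∧
    (1 + y * y) * x = (2 : ℂ) • y ∧
    (∀ b : A, Commute x b → Commute y b) := by
  have hs : ∀ t ∈ spectrum ℝ x, |t| ≤ 1 := by
    intro t ht
    have := spectrum.norm_le_norm_mul_of_mem ht
    rw [Real.norm_eq_abs] at this
    refine this.trans ?_
    rcases subsingleton_or_nontrivial A with h | h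
    · rw [Subsingleton.elim x 0]; simp
    · rw [CStarRing.norm_one]; simpa using hx1
  set g : ℝ → ℝ := fun t => t / (1 + √(1 - t * t)) with hg
  have hpos : ∀ t : ℝ, 0 < 1 + √(1 - t * t) := fun t => by positivity
  have hgc : Continuous g := by
    apply Continuous.div (by fun_prop) (by fun_prop)
    intro t
    exact (hpos t).ne'
  have key : ∀ t : ℝ, |t| ≤ 1 → (1 + g t * g t) * t = 2 * g t := by
    intro t ht
    have h1 : 0 ≤ 1 - t * t := by nlinarith [abs_nonneg t, sq_abs t]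
    have h2 := Real.mul_self_sqrt h1
    have hgt : g t = t / (1 + √(1 - t * t)) := rfl
    rw [hgt]
    have h3 : (1 + √(1 - t * t)) ≠ 0 := (hpos t).ne'
    generalize √(1 - t * t) = s at *
    field_simp
    linear_combination t * h2
  have hq : cfc (fun t : ℝ => 1 + g t * g t) x = 1 + cfc g x * cfc g x := by
    rw [cfc_add (R := ℝ) x (fun _ : ℝ => (1:ℝ)) (fun t => g t * g t),
      cfc_mul (R := ℝ) g g x, cfc_const (1:ℝ) x, map_one]
  have h2g : cfc (fun t : ℝ => 2 * g t) x = (2 : ℂ) • cfc g x := by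
    rw [cfc_const_mul (R := ℝ) (2:ℝ) g x]
    simp only [two_smul]
  refine ⟨cfc g x, cfc_predicate _ _, ?_, ?_⟩
  · rw [← hq, ← h2g]
    have h5 : cfc (fun t : ℝ => (1 + g t * g t)) x * x = cfc (fun t : ℝ => (1 + g t * g t) * t) x := by
      rw [cfc_mul (R := ℝ) (fun t : ℝ => 1 + g t * g t) (fun t => t) x, cfc_id' ℝ x]
    rw [h5]
    apply cfc_congr
    intro t ht
    exact key t (hs t ht)
  · intro b hb
    exact Commute.cfc hb (by rw [hx.star_eq]; exact hb) _

end Abs

section Lemmas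

variable {G : Type} [Group G]

/-- `‖ATB δ‖ ≤ ‖A‖ ‖B‖ ‖T δ‖` -/
theorem kap_atb (A T B : Op G) (hT : ∀ g, T * rho g = rho g * T) (hB : ∀ g, B * rho g = rho g * B) :
    ‖(A * T * B) (delta 1)‖ ≤ ‖A‖ * ‖B‖ * ‖T (delta 1)‖ := by
  have hTB : ∀ g, (T * B) * rho g = rho g * (T * B) := by
    intro g
    rw [mul_assoc, hB, ← mul_assoc, hT, mul_assoc]
  have h1 : ‖(A * T * B) (delta 1)‖ ≤ ‖A‖ * ‖(T * B) (delta 1)‖ := by
    rw [mul_assoc]
    exact A.le_opNorm _
  have h2 : ‖(T * B) (delta 1)‖ ≤ ‖B‖ * ‖T (delta 1)‖ := by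
    rw [← norm_star_delta (T * B) hTB, star_mul, ← norm_star_delta T hT, ← norm_star B]
    exact (star B).le_opNorm _
  calc _ ≤ ‖A‖ * ‖(T * B) (delta 1)‖ := h1
    _ ≤ ‖A‖ * (‖B‖ * ‖T (delta 1)‖) := by gcongr
    _ = _ := by ring

/-- finite combinations of translations -/
noncomputable def comb (f : G →₀ ℂ) : Op G := f.sum fun g c => c • lam g

theorem comb_rho (f : G →₀ ℂ) (g : G) : comb f * rho g = rho g * comb f := by
  unfold comb
  rw [Finsupp.sum, Finset.sum_mul, Finset.mul_sum]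
  refine Finset.sum_congr rfl fun h _ => ?_
  rw [smul_mul_assoc, lam_rho, mul_smul_comm]

theorem comb_delta (f : G →₀ ℂ) : comb f (delta 1) = f.sum fun g c => c • delta g := by
  unfold comb
  rw [Finsupp.sum, Finsupp.sum, _root_.sum_apply]
  refine Finset.sum_congr rfl fun h _ => ?_
  rw [_root_.smul_apply, lam_delta, mul_one]

/-- finitely supported vectors are dense -/
theorem kap_dense (ξ : Ell G) (ε : ℝ) (hε : 0 < ε) : ∃ f : G →₀ ℂ, ‖comb f (delta 1) - ξ‖ < ε := by
  classical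
  have h := lp.hasSum_single (E := fun _ : G => ℂ) (p := 2) (by norm_num) ξ
  have h2 := (Metric.tendsto_nhds.1 h) ε hε
  obtain ⟨s, hs⟩ := h2.exists
  refine ⟨∑ g ∈ s, Finsupp.single g (ξ g), ?_⟩
  rw [comb_delta]
  have h3 : ((∑ g ∈ s, Finsupp.single g (ξ g)).sum fun g c => c • (delta g : Ell G))
      = ∑ g ∈ s, lp.single 2 g (ξ g) := by
    rw [← Finsupp.sum_finsetSum_index (by simp) (by intro a b c; rw [add_smul])]
    refine Finset.sum_congr rfl fun g _ => ?_
    rw [Finsupp.sum_single_index (by simp)]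
    ext h
    by_cases hh : h = g
    · subst hh
      rw [lp.single_apply_self]
      show ξ h * (delta h : Ell G) h = ξ h
      rw [delta_apply, if_pos rfl, mul_one]
    · rw [lp.single_apply_ne _ _ _ hh]
      show ξ g * (delta g : Ell G) h = 0
      rw [delta_apply, if_neg hh, mul_zero]
  rw [h3, ← dist_eq_norm]
  exact hs

/-- the star algebra of finite combinations -/
noncomputable def S0 (G : Type) [Group G] : StarSubalgebra ℂ (Op G) where
  carrier := Submodule.span ℂ (Set.range (lam (G := G)))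
  mul_mem' := by
    intro a b ha hb
    have h1 := Submodule.mul_mem_mul (M := Submodule.span ℂ (Set.range (lam (G := G))))
      (N := Submodule.span ℂ (Set.range (lam (G := G)))) ha hb
    rw [Submodule.span_mul_span] at h1
    refine Submodule.span_mono ?_ h1
    rintro _ ⟨_, ⟨g, rfl⟩, _, ⟨h, rfl⟩, rfl⟩
    exact ⟨g * h, lam_mul g h⟩
  add_mem' := fun ha hb => Submodule.add_mem _ ha hb
  algebraMap_mem' := by
    intro r
    rw [Algebra.algebraMap_eq_smul_one]
    exact Submodule.smul_mem _ _ (Submodule.subset_span ⟨1, lam_one⟩)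
  star_mem' := by
    intro a ha
    refine Submodule.span_induction (p := fun a _ => star a ∈ Submodule.span ℂ (Set.range (lam (G := G))))
      ?_ ?_ ?_ ?_ ha
    · rintro _ ⟨g, rfl⟩
      rw [star_lam]
      exact Submodule.subset_span ⟨_, rfl⟩
    · rw [star_zero]; exact Submodule.zero_mem _
    · intro x y _ _ hx hy
      rw [star_add]; exact Submodule.add_mem _ hx hy
    · intro c x _ hx
      rw [star_smul]; exact Submodule.smul_mem _ _ hx

theorem comb_mem (f : G →₀ ℂ) : comb f ∈ S0 G := by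
  show comb f ∈ Submodule.span ℂ (Set.range (lam (G := G)))
  exact (Finsupp.mem_span_range_iff_exists_finsupp).2 ⟨f, rfl⟩

/-- elements of the closure are norm limits of combinations -/
theorem kap_clos (x : Op G) (hx : x ∈ (S0 G).topologicalClosure) (ε : ℝ) (hε : 0 < ε) :
    ∃ f : G →₀ ℂ, ‖x - comb f‖ < ε := by
  have h1 : x ∈ closure (S0 G : Set (Op G)) := hx
  obtain ⟨y, hy, hd⟩ := Metric.mem_closure_iff.1 h1 ε hε
  obtain ⟨f, hf⟩ := (Finsupp.mem_span_range_iff_exists_finsupp).1 hy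
  refine ⟨f, ?_⟩
  rw [dist_eq_norm] at hd
  have : comb f = y := hf
  rw [this]
  exact hd

/-- resolvents stay in the closure -/
theorem kap_res_mem (p r : Op G) (hp : p ∈ (S0 G).topologicalClosure)
    (h1 : (1 + p * p) * r = 1) (h2 : r * (1 + p * p) = 1) : r ∈ (S0 G).topologicalClosure := by
  have hcl : IsClosed ((S0 G).topologicalClosure : Set (Op G)) := isClosed_closure
  have hq : (1 + p * p) ∈ (S0 G).topologicalClosure := add_mem (one_mem _) (mul_mem hp hp)
  have hu : IsUnit (1 + p * p) := ⟨⟨1 + p * p, r, h1, h2⟩, rfl⟩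
  have : CompleteSpace (S0 G).topologicalClosure := hcl.completeSpace_coe
  have hu2 : IsUnit (⟨1 + p * p, hq⟩ : (S0 G).topologicalClosure) :=
    (StarSubalgebra.coe_isUnit _ (a := ⟨1 + p * p, hq⟩)).1 hu
  obtain ⟨u, hu3⟩ := hu2
  have h3 : ((u : (S0 G).topologicalClosure) : Op G) * ((u⁻¹ : (S0 G).topologicalClosureˣ) : Op G) = 1 := by
    exact congrArg (fun z : (S0 G).topologicalClosure => (z : Op G)) (Units.mul_inv u)
  rw [hu3] at h3
  have h4 : r = ((u⁻¹ : (S0 G).topologicalClosureˣ) : Op G) := by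
    calc r = r * ((1 + p * p) * ((u⁻¹ : (S0 G).topologicalClosureˣ) : Op G)) := by
            rw [h3, mul_one]
      _ = _ := by rw [← mul_assoc, h2, one_mul]
  rw [h4]
  exact SetLike.coe_mem _

/-- the property to be proved -/
def Kap (x : Op G) : Prop := ∃ C : ℝ, ∀ ε : ℝ, 0 < ε → ∃ f : G →₀ ℂ,
    ‖comb f‖ ≤ C ∧ ‖(x - comb f) (delta 1)‖ ≤ ε

theorem comb_add (f g : G →₀ ℂ) : comb (f + g) = comb f + comb g := by
  unfold comb
  rw [Finsupp.sum_add_index' (by simp) (by intro a b c; rw [add_smul])]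

theorem comb_smul (c : ℂ) (f : G →₀ ℂ) : comb (c • f) = c • comb f := by
  unfold comb
  rw [Finsupp.sum_smul_index' (by simp), Finsupp.smul_sum]
  simp only [smul_smul, smul_eq_mul]

theorem Kap.add {x y : Op G} (hx : Kap x) (hy : Kap y) : Kap (x + y) := by
  obtain ⟨C, hC⟩ := hx
  obtain ⟨D, hD⟩ := hy
  refine ⟨C + D, fun ε hε => ?_⟩
  obtain ⟨f, hf1, hf2⟩ := hC (ε / 2) (by positivity)
  obtain ⟨g, hg1, hg2⟩ := hD (ε / 2) (by positivity)
  refine ⟨f + g, ?_, ?_⟩
  · rw [comb_add]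
    exact (norm_add_le _ _).trans (by linarith)
  · rw [comb_add]
    have : (x + y - (comb f + comb g)) (delta 1)
        = (x - comb f) (delta 1) + (y - comb g) (delta 1) := by
      rw [← _root_.add_apply]
      congr 1
      abel
    rw [this]
    exact (norm_add_le _ _).trans (by linarith)

theorem Kap.smul {x : Op G} (c : ℂ) (hx : Kap x) : Kap (c • x) := by
  obtain ⟨C, hC⟩ := hx
  refine ⟨‖c‖ * C, fun ε hε => ?_⟩
  obtain ⟨f, hf1, hf2⟩ := hC (ε / (‖c‖ + 1)) (by positivity)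
  refine ⟨c • f, ?_, ?_⟩
  · rw [comb_smul, norm_smul]
    gcongr
  · rw [comb_smul, ← smul_sub, _root_.smul_apply, norm_smul]
    have h1 : 0 < ‖c‖ + 1 := by positivity
    rw [le_div_iff₀ h1] at hf2
    nlinarith [norm_nonneg ((x - comb f) (delta 1)), norm_nonneg c]

/-- the self-adjoint contractions -/
theorem kap_sa (x : Op G) (hx : IsSelfAdjoint x) (hx1 : ‖x‖ ≤ 1)
    (hc : ∀ g, x * rho g = rho g * x) : Kap x := by
  obtain ⟨y, hy, hyx, hyc⟩ := kap_inv x hx hx1
  have hyr : ∀ g, y * rho g = rho g * y := fun g => hyc _ (hc g)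
  obtain ⟨s, hs, hs1, hs2, hs3, hs4, hs5, hs6⟩ := kap_res y hy
  have hsr : ∀ g, s * rho g = rho g * s := fun g => hs6 _ (hyr g)
  refine ⟨2, fun ε hε => ?_⟩
  obtain ⟨f, hf⟩ := kap_dense (y (delta 1)) (ε / 8) (by positivity)
  have hf1 : ‖(comb f - y) (delta 1)‖ < ε / 8 := hf
  set p : Op G := (2⁻¹ : ℂ) • (comb f + star (comb f)) with hp
  have hps : IsSelfAdjoint p := by
    rw [IsSelfAdjoint, hp, star_smul, star_add, star_star, add_comm]
    congr 1
    simp
  have hpr : ∀ g, p * rho g = rho g * p := by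
    intro g
    rw [hp, smul_mul_assoc, add_mul, comb_rho, star_comm_rho _ (comb_rho f), mul_smul_comm,
      mul_add]
  have hpm : p ∈ (S0 G).topologicalClosure := by
    apply (S0 G).le_topologicalClosure
    rw [hp]
    exact (S0 G).smul_mem (add_mem (comb_mem f) (star_mem (comb_mem f))) _
  have hpy : ‖(p - y) (delta 1)‖ < ε / 8 := by
    have h1 : p - y = (2⁻¹ : ℂ) • ((comb f - y) + star (comb f - y)) := by
      rw [star_sub, hy.star_eq, hp]
      module
    have h2 : ∀ g, (comb f - y) * rho g = rho g * (comb f - y) := by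
      intro g
      rw [sub_mul, mul_sub, comb_rho, hyr]
    rw [h1, _root_.smul_apply, _root_.add_apply, norm_smul]
    have h3 := norm_star_delta (comb f - y) h2
    have h4 := norm_add_le ((comb f - y) (delta 1)) ((star (comb f - y)) (delta 1))
    have h5 : ‖(2⁻¹ : ℂ)‖ = 1 / 2 := by norm_num
    rw [h5]
    linarith
  obtain ⟨r, hr, hr1, hr2, hr3, hr4, hr5, hr6⟩ := kap_res p hps
  have hrr : ∀ g, r * rho g = rho g * r := fun g => hr6 _ (hpr g)
  have hrm := kap_res_mem p r hpm hr1 hr2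
  have hz : (2 : ℂ) • (r * p) ∈ (S0 G).topologicalClosure :=
    (S0 G).topologicalClosure.smul_mem (mul_mem hrm hpm) _
  have hzx : (2 : ℂ) • (r * p) - x = (2 : ℂ) • (r * (p - y) * s)
      - (2 : ℂ) • ((r * p) * (p - y) * (y * s)) := by
    have hx2 : x = (2 : ℂ) • (s * y) := by
      rw [← mul_smul_comm, ← hyx, ← mul_assoc, hs2, one_mul]
    have hys : y * s = s * y := (hs6 y (Commute.refl y)).symm
    have hpr' : p * r = r * p := (hr6 p (Commute.refl p)).symm
    have e1 : r * p = r * p * ((1 + y * y) * s) := by rw [hs1, mul_one]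
    have e2 : s * y = (r * (1 + p * p)) * (y * s) := by rw [hr2, one_mul, hys]
    rw [hx2, ← smul_sub, ← smul_sub, e2]
    congr 1
    calc r * p - r * (1 + p * p) * (y * s)
        = r * p * ((1 + y * y) * s) - r * (1 + p * p) * (y * s) := by rw [← e1]
      _ = _ := by noncomm_ring
  have hzx2 : ‖((2 : ℂ) • (r * p) - x) (delta 1)‖ ≤ ε / 2 := by
    rw [hzx, _root_.sub_apply, _root_.smul_apply,
      _root_.smul_apply]
    refine (norm_sub_le _ _).trans ?_
    rw [norm_smul, norm_smul]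
    have hpyr : ∀ g, (p - y) * rho g = rho g * (p - y) := by
      intro g
      rw [sub_mul, mul_sub, hpr, hyr]
    have hysr : ∀ g, (y * s) * rho g = rho g * (y * s) := by
      intro g
      rw [mul_assoc, hsr, ← mul_assoc, hyr, mul_assoc]
    have h1 := kap_atb r (p - y) s hpyr hsr
    have h2 := kap_atb (r * p) (p - y) (y * s) hpyr hysr
    have h3 : ‖(2 : ℂ)‖ = 2 := by norm_num
    rw [h3]
    have h4 : ‖r‖ * ‖s‖ ≤ 1 := mul_le_one₀ hr3 (norm_nonneg _) hs3
    have h5 : ‖r * p‖ * ‖y * s‖ ≤ 1 := mul_le_one₀ (by linarith) (norm_nonneg _) (by linarith)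
    have h6 := mul_le_mul_of_nonneg_right h4 (norm_nonneg ((p - y) (delta 1)))
    have h7 := mul_le_mul_of_nonneg_right h5 (norm_nonneg ((p - y) (delta 1)))
    linarith
  have hz1 : ‖(2 : ℂ) • (r * p)‖ ≤ 1 := by
    rw [norm_smul]
    have h3 : ‖(2 : ℂ)‖ = 2 := by norm_num
    rw [h3]
    linarith
  obtain ⟨h, hh⟩ := kap_clos _ hz (min 1 (ε / 2)) (by positivity)
  refine ⟨h, ?_, ?_⟩
  · have h1 : comb h = (2 : ℂ) • (r * p) - ((2 : ℂ) • (r * p) - comb h) := by abel
    rw [h1]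
    refine (norm_sub_le _ _).trans ?_
    have := min_le_left 1 (ε / 2)
    linarith
  · have h1 : (x - comb h) (delta 1) = - (((2 : ℂ) • (r * p) - x) (delta 1))
        + ((2 : ℂ) • (r * p) - comb h) (delta 1) := by
      rw [← _root_.neg_apply, ← _root_.add_apply]
      congr 1
      abel
    rw [h1]
    refine (norm_add_le _ _).trans ?_
    rw [norm_neg]
    have h2 := ((2 : ℂ) • (r * p) - comb h).le_opNorm (delta 1)
    rw [norm_delta, mul_one] at h2
    have := min_le_right 1 (ε / 2)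
    linarith

theorem kap_sa' (x : Op G) (hx : IsSelfAdjoint x)
    (hc : ∀ g, x * rho g = rho g * x) : Kap x := by
  have h0 : 0 < ‖x‖ + 1 := by positivity
  have h1 : x = ((‖x‖ + 1 : ℝ) : ℂ) • ((((‖x‖ + 1)⁻¹ : ℝ) : ℂ) • x) := by
    rw [smul_smul, ← Complex.ofReal_mul, mul_inv_cancel₀ h0.ne', Complex.ofReal_one, one_smul]
  rw [h1]
  apply Kap.smul
  apply kap_sa
  · rw [IsSelfAdjoint, star_smul, hx.star_eq]
    congr 1
    simp
  · rw [norm_smul, Complex.norm_real, Real.norm_of_nonneg (by positivity), inv_mul_le_iff₀ h0]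
    linarith
  · intro g
    rw [smul_mul_assoc, hc, mul_smul_comm]

theorem kaplansky (x : EltG G) : ∃ C : ℝ, ∀ ε : ℝ, 0 < ε → ∃ f : G →₀ ℂ,
    ‖f.sum fun g c => c • lam g‖ ≤ C ∧
      ‖((x : Op G) - f.sum fun g c => c • lam g) (delta 1)‖ ≤ ε := by
  have hxc : ∀ g, (x : Op G) * rho g = rho g * (x : Op G) := comm_rho _ x.2
  have hsc : ∀ g, star (x : Op G) * rho g = rho g * star (x : Op G) := star_comm_rho _ hxc
  have hK : Kap (x : Op G) := by
    have h1 : (x : Op G) = (2⁻¹ : ℂ) • ((x : Op G) + star (x : Op G))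
        + (-(Complex.I * 2⁻¹) : ℂ) • (Complex.I • ((x : Op G) - star (x : Op G))) := by
      rw [smul_smul]
      have : (-(Complex.I * 2⁻¹) * Complex.I : ℂ) = 2⁻¹ := by
        linear_combination (-2⁻¹ : ℂ) * Complex.I_mul_I
      rw [this]
      module
    rw [h1]
    refine Kap.add (Kap.smul _ (kap_sa' _ ?_ ?_)) (Kap.smul _ (kap_sa' _ ?_ ?_))
    · rw [IsSelfAdjoint, star_add, star_star, add_comm]
    · intro g
      rw [add_mul, hxc, hsc, mul_add]
    · rw [IsSelfAdjoint, star_smul, star_sub, star_star]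
      simp only [RCLike.star_def, Complex.conj_I]
      module
    · intro g
      rw [smul_mul_assoc, sub_mul, hxc, hsc, mul_smul_comm, mul_sub]
  exact hK

end Lemmas

end Pool.Agent.H667R2.FG.TTKAP

namespace Pool.Agent.H667R2.FG

alias kaplansky := TTKAP.kaplansky

end Pool.Agent.H667R2.FG
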