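import Mathlib
import Pool.Agent.H667R2.FG.Defs
import Pool.Agent.H667R2.FG.OpDefs
import Pool.Agent.H667R2.FG.Herm
import Pool.Agent.H667R2.FG.TL2

/-! Task TPOS: trace property, faithfulness, isomorphisms preserve norm and positivity. -/

namespace Pool.Agent.H667R2.FG.TTPOS

open Matrix Filter
open scoped ComplexConjugate Topology InnerProductSpace

section TPOS

variable {G G' : Type} [Group G] [Group G']

omit [Group G] in
theorem tpos_inner_delta (g : G) (y : Ell G) : ⟪(delta g : Ell G), y⟫_ℂ = y g := by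
  let := Classical.decEq G
  exact (lp.inner_single_left (𝕜 := ℂ) (G := fun _ : G => ℂ) g (1 : ℂ) y).trans (by simp)

theorem tpos_coef_apply (x : Op G) (hx : ∀ g, x * rho g = rho g * x) (h k : G) :
    (x (delta h)) k = (x (delta 1)) (k * h⁻¹) := by
  have h1 : (delta h : Ell G) = rho h⁻¹ (delta 1) := by
    rw [rho_delta]
    congr 1
    group
  have h2 := congrArg (fun z : Op G => z (delta 1)) (hx h⁻¹)
  have h3 : x (rho h⁻¹ (delta 1)) = rho h⁻¹ (x (delta 1)) := h2
  rw [h1, h3]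
  rfl

theorem tpos_star_coef (x : Op G) (hx : ∀ g, x * rho g = rho g * x) (h : G) :
    ((star x) (delta 1)) h = conj ((x (delta 1)) h⁻¹) := by
  rw [← tpos_inner_delta h, ContinuousLinearMap.star_eq_adjoint,
    ContinuousLinearMap.adjoint_inner_right, ← inner_conj_symm, tpos_inner_delta,
    tpos_coef_apply x hx h 1, one_mul]

theorem tpos_tau_mul (x y : Op G) (hx : ∀ g, x * rho g = rho g * x) :
    tau (x * y) = ∑' h, (y (delta 1)) h * (x (delta 1)) h⁻¹ := by
  have e1 : tau (x * y) = ⟪star x (delta 1), y (delta 1)⟫_ℂ := by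
    rw [ContinuousLinearMap.star_eq_adjoint, ContinuousLinearMap.adjoint_inner_left,
      tpos_inner_delta]
    rfl
  rw [e1, lp.inner_eq_tsum]
  refine tsum_congr fun h => ?_
  rw [tpos_star_coef x hx h]
  simp

theorem tau_mul_comm (x y : EltG G) :
    tau ((x : Op G) * (y : Op G)) = tau ((y : Op G) * (x : Op G)) := by
  have hx : ∀ g, (x : Op G) * rho g = rho g * (x : Op G) := fun g => comm_rho _ x.2 g
  have hy : ∀ g, (y : Op G) * rho g = rho g * (y : Op G) := fun g => comm_rho _ y.2 g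
  rw [tpos_tau_mul _ _ hx, tpos_tau_mul _ _ hy]
  rw [← (Equiv.inv G).tsum_eq]
  refine tsum_congr fun h => ?_
  simp only [Equiv.inv_apply, inv_inv]
  rw [mul_comm]

theorem tau_star_mul (x : Op G) : tau (star x * x) = ((‖x (delta 1)‖ ^ 2 : ℝ) : ℂ) := by
  have e1 : tau (star x * x) = ⟪x (delta 1), x (delta 1)⟫_ℂ := by
    rw [← ContinuousLinearMap.adjoint_inner_right, ← ContinuousLinearMap.star_eq_adjoint,
      tpos_inner_delta]
    rfl
  rw [e1, inner_self_eq_norm_sq_to_K]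
  push_cast
  rfl

/-- the trace is faithful -/
theorem eq_zero_of_delta (x : EltG G) (hx : (x : Op G) (delta 1) = 0) : (x : Op G) = 0 := by
  let := Classical.decEq G
  have hd : ∀ g : G, (x : Op G) (delta g) = 0 := by
    intro g
    ext k
    rw [tpos_coef_apply _ (fun g => comm_rho _ x.2 g) g k, hx]
    rfl
  ext1 ξ
  have h1 := lp.hasSum_single (E := fun _ : G => ℂ) (p := 2) (by norm_num) ξ
  have h2 := h1.mapL (x : Op G)
  have h3 : (fun i => (x : Op G) (lp.single 2 i (ξ i))) = fun _ => 0 := by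
    funext i
    have e : (lp.single 2 i (ξ i) : Ell G) = (ξ i) • (delta i : Ell G) := by
      unfold delta
      rw [← lp.single_smul]
      congr 1
      simp
    rw [e, map_smul, hd, smul_zero]
  rw [h3] at h2
  rw [h2.unique hasSum_zero]
  rfl

theorem tpos_isClosed (G : Type) [Group G] :
    IsClosed ((LG G).toStarSubalgebra : Set (Ell G →L[ℂ] Ell G)) :=
  Set.isClosed_centralizer _

theorem theta_norm (θ : EltG G ≃⋆ₐ[ℂ] EltG G') (x : EltG G) :
    ‖(θ x : Op G')‖ = ‖(x : Op G)‖ := by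
  have := tpos_isClosed G
  have := tpos_isClosed G'
  have := StarAlgEquiv.norm_map θ x
  exact this

theorem theta_pos (θ : EltG G ≃⋆ₐ[ℂ] EltG G') (x : EltG G) (hx : 0 ≤ (x : Op G)) :
    0 ≤ (θ x : Op G') := by
  set t : ℝ := ‖(x : Op G)‖ with ht
  have ht0 : 0 ≤ t := norm_nonneg _
  have hsa : IsSelfAdjoint (x : Op G) := IsSelfAdjoint.of_nonneg hx
  have hle : (x : Op G) ≤ algebraMap ℝ (Op G) t := hsa.le_algebraMap_norm_self
  have h1 : 0 ≤ algebraMap ℝ (Op G) t - (x : Op G) := sub_nonneg.2 hle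
  have h2 : algebraMap ℝ (Op G) t - (x : Op G) ≤ algebraMap ℝ (Op G) t := sub_le_self _ hx
  have h3 := CStarAlgebra.norm_le_norm_of_nonneg_of_le h1 h2
  have h4 : ‖algebraMap ℝ (Op G) t‖ ≤ t := by
    rw [Algebra.algebraMap_eq_smul_one, norm_smul, Real.norm_of_nonneg ht0]
    calc t * ‖(1 : Op G)‖ ≤ t * 1 := by
          gcongr
          exact ContinuousLinearMap.norm_id_le
      _ = t := mul_one t
  -- the element `t - x` of the algebra
  set z : EltG G := (t : ℂ) • 1 - x with hz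
  have hz1 : (z : Op G) = algebraMap ℝ (Op G) t - (x : Op G) := by
    rw [hz, Algebra.algebraMap_eq_smul_one]
    rfl
  have hz2 : ‖(z : Op G)‖ ≤ t := by
    rw [hz1]
    exact h3.trans h4
  have hθz : (θ z : Op G') = (t : ℂ) • (1 : Op G') - (θ x : Op G') := by
    rw [hz, map_sub, map_smul, map_one]
    rfl
  have hnorm : ‖(t : ℂ) • (1 : Op G') - (θ x : Op G')‖ ≤ t := by
    rw [← hθz, theta_norm θ z]
    exact hz2
  have hsx : star x = x := Subtype.ext hsa.star_eq
  have hsa' : IsSelfAdjoint (θ x : Op G') := by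
    have e1 : star (θ x) = θ x := (θ.map_star' x).symm.trans (congrArg θ hsx)
    exact congrArg (fun y : EltG G' => (y : Op G')) e1
  rw [ContinuousLinearMap.nonneg_iff_isPositive]
  refine ⟨hsa'.isSymmetric, fun ξ => ?_⟩
  rw [ContinuousLinearMap.reApplyInnerSelf_apply]
  have e2 : ⟪(θ x : Op G') ξ, ξ⟫_ℂ =
      (t : ℂ) * ⟪ξ, ξ⟫_ℂ - ⟪((t : ℂ) • (1 : Op G') - (θ x : Op G')) ξ, ξ⟫_ℂ := by
    have e3 : ((t : ℂ) • (1 : Op G') - (θ x : Op G')) ξ = (t : ℂ) • ξ - (θ x : Op G') ξ := rfl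
    rw [e3, inner_sub_left, inner_smul_left]
    simp
  rw [e2, map_sub]
  have e4 : RCLike.re ((t : ℂ) * ⟪ξ, ξ⟫_ℂ) = t * ‖ξ‖ ^ 2 := by
    rw [inner_self_eq_norm_sq_to_K]
    show ((t : ℂ) * ((‖ξ‖ : ℝ) : ℂ) ^ 2).re = _
    rw [← Complex.ofReal_pow, ← Complex.ofReal_mul, Complex.ofReal_re]
  have e5 : RCLike.re ⟪((t : ℂ) • (1 : Op G') - (θ x : Op G')) ξ, ξ⟫_ℂ ≤ t * ‖ξ‖ ^ 2 := by
    refine (RCLike.re_le_norm _).trans ((norm_inner_le_norm _ _).trans ?_)
    calc ‖((t : ℂ) • (1 : Op G') - (θ x : Op G')) ξ‖ * ‖ξ‖ ≤ (t * ‖ξ‖) * ‖ξ‖ := by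
          gcongr
          exact ((t : ℂ) • (1 : Op G') - (θ x : Op G')).le_of_opNorm_le hnorm ξ
      _ = t * ‖ξ‖ ^ 2 := by ring
  rw [e4]
  linarith

end TPOS

end Pool.Agent.H667R2.FG.TTPOS

namespace Pool.Agent.H667R2.FG

alias tau_mul_comm := TTPOS.tau_mul_comm
alias tau_star_mul := TTPOS.tau_star_mul
alias eq_zero_of_delta := TTPOS.eq_zero_of_delta
alias theta_norm := TTPOS.theta_norm
alias theta_pos := TTPOS.theta_pos

end Pool.Agent.H667R2.FG
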