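import Mathlib
import Pool.Agent.H667R2.FG.Defs
import Pool.Agent.H667R2.FG.OpDefs
import Pool.Agent.H667R2.FG.Herm
import Pool.Agent.H667R2.FG.TL2

namespace Pool.Agent.H667R2.FG.TTCOMP

open Matrix Filter
open scoped ComplexConjugate Topology

section TCOMP

variable {G : Type} [Group G]

theorem tc_cauchy (T : ℕ → Op G) (R : ℝ) (hT : ∀ k, ‖T k‖ ≤ R)
    (hc : ∀ g : G, CauchySeq fun k => T k (delta g)) (ξ : Ell G) :
    CauchySeq fun k => T k ξ := by
  letI := Classical.decEq G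
  have hR : 0 ≤ R := (norm_nonneg _).trans (hT 0)
  have h2 : (2 : ENNReal) ≠ ⊤ := by norm_num
  have hsum := lp.hasSum_single h2 ξ
  have hfin : ∀ s : Finset G, CauchySeq fun k => T k (∑ g ∈ s, lp.single 2 g (ξ g)) := by
    intro s
    induction s using Finset.induction with
    | empty => simpa using cauchySeq_const (0 : Ell G)
    | insert a s ha ih =>
      have h1 : (fun k => T k (∑ g ∈ insert a s, lp.single 2 g (ξ g)))
          = (fun k => ξ a • T k (delta a)) + fun k => T k (∑ g ∈ s, lp.single 2 g (ξ g)) := by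
        funext k
        rw [Finset.sum_insert ha, map_add, Pi.add_apply]
        congr 1
        rw [← map_smul]
        congr 1
        rw [delta, ← lp.single_smul, smul_eq_mul, mul_one]
      rw [h1]
      exact ((uniformContinuous_const_smul (ξ a)).comp_cauchySeq (hc a)).add ih
  rw [Metric.cauchySeq_iff']
  intro ε hε
  have hε' : 0 < ε / (4 * (R + 1)) := by positivity
  obtain ⟨s, hs⟩ := (Metric.tendsto_atTop.1 hsum _ hε')
  have hs := hs s le_rfl
  obtain ⟨N, hN⟩ := Metric.cauchySeq_iff'.1 (hfin s) (ε / 2) (half_pos hε)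
  refine ⟨N, fun n hn => ?_⟩
  set η := ∑ g ∈ s, lp.single 2 g (ξ g) with hη
  have h3 := hN n hn
  rw [dist_eq_norm] at h3 hs ⊢
  have h4 : ∀ k, ‖T k (η - ξ)‖ ≤ ε / 4 := by
    intro k
    calc ‖T k (η - ξ)‖ ≤ ‖T k‖ * ‖η - ξ‖ := (T k).le_opNorm _
      _ ≤ (R + 1) * (ε / (4 * (R + 1))) :=
        mul_le_mul ((hT k).trans (by linarith)) hs.le (norm_nonneg _) (by linarith)
      _ = ε / 4 := by field_simp
  have h5 : T n ξ - T N ξ = (T n η - T N η) - T n (η - ξ) + T N (η - ξ) := by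
    simp only [map_sub]; abel
  rw [h5]
  calc _ ≤ ‖(T n η - T N η) - T n (η - ξ)‖ + ‖T N (η - ξ)‖ := norm_add_le _ _
    _ ≤ ‖(T n η - T N η)‖ + ‖T n (η - ξ)‖ + ‖T N (η - ξ)‖ := by
      gcongr; exact norm_sub_le _ _
    _ < ε / 2 + ε / 4 + ε / 4 := by
      have := h4 n; have := h4 N; linarith
    _ = ε := by ring

theorem ball_complete (T : ℕ → EltG G) (R : ℝ) (hT : ∀ k, ‖(T k : Op G)‖ ≤ R)
    (hc : CauchySeq fun k => (T k : Op G) (delta 1)) :
    ∃ S : EltG G, ‖(S : Op G)‖ ≤ R ∧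
      ∀ ξ : Ell G, Tendsto (fun k => (T k : Op G) ξ) atTop (𝓝 ((S : Op G) ξ)) := by
  have hR : 0 ≤ R := (norm_nonneg _).trans (hT 0)
  have hg : ∀ g : G, CauchySeq fun k => (T k : Op G) (delta g) := by
    intro g
    have h1 : ∀ k, (T k : Op G) (delta g) = rho g⁻¹ ((T k : Op G) (delta 1)) := by
      intro k
      have h2 := comm_rho (T k : Op G) (T k).2 g⁻¹
      have h3 := congrArg (fun z : Op G => z (delta 1)) h2
      change (T k : Op G) (rho g⁻¹ (delta 1)) = rho g⁻¹ ((T k : Op G) (delta 1)) at h3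
      rw [rho_delta, one_mul, inv_inv] at h3
      exact h3
    simp only [h1]
    exact (rho (G := G) g⁻¹).uniformContinuous.comp_cauchySeq hc
  have hall : ∀ ξ, CauchySeq fun k => (T k : Op G) ξ := tc_cauchy (fun k => (T k : Op G)) R hT hg
  choose f hf using fun ξ => cauchySeq_tendsto_of_complete (hall ξ)
  let S : Op G := continuousLinearMapOfTendsto (fun k => (T k : Op G)) (f := f)
    (tendsto_pi_nhds.2 hf)
  have hS : ∀ ξ, Tendsto (fun k => (T k : Op G) ξ) atTop (𝓝 (S ξ)) := hf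
  have hmem : S ∈ (LG G).toStarSubalgebra := by
    show S ∈ StarSubalgebra.centralizer ℂ
      (StarSubalgebra.centralizer ℂ (Set.range (lam (G := G))) : Set (Ell G →L[ℂ] Ell G))
    have hTk : ∀ k, (T k : Op G) ∈ StarSubalgebra.centralizer ℂ
      (StarSubalgebra.centralizer ℂ (Set.range (lam (G := G))) : Set (Ell G →L[ℂ] Ell G)) :=
      fun k => (T k).2
    rw [StarSubalgebra.mem_centralizer_iff]
    have key : ∀ t : Op G, (∀ k, t * (T k : Op G) = (T k : Op G) * t) → t * S = S * t := by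
      intro t ht
      ext1 ξ
      have h1 : Tendsto (fun k => t ((T k : Op G) ξ)) atTop (𝓝 (t (S ξ))) :=
        (t.continuous.tendsto _).comp (hS ξ)
      have h2 : Tendsto (fun k => (T k : Op G) (t ξ)) atTop (𝓝 (S (t ξ))) := hS (t ξ)
      have h3 : (fun k => t ((T k : Op G) ξ)) = fun k => (T k : Op G) (t ξ) := by
        funext k
        exact congrArg (fun z : Op G => z ξ) (ht k)
      rw [h3] at h1
      exact tendsto_nhds_unique h1 h2
    intro t ht
    exact ⟨key t fun k => ((StarSubalgebra.mem_centralizer_iff ℂ).1 (hTk k) t ht).1,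
      key (star t) fun k => ((StarSubalgebra.mem_centralizer_iff ℂ).1 (hTk k) t ht).2⟩
  refine ⟨⟨S, hmem⟩, ?_, hS⟩
  refine ContinuousLinearMap.opNorm_le_bound _ hR fun ξ => ?_
  refine le_of_tendsto (hS ξ).norm (Eventually.of_forall fun k => ?_)
  exact ((T k : Op G).le_opNorm ξ).trans (mul_le_mul_of_nonneg_right (hT k) (norm_nonneg _))

theorem tc_quad {E : Type*} [NormedAddCommGroup E] [InnerProductSpace ℂ E] [CompleteSpace E]
    (A : E →L[ℂ] E) (h0 : 0 ≤ A) (h1 : A ≤ 1) (ξ : E) :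
    ‖A ξ‖ ^ 2 ≤ A.reApplyInnerSelf ξ := by
  have hB0 : 0 ≤ CFC.sqrt A := CFC.sqrt_nonneg A
  have hB1 : CFC.sqrt A * CFC.sqrt A = A := CFC.sqrt_mul_sqrt_self A h0
  have hBs : IsSelfAdjoint (CFC.sqrt A) := IsSelfAdjoint.of_nonneg hB0
  set B := CFC.sqrt A with hB
  have hA1 : ‖A‖ ≤ 1 := (CStarAlgebra.norm_le_one_iff_of_nonneg A h0).2 h1
  have hBn : ‖B‖ ≤ 1 := by
    have h2 : ‖B‖ * ‖B‖ = ‖A‖ := by
      rw [← CStarRing.norm_star_mul_self, hBs.star_eq, hB1]
    nlinarith [norm_nonneg B]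
  have h3 : A ξ = B (B ξ) := by
    conv_lhs => rw [← hB1]
    rfl
  have h4 : ‖A ξ‖ ≤ ‖B ξ‖ := by
    rw [h3]
    calc ‖B (B ξ)‖ ≤ ‖B‖ * ‖B ξ‖ := B.le_opNorm _
      _ ≤ 1 * ‖B ξ‖ := mul_le_mul_of_nonneg_right hBn (norm_nonneg _)
      _ = ‖B ξ‖ := one_mul _
  have h5 : A.reApplyInnerSelf ξ = ‖B ξ‖ ^ 2 := by
    rw [ContinuousLinearMap.reApplyInnerSelf_apply, h3]
    have h6 : inner ℂ (B (B ξ)) ξ = inner ℂ (B ξ) (B ξ) := by
      have h7 := ContinuousLinearMap.adjoint_inner_left B ξ (B ξ)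
      rw [← ContinuousLinearMap.star_eq_adjoint, hBs.star_eq] at h7
      exact h7
    rw [h6]
    exact inner_self_eq_norm_sq (𝕜 := ℂ) (B ξ)
  rw [h5]
  exact pow_le_pow_left₀ (norm_nonneg _) h4 2

theorem mono_conv (T : ℕ → EltG G) (h1 : ∀ k, (T k : Op G) ≤ (T (k + 1) : Op G))
    (h0 : 0 ≤ (T 0 : Op G)) (hb : ∀ k, (T k : Op G) ≤ 1) :
    ∃ S : EltG G, (∀ k, (T k : Op G) ≤ (S : Op G)) ∧ (S : Op G) ≤ 1 ∧
      ∀ ξ : Ell G, Tendsto (fun k => (T k : Op G) ξ) atTop (𝓝 ((S : Op G) ξ)) := by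
  have hmono : Monotone fun k => (T k : Op G) := monotone_nat_of_le_succ h1
  have hpos : ∀ k, 0 ≤ (T k : Op G) := fun k => h0.trans (hmono (Nat.zero_le k))
  have hn : ∀ k, ‖(T k : Op G)‖ ≤ 1 := fun k =>
    (CStarAlgebra.norm_le_one_iff_of_nonneg _ (hpos k)).2 (hb k)
  have hre : ∀ (A B : Op G), A ≤ B → ∀ ξ, A.reApplyInnerSelf ξ ≤ B.reApplyInnerSelf ξ := by
    intro A B hAB ξ
    have h2 := ((ContinuousLinearMap.le_def A B).1 hAB).2 ξ
    rw [ContinuousLinearMap.reApplyInnerSelf_apply] at h2 ⊢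
    rw [ContinuousLinearMap.reApplyInnerSelf_apply]
    rw [ContinuousLinearMap.sub_apply, inner_sub_left, map_sub] at h2
    linarith
  have hc : CauchySeq fun k => (T k : Op G) (delta 1) := by
    set ξ : Ell G := delta 1
    have ha : Monotone fun k => (T k : Op G).reApplyInnerSelf ξ :=
      fun k l hkl => hre _ _ (hmono hkl) ξ
    have hbd : BddAbove (Set.range fun k => (T k : Op G).reApplyInnerSelf ξ) := by
      refine ⟨(1 : Op G).reApplyInnerSelf ξ, ?_⟩
      rintro _ ⟨k, rfl⟩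
      exact hre _ _ (hb k) ξ
    have hca := (tendsto_atTop_ciSup ha hbd).cauchySeq
    rw [Metric.cauchySeq_iff'] at hca ⊢
    intro ε hε
    obtain ⟨N, hN⟩ := hca (ε ^ 2) (by positivity)
    refine ⟨N, fun n hn => ?_⟩
    have h2 := hN n hn
    have h3 := tc_quad ((T n : Op G) - (T N : Op G)) (sub_nonneg.2 (hmono hn))
      ((sub_le_self _ (hpos N)).trans (hb n)) ξ
    have h4 : ((T n : Op G) - (T N : Op G)).reApplyInnerSelf ξ
        = (T n : Op G).reApplyInnerSelf ξ - (T N : Op G).reApplyInnerSelf ξ := by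
      simp only [ContinuousLinearMap.reApplyInnerSelf_apply, ContinuousLinearMap.sub_apply,
        inner_sub_left, map_sub]
    rw [h4] at h3
    rw [Real.dist_eq] at h2
    have h5 := (le_abs_self _).trans_lt h2
    rw [dist_eq_norm, ← ContinuousLinearMap.sub_apply]
    exact lt_of_pow_lt_pow_left₀ 2 hε.le (h3.trans_lt h5)
  obtain ⟨S, hS1, hS2⟩ := ball_complete T 1 hn hc
  have hlim : ∀ ξ, Tendsto (fun k => (T k : Op G).reApplyInnerSelf ξ) atTop
      (𝓝 ((S : Op G).reApplyInnerSelf ξ)) := by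
    intro ξ
    simp only [ContinuousLinearMap.reApplyInnerSelf_apply]
    have h6 : Tendsto (fun k => inner ℂ ((T k : Op G) ξ) ξ) atTop (𝓝 (inner ℂ ((S : Op G) ξ) ξ)) :=
      (hS2 ξ).inner tendsto_const_nhds
    exact (RCLike.continuous_re.tendsto _).comp h6
  have hsa : ∀ k, IsSelfAdjoint (T k : Op G) := fun k => IsSelfAdjoint.of_nonneg (hpos k)
  have hSsa : IsSelfAdjoint (S : Op G) := by
    rw [ContinuousLinearMap.isSelfAdjoint_iff_isSymmetric]
    intro ξ η
    have h7 : Tendsto (fun k => inner ℂ ((T k : Op G) ξ) η) atTop (𝓝 (inner ℂ ((S : Op G) ξ) η)) :=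
      (hS2 ξ).inner tendsto_const_nhds
    have h8 : Tendsto (fun k => inner ℂ ξ ((T k : Op G) η)) atTop (𝓝 (inner ℂ ξ ((S : Op G) η))) :=
      tendsto_const_nhds.inner (hS2 η)
    have h9 : (fun k => inner ℂ ((T k : Op G) ξ) η) = fun k => inner ℂ ξ ((T k : Op G) η) := by
      funext k
      exact (ContinuousLinearMap.isSelfAdjoint_iff_isSymmetric.1 (hsa k)) ξ η
    rw [h9] at h7
    exact tendsto_nhds_unique h7 h8
  have hle : ∀ (A B : Op G), IsSelfAdjoint A → IsSelfAdjoint B →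
      (∀ ξ, A.reApplyInnerSelf ξ ≤ B.reApplyInnerSelf ξ) → A ≤ B := by
    intro A B hA hB h
    rw [ContinuousLinearMap.le_def]
    refine ⟨ContinuousLinearMap.isSelfAdjoint_iff_isSymmetric.1 (hB.sub hA), fun ξ => ?_⟩
    have h2 := h ξ
    simp only [ContinuousLinearMap.reApplyInnerSelf_apply] at h2 ⊢
    rw [ContinuousLinearMap.sub_apply, inner_sub_left, map_sub]
    linarith
  refine ⟨S, fun k => ?_, ?_, hS2⟩
  · refine hle _ _ (hsa k) hSsa fun ξ => ?_
    refine ge_of_tendsto (hlim ξ) ?_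
    filter_upwards [eventually_ge_atTop k] with l hl
    exact hre _ _ (hmono hl) ξ
  · refine hle _ _ hSsa (IsSelfAdjoint.one _) fun ξ => ?_
    exact le_of_tendsto (hlim ξ) (Eventually.of_forall fun k => hre _ _ (hb k) ξ)

end TCOMP

end Pool.Agent.H667R2.FG.TTCOMP

namespace Pool.Agent.H667R2.FG

alias ball_complete := TTCOMP.ball_complete
alias mono_conv := TTCOMP.mono_conv

end Pool.Agent.H667R2.FG
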