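import Mathlib
import Pool.Agent.H667R2.FG.Defs
import Pool.Agent.H667R2.FG.OpDefs
import Pool.Agent.H667R2.FG.Herm
import Pool.Agent.H667R2.FG.TL2
import Pool.Agent.H667R2.FG.TTPOS
import Pool.Agent.H667R2.FG.TTCOMP

/-! Task TMON (helper634). -/

namespace Pool.Agent.H667R2.FG.TTMON

open Matrix Filter
open scoped ComplexConjugate Topology InnerProductSpace

variable {G G' : Type} [Group G] [Group G']

theorem tmon_inner (x : Op G) : ⟪delta (1 : G), x (delta 1)⟫_ℂ = tau x := by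
  classical
  unfold delta tau delta
  rw [lp.inner_eq_tsum]
  rw [tsum_eq_single (1 : G)]
  · simp
  · intro g hg
    simp [hg]

theorem tmon_re_nonneg {x : Op G} (hx : 0 ≤ x) : 0 ≤ (tau x).re := by
  rw [← tmon_inner]
  exact ((ContinuousLinearMap.nonneg_iff_isPositive x).1 hx).re_inner_nonneg_right (delta 1)

theorem tmon_tau_sub (x y : Op G) : tau (x - y) = tau x - tau y := by
  unfold tau
  simp

theorem tmon_sub_nonneg {x y : Op G} : 0 ≤ x - y ↔ y ≤ x := sub_nonneg

theorem tmon_abs {E : Type*} [NormedAddCommGroup E] [InnerProductSpace ℂ E] [CompleteSpace E]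
    {x : E →L[ℂ] E} (hx : 0 ≤ x) {v : E} (h : (⟪v, x v⟫_ℂ).re = 0) : x v = 0 := by
  set s := CFC.sqrt x with hs
  have h1 : s * s = x := CFC.sqrt_mul_sqrt_self x hx
  have h2 : IsSelfAdjoint s := (CFC.sqrt_nonneg x).isSelfAdjoint
  have h3 : ⟪v, x v⟫_ℂ = ⟪s v, s v⟫_ℂ := by
    rw [← h1, ContinuousLinearMap.mul_apply]
    rw [← ContinuousLinearMap.adjoint_inner_left]
    rw [← ContinuousLinearMap.star_eq_adjoint, h2.star_eq]
  rw [h3, inner_self_eq_norm_sq_to_K] at h
  have h4 : ‖s v‖ ^ 2 = 0 := by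
    have : (((‖s v‖ : ℂ)) ^ 2).re = 0 := h
    rw [← Complex.ofReal_pow, Complex.ofReal_re] at this
    exact this
  have h5 : s v = 0 := by
    rw [← norm_eq_zero]
    exact pow_eq_zero_iff (two_ne_zero) |>.1 h4
  rw [← h1, ContinuousLinearMap.mul_apply, h5, map_zero]

theorem tmon_zero {x : Op G} (hx : 0 ≤ x) (h : (tau x).re = 0) : x (delta 1) = 0 := by
  rw [← tmon_inner] at h
  exact tmon_abs hx h

/-! ## Task TMON (uses TPOS, TCOMP) -/
theorem mono_limit (θ : EltG G ≃⋆ₐ[ℂ] EltG G') (e : ℕ → EltG G)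
    (h0 : ∀ k, 0 ≤ (e k : Op G)) (h1 : ∀ k, (e (k + 1) : Op G) ≤ (e k : Op G))
    (hb : (e 0 : Op G) ≤ 1) (ht : Tendsto (fun k => tau (e k : Op G)) atTop (𝓝 0)) :
    Tendsto (fun k => tau (θ (e k) : Op G')) atTop (𝓝 0) := by
  have hle : ∀ {H H' : Type} [Group H] [Group H'] (φ : EltG H ≃⋆ₐ[ℂ] EltG H') (x y : EltG H),
      (x : Op H) ≤ (y : Op H) → (φ x : Op H') ≤ (φ y : Op H') := by
    intro H H' _ _ φ x y hxy
    have k1 := theta_pos φ (y - x) (by
      rw [AddSubgroupClass.coe_sub]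
      exact sub_nonneg.2 hxy)
    rw [map_sub, AddSubgroupClass.coe_sub] at k1
    exact sub_nonneg.1 k1
  have hone : ((θ 1 : EltG G') : Op G') = 1 := by
    rw [map_one]
    rfl
  have hcoe1 : ((1 : EltG G) : Op G) = 1 := rfl
  have hcoe1' : ((1 : EltG G') : Op G') = 1 := rfl
  have ha0 : ∀ k, 0 ≤ (θ (e k) : Op G') := fun k => theta_pos θ (e k) (h0 k)
  have ha1 : ∀ k, (θ (e (k + 1)) : Op G') ≤ (θ (e k) : Op G') := fun k => hle θ _ _ (h1 k)
  have hab : (θ (e 0) : Op G') ≤ 1 := by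
    have := hle θ (e 0) 1 (by rw [hcoe1]; exact hb)
    rwa [hone] at this
  obtain ⟨S, hS1, hS2, hS3⟩ := mono_conv (G := G') (fun k => 1 - θ (e k))
    (by
      intro k
      rw [AddSubgroupClass.coe_sub, AddSubgroupClass.coe_sub]
      exact sub_le_sub_left (ha1 k) _)
    (by
      rw [AddSubgroupClass.coe_sub, hcoe1']
      exact sub_nonneg.2 hab)
    (by
      intro k
      rw [AddSubgroupClass.coe_sub, hcoe1']
      exact sub_le_self _ (ha0 k))
  set a : EltG G' := 1 - S with ha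
  have ha_nonneg : 0 ≤ (a : Op G') := by
    rw [ha, AddSubgroupClass.coe_sub, hcoe1']
    exact sub_nonneg.2 hS2
  have ha_le : ∀ k, (a : Op G') ≤ (θ (e k) : Op G') := by
    intro k
    have := hS1 k
    rw [AddSubgroupClass.coe_sub, hcoe1'] at this
    rw [ha, AddSubgroupClass.coe_sub, hcoe1']
    exact sub_le_comm.1 this
  set c : EltG G := θ.symm a with hc
  have hc_nonneg : 0 ≤ (c : Op G) := theta_pos θ.symm a ha_nonneg
  have hc_le : ∀ k, (c : Op G) ≤ (e k : Op G) := by
    intro k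
    have := hle θ.symm a (θ (e k)) (ha_le k)
    rwa [StarAlgEquiv.symm_apply_apply] at this
  have hre : ∀ k, (tau (c : Op G)).re ≤ (tau (e k : Op G)).re := by
    intro k
    have h2 := tmon_re_nonneg (sub_nonneg.2 (hc_le k))
    rw [tmon_tau_sub, Complex.sub_re] at h2
    linarith
  have htr : Tendsto (fun k => (tau (e k : Op G)).re) atTop (𝓝 0) := by
    have := (Complex.continuous_re.tendsto (0 : ℂ)).comp ht
    exact this
  have hc0 : (tau (c : Op G)).re = 0 :=
    le_antisymm (ge_of_tendsto' htr hre) (tmon_re_nonneg hc_nonneg)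
  have hcz : (c : Op G) = 0 := eq_zero_of_delta c (tmon_zero hc_nonneg hc0)
  have hcz' : c = 0 := Subtype.ext hcz
  have haz : a = 0 := by
    have : θ c = a := by rw [hc, StarAlgEquiv.apply_symm_apply]
    rw [← this, hcz', map_zero]
  have hSone : S = 1 := by
    have : 1 - S = 0 := haz
    exact (sub_eq_zero.1 this).symm
  have hlim := hS3 (delta 1)
  rw [hSone, hcoe1'] at hlim
  have hlim2 : Tendsto (fun k => (θ (e k) : Op G') (delta 1)) atTop (𝓝 0) := by
    have h2 : Tendsto (fun k => delta (1 : G') - ((1 - θ (e k) : EltG G') : Op G') (delta 1)) atTop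
        (𝓝 (delta 1 - (1 : Op G') (delta 1))) := tendsto_const_nhds.sub hlim
    have h3 : delta (1 : G') - (1 : Op G') (delta 1) = 0 := by simp
    rw [h3] at h2
    refine h2.congr fun k => ?_
    rw [AddSubgroupClass.coe_sub, hcoe1']
    simp
  have hlim3 : Tendsto (fun k => ‖(θ (e k) : Op G') (delta 1)‖) atTop (𝓝 0) := by
    simpa using hlim2.norm
  refine squeeze_zero_norm (fun k => ?_) hlim3
  unfold tau
  exact lp.norm_apply_le_norm (by norm_num) _ _

end Pool.Agent.H667R2.FG.TTMON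

namespace Pool.Agent.H667R2.FG

alias mono_limit := TTMON.mono_limit

end Pool.Agent.H667R2.FG
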