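import Mathlib
import Pool.Agent.H667R2.FG.Defs
import Pool.Agent.H667R2.FG.OpDefs
import Pool.Agent.H667R2.FG.Herm
import Pool.Agent.H667R2.FG.TL2
import Pool.Agent.H667R2.FG.TTPOS
import Pool.Agent.H667R2.FG.TTCOMP
import Pool.Agent.H667R2.FG.TTMON

/-!
# Task TRAP: rapidly decreasing traces
-/

namespace Pool.Agent.H667R2.FG.TTRAP

open Matrix Filter
open scoped ComplexConjugate Topology

section hop

variable {A : Type*} [CStarAlgebra A] [PartialOrder A] [StarOrderedRing A]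

/-- `s (1+s)⁻¹` -/
noncomputable def trHop (s : A) : A := cfc (fun x : ℝ => 1 - (1 + x)⁻¹) s

theorem trHop_cont {s : A} (hs : 0 ≤ s) :
    ContinuousOn (fun x : ℝ => 1 - (1 + x)⁻¹) (spectrum ℝ s) := by
  refine continuousOn_const.sub ((continuousOn_const.add continuousOn_id).inv₀ ?_)
  intro x hx
  have := spectrum_nonneg_of_nonneg hs hx
  show (1 : ℝ) + x ≠ 0
  positivity

theorem trHop_cont1 {s : A} (hs : 0 ≤ s) :
    ContinuousOn (fun x : ℝ => 1 - (1 + x)⁻¹) (quasispectrum ℝ s) := by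
  refine continuousOn_const.sub ((continuousOn_const.add continuousOn_id).inv₀ ?_)
  intro x hx
  have := quasispectrum_nonneg_of_nonneg s hs x hx
  show (1 : ℝ) + x ≠ 0
  positivity

theorem trHop_nonneg {s : A} (hs : 0 ≤ s) : 0 ≤ trHop s := by
  refine cfc_nonneg fun x hx => ?_
  have := spectrum_nonneg_of_nonneg hs hx
  have h1 : (1 + x)⁻¹ ≤ 1 := inv_le_one_of_one_le₀ (by linarith)
  linarith

theorem trHop_le_one {s : A} (hs : 0 ≤ s) : trHop s ≤ 1 := by
  refine cfc_le_one _ _ fun x hx => ?_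
  have := spectrum_nonneg_of_nonneg hs hx
  have h1 : 0 ≤ (1 + x)⁻¹ := by positivity
  linarith

theorem trHop_le_self {s : A} (hs : 0 ≤ s) : trHop s ≤ s := by
  have h1 : cfc (fun x : ℝ => 1 - (1 + x)⁻¹) s ≤ cfc (fun x : ℝ => x) s := by
    refine cfc_mono ?_ (trHop_cont hs) continuousOn_id
    intro x hx
    have := spectrum_nonneg_of_nonneg hs hx
    have h2 : 0 < 1 + x := by linarith
    rw [sub_le_iff_le_add, ← sub_nonneg]
    have h3 : x + (1 + x)⁻¹ - 1 = x ^ 2 / (1 + x) := by field_simp; ring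
    rw [h3]
    positivity
  have h2 : cfc (fun x : ℝ => x) s = s := cfc_id' ℝ s (IsSelfAdjoint.of_nonneg hs)
  rw [h2] at h1
  exact h1

theorem trHop_aux1 {s t : A} (hs : 0 ≤ s) (hst : s ≤ t) :
    cfcₙ (fun x : ℝ => 1 - (1 + x)⁻¹) s ≤ cfcₙ (fun x : ℝ => 1 - (1 + x)⁻¹) t :=
  CFC.monotoneOn_one_sub_one_add_inv_real (Set.mem_Ici.2 hs) (Set.mem_Ici.2 (hs.trans hst)) hst

theorem trHop_aux2 {s : A} (hs : 0 ≤ s) :
    cfcₙ (fun x : ℝ => 1 - (1 + x)⁻¹) s = cfc (fun x : ℝ => 1 - (1 + x)⁻¹) s :=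
  cfcₙ_eq_cfc (trHop_cont1 hs) (by simp)

theorem trHop_mono {s t : A} (hs : 0 ≤ s) (hst : s ≤ t) : trHop s ≤ trHop t := by
  unfold trHop
  rw [← trHop_aux2 hs, ← trHop_aux2 (hs.trans hst)]
  exact trHop_aux1 hs hst

theorem trHop_zero : trHop (0 : A) = 0 := le_antisymm (trHop_le_self le_rfl) (trHop_nonneg le_rfl)

theorem le_trHop {s : A} (hs : 0 ≤ s) {c : ℝ} (hc : ‖s‖ ≤ c) : s ≤ 1 + c • trHop s := by
  rcases subsingleton_or_nontrivial A with h | h
  · exact le_of_eq (Subsingleton.elim _ _)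
  have h1 : cfc (fun x : ℝ => x) s ≤ cfc (fun x : ℝ => 1 + c * (1 - (1 + x)⁻¹)) s := by
    refine cfc_mono ?_ continuousOn_id
      (continuousOn_const.add (continuousOn_const.mul (trHop_cont hs)))
    intro x hx
    have h0 := spectrum_nonneg_of_nonneg hs hx
    have h2 : ‖x‖ ≤ c := (spectrum.norm_le_norm_of_mem hx).trans hc
    have h3 : x ≤ c := (le_abs_self x).trans h2
    have h4 : 0 < 1 + x := by linarith
    rw [← sub_nonneg]
    have h5 : 1 + c * (1 - (1 + x)⁻¹) - x = (1 + (c - x) * x) / (1 + x) := by field_simp; ring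
    rw [h5]
    have h6 : 0 ≤ (c - x) * x := mul_nonneg (by linarith) h0
    positivity
  rw [cfc_id' ℝ s (IsSelfAdjoint.of_nonneg hs)] at h1
  rw [cfc_const_add _ _ _ (by exact continuousOn_const.mul (trHop_cont hs)), cfc_const_mul _ _ _ (trHop_cont hs)] at h1
  unfold trHop
  simpa using h1

theorem le_trHop_nat {s : A} (hs : 0 ≤ s) {c : ℕ} (hc : ‖s‖ ≤ c) : s ≤ 1 + c • trHop s := by
  have h := le_trHop hs hc
  rwa [Nat.cast_smul_eq_nsmul] at h

theorem trHop_commute {A : Type*} [CStarAlgebra A] {s c : A} (h : Commute s c) :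
    Commute (trHop s) c := h.cfc_real _

end hop

section trace

variable {G : Type} [Group G]

theorem tr_mem {s : Op G} (hs : s ∈ (LG G).toStarSubalgebra) :
    trHop s ∈ (LG G).toStarSubalgebra := by
  have h : ∀ x : Op G, x ∈ (LG G).toStarSubalgebra ↔
      ∀ c ∈ (StarSubalgebra.centralizer ℂ (Set.range (lam (G := G))) : Set (Op G)),
        c * x = x * c ∧ star c * x = x * star c := fun x =>
    StarSubalgebra.mem_centralizer_iff ℂ
  rw [h] at hs ⊢
  intro c hc
  obtain ⟨h1, h2⟩ := hs c hc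
  have h3 : Commute s c := h1.symm
  have h4 : Commute s (star c) := h2.symm
  exact ⟨(trHop_commute h3).eq.symm, (trHop_commute h4).eq.symm⟩

/-- `s (1+s)⁻¹` in `L(G)` -/
noncomputable def trG (s : EltG G) : EltG G := ⟨trHop (s : Op G), tr_mem s.2⟩

theorem tr_tau_inner (x : Op G) : tau x = inner ℂ (delta (1 : G)) (x (delta 1)) := by
  let _ := Classical.decEq G
  unfold tau delta
  rw [lp.inner_single_left]
  simp

theorem tr_tau_nonneg {x : Op G} (hx : 0 ≤ x) : 0 ≤ (tau x).re ∧ (tau x).im = 0 := by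
  rw [ContinuousLinearMap.nonneg_iff_isPositive] at hx
  have h := hx.inner_nonneg_right (delta (1 : G))
  rw [← tr_tau_inner, Complex.nonneg_iff] at h
  exact ⟨h.1, h.2.symm⟩

theorem tr_tau_norm {x : Op G} (hx : 0 ≤ x) : ‖tau x‖ = (tau x).re := by
  obtain ⟨h1, h2⟩ := tr_tau_nonneg hx
  have h3 : tau x = ((tau x).re : ℂ) := by
    apply Complex.ext
    · simp
    · simpa using h2
  rw [h3, Complex.norm_real, Complex.ofReal_re, Real.norm_eq_abs, abs_of_nonneg h1]

theorem tr_tau_add (x y : Op G) : tau (x + y) = tau x + tau y := rfl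

theorem tr_tau_sub (x y : Op G) : tau (x - y) = tau x - tau y := rfl

theorem tr_tau_zero : tau (0 : Op G) = 0 := rfl

theorem tr_tau_nsmul (n : ℕ) (x : Op G) : tau (n • x) = n * tau x := by
  induction n with
  | zero => rw [zero_smul, Nat.cast_zero, zero_mul]; exact tr_tau_zero
  | succ n ih => rw [succ_nsmul, tr_tau_add, ih]; push_cast; ring

theorem tr_tau_sum {ι : Type} (s : Finset ι) (f : ι → Op G) :
    tau (∑ i ∈ s, f i) = ∑ i ∈ s, tau (f i) := by
  classical
  induction s using Finset.induction_on with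
  | empty => rw [Finset.sum_empty, Finset.sum_empty]; exact tr_tau_zero
  | insert a s ha ih => rw [Finset.sum_insert ha, Finset.sum_insert ha, tr_tau_add, ih]

theorem tr_tau_one : tau (1 : Op G) = 1 := by
  unfold tau delta
  simp

theorem tr_tau_mono {x y : Op G} (h : x ≤ y) : (tau x).re ≤ (tau y).re := by
  have h1 := (tr_tau_nonneg (sub_nonneg.2 h)).1
  rw [tr_tau_sub, Complex.sub_re] at h1
  linarith

theorem tr_tau_lim {T : ℕ → Op G} {S : Op G}
    (h : ∀ ξ : Ell G, Tendsto (fun k => T k ξ) atTop (𝓝 (S ξ))) :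
    Tendsto (fun k => tau (T k)) atTop (𝓝 (tau S)) := by
  simp_rw [tr_tau_inner]
  exact tendsto_const_nhds.inner (h _)

theorem tr_le_lim {T : ℕ → Op G} {S B : Op G}
    (h : ∀ ξ : Ell G, Tendsto (fun k => T k ξ) atTop (𝓝 (S ξ))) (hB : ∀ k, T k ≤ B) : S ≤ B := by
  rw [ContinuousLinearMap.le_def, ContinuousLinearMap.isPositive_iff_complex]
  intro x
  have h1 : Tendsto (fun k => inner ℂ ((B - T k) x) x) atTop (𝓝 (inner ℂ ((B - S) x) x)) := by
    refine Tendsto.inner ?_ tendsto_const_nhds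
    show Tendsto (fun k => B x - T k x) atTop (𝓝 (B x - S x))
    exact tendsto_const_nhds.sub (h x)
  have h2 : ∀ k, 0 ≤ (inner ℂ ((B - T k) x) x).re ∧ (inner ℂ ((B - T k) x) x).im = 0 := by
    intro k
    have h3 := (ContinuousLinearMap.le_def _ _).1 (hB k)
    have h4 := h3.inner_nonneg_left x
    rw [Complex.nonneg_iff] at h4
    exact ⟨h4.1, h4.2.symm⟩
  have hre := (Complex.continuous_re.tendsto _).comp h1
  have him := (Complex.continuous_im.tendsto _).comp h1
  have h3 : 0 ≤ (inner ℂ ((B - S) x) x).re := ge_of_tendsto' hre fun k => (h2 k).1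
  have h4 : (inner ℂ ((B - S) x) x).im = 0 := by
    refine tendsto_nhds_unique him ?_
    have : (Complex.im ∘ fun k => inner ℂ ((B - T k) x) x) = fun _ => (0 : ℝ) := by
      funext k
      exact (h2 k).2
    rw [this]
    exact tendsto_const_nhds
  exact ⟨Complex.ext rfl h4.symm, h3⟩

end trace

section main

variable {G G' : Type} [Group G] [Group G']

/-- the partial sums -/
noncomputable def trS (y : ℕ → EltG G) (l j : ℕ) : EltG G :=
  ∑ k ∈ Finset.range j, (2 ^ (l + k)) • y (l + k)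

theorem trS_coe (y : ℕ → EltG G) (l j : ℕ) :
    (trS y l j : Op G) = ∑ k ∈ Finset.range j, (2 ^ (l + k)) • (y (l + k) : Op G) := by
  unfold trS
  induction j with
  | zero => rw [Finset.sum_range_zero, Finset.sum_range_zero]; rfl
  | succ j ih => rw [Finset.sum_range_succ, Finset.sum_range_succ, ← ih]; rfl

theorem tr_geom (j : ℕ) : ∑ k ∈ Finset.range j, (1 / 8 : ℝ) ^ k ≤ 2 := by
  have h : ∀ j : ℕ, ∑ k ∈ Finset.range j, (1 / 8 : ℝ) ^ k = 8 / 7 - 8 / 7 * (1 / 8) ^ j := by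
    intro j
    induction j with
    | zero => simp
    | succ j ih => rw [Finset.sum_range_succ, ih, pow_succ]; ring
  rw [h]
  have : (0 : ℝ) < (1 / 8) ^ j := by positivity
  linarith

theorem rapid (θ : EltG G ≃⋆ₐ[ℂ] EltG G') (y : ℕ → EltG G) (C : ℝ)
    (h0 : ∀ k, 0 ≤ (y k : Op G)) (hC : ∀ k, ‖(y k : Op G)‖ ≤ C)
    (ht : ∀ k, (tau (y k : Op G)).re ≤ (1 / 16 : ℝ) ^ k) :
    Tendsto (fun k => tau (θ (y k) : Op G')) atTop (𝓝 0) := by
  obtain ⟨Cn, hCn⟩ := exists_nat_ge C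
  have hterm : ∀ m, (0 : Op G) ≤ (2 ^ m) • (y m : Op G) := fun m => nsmul_nonneg (h0 m) _
  have hS0 : ∀ l j, (0 : Op G) ≤ (trS y l j : Op G) := by
    intro l j
    rw [trS_coe]
    exact Finset.sum_nonneg fun k _ => hterm _
  have hSj : ∀ l j, (trS y l j : Op G) ≤ (trS y l (j + 1) : Op G) := by
    intro l j
    rw [trS_coe, trS_coe, Finset.sum_range_succ]
    exact le_add_of_nonneg_right (hterm _)
  have hSl : ∀ l j, (trS y (l + 1) j : Op G) ≤ (trS y l (j + 1) : Op G) := by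
    intro l j
    rw [trS_coe, trS_coe, Finset.sum_range_succ']
    have : ∑ k ∈ Finset.range j, (2 ^ (l + 1 + k)) • (y (l + 1 + k) : Op G) =
        ∑ k ∈ Finset.range j, (2 ^ (l + (k + 1))) • (y (l + (k + 1)) : Op G) := by
      refine Finset.sum_congr rfl fun k _ => ?_
      rw [show l + 1 + k = l + (k + 1) by ring]
    rw [this]
    exact le_add_of_nonneg_right (hterm _)
  -- the limits
  have hlim : ∀ l, ∃ S : EltG G, (∀ j, (trG (trS y l j) : Op G) ≤ (S : Op G)) ∧ (S : Op G) ≤ 1 ∧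
      ∀ ξ : Ell G, Tendsto (fun j => (trG (trS y l j) : Op G) ξ) atTop (𝓝 ((S : Op G) ξ)) := by
    intro l
    exact mono_conv (fun j => trG (trS y l j)) (fun j => trHop_mono (hS0 l j) (hSj l j))
      (trHop_nonneg (hS0 l 0)) (fun j => trHop_le_one (hS0 l j))
  choose e he1 he2 he3 using hlim
  have he0 : ∀ l, (0 : Op G) ≤ (e l : Op G) := fun l =>
    (trHop_nonneg (hS0 l 0)).trans (he1 l 0)
  have hdec : ∀ l, (e (l + 1) : Op G) ≤ (e l : Op G) := by
    intro l
    refine tr_le_lim (he3 (l + 1)) fun j => ?_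
    exact (trHop_mono (hS0 (l + 1) j) (hSl l j)).trans (he1 l (j + 1))
  have htau : ∀ l, (tau (e l : Op G)).re ≤ 2 * (1 / 8 : ℝ) ^ l := by
    intro l
    have h1 := (Complex.continuous_re.tendsto _).comp (tr_tau_lim (he3 l))
    refine le_of_tendsto' h1 fun j => ?_
    have h2 : (tau (trG (trS y l j) : Op G)).re ≤ (tau (trS y l j : Op G)).re :=
      tr_tau_mono (trHop_le_self (hS0 l j))
    refine h2.trans ?_
    rw [trS_coe, tr_tau_sum, Complex.re_sum]
    calc ∑ k ∈ Finset.range j, (tau ((2 ^ (l + k)) • (y (l + k) : Op G))).re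
        ≤ ∑ k ∈ Finset.range j, (1 / 8 : ℝ) ^ l * (1 / 8) ^ k := by
          refine Finset.sum_le_sum fun k _ => ?_
          rw [tr_tau_nsmul]
          have h3 : (((2 ^ (l + k) : ℕ) : ℂ) * tau (y (l + k) : Op G)).re =
              (2 : ℝ) ^ (l + k) * (tau (y (l + k) : Op G)).re := by
            push_cast
            have : ((2 : ℂ) ^ (l + k)) = (((2 : ℝ) ^ (l + k) : ℝ) : ℂ) := by push_cast; rfl
            rw [this, Complex.re_ofReal_mul]
          rw [h3]
          calc (2 : ℝ) ^ (l + k) * (tau (y (l + k) : Op G)).re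
              ≤ (2 : ℝ) ^ (l + k) * (1 / 16 : ℝ) ^ (l + k) :=
                mul_le_mul_of_nonneg_left (ht _) (by positivity)
            _ = (1 / 8 : ℝ) ^ l * (1 / 8) ^ k := by
                rw [← mul_pow, ← pow_add]; norm_num
      _ = (1 / 8 : ℝ) ^ l * ∑ k ∈ Finset.range j, (1 / 8 : ℝ) ^ k := by rw [Finset.mul_sum]
      _ ≤ (1 / 8 : ℝ) ^ l * 2 := mul_le_mul_of_nonneg_left (tr_geom j) (by positivity)
      _ = 2 * (1 / 8 : ℝ) ^ l := by ring
  have htau0 : Tendsto (fun l => tau (e l : Op G)) atTop (𝓝 0) := by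
    have h1 : Tendsto (fun l : ℕ => 2 * (1 / 8 : ℝ) ^ l) atTop (𝓝 (2 * 0)) :=
      (tendsto_pow_atTop_nhds_zero_of_lt_one (by norm_num) (by norm_num)).const_mul 2
    rw [mul_zero] at h1
    refine squeeze_zero_norm (fun l => ?_) h1
    rw [tr_tau_norm (he0 l)]
    exact htau l
  have hmain := mono_limit θ e he0 hdec (he2 0) htau0
  -- the comparison
  have hcomp : ∀ k, ‖tau (θ (y k) : Op G')‖ ≤ (1 / 2 : ℝ) ^ k + Cn * ‖tau (θ (e k) : Op G')‖ := by
    intro k
    have hz : (0 : Op G) ≤ (2 ^ k) • (y k : Op G) := hterm k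
    have hn : ‖(2 ^ k) • (y k : Op G)‖ ≤ ((2 ^ k * Cn : ℕ) : ℝ) := by
      refine (norm_nsmul_le).trans ?_
      push_cast
      exact mul_le_mul_of_nonneg_left ((hC k).trans hCn) (by positivity)
    have h1 := le_trHop_nat hz hn
    have h2 : trHop ((2 ^ k) • (y k : Op G)) ≤ (e k : Op G) := by
      have h3 := he1 k 1
      have h4 : (trS y k 1 : Op G) = (2 ^ k) • (y k : Op G) := by
        rw [trS_coe, Finset.sum_range_one, add_zero]
      have h5 : (trG (trS y k 1) : Op G) = trHop ((2 ^ k) • (y k : Op G)) := by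
        show trHop (trS y k 1 : Op G) = _
        rw [h4]
      rwa [h5] at h3
    have h3 : (2 ^ k) • (y k : Op G) ≤ 1 + (2 ^ k * Cn) • (e k : Op G) :=
      h1.trans (add_le_add_right (nsmul_le_nsmul_right h2 _) _)
    have h4 : (0 : Op G) ≤ ((1 + (2 ^ k * Cn) • e k - (2 ^ k) • y k : EltG G) : Op G) :=
      sub_nonneg.2 h3
    have h5 := theta_pos θ _ h4
    have h6 : (θ (1 + (2 ^ k * Cn) • e k - (2 ^ k) • y k) : Op G') =
        1 + (2 ^ k * Cn) • (θ (e k) : Op G') - (2 ^ k) • (θ (y k) : Op G') := by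
      rw [map_sub, map_add, map_one, map_nsmul, map_nsmul]
      rfl
    rw [h6] at h5
    have h7 := (tr_tau_nonneg h5).1
    rw [tr_tau_sub, tr_tau_add, tr_tau_one, tr_tau_nsmul, tr_tau_nsmul] at h7
    have hy := tr_tau_norm (theta_pos θ _ (h0 k))
    have hee := tr_tau_norm (theta_pos θ _ (he0 k))
    rw [hy, hee]
    have h8 : ((1 : ℂ) + ((2 ^ k * Cn : ℕ) : ℂ) * tau (θ (e k) : Op G') -
        ((2 ^ k : ℕ) : ℂ) * tau (θ (y k) : Op G')).re =
        1 + (2 : ℝ) ^ k * Cn * (tau (θ (e k) : Op G')).re -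
          (2 : ℝ) ^ k * (tau (θ (y k) : Op G')).re := by
      rw [Complex.sub_re, Complex.add_re, Complex.one_re]
      have e1 : ((2 ^ k * Cn : ℕ) : ℂ) = (((2 : ℝ) ^ k * Cn : ℝ) : ℂ) := by push_cast; rfl
      have e2 : ((2 ^ k : ℕ) : ℂ) = (((2 : ℝ) ^ k : ℝ) : ℂ) := by push_cast; rfl
      rw [e1, e2, Complex.re_ofReal_mul, Complex.re_ofReal_mul]
    rw [h8] at h7
    have h9 : (0 : ℝ) < 2 ^ k := by positivity
    have h10 : (1 / 2 : ℝ) ^ k = 1 / 2 ^ k := by rw [div_pow, one_pow]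
    rw [h10]
    have h11 : (tau (θ (y k) : Op G')).re * 2 ^ k ≤
        (1 / 2 ^ k + Cn * (tau (θ (e k) : Op G')).re) * 2 ^ k := by
      rw [add_mul, one_div, inv_mul_cancel₀ h9.ne']
      linarith
    exact le_of_mul_le_mul_right h11 h9
  have h1 : Tendsto (fun k : ℕ => (1 / 2 : ℝ) ^ k + Cn * ‖tau (θ (e k) : Op G')‖) atTop
      (𝓝 (0 + Cn * 0)) := by
    refine (tendsto_pow_atTop_nhds_zero_of_lt_one (by norm_num) (by norm_num)).add ?_
    refine Tendsto.const_mul _ ?_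
    rw [← norm_zero (E := ℂ)]
    exact hmain.norm
  rw [mul_zero, add_zero] at h1
  exact squeeze_zero_norm hcomp h1

end main

end Pool.Agent.H667R2.FG.TTRAP

namespace Pool.Agent.H667R2.FG

alias rapid := TTRAP.rapid

end Pool.Agent.H667R2.FG
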