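import Mathlib
import Pool.Agent.H667R2.FG.Defs
import Pool.Agent.H667R2.FG.OpDefs
import Pool.Agent.H667R2.FG.Herm
import Pool.Agent.H667R2.FG.TL2
import Pool.Agent.H667R2.FG.TTPOS
import Pool.Agent.H667R2.FG.TTRAP
import Pool.Agent.H667R2.FG.TTKAP
import Pool.Agent.H667R2.FG.TTPOW
import Pool.Agent.H667R2.FG.LamE

namespace Pool.Agent.H667R2.FG.TTTP

open Matrix Filter
open scoped ComplexConjugate Topology

section TTP

variable {G G' : Type} [Group G] [Group G']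

theorem ttp_tau_add (x y : Op G) : tau (x + y) = tau x + tau y := rfl

theorem ttp_tau_sub (x y : Op G) : tau (x - y) = tau x - tau y := rfl

theorem ttp_tau_smul (c : ℂ) (x : Op G) : tau (c • x) = c * tau x := rfl

theorem ttp_tau_zero : tau (0 : Op G) = 0 := rfl

theorem ttp_tau_sum {ι : Type} (s : Finset ι) (f : ι → Op G) :
    tau (∑ i ∈ s, f i) = ∑ i ∈ s, tau (f i) := by
  classical
  induction s using Finset.induction_on with
  | empty => simp [ttp_tau_zero]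
  | insert a s ha ih => rw [Finset.sum_insert ha, Finset.sum_insert ha, ttp_tau_add, ih]

theorem ttp_norm_tau (x : Op G) : ‖tau x‖ ≤ ‖x‖ := by
  calc ‖tau x‖ ≤ ‖x (delta 1)‖ := norm_tau_le x
    _ ≤ ‖x‖ * ‖(delta 1 : Ell G)‖ := x.le_opNorm _
    _ = ‖x‖ := by rw [norm_delta, mul_one]

theorem ttp_tau_lam (g : G) [Decidable (g = 1)] : tau (lam g) = if g = 1 then 1 else 0 := by
  classical
  unfold tau
  rw [lam_delta, mul_one, delta_apply]
  by_cases h : g = 1
  · simp [h]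
  · rw [if_neg h, if_neg (fun h' => h h'.symm)]

theorem ttp_tau_one : tau (1 : Op G) = 1 := by
  classical
  have h := ttp_tau_lam (G := G) 1
  rw [lam_one] at h
  simpa using h

theorem ttp_lamE_mul (g h : G) : lamE (g * h) = lamE g * lamE h :=
  Subtype.ext (lam_mul g h)

theorem ttp_lamE_one : lamE (1 : G) = 1 := Subtype.ext lam_one

theorem ttp_conj (θ : EltG G ≃⋆ₐ[ℂ] EltG G') (g w : G) :
    tau (θ (lamE (g * w * g⁻¹)) : Op G') = tau (θ (lamE w) : Op G') := by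
  have h1 : lamE (g * w * g⁻¹) = lamE g * (lamE w * lamE g⁻¹) := by
    rw [mul_assoc, ttp_lamE_mul, ttp_lamE_mul]
  have h2 : (lamE w * lamE g⁻¹) * lamE g = lamE w := by
    rw [mul_assoc, ← ttp_lamE_mul, inv_mul_cancel, ttp_lamE_one, mul_one]
  calc tau (θ (lamE (g * w * g⁻¹)) : Op G')
      = tau ((θ (lamE g) : Op G') * (θ (lamE w * lamE g⁻¹) : Op G')) := by
        rw [h1, map_mul θ (lamE g) (lamE w * lamE g⁻¹)]; rfl
    _ = tau ((θ (lamE w * lamE g⁻¹) : Op G') * (θ (lamE g) : Op G')) := tau_mul_comm _ _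
    _ = tau (θ ((lamE w * lamE g⁻¹) * lamE g) : Op G') := by
        rw [map_mul θ (lamE w * lamE g⁻¹) (lamE g)]; rfl
    _ = _ := by rw [h2]

/-- the trace of the image of a nontrivial group element vanishes -/
theorem ttp_zero (m : ℕ) (hm : 2 ≤ m) (θ : EltG (FreeGroup (Fin m)) ≃⋆ₐ[ℂ] EltG G')
    (w : FreeGroup (Fin m)) (hw : w ≠ 1) : tau (θ (lamE w) : Op G') = 0 := by
  have key : ∀ N : ℕ, (N : ℝ) * ‖tau (θ (lamE w) : Op G')‖ ≤ 2 * √N := by
    intro N
    obtain ⟨g, hg⟩ := powers m hm w hw N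
    have h1 : ((∑ i, lamE (g i * w * (g i)⁻¹) : EltG (FreeGroup (Fin m))) :
        Op (FreeGroup (Fin m))) = ∑ i, lam (g i * w * (g i)⁻¹) := by
      rw [AddSubmonoidClass.coe_finsetSum]
      rfl
    have h2 : tau (θ (∑ i, lamE (g i * w * (g i)⁻¹)) : Op G') =
        (N : ℂ) * tau (θ (lamE w) : Op G') := by
      rw [map_sum, AddSubmonoidClass.coe_finsetSum, ttp_tau_sum]
      rw [Finset.sum_congr rfl fun i _ => ttp_conj θ (g i) w]
      simp
    have h3 := ttp_norm_tau (θ (∑ i, lamE (g i * w * (g i)⁻¹)) : Op G')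
    rw [h2, theta_norm, h1, norm_mul, Complex.norm_natCast] at h3
    exact h3.trans hg
  by_contra hne
  have hpos : 0 < ‖tau (θ (lamE w) : Op G')‖ := norm_pos_iff.2 hne
  obtain ⟨N, hN⟩ := exists_nat_gt ((2 / ‖tau (θ (lamE w) : Op G')‖) ^ 2)
  have hN0 : (0 : ℝ) < N := lt_of_le_of_lt (by positivity) hN
  have h4 := key N
  have h5 : √(N : ℝ) * √(N : ℝ) = N := Real.mul_self_sqrt hN0.le
  have h6 : 0 < √(N : ℝ) := Real.sqrt_pos.2 hN0
  have h7 : √(N : ℝ) * ‖tau (θ (lamE w) : Op G')‖ ≤ 2 := by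
    have : √(N : ℝ) * (√(N : ℝ) * ‖tau (θ (lamE w) : Op G')‖) ≤ √(N : ℝ) * 2 := by
      rw [← mul_assoc, h5]; linarith
    exact le_of_mul_le_mul_left this h6
  have h8 : √(N : ℝ) ≤ 2 / ‖tau (θ (lamE w) : Op G')‖ := by
    rw [le_div_iff₀ hpos]; exact h7
  have h9 : (N : ℝ) ≤ (2 / ‖tau (θ (lamE w) : Op G')‖) ^ 2 := by
    rw [← h5, ← sq]
    exact pow_le_pow_left₀ h6.le h8 2
  linarith

/-- finite combinations as elements of the algebra -/
noncomputable def ttp_p (f : G →₀ ℂ) : EltG G := f.sum fun g c => c • lamE g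

theorem ttp_p_coe (f : G →₀ ℂ) : (ttp_p f : Op G) = f.sum fun g c => c • lam g := by
  unfold ttp_p Finsupp.sum
  rw [AddSubmonoidClass.coe_finsetSum]
  rfl

theorem ttp_finite (m : ℕ) (hm : 2 ≤ m) (θ : EltG (FreeGroup (Fin m)) ≃⋆ₐ[ℂ] EltG G')
    (f : FreeGroup (Fin m) →₀ ℂ) :
    tau (θ (ttp_p f) : Op G') = tau (ttp_p f : Op (FreeGroup (Fin m))) := by
  classical
  rw [ttp_p_coe]
  unfold ttp_p Finsupp.sum
  rw [map_sum, AddSubmonoidClass.coe_finsetSum, ttp_tau_sum, ttp_tau_sum]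
  refine Finset.sum_congr rfl fun g _ => ?_
  rw [ttp_tau_smul, ttp_tau_lam, map_smul]
  have h1 : ((f g • θ (lamE g) : EltG G') : Op G') = f g • (θ (lamE g) : Op G') := rfl
  rw [h1, ttp_tau_smul]
  by_cases hg : g = 1
  · subst hg
    rw [ttp_lamE_one, map_one θ, if_pos rfl]
    have h2 : ((1 : EltG G') : Op G') = 1 := rfl
    rw [h2, ttp_tau_one]
  · rw [if_neg hg, ttp_zero m hm θ g hg]

theorem trace_preserving (m : ℕ) (hm : 2 ≤ m) (θ : EltG (FreeGroup (Fin m)) ≃⋆ₐ[ℂ] EltG G')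
    (x : EltG (FreeGroup (Fin m))) :
    tau (θ x : Op G') = tau (x : Op (FreeGroup (Fin m))) := by
  obtain ⟨C, hC⟩ := kaplansky x
  choose f hf1 hf2 using fun k : ℕ => hC ((1 / 4 : ℝ) ^ k) (by positivity)
  have hp1 : ∀ k, ‖(ttp_p (f k) : Op (FreeGroup (Fin m)))‖ ≤ C := fun k => by
    rw [ttp_p_coe]; exact hf1 k
  have hp2 : ∀ k, ‖((x : Op (FreeGroup (Fin m))) - (ttp_p (f k) : Op (FreeGroup (Fin m))))
      (delta 1)‖ ≤ (1 / 4 : ℝ) ^ k := fun k => by
    rw [ttp_p_coe]; exact hf2 k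
  let z : ℕ → EltG (FreeGroup (Fin m)) := fun k => x - ttp_p (f k)
  have hz : ∀ k, (z k : Op (FreeGroup (Fin m))) =
      (x : Op (FreeGroup (Fin m))) - (ttp_p (f k) : Op (FreeGroup (Fin m))) := fun k => rfl
  let y : ℕ → EltG (FreeGroup (Fin m)) := fun k => star (z k) * z k
  have hy : ∀ k, (y k : Op (FreeGroup (Fin m))) =
      star (z k : Op (FreeGroup (Fin m))) * (z k : Op (FreeGroup (Fin m))) := fun k => rfl
  have hθy : ∀ k, (θ (y k) : Op G') = star (θ (z k) : Op G') * (θ (z k) : Op G') := by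
    intro k
    show (θ (star (z k) * z k) : Op G') = _
    rw [map_mul θ (star (z k)) (z k), map_star θ (z k)]
    rfl
  have hC0 : 0 ≤ C := (norm_nonneg _).trans (hp1 0)
  have hznorm : ∀ k, ‖(z k : Op (FreeGroup (Fin m)))‖ ≤ ‖(x : Op (FreeGroup (Fin m)))‖ + C := by
    intro k
    rw [hz]
    exact (norm_sub_le _ _).trans (by linarith [hp1 k])
  have hr := rapid θ y ((‖(x : Op (FreeGroup (Fin m)))‖ + C) * (‖(x : Op (FreeGroup (Fin m)))‖ + C))
    (fun k => by rw [hy]; exact star_mul_self_nonneg _)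
    (fun k => by
      rw [hy]
      refine (norm_mul_le _ _).trans ?_
      rw [norm_star]
      exact mul_le_mul (hznorm k) (hznorm k) (norm_nonneg _) (by positivity))
    (fun k => by
      rw [hy, tau_star_mul, Complex.ofReal_re, hz]
      have h1 := hp2 k
      have h2 : ((1 / 16 : ℝ)) ^ k = ((1 / 4 : ℝ) ^ k) ^ 2 := by
        rw [← pow_mul, mul_comm, pow_mul]; norm_num
      rw [h2]
      exact pow_le_pow_left₀ (norm_nonneg _) h1 2)
  have hr2 : Tendsto (fun k => ‖(θ (z k) : Op G') (delta 1)‖ ^ 2) atTop (𝓝 0) := by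
    have h1 : Tendsto (fun k => ‖tau (θ (y k) : Op G')‖) atTop (𝓝 0) := by
      simpa using hr.norm
    refine h1.congr fun k => ?_
    rw [hθy, tau_star_mul, Complex.norm_real, Real.norm_eq_abs, abs_of_nonneg (by positivity)]
  have hr3 : Tendsto (fun k => ‖(θ (z k) : Op G') (delta 1)‖) atTop (𝓝 0) := by
    have h1 := hr2.sqrt
    simp only [Real.sqrt_zero] at h1
    refine h1.congr fun k => ?_
    rw [Real.sqrt_sq (norm_nonneg _)]
  have hr4 : Tendsto (fun k : ℕ => (1 / 4 : ℝ) ^ k) atTop (𝓝 0) :=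
    tendsto_pow_atTop_nhds_zero_of_lt_one (by norm_num) (by norm_num)
  have hb : ∀ k, ‖tau (θ x : Op G') - tau (x : Op (FreeGroup (Fin m)))‖ ≤
      ‖(θ (z k) : Op G') (delta 1)‖ + (1 / 4 : ℝ) ^ k := by
    intro k
    have h1 : tau (θ x : Op G') - tau (x : Op (FreeGroup (Fin m))) =
        tau (θ (z k) : Op G') - tau (z k : Op (FreeGroup (Fin m))) := by
      have h2 : (θ (z k) : Op G') = (θ x : Op G') - (θ (ttp_p (f k)) : Op G') := by
        show (θ (x - ttp_p (f k)) : Op G') = _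
        rw [map_sub]; rfl
      rw [h2, hz, ttp_tau_sub, ttp_tau_sub, ttp_finite m hm θ (f k)]
      ring
    rw [h1]
    refine (norm_sub_le _ _).trans (add_le_add (norm_tau_le _) ?_)
    exact (norm_tau_le _).trans (by rw [hz]; exact hp2 k)
  have hlim : Tendsto (fun k => ‖(θ (z k) : Op G') (delta 1)‖ + (1 / 4 : ℝ) ^ k) atTop (𝓝 0) := by
    simpa using hr3.add hr4
  have hle : ‖tau (θ x : Op G') - tau (x : Op (FreeGroup (Fin m)))‖ ≤ 0 :=
    ge_of_tendsto' hlim hb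
  exact sub_eq_zero.1 (norm_le_zero_iff.1 hle)

end TTP

end Pool.Agent.H667R2.FG.TTTP

namespace Pool.Agent.H667R2.FG

alias trace_preserving := TTTP.trace_preserving

end Pool.Agent.H667R2.FG
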