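import Mathlib
import Pool.Agent.H667R2.FG.TTTP
import Pool.Agent.H667R2.FG.GPOW

/-! Every *-isomorphism from the von Neumann algebra of a nonabelian free group preserves the
trace. -/

namespace Pool.Agent.H667R2.FG.GTP

open Matrix Filter
open scoped ComplexConjugate Topology
open TTTP

section TTP

variable {G G' : Type} [Group G] [Group G']

theorem ttp_zeroG {α : Type} [Nontrivial α] (θ : EltG (FreeGroup α) ≃⋆ₐ[ℂ] EltG G')
    (w : FreeGroup α) (hw : w ≠ 1) : tau (θ (lamE w) : Op G') = 0 := by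
  have key : ∀ N : ℕ, (N : ℝ) * ‖tau (θ (lamE w) : Op G')‖ ≤ 2 * √N := by
    intro N
    obtain ⟨g, hg⟩ := GPOW.powersG w hw N
    have h1 : ((∑ i, lamE (g i * w * (g i)⁻¹) : EltG (FreeGroup α)) :
        Op (FreeGroup α)) = ∑ i, lam (g i * w * (g i)⁻¹) := by
      rw [AddSubmonoidClass.coe_finsetSum]
      rfl
    have h2 : tau (θ (∑ i, lamE (g i * w * (g i)⁻¹)) : Op G') =
        (N : ℂ) * tau (θ (lamE w) : Op G') := by
      rw [map_sum, AddSubmonoidClass.coe_finsetSum, ttp_tau_sum]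
      rw [Finset.sum_congr rfl fun i _ => ttp_conj θ (g i) w]
      simp
    have h3 := ttp_norm_tau (θ (∑ i, lamE (g i * w * (g i)⁻¹)) : Op G')
    rw [h2, theta_norm, h1, norm_mul, Complex.norm_natCast] at h3
    exact h3.trans hg
  by_contra hne
  have hpos : 0 < ‖tau (θ (lamE w) : Op G')‖ := norm_pos_iff.2 hne
  obtain ⟨N, hN⟩ := exists_nat_gt ((2 / ‖tau (θ (lamE w) : Op G')‖) ^ 2)
  have hN0 : (0 : ℝ) < N := lt_of_le_of_lt (by positivity) hN
  have h4 := key N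
  have h5 : √(N : ℝ) * √(N : ℝ) = N := Real.mul_self_sqrt hN0.le
  have h6 : 0 < √(N : ℝ) := Real.sqrt_pos.2 hN0
  have h7 : √(N : ℝ) * ‖tau (θ (lamE w) : Op G')‖ ≤ 2 := by
    have : √(N : ℝ) * (√(N : ℝ) * ‖tau (θ (lamE w) : Op G')‖) ≤ √(N : ℝ) * 2 := by
      rw [← mul_assoc, h5]; linarith
    exact le_of_mul_le_mul_left this h6
  have h8 : √(N : ℝ) ≤ 2 / ‖tau (θ (lamE w) : Op G')‖ := by
    rw [le_div_iff₀ hpos]; exact h7
  have h9 : (N : ℝ) ≤ (2 / ‖tau (θ (lamE w) : Op G')‖) ^ 2 := by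
    rw [← h5, ← sq]
    exact pow_le_pow_left₀ h6.le h8 2
  linarith

theorem ttp_finiteG {α : Type} [Nontrivial α] (θ : EltG (FreeGroup α) ≃⋆ₐ[ℂ] EltG G')
    (f : FreeGroup α →₀ ℂ) :
    tau (θ (ttp_p f) : Op G') = tau (ttp_p f : Op (FreeGroup α)) := by
  classical
  rw [ttp_p_coe]
  unfold ttp_p Finsupp.sum
  rw [map_sum, AddSubmonoidClass.coe_finsetSum, ttp_tau_sum, ttp_tau_sum]
  refine Finset.sum_congr rfl fun g _ => ?_
  rw [ttp_tau_smul, ttp_tau_lam, map_smul]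
  have h1 : ((f g • θ (lamE g) : EltG G') : Op G') = f g • (θ (lamE g) : Op G') := rfl
  rw [h1, ttp_tau_smul]
  by_cases hg : g = 1
  · subst hg
    rw [ttp_lamE_one, map_one θ, if_pos rfl]
    have h2 : ((1 : EltG G') : Op G') = 1 := rfl
    rw [h2, ttp_tau_one]
  · rw [if_neg hg, ttp_zeroG θ g hg]

theorem trace_preservingG {α : Type} [Nontrivial α] (θ : EltG (FreeGroup α) ≃⋆ₐ[ℂ] EltG G')
    (x : EltG (FreeGroup α)) :
    tau (θ x : Op G') = tau (x : Op (FreeGroup α)) := by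
  obtain ⟨C, hC⟩ := kaplansky x
  choose f hf1 hf2 using fun k : ℕ => hC ((1 / 4 : ℝ) ^ k) (by positivity)
  have hp1 : ∀ k, ‖(ttp_p (f k) : Op (FreeGroup α))‖ ≤ C := fun k => by
    rw [ttp_p_coe]; exact hf1 k
  have hp2 : ∀ k, ‖((x : Op (FreeGroup α)) - (ttp_p (f k) : Op (FreeGroup α)))
      (delta 1)‖ ≤ (1 / 4 : ℝ) ^ k := fun k => by
    rw [ttp_p_coe]; exact hf2 k
  let z : ℕ → EltG (FreeGroup α) := fun k => x - ttp_p (f k)
  have hz : ∀ k, (z k : Op (FreeGroup α)) =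
      (x : Op (FreeGroup α)) - (ttp_p (f k) : Op (FreeGroup α)) := fun k => rfl
  let y : ℕ → EltG (FreeGroup α) := fun k => star (z k) * z k
  have hy : ∀ k, (y k : Op (FreeGroup α)) =
      star (z k : Op (FreeGroup α)) * (z k : Op (FreeGroup α)) := fun k => rfl
  have hθy : ∀ k, (θ (y k) : Op G') = star (θ (z k) : Op G') * (θ (z k) : Op G') := by
    intro k
    show (θ (star (z k) * z k) : Op G') = _
    rw [map_mul θ (star (z k)) (z k), map_star θ (z k)]
    rfl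
  have hC0 : 0 ≤ C := (norm_nonneg _).trans (hp1 0)
  have hznorm : ∀ k, ‖(z k : Op (FreeGroup α))‖ ≤ ‖(x : Op (FreeGroup α))‖ + C := by
    intro k
    rw [hz]
    exact (norm_sub_le _ _).trans (by linarith [hp1 k])
  have hr := rapid θ y ((‖(x : Op (FreeGroup α))‖ + C) * (‖(x : Op (FreeGroup α))‖ + C))
    (fun k => by rw [hy]; exact star_mul_self_nonneg _)
    (fun k => by
      rw [hy]
      refine (norm_mul_le _ _).trans ?_
      rw [norm_star]
      exact mul_le_mul (hznorm k) (hznorm k) (norm_nonneg _) (by positivity))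
    (fun k => by
      rw [hy, tau_star_mul, Complex.ofReal_re, hz]
      have h1 := hp2 k
      have h2 : ((1 / 16 : ℝ)) ^ k = ((1 / 4 : ℝ) ^ k) ^ 2 := by
        rw [← pow_mul, mul_comm, pow_mul]; norm_num
      rw [h2]
      exact pow_le_pow_left₀ (norm_nonneg _) h1 2)
  have hr2 : Tendsto (fun k => ‖(θ (z k) : Op G') (delta 1)‖ ^ 2) atTop (𝓝 0) := by
    have h1 : Tendsto (fun k => ‖tau (θ (y k) : Op G')‖) atTop (𝓝 0) := by
      simpa using hr.norm
    refine h1.congr fun k => ?_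
    rw [hθy, tau_star_mul, Complex.norm_real, Real.norm_eq_abs, abs_of_nonneg (by positivity)]
  have hr3 : Tendsto (fun k => ‖(θ (z k) : Op G') (delta 1)‖) atTop (𝓝 0) := by
    have h1 := hr2.sqrt
    simp only [Real.sqrt_zero] at h1
    refine h1.congr fun k => ?_
    rw [Real.sqrt_sq (norm_nonneg _)]
  have hr4 : Tendsto (fun k : ℕ => (1 / 4 : ℝ) ^ k) atTop (𝓝 0) :=
    tendsto_pow_atTop_nhds_zero_of_lt_one (by norm_num) (by norm_num)
  have hb : ∀ k, ‖tau (θ x : Op G') - tau (x : Op (FreeGroup α))‖ ≤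
      ‖(θ (z k) : Op G') (delta 1)‖ + (1 / 4 : ℝ) ^ k := by
    intro k
    have h1 : tau (θ x : Op G') - tau (x : Op (FreeGroup α)) =
        tau (θ (z k) : Op G') - tau (z k : Op (FreeGroup α)) := by
      have h2 : (θ (z k) : Op G') = (θ x : Op G') - (θ (ttp_p (f k)) : Op G') := by
        show (θ (x - ttp_p (f k)) : Op G') = _
        rw [map_sub]; rfl
      rw [h2, hz, ttp_tau_sub, ttp_tau_sub, ttp_finiteG θ (f k)]
      ring
    rw [h1]
    refine (norm_sub_le _ _).trans (add_le_add (norm_tau_le _) ?_)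
    exact (norm_tau_le _).trans (by rw [hz]; exact hp2 k)
  have hlim : Tendsto (fun k => ‖(θ (z k) : Op G') (delta 1)‖ + (1 / 4 : ℝ) ^ k) atTop (𝓝 0) := by
    simpa using hr3.add hr4
  have hle : ‖tau (θ x : Op G') - tau (x : Op (FreeGroup α))‖ ≤ 0 :=
    ge_of_tendsto' hlim hb
  exact sub_eq_zero.1 (norm_le_zero_iff.1 hle)

end TTP

end Pool.Agent.H667R2.FG.GTP
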