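import Mathlib
import Pool.Agent.H667R2.FG.Defs
import Pool.Agent.H667R2.FG.OpDefs
import Pool.Agent.H667R2.FG.Herm

/-! Task FIN: calculus. -/

namespace Pool.Agent.H667R2.FG.TFIN

theorem final_calculus (m d : ℕ) (s : Fin m → ℝ) (K : ℝ) (hK : 0 < K) (j₀ : Fin m)
    (hs0 : ∀ j, 0 ≤ s j) (hj₀ : ∀ j, s j ≤ s j₀) (ε₀ : ℝ) (hε₀ : 0 < ε₀)
    (h : ∀ ε : ℝ, 0 < ε → ε ≤ ε₀ →
      1 ≤ K * (1 / ε) ^ d * (1 / ε ^ (s j₀)) * ∏ j, ε ^ (s j)) :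
    ∑ j ∈ Finset.univ.erase j₀, s j ≤ d := by
  by_contra hc
  push Not at hc
  set E := ∑ j ∈ Finset.univ.erase j₀, s j with hE
  have hδ : 0 < E - d := by linarith
  have hK2 : 0 < 1 / (2 * K) := by positivity
  set ε := min ε₀ ((1 / (2 * K)) ^ (E - d)⁻¹) with hε
  have hε0 : 0 < ε := lt_min hε₀ (Real.rpow_pos_of_pos hK2 _)
  have h1 := h ε hε0 (min_le_left _ _)
  have h2 : ∏ j, ε ^ (s j) = ε ^ (s j₀) * ε ^ E := by
    rw [← Real.rpow_add hε0, hE, Finset.add_sum_erase _ _ (Finset.mem_univ j₀),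
      Real.rpow_sum_of_pos hε0]
  have h3 : K * (1 / ε) ^ d * (1 / ε ^ (s j₀)) * ∏ j, ε ^ (s j) = K * ε ^ (E - d) := by
    rw [h2, Real.rpow_sub hε0, Real.rpow_natCast]
    have h4 : ε ^ (s j₀) ≠ 0 := (Real.rpow_pos_of_pos hε0 _).ne'
    have h8 : (1 / ε) ^ d * ε ^ d = 1 := by
      rw [← mul_pow, one_div_mul_cancel hε0.ne', one_pow]
    field_simp
    exact h8
  have h5 : ε ^ (E - d) ≤ 1 / (2 * K) := by
    calc ε ^ (E - d) ≤ ((1 / (2 * K)) ^ (E - d)⁻¹) ^ (E - d) :=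
          Real.rpow_le_rpow hε0.le (min_le_right _ _) hδ.le
      _ = 1 / (2 * K) := Real.rpow_inv_rpow hK2.le hδ.ne'
  rw [h3] at h1
  have h6 : K * ε ^ (E - d) ≤ K * (1 / (2 * K)) := mul_le_mul_of_nonneg_left h5 hK.le
  have h7 : K * (1 / (2 * K)) = 1 / 2 := by field_simp
  linarith

end Pool.Agent.H667R2.FG.TFIN

namespace Pool.Agent.H667R2.FG

alias final_calculus := TFIN.final_calculus

end Pool.Agent.H667R2.FG
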