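import Mathlib
import Pool.Agent.H667R2.FG.Defs
import Pool.Agent.H667R2.FG.OpDefs
import Pool.Agent.H667R2.FG.Herm
import Pool.Agent.H667R2.FG.THS

/-! Task EXPL (helper862): exponential facts in `M_k(ℂ)`. -/

namespace Pool.Agent.H667R2.FG.TEXPL

open MeasureTheory Matrix Filter
open scoped Matrix.Norms.L2Operator ComplexConjugate ENNReal

/-- the unit circle is infinite, so some unit number avoids a finite set -/
theorem expl_exists_unit (s : Set ℂ) (hs : s.Finite) : ∃ c : ℂ, ‖c‖ = 1 ∧ -c ∉ s := by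
  have h1 : (Set.range (fun n : ℕ => (-((Circle.exp (1 / ((n : ℝ) + 1)) : Circle) : ℂ)))).Infinite := by
    refine Set.infinite_range_of_injective ?_
    intro n m hnm
    have h2 : ((Circle.exp (1 / ((n : ℝ) + 1)) : Circle) : ℂ) = (Circle.exp (1 / ((m : ℝ) + 1)) : Circle) :=
      neg_injective hnm
    have h3 : ∀ n : ℕ, Complex.arg ((Circle.exp (1 / ((n : ℝ) + 1)) : Circle) : ℂ) = 1 / ((n : ℝ) + 1) := by
      intro n
      have h4 : (0 : ℝ) < 1 / ((n : ℝ) + 1) := by positivity
      have h5 : 1 / ((n : ℝ) + 1) ≤ 1 := by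
        rw [div_le_one (by positivity)]
        have : (0 : ℝ) ≤ n := Nat.cast_nonneg n
        linarith
      have h6 := Real.pi_gt_three
      exact Circle.arg_exp (by linarith) (by linarith)
    have h4 := h3 n
    rw [h2, h3 m] at h4
    have h5 : (m : ℝ) + 1 = (n : ℝ) + 1 := by
      have := congrArg (fun x : ℝ => x⁻¹) h4
      simpa using this
    have h6 : (m : ℝ) = n := by linarith
    exact_mod_cast h6.symm
  obtain ⟨x, ⟨n, rfl⟩, hx⟩ := h1.exists_notMem_finite hs
  exact ⟨_, Circle.norm_coe _, hx⟩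

theorem unitary_exp {k : ℕ} (u : UU k) : ∃ c : ℂ, ‖c‖ = 1 ∧ ∃ h : Mat k, h.IsHermitian ∧
    ‖h‖ ≤ Real.pi ∧ (u : Mat k) = c • NormedSpace.exp (Complex.I • h) := by
  have hfin : (spectrum ℂ (u : Mat k)).Finite := Matrix.finite_spectrum _
  obtain ⟨c, hc1, hc2⟩ := expl_exists_unit _ hfin
  have hc0 : c ≠ 0 := by
    rintro rfl
    simp at hc1
  have hcc : star c * c = 1 := by
    have h1 : star c * c = ((‖c‖ ^ 2 : ℝ) : ℂ) := by
      rw [← Complex.normSq_eq_norm_sq, Complex.normSq_eq_conj_mul_self]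
      rfl
    rw [h1, hc1]
    norm_num
  have hcc' : c * star c = 1 := by rw [mul_comm]; exact hcc
  have hmem : star c • (u : Mat k) ∈ unitary (Mat k) := by
    rw [Unitary.mem_iff]
    have h1 : star (u : Mat k) * (u : Mat k) = 1 := Unitary.coe_star_mul_self u
    have h2 : (u : Mat k) * star (u : Mat k) = 1 := Unitary.coe_mul_star_self u
    constructor
    · rw [star_smul, star_star, smul_mul_smul_comm, h1, hcc', one_smul]
    · rw [star_smul, star_star, smul_mul_smul_comm, h2, hcc, one_smul]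
  set u' : unitary (Mat k) := ⟨star c • (u : Mat k), hmem⟩ with hu'
  have hlt : ‖((u' : Mat k) - 1)‖ < 2 := by
    rw [Unitary.norm_sub_one_lt_two_iff hmem]
    intro hspec
    apply hc2
    have hsc : IsUnit (star c) := IsUnit.mk0 _ (by simpa using hc0)
    have h3 := spectrum.smul_mem_smul_iff (a := (u : Mat k)) (s := -c) (r := hsc.unit)
    rw [← h3]
    have h4 : hsc.unit • (-c) = (-1 : ℂ) := by
      change star c * (-c) = -1
      rw [mul_neg, hcc]
    rw [h4]
    exact hspec
  refine ⟨c, hc1, (Unitary.argSelfAdjoint u' : Mat k), ?_, ?_, ?_⟩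
  · exact (Unitary.argSelfAdjoint u').2
  · exact Unitary.norm_argSelfAdjoint_le_pi u'
  · have h6 := congrArg (fun x : unitary (Mat k) => (x : Mat k))
      (expUnitary_argSelfAdjoint (u := u') hlt)
    simp only [selfAdjoint.expUnitary_coe] at h6
    rw [h6]
    change (u : Mat k) = c • (star c • (u : Mat k))
    rw [smul_smul, hcc', one_smul]

theorem expl_norm_exp_le {k : ℕ} (a : Mat k) (ha : a.IsHermitian) (t : ℝ) :
    ‖NormedSpace.exp (t • (Complex.I • a))‖ ≤ 1 := by
  have h1 : IsSelfAdjoint (t • a) := by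
    change star (t • a) = t • a
    rw [star_smul]
    have : star a = a := ha
    rw [this]
    simp
  have h2 : t • (Complex.I • a) = Complex.I • (t • a) := smul_comm _ _ _
  rw [h2]
  have h3 := norm_unitary_le (selfAdjoint.expUnitary (⟨t • a, h1⟩ : selfAdjoint (Mat k)))
  simpa using h3

theorem expl_hasDerivAt {k : ℕ} (A B : Mat k) (t : ℝ) :
    HasDerivAt (fun t : ℝ => NormedSpace.exp (t • A) * NormedSpace.exp ((1 - t) • B))
      (NormedSpace.exp (t • A) * (A - B) * NormedSpace.exp ((1 - t) • B)) t := by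
  have h1 : HasDerivAt (fun t : ℝ => NormedSpace.exp (t • A)) (NormedSpace.exp (t • A) * A) t :=
    hasDerivAt_exp_smul_const A t
  have h2 : HasDerivAt (fun t : ℝ => NormedSpace.exp ((1 - t) • B))
      ((-1 : ℝ) • (B * NormedSpace.exp ((1 - t) • B))) t := by
    have h3 : HasDerivAt (fun s : ℝ => NormedSpace.exp (s • B)) (B * NormedSpace.exp ((1 - t) • B))
        (1 - t) := hasDerivAt_exp_smul_const' B (1 - t)
    have h4 : HasDerivAt (fun t : ℝ => 1 - t) (-1) t := by
      simpa using (hasDerivAt_id t).const_sub 1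
    exact h3.scomp t h4
  have h5 := h1.mul h2
  have h6 : NormedSpace.exp (t • A) * A * NormedSpace.exp ((1 - t) • B) +
      NormedSpace.exp (t • A) * ((-1 : ℝ) • (B * NormedSpace.exp ((1 - t) • B))) =
      NormedSpace.exp (t • A) * (A - B) * NormedSpace.exp ((1 - t) • B) := by
    rw [neg_one_smul, mul_neg, mul_sub, sub_mul, ← sub_eq_add_neg, mul_assoc (NormedSpace.exp (t • A)) B]
  rw [h6] at h5
  exact h5

theorem exp_lip {k : ℕ} (a b : Mat k) (ha : a.IsHermitian) (hb : b.IsHermitian) :
    ‖NormedSpace.exp (Complex.I • a) - NormedSpace.exp (Complex.I • b)‖ ≤ ‖a - b‖ := by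
  have h1 := norm_image_sub_le_of_norm_deriv_le_segment_01'
    (f := fun t : ℝ => NormedSpace.exp (t • (Complex.I • a)) *
      NormedSpace.exp ((1 - t) • (Complex.I • b)))
    (f' := fun t : ℝ => NormedSpace.exp (t • (Complex.I • a)) *
      (Complex.I • a - Complex.I • b) * NormedSpace.exp ((1 - t) • (Complex.I • b)))
    (C := ‖a - b‖) (fun t _ => (expl_hasDerivAt _ _ t).hasDerivWithinAt) (by
      intro t _
      have h2 := expl_norm_exp_le a ha t
      have h3 := expl_norm_exp_le b hb (1 - t)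
      have h4 : ‖Complex.I • a - Complex.I • b‖ = ‖a - b‖ := by
        rw [← smul_sub, norm_smul, Complex.norm_I, one_mul]
      calc ‖NormedSpace.exp (t • (Complex.I • a)) * (Complex.I • a - Complex.I • b) *
            NormedSpace.exp ((1 - t) • (Complex.I • b))‖
          ≤ ‖NormedSpace.exp (t • (Complex.I • a))‖ * ‖Complex.I • a - Complex.I • b‖ *
            ‖NormedSpace.exp ((1 - t) • (Complex.I • b))‖ :=
            (norm_mul_le _ _).trans (mul_le_mul_of_nonneg_right (norm_mul_le _ _) (norm_nonneg _))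
        _ ≤ 1 * ‖a - b‖ * 1 := by
            rw [h4]
            gcongr
        _ = ‖a - b‖ := by ring)
  simpa using h1

/-- the Hilbert-Schmidt embedding -/
noncomputable def explL (k : ℕ) : Mat k →ₗ[ℝ] EuclideanSpace ℂ (Fin k × Fin k) where
  toFun x := WithLp.toLp 2 (fun p => x p.1 p.2)
  map_add' x y := rfl
  map_smul' c x := by
    ext p
    simp

theorem explL_norm {k : ℕ} (x : Mat k) : hs x = Real.sqrt ((k : ℝ)⁻¹) * ‖explL k x‖ := by
  unfold hs
  rw [Real.sqrt_mul (by positivity), EuclideanSpace.norm_eq, Fintype.sum_prod_type]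
  rfl

theorem exp_lower {k : ℕ} (a b : Mat k) (ha : a.IsHermitian) (hb : b.IsHermitian)
    (ha' : ‖a‖ ≤ 1 / 4) (hb' : ‖b‖ ≤ 1 / 4) :
    hs (a - b) ≤ 2 * hs (NormedSpace.exp (Complex.I • a) - NormedSpace.exp (Complex.I • b)) := by
  rcases Nat.eq_zero_or_pos k with rfl | hk
  · have h1 : a - b = 0 := Subsingleton.elim _ _
    rw [h1, hs_zero]
    exact mul_nonneg (by norm_num) (hs_nonneg _)
  set A : Mat k := Complex.I • a with hA
  set B : Mat k := Complex.I • b with hB
  have hAB : A - B = Complex.I • (a - b) := by rw [smul_sub]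
  have hsAB : hs (A - B) = hs (a - b) := by rw [hAB, hs_smul, Complex.norm_I, one_mul]
  have hherm : ∀ (c : Mat k), c.IsHermitian → ∀ s : ℝ, (s • c).IsHermitian := by
    intro c hc s
    change star (s • c) = s • c
    rw [star_smul]
    have : star c = c := hc
    rw [this]
    simp
  have hsm : ∀ (c : Mat k) (s : ℝ), s • (Complex.I • c) = Complex.I • (s • c) :=
    fun c s => smul_comm _ _ _
  have hone : ∀ (c : Mat k), c.IsHermitian → ‖c‖ ≤ 1 / 4 → ∀ s : ℝ, 0 ≤ s →
      ‖NormedSpace.exp (s • (Complex.I • c)) - 1‖ ≤ s / 4 := by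
    intro c hc hc' s hs0
    have h1 := exp_lip (s • c) 0 (hherm c hc s) (by simp)
    rw [smul_zero, NormedSpace.exp_zero, sub_zero, ← hsm] at h1
    refine h1.trans ?_
    rw [norm_smul, Real.norm_of_nonneg hs0]
    nlinarith
  -- the Lipschitz function `φ`
  have hderiv : ∀ t : ℝ, HasDerivAt (fun t : ℝ => explL k
      (NormedSpace.exp (t • A) * NormedSpace.exp ((1 - t) • B) - t • (A - B)))
      (explL k (NormedSpace.exp (t • A) * (A - B) * NormedSpace.exp ((1 - t) • B) - (A - B))) t := by
    intro t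
    have h1 := expl_hasDerivAt A B t
    have h2 : HasDerivAt (fun t : ℝ => t • (A - B)) (A - B) t := by
      simpa using (hasDerivAt_id t).smul_const (A - B)
    have h3 := h1.sub h2
    have h4 := (LinearMap.toContinuousLinearMap (explL k)).hasFDerivAt.comp_hasDerivAt t h3
    exact h4
  have hbound : ∀ t ∈ Set.Ico (0 : ℝ) 1,
      hs (NormedSpace.exp (t • A) * (A - B) * NormedSpace.exp ((1 - t) • B) - (A - B)) ≤
        1 / 4 * hs (A - B) := by
    intro t ht
    have h1 : NormedSpace.exp (t • A) * (A - B) * NormedSpace.exp ((1 - t) • B) - (A - B) =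
        (NormedSpace.exp (t • A) - 1) * (A - B) * NormedSpace.exp ((1 - t) • B) +
          (A - B) * (NormedSpace.exp ((1 - t) • B) - 1) := by
      noncomm_ring
    have h2 := hone a ha ha' t ht.1
    have h3 := hone b hb hb' (1 - t) (by linarith [ht.2])
    have h4 := expl_norm_exp_le b hb (1 - t)
    have h5 := hs_nonneg (A - B)
    rw [h1]
    calc hs ((NormedSpace.exp (t • A) - 1) * (A - B) * NormedSpace.exp ((1 - t) • B) +
          (A - B) * (NormedSpace.exp ((1 - t) • B) - 1))
        ≤ hs ((NormedSpace.exp (t • A) - 1) * (A - B) * NormedSpace.exp ((1 - t) • B)) +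
          hs ((A - B) * (NormedSpace.exp ((1 - t) • B) - 1)) := hs_add_le _ _
      _ ≤ ‖NormedSpace.exp (t • A) - 1‖ * hs (A - B) * ‖NormedSpace.exp ((1 - t) • B)‖ +
          hs (A - B) * ‖NormedSpace.exp ((1 - t) • B) - 1‖ := by
          refine add_le_add ?_ (hs_mul_le' _ _)
          refine (hs_mul_le' _ _).trans ?_
          exact mul_le_mul_of_nonneg_right (hs_mul_le _ _) (norm_nonneg _)
      _ ≤ t / 4 * hs (A - B) * 1 + hs (A - B) * ((1 - t) / 4) := by
          have h6 : 0 ≤ t / 4 := by linarith [ht.1]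
          gcongr
      _ = 1 / 4 * hs (A - B) := by ring
  have hkpos : (0 : ℝ) < Real.sqrt ((k : ℝ)⁻¹) := by
    apply Real.sqrt_pos.2
    positivity
  have hmain := norm_image_sub_le_of_norm_deriv_le_segment_01'
    (C := 1 / 4 * ‖explL k (A - B)‖)
    (fun t _ => (hderiv t).hasDerivWithinAt) (by
      intro t ht
      have h1 := hbound t ht
      rw [explL_norm, explL_norm (A - B)] at h1
      have h2 : Real.sqrt ((k : ℝ)⁻¹) * ‖explL k (NormedSpace.exp (t • A) * (A - B) *
          NormedSpace.exp ((1 - t) • B) - (A - B))‖ ≤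
          Real.sqrt ((k : ℝ)⁻¹) * (1 / 4 * ‖explL k (A - B)‖) := by linarith
      exact le_of_mul_le_mul_left h2 hkpos)
  have hfin : hs ((NormedSpace.exp A - NormedSpace.exp B) - (A - B)) ≤ 1 / 4 * hs (A - B) := by
    rw [explL_norm, explL_norm (A - B)]
    have h1 : explL k ((NormedSpace.exp A - NormedSpace.exp B) - (A - B)) =
        explL k (NormedSpace.exp ((1 : ℝ) • A) * NormedSpace.exp ((1 - 1 : ℝ) • B) -
          (1 : ℝ) • (A - B)) -
        explL k (NormedSpace.exp ((0 : ℝ) • A) * NormedSpace.exp ((1 - 0 : ℝ) • B) -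
          (0 : ℝ) • (A - B)) := by
      rw [← map_sub]
      congr 1
      simp
      abel
    rw [h1]
    nlinarith
  have h7 : hs (A - B) ≤ hs (NormedSpace.exp A - NormedSpace.exp B) +
      hs ((NormedSpace.exp A - NormedSpace.exp B) - (A - B)) := by
    have h8 : A - B = (NormedSpace.exp A - NormedSpace.exp B) -
        ((NormedSpace.exp A - NormedSpace.exp B) - (A - B)) := by abel
    calc hs (A - B) = hs ((NormedSpace.exp A - NormedSpace.exp B) -
        ((NormedSpace.exp A - NormedSpace.exp B) - (A - B))) := by rw [← h8]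
      _ ≤ _ := hs_sub_le _ _
  have h9 := hs_nonneg (NormedSpace.exp A - NormedSpace.exp B)
  rw [← hsAB]
  linarith

end Pool.Agent.H667R2.FG.TEXPL

namespace Pool.Agent.H667R2.FG

alias unitary_exp := TEXPL.unitary_exp
alias exp_lip := TEXPL.exp_lip
alias exp_lower := TEXPL.exp_lower

end Pool.Agent.H667R2.FG
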