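import Mathlib
import Pool.Agent.H667R2.FG.Defs
import Pool.Agent.H667R2.FG.OpDefs
import Pool.Agent.H667R2.FG.Herm
import Pool.Agent.H667R2.FG.THS
import Pool.Agent.H667R2.FG.TEXPL

/-! Fine net for the diagonalised unitaries. -/

namespace Pool.Agent.H667R2.FG.TDIAG

open MeasureTheory Matrix Filter
open scoped Matrix.Norms.L2Operator ComplexConjugate ENNReal

/-- points on the circle -/
noncomputable def cpt (N j : ℕ) : ℂ := Complex.exp (Complex.I * ((2 * Real.pi * j / N : ℝ) : ℂ))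

theorem norm_cpt (N j : ℕ) : ‖cpt N j‖ = 1 := by
  unfold cpt
  rw [mul_comm, Complex.norm_exp_ofReal_mul_I]

theorem norm_exp_sub_le (a b : ℝ) :
    ‖Complex.exp (Complex.I * (a : ℂ)) - Complex.exp (Complex.I * (b : ℂ))‖ ≤ |a - b| := by
  have h : Complex.exp (Complex.I * (a : ℂ)) - Complex.exp (Complex.I * (b : ℂ)) =
      Complex.exp (Complex.I * (b : ℂ)) * (Complex.exp (Complex.I * ((a - b : ℝ) : ℂ)) - 1) := by
    rw [mul_sub, mul_one, ← Complex.exp_add]
    congr 2
    push_cast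
    ring
  rw [h, norm_mul, mul_comm Complex.I (b : ℂ), Complex.norm_exp_ofReal_mul_I, one_mul]
  exact Real.norm_exp_I_mul_ofReal_sub_one_le

theorem exists_cpt {N : ℕ} (hN : 0 < N) (z : ℂ) (hz : ‖z‖ = 1) :
    ∃ j : Fin N, ‖z - cpt N j.val‖ ≤ 2 * Real.pi / N := by
  have hpi := Real.pi_pos
  have hNr : (0 : ℝ) < N := by exact_mod_cast hN
  -- an angle in [0, 2 pi)
  obtain ⟨θ, hθ0, hθ1, hθ⟩ : ∃ θ : ℝ, 0 ≤ θ ∧ θ < 2 * Real.pi ∧
      z = Complex.exp (Complex.I * (θ : ℂ)) := by
    have h0 : z = Complex.exp (Complex.I * (z.arg : ℂ)) := by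
      have := Complex.norm_mul_exp_arg_mul_I z
      rw [hz] at this
      simp only [Complex.ofReal_one, one_mul] at this
      rw [mul_comm]
      exact this.symm
    by_cases hneg : z.arg < 0
    · refine ⟨z.arg + 2 * Real.pi, ?_, by linarith, ?_⟩
      · have := Complex.neg_pi_lt_arg z
        linarith
      · conv_lhs => rw [h0]
        push_cast
        rw [mul_add, Complex.exp_add]
        have : Complex.exp (Complex.I * (2 * (Real.pi : ℂ))) = 1 := by
          rw [mul_comm]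
          exact Complex.exp_two_pi_mul_I
        rw [this, mul_one]
    · push Not at hneg
      refine ⟨z.arg, hneg, ?_, h0⟩
      have := Complex.arg_le_pi z
      linarith
  have hj0 : 0 ≤ θ * N / (2 * Real.pi) := by positivity
  have hjN : ⌊θ * N / (2 * Real.pi)⌋₊ < N := by
    rw [Nat.floor_lt hj0, div_lt_iff₀ (by positivity)]
    nlinarith
  refine ⟨⟨_, hjN⟩, ?_⟩
  rw [hθ]
  unfold cpt
  refine (norm_exp_sub_le _ _).trans ?_
  have h1 := Nat.floor_le hj0
  have h2 := Nat.lt_floor_add_one (θ * N / (2 * Real.pi))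
  simp only
  set j : ℝ := (⌊θ * N / (2 * Real.pi)⌋₊ : ℝ) with hj
  have e : θ - 2 * Real.pi * j / N = (2 * Real.pi / N) * (θ * N / (2 * Real.pi) - j) := by
    field_simp
  rw [e, abs_mul, abs_of_nonneg (by positivity)]
  have h3 : |θ * N / (2 * Real.pi) - j| ≤ 1 := by
    rw [abs_le]; constructor <;> linarith
  calc 2 * Real.pi / N * |θ * N / (2 * Real.pi) - j| ≤ 2 * Real.pi / N * 1 :=
        mul_le_mul_of_nonneg_left h3 (by positivity)
    _ = _ := mul_one _

/-- diagonal unitary matrix -/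
noncomputable def dU {k : ℕ} (d : Fin k → ℂ) (hd : ∀ j, ‖d j‖ = 1) : UU k :=
  ⟨diagonal d, by
    rw [mem_unitaryGroup_iff, star_eq_conjTranspose, diagonal_conjTranspose, diagonal_mul_diagonal]
    rw [← diagonal_one]
    congr 1
    funext j
    have h := Complex.mul_conj (d j)
    rw [Complex.normSq_eq_norm_sq, hd j] at h
    simpa using h⟩

theorem net_diag : ∃ C : ℝ, 1 ≤ C ∧ ∀ k : ℕ, 0 < k → ∀ ε : ℝ, 0 < ε → ε ≤ 1 →
    ∃ T : Finset (UU k), (T.card : ℝ) ≤ (C / ε) ^ k ∧
      ∀ u : UU k, ∃ V : UU k, ∃ v ∈ T, ‖((V⁻¹ * u * V : UU k) : Mat k) - (v : Mat k)‖ ≤ ε := by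
  classical
  have hpi := Real.pi_pos
  refine ⟨2 * Real.pi + 1, by linarith, fun k _ ε hε hε1 => ?_⟩
  set N : ℕ := ⌈2 * Real.pi / ε⌉₊ with hN
  have hNle : 2 * Real.pi / ε ≤ N := Nat.le_ceil _
  have hNpos : 0 < N := Nat.ceil_pos.2 (by positivity)
  have hNr : (0 : ℝ) < N := by exact_mod_cast hNpos
  have hNC : (N : ℝ) ≤ (2 * Real.pi + 1) / ε := by
    have h1 := Nat.ceil_lt_add_one (a := 2 * Real.pi / ε) (by positivity)
    have h2 : 1 ≤ 1 / ε := by
      rw [le_div_iff₀ hε]; linarith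
    rw [add_div]
    linarith
  have hNε : 2 * Real.pi / N ≤ ε := by
    rw [div_le_iff₀ hε] at hNle
    rw [div_le_iff₀ hNr]
    linarith
  let f : (Fin k → Fin N) → UU k := fun g => dU (fun j => cpt N (g j).val) (fun j => norm_cpt _ _)
  refine ⟨Finset.univ.image f, ?_, ?_⟩
  · have h1 : (Finset.univ.image f).card ≤ N ^ k := by
      refine Finset.card_image_le.trans ?_
      rw [Finset.card_univ, Fintype.card_fun, Fintype.card_fin, Fintype.card_fin]
    calc ((Finset.univ.image f).card : ℝ) ≤ ((N ^ k : ℕ) : ℝ) := by exact_mod_cast h1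
      _ = (N : ℝ) ^ k := by push_cast; rfl
      _ ≤ _ := pow_le_pow_left₀ (Nat.cast_nonneg _) hNC k
  · intro u
    obtain ⟨c, hc, h, hh, -, hu⟩ := unitary_exp u
    set V := hh.eigenvectorUnitary with hV
    -- the diagonal entries
    let z : Fin k → ℂ := fun j => c * Complex.exp (Complex.I * ((hh.eigenvalues j : ℝ) : ℂ))
    have hz : ∀ j, ‖z j‖ = 1 := by
      intro j
      simp only [z]
      rw [norm_mul, hc, mul_comm Complex.I, Complex.norm_exp_ofReal_mul_I, one_mul]
    have hdiag : ((V⁻¹ * u * V : UU k) : Mat k) = diagonal z := by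
      have hVV : ((V⁻¹ : UU k) : Mat k) * (V : Mat k) = 1 := by
        have : ((V⁻¹ * V : UU k) : Mat k) = ((V⁻¹ : UU k) : Mat k) * (V : Mat k) := rfl
        rw [← this, inv_mul_cancel]
        rfl
      have hVV' : (V : Mat k) * ((V⁻¹ : UU k) : Mat k) = 1 := by
        have : ((V * V⁻¹ : UU k) : Mat k) = (V : Mat k) * ((V⁻¹ : UU k) : Mat k) := rfl
        rw [← this, mul_inv_cancel]
        rfl
      have hinv : (V : Mat k)⁻¹ = ((V⁻¹ : UU k) : Mat k) := Matrix.inv_eq_left_inv hVV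
      have hunit : IsUnit (V : Mat k) := IsUnit.of_mul_eq_one _ hVV'
      have hspec : h = (V : Mat k) * diagonal (RCLike.ofReal ∘ hh.eigenvalues) *
          ((V⁻¹ : UU k) : Mat k) := by
        have h1 := hh.spectral_theorem
        conv_lhs => rw [h1]
        rw [Unitary.conjStarAlgAut_apply]
        rfl
      have hI : Complex.I • h = (V : Mat k) * diagonal (fun j => Complex.I *
          ((hh.eigenvalues j : ℝ) : ℂ)) * (V : Mat k)⁻¹ := by
        rw [hinv]
        conv_lhs => rw [hspec]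
        rw [← Matrix.smul_mul, ← Matrix.mul_smul, ← Matrix.diagonal_smul]
        rfl
      have hexp : NormedSpace.exp (Complex.I • h) = (V : Mat k) * diagonal (fun j =>
          Complex.exp (Complex.I * ((hh.eigenvalues j : ℝ) : ℂ))) * (V : Mat k)⁻¹ := by
        rw [hI, Matrix.exp_conj _ _ hunit, Matrix.exp_diagonal]
        congr 3
        funext j
        rw [Complex.exp_eq_exp_ℂ]
        exact Pi.coe_exp _ j
      have e1 : ((V⁻¹ * u * V : UU k) : Mat k) = ((V⁻¹ : UU k) : Mat k) * (u : Mat k) * (V : Mat k) :=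
        rfl
      rw [e1, hu, hexp, hinv]
      rw [Matrix.mul_smul, Matrix.smul_mul]
      have e2 : ((V⁻¹ : UU k) : Mat k) * ((V : Mat k) * diagonal (fun j =>
          Complex.exp (Complex.I * ((hh.eigenvalues j : ℝ) : ℂ))) * ((V⁻¹ : UU k) : Mat k)) *
          (V : Mat k) = diagonal (fun j =>
          Complex.exp (Complex.I * ((hh.eigenvalues j : ℝ) : ℂ))) := by
        rw [Matrix.mul_assoc, Matrix.mul_assoc, hVV, Matrix.mul_one, ← Matrix.mul_assoc, hVV,
          Matrix.one_mul]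
      rw [e2, ← Matrix.diagonal_smul]
      rfl
    choose g hg using fun j => exists_cpt hNpos (z j) (hz j)
    refine ⟨V, f g, Finset.mem_image_of_mem _ (Finset.mem_univ _), ?_⟩
    rw [hdiag]
    have e3 : ((f g : UU k) : Mat k) = diagonal (fun j => cpt N (g j).val) := rfl
    rw [e3, diagonal_sub, l2_opNorm_diagonal]
    rw [pi_norm_le_iff_of_nonneg hε.le]
    intro j
    exact (hg j).trans hNε

end Pool.Agent.H667R2.FG.TDIAG

namespace Pool.Agent.H667R2.FG

alias net_diag := TDIAG.net_diag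

end Pool.Agent.H667R2.FG
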