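import Mathlib
import Pool.Agent.H667R2.FG.Defs
import Pool.Agent.H667R2.FG.OpDefs
import Pool.Agent.H667R2.FG.Herm

namespace Pool.Agent.H667R2.FG.TRAND

open MeasureTheory Matrix Filter
open scoped Matrix.Norms.L2Operator ComplexConjugate ENNReal

namespace RAND

/-- the coefficient of `S p` in `Re ⟨y, herm S x⟩` -/
noncomputable def cf {k : ℕ} (x y : EuclideanSpace ℂ (Fin k)) (p : Fin k × Fin k) : ℝ :=
  ((conj (y p.1) * x p.2) * ((1 + Complex.I) / 2)).re +
  ((conj (y p.2) * x p.1) * ((1 - Complex.I) / 2)).re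

lemma inner_herm {k : ℕ} (S : Fin k × Fin k → ℝ) (x y : EuclideanSpace ℂ (Fin k)) :
    (inner ℂ y (Matrix.toEuclideanCLM (n := Fin k) (𝕜 := ℂ) (herm S) x)).re = ∑ p, S p * cf x y p := by
  have h1 : inner ℂ y (Matrix.toEuclideanCLM (n := Fin k) (𝕜 := ℂ) (herm S) x) =
      ∑ i, ∑ j, conj (y i) * (herm S i j * x j) := by
    rw [PiLp.inner_apply]
    apply Finset.sum_congr rfl
    intro i _
    have : (Matrix.toEuclideanCLM (n := Fin k) (𝕜 := ℂ) (herm S) x) i = ∑ j, herm S i j * x j := rfl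
    rw [this, RCLike.inner_apply, Finset.sum_mul]
    apply Finset.sum_congr rfl
    intro j _
    ring
  rw [h1, Complex.re_sum]
  have h2 : ∀ i j, (conj (y i) * (herm S i j * x j)).re =
      S (i, j) * ((conj (y i) * x j) * ((1 + Complex.I) / 2)).re +
      S (j, i) * ((conj (y i) * x j) * ((1 - Complex.I) / 2)).re := by
    intro i j
    have e : conj (y i) * (herm S i j * x j) =
        ((S (i, j) : ℝ) : ℂ) * ((conj (y i) * x j) * ((1 + Complex.I) / 2)) +
        ((S (j, i) : ℝ) : ℂ) * ((conj (y i) * x j) * ((1 - Complex.I) / 2)) := by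
      unfold herm
      push_cast
      ring
    rw [e, Complex.add_re, Complex.re_ofReal_mul, Complex.re_ofReal_mul]
  simp_rw [Complex.re_sum, h2, Finset.sum_add_distrib]
  rw [Fintype.sum_prod_type]
  simp only [cf, mul_add, Finset.sum_add_distrib]
  congr 1
  rw [Finset.sum_comm]

lemma cf_sq_le {k : ℕ} (x y : EuclideanSpace ℂ (Fin k)) (p : Fin k × Fin k) :
    cf x y p ^ 2 ≤ ‖y p.1‖ ^ 2 * ‖x p.2‖ ^ 2 + ‖y p.2‖ ^ 2 * ‖x p.1‖ ^ 2 := by
  have h1 : ∀ z : ℂ, (z * ((1 + Complex.I) / 2)).re ^ 2 ≤ ‖z‖ ^ 2 / 2 := by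
    intro z
    rw [← Complex.normSq_eq_norm_sq, Complex.normSq_apply]
    have : (z * ((1 + Complex.I) / 2)).re = (z.re - z.im) / 2 := by
      simp [Complex.mul_re]
      ring
    rw [this]
    nlinarith [sq_nonneg (z.re + z.im)]
  have h2 : ∀ z : ℂ, (z * ((1 - Complex.I) / 2)).re ^ 2 ≤ ‖z‖ ^ 2 / 2 := by
    intro z
    rw [← Complex.normSq_eq_norm_sq, Complex.normSq_apply]
    have : (z * ((1 - Complex.I) / 2)).re = (z.re + z.im) / 2 := by
      simp [Complex.mul_re]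
      ring
    rw [this]
    nlinarith [sq_nonneg (z.re - z.im)]
  unfold cf
  have h3 := h1 (conj (y p.1) * x p.2)
  have h4 := h2 (conj (y p.2) * x p.1)
  rw [norm_mul, RCLike.norm_conj, mul_pow] at h3 h4
  nlinarith [sq_nonneg (((conj (y p.1) * x p.2) * ((1 + Complex.I) / 2)).re -
    ((conj (y p.2) * x p.1) * ((1 - Complex.I) / 2)).re)]

lemma sum_cf_sq_le {k : ℕ} {x y : EuclideanSpace ℂ (Fin k)} (hx : ‖x‖ ≤ 1) (hy : ‖y‖ ≤ 1) :
    ∑ p, cf x y p ^ 2 ≤ 2 := by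
  have h1 : ∑ p : Fin k × Fin k, ‖y p.1‖ ^ 2 * ‖x p.2‖ ^ 2 = ‖y‖ ^ 2 * ‖x‖ ^ 2 := by
    rw [Fintype.sum_prod_type, EuclideanSpace.norm_sq_eq, EuclideanSpace.norm_sq_eq, Finset.sum_mul_sum]
  have h2 : ∑ p : Fin k × Fin k, ‖y p.2‖ ^ 2 * ‖x p.1‖ ^ 2 = ‖y‖ ^ 2 * ‖x‖ ^ 2 := by
    rw [Fintype.sum_prod_type_right, EuclideanSpace.norm_sq_eq, EuclideanSpace.norm_sq_eq,
      Finset.sum_mul_sum]
  calc ∑ p, cf x y p ^ 2 ≤ ∑ p : Fin k × Fin k, (‖y p.1‖ ^ 2 * ‖x p.2‖ ^ 2 + ‖y p.2‖ ^ 2 * ‖x p.1‖ ^ 2) :=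
        Finset.sum_le_sum fun p _ => cf_sq_le x y p
    _ = 2 * (‖y‖ ^ 2 * ‖x‖ ^ 2) := by rw [Finset.sum_add_distrib, h1, h2]; ring
    _ ≤ 2 * (1 ^ 2 * 1 ^ 2) := by gcongr
    _ = 2 := by norm_num

/-- one-dimensional exponential integral -/
lemma exp_int (a : ℝ) : ∫ s in Set.Icc (-1 : ℝ) 1, Real.exp (a * s) ≤ 2 * Real.exp (a ^ 2 / 2) := by
  have h1 : ∫ s in Set.Icc (-1 : ℝ) 1, Real.exp (a * s) ≤
      ∫ s in Set.Icc (-1 : ℝ) 1, ((1 + s) / 2 * Real.exp a + (1 - s) / 2 * Real.exp (-a)) := by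
    apply setIntegral_mono_on
    · exact (Continuous.continuousOn (by fun_prop)).integrableOn_compact isCompact_Icc
    · exact (Continuous.continuousOn (by fun_prop)).integrableOn_compact isCompact_Icc
    · exact measurableSet_Icc
    · intro s hs
      have h := convexOn_exp.2 (Set.mem_univ a) (Set.mem_univ (-a))
        (by linarith [hs.1] : (0 : ℝ) ≤ (1 + s) / 2) (by linarith [hs.2] : (0 : ℝ) ≤ (1 - s) / 2) (by ring)
      simp only [smul_eq_mul] at h
      have e : (1 + s) / 2 * a + (1 - s) / 2 * -a = a * s := by ring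
      rw [e] at h
      exact h
  have h2 : ∫ s in Set.Icc (-1 : ℝ) 1, ((1 + s) / 2 * Real.exp a + (1 - s) / 2 * Real.exp (-a)) =
      Real.exp a + Real.exp (-a) := by
    rw [integral_Icc_eq_integral_Ioc, ← intervalIntegral.integral_of_le (by norm_num)]
    have hd : ∀ s ∈ Set.uIcc (-1 : ℝ) 1, HasDerivAt (fun s : ℝ => (s + s ^ 2 / 2) / 2 * Real.exp a +
        (s - s ^ 2 / 2) / 2 * Real.exp (-a)) ((1 + s) / 2 * Real.exp a + (1 - s) / 2 * Real.exp (-a)) s := by
      intro s _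
      have e1 : HasDerivAt (fun s : ℝ => s ^ 2 / 2) s s := by
        have := (hasDerivAt_pow 2 s).div_const 2
        simpa using this
      exact ((((hasDerivAt_id s).add e1).div_const 2).mul_const _).add
        ((((hasDerivAt_id s).sub e1).div_const 2).mul_const _)
    rw [intervalIntegral.integral_eq_sub_of_hasDerivAt hd
      (Continuous.intervalIntegrable (by fun_prop) _ _)]
    ring
  have h3 := Real.cosh_le_exp_half_sq a
  rw [Real.cosh_eq] at h3
  linarith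

/-- the uniform (unnormalised) measure on the cube -/
noncomputable def mu (k : ℕ) : Measure (Fin k × Fin k → ℝ) :=
  Measure.pi fun _ : Fin k × Fin k => (volume.restrict (Set.Icc (-1 : ℝ) 1))

instance (k : ℕ) : IsFiniteMeasure (mu k) := by unfold mu; infer_instance

lemma mu_eq (k : ℕ) : mu k = volume.restrict (Set.pi Set.univ fun _ : Fin k × Fin k => Set.Icc (-1 : ℝ) 1) := by
  unfold mu
  rw [volume_pi, Measure.restrict_pi_pi]

lemma exp_moment {k : ℕ} (c : Fin k × Fin k → ℝ) (hc : ∑ p, c p ^ 2 ≤ 2) (l : ℝ) :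
    Integrable (fun S : Fin k × Fin k → ℝ => Real.exp (l * ∑ p, S p * c p)) (mu k) ∧
    ∫ S, Real.exp (l * ∑ p, S p * c p) ∂(mu k) ≤ 2 ^ (k ^ 2) * Real.exp (l ^ 2) := by
  have h1 : ∀ S : Fin k × Fin k → ℝ, Real.exp (l * ∑ p, S p * c p) =
      ∏ p, Real.exp ((l * c p) * S p) := by
    intro S
    rw [← Real.exp_sum, Finset.mul_sum]
    congr 1
    apply Finset.sum_congr rfl
    intro p _
    ring
  simp_rw [h1]
  have hint : ∀ a : ℝ, Integrable (fun s : ℝ => Real.exp (a * s)) (volume.restrict (Set.Icc (-1 : ℝ) 1)) :=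
    fun a => (Continuous.continuousOn (by fun_prop)).integrableOn_compact isCompact_Icc
  constructor
  · unfold mu
    exact Integrable.fintype_prod (f := fun (p : Fin k × Fin k) (s : ℝ) => Real.exp ((l * c p) * s))
      (fun p => hint _)
  · unfold mu
    rw [integral_fintype_prod_eq_prod (f := fun (p : Fin k × Fin k) (s : ℝ) => Real.exp ((l * c p) * s))]
    calc ∏ p : Fin k × Fin k, ∫ s in Set.Icc (-1 : ℝ) 1, Real.exp ((l * c p) * s)
        ≤ ∏ p : Fin k × Fin k, 2 * Real.exp ((l * c p) ^ 2 / 2) := by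
          apply Finset.prod_le_prod
          · intro p _
            exact integral_nonneg fun s => (Real.exp_pos _).le
          · intro p _
            exact exp_int _
      _ = 2 ^ (k ^ 2) * Real.exp (l ^ 2 / 2 * ∑ p, c p ^ 2) := by
          rw [Finset.prod_mul_distrib, Finset.prod_const, ← Real.exp_sum, Finset.card_univ,
            Fintype.card_prod, Fintype.card_fin, ← sq, Finset.mul_sum]
          congr 2
          apply Finset.sum_congr rfl
          intro p _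
          ring
      _ ≤ 2 ^ (k ^ 2) * Real.exp (l ^ 2) := by
          gcongr
          nlinarith [sq_nonneg l]

lemma chernoff {k : ℕ} (c : Fin k × Fin k → ℝ) (hc : ∑ p, c p ^ 2 ≤ 2) (t : ℝ) (ht : 0 ≤ t) :
    mu k {S | t ≤ ∑ p, S p * c p} ≤ ENNReal.ofReal (2 ^ (k ^ 2) * Real.exp (-(t ^ 2 / 4))) := by
  obtain ⟨hi, hb⟩ := exp_moment c hc (t / 2)
  have h1 := mul_meas_ge_le_integral_of_nonneg (μ := mu k)
    (f := fun S : Fin k × Fin k → ℝ => Real.exp (t / 2 * ∑ p, S p * c p))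
    (Eventually.of_forall fun S => (Real.exp_pos _).le) hi (Real.exp (t / 2 * t))
  have hsub : {S : Fin k × Fin k → ℝ | t ≤ ∑ p, S p * c p} ⊆
      {S | Real.exp (t / 2 * t) ≤ Real.exp (t / 2 * ∑ p, S p * c p)} := by
    intro S hS
    simp only [Set.mem_ofPred_eq] at hS ⊢
    exact Real.exp_le_exp.2 (mul_le_mul_of_nonneg_left hS (by linarith))
  refine (measure_mono hsub).trans ?_
  rw [← ENNReal.ofReal_toReal (measure_ne_top (mu k) {S : Fin k × Fin k → ℝ |
    Real.exp (t / 2 * t) ≤ Real.exp (t / 2 * ∑ p, S p * c p)})]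
  apply ENNReal.ofReal_le_ofReal
  change (mu k).real _ ≤ _
  have h2 : Real.exp (t / 2 * t) * (mu k).real {S : Fin k × Fin k → ℝ |
      Real.exp (t / 2 * t) ≤ Real.exp (t / 2 * ∑ p, S p * c p)} ≤ 2 ^ (k ^ 2) * Real.exp ((t / 2) ^ 2) :=
    h1.trans hb
  have h3 : (2 : ℝ) ^ (k ^ 2) * Real.exp (-(t ^ 2 / 4)) =
      (2 ^ (k ^ 2) * Real.exp ((t / 2) ^ 2)) / Real.exp (t / 2 * t) := by
    rw [mul_div_assoc, ← Real.exp_sub]
    congr 2
    ring
  rw [h3, le_div_iff₀ (Real.exp_pos _), mul_comm]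
  exact h2

/-- a 1/2-net of the unit sphere -/
lemma net (k : ℕ) : ∃ T : Finset (EuclideanSpace ℂ (Fin k)), (∀ c ∈ T, ‖c‖ = 1) ∧
    (∀ x : EuclideanSpace ℂ (Fin k), ‖x‖ = 1 → ∃ c ∈ T, ‖x - c‖ ≤ 1 / 2) ∧ T.card ≤ 25 ^ k := by
  classical
  set P : Finset (EuclideanSpace ℂ (Fin k)) → Prop := fun T => (∀ c ∈ T, ‖c‖ = 1) ∧
    ∀ c ∈ T, ∀ d ∈ T, c ≠ d → 1 / 2 ≤ ‖c - d‖ with hP
  have hcard : ∀ T, P T → T.card ≤ 25 ^ k := by
    intro T hT
    have h1 := Besicovitch.card_le_of_separated (T.image fun c => (2 : ℝ) • c) (by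
      intro c hc
      rw [Finset.mem_image] at hc
      obtain ⟨d, hd, rfl⟩ := hc
      rw [norm_smul, hT.1 d hd]
      norm_num) (by
      intro c hc d hd hcd
      rw [Finset.mem_image] at hc hd
      obtain ⟨c, hc, rfl⟩ := hc
      obtain ⟨d, hd, rfl⟩ := hd
      have hne : c ≠ d := fun h => hcd (by rw [h])
      have := hT.2 c hc d hd hne
      rw [← smul_sub, norm_smul, Real.norm_eq_abs, abs_of_pos (by norm_num : (0 : ℝ) < 2)]
      linarith)
    rw [Finset.card_image_of_injective _ (fun a b h => smul_right_injective _ (two_ne_zero) h)] at h1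
    have h2 : Module.finrank ℝ (EuclideanSpace ℂ (Fin k)) = 2 * k := by
      rw [finrank_real_of_complex, finrank_euclideanSpace, Fintype.card_fin]
    rw [h2, pow_mul] at h1
    exact h1
  set A : Set ℕ := {n | ∃ T, P T ∧ T.card = n} with hA
  have hAne : A.Nonempty := ⟨0, ∅, ⟨by simp, by simp⟩, rfl⟩
  have hAb : BddAbove A := ⟨25 ^ k, by
    rintro n ⟨T, hT, rfl⟩
    exact hcard T hT⟩
  obtain ⟨T, hT, hTc⟩ := Nat.sSup_mem hAne hAb
  refine ⟨T, hT.1, ?_, hcard T hT⟩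
  intro x hx
  by_contra hcon
  push Not at hcon
  have hxT : x ∉ T := fun h => by
    have := hcon x h
    rw [sub_self, norm_zero] at this
    norm_num at this
  have hP' : P (insert x T) := by
    refine ⟨?_, ?_⟩
    · intro c hc
      rcases Finset.mem_insert.1 hc with rfl | hc
      · exact hx
      · exact hT.1 c hc
    · intro c hc d hd hcd
      rcases Finset.mem_insert.1 hc with hc | hc <;> rcases Finset.mem_insert.1 hd with hd | hd
      · exact absurd (hc.trans hd.symm) hcd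
      · rw [hc]; exact (hcon d hd).le
      · rw [hd, norm_sub_rev]; exact (hcon c hc).le
      · exact hT.2 c hc d hd hcd
  have h3 : (insert x T).card ≤ sSup A := le_csSup hAb ⟨_, hP', rfl⟩
  rw [Finset.card_insert_of_notMem hxT, hTc] at h3
  omega

lemma norm_le_of_net {k : ℕ} {T : Finset (EuclideanSpace ℂ (Fin k))}
    (hd : ∀ x : EuclideanSpace ℂ (Fin k), ‖x‖ = 1 → ∃ c ∈ T, ‖x - c‖ ≤ 1 / 2)
    (L : EuclideanSpace ℂ (Fin k) →L[ℂ] EuclideanSpace ℂ (Fin k)) {s : ℝ} (hs : 0 ≤ s)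
    (h : ∀ x ∈ T, ∀ y ∈ T, (inner ℂ y (L x)).re ≤ s) : ‖L‖ ≤ 4 * s := by
  have h1 : ∀ x ∈ T, ‖L x‖ ≤ 2 * s := by
    intro x hx
    rcases eq_or_ne (L x) 0 with h0 | h0
    · rw [h0, norm_zero]; linarith
    · have hpos : 0 < ‖L x‖ := norm_pos_iff.2 h0
      set y : EuclideanSpace ℂ (Fin k) := ((‖L x‖⁻¹ : ℝ) : ℂ) • L x with hy
      have hy1 : ‖y‖ = 1 := by
        rw [hy, norm_smul, Complex.norm_real, norm_inv, norm_norm, inv_mul_cancel₀ hpos.ne']
      obtain ⟨c, hc, hyc⟩ := hd y hy1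
      have e1 : (inner ℂ y (L x)).re = ‖L x‖ := by
        rw [hy, inner_smul_left, Complex.conj_ofReal, Complex.re_ofReal_mul]
        have : (inner ℂ (L x) (L x)).re = ‖L x‖ ^ 2 := by
          rw [inner_self_eq_norm_sq_to_K]
          norm_cast
        rw [this]
        field_simp
      have e2 : (inner ℂ y (L x)).re = (inner ℂ c (L x)).re + (inner ℂ (y - c) (L x)).re := by
        rw [← Complex.add_re, ← inner_add_left]
        congr 2
        abel
      have e3 : (inner ℂ (y - c) (L x)).re ≤ 1 / 2 * ‖L x‖ := by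
        calc (inner ℂ (y - c) (L x)).re ≤ ‖inner ℂ (y - c) (L x)‖ := Complex.re_le_norm _
          _ ≤ ‖y - c‖ * ‖L x‖ := norm_inner_le_norm _ _
          _ ≤ 1 / 2 * ‖L x‖ := by gcongr
      have e4 := h x hx c hc
      linarith
  have h2 : ‖L‖ ≤ 2 * s + ‖L‖ / 2 := by
    apply ContinuousLinearMap.opNorm_le_of_unit_norm (by positivity)
    intro x hx
    obtain ⟨c, hc, hxc⟩ := hd x hx
    calc ‖L x‖ = ‖L c + L (x - c)‖ := by rw [← map_add]; congr 2; abel
      _ ≤ ‖L c‖ + ‖L (x - c)‖ := norm_add_le _ _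
      _ ≤ 2 * s + ‖L‖ * (1 / 2) := by
          gcongr
          · exact h1 c hc
          · exact (L.le_opNorm _).trans (by gcongr)
      _ = 2 * s + ‖L‖ / 2 := by ring
  linarith

end RAND

open RAND in
theorem rand_norm : ∃ C : ℝ, 1 ≤ C ∧ ∀ k : ℕ, 0 < k →
    volume {S : Fin k × Fin k → ℝ | (∀ p, |S p| ≤ 1) ∧ C * √k ≤ ‖herm S‖}
      ≤ ENNReal.ofReal (2 ^ (k ^ 2) / 2) := by
  refine ⟨64, by norm_num, ?_⟩
  intro k hk
  have hkpos : (0 : ℝ) < k := by exact_mod_cast hk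
  have hsq : 0 < √(k : ℝ) := Real.sqrt_pos.2 hkpos
  obtain ⟨T, hT1, hT2, hT3⟩ := net k
  have hset : {S : Fin k × Fin k → ℝ | (∀ p, |S p| ≤ 1) ∧ 64 * √k ≤ ‖herm S‖} =
      {S | 64 * √k ≤ ‖herm S‖} ∩ (Set.pi Set.univ fun _ : Fin k × Fin k => Set.Icc (-1 : ℝ) 1) := by
    ext S
    simp only [Set.mem_ofPred_eq, Set.mem_inter_iff, Set.mem_pi, Set.mem_univ, true_imp_iff, Set.mem_Icc,
      abs_le]
    tauto
  have hms : MeasurableSet (Set.pi Set.univ fun _ : Fin k × Fin k => Set.Icc (-1 : ℝ) 1) :=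
    MeasurableSet.univ_pi fun _ => measurableSet_Icc
  rw [hset, ← Measure.restrict_apply' hms, ← mu_eq]
  set s : ℝ := 8 * √k with hs
  have hspos : 0 < s := by positivity
  have hsub : {S : Fin k × Fin k → ℝ | 64 * √k ≤ ‖herm S‖} ⊆
      ⋃ x ∈ T, ⋃ y ∈ T, {S | s ≤ ∑ p, S p * cf x y p} := by
    intro S hS
    simp only [Set.mem_ofPred_eq] at hS
    by_contra hcon
    simp only [Set.mem_iUnion, Set.mem_ofPred_eq, not_exists, not_le] at hcon
    have h1 := norm_le_of_net hT2 (Matrix.toEuclideanCLM (n := Fin k) (𝕜 := ℂ) (herm S)) hspos.le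
      (fun x hx y hy => by rw [inner_herm]; exact (hcon x hx y hy).le)
    rw [← Matrix.cstar_norm_def] at h1
    have : 64 * √k ≤ 4 * s := hS.trans h1
    rw [hs] at this
    nlinarith
  refine (measure_mono hsub).trans ?_
  have hE : ∀ x ∈ T, ∀ y ∈ T, mu k {S | s ≤ ∑ p, S p * cf x y p} ≤
      ENNReal.ofReal (2 ^ (k ^ 2) * Real.exp (-(16 * k))) := by
    intro x hx y hy
    have h1 := chernoff (cf x y) (sum_cf_sq_le (hT1 x hx).le (hT1 y hy).le) s hspos.le
    have h2 : s ^ 2 / 4 = 16 * k := by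
      rw [hs, mul_pow, Real.sq_sqrt hkpos.le]; ring
    rw [h2] at h1
    exact h1
  calc mu k (⋃ x ∈ T, ⋃ y ∈ T, {S | s ≤ ∑ p, S p * cf x y p})
      ≤ ∑ x ∈ T, mu k (⋃ y ∈ T, {S | s ≤ ∑ p, S p * cf x y p}) := measure_biUnion_finset_le _ _
    _ ≤ ∑ x ∈ T, ∑ y ∈ T, mu k {S | s ≤ ∑ p, S p * cf x y p} :=
        Finset.sum_le_sum fun x _ => measure_biUnion_finset_le _ _
    _ ≤ ∑ x ∈ T, ∑ y ∈ T, ENNReal.ofReal (2 ^ (k ^ 2) * Real.exp (-(16 * k))) :=
        Finset.sum_le_sum fun x hx => Finset.sum_le_sum fun y hy => hE x hx y hy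
    _ = ((T.card * T.card : ℕ) : ℝ≥0∞) * ENNReal.ofReal (2 ^ (k ^ 2) * Real.exp (-(16 * k))) := by
        rw [Finset.sum_const, Finset.sum_const, smul_smul, nsmul_eq_mul]
    _ ≤ ENNReal.ofReal (25 ^ k * 25 ^ k) * ENNReal.ofReal (2 ^ (k ^ 2) * Real.exp (-(16 * k))) := by
        gcongr
        rw [← ENNReal.ofReal_natCast]
        apply ENNReal.ofReal_le_ofReal
        push_cast
        have : (T.card : ℝ) ≤ 25 ^ k := by exact_mod_cast hT3
        gcongr
    _ = ENNReal.ofReal (25 ^ k * 25 ^ k * (2 ^ (k ^ 2) * Real.exp (-(16 * k)))) := by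
        exact (ENNReal.ofReal_mul (p := 25 ^ k * 25 ^ k) (by positivity)).symm
    _ ≤ ENNReal.ofReal (2 ^ (k ^ 2) / 2) := by
        apply ENNReal.ofReal_le_ofReal
        have h1 : (25 : ℝ) ^ k * 25 ^ k * Real.exp (-(16 * k)) ≤ 1 / 2 := by
          have e1 : (25 : ℝ) ^ k * 25 ^ k * Real.exp (-(16 * k)) = (625 * Real.exp (-16)) ^ k := by
            rw [mul_pow, ← Real.exp_nat_mul, ← mul_pow]
            norm_num
            ring
          rw [e1]
          have e2 : 625 * Real.exp (-16) ≤ 1 / 2 := by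
            have h3 : (2 : ℝ) ^ 16 ≤ Real.exp 16 := by
              have h4 : (2 : ℝ) ≤ Real.exp 1 := by
                have := Real.add_one_le_exp (1 : ℝ)
                linarith
              calc (2 : ℝ) ^ 16 ≤ (Real.exp 1) ^ 16 := by gcongr
                _ = Real.exp 16 := by rw [← Real.exp_nat_mul]; norm_num
            rw [Real.exp_neg, ← div_eq_mul_inv, div_le_iff₀ (Real.exp_pos _)]
            nlinarith
          calc (625 * Real.exp (-16)) ^ k ≤ (625 * Real.exp (-16)) ^ 1 :=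
                pow_le_pow_of_le_one (by positivity) (by linarith) hk
            _ ≤ 1 / 2 := by rw [pow_one]; exact e2
        calc (25 : ℝ) ^ k * 25 ^ k * (2 ^ (k ^ 2) * Real.exp (-(16 * k)))
            = 2 ^ (k ^ 2) * (25 ^ k * 25 ^ k * Real.exp (-(16 * k))) := by ring
          _ ≤ 2 ^ (k ^ 2) * (1 / 2) := by gcongr
          _ = 2 ^ (k ^ 2) / 2 := by ring

end Pool.Agent.H667R2.FG.TRAND

namespace Pool.Agent.H667R2.FG

alias rand_norm := TRAND.rand_norm

end Pool.Agent.H667R2.FG
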