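import Mathlib
import Pool.Agent.H667R2.FG.Defs
import Pool.Agent.H667R2.FG.OpDefs
import Pool.Agent.H667R2.FG.Herm
import Pool.Agent.H667R2.FG.THS
import Pool.Agent.H667R2.FG.TRAND

/-! Task PACK -/

namespace Pool.Agent.H667R2.FG.TPACK

open MeasureTheory Matrix Filter
open scoped Matrix.Norms.L2Operator ComplexConjugate ENNReal

/-- the constant in the volume of Euclidean balls -/
noncomputable def KB : ℝ := Real.exp (1 / 2) * √(2 * Real.pi)

theorem KB_pos : 0 < KB := by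
  unfold KB
  positivity

theorem pack_gauss_integral {ι : Type} [Fintype ι] (b : ℝ) (S₀ : ι → ℝ) :
    ∫ S : ι → ℝ, ∏ p, Real.exp (-b * (S p - S₀ p) ^ 2) = √(Real.pi / b) ^ Fintype.card ι := by
  rw [MeasureTheory.integral_fintype_prod_volume_eq_prod (𝕜 := ℝ)
    (fun p x => Real.exp (-b * (x - S₀ p) ^ 2))]
  rw [Finset.prod_congr rfl fun p _ => by
    rw [MeasureTheory.integral_sub_right_eq_self (fun x : ℝ => Real.exp (-b * x ^ 2)) (S₀ p),
      integral_gaussian]]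
  rw [Finset.prod_const, Finset.card_univ]

theorem pack_gauss_integrable {ι : Type} [Fintype ι] (b : ℝ) (hb : 0 < b) (S₀ : ι → ℝ) :
    Integrable fun S : ι → ℝ => ∏ p, Real.exp (-b * (S p - S₀ p) ^ 2) := by
  refine MeasureTheory.Integrable.fintype_prod (𝕜 := ℝ)
    (f := fun p x => Real.exp (-b * (x - S₀ p) ^ 2)) fun p => ?_
  exact (integrable_exp_neg_mul_sq hb).comp_sub_right (S₀ p)

theorem pack_ball_volume {k : ℕ} (hk : 0 < k) (R : ℝ) (hR : 0 < R) (S₀ : Fin k × Fin k → ℝ) :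
    volume {S : Fin k × Fin k → ℝ | ∑ p, (S p - S₀ p) ^ 2 ≤ R ^ 2} ≤
      ENNReal.ofReal ((KB * R / k) ^ (k ^ 2)) := by
  have hk' : (0 : ℝ) < k := by exact_mod_cast hk
  set b : ℝ := (k : ℝ) ^ 2 / (2 * R ^ 2) with hb
  have hb0 : 0 < b := by positivity
  set E : Set (Fin k × Fin k → ℝ) := {S | ∑ p, (S p - S₀ p) ^ 2 ≤ R ^ 2} with hE
  have hEm : MeasurableSet E := by
    apply measurableSet_le
    · fun_prop
    · fun_prop
  have h1 : volume E ≤ ∫⁻ S : Fin k × Fin k → ℝ,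
      ENNReal.ofReal (Real.exp (b * R ^ 2) * ∏ p, Real.exp (-b * (S p - S₀ p) ^ 2)) := by
    rw [← MeasureTheory.lintegral_indicator_one hEm]
    refine MeasureTheory.lintegral_mono fun S => ?_
    by_cases hS : S ∈ E
    · rw [Set.indicator_of_mem hS, Pi.one_apply]
      rw [← ENNReal.ofReal_one]
      apply ENNReal.ofReal_le_ofReal
      rw [← Real.exp_sum, ← Real.exp_add]
      apply Real.one_le_exp
      rw [← Finset.mul_sum]
      have h2 : ∑ p, (S p - S₀ p) ^ 2 ≤ R ^ 2 := hS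
      nlinarith [mul_le_mul_of_nonneg_left h2 hb0.le]
    · rw [Set.indicator_of_notMem hS]
      exact zero_le
  refine h1.trans ?_
  rw [← MeasureTheory.ofReal_integral_eq_lintegral_ofReal
    ((pack_gauss_integrable b hb0 S₀).const_mul _)
    (Filter.Eventually.of_forall fun S => by positivity)]
  apply ENNReal.ofReal_le_ofReal
  rw [MeasureTheory.integral_const_mul, pack_gauss_integral]
  have h3 : Fintype.card (Fin k × Fin k) = k ^ 2 := by
    rw [Fintype.card_prod, Fintype.card_fin]; ring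
  rw [h3]
  have h4 : b * R ^ 2 = ((k ^ 2 : ℕ) : ℝ) * (1 / 2) := by
    rw [hb]; push_cast; field_simp
  have h5 : √(Real.pi / b) = √(2 * Real.pi) * R / k := by
    have : Real.pi / b = (2 * Real.pi) * (R / k) ^ 2 := by
      rw [hb]; field_simp
    rw [this, Real.sqrt_mul (by positivity), Real.sqrt_sq (by positivity)]
    ring
  rw [h4, Real.exp_nat_mul, h5, ← mul_pow]
  apply le_of_eq
  congr 1
  unfold KB
  ring

theorem pack_cube (k : ℕ) : volume {S : Fin k × Fin k → ℝ | ∀ p, |S p| ≤ 1} =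
    ENNReal.ofReal (2 ^ (k ^ 2)) := by
  have h1 : {S : Fin k × Fin k → ℝ | ∀ p, |S p| ≤ 1} =
      Set.Icc (fun _ => (-1 : ℝ)) (fun _ => (1 : ℝ)) := by
    ext S
    simp only [Set.mem_ofPred_eq, Set.mem_Icc, Pi.le_def, abs_le]
    exact forall_and
  rw [h1, Real.volume_Icc_pi]
  rw [Finset.prod_const, Finset.card_univ, Fintype.card_prod, Fintype.card_fin,
    ← ENNReal.ofReal_pow (by norm_num)]
  congr 1
  norm_num
  ring

theorem herm_isHermitian {k : ℕ} (S : Fin k × Fin k → ℝ) : (herm S).IsHermitian := by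
  ext i j
  rw [Matrix.conjTranspose_apply]
  simp only [herm, star_add, star_mul', Complex.star_def, Complex.conj_ofReal, Complex.conj_I]
  push_cast
  ring

theorem herm_sub {k : ℕ} (S T : Fin k × Fin k → ℝ) : herm S - herm T = herm (S - T) := by
  ext i j
  rw [Matrix.sub_apply]
  simp only [herm, Pi.sub_apply]
  push_cast
  ring

theorem herm_sum_sq {k : ℕ} (S : Fin k × Fin k → ℝ) :
    ∑ i, ∑ j, ‖herm S i j‖ ^ 2 = ∑ p, S p ^ 2 := by
  have h1 : ∀ i j, ‖herm S i j‖ ^ 2 = (S (i, j) ^ 2 + S (j, i) ^ 2) / 2 := by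
    intro i j
    rw [← Complex.normSq_eq_norm_sq]
    unfold herm
    rw [Complex.normSq_add_mul_I]
    ring
  simp_rw [h1]
  rw [Fintype.sum_prod_type]
  have h2 : ∑ i, ∑ j, S (j, i) ^ 2 = ∑ i, ∑ j, S (i, j) ^ 2 := Finset.sum_comm
  have h3 : ∑ i, ∑ j, (S (i, j) ^ 2 + S (j, i) ^ 2) / 2 =
      (∑ i, ∑ j, S (i, j) ^ 2 + ∑ i, ∑ j, S (j, i) ^ 2) / 2 := by
    rw [← Finset.sum_add_distrib, Finset.sum_div]
    refine Finset.sum_congr rfl fun i _ => ?_
    rw [← Finset.sum_add_distrib, Finset.sum_div]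
  rw [h3, h2]
  ring

/-- the scaled Hermitian matrix -/
noncomputable def aS {k : ℕ} (c₀ : ℝ) (S : Fin k × Fin k → ℝ) : Mat k :=
  ((c₀ / √k : ℝ) : ℂ) • herm S

theorem aS_herm {k : ℕ} (c₀ : ℝ) (S : Fin k × Fin k → ℝ) : (aS c₀ S).IsHermitian := by
  unfold aS
  rw [Matrix.IsHermitian, Matrix.conjTranspose_smul, (herm_isHermitian S).eq, Complex.star_def,
    Complex.conj_ofReal]

theorem hs_aS_sub {k : ℕ} (hk : 0 < k) (c₀ : ℝ) (hc : 0 < c₀) (S T : Fin k × Fin k → ℝ) :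
    hs (aS c₀ S - aS c₀ T) ^ 2 = (c₀ / k) ^ 2 * ∑ p, (S p - T p) ^ 2 := by
  have hk' : (0 : ℝ) < k := by exact_mod_cast hk
  have h1 : aS c₀ S - aS c₀ T = ((c₀ / √k : ℝ) : ℂ) • herm (S - T) := by
    rw [aS, aS, ← smul_sub, herm_sub]
  rw [h1, hs, Real.sq_sqrt (by positivity)]
  have h2 : ∑ i, ∑ j, ‖((((c₀ / √k : ℝ) : ℂ)) • herm (S - T)) i j‖ ^ 2 =
      (c₀ / √k) ^ 2 * ∑ i, ∑ j, ‖herm (S - T) i j‖ ^ 2 := by
    rw [Finset.mul_sum]
    refine Finset.sum_congr rfl fun i _ => ?_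
    rw [Finset.mul_sum]
    refine Finset.sum_congr rfl fun j _ => ?_
    rw [Matrix.smul_apply, norm_smul, mul_pow, Complex.norm_real, Real.norm_eq_abs, sq_abs]
  rw [h2, herm_sum_sq, div_pow, Real.sq_sqrt hk'.le]
  simp only [Pi.sub_apply]
  field_simp

theorem pack_herm : ∃ c : ℝ, 0 < c ∧ ∀ k : ℕ, 0 < k → ∀ δ : ℝ, 0 < δ → δ ≤ 1 →
    ∃ s : Finset (Mat k), (∀ a ∈ s, a.IsHermitian ∧ ‖a‖ ≤ 1 / 4) ∧
      (∀ a ∈ s, ∀ b ∈ s, a ≠ b → δ ≤ hs (a - b)) ∧ (c / δ) ^ (k ^ 2) ≤ s.card := by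
  classical
  obtain ⟨C, hC1, hC⟩ := rand_norm
  have hC0 : 0 < C := by linarith
  set c₀ : ℝ := 1 / (4 * C) with hc₀
  have hc0 : 0 < c₀ := by positivity
  have hKB := KB_pos
  refine ⟨c₀ / KB, by positivity, fun k hk δ hδ hδ1 => ?_⟩
  have hk' : (0 : ℝ) < k := by exact_mod_cast hk
  set G : Set (Fin k × Fin k → ℝ) := {S | (∀ p, |S p| ≤ 1) ∧ ‖herm S‖ < C * √k} with hG
  have hGvol : ENNReal.ofReal (2 ^ (k ^ 2) / 2) ≤ volume G := by
    have h1 : {S : Fin k × Fin k → ℝ | ∀ p, |S p| ≤ 1} ⊆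
        G ∪ {S : Fin k × Fin k → ℝ | (∀ p, |S p| ≤ 1) ∧ C * √k ≤ ‖herm S‖} := by
      intro S hS
      rcases lt_or_ge ‖herm S‖ (C * √k) with h | h
      · exact Or.inl ⟨hS, h⟩
      · exact Or.inr ⟨hS, h⟩
    have h2 := (measure_mono h1).trans (measure_union_le (μ := volume) _ _)
    rw [pack_cube] at h2
    have h3 := h2.trans (add_le_add le_rfl (hC k hk))
    have h4 : ENNReal.ofReal (2 ^ (k ^ 2)) = ENNReal.ofReal (2 ^ (k ^ 2) / 2) +
        ENNReal.ofReal (2 ^ (k ^ 2) / 2) := by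
      rw [← ENNReal.ofReal_add (by positivity) (by positivity)]
      congr 1
      ring
    rw [h4] at h3
    exact (ENNReal.add_le_add_iff_right ENNReal.ofReal_ne_top).1 h3
  set Sep : Finset (Fin k × Fin k → ℝ) → Prop := fun s => (∀ S ∈ s, S ∈ G) ∧
    ∀ S ∈ s, ∀ T ∈ s, S ≠ T → δ ≤ hs (aS c₀ S - aS c₀ T) with hSep
  -- a covering separated set is large
  have hcov : ∀ s, Sep s → (∀ S ∈ G, ∃ T ∈ s, hs (aS c₀ S - aS c₀ T) < δ) →
      (c₀ / KB / δ) ^ (k ^ 2) ≤ s.card := by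
    intro s _ hs'
    set R : ℝ := δ * k / c₀ with hR
    have hR0 : 0 < R := by positivity
    have h1 : G ⊆ ⋃ T ∈ s, {S : Fin k × Fin k → ℝ | ∑ p, (S p - T p) ^ 2 ≤ R ^ 2} := by
      intro S hS
      obtain ⟨T, hT, hlt⟩ := hs' S hS
      rw [Set.mem_iUnion₂]
      refine ⟨T, hT, ?_⟩
      rw [Set.mem_ofPred_eq]
      have h2 : hs (aS c₀ S - aS c₀ T) ^ 2 ≤ δ ^ 2 :=
        pow_le_pow_left₀ (Real.sqrt_nonneg _) hlt.le 2
      rw [hs_aS_sub hk c₀ hc0] at h2
      have h5 : R ^ 2 = δ ^ 2 / (c₀ / k) ^ 2 := by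
        rw [hR]; field_simp
      rw [h5, le_div_iff₀ (by positivity)]
      linarith
    have h2 := (measure_mono h1).trans (measure_biUnion_finset_le (μ := volume) s _)
    have h3 : ∑ T ∈ s, volume {S : Fin k × Fin k → ℝ | ∑ p, (S p - T p) ^ 2 ≤ R ^ 2} ≤
        ∑ T ∈ s, ENNReal.ofReal ((KB * R / k) ^ (k ^ 2)) :=
      Finset.sum_le_sum fun T _ => pack_ball_volume hk R hR0 T
    rw [Finset.sum_const, nsmul_eq_mul] at h3
    have h4 := hGvol.trans (h2.trans h3)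
    have h5 : ((s.card : ℕ) : ℝ≥0∞) * ENNReal.ofReal ((KB * R / k) ^ (k ^ 2)) =
        ENNReal.ofReal ((s.card : ℝ) * (KB * R / k) ^ (k ^ 2)) := by
      rw [ENNReal.ofReal_mul (by positivity), ENNReal.ofReal_natCast]
    rw [h5, ENNReal.ofReal_le_ofReal_iff (by positivity)] at h4
    have h6 : (1 : ℝ) ≤ 2 ^ (k ^ 2) / 2 := by
      have h7 : (2 : ℝ) ^ 1 ≤ 2 ^ (k ^ 2) := pow_le_pow_right₀ (by norm_num) (Nat.one_le_pow 2 k hk)
      rw [le_div_iff₀ (by norm_num)]
      linarith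
    have h8 : c₀ / KB / δ * (KB * R / k) = 1 := by
      rw [hR]; field_simp
    have h9 : (c₀ / KB / δ) ^ (k ^ 2) * (KB * R / k) ^ (k ^ 2) = 1 := by
      rw [← mul_pow, h8, one_pow]
    have h10 : 0 < (KB * R / k) ^ (k ^ 2) := by positivity
    have h11 : (c₀ / KB / δ) ^ (k ^ 2) * (KB * R / k) ^ (k ^ 2) ≤
        (s.card : ℝ) * (KB * R / k) ^ (k ^ 2) := by
      rw [h9]; linarith
    exact le_of_mul_le_mul_right h11 h10
  -- existence of a large separated set
  have hex : ∃ s, Sep s ∧ (c₀ / KB / δ) ^ (k ^ 2) ≤ s.card := by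
    by_contra hcon
    push Not at hcon
    have hgrow : ∀ m : ℕ, ∃ s, Sep s ∧ m ≤ s.card := by
      intro m
      induction m with
      | zero => exact ⟨∅, ⟨by simp, by simp⟩, Nat.zero_le _⟩
      | succ m ih =>
        obtain ⟨s, hs1, hs2⟩ := ih
        by_cases hc : ∀ S ∈ G, ∃ T ∈ s, hs (aS c₀ S - aS c₀ T) < δ
        · exact absurd (hcov s hs1 hc) (not_le.2 (hcon s hs1))
        · push Not at hc
          obtain ⟨S, hS, hfar⟩ := hc
          have hns : S ∉ s := by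
            intro hmem
            have := hfar S hmem
            have h0 : hs (aS c₀ S - aS c₀ S) ^ 2 = 0 := by
              rw [hs_aS_sub hk c₀ hc0]; simp
            have h1 : hs (aS c₀ S - aS c₀ S) = 0 := by
              exact pow_eq_zero_iff (two_ne_zero) |>.1 h0
            linarith
          refine ⟨insert S s, ⟨?_, ?_⟩, ?_⟩
          · intro T hT
            rcases Finset.mem_insert.1 hT with rfl | hT
            · exact hS
            · exact hs1.1 T hT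
          · intro T hT U hU hne
            have hsymm : ∀ A B : Fin k × Fin k → ℝ,
                hs (aS c₀ A - aS c₀ B) = hs (aS c₀ B - aS c₀ A) := by
              intro A B
              have e : hs (aS c₀ A - aS c₀ B) ^ 2 = hs (aS c₀ B - aS c₀ A) ^ 2 := by
                rw [hs_aS_sub hk c₀ hc0, hs_aS_sub hk c₀ hc0]
                congr 1
                exact Finset.sum_congr rfl fun p _ => by ring
              exact (pow_left_inj₀ (Real.sqrt_nonneg _) (Real.sqrt_nonneg _) two_ne_zero).1 e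
            rcases Finset.mem_insert.1 hT with rfl | hT2
            · rcases Finset.mem_insert.1 hU with rfl | hU
              · exact absurd rfl hne
              · exact hfar U hU
            · rcases Finset.mem_insert.1 hU with rfl | hU
              · rw [hsymm]; exact hfar T (by assumption)
              · exact hs1.2 T (by assumption) U hU hne
          · rw [Finset.card_insert_of_notMem hns]
            omega
    obtain ⟨s, hs1, hs2⟩ := hgrow ⌈(c₀ / KB / δ) ^ (k ^ 2)⌉₊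
    have h1 := hcon s hs1
    have h2 : (c₀ / KB / δ) ^ (k ^ 2) ≤ (⌈(c₀ / KB / δ) ^ (k ^ 2)⌉₊ : ℝ) := Nat.le_ceil _
    have h3 : (⌈(c₀ / KB / δ) ^ (k ^ 2)⌉₊ : ℝ) ≤ s.card := by exact_mod_cast hs2
    linarith
  obtain ⟨s, hs1, hs2⟩ := hex
  have hne : ∀ S ∈ s, ∀ T ∈ s, S ≠ T → aS c₀ S ≠ aS c₀ T := by
    intro S hS T hT hST he
    have := hs1.2 S hS T hT hST
    rw [he] at this
    have h0 : hs (aS c₀ T - aS c₀ T) ^ 2 = 0 := by
      rw [hs_aS_sub hk c₀ hc0]; simp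
    have h1 : hs (aS c₀ T - aS c₀ T) = 0 := pow_eq_zero_iff (two_ne_zero) |>.1 h0
    linarith
  refine ⟨s.image (aS c₀), ?_, ?_, ?_⟩
  · intro a ha
    obtain ⟨S, hS, rfl⟩ := Finset.mem_image.1 ha
    refine ⟨aS_herm c₀ S, ?_⟩
    unfold aS
    rw [norm_smul, Complex.norm_real, Real.norm_eq_abs, abs_of_pos (by positivity)]
    have h1 := (hs1.1 S hS).2.le
    calc c₀ / √k * ‖herm S‖ ≤ c₀ / √k * (C * √k) := by gcongr
      _ = 1 / 4 := by
        rw [hc₀]
        have : √(k : ℝ) ≠ 0 := (Real.sqrt_pos.2 hk').ne'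
        field_simp
  · intro a ha b hb hab
    obtain ⟨S, hS, rfl⟩ := Finset.mem_image.1 ha
    obtain ⟨T, hT, rfl⟩ := Finset.mem_image.1 hb
    exact hs1.2 S hS T hT fun h => hab (h ▸ rfl)
  · rw [Finset.card_image_of_injOn]
    · exact hs2
    · intro S hS T hT he
      by_contra hST
      exact hne S hS T hT hST he

end Pool.Agent.H667R2.FG.TPACK

namespace Pool.Agent.H667R2.FG

alias pack_herm := TPACK.pack_herm

end Pool.Agent.H667R2.FG
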