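import Mathlib
import Pool.Agent.H667R2.FG.Defs
import Pool.Agent.H667R2.FG.OpDefs
import Pool.Agent.H667R2.FG.Herm
import Pool.Agent.H667R2.FG.THS
import Pool.Agent.H667R2.FG.TPACK
import Pool.Agent.H667R2.FG.TEXPL

namespace Pool.Agent.H667R2.FG.TBALL

open Pool.Agent.H667R2.FG
open MeasureTheory Matrix Filter
open scoped Matrix.Norms.L2Operator ComplexConjugate ENNReal

/-- the exponential of `i a` as an element of `U(k)` -/
noncomputable def uexp {k : ℕ} (a : Mat k) (ha : a.IsHermitian) : UU k :=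
  selfAdjoint.expUnitary ⟨a, selfAdjoint.mem_iff.2 ha⟩

theorem uexp_coe {k : ℕ} (a : Mat k) (ha : a.IsHermitian) :
    ((uexp a ha : UU k) : Mat k) = NormedSpace.exp (Complex.I • a) := rfl

/-- balls around a unitary have the same measure -/
theorem ball_meas {k : ℕ} (v : UU k) (r : ℝ) :
    haarU k {u : UU k | hs ((u : Mat k) - (v : Mat k)) ≤ r} =
      haarU k {u : UU k | hs ((u : Mat k) - 1) ≤ r} := by
  rw [← measure_preimage_mul (haarU k) v⁻¹ {u : UU k | hs ((u : Mat k) - 1) ≤ r}]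
  congr 1
  ext u
  simp only [Set.mem_ofPred_eq, Set.mem_preimage]
  have h1 : (u : Mat k) - (v : Mat k) = (v : Mat k) * (((v⁻¹ * u : UU k) : Mat k) - 1) := by
    have h2 : (v : Mat k) * ((v⁻¹ * u : UU k) : Mat k) = (u : Mat k) := by
      have h3 : v * (v⁻¹ * u) = u := mul_inv_cancel_left v u
      have h4 := congrArg (fun z : UU k => (z : Mat k)) h3
      exact h4
    rw [mul_sub, h2, mul_one]
  rw [h1, hs_unitary_mul]

theorem ball_closed {k : ℕ} (v : Mat k) (r : ℝ) :
    IsClosed {u : UU k | hs ((u : Mat k) - v) ≤ r} := by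
  have h1 : Continuous (fun u : UU k => hs ((u : Mat k) - v)) :=
    continuous_hs.comp (continuous_subtype_val.sub continuous_const)
  exact isClosed_le h1 continuous_const

theorem small_ball : ∃ C : ℝ, 1 ≤ C ∧ ∀ k : ℕ, 0 < k → ∀ (T : Mat k) (δ : ℝ), 0 < δ →
    haarU k {u | hs ((u : Mat k) - T) ≤ δ} ≤ ENNReal.ofReal ((C * δ) ^ (k ^ 2)) := by
  obtain ⟨c, hc, hpack⟩ := pack_herm
  refine ⟨max 10 (10 / c), (by norm_num : (1 : ℝ) ≤ 10).trans (le_max_left _ _), ?_⟩
  intro k hk T δ hδ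
  set C := max 10 (10 / c) with hC
  have hC0 : 0 < C := lt_of_lt_of_le (by norm_num) (le_max_left _ _)
  rcases le_or_gt 1 (C * δ) with h1 | h1
  · calc haarU k {u | hs ((u : Mat k) - T) ≤ δ} ≤ 1 := prob_le_one
      _ = ENNReal.ofReal 1 := by rw [ENNReal.ofReal_one]
      _ ≤ _ := ENNReal.ofReal_le_ofReal (one_le_pow₀ h1)
  rcases Set.eq_empty_or_nonempty {u : UU k | hs ((u : Mat k) - T) ≤ δ} with he | ⟨u₀, hu₀⟩
  · rw [he, measure_empty]
    positivity
  have h10 : 10 * δ ≤ 1 := by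
    have : 10 * δ ≤ C * δ := mul_le_mul_of_nonneg_right (le_max_left _ _) hδ.le
    linarith
  obtain ⟨s, hs1, hs2, hs3⟩ := hpack k hk (10 * δ) (by positivity) h10
  have hsub : {u : UU k | hs ((u : Mat k) - T) ≤ δ} ⊆
      {u : UU k | hs ((u : Mat k) - (u₀ : Mat k)) ≤ 2 * δ} := by
    intro u hu
    have h2 : (u : Mat k) - (u₀ : Mat k) = ((u : Mat k) - T) - ((u₀ : Mat k) - T) := by abel
    have h3 := hs_sub_le ((u : Mat k) - T) ((u₀ : Mat k) - T)
    simp only [Set.mem_ofPred_eq] at hu hu₀ ⊢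
    rw [h2]
    linarith
  refine (measure_mono hsub).trans ?_
  rw [ball_meas]
  set β := haarU k {u : UU k | hs ((u : Mat k) - 1) ≤ 2 * δ} with hβ
  -- the disjoint balls
  classical
  set f : Mat k → Set (UU k) := fun a => if ha : a.IsHermitian then
    {u : UU k | hs ((u : Mat k) - ((uexp a ha : UU k) : Mat k)) ≤ 2 * δ} else ∅ with hf
  have hf' : ∀ a (ha : a.IsHermitian), f a =
      {u : UU k | hs ((u : Mat k) - ((uexp a ha : UU k) : Mat k)) ≤ 2 * δ} := by
    intro a ha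
    rw [hf]
    simp only
    rw [dif_pos ha]
  have hmeas : ∀ a ∈ s, MeasurableSet (f a) := by
    intro a ha
    rw [hf' a (hs1 a ha).1]
    exact (ball_closed _ _).measurableSet
  have hdisj : Set.PairwiseDisjoint (↑s : Set (Mat k)) f := by
    intro a ha b hb hab
    rw [Function.onFun, Set.disjoint_left]
    intro u hua hub
    rw [hf' a (hs1 a ha).1, Set.mem_ofPred_eq] at hua
    rw [hf' b (hs1 b hb).1, Set.mem_ofPred_eq] at hub
    rw [uexp_coe] at hua hub
    have h2 := hs2 a ha b hb hab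
    have h3 := exp_lower a b (hs1 a ha).1 (hs1 b hb).1 (hs1 a ha).2 (hs1 b hb).2
    have h4 : NormedSpace.exp (Complex.I • a) - NormedSpace.exp (Complex.I • b) =
        ((u : Mat k) - NormedSpace.exp (Complex.I • b)) -
          ((u : Mat k) - NormedSpace.exp (Complex.I • a)) := by abel
    have h5 := hs_sub_le ((u : Mat k) - NormedSpace.exp (Complex.I • b))
      ((u : Mat k) - NormedSpace.exp (Complex.I • a))
    rw [← h4] at h5
    linarith
  have hsum : (s.card : ℝ≥0∞) * β ≤ 1 := by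
    calc (s.card : ℝ≥0∞) * β = ∑ a ∈ s, haarU k (f a) := by
          rw [Finset.sum_congr rfl fun a ha => by rw [hf' a (hs1 a ha).1, ball_meas],
            Finset.sum_const, nsmul_eq_mul]
      _ = haarU k (⋃ a ∈ s, f a) := (measure_biUnion_finset hdisj hmeas).symm
      _ ≤ 1 := prob_le_one
  have hβ1 : β ≤ 1 := prob_le_one
  have hβt : β ≠ ⊤ := ne_top_of_le_ne_top ENNReal.one_ne_top hβ1
  have hsum' : (s.card : ℝ) * β.toReal ≤ 1 := by
    have := ENNReal.toReal_mono ENNReal.one_ne_top hsum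
    rwa [ENNReal.toReal_mul, ENNReal.toReal_natCast, ENNReal.toReal_one] at this
  rw [← ENNReal.ofReal_toReal hβt]
  apply ENNReal.ofReal_le_ofReal
  have hq : 0 < (c / (10 * δ)) ^ (k ^ 2) := by positivity
  have h6 : (c / (10 * δ)) ^ (k ^ 2) * β.toReal ≤ 1 :=
    (mul_le_mul_of_nonneg_right hs3 ENNReal.toReal_nonneg).trans hsum'
  have h7 : β.toReal ≤ (10 * δ / c) ^ (k ^ 2) := by
    have h8 : β.toReal ≤ 1 / (c / (10 * δ)) ^ (k ^ 2) := by
      rw [le_div_iff₀ hq, mul_comm]
      exact h6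
    refine h8.trans (le_of_eq ?_)
    rw [one_div, ← inv_pow, inv_div]
  refine h7.trans ?_
  apply pow_le_pow_left₀ (by positivity)
  calc 10 * δ / c = 10 / c * δ := by ring
    _ ≤ C * δ := mul_le_mul_of_nonneg_right (le_max_right _ _) hδ.le

end Pool.Agent.H667R2.FG.TBALL

namespace Pool.Agent.H667R2.FG

alias small_ball := TBALL.small_ball

end Pool.Agent.H667R2.FG
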