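import Mathlib
import Pool.Agent.H667R2.FG.Defs
import Pool.Agent.H667R2.FG.OpDefs
import Pool.Agent.H667R2.FG.Herm
import Pool.Agent.H667R2.FG.THS
import Pool.Agent.H667R2.FG.TEXPL

/-! Task NET: packing bound, nets of balls, net of the unitary group. -/

namespace Pool.Agent.H667R2.FG.TNET

open MeasureTheory Matrix Filter Metric Set Function Module
open scoped Matrix.Norms.L2Operator ComplexConjugate ENNReal

theorem packing {E : Type*} [NormedAddCommGroup E] [NormedSpace ℝ E] [FiniteDimensional ℝ E]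
    (s : Finset E) (R δ : ℝ) (hR : 0 < R) (hδ : 0 < δ) (h1 : ∀ c ∈ s, ‖c‖ ≤ R)
    (h2 : ∀ c ∈ s, ∀ c' ∈ s, c ≠ c' → δ ≤ ‖c - c'‖) :
    (s.card : ℝ) ≤ (1 + 2 * R / δ) ^ (Module.finrank ℝ E) := by
  borelize E
  let μ : Measure E := Measure.addHaar
  have hδ2 : 0 < δ / 2 := by positivity
  have ρpos : 0 < R + δ / 2 := by positivity
  set A := ⋃ c ∈ s, ball (c : E) (δ / 2) with hA
  have D : Set.Pairwise (s : Set E) (Disjoint on fun c => ball (c : E) (δ / 2)) := by
    rintro c hc d hd hcd
    apply ball_disjoint_ball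
    rw [dist_eq_norm]
    have := h2 c hc d hd hcd
    linarith
  have A_subset : A ⊆ ball (0 : E) (R + δ / 2) := by
    refine iUnion₂_subset fun x hx => ?_
    apply ball_subset_ball'
    rw [dist_zero_right]
    have := h1 x hx
    linarith
  have I :
    (s.card : ℝ≥0∞) * ENNReal.ofReal ((δ / 2) ^ finrank ℝ E) * μ (ball 0 1) ≤
      ENNReal.ofReal ((R + δ / 2) ^ finrank ℝ E) * μ (ball 0 1) :=
    calc
      (s.card : ℝ≥0∞) * ENNReal.ofReal ((δ / 2) ^ finrank ℝ E) * μ (ball 0 1) = μ A := by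
        rw [hA, measure_biUnion_finset D fun c _ => measurableSet_ball]
        simp only [μ.addHaar_ball_of_pos _ hδ2]
        simp only [Finset.sum_const, nsmul_eq_mul, mul_assoc]
      _ ≤ μ (ball (0 : E) (R + δ / 2)) := measure_mono A_subset
      _ = ENNReal.ofReal ((R + δ / 2) ^ finrank ℝ E) * μ (ball 0 1) := by
        simp only [μ.addHaar_ball_of_pos _ ρpos]
  have J : (s.card : ℝ≥0∞) * ENNReal.ofReal ((δ / 2) ^ finrank ℝ E) ≤
      ENNReal.ofReal ((R + δ / 2) ^ finrank ℝ E) :=
    (ENNReal.mul_le_mul_iff_left (measure_ball_pos _ _ zero_lt_one).ne' measure_ball_lt_top.ne).1 I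
  have K : (s.card : ℝ) * (δ / 2) ^ finrank ℝ E ≤ (R + δ / 2) ^ finrank ℝ E := by
    have := ENNReal.toReal_le_of_le_ofReal (pow_nonneg ρpos.le _) J
    rwa [ENNReal.toReal_mul, ENNReal.toReal_natCast,
      ENNReal.toReal_ofReal (pow_nonneg hδ2.le _)] at this
  have h3 : (1 + 2 * R / δ) ^ finrank ℝ E * (δ / 2) ^ finrank ℝ E =
      (R + δ / 2) ^ finrank ℝ E := by
    rw [← mul_pow]
    congr 1
    field_simp
    ring
  rw [← h3] at K
  exact le_of_mul_le_mul_right K (pow_pos hδ2 _)

/-- A net of a ball of a finite dimensional normed space. -/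
theorem net_ball {E : Type*} [NormedAddCommGroup E] [NormedSpace ℝ E] [FiniteDimensional ℝ E]
    (R δ : ℝ) (hR : 0 < R) (hδ : 0 < δ) :
    ∃ s : Finset E, (s.card : ℝ) ≤ (1 + 2 * R / δ) ^ (Module.finrank ℝ E) ∧
      ∀ x : E, ‖x‖ ≤ R → ∃ c ∈ s, ‖x - c‖ ≤ δ := by
  classical
  set P : ℕ → Prop := fun n => ∃ s : Finset E, s.card = n ∧ (∀ c ∈ s, ‖c‖ ≤ R) ∧
    (∀ c ∈ s, ∀ c' ∈ s, c ≠ c' → δ ≤ ‖c - c'‖) with hP
  obtain ⟨K, hK⟩ := exists_nat_ge ((1 + 2 * R / δ) ^ (Module.finrank ℝ E))
  have hbd : ∀ n, P n → n ≤ K := by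
    rintro n ⟨s, rfl, h1, h2⟩
    exact_mod_cast (packing s R δ hR hδ h1 h2).trans hK
  have h0 : P 0 := ⟨∅, by simp⟩
  obtain ⟨s, hs, h1, h2⟩ := Nat.findGreatest_spec (P := P) (Nat.zero_le K) h0
  refine ⟨s, packing s R δ hR hδ h1 h2, ?_⟩
  intro x hx
  by_contra hcon
  push Not at hcon
  have hxs : x ∉ s := by
    intro h
    have := hcon x h
    rw [sub_self, norm_zero] at this
    linarith
  have h3 : P (s.card + 1) := by
    refine ⟨insert x s, Finset.card_insert_of_notMem hxs, ?_, ?_⟩
    · intro c hc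
      rcases Finset.mem_insert.1 hc with rfl | hc
      · exact hx
      · exact h1 c hc
    · intro c hc c' hc' hne
      rcases Finset.mem_insert.1 hc with rfl | hcs
      · rcases Finset.mem_insert.1 hc' with rfl | hcs'
        · exact absurd rfl hne
        · exact (hcon c' hcs').le
      · rcases Finset.mem_insert.1 hc' with rfl | hcs'
        · rw [norm_sub_rev]
          exact (hcon c hcs).le
        · exact h2 c hcs c' hcs' hne
  have h4 := Nat.le_findGreatest (hbd _ h3) h3
  omega

/-- Hermitian matrices as a real vector space. -/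
noncomputable abbrev He (k : ℕ) : Submodule ℝ (Mat k) := selfAdjoint.submodule ℝ (Mat k)

theorem finrank_He (k : ℕ) : Module.finrank ℝ (He k) ≤ k ^ 2 := by
  let f : (Fin k × Fin k → ℝ) →ₗ[ℝ] He k :=
    { toFun := fun S => ⟨herm S, by
        change star (herm S) = herm S
        ext i j
        simp only [Matrix.star_apply, herm, RCLike.star_def, map_add, map_mul, Complex.conj_ofReal,
          Complex.conj_I]
        push_cast
        ring⟩
      map_add' := by
        intro S T
        apply Subtype.ext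
        ext i j
        change herm (S + T) i j = herm S i j + herm T i j
        simp only [herm, Pi.add_apply]
        push_cast
        ring
      map_smul' := by
        intro c S
        apply Subtype.ext
        ext i j
        change herm (c • S) i j = c • herm S i j
        simp only [herm, Pi.smul_apply, smul_eq_mul, Complex.real_smul]
        push_cast
        ring }
  have hf : Function.Surjective f := by
    rintro ⟨a, ha⟩
    have ha' : ∀ i j, conj (a j i) = a i j := by
      intro i j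
      have : star a = a := ha
      exact congrFun (congrFun this i) j
    refine ⟨fun p => (a p.1 p.2).re + (a p.1 p.2).im, ?_⟩
    apply Subtype.ext
    ext i j
    have h1 := ha' i j
    have h2 : (a i j).re = (a j i).re := by rw [← h1, Complex.conj_re]
    have h3 : (a i j).im = - (a j i).im := by rw [← h1, Complex.conj_im]
    change herm (fun p : Fin k × Fin k => (a p.1 p.2).re + (a p.1 p.2).im) i j = a i j
    apply Complex.ext
    · simp [herm]
      linarith
    · simp [herm]
      linarith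
  have := LinearMap.finrank_le_finrank_of_surjective hf
  rwa [Module.finrank_fintype_fun_eq_card, Fintype.card_prod, Fintype.card_fin, ← pow_two] at this

theorem norm_phase_sub_le (a b : ℝ) :
    ‖Complex.exp (Complex.I * a) - Complex.exp (Complex.I * b)‖ ≤ |a - b| := by
  have h1 : Complex.exp (Complex.I * a) - Complex.exp (Complex.I * b) =
      Complex.exp (Complex.I * b) * (Complex.exp (Complex.I * ((a - b : ℝ) : ℂ)) - 1) := by
    rw [mul_sub, ← Complex.exp_add, mul_one]
    congr 2
    push_cast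
    ring
  rw [h1, norm_mul, mul_comm Complex.I (b : ℂ), Complex.norm_exp_ofReal_mul_I, one_mul]
  exact Real.norm_exp_I_mul_ofReal_sub_one_le

/-- the unitary `exp (i θ) exp (i h)` -/
noncomputable def uexp {k : ℕ} (θ : ℝ) (h : He k) : UU k :=
  ⟨Complex.exp (Complex.I * θ) • NormedSpace.exp (Complex.I • (h : Mat k)), by
    have h1 : (NormedSpace.exp (Complex.I • (h : Mat k))) ∈ unitary (Mat k) :=
      (selfAdjoint.expUnitary (⟨(h : Mat k), h.2⟩ : selfAdjoint (Mat k))).2
    have h2 : Complex.exp (Complex.I * θ) ∈ unitary ℂ := by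
      rw [Unitary.mem_iff_self_mul_star]
      rw [RCLike.star_def, Complex.mul_conj, Complex.normSq_eq_norm_sq,
        mul_comm Complex.I (θ : ℂ), Complex.norm_exp_ofReal_mul_I]
      simp
    rw [Matrix.mem_unitaryGroup_iff]
    have h3 := (Unitary.mem_iff.1 h1).2
    have h4 := (Unitary.mem_iff.1 h2).2
    rw [star_smul, smul_mul_smul_comm, h3, h4, one_smul]⟩

theorem net_unitary : ∃ C : ℝ, 1 ≤ C ∧ ∀ k : ℕ, 0 < k → ∀ ε : ℝ, 0 < ε → ε ≤ 1 →
    ∃ T : Finset (UU k), (T.card : ℝ) ≤ (C / ε) ^ (k ^ 2 + 1) ∧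
      ∀ u : UU k, ∃ v ∈ T, ‖(u : Mat k) - (v : Mat k)‖ ≤ ε := by
  classical
  have hpi := Real.pi_pos
  refine ⟨1 + 4 * Real.pi, by linarith, ?_⟩
  intro k _ ε hε hε1
  obtain ⟨s, hs, hs'⟩ := net_ball (E := ℝ) Real.pi (ε / 2) hpi (by positivity)
  obtain ⟨t, ht, ht'⟩ := net_ball (E := He k) Real.pi (ε / 2) hpi (by positivity)
  have hC1 : 1 + 2 * Real.pi / (ε / 2) ≤ (1 + 4 * Real.pi) / ε := by
    rw [add_div]
    have h1 : 1 ≤ 1 / ε := by rw [le_div_iff₀ hε]; linarith
    have h2 : 2 * Real.pi / (ε / 2) = 4 * Real.pi / ε := by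
      field_simp
      ring
    rw [h2]
    linarith
  have hC0 : 1 ≤ 1 + 2 * Real.pi / (ε / 2) := by
    have : 0 ≤ 2 * Real.pi / (ε / 2) := by positivity
    linarith
  refine ⟨(s ×ˢ t).image fun p => uexp p.1 p.2, ?_, ?_⟩
  · have h1 : (((s ×ˢ t).image fun p => uexp p.1 p.2).card : ℝ) ≤ (s.card : ℝ) * t.card := by
      have : ((s ×ˢ t).image fun p => uexp p.1 p.2).card ≤ s.card * t.card := by
        rw [← Finset.card_product]
        exact Finset.card_image_le
      exact_mod_cast this
    refine h1.trans ?_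
    have h2 : (s.card : ℝ) ≤ (1 + 4 * Real.pi) / ε := by
      refine hs.trans ?_
      rw [Module.finrank_self, pow_one]
      exact hC1
    have h3 : (t.card : ℝ) ≤ ((1 + 4 * Real.pi) / ε) ^ (k ^ 2) := by
      refine ht.trans ?_
      refine (pow_le_pow_right₀ hC0 (finrank_He k)).trans ?_
      exact pow_le_pow_left₀ (by linarith) hC1 _
    rw [pow_succ, mul_comm (((1 + 4 * Real.pi) / ε) ^ (k ^ 2))]
    exact mul_le_mul h2 h3 (Nat.cast_nonneg _) (by positivity)
  · intro u
    obtain ⟨c, hc, h, hh, hhn, hu⟩ := unitary_exp u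
    -- the phase
    have hc' : c = Complex.exp (Complex.I * (Complex.arg c : ℂ)) := by
      have := Complex.norm_mul_exp_arg_mul_I c
      rw [hc, Complex.ofReal_one, one_mul] at this
      rw [mul_comm]
      exact this.symm
    obtain ⟨θ, hθ, hθ'⟩ := hs' (Complex.arg c) (by
      rw [Real.norm_eq_abs]
      exact Complex.abs_arg_le_pi c)
    obtain ⟨g, hg, hg'⟩ := ht' ⟨h, hh⟩ hhn
    refine ⟨uexp θ g, Finset.mem_image.2 ⟨(θ, g), Finset.mem_product.2 ⟨hθ, hg⟩, rfl⟩, ?_⟩
    have e1 : (u : Mat k) - (uexp θ g : UU k) =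
        (c - Complex.exp (Complex.I * θ)) • NormedSpace.exp (Complex.I • h) +
        Complex.exp (Complex.I * θ) •
          (NormedSpace.exp (Complex.I • h) - NormedSpace.exp (Complex.I • (g : Mat k))) := by
      rw [hu]
      change _ - Complex.exp (Complex.I * θ) • NormedSpace.exp (Complex.I • (g : Mat k)) = _
      rw [sub_smul, smul_sub]
      abel
    have h4 : ‖NormedSpace.exp (Complex.I • h)‖ ≤ 1 :=
      norm_unitary_le (selfAdjoint.expUnitary (⟨h, hh⟩ : selfAdjoint (Mat k)))
    have h5 : ‖c - Complex.exp (Complex.I * θ)‖ ≤ ε / 2 := by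
      conv_lhs => rw [hc']
      refine (norm_phase_sub_le _ _).trans ?_
      rwa [Real.norm_eq_abs] at hθ'
    have h6 : ‖Complex.exp (Complex.I * θ)‖ = 1 := by
      rw [mul_comm Complex.I (θ : ℂ), Complex.norm_exp_ofReal_mul_I]
    have h7 := exp_lip h (g : Mat k) hh g.2
    have h8 : ‖h - (g : Mat k)‖ ≤ ε / 2 := hg'
    rw [e1]
    refine (norm_add_le _ _).trans ?_
    rw [norm_smul, norm_smul, h6, one_mul]
    have h9 : ‖c - Complex.exp (Complex.I * θ)‖ * ‖NormedSpace.exp (Complex.I • h)‖ ≤ ε / 2 * 1 :=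
      mul_le_mul h5 h4 (norm_nonneg _) (by positivity)
    linarith [h7.trans h8]

end Pool.Agent.H667R2.FG.TNET

namespace Pool.Agent.H667R2.FG

alias packing := TNET.packing
alias net_unitary := TNET.net_unitary

end Pool.Agent.H667R2.FG
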