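import Mathlib
import Pool.Agent.H667R2.FG.Defs
import Pool.Agent.H667R2.FG.OpDefs
import Pool.Agent.H667R2.FG.Herm
import Pool.Agent.H667R2.FG.THS
import Pool.Agent.H667R2.FG.TBALL
import Pool.Agent.H667R2.FG.TNET

namespace Pool.Agent.H667R2.FG.TORB

open MeasureTheory Matrix Filter
open scoped Matrix.Norms.L2Operator ComplexConjugate ENNReal

theorem orb_inv_coe {k : ℕ} (V : UU k) : ((V⁻¹ : UU k) : Mat k) = star (V : Mat k) := rfl

theorem orb_conj_diff {k : ℕ} (V V' : UU k) (T : Mat k) (ρ₀ : ℝ)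
    (h : ‖(V : Mat k) - (V' : Mat k)‖ ≤ ρ₀) :
    hs ((V : Mat k) * T * ((V⁻¹ : UU k) : Mat k) - (V' : Mat k) * T * ((V'⁻¹ : UU k) : Mat k)) ≤
      2 * ρ₀ * hs T := by
  have e : (V : Mat k) * T * ((V⁻¹ : UU k) : Mat k) - (V' : Mat k) * T * ((V'⁻¹ : UU k) : Mat k) =
      (((V : Mat k) - (V' : Mat k)) * T) * ((V⁻¹ : UU k) : Mat k) +
      (V' : Mat k) * (T * (((V⁻¹ : UU k) : Mat k) - ((V'⁻¹ : UU k) : Mat k))) := by
    noncomm_ring
  have h1 : hs ((((V : Mat k) - (V' : Mat k)) * T) * ((V⁻¹ : UU k) : Mat k)) ≤ ρ₀ * hs T := by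
    rw [hs_mul_unitary]
    exact (hs_mul_le _ _).trans (mul_le_mul_of_nonneg_right h (hs_nonneg T))
  have h2 : ‖((V⁻¹ : UU k) : Mat k) - ((V'⁻¹ : UU k) : Mat k)‖ ≤ ρ₀ := by
    rw [orb_inv_coe, orb_inv_coe, ← star_sub, norm_star]
    exact h
  have h3 : hs ((V' : Mat k) * (T * (((V⁻¹ : UU k) : Mat k) - ((V'⁻¹ : UU k) : Mat k)))) ≤
      hs T * ρ₀ := by
    rw [hs_unitary_mul]
    exact (hs_mul_le' _ _).trans (mul_le_mul_of_nonneg_left h2 (hs_nonneg T))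
  rw [e]
  refine (hs_add_le _ _).trans ?_
  linarith

theorem orbit_ball : ∃ C : ℝ, 1 ≤ C ∧ ∀ k : ℕ, 0 < k → ∀ (m : ℕ), 0 < m → ∀ (T : Fin m → Mat k)
    (A : Fin m → ℝ) (ρ₀ : ℝ), 0 < ρ₀ → ρ₀ ≤ 1 → (∀ j, ρ₀ ≤ A j) →
    haarP k (Fin m) {u | ∃ V : UU k, ∀ j, hs ((u j : Mat k) - (V : Mat k) * T j * ((V⁻¹ : UU k) : Mat k)) ≤ A j}
      ≤ ENNReal.ofReal ((C / ρ₀) ^ (k ^ 2 + 1) * ∏ j, (C * A j) ^ (k ^ 2)) := by
  obtain ⟨C₁, hC₁, hnet⟩ := net_unitary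
  obtain ⟨C₂, hC₂, hball⟩ := small_ball
  refine ⟨max C₁ (5 * C₂), le_max_of_le_left hC₁, ?_⟩
  intro k hk m hm T A ρ₀ hρ hρ1 hA
  set C := max C₁ (5 * C₂) with hC
  have hC1 : C₁ ≤ C := le_max_left _ _
  have hC2 : 5 * C₂ ≤ C := le_max_right _ _
  have hC0 : 0 < C := by linarith
  have hA0 : ∀ j, 0 < A j := fun j => lt_of_lt_of_le hρ (hA j)
  obtain ⟨N, hN, hN2⟩ := hnet k hk ρ₀ hρ hρ1
  -- the covering
  have hcov : {u : Fin m → UU k | ∃ V : UU k, ∀ j,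
      hs ((u j : Mat k) - (V : Mat k) * T j * ((V⁻¹ : UU k) : Mat k)) ≤ A j} ⊆
      ⋃ V' ∈ N, Set.pi Set.univ (fun j : Fin m =>
        {w : UU k | hs ((w : Mat k) - (V' : Mat k) * T j * ((V'⁻¹ : UU k) : Mat k)) ≤ 5 * A j}) := by
    rintro u ⟨V, hV⟩
    obtain ⟨V', hV'N, hV'⟩ := hN2 V
    rw [Set.mem_iUnion₂]
    refine ⟨V', hV'N, ?_⟩
    intro j _
    have hT : hs (T j) ≤ 1 + A j := by
      have e1 : hs (T j) = hs ((V : Mat k) * T j * ((V⁻¹ : UU k) : Mat k)) := by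
        rw [hs_mul_unitary, hs_unitary_mul]
      have e2 : (V : Mat k) * T j * ((V⁻¹ : UU k) : Mat k) = (u j : Mat k) -
          ((u j : Mat k) - (V : Mat k) * T j * ((V⁻¹ : UU k) : Mat k)) := by abel
      rw [e1, e2]
      refine (hs_sub_le _ _).trans ?_
      rw [hs_unitary hk]
      linarith [hV j]
    have h1 := orb_conj_diff V V' (T j) ρ₀ hV'
    have h2 : 2 * ρ₀ * hs (T j) ≤ 4 * A j := by
      have h3 : 2 * ρ₀ * hs (T j) ≤ 2 * ρ₀ * (1 + A j) :=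
        mul_le_mul_of_nonneg_left hT (by linarith)
      have h4 : ρ₀ * A j ≤ A j := by
        have := mul_le_mul_of_nonneg_right hρ1 (hA0 j).le
        linarith
      have h5 := hA j
      nlinarith
    have e3 : (u j : Mat k) - (V' : Mat k) * T j * ((V'⁻¹ : UU k) : Mat k) =
        ((u j : Mat k) - (V : Mat k) * T j * ((V⁻¹ : UU k) : Mat k)) +
        ((V : Mat k) * T j * ((V⁻¹ : UU k) : Mat k) -
          (V' : Mat k) * T j * ((V'⁻¹ : UU k) : Mat k)) := by abel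
    show hs ((u j : Mat k) - (V' : Mat k) * T j * ((V'⁻¹ : UU k) : Mat k)) ≤ 5 * A j
    rw [e3]
    refine (hs_add_le _ _).trans ?_
    linarith [hV j]
  have hpiece : ∀ V' : UU k, haarP k (Fin m) (Set.pi Set.univ (fun j : Fin m =>
        {w : UU k | hs ((w : Mat k) - (V' : Mat k) * T j * ((V'⁻¹ : UU k) : Mat k)) ≤ 5 * A j})) ≤
      ENNReal.ofReal (∏ j, (C * A j) ^ (k ^ 2)) := by
    intro V'
    rw [Measure.pi_pi, ENNReal.ofReal_prod_of_nonneg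
      (fun j _ => pow_nonneg (mul_nonneg hC0.le (hA0 j).le) _)]
    refine Finset.prod_le_prod' fun j _ => ?_
    refine (hball k hk _ (5 * A j) (by linarith [hA0 j])).trans ?_
    apply ENNReal.ofReal_le_ofReal
    have h6 : C₂ * (5 * A j) ≤ C * A j := by
      have := mul_le_mul_of_nonneg_right hC2 (hA0 j).le
      linarith
    exact pow_le_pow_left₀ (mul_nonneg (by linarith) (by linarith [hA0 j])) h6 _
  have hprod0 : 0 ≤ ∏ j, (C * A j) ^ (k ^ 2) :=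
    Finset.prod_nonneg fun j _ => pow_nonneg (mul_nonneg hC0.le (hA0 j).le) _
  calc haarP k (Fin m) _ ≤ haarP k (Fin m) (⋃ V' ∈ N, Set.pi Set.univ (fun j : Fin m =>
        {w : UU k | hs ((w : Mat k) - (V' : Mat k) * T j * ((V'⁻¹ : UU k) : Mat k)) ≤ 5 * A j})) :=
        measure_mono hcov
    _ ≤ ∑ V' ∈ N, haarP k (Fin m) (Set.pi Set.univ (fun j : Fin m =>
        {w : UU k | hs ((w : Mat k) - (V' : Mat k) * T j * ((V'⁻¹ : UU k) : Mat k)) ≤ 5 * A j})) :=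
        measure_biUnion_finset_le _ _
    _ ≤ ∑ V' ∈ N, ENNReal.ofReal (∏ j, (C * A j) ^ (k ^ 2)) :=
        Finset.sum_le_sum fun V' _ => hpiece V'
    _ = ENNReal.ofReal ((N.card : ℝ) * ∏ j, (C * A j) ^ (k ^ 2)) := by
        rw [Finset.sum_const, nsmul_eq_mul, ENNReal.ofReal_mul (Nat.cast_nonneg _),
          ENNReal.ofReal_natCast]
    _ ≤ ENNReal.ofReal ((C / ρ₀) ^ (k ^ 2 + 1) * ∏ j, (C * A j) ^ (k ^ 2)) := by
        apply ENNReal.ofReal_le_ofReal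
        apply mul_le_mul_of_nonneg_right _ hprod0
        refine hN.trans ?_
        apply pow_le_pow_left₀ (by positivity)
        exact div_le_div_of_nonneg_right hC1 hρ.le

end Pool.Agent.H667R2.FG.TORB

namespace Pool.Agent.H667R2.FG

alias orbit_ball := TORB.orbit_ball

end Pool.Agent.H667R2.FG
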