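import Mathlib
import Pool.Agent.H667R2.FG.Defs
import Pool.Agent.H667R2.FG.OpDefs
import Pool.Agent.H667R2.FG.Herm
import Pool.Agent.H667R2.FG.THS
import Pool.Agent.H667R2.FG.TNET

namespace Pool.Agent.H667R2.FG.TPHASE

open MeasureTheory Matrix Filter
open scoped Matrix.Norms.L2Operator ComplexConjugate ENNReal

/-- scalar multiple of a unitary by an element of the circle -/
noncomputable def circMul {k : ℕ} (ζ : Circle) (v : UU k) : UU k :=
  ⟨(ζ : ℂ) • (v : Mat k), by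
    have h1 : conj (ζ : ℂ) * (ζ : ℂ) = 1 := by
      rw [mul_comm, Complex.mul_conj, Complex.normSq_eq_norm_sq, Circle.norm_coe]
      simp
    have h2 : star (v : Mat k) * (v : Mat k) = 1 := Unitary.star_mul_self_of_mem v.2
    rw [Matrix.mem_unitaryGroup_iff']
    rw [star_smul, smul_mul_smul_comm, h2]
    have h3 : star (ζ : ℂ) * (ζ : ℂ) = 1 := h1
    rw [h3, one_smul]⟩

theorem circMul_coe {k : ℕ} (ζ : Circle) (v : UU k) :
    ((circMul ζ v : UU k) : Mat k) = (ζ : ℂ) • (v : Mat k) := rfl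

theorem inv_circMul {k : ℕ} (ζ : Circle) (p v : UU k) :
    ((p⁻¹ * circMul ζ v : UU k) : Mat k) = (ζ : ℂ) • ((p⁻¹ * v : UU k) : Mat k) := by
  rw [Submonoid.coe_mul, circMul_coe, Submonoid.coe_mul, mul_smul_comm]

/-- a finite `δ`-dense subset of the circle -/
theorem circ_net (δ : ℝ) (hδ : 0 < δ) : ∃ Z : Finset Circle, ∀ ζ : Circle, ∃ z ∈ Z, dist ζ z < δ := by
  have hc : IsCompact (Set.univ : Set Circle) := isCompact_univ
  obtain ⟨t, -, ht, hcov⟩ := hc.finite_cover_balls hδ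
  refine ⟨ht.toFinset, fun ζ => ?_⟩
  have := hcov (Set.mem_univ ζ)
  rw [Set.mem_iUnion₂] at this
  obtain ⟨z, hz, hz'⟩ := this
  exact ⟨z, by simpa using hz, by simpa using hz'⟩

theorem phase_aux (z : ℂ) (ε δ : ℝ) (hε : 0 < ε) (hε' : ε ≤ 1 / 10) (hz : ‖z - 1‖ ≤ ε)
    (hz1 : ‖z‖ ≤ 1) (ζ : ℂ) (hζ : ‖ζ - conj z / (‖z‖ : ℂ)‖ ≤ δ) :
    ‖ζ - 1‖ ≤ 23 / 10 * ε + δ ∧ |(ζ * z).im| ≤ δ := by
  have h1 : 1 - ε ≤ ‖z‖ := by
    have : ‖(1 : ℂ)‖ ≤ ‖z‖ + ‖z - 1‖ := by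
      have := norm_sub_le z (z - 1)
      simpa using this
    rw [norm_one] at this
    linarith
  have h0 : 0 < ‖z‖ := by linarith
  have hne : (‖z‖ : ℂ) ≠ 0 := by exact_mod_cast h0.ne'
  have h2 : ‖conj z / (‖z‖ : ℂ) - 1‖ ≤ 23 / 10 * ε := by
    have e1 : conj z / (‖z‖ : ℂ) - 1 = (conj z - (‖z‖ : ℂ)) / (‖z‖ : ℂ) := by
      field_simp
    rw [e1, norm_div]
    have e2 : ‖(‖z‖ : ℂ)‖ = ‖z‖ := by simp
    rw [e2, div_le_iff₀ h0]
    have e3 : conj z - (‖z‖ : ℂ) = conj (z - 1) + ((1 - ‖z‖ : ℝ) : ℂ) := by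
      push_cast
      rw [map_sub, map_one]; ring
    have e4 : ‖conj z - (‖z‖ : ℂ)‖ ≤ ε + ε := by
      rw [e3]
      refine (norm_add_le _ _).trans ?_
      rw [Complex.norm_conj, Complex.norm_real, Real.norm_eq_abs]
      have : |1 - ‖z‖| ≤ ε := by
        rw [abs_le]; constructor <;> linarith
      linarith
    nlinarith
  constructor
  · have : ζ - 1 = (ζ - conj z / (‖z‖ : ℂ)) + (conj z / (‖z‖ : ℂ) - 1) := by ring
    rw [this]
    refine (norm_add_le _ _).trans ?_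
    linarith
  · have e1 : (ζ * z).im = ((ζ - conj z / (‖z‖ : ℂ)) * z).im := by
      rw [sub_mul, Complex.sub_im]
      have : (conj z / (‖z‖ : ℂ) * z) = ((‖z‖ : ℝ) : ℂ) := by
        rw [div_mul_eq_mul_div, mul_comm, Complex.mul_conj, Complex.normSq_eq_norm_sq]
        push_cast
        field_simp
      rw [this, Complex.ofReal_im, sub_zero]
    rw [e1]
    refine (Complex.abs_im_le_norm _).trans ?_
    rw [norm_mul]
    have := mul_le_mul hζ hz1 (norm_nonneg _) ((norm_nonneg _).trans hζ)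
    linarith

theorem net_phase : ∃ C : ℝ, 1 ≤ C ∧ ∀ ε : ℝ, 0 < ε → ε ≤ 1 / 10 → ∀ β : ℝ, 0 < β →
    ∃ L : ℝ, 1 ≤ L ∧ ∀ k : ℕ, 0 < k →
    ∃ T : Finset (UU k), (T.card : ℝ) ≤ L * (C / ε) ^ (k ^ 2 + 1) ∧
      ∀ p : UU k, ∃ v ∈ T, ‖((p⁻¹ * v : UU k) : Mat k) - 1‖ ≤ 4 * ε ∧
        |(ntr ((p⁻¹ * v : UU k) : Mat k)).im| ≤ β := by
  classical
  obtain ⟨C, hC, hnet⟩ := net_unitary
  refine ⟨C, hC, fun ε hε hε' β hβ => ?_⟩
  have hδ : 0 < min β (ε / 10) := lt_min hβ (by linarith)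
  obtain ⟨Z, hZ⟩ := circ_net _ hδ
  refine ⟨(Z.card : ℝ) + 1, by have : (0:ℝ) ≤ Z.card := by positivity
                               linarith, fun k hk => ?_⟩
  obtain ⟨T, hT, hT'⟩ := hnet k hk ε hε (by linarith)
  have hCε : 0 ≤ C / ε := by positivity
  refine ⟨(Z ×ˢ T).image (fun q => circMul q.1 q.2), ?_, fun p => ?_⟩
  · have h1 : (((Z ×ˢ T).image (fun q => circMul q.1 q.2)).card : ℝ) ≤ (Z.card : ℝ) * T.card := by
      have := (Finset.card_image_le (s := Z ×ˢ T) (f := fun q => circMul q.1 q.2))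
      rw [Finset.card_product] at this
      exact_mod_cast this
    refine h1.trans ?_
    refine mul_le_mul (by linarith) hT (by positivity) (by positivity)
  · obtain ⟨v, hv, hpv⟩ := hT' p
    set r : UU k := p⁻¹ * v with hr
    have hr1 : ‖(r : Mat k) - 1‖ ≤ ε := by
      have e1 : (r : Mat k) - 1 = ((p⁻¹ : UU k) : Mat k) * ((v : Mat k) - (p : Mat k)) := by
        rw [mul_sub, ← Submonoid.coe_mul, ← Submonoid.coe_mul, inv_mul_cancel]
        simp [hr]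
      rw [e1]
      refine (norm_mul_le _ _).trans ?_
      have h2 := norm_unitary_le (p⁻¹ : UU k)
      have h3 : ‖(v : Mat k) - (p : Mat k)‖ ≤ ε := by rw [norm_sub_rev]; exact hpv
      have := mul_le_mul h2 h3 (norm_nonneg _) zero_le_one
      linarith
    have hz : ‖ntr (r : Mat k) - 1‖ ≤ ε := by
      have e1 : ntr (r : Mat k) - 1 = ntr ((r : Mat k) - 1) := by
        rw [ntr_sub, ntr_one hk]
      rw [e1]
      exact (norm_ntr_le _).trans hr1
    have hz1 : ‖ntr (r : Mat k)‖ ≤ 1 := (norm_ntr_le _).trans (norm_unitary_le r)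
    have h0 : 0 < ‖ntr (r : Mat k)‖ := by
      have : ‖(1 : ℂ)‖ ≤ ‖ntr (r : Mat k)‖ + ‖ntr (r : Mat k) - 1‖ := by
        have := norm_sub_le (ntr (r : Mat k)) (ntr (r : Mat k) - 1)
        simpa using this
      rw [norm_one] at this
      linarith
    have hcirc : ‖conj (ntr (r : Mat k)) / (‖ntr (r : Mat k)‖ : ℂ)‖ = 1 := by
      rw [norm_div, Complex.norm_conj]
      simp [h0.ne']
    let ζs : Circle := ⟨conj (ntr (r : Mat k)) / (‖ntr (r : Mat k)‖ : ℂ), by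
      rw [Submonoid.unitSphere, ]
      exact mem_sphere_zero_iff_norm.2 hcirc⟩
    obtain ⟨ζ, hζ, hd⟩ := hZ ζs
    have hζ' : ‖(ζ : ℂ) - conj (ntr (r : Mat k)) / (‖ntr (r : Mat k)‖ : ℂ)‖ ≤ min β (ε / 10) := by
      have : dist ζ ζs = ‖(ζ : ℂ) - (ζs : ℂ)‖ := by
        change dist (ζ : ℂ) (ζs : ℂ) = _
        exact dist_eq_norm _ _
      rw [dist_comm] at hd
      rw [this] at hd
      exact hd.le
    obtain ⟨a1, a2⟩ := phase_aux (ntr (r : Mat k)) ε _ hε hε' hz hz1 (ζ : ℂ) hζ'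
    refine ⟨circMul ζ v, Finset.mem_image.2 ⟨(ζ, v), Finset.mem_product.2 ⟨hζ, hv⟩, rfl⟩, ?_, ?_⟩
    · rw [inv_circMul]
      have e1 : (ζ : ℂ) • ((p⁻¹ * v : UU k) : Mat k) - 1
          = ((ζ : ℂ) - 1) • (r : Mat k) + ((r : Mat k) - 1) := by
        rw [sub_smul, one_smul, hr]; abel
      rw [e1]
      refine (norm_add_le _ _).trans ?_
      rw [norm_smul]
      have h2 := norm_unitary_le r
      have h3 : ‖(ζ : ℂ) - 1‖ * ‖(r : Mat k)‖ ≤ ‖(ζ : ℂ) - 1‖ * 1 :=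
        mul_le_mul_of_nonneg_left h2 (norm_nonneg _)
      have h4 := min_le_right β (ε / 10)
      linarith
    · rw [inv_circMul, ntr_smul]
      exact a2.trans (min_le_left _ _)

end Pool.Agent.H667R2.FG.TPHASE

namespace Pool.Agent.H667R2.FG

alias net_phase := TPHASE.net_phase

end Pool.Agent.H667R2.FG
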