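import Mathlib
import Pool.Agent.H667R2.FG.Defs
import Pool.Agent.H667R2.FG.OpDefs
import Pool.Agent.H667R2.FG.Herm
import Pool.Agent.H667R2.FG.THS

/-! Task PHI: bounds on the damping factor. -/

namespace Pool.Agent.H667R2.FG.TPHI

open MeasureTheory Matrix Filter
open scoped Matrix.Norms.L2Operator ComplexConjugate ENNReal

theorem phi_list_diff {α : Type} (f : α → ℂ) (β : ℝ) (hβ : 0 ≤ β) (hf : ∀ p, ‖f p‖ ≤ 1)
    (hd : ∀ p, |(f p).im| ≤ β) (h0 : ∀ p, 0 ≤ (f p).re) (l : List α) :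
    ‖(l.map f).prod - (((l.map fun p => (f p).re).prod : ℝ) : ℂ)‖ ≤ l.length * β := by
  have hre : ∀ p, (f p).re ≤ 1 := fun p => (Complex.re_le_norm _).trans (hf p)
  have hprod0 : ∀ l : List α, 0 ≤ (l.map fun p => (f p).re).prod := by
    intro l
    apply List.prod_nonneg
    intro a ha
    obtain ⟨p, _, rfl⟩ := List.mem_map.1 ha
    exact h0 p
  have hprod1 : ∀ l : List α, (l.map fun p => (f p).re).prod ≤ 1 := by
    intro l
    induction l with
    | nil => simp
    | cons a l ih =>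
      simp only [List.map_cons, List.prod_cons]
      exact mul_le_one₀ (hre a) (hprod0 l) ih
  induction l with
  | nil => simp
  | cons a l ih =>
    simp only [List.map_cons, List.prod_cons, Complex.ofReal_mul, List.length_cons]
    have e : f a * (l.map f).prod - (((f a).re : ℝ) : ℂ) * (((l.map fun p => (f p).re).prod : ℝ) : ℂ)
        = f a * ((l.map f).prod - (((l.map fun p => (f p).re).prod : ℝ) : ℂ))
          + (f a - (((f a).re : ℝ) : ℂ)) * (((l.map fun p => (f p).re).prod : ℝ) : ℂ) := by ring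
    rw [e]
    have h1 : ‖f a * ((l.map f).prod - (((l.map fun p => (f p).re).prod : ℝ) : ℂ))‖
        ≤ l.length * β := by
      rw [norm_mul]
      calc ‖f a‖ * ‖(l.map f).prod - (((l.map fun p => (f p).re).prod : ℝ) : ℂ)‖
          ≤ 1 * (l.length * β) := mul_le_mul (hf a) ih (norm_nonneg _) zero_le_one
        _ = _ := one_mul _
    have h2 : ‖(f a - (((f a).re : ℝ) : ℂ)) * (((l.map fun p => (f p).re).prod : ℝ) : ℂ)‖ ≤ β := by
      rw [norm_mul]
      have h3 : f a - (((f a).re : ℝ) : ℂ) = ((f a).im : ℂ) * Complex.I := by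
        apply Complex.ext <;> simp
      have h4 : ‖f a - (((f a).re : ℝ) : ℂ)‖ ≤ β := by
        rw [h3, norm_mul, Complex.norm_I, mul_one, Complex.norm_real, Real.norm_eq_abs]
        exact hd a
      have h5 : ‖(((l.map fun p => (f p).re).prod : ℝ) : ℂ)‖ ≤ 1 := by
        rw [Complex.norm_real, Real.norm_eq_abs, abs_of_nonneg (hprod0 l)]
        exact hprod1 l
      calc _ ≤ β * 1 := mul_le_mul h4 h5 (norm_nonneg _) hβ
        _ = β := mul_one _
    calc _ ≤ l.length * β + β := (norm_add_le _ _).trans (add_le_add h1 h2)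
      _ = ((l.length + 1 : ℕ) : ℝ) * β := by push_cast; ring

theorem re_ntr_ge {k : ℕ} (hk : 0 < k) (r : UU k) (ε : ℝ) (hε : 0 < ε)
    (h : ‖(r : Mat k) - 1‖ ≤ 4 * ε) : 1 - 8 * ε ^ 2 ≤ (ntr (r : Mat k)).re := by
  have h1 : hs ((r : Mat k) - 1) ^ 2 ≤ (4 * ε) ^ 2 := by
    apply pow_le_pow_left₀ (hs_nonneg _)
    exact (hs_le_norm _).trans h
  have h2 := hs_sq_tr ((r : Mat k) - 1)
  have h3 : ((r : Mat k) - 1)ᴴ * ((r : Mat k) - 1) = 1 - (r : Mat k)ᴴ - (r : Mat k) + 1 := by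
    have : (r : Mat k)ᴴ * (r : Mat k) = 1 := by
      rw [← Matrix.star_eq_conjTranspose]
      exact Matrix.UnitaryGroup.star_mul_self r
    rw [Matrix.conjTranspose_sub, Matrix.conjTranspose_one, sub_mul, mul_sub, mul_sub, this]
    simp
    abel
  rw [h3, ntr_add, ntr_sub, ntr_sub, ntr_one hk, ntr_conjTranspose] at h2
  have h4 : hs ((r : Mat k) - 1) ^ 2 = 2 - 2 * (ntr (r : Mat k)).re := by
    have := congrArg Complex.re h2
    rw [Complex.ofReal_re] at this
    rw [this]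
    simp
    ring
  rw [h4] at h1
  nlinarith

theorem norm_ntr_unitary_le {k : ℕ} (r : UU k) : ‖ntr (r : Mat k)‖ ≤ 1 :=
  (norm_ntr_le _).trans (norm_unitary_le r)

/-- the factor of a letter -/
noncomputable def fac {k d : ℕ} (r : Fin d → UU k) (p : Fin (d + 1) × Bool) : ℂ :=
  (Fin.cons 1 (fun i => if p.2 then ntr (r i : Mat k)
    else (starRingEnd ℂ) (ntr (r i : Mat k))) : Fin (d + 1) → ℂ) p.1

theorem norm_fac_le {k d : ℕ} (r : Fin d → UU k) (p : Fin (d + 1) × Bool) :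
    ‖fac r p‖ ≤ 1 := by
  obtain ⟨i, b⟩ := p
  unfold fac
  refine Fin.cases ?_ (fun i => ?_) i
  · simp
  · simp only [Fin.cons_succ]
    split_ifs
    · exact norm_ntr_unitary_le _
    · rw [RCLike.norm_conj]
      exact norm_ntr_unitary_le _

theorem fac_re_ge {k d : ℕ} (hk : 0 < k) (r : Fin d → UU k) (ε : ℝ) (hε : 0 < ε)
    (h1 : ∀ i, ‖(r i : Mat k) - 1‖ ≤ 4 * ε) (p : Fin (d + 1) × Bool) :
    (if p.1 ≠ 0 then 1 - 8 * ε ^ 2 else 1) ≤ (fac r p).re := by
  obtain ⟨i, b⟩ := p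
  unfold fac
  refine Fin.cases ?_ (fun i => ?_) i
  · simp
  · simp only [Fin.cons_succ]
    rw [if_pos (Fin.succ_ne_zero i)]
    split_ifs
    · exact re_ntr_ge hk _ ε hε (h1 i)
    · rw [Complex.conj_re]
      exact re_ntr_ge hk _ ε hε (h1 i)

theorem fac_im_le {k d : ℕ} (r : Fin d → UU k) (β : ℝ) (hβ : 0 ≤ β)
    (h2 : ∀ i, |(ntr (r i : Mat k)).im| ≤ β) (p : Fin (d + 1) × Bool) :
    |(fac r p).im| ≤ β := by
  obtain ⟨i, b⟩ := p
  unfold fac
  refine Fin.cases ?_ (fun i => ?_) i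
  · simpa using hβ
  · simp only [Fin.cons_succ]
    split_ifs
    · exact h2 i
    · rw [Complex.conj_im, abs_neg]
      exact h2 i

theorem phi_eq {k d : ℕ} (r : Fin d → UU k) (w : FreeGroup (Fin (d + 1))) :
    phi r w = (w.toWord.map (fac r)).prod := rfl

theorem phi_bound {k d : ℕ} (r : Fin d → UU k) (ε β : ℝ) (hε : 0 < ε) (hε' : ε ≤ 1 / 10)
    (hβ : 0 ≤ β)
    (h1 : ∀ i, ‖(r i : Mat k) - 1‖ ≤ 4 * ε) (h2 : ∀ i, |(ntr (r i : Mat k)).im| ≤ β) (hk : 0 < k)
    (w : FreeGroup (Fin (d + 1))) :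
    2 * (1 - (phi r w).re) ≤ 16 * min 1 ((blen w : ℝ) * ε ^ 2) + 2 * (w.norm : ℝ) * β := by
  have hq0 : (0 : ℝ) ≤ 1 - 8 * ε ^ 2 := by nlinarith
  have hq1 : (1 - 8 * ε ^ 2 : ℝ) ≤ 1 := by nlinarith [sq_nonneg ε]
  have h0 : ∀ p : Fin (d + 1) × Bool, 0 ≤ (fac r p).re := by
    intro p
    have := fac_re_ge hk r ε hε h1 p
    split_ifs at this <;> linarith
  have hd := phi_list_diff (fac r) β hβ (norm_fac_le r) (fac_im_le r β hβ h2) h0 w.toWord
  have hlow : ∀ l : List (Fin (d + 1) × Bool),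
      (1 - 8 * ε ^ 2) ^ (l.filter fun p => p.1 ≠ 0).length ≤ (l.map fun p => (fac r p).re).prod := by
    intro l
    induction l with
    | nil => simp
    | cons a l ih =>
      rw [List.map_cons, List.prod_cons, List.filter_cons]
      have ha := fac_re_ge hk r ε hε h1 a
      by_cases hz : a.1 ≠ 0
      · rw [if_pos hz] at ha
        rw [if_pos (by simpa using hz), List.length_cons, pow_succ, mul_comm]
        exact mul_le_mul ha ih (pow_nonneg hq0 _) (h0 a)
      · rw [if_neg hz] at ha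
        rw [if_neg (by simpa using hz)]
        calc _ ≤ (l.map fun p => (fac r p).re).prod := ih
          _ = 1 * (l.map fun p => (fac r p).re).prod := (one_mul _).symm
          _ ≤ _ := mul_le_mul_of_nonneg_right ha ((pow_nonneg hq0 _).trans ih)
  have hb := hlow w.toWord
  have hbern : 1 + (blen w : ℝ) * (-(8 * ε ^ 2)) ≤ (1 + -(8 * ε ^ 2)) ^ (blen w) :=
    one_add_mul_le_pow (by nlinarith) _
  have hb' : (1 - 8 * ε ^ 2) ^ (blen w) ≤ (w.toWord.map fun p => (fac r p).re).prod := hb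
  have e1 : (1 + -(8 * ε ^ 2) : ℝ) = 1 - 8 * ε ^ 2 := by ring
  rw [e1] at hbern
  set P := (w.toWord.map fun p => (fac r p).re).prod with hP
  have hP0 : 0 ≤ P := (pow_nonneg hq0 _).trans hb'
  have hP1 : 1 - 8 * ((blen w : ℝ) * ε ^ 2) ≤ P := by linarith
  have hre : P - (w.norm : ℝ) * β ≤ (phi r w).re := by
    rw [phi_eq]
    have h3 := (Complex.abs_re_le_norm ((w.toWord.map (fac r)).prod - (P : ℂ))).trans hd
    rw [Complex.sub_re, Complex.ofReal_re] at h3
    have h4 := (abs_le.1 h3).1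
    have h5 : (w.toWord.length : ℝ) = (w.norm : ℝ) := rfl
    rw [h5] at h4
    linarith
  have hmin : 1 - P ≤ 8 * min 1 ((blen w : ℝ) * ε ^ 2) := by
    rcases le_total 1 ((blen w : ℝ) * ε ^ 2) with h | h
    · rw [min_eq_left h]; linarith
    · rw [min_eq_right h]; linarith
  linarith

theorem norm_phi_le {k d : ℕ} (hk : 0 < k) (r : Fin d → UU k) (w : FreeGroup (Fin (d + 1))) :
    ‖phi r w‖ ≤ 1 := by
  rw [phi_eq]
  generalize w.toWord = l
  induction l with
  | nil => simp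
  | cons a l ih =>
    rw [List.map_cons, List.prod_cons, norm_mul]
    exact mul_le_one₀ (norm_fac_le r a) (norm_nonneg _) ih

end Pool.Agent.H667R2.FG.TPHI

namespace Pool.Agent.H667R2.FG

alias phi_bound := TPHI.phi_bound
alias norm_phi_le := TPHI.norm_phi_le

end Pool.Agent.H667R2.FG
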