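import Mathlib
import Pool.Agent.H667R2.FG.Defs
import Pool.Agent.H667R2.FG.OpDefs
import Pool.Agent.H667R2.FG.Herm
import Pool.Agent.H667R2.FG.THS
import Pool.Agent.H667R2.FG.TAF

namespace Pool.Agent.H667R2.FG.TS2

open MeasureTheory Matrix Filter
open scoped Matrix.Norms.L2Operator ComplexConjugate ENNReal

/-! ## Task S2 -/

namespace S2x

section PW

variable {k : ℕ}

/-- value of a list of letters -/
def evL {n : ℕ} (U : Fin n → UU k) (l : List (Fin n × Bool)) : Mat k :=
  (l.map fun p => lt U p.1 p.2).prod

theorem s2_sub {α : Type} {L L' : List (α × Bool)} (h : FreeGroup.IsReduced L) (hs : L' <:+: L) :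
    FreeGroup.IsReduced L' := by
  obtain ⟨s, t, rfl⟩ := hs
  exact (List.isChain_append.1 (List.isChain_append.1 h).1).2.1


theorem evL_nil {n : ℕ} (U : Fin n → UU k) : evL U [] = 1 := rfl

theorem evL_cons {n : ℕ} (U : Fin n → UU k) (p : Fin n × Bool) (l : List (Fin n × Bool)) :
    evL U (p :: l) = lt U p.1 p.2 * evL U l := by
  simp [evL]

theorem evL_append {n : ℕ} (U : Fin n → UU k) (l l' : List (Fin n × Bool)) :
    evL U (l ++ l') = evL U l * evL U l' := by
  simp [evL]

theorem evL_single {n : ℕ} (U : Fin n → UU k) (p : Fin n × Bool) :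
    evL U [p] = lt U p.1 p.2 := by
  simp [evL]

theorem wd_eq_evL {n : ℕ} (U : Fin n → UU k) (w : FreeGroup (Fin n)) :
    (wd U w : Mat k) = evL U w.toWord := by
  unfold wd evL
  conv_lhs => rw [← FreeGroup.mk_toWord (x := w)]
  rw [FreeGroup.lift_mk]
  rw [Submonoid.coe_list_prod, List.map_map]
  congr 1
  apply List.map_congr_left
  intro p _
  rcases p with ⟨i, b⟩
  cases b <;> simp [lt]

theorem norm_lt_le {ι : Type} (U : ι → UU k) (i : ι) (b : Bool) : ‖lt U i b‖ ≤ 1 := by
  unfold lt
  split_ifs
  · exact norm_unitary_le _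
  · exact norm_unitary_le _

theorem norm_one_le' : ‖(1 : Mat k)‖ ≤ 1 := by
  have := norm_unitary_le (1 : UU k)
  simpa using this

theorem norm_evL_le {n : ℕ} (U : Fin n → UU k) (l : List (Fin n × Bool)) : ‖evL U l‖ ≤ 1 := by
  induction l with
  | nil => exact norm_one_le'
  | cons p l ih =>
    rw [evL_cons]
    calc ‖lt U p.1 p.2 * evL U l‖ ≤ ‖lt U p.1 p.2‖ * ‖evL U l‖ := norm_mul_le _ _
      _ ≤ 1 * 1 := mul_le_mul (norm_lt_le _ _ _) ih (norm_nonneg _) zero_le_one
      _ = 1 := one_mul 1

theorem evS_append {ι : Type} (U : ι → UU k) (l l' : List (Syl k ι)) :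
    evS U (l ++ l') = evS U l * evS U l' := by
  induction l with
  | nil => simp [evS]
  | cons p l ih => simp [evS, ih, mul_assoc]

theorem nrm_nonneg {ι : Type} (w : List (Syl k ι)) : 0 ≤ nrm w := by
  unfold nrm
  apply List.prod_nonneg
  intro a ha
  simp only [List.mem_map] at ha
  obtain ⟨s, _, rfl⟩ := ha
  exact norm_nonneg _

theorem nrm_cons {ι : Type} (s : Syl k ι) (w : List (Syl k ι)) :
    nrm (s :: w) = ‖s.2.2‖ * nrm w := by
  simp [nrm]

theorem nrm_append {ι : Type} (w w' : List (Syl k ι)) :
    nrm (w ++ w') = nrm w * nrm w' := by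
  simp [nrm]

theorem norm_evS_le {ι : Type} (U : ι → UU k) (w : List (Syl k ι)) : ‖evS U w‖ ≤ nrm w := by
  induction w with
  | nil => simpa [nrm, evS] using norm_one_le'
  | cons s w ih =>
    rw [nrm_cons]
    show ‖lt U s.1 s.2.1 * s.2.2 * evS U w‖ ≤ _
    calc ‖lt U s.1 s.2.1 * s.2.2 * evS U w‖ ≤ ‖lt U s.1 s.2.1 * s.2.2‖ * ‖evS U w‖ := norm_mul_le _ _
      _ ≤ (‖lt U s.1 s.2.1‖ * ‖s.2.2‖) * nrm w := by
          apply mul_le_mul (norm_mul_le _ _) ih (norm_nonneg _)
          positivity
      _ ≤ (1 * ‖s.2.2‖) * nrm w := by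
          apply mul_le_mul_of_nonneg_right _ (nrm_nonneg _)
          apply mul_le_mul_of_nonneg_right (norm_lt_le _ _ _) (norm_nonneg _)
      _ = _ := by rw [one_mul]

/-! ### continuity and integrability -/

instance instSecondCountableMatS2 : SecondCountableTopology (Mat k) :=
  inferInstanceAs (SecondCountableTopology (Fin k → Fin k → ℂ))

theorem continuous_lt {ι : Type} (i : ι) (b : Bool) :
    Continuous fun U : ι → UU k => lt U i b := by
  unfold lt
  cases b
  · simp only [Bool.false_eq_true, if_false]
    exact continuous_subtype_val.comp (continuous_inv.comp (continuous_apply i))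
  · simp only [if_true]
    exact continuous_subtype_val.comp (continuous_apply i)

theorem continuous_evS {ι : Type} (w : List (Syl k ι)) :
    Continuous fun U : ι → UU k => evS U w := by
  induction w with
  | nil => exact continuous_const
  | cons s w ih =>
    show Continuous fun U : ι → UU k => lt U s.1 s.2.1 * s.2.2 * evS U w
    exact ((continuous_lt _ _).mul continuous_const).mul ih

theorem continuous_pert {d : ℕ} (x : Fin (d + 1) → UU k) (r : Fin d → UU k) :
    Continuous fun W : Fin d → UU k => pert x r W := by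
  unfold pert
  apply continuous_pi
  intro i
  refine Fin.cases ?_ (fun j => ?_) i
  · simp only [Fin.cons_zero]; exact continuous_const
  · simp only [Fin.cons_succ]
    exact (((continuous_const).mul (continuous_apply j).inv).mul continuous_const).mul
      (continuous_apply j)

theorem continuous_evL {n : ℕ} (l : List (Fin n × Bool)) :
    Continuous fun U : Fin n → UU k => evL U l := by
  induction l with
  | nil => exact continuous_const
  | cons p l ih =>
    simp only [evL_cons]
    exact (continuous_lt _ _).mul ih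

theorem integrable_cont {ι : Type} [Fintype ι] {f : (ι → UU k) → ℂ} (hf : Continuous f) :
    Integrable f (haarP k ι) := by
  exact hf.integrable_of_hasCompactSupport (HasCompactSupport.of_compactSpace f)


theorem sq_integral_le {ι : Type} [Fintype ι] {g : (ι → UU k) → ℝ} (hg : Continuous g) :
    (∫ W, g W ∂(haarP k ι)) ^ 2 ≤ ∫ W, g W ^ 2 ∂(haarP k ι) := by
  have hint : ∀ {f : (ι → UU k) → ℝ}, Continuous f → Integrable f (haarP k ι) := fun {f} hf =>
    hf.integrable_of_hasCompactSupport (HasCompactSupport.of_compactSpace f)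
  set m := ∫ W, g W ∂(haarP k ι) with hm
  have h0 : 0 ≤ ∫ W, (g W - m) ^ 2 ∂(haarP k ι) := integral_nonneg fun W => sq_nonneg _
  have h1 : ∫ W, (g W - m) ^ 2 ∂(haarP k ι) = (∫ W, g W ^ 2 ∂(haarP k ι)) - m ^ 2 := by
    have e : (fun W => (g W - m) ^ 2) = fun W => (g W ^ 2 - (2 * m) * g W) + m ^ 2 := by
      funext W; ring
    rw [e, integral_add, integral_sub, integral_const_mul, integral_const]
    · simp only [probReal_univ, one_smul, ← hm]; ring
    · exact hint (hg.pow 2)
    · exact hint (continuous_const.mul hg)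
    · exact hint ((hg.pow 2).sub (continuous_const.mul hg))
    · exact hint continuous_const
  linarith

theorem norm_integral_le_sqrt {ι : Type} [Fintype ι] {f : (ι → UU k) → ℂ} (hf : Continuous f)
    {A : ℝ} (hA : 0 ≤ A) (h : ∫ W, ‖f W‖ ^ 2 ∂(haarP k ι) ≤ A ^ 2) :
    ‖∫ W, f W ∂(haarP k ι)‖ ≤ A := by
  have h1 : ‖∫ W, f W ∂(haarP k ι)‖ ≤ ∫ W, ‖f W‖ ∂(haarP k ι) := norm_integral_le_integral_norm _
  have h2 := sq_integral_le (k := k) (g := fun W : ι → UU k => ‖f W‖) hf.norm
  have h3 : (∫ W, ‖f W‖ ∂(haarP k ι)) ^ 2 ≤ A ^ 2 := h2.trans h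
  have h4 := abs_le_of_sq_le_sq h3 hA
  exact h1.trans ((le_abs_self _).trans h4)

theorem norm_integral_le_const {ι : Type} [Fintype ι] {f : (ι → UU k) → ℂ}
    {A : ℝ} (h : ∀ W, ‖f W‖ ≤ A) :
    ‖∫ W, f W ∂(haarP k ι)‖ ≤ A := by
  have := norm_integral_le_of_norm_le_const (μ := haarP k ι) (f := f) (C := A)
    (Filter.Eventually.of_forall h)
  simpa using this

/-! ### centred letters -/

/-- the centred letter -/
noncomputable def cen (a : Mat k) : Mat k := a - ntr a • (1 : Mat k)

theorem trace_cen (hk : 0 < k) (a : Mat k) : (cen a).trace = 0 := by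
  unfold cen ntr
  rw [Matrix.trace_sub, Matrix.trace_smul, Matrix.trace_one, Fintype.card_fin, smul_eq_mul]
  have : (k : ℂ) ≠ 0 := by exact_mod_cast hk.ne'
  field_simp
  ring

theorem norm_cen_le (a : Mat k) (h : ‖a‖ ≤ 1) : ‖cen a‖ ≤ 2 := by
  unfold cen
  calc ‖a - ntr a • (1 : Mat k)‖ ≤ ‖a‖ + ‖ntr a • (1 : Mat k)‖ := norm_sub_le _ _
    _ ≤ 1 + 1 * 1 := by
        rw [norm_smul]
        exact add_le_add h (mul_le_mul ((norm_ntr_le a).trans h) norm_one_le' (norm_nonneg _)
          zero_le_one)
    _ = 2 := by norm_num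

theorem lt_true_mul_false {ι : Type} (U : ι → UU k) (i : ι) : lt U i true * lt U i false = 1 := by
  unfold lt
  simp only [if_true, Bool.false_eq_true, if_false]
  have : (U i * (U i)⁻¹ : UU k) = 1 := mul_inv_cancel _
  exact congrArg (fun v : UU k => (v : Mat k)) this

theorem lt_false_mul_true {ι : Type} (U : ι → UU k) (i : ι) : lt U i false * lt U i true = 1 := by
  unfold lt
  simp only [if_true, Bool.false_eq_true, if_false]
  have : ((U i)⁻¹ * U i : UU k) = 1 := inv_mul_cancel _
  exact congrArg (fun v : UU k => (v : Mat k)) this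

variable {d : ℕ}

theorem lt_pert_zero (x : Fin (d + 1) → UU k) (r W : Fin d → UU k) (b : Bool) :
    lt (pert x r W) 0 b = lt x 0 b := by
  simp [lt, pert]

theorem lt_pert_true (x : Fin (d + 1) → UU k) (r W : Fin d → UU k) (j : Fin d) :
    lt (pert x r W) j.succ true = ntr (lt r j true) • lt x j.succ true
      + lt x j.succ true * (lt W j false * cen (lt r j true) * lt W j true) := by
  have h1 : lt (pert x r W) j.succ true
      = lt x j.succ true * (lt W j false * lt r j true * lt W j true) := by
    simp [lt, pert, mul_assoc]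
  rw [h1]
  unfold cen
  rw [mul_sub, sub_mul, mul_sub, mul_smul_comm, mul_one, smul_mul_assoc, lt_false_mul_true,
    mul_smul_comm, mul_one]
  abel

theorem lt_pert_false (x : Fin (d + 1) → UU k) (r W : Fin d → UU k) (j : Fin d) :
    lt (pert x r W) j.succ false = ntr (lt r j false) • lt x j.succ false
      + (lt W j false * cen (lt r j false) * lt W j true) * lt x j.succ false := by
  have h1 : lt (pert x r W) j.succ false
      = (lt W j false * lt r j false * lt W j true) * lt x j.succ false := by
    simp [lt, pert, mul_assoc]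
  rw [h1]
  unfold cen
  rw [mul_sub, sub_mul, sub_mul, mul_smul_comm, mul_one, smul_mul_assoc, lt_false_mul_true,
    smul_mul_assoc, one_mul]
  abel


/-- recursive constants -/
noncomputable def KK (C : ℕ → ℝ) : ℕ → ℕ → ℝ
  | 0, p => √(C (p + 1))
  | n + 1, p => KK C n p + 4 * KK C n (p + 2) + 2

theorem KK_nonneg (C : ℕ → ℝ) (n p : ℕ) : 0 ≤ KK C n p := by
  induction n generalizing p with
  | zero => exact Real.sqrt_nonneg _
  | succ n ih => have h1 := ih p; have h2 := ih (p + 2); simp only [KK]; linarith

/-- recursive constants -/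
noncomputable def MM (C : ℕ → ℝ) : ℕ → ℝ
  | 0 => 0
  | n + 1 => MM C n + 2 * KK C n 1

theorem MM_mono (C : ℕ → ℝ) : Monotone (MM C) :=
  monotone_nat_of_le_succ fun n => by
    simp only [MM]; have := KK_nonneg C n 1; linarith

theorem MM_nonneg (C : ℕ → ℝ) (n : ℕ) : 0 ≤ MM C n := by
  have := MM_mono C (Nat.zero_le n)
  simpa [MM] using this

theorem small_of_reduced {n N : ℕ} {κ : ℝ} {x : Fin n → UU k} (h : SmallTr κ N x)
    (u : List (Fin n × Bool)) (hu : FreeGroup.IsReduced u) (hu0 : u ≠ []) (hN : u.length ≤ N) :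
    ‖ntr (evL x u)‖ ≤ κ := by
  have h1 : (FreeGroup.mk u).toWord = u := by
    rw [FreeGroup.toWord_mk]; exact hu.reduce_eq
  have h2 := h (FreeGroup.mk u) (by
    intro h0
    apply hu0
    rw [← h1, h0, FreeGroup.toWord_one]) (by
    rw [FreeGroup.norm, h1]; exact hN)
  rwa [wd_eq_evL, h1] at h2

theorem GoodW_ext {ι : Type} (q : List (Syl k ι)) (j j' : ι) (a c c' : Mat k)
    (hq : ∀ a, GoodW (q ++ [(j, true, a)])) (ha : j = j' → a.trace = 0) (hc : c.trace = 0) :
    GoodW (q ++ [(j, true, a), (j', false, c)] ++ [(j', true, c')]) := by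
  unfold GoodW at *
  rw [List.append_assoc]
  show List.IsChain _ (q ++ (j, true, a) :: ((j', false, c) :: [(j', true, c')]))
  rw [List.isChain_append_cons_cons]
  refine ⟨hq a, fun h _ => ha h, ?_⟩
  rw [List.isChain_cons_cons]
  exact ⟨fun _ _ => hc, List.isChain_singleton _⟩

/-- the hypothesis provided by `asympFree` -/
def AFH (k d : ℕ) (C : ℕ → ℝ) : Prop := ∀ w : List (Syl k (Fin d)), w ≠ [] → GoodW w →
    ∫ U, ‖ntr (evS U w)‖ ^ 2 ∂(haarP k (Fin d)) ≤ C w.length * nrm w ^ 2 / (k : ℝ) ^ 2

/-- the state bound for words with `n` remaining letters -/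
def SB (k d : ℕ) (C : ℕ → ℝ) (κ : ℝ) (N : ℕ) (x : Fin (d + 1) → UU k) (r : Fin d → UU k)
    (l : List (Fin (d + 1) × Bool)) : Prop :=
  ∀ (u : List (Fin (d + 1) × Bool)) (q : List (Syl k (Fin d))) (j : Fin d) (B : Mat k),
    FreeGroup.IsReduced (u ++ l) → (u = [] → ∀ l', l ≠ (j.succ, false) :: l') →
    u.length + l.length ≤ N → (∀ a, GoodW (q ++ [(j, true, a)])) → nrm q ≤ 2 ^ q.length →
    ‖∫ W, ntr (B * (evS W q * lt W j true * evL x u * evL (pert x r W) l)) ∂(haarP k (Fin d))‖
      ≤ ‖B‖ * 2 ^ q.length * KK C l.length q.length * (κ + 1 / k)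

theorem continuous_int (x : Fin (d + 1) → UU k) (r : Fin d → UU k)
    (l : List (Fin (d + 1) × Bool)) :
    Continuous fun W : Fin d → UU k => evL (pert x r W) l :=
  (continuous_evL l).comp (continuous_pert x r)

theorem SB_nil (hk : 0 < k) (C : ℕ → ℝ) (hC0 : ∀ r, 0 ≤ C r) (hC : AFH k d C)
    (x : Fin (d + 1) → UU k) (r : Fin d → UU k) (N : ℕ) (κ : ℝ) (hκ : 0 ≤ κ) :
    SB k d C κ N x r [] := by
  intro u q j B hred hstart hlen hgood hnrm
  have hk' : (0 : ℝ) < k := by exact_mod_cast hk
  have e : ∀ W : Fin d → UU k, ntr (B * (evS W q * lt W j true * evL x u * evL (pert x r W) []))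
      = ntr (evS W (q ++ [(j, true, evL x u * B)])) := by
    intro W
    rw [ntr_mul_comm, evL_nil, mul_one, evS_append]
    congr 1
    simp [evS, mul_assoc]
  simp_rw [e]
  have hn : nrm (q ++ [(j, true, evL x u * B)]) ≤ 2 ^ q.length * ‖B‖ := by
    rw [nrm_append]
    have h1 : nrm [((j, true, evL x u * B) : Syl k (Fin d))] ≤ ‖B‖ := by
      simp only [nrm, List.map_cons, List.map_nil, List.prod_cons, List.prod_nil, mul_one]
      calc ‖evL x u * B‖ ≤ ‖evL x u‖ * ‖B‖ := norm_mul_le _ _
        _ ≤ 1 * ‖B‖ := mul_le_mul_of_nonneg_right (norm_evL_le _ _) (norm_nonneg _)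
        _ = ‖B‖ := one_mul _
    exact mul_le_mul hnrm h1 (nrm_nonneg _) (by positivity)
  have h2 := hC (q ++ [(j, true, evL x u * B)]) (by simp) (hgood _)
  have h3 : ‖∫ W, ntr (evS W (q ++ [(j, true, evL x u * B)])) ∂(haarP k (Fin d))‖
      ≤ √(C (q.length + 1)) * (2 ^ q.length * ‖B‖) / k := by
    apply norm_integral_le_sqrt
    · exact continuous_ntr.comp (continuous_evS _)
    · positivity
    · refine h2.trans ?_
      rw [div_pow, mul_pow, Real.sq_sqrt (hC0 _)]
      have hl : (q ++ [((j, true, evL x u * B) : Syl k (Fin d))]).length = q.length + 1 := by simp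
      rw [hl]
      apply div_le_div_of_nonneg_right _ (by positivity)
      apply mul_le_mul_of_nonneg_left _ (hC0 _)
      exact pow_le_pow_left₀ (nrm_nonneg _) hn 2
  refine h3.trans ?_
  simp only [List.length_nil, KK]
  have h4 : 0 ≤ ‖B‖ * 2 ^ q.length * √(C (q.length + 1)) * κ := by positivity
  calc √(C (q.length + 1)) * (2 ^ q.length * ‖B‖) / k
      = ‖B‖ * 2 ^ q.length * √(C (q.length + 1)) * (1 / k) := by ring
    _ ≤ ‖B‖ * 2 ^ q.length * √(C (q.length + 1)) * (κ + 1 / k) := by
        rw [mul_add]; linarith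

/-- insertion of a centred letter -/
theorem SB_insert (hk : 0 < k) (C : ℕ → ℝ)
    (x : Fin (d + 1) → UU k) (r : Fin d → UU k) (N : ℕ) (κ : ℝ) (hκ : 0 ≤ κ) (hκ1 : κ ≤ 1)
    (l : List (Fin (d + 1) × Bool)) (ih : SB k d C κ N x r l)
    (u : List (Fin (d + 1) × Bool)) (q : List (Syl k (Fin d))) (j j' : Fin d) (B : Mat k)
    (hred : FreeGroup.IsReduced (u ++ l)) (hstart : u = [] → ∀ l', l ≠ (j'.succ, false) :: l')
    (hlen : u.length + l.length ≤ N) (hgood : ∀ a, GoodW (q ++ [(j, true, a)]))
    (hnrm : nrm q ≤ 2 ^ q.length) (a c : Mat k) (ha : ‖a‖ ≤ 1) (ha' : j = j' → ‖ntr a‖ ≤ κ)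
    (hc : ‖c‖ ≤ 2) (hc' : c.trace = 0) :
    ‖∫ W, ntr (B * (evS W q * lt W j true * a * (lt W j' false * c * lt W j' true) * evL x u
        * evL (pert x r W) l)) ∂(haarP k (Fin d))‖
      ≤ ‖B‖ * 2 ^ q.length * (4 * KK C l.length (q.length + 2) + 2) * (κ + 1 / k) := by
  have hk' : (0 : ℝ) < k := by exact_mod_cast hk
  -- the centred coefficient
  obtain ⟨t, ht, ht1, ht2⟩ : ∃ t : ℂ, ‖t‖ ≤ κ ∧ ‖a - t • (1 : Mat k)‖ ≤ 2 ∧
      (j = j' → (a - t • (1 : Mat k)).trace = 0) := by
    by_cases hj : j = j'
    · exact ⟨ntr a, ha' hj, norm_cen_le a ha, fun _ => trace_cen hk a⟩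
    · refine ⟨0, by simpa using hκ, ?_, fun h => absurd h hj⟩
      simp only [zero_smul, sub_zero]; linarith
  set a' := a - t • (1 : Mat k) with ha'def
  have e : ∀ W : Fin d → UU k, ntr (B * (evS W q * lt W j true * a *
        (lt W j' false * c * lt W j' true) * evL x u * evL (pert x r W) l))
      = ntr (B * (evS W (q ++ [(j, true, a'), (j', false, c)]) * lt W j' true * evL x u
          * evL (pert x r W) l))
        + t * ntr (B * (evS W q * lt W j true * (lt W j' false * c * lt W j' true) * evL x u
            * evL (pert x r W) l)) := by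
    intro W
    have h1 : a = a' + t • (1 : Mat k) := by simp [ha'def]
    conv_lhs => rw [h1]
    rw [← ntr_smul, ← ntr_add]
    congr 1
    simp only [evS_append, evS, mul_add, add_mul, mul_assoc, smul_mul_assoc, mul_smul_comm,
      one_mul, mul_one]
  simp_rw [e]
  have cW : Continuous fun W : Fin d → UU k => evL (pert x r W) l := continuous_int x r l
  have c1 : Continuous fun W : Fin d → UU k => ntr (B * (evS W (q ++ [(j, true, a'), (j', false, c)])
      * lt W j' true * evL x u * evL (pert x r W) l)) := by
    apply continuous_ntr.comp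
    exact continuous_const.mul ((((continuous_evS _).mul (continuous_lt _ _)).mul
      continuous_const).mul cW)
  have c2 : Continuous fun W : Fin d → UU k => ntr (B * (evS W q * lt W j true *
      (lt W j' false * c * lt W j' true) * evL x u * evL (pert x r W) l)) := by
    apply continuous_ntr.comp
    exact continuous_const.mul (((((continuous_evS _).mul (continuous_lt _ _)).mul
      (((continuous_lt _ _).mul continuous_const).mul (continuous_lt _ _))).mul
      continuous_const).mul cW)
  rw [integral_add (integrable_cont c1) ((integrable_cont c2).const_mul t),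
    integral_const_mul]
  have b1 := ih u (q ++ [(j, true, a'), (j', false, c)]) j' B hred hstart hlen
    (fun a'' => GoodW_ext q j j' a' c a'' hgood ht2 hc') (by
      rw [nrm_append]
      have : nrm [((j, true, a') : Syl k (Fin d)), (j', false, c)] ≤ 2 * 2 := by
        simp only [nrm, List.map_cons, List.map_nil, List.prod_cons, List.prod_nil, mul_one]
        exact mul_le_mul ht1 hc (norm_nonneg _) (by norm_num)
      calc nrm q * nrm [((j, true, a') : Syl k (Fin d)), (j', false, c)]
          ≤ 2 ^ q.length * (2 * 2) := mul_le_mul hnrm this (nrm_nonneg _) (by positivity)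
        _ = 2 ^ (q ++ [((j, true, a') : Syl k (Fin d)), (j', false, c)]).length := by
            rw [List.length_append]; simp [pow_add]; norm_num)
  have hl : (q ++ [((j, true, a') : Syl k (Fin d)), (j', false, c)]).length = q.length + 2 := by
    simp
  rw [hl] at b1
  have b2 : ‖∫ W, ntr (B * (evS W q * lt W j true *
      (lt W j' false * c * lt W j' true) * evL x u * evL (pert x r W) l)) ∂(haarP k (Fin d))‖
      ≤ ‖B‖ * (2 ^ q.length * 2) := by
    apply norm_integral_le_const
    intro W
    refine (norm_ntr_le _).trans ((norm_mul_le _ _).trans ?_)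
    apply mul_le_mul_of_nonneg_left _ (norm_nonneg _)
    have n1 := norm_evS_le W q
    have n2 := norm_lt_le W j true
    have n3 := norm_lt_le W j' false
    have n4 := norm_lt_le W j' true
    have n5 := norm_evL_le x u
    have n6 := norm_evL_le (pert x r W) l
    calc ‖evS W q * lt W j true * (lt W j' false * c * lt W j' true) * evL x u * evL (pert x r W) l‖
        ≤ ‖evS W q‖ * ‖lt W j true‖ * (‖lt W j' false‖ * ‖c‖ * ‖lt W j' true‖) * ‖evL x u‖ *
            ‖evL (pert x r W) l‖ := by
          refine (norm_mul_le _ _).trans (mul_le_mul_of_nonneg_right ?_ (norm_nonneg _))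
          refine (norm_mul_le _ _).trans (mul_le_mul_of_nonneg_right ?_ (norm_nonneg _))
          refine (norm_mul_le _ _).trans (mul_le_mul (norm_mul_le _ _) ?_ (norm_nonneg _)
            (by positivity))
          refine (norm_mul_le _ _).trans (mul_le_mul_of_nonneg_right (norm_mul_le _ _)
            (norm_nonneg _))
      _ ≤ 2 ^ q.length * 1 * (1 * 2 * 1) * 1 * 1 := by
          have := nrm_nonneg q
          gcongr
          exact n1.trans hnrm
      _ = 2 ^ q.length * 2 := by ring
  have hKn := KK_nonneg C l.length (q.length + 2)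
  calc _ ≤ _ := norm_add_le _ _
    _ ≤ ‖B‖ * 2 ^ (q.length + 2) * KK C l.length (q.length + 2) * (κ + 1 / k)
        + κ * (‖B‖ * (2 ^ q.length * 2)) := by
        apply add_le_add b1
        rw [norm_mul]
        exact mul_le_mul ht b2 (norm_nonneg _) hκ
    _ ≤ ‖B‖ * 2 ^ q.length * (4 * KK C l.length (q.length + 2) + 2) * (κ + 1 / k) := by
        have h5 : 0 ≤ ‖B‖ * 2 ^ q.length * 2 * (1 / k) := by positivity
        rw [pow_add]
        nlinarith [h5]


theorem norm_ntr_lt_le (r : Fin d → UU k) (j : Fin d) (b : Bool) : ‖ntr (lt r j b)‖ ≤ 1 :=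
  (norm_ntr_le _).trans (norm_lt_le _ _ _)

/-- combination step -/
theorem comb_bound {f g : (Fin d → UU k) → ℂ} (hf : Continuous f) (hg : Continuous g) (z : ℂ)
    (hz : ‖z‖ ≤ 1) {A B : ℝ} (h1 : ‖∫ W, f W ∂(haarP k (Fin d))‖ ≤ A)
    (h2 : ‖∫ W, g W ∂(haarP k (Fin d))‖ ≤ B) :
    ‖∫ W, (z * f W + g W) ∂(haarP k (Fin d))‖ ≤ A + B := by
  rw [integral_add ((integrable_cont hf).const_mul z) (integrable_cont hg), integral_const_mul]
  refine (norm_add_le _ _).trans (add_le_add ?_ h2)
  rw [norm_mul]
  calc ‖z‖ * ‖∫ W, f W ∂(haarP k (Fin d))‖ ≤ 1 * A :=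
        mul_le_mul hz h1 (norm_nonneg _) zero_le_one
    _ = A := one_mul A

theorem SB_all (hk : 0 < k) (C : ℕ → ℝ) (hC0 : ∀ r, 0 ≤ C r) (hC : AFH k d C)
    (x : Fin (d + 1) → UU k) (r : Fin d → UU k) (N : ℕ) (κ : ℝ) (hκ : 0 ≤ κ) (hκ1 : κ ≤ 1)
    (hs : SmallTr κ N x) (l : List (Fin (d + 1) × Bool)) : SB k d C κ N x r l := by
  have hk' : (0 : ℝ) < k := by exact_mod_cast hk
  induction l with
  | nil => exact SB_nil hk C hC0 hC x r N κ hκ
  | cons p l ih =>
    obtain ⟨i, b⟩ := p
    intro u q j B hred hstart hlen hgood hnrm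
    have hred' : FreeGroup.IsReduced ((u ++ [(i, b)]) ++ l) := by
      rw [List.append_assoc]; exact hred
    have hlen' : (u ++ [(i, b)]).length + l.length ≤ N := by
      simp only [List.length_append, List.length_cons, List.length_nil] at hlen ⊢; omega
    have hredl : FreeGroup.IsReduced ((i, b) :: l) := s2_sub hred ⟨u, [], by simp⟩
    have hstart2 : ∀ {b'' : Bool}, b ≠ b'' → ∀ l', l ≠ (i, b'') :: l' := by
      intro b'' hb l' h
      rw [h] at hredl
      exact hb ((FreeGroup.isReduced_cons_cons.1 hredl).1 rfl)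
    have i1 := ih (u ++ [(i, b)]) q j B hred' (by simp) hlen' hgood hnrm
    have cW : Continuous fun W : Fin d → UU k => evL (pert x r W) l := continuous_int x r l
    have c1 : Continuous fun W : Fin d → UU k => ntr (B * (evS W q * lt W j true *
        evL x (u ++ [(i, b)]) * evL (pert x r W) l)) := by
      apply continuous_ntr.comp
      exact continuous_const.mul ((((continuous_evS _).mul (continuous_lt _ _)).mul
        continuous_const).mul cW)
    have hKn := KK_nonneg C l.length q.length
    have hKn2 := KK_nonneg C l.length (q.length + 2)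
    revert hred hstart hlen hred' hlen' hredl hstart2 i1 c1
    refine Fin.cases ?_ (fun j' => ?_) i
    · intro hred hstart hlen hred' hlen' hredl hstart2 i1 c1
      have e : ∀ W : Fin d → UU k, evS W q * lt W j true * evL x u * evL (pert x r W) ((0, b) :: l)
          = evS W q * lt W j true * evL x (u ++ [(0, b)]) * evL (pert x r W) l := by
        intro W
        rw [evL_cons, evL_append, evL_single, lt_pert_zero]
        simp only [mul_assoc]
      simp_rw [e]
      refine i1.trans ?_
      have h0 : (0 : ℝ) ≤ ‖B‖ * 2 ^ q.length := by positivity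
      have h1 : (0 : ℝ) ≤ κ + 1 / k := by positivity
      apply mul_le_mul_of_nonneg_right _ h1
      apply mul_le_mul_of_nonneg_left _ h0
      simp only [List.length_cons, KK]
      linarith
    · intro hred hstart hlen hred' hlen' hredl hstart2 i1 c1
      -- common bookkeeping
      have key : ∀ (a : Mat k) (u' : List (Fin (d + 1) × Bool)) (c : Mat k),
          (∀ W : Fin d → UU k, evS W q * lt W j true * evL x u *
              evL (pert x r W) ((j'.succ, b) :: l)
            = ntr (lt r j' b) • (evS W q * lt W j true * evL x (u ++ [(j'.succ, b)]) *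
                evL (pert x r W) l) + evS W q * lt W j true * a *
                  (lt W j' false * c * lt W j' true) * evL x u' * evL (pert x r W) l) →
          FreeGroup.IsReduced (u' ++ l) → (u' = [] → ∀ l', l ≠ (j'.succ, false) :: l') →
          u'.length + l.length ≤ N → ‖a‖ ≤ 1 → (j = j' → ‖ntr a‖ ≤ κ) → ‖c‖ ≤ 2 →
          c.trace = 0 →
          ‖∫ W, ntr (B * (evS W q * lt W j true * evL x u *
            evL (pert x r W) ((j'.succ, b) :: l))) ∂(haarP k (Fin d))‖
            ≤ ‖B‖ * 2 ^ q.length * KK C ((j'.succ, b) :: l).length q.length * (κ + 1 / k) := by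
        intro a u' c he h1 h2 h3 h4 h5 h6 h7
        have i2 := SB_insert hk C x r N κ hκ hκ1 l ih u' q j j' B h1 h2 h3 hgood hnrm a c h4 h5 h6 h7
        have e2 : ∀ W : Fin d → UU k, ntr (B * (evS W q * lt W j true * evL x u *
            evL (pert x r W) ((j'.succ, b) :: l)))
            = ntr (lt r j' b) * ntr (B * (evS W q * lt W j true *
              evL x (u ++ [(j'.succ, b)]) * evL (pert x r W) l)) +
              ntr (B * (evS W q * lt W j true * a * (lt W j' false * c * lt W j' true) * evL x u'
                * evL (pert x r W) l)) := by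
          intro W
          rw [he W, mul_add, ntr_add, mul_smul_comm, ntr_smul]
        simp_rw [e2]
        have c2 : Continuous fun W : Fin d → UU k => ntr (B * (evS W q * lt W j true * a *
            (lt W j' false * c * lt W j' true) * evL x u' * evL (pert x r W) l)) := by
          apply continuous_ntr.comp
          exact continuous_const.mul ((((((continuous_evS _).mul (continuous_lt _ _)).mul
            continuous_const).mul
            (((continuous_lt _ _).mul continuous_const).mul (continuous_lt _ _))).mul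
            continuous_const).mul cW)
        refine (comb_bound c1 c2 _ (norm_ntr_lt_le r j' b) i1 i2).trans ?_
        simp only [List.length_cons, KK]
        apply le_of_eq
        ring
      cases b with
      | true =>
        apply key (evL x (u ++ [(j'.succ, true)])) [] (cen (lt r j' true))
        · intro W
          rw [evL_cons, lt_pert_true, evL_append, evL_single, evL_nil]
          simp only [mul_add, add_mul, mul_assoc, smul_mul_assoc, mul_smul_comm, mul_one, one_mul]
        · exact s2_sub hredl ⟨[(j'.succ, true)], [], by simp⟩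
        · intro _; exact hstart2 (by decide)
        · simp only [List.length_append, List.length_cons, List.length_nil] at hlen ⊢; omega
        · exact norm_evL_le _ _
        · intro _
          apply small_of_reduced hs _ (s2_sub hred' ⟨[], l, by simp⟩) (by simp)
          omega
        · exact norm_cen_le _ (norm_lt_le _ _ _)
        · exact trace_cen hk _
      | false =>
        apply key (evL x u) [(j'.succ, false)] (cen (lt r j' false))
        · intro W
          rw [evL_cons, lt_pert_false, evL_append, evL_single]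
          simp only [mul_add, add_mul, mul_assoc, smul_mul_assoc, mul_smul_comm]
        · exact hredl
        · simp
        · simp only [List.length_append, List.length_cons, List.length_nil] at hlen ⊢; omega
        · exact norm_evL_le _ _
        · intro hj
          apply small_of_reduced hs _ (s2_sub hred ⟨[], (j'.succ, false) :: l, by simp⟩)
          · intro hu
            exact hstart hu l (by rw [hj])
          · simp only [List.length_cons] at hlen; omega
        · exact norm_cen_le _ (norm_lt_le _ _ _)
        · exact trace_cen hk _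

/-- the damping factor on lists -/
noncomputable def phiL (r : Fin d → UU k) (l : List (Fin (d + 1) × Bool)) : ℂ :=
  (l.map fun p => (Fin.cons 1 (fun i => if p.2 then ntr (r i : Mat k)
    else (starRingEnd ℂ) (ntr (r i : Mat k))) : Fin (d + 1) → ℂ) p.1).prod

theorem phiL_zero (r : Fin d → UU k) (b : Bool) (l : List (Fin (d + 1) × Bool)) :
    phiL r ((0, b) :: l) = phiL r l := by
  simp [phiL]

theorem phiL_succ (r : Fin d → UU k) (j : Fin d) (b : Bool) (l : List (Fin (d + 1) × Bool)) :
    phiL r ((j.succ, b) :: l) = ntr (lt r j b) * phiL r l := by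
  simp only [phiL, List.map_cons, List.prod_cons, Fin.cons_succ]
  congr 1
  cases b with
  | true => simp [lt]
  | false =>
    simp only [lt, Bool.false_eq_true, if_false]
    rw [← ntr_conjTranspose]
    rfl

theorem main_rec (hk : 0 < k) (C : ℕ → ℝ) (hC0 : ∀ r, 0 ≤ C r) (hC : AFH k d C)
    (x : Fin (d + 1) → UU k) (r : Fin d → UU k) (N : ℕ) (κ : ℝ) (hκ : 0 ≤ κ) (hκ1 : κ ≤ 1)
    (hs : SmallTr κ N x) (l : List (Fin (d + 1) × Bool)) :
    ∀ (u : List (Fin (d + 1) × Bool)) (B : Mat k),
    FreeGroup.IsReduced (u ++ l) → u.length + l.length ≤ N →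
    ‖(∫ W, ntr (B * (evL x u * evL (pert x r W) l)) ∂(haarP k (Fin d)))
        - phiL r l * ntr (B * (evL x u * evL x l))‖
      ≤ ‖B‖ * MM C l.length * (κ + 1 / k) := by
  have hk' : (0 : ℝ) < k := by exact_mod_cast hk
  induction l with
  | nil =>
    intro u B _ _
    simp only [evL_nil, mul_one, phiL, List.map_nil, List.prod_nil, one_mul, integral_const,
      probReal_univ, one_smul, sub_self, norm_zero, List.length_nil, MM, mul_zero, zero_mul,
      le_refl]
  | cons p l ih =>
    obtain ⟨i, b⟩ := p
    intro u B hred hlen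
    have hred' : FreeGroup.IsReduced ((u ++ [(i, b)]) ++ l) := by
      rw [List.append_assoc]; exact hred
    have hlen' : (u ++ [(i, b)]).length + l.length ≤ N := by
      simp only [List.length_append, List.length_cons, List.length_nil] at hlen ⊢; omega
    have hredl : FreeGroup.IsReduced ((i, b) :: l) := s2_sub hred ⟨u, [], by simp⟩
    have hstart2 : ∀ {b'' : Bool}, b ≠ b'' → ∀ l', l ≠ (i, b'') :: l' := by
      intro b'' hb l' h
      rw [h] at hredl
      exact hb ((FreeGroup.isReduced_cons_cons.1 hredl).1 rfl)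
    have i1 := ih (u ++ [(i, b)]) B hred' hlen'
    have cW : Continuous fun W : Fin d → UU k => evL (pert x r W) l := continuous_int x r l
    have c1 : Continuous fun W : Fin d → UU k => ntr (B * (evL x (u ++ [(i, b)]) *
        evL (pert x r W) l)) := by
      apply continuous_ntr.comp
      exact continuous_const.mul (continuous_const.mul cW)
    have hKn := KK_nonneg C l.length 1
    have hMn := MM_nonneg C l.length
    revert hred hlen hred' hlen' hredl hstart2 i1 c1
    refine Fin.cases ?_ (fun j' => ?_) i
    · intro hred hlen hred' hlen' hredl hstart2 i1 c1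
      have e : ∀ y : Fin (d + 1) → UU k, lt y 0 b = lt x 0 b →
          evL x u * evL y ((0, b) :: l) = evL x (u ++ [(0, b)]) * evL y l := by
        intro y hy
        rw [evL_cons, evL_append, evL_single, hy]
        simp only [mul_assoc]
      rw [e x rfl]
      have e1 : ∀ W : Fin d → UU k, evL x u * evL (pert x r W) ((0, b) :: l)
          = evL x (u ++ [(0, b)]) * evL (pert x r W) l := fun W => e _ (lt_pert_zero x r W b)
      simp_rw [e1]
      rw [phiL_zero]
      refine i1.trans ?_
      have h0 : (0 : ℝ) ≤ ‖B‖ := norm_nonneg _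
      have h1 : (0 : ℝ) ≤ κ + 1 / k := by positivity
      apply mul_le_mul_of_nonneg_right _ h1
      apply mul_le_mul_of_nonneg_left _ h0
      simp only [List.length_cons, MM]
      linarith
    · intro hred hlen hred' hlen' hredl hstart2 i1 c1
      have key : ∀ (a : Mat k) (u' : List (Fin (d + 1) × Bool)) (c : Mat k),
          (∀ W : Fin d → UU k, evL x u * evL (pert x r W) ((j'.succ, b) :: l)
            = ntr (lt r j' b) • (evL x (u ++ [(j'.succ, b)]) * evL (pert x r W) l) +
                a * (lt W j' false * c * lt W j' true) * evL x u' * evL (pert x r W) l) →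
          FreeGroup.IsReduced (u' ++ l) → (u' = [] → ∀ l', l ≠ (j'.succ, false) :: l') →
          u'.length + l.length ≤ N → ‖a‖ ≤ 1 → ‖c‖ ≤ 2 → c.trace = 0 →
          ‖(∫ W, ntr (B * (evL x u * evL (pert x r W) ((j'.succ, b) :: l))) ∂(haarP k (Fin d)))
            - phiL r ((j'.succ, b) :: l) * ntr (B * (evL x u * evL x ((j'.succ, b) :: l)))‖
            ≤ ‖B‖ * MM C ((j'.succ, b) :: l).length * (κ + 1 / k) := by
        intro a u' c he h1 h2 h3 h4 h6 h7
        have i2 := SB_all hk C hC0 hC x r N κ hκ hκ1 hs l u' [(j', false, c)] j' (B * a) h1 h2 h3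
          (fun a'' => by
            show List.IsChain _ ((j', false, c) :: [(j', true, a'')])
            rw [List.isChain_cons_cons]
            exact ⟨fun _ _ => h7, List.isChain_singleton _⟩)
          (by simpa [nrm] using h6)
        have e2 : ∀ W : Fin d → UU k, ntr (B * (evL x u * evL (pert x r W) ((j'.succ, b) :: l)))
            = ntr (lt r j' b) * ntr (B * (evL x (u ++ [(j'.succ, b)]) * evL (pert x r W) l)) +
              ntr ((B * a) * (evS W [(j', false, c)] * lt W j' true * evL x u'
                * evL (pert x r W) l)) := by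
          intro W
          rw [he W, mul_add, ntr_add, mul_smul_comm, ntr_smul]
          congr 2
          simp only [evS, mul_one, mul_assoc]
        have c2 : Continuous fun W : Fin d → UU k => ntr ((B * a) * (evS W [(j', false, c)] *
            lt W j' true * evL x u' * evL (pert x r W) l)) := by
          apply continuous_ntr.comp
          exact continuous_const.mul ((((continuous_evS _).mul (continuous_lt _ _)).mul
            continuous_const).mul cW)
        simp_rw [e2]
        rw [integral_add ((integrable_cont c1).const_mul _) (integrable_cont c2),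
          integral_const_mul, phiL_succ]
        have e3 : evL x u * evL x ((j'.succ, b) :: l) = evL x (u ++ [(j'.succ, b)]) * evL x l := by
          rw [evL_cons, evL_append, evL_single]; simp only [mul_assoc]
        rw [e3]
        have hBa : ‖B * a‖ ≤ ‖B‖ := by
          calc ‖B * a‖ ≤ ‖B‖ * ‖a‖ := norm_mul_le _ _
            _ ≤ ‖B‖ * 1 := mul_le_mul_of_nonneg_left h4 (norm_nonneg _)
            _ = ‖B‖ := mul_one _
        set I1 := ∫ W, ntr (B * (evL x (u ++ [(j'.succ, b)]) * evL (pert x r W) l))
          ∂(haarP k (Fin d))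
        set I2 := ∫ W, ntr ((B * a) * (evS W [(j', false, c)] * lt W j' true * evL x u'
                * evL (pert x r W) l)) ∂(haarP k (Fin d))
        have e4 : ntr (lt r j' b) * I1 + I2 - ntr (lt r j' b) * phiL r l *
            ntr (B * (evL x (u ++ [(j'.succ, b)]) * evL x l))
            = ntr (lt r j' b) * (I1 - phiL r l *
              ntr (B * (evL x (u ++ [(j'.succ, b)]) * evL x l))) + I2 := by ring
        rw [e4]
        refine (norm_add_le _ _).trans ?_
        rw [norm_mul]
        have n1 : ‖ntr (lt r j' b)‖ * ‖I1 - phiL r l *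
              ntr (B * (evL x (u ++ [(j'.succ, b)]) * evL x l))‖
              ≤ 1 * (‖B‖ * MM C l.length * (κ + 1 / k)) :=
          mul_le_mul (norm_ntr_lt_le r j' b) i1 (norm_nonneg _) zero_le_one
        have n2 : ‖I2‖ ≤ ‖B‖ * 2 * KK C l.length 1 * (κ + 1 / k) := by
          refine i2.trans ?_
          simp only [List.length_cons, List.length_nil, zero_add, pow_one]
          have h1 : (0 : ℝ) ≤ κ + 1 / k := by positivity
          gcongr
        refine (add_le_add n1 n2).trans (le_of_eq ?_)
        simp only [List.length_cons, MM]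
        ring
      cases b with
      | true =>
        apply key (evL x (u ++ [(j'.succ, true)])) [] (cen (lt r j' true))
        · intro W
          rw [evL_cons, lt_pert_true, evL_append, evL_single, evL_nil]
          simp only [mul_add, add_mul, mul_assoc, smul_mul_assoc, mul_smul_comm, mul_one, one_mul]
        · exact s2_sub hredl ⟨[(j'.succ, true)], [], by simp⟩
        · intro _; exact hstart2 (by decide)
        · simp only [List.length_append, List.length_cons, List.length_nil] at hlen ⊢; omega
        · exact norm_evL_le _ _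
        · exact norm_cen_le _ (norm_lt_le _ _ _)
        · exact trace_cen hk _
      | false =>
        apply key (evL x u) [(j'.succ, false)] (cen (lt r j' false))
        · intro W
          rw [evL_cons, lt_pert_false, evL_append, evL_single]
          simp only [mul_add, add_mul, mul_assoc, smul_mul_assoc, mul_smul_comm]
        · exact hredl
        · simp
        · simp only [List.length_append, List.length_cons, List.length_nil] at hlen ⊢; omega
        · exact norm_evL_le _ _
        · exact norm_cen_le _ (norm_lt_le _ _ _)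
        · exact trace_cen hk _

end PW

end S2x

open S2x in
theorem pertWord (d : ℕ) : ∃ C : ℕ → ℝ, (∀ N, 0 ≤ C N) ∧ ∀ (k : ℕ), 0 < k →
    ∀ (x : Fin (d + 1) → UU k) (r : Fin d → UU k) (N : ℕ) (κ : ℝ), 0 ≤ κ → κ ≤ 1 →
    SmallTr κ N x → ∀ w : FreeGroup (Fin (d + 1)), w.norm ≤ N → ∀ B : Mat k, ‖B‖ ≤ 1 →
    ‖(∫ W, ntr (B * wd (pert x r W) w) ∂(haarP k (Fin d))) - phi r w * ntr (B * wd x w)‖
      ≤ C N * (κ + 1 / k) := by
  obtain ⟨C, hC0, hC⟩ := asympFree
  refine ⟨MM C, MM_nonneg C, ?_⟩
  intro k hk x r N κ hκ hκ1 hs w hw B hB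
  have hk' : (0 : ℝ) < k := by exact_mod_cast hk
  have h := main_rec hk C hC0 (fun w hw0 hg => hC k hk (Fin d) w hw0 hg) x r N κ hκ hκ1 hs
    w.toWord [] B (by simpa using FreeGroup.isReduced_toWord) (by simpa [FreeGroup.norm] using hw)
  simp only [evL_nil, one_mul] at h
  have e : ∀ W : Fin d → UU k, (wd (pert x r W) w : Mat k) = evL (pert x r W) w.toWord :=
    fun W => wd_eq_evL _ _
  simp_rw [e, wd_eq_evL x w]
  refine h.trans ?_
  have h1 : (0 : ℝ) ≤ κ + 1 / k := by positivity
  apply mul_le_mul_of_nonneg_right _ h1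
  have h2 : MM C w.toWord.length ≤ MM C N := MM_mono C hw
  have h3 := MM_nonneg C w.toWord.length
  nlinarith [norm_nonneg B]

end Pool.Agent.H667R2.FG.TS2

namespace Pool.Agent.H667R2.FG

alias pertWord := TS2.pertWord

end Pool.Agent.H667R2.FG
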