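import Mathlib
import Pool.Agent.H667R2.FG.Defs
import Pool.Agent.H667R2.FG.OpDefs
import Pool.Agent.H667R2.FG.Herm
import Pool.Agent.H667R2.FG.THS
import Pool.Agent.H667R2.FG.TS2
import Pool.Agent.H667R2.FG.TPHI

/-! Task QUAD: most perturbations keep `F_j(y)` close to `u_j`. -/

namespace Pool.Agent.H667R2.FG.TQUAD

open MeasureTheory Matrix Filter
open scoped Matrix.Norms.L2Operator ComplexConjugate ENNReal

namespace Quad

variable {k : ℕ}

instance instSC : SecondCountableTopology (UU k) := by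
  have : SecondCountableTopology (Mat k) :=
    inferInstanceAs (SecondCountableTopology (Fin k → Fin k → ℂ))
  exact TopologicalSpace.Subtype.secondCountableTopology _

theorem continuous_pert {d : ℕ} (x : Fin (d + 1) → UU k) (r : Fin d → UU k) :
    Continuous (fun W : Fin d → UU k => pert x r W) := by
  unfold pert
  refine continuous_pi fun i => ?_
  refine Fin.cases ?_ (fun i => ?_) i
  · simp only [Fin.cons_zero]
    exact continuous_const
  · simp only [Fin.cons_succ]
    have h : Continuous fun W : Fin d → UU k => W i := continuous_apply i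
    exact ((continuous_const.mul h.inv).mul continuous_const).mul h

theorem cont_wd {d : ℕ} (x : Fin (d + 1) → UU k) (r : Fin d → UU k)
    (w : FreeGroup (Fin (d + 1))) :
    Continuous (fun W : Fin d → UU k => (wd (pert x r W) w : Mat k)) :=
  (continuous_wd w).comp (continuous_pert x r)

theorem integ {d : ℕ} {E : Type*} [NormedAddCommGroup E] [SecondCountableTopologyEither
    (Fin d → UU k) E] {f : (Fin d → UU k) → E} (hf : Continuous f) :
    Integrable f (haarP k (Fin d)) :=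
  hf.integrable_of_hasCompactSupport (HasCompactSupport.of_compactSpace f)

theorem expand {G : Type} (s : Finset G) (c : G → ℂ) (D : G → Mat k) :
    ((hs (∑ g ∈ s, c g • D g) ^ 2 : ℝ) : ℂ) =
      ∑ g ∈ s, ∑ h ∈ s, conj (c g) * c h * ntr ((D g)ᴴ * D h) := by
  rw [hs_sq_tr, Matrix.conjTranspose_sum, Finset.sum_mul]
  have hadd : ∀ (t : Finset G) (A : G → Mat k), ntr (∑ g ∈ t, A g) = ∑ g ∈ t, ntr (A g) := by
    intro t A
    unfold ntr
    rw [Matrix.trace_sum, Finset.mul_sum]
  rw [hadd]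
  apply Finset.sum_congr rfl
  intro g _
  rw [Finset.mul_sum, hadd]
  apply Finset.sum_congr rfl
  intro h _
  rw [Matrix.conjTranspose_smul, Matrix.smul_mul, Matrix.mul_smul, ntr_smul, ntr_smul]
  simp only [RCLike.star_def]
  ring

theorem quad_le {G : Type} [DecidableEq G] (s : Finset G) (c : G → ℂ) (E : G → G → ℂ) (a : G → ℝ)
    (η : ℝ) (h1 : ∀ g ∈ s, (E g g).re ≤ a g + η)
    (h2 : ∀ g ∈ s, ∀ h ∈ s, g ≠ h → ‖E g h‖ ≤ η) :
    (∑ g ∈ s, ∑ h ∈ s, conj (c g) * c h * E g h).re ≤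
      ∑ g ∈ s, ‖c g‖ ^ 2 * a g + η * (∑ g ∈ s, ‖c g‖) ^ 2 := by
  have key : ∀ g ∈ s, ∀ h ∈ s, (conj (c g) * c h * E g h).re ≤
      (if g = h then ‖c g‖ ^ 2 * a g else 0) + η * (‖c g‖ * ‖c h‖) := by
    intro g hg h hh
    by_cases hgh : g = h
    · subst hgh
      rw [if_pos rfl]
      have e : conj (c g) * c g = ((‖c g‖ ^ 2 : ℝ) : ℂ) := by
        rw [Complex.conj_mul']
        push_cast
        rfl
      rw [e, Complex.re_ofReal_mul]
      have := mul_le_mul_of_nonneg_left (h1 g hg) (sq_nonneg ‖c g‖)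
      nlinarith
    · rw [if_neg hgh, zero_add]
      calc (conj (c g) * c h * E g h).re ≤ ‖conj (c g) * c h * E g h‖ := Complex.re_le_norm _
        _ = ‖c g‖ * ‖c h‖ * ‖E g h‖ := by rw [norm_mul, norm_mul, RCLike.norm_conj]
        _ ≤ ‖c g‖ * ‖c h‖ * η :=
            mul_le_mul_of_nonneg_left (h2 g hg h hh hgh) (by positivity)
        _ = η * (‖c g‖ * ‖c h‖) := by ring
  rw [Complex.re_sum]
  calc ∑ g ∈ s, (∑ h ∈ s, conj (c g) * c h * E g h).re
      = ∑ g ∈ s, ∑ h ∈ s, (conj (c g) * c h * E g h).re := by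
        apply Finset.sum_congr rfl
        intro g _
        rw [Complex.re_sum]
    _ ≤ ∑ g ∈ s, ∑ h ∈ s, ((if g = h then ‖c g‖ ^ 2 * a g else 0) + η * (‖c g‖ * ‖c h‖)) :=
        Finset.sum_le_sum fun g hg => Finset.sum_le_sum fun h hh => key g hg h hh
    _ = ∑ g ∈ s, ‖c g‖ ^ 2 * a g + η * (∑ g ∈ s, ‖c g‖) ^ 2 := by
        have e1 : ∀ g ∈ s, ∑ h ∈ s, ((if g = h then ‖c g‖ ^ 2 * a g else 0) +
            η * (‖c g‖ * ‖c h‖)) = ‖c g‖ ^ 2 * a g + η * (‖c g‖ * ∑ h ∈ s, ‖c h‖) := by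
          intro g hg
          rw [Finset.sum_add_distrib, Finset.sum_ite_eq, if_pos hg, ← Finset.mul_sum,
            ← Finset.mul_sum]
        rw [Finset.sum_congr rfl e1, Finset.sum_add_distrib, ← Finset.mul_sum, ← Finset.sum_mul]
        ring

theorem wd_star_mul {n : ℕ} (x : Fin n → UU k) (g h : FreeGroup (Fin n)) :
    ((wd x g : Mat k))ᴴ * wd x h = wd x (g⁻¹ * h) := by
  rw [wd_mul, wd_inv]

theorem norm_wd_star {n : ℕ} (x : Fin n → UU k) (g : FreeGroup (Fin n)) :
    ‖((wd x g : Mat k))ᴴ‖ ≤ 1 := by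
  rw [← wd_inv]
  exact norm_wd_le x _

/-- Step A -/
theorem stepA {d : ℕ} (hk : 0 < k) (x : Fin (d + 1) → UU k) (r : Fin d → UU k) (N : ℕ)
    (κ δ : ℝ) (hκδ : κ ≤ δ) (hx : SmallTr κ (2 * N) x)
    (hp : ∀ w : FreeGroup (Fin (d + 1)), w.norm ≤ 2 * N → ∀ B : Mat k, ‖B‖ ≤ 1 →
      ‖(∫ W, ntr (B * wd (pert x r W) w) ∂(haarP k (Fin d))) - phi r w * ntr (B * wd x w)‖ ≤ δ)
    (f : FreeGroup (Fin (d + 1)) →₀ ℂ) (hf : ∀ w ∈ f.support, w.norm ≤ N) :
    ∫ W, hs ((pol (pert x r W) f : Mat k) - pol x f) ^ 2 ∂(haarP k (Fin d)) ≤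
      ∑ w ∈ f.support, ‖f w‖ ^ 2 * (2 * (1 - (phi r w).re)) +
        (7 * δ) * (∑ w ∈ f.support, ‖f w‖) ^ 2 := by
  classical
  set s := f.support with hs'
  set D : (Fin d → UU k) → FreeGroup (Fin (d + 1)) → Mat k :=
    fun W g => wd (pert x r W) g - wd x g with hD
  have hδ0 : 0 ≤ δ := le_trans (norm_nonneg _) (hp 1 (by simp) 0 (by simp))
  have hpol : ∀ W, (pol (pert x r W) f : Mat k) - pol x f = ∑ g ∈ s, f g • D W g := by
    intro W
    simp only [pol, Finsupp.sum, hD]
    rw [← Finset.sum_sub_distrib]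
    apply Finset.sum_congr rfl
    intro g _
    rw [smul_sub]
  have hDc : ∀ g, Continuous fun W => D W g := fun g => (cont_wd x r g).sub continuous_const
  have hDD : ∀ g h, Continuous fun W => ntr ((D W g)ᴴ * D W h) := fun g h =>
    continuous_ntr.comp ((hDc g).matrix_conjTranspose.matrix_mul (hDc h))
  -- the expectations
  set E : FreeGroup (Fin (d + 1)) → FreeGroup (Fin (d + 1)) → ℂ := fun g h =>
    ∫ W, ntr ((D W g)ᴴ * D W h) ∂(haarP k (Fin d)) with hE
  have hmain : ((∫ W, hs ((pol (pert x r W) f : Mat k) - pol x f) ^ 2 ∂(haarP k (Fin d)) : ℝ) : ℂ)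
      = ∑ g ∈ s, ∑ h ∈ s, conj (f g) * f h * E g h := by
    rw [← integral_complex_ofReal]
    have e1 : ∀ W, ((hs ((pol (pert x r W) f : Mat k) - pol x f) ^ 2 : ℝ) : ℂ) =
        ∑ g ∈ s, ∑ h ∈ s, conj (f g) * f h * ntr ((D W g)ᴴ * D W h) := by
      intro W
      rw [hpol W, expand]
    have i1 : ∀ g h, Integrable (fun W => conj (f g) * f h * ntr ((D W g)ᴴ * D W h))
        (haarP k (Fin d)) := fun g h => integ (continuous_const.mul (hDD g h))
    have i2 : ∀ g, Integrable (fun W => ∑ h ∈ s, conj (f g) * f h * ntr ((D W g)ᴴ * D W h))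
        (haarP k (Fin d)) := fun g => integ (continuous_finsetSum _ fun h _ =>
          continuous_const.mul (hDD g h))
    simp_rw [e1]
    rw [integral_finsetSum _ (fun g _ => i2 g)]
    apply Finset.sum_congr rfl
    intro g _
    rw [integral_finsetSum _ (fun h _ => i1 g h)]
    apply Finset.sum_congr rfl
    intro h _
    rw [integral_const_mul]
  have hre : ∫ W, hs ((pol (pert x r W) f : Mat k) - pol x f) ^ 2 ∂(haarP k (Fin d)) =
      (∑ g ∈ s, ∑ h ∈ s, conj (f g) * f h * E g h).re := by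
    rw [← hmain, Complex.ofReal_re]
  -- formula for the expectations
  have hEf : ∀ g h, E g h = (∫ W, ntr (1 * wd (pert x r W) (g⁻¹ * h)) ∂(haarP k (Fin d)))
      - conj (∫ W, ntr (((wd x h : Mat k))ᴴ * wd (pert x r W) g) ∂(haarP k (Fin d)))
      - (∫ W, ntr (((wd x g : Mat k))ᴴ * wd (pert x r W) h) ∂(haarP k (Fin d)))
      + ntr (wd x (g⁻¹ * h) : Mat k) := by
    intro g h
    have e1 : ∀ W, ntr ((D W g)ᴴ * D W h) = ntr (1 * wd (pert x r W) (g⁻¹ * h))
        - conj (ntr (((wd x h : Mat k))ᴴ * wd (pert x r W) g))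
        - ntr (((wd x g : Mat k))ᴴ * wd (pert x r W) h) + ntr (wd x (g⁻¹ * h) : Mat k) := by
      intro W
      rw [← ntr_conjTranspose, Matrix.conjTranspose_mul, Matrix.conjTranspose_conjTranspose,
        one_mul, ← wd_star_mul, ← wd_star_mul, ← ntr_sub, ← ntr_sub, ← ntr_add]
      congr 1
      simp only [hD]
      rw [Matrix.conjTranspose_sub, Matrix.sub_mul, Matrix.mul_sub, Matrix.mul_sub]
      abel
    have c1 : Continuous fun W => ntr (1 * wd (pert x r W) (g⁻¹ * h) : Mat k) :=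
      continuous_ntr.comp (continuous_const.matrix_mul (cont_wd x r _))
    have c2 : Continuous fun W => ntr (((wd x h : Mat k))ᴴ * wd (pert x r W) g) :=
      continuous_ntr.comp (continuous_const.matrix_mul (cont_wd x r _))
    have c3 : Continuous fun W => ntr (((wd x g : Mat k))ᴴ * wd (pert x r W) h) :=
      continuous_ntr.comp (continuous_const.matrix_mul (cont_wd x r _))
    have c2' : Continuous fun W => conj (ntr (((wd x h : Mat k))ᴴ * wd (pert x r W) g)) :=
      Complex.continuous_conj.comp c2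
    simp only [hE]
    simp_rw [e1]
    have j1 : Integrable (fun W => ntr (1 * wd (pert x r W) (g⁻¹ * h))
        - conj (ntr (((wd x h : Mat k))ᴴ * wd (pert x r W) g))) (haarP k (Fin d)) :=
      integ (c1.sub c2')
    have j2 : Integrable (fun W => ntr (1 * wd (pert x r W) (g⁻¹ * h))
        - conj (ntr (((wd x h : Mat k))ᴴ * wd (pert x r W) g))
        - ntr (((wd x g : Mat k))ᴴ * wd (pert x r W) h)) (haarP k (Fin d)) :=
      integ ((c1.sub c2').sub c3)
    rw [integral_add j2 (integrable_const _), integral_sub j1 (integ c3),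
      integral_sub (integ c1) (integ c2'), integral_conj, integral_const]
    simp
  rw [hre]
  refine quad_le s f E (fun w => 2 * (1 - (phi r w).re)) (7 * δ) ?_ ?_
  · -- diagonal terms
    intro g hg
    have hgN : g.norm ≤ 2 * N := by
      have := hf g hg
      omega
    rw [hEf g g, inv_mul_cancel]
    have hB := hp g hgN _ (norm_wd_star x g)
    rw [wd_star_mul, inv_mul_cancel, wd_one, ntr_one hk, mul_one] at hB
    set I := ∫ W, ntr (((wd x g : Mat k))ᴴ * wd (pert x r W) g) ∂(haarP k (Fin d)) with hI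
    have e2 : ∫ W, ntr (1 * wd (pert x r W) 1 : Mat k) ∂(haarP k (Fin d)) = 1 := by
      simp_rw [wd_one, mul_one, ntr_one hk]
      simp
    rw [e2, wd_one, ntr_one hk]
    have hIre : (phi r g).re - I.re ≤ δ := by
      have h1 : (phi r g - I).re ≤ ‖phi r g - I‖ := Complex.re_le_norm _
      rw [Complex.sub_re] at h1
      rw [norm_sub_rev] at hB
      linarith
    simp only [Complex.add_re, Complex.sub_re, Complex.one_re, Complex.conj_re]
    linarith
  · -- off diagonal terms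
    intro g hg h hh hgh
    have hgN : g.norm ≤ 2 * N := by
      have := hf g hg
      omega
    have hhN : h.norm ≤ 2 * N := by
      have := hf h hh
      omega
    have hghN : (g⁻¹ * h).norm ≤ 2 * N := by
      have h1 := FreeGroup.norm_mul_le g⁻¹ h
      rw [FreeGroup.norm_inv_eq] at h1
      have := hf g hg
      have := hf h hh
      omega
    have hhgN : (h⁻¹ * g).norm ≤ 2 * N := by
      have h1 := FreeGroup.norm_mul_le h⁻¹ g
      rw [FreeGroup.norm_inv_eq] at h1
      have := hf g hg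
      have := hf h hh
      omega
    have hne : g⁻¹ * h ≠ 1 := by
      intro h1
      exact hgh (inv_mul_eq_one.1 h1)
    have hne' : h⁻¹ * g ≠ 1 := by
      intro h1
      exact hgh (inv_mul_eq_one.1 h1).symm
    have t1 := hx _ hne hghN
    have t2 := hx _ hne' hhgN
    have hphi : ∀ w, ‖phi r w‖ ≤ 1 := norm_phi_le hk r
    have gen : ∀ (w : FreeGroup (Fin (d + 1))) (B : Mat k), w.norm ≤ 2 * N → ‖B‖ ≤ 1 →
        ‖ntr (B * wd x w)‖ ≤ κ →
        ‖∫ W, ntr (B * wd (pert x r W) w) ∂(haarP k (Fin d))‖ ≤ 2 * δ := by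
      intro w B hw hB hBw
      have h1 := hp w hw B hB
      have h2 : ‖phi r w * ntr (B * wd x w)‖ ≤ κ := by
        rw [norm_mul]
        calc ‖phi r w‖ * ‖ntr (B * wd x w)‖ ≤ 1 * κ :=
              mul_le_mul (hphi w) hBw (norm_nonneg _) zero_le_one
          _ = κ := one_mul κ
      have h3 := norm_le_norm_add_norm_sub' (∫ W, ntr (B * wd (pert x r W) w) ∂(haarP k (Fin d)))
        (phi r w * ntr (B * wd x w))
      linarith
    have b1 := gen (g⁻¹ * h) 1 hghN (by
      rcases subsingleton_or_nontrivial (Mat k) with h | h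
      · have : (1 : Mat k) = 0 := Subsingleton.elim _ _
        rw [this]; simp
      · rw [norm_one]) (by rw [one_mul]; exact t1)
    have b2 := gen g _ hgN (norm_wd_star x h) (by rw [wd_star_mul]; exact t2)
    have b3 := gen h _ hhN (norm_wd_star x g) (by rw [wd_star_mul]; exact t1)
    rw [hEf g h]
    calc _ ≤ ‖∫ W, ntr (1 * wd (pert x r W) (g⁻¹ * h)) ∂(haarP k (Fin d))‖
        + ‖conj (∫ W, ntr (((wd x h : Mat k))ᴴ * wd (pert x r W) g) ∂(haarP k (Fin d)))‖
        + ‖∫ W, ntr (((wd x g : Mat k))ᴴ * wd (pert x r W) h) ∂(haarP k (Fin d))‖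
        + ‖ntr (wd x (g⁻¹ * h) : Mat k)‖ := by
          refine (norm_add_le _ _).trans (add_le_add_left ?_ _)
          refine (norm_sub_le _ _).trans (add_le_add_left ?_ _)
          exact norm_sub_le _ _
      _ ≤ 2 * δ + 2 * δ + 2 * δ + δ := by
          rw [RCLike.norm_conj]
          linarith
      _ = 7 * δ := by ring

end Quad

open Quad in
theorem quadEst (m d N : ℕ) (F : Fin m → (FreeGroup (Fin (d + 1)) →₀ ℂ)) (ε : ℝ)
    (ρ : Fin m → ℝ) (hm : 0 < m) (hε : 0 < ε) (hε' : ε ≤ 1 / 10) (hρ : ∀ j, ε ≤ ρ j)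
    (hN : ∀ j, ∀ w ∈ (F j).support, w.norm ≤ N)
    (hF : ∀ j, ((F j).sum fun w c => ‖c‖ ^ 2 * min 1 ((blen w : ℝ) * ε ^ 2)) ≤ ρ j ^ 2) :
    ∃ κ > 0, ∃ β > 0, ∃ k₀ : ℕ, ∀ k ≥ k₀, 0 < k → ∀ (x : Fin (d + 1) → UU k) (u : Fin m → UU k),
      SmallTr κ (2 * N) x → (∀ j, hs ((pol x (F j) : Mat k) - (u j : Mat k)) ≤ 2 * ρ j) →
      ∀ r : Fin d → UU k, (∀ i, ‖(r i : Mat k) - 1‖ ≤ 4 * ε) →
        (∀ i, |(ntr (r i : Mat k)).im| ≤ β) →
        1 / 2 ≤ haarP k (Fin d)
          {W | ∀ j, hs ((pol (pert x r W) (F j) : Mat k) - (u j : Mat k)) ≤ 10 * √m * ρ j} := by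
  obtain ⟨C, hC0, hC⟩ := pertWord d
  set C' : ℝ := C (2 * N) with hC'
  have hC'0 : 0 ≤ C' := hC0 _
  set S1 : Fin m → ℝ := fun j => (∑ w ∈ (F j).support, ‖F j w‖) ^ 2 with hS1
  set S2 : Fin m → ℝ := fun j => ∑ w ∈ (F j).support, ‖F j w‖ ^ 2 with hS2
  have hS1n : ∀ j, 0 ≤ S1 j := fun j => sq_nonneg _
  have hS2n : ∀ j, 0 ≤ S2 j := fun j => Finset.sum_nonneg fun w _ => sq_nonneg _
  set M : ℝ := 1 + ∑ j, (S1 j + S2 j) with hM
  have hM1 : 1 ≤ M := by
    have : 0 ≤ ∑ j, (S1 j + S2 j) := Finset.sum_nonneg fun j _ => add_nonneg (hS1n j) (hS2n j)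
    linarith
  have hSM : ∀ j, S1 j ≤ M ∧ S2 j ≤ M := by
    intro j
    have h1 : S1 j + S2 j ≤ ∑ j, (S1 j + S2 j) :=
      Finset.single_le_sum (f := fun j => S1 j + S2 j)
        (fun j _ => add_nonneg (hS1n j) (hS2n j)) (Finset.mem_univ j)
    have := hS1n j
    have := hS2n j
    constructor <;> linarith
  set A : ℝ := 28 * (1 + C') * M with hA
  have hA1 : 28 ≤ A := by
    have : 1 ≤ (1 + C') * M := by nlinarith
    nlinarith
  have hApos : 0 < A := by linarith
  set κ : ℝ := ε ^ 2 / A with hκ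
  have hκpos : 0 < κ := by positivity
  have hκ1 : κ ≤ 1 := by
    rw [hκ, div_le_one hApos]
    nlinarith
  set β : ℝ := ε ^ 2 / (4 * (N + 1) * M) with hβ
  have hβpos : 0 < β := by positivity
  obtain ⟨k₀, hk₀⟩ := exists_nat_gt (1 / κ)
  refine ⟨κ, hκpos, β, hβpos, k₀, ?_⟩
  intro k hk hk0 x u hx hu r hr1 hr2
  have hkR : (0 : ℝ) < k := by exact_mod_cast hk0
  have hkinv : 1 / (k : ℝ) ≤ κ := by
    rw [div_le_iff₀ hkR]
    rw [div_lt_iff₀ hκpos] at hk₀
    have : (k₀ : ℝ) ≤ k := by exact_mod_cast hk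
    nlinarith
  set δ : ℝ := (1 + C') * (κ + 1 / k) with hδ
  have hδ2 : δ ≤ (1 + C') * (2 * κ) := by
    apply mul_le_mul_of_nonneg_left _ (by linarith)
    linarith
  have hκδ : κ ≤ δ := by
    have h1 : κ ≤ κ + 1 / (k : ℝ) := by
      have : 0 < 1 / (k : ℝ) := by positivity
      linarith
    have h2 : 1 * (κ + 1 / (k : ℝ)) ≤ (1 + C') * (κ + 1 / k) :=
      mul_le_mul_of_nonneg_right (by linarith) (by positivity)
    linarith
  have hp : ∀ w : FreeGroup (Fin (d + 1)), w.norm ≤ 2 * N → ∀ B : Mat k, ‖B‖ ≤ 1 →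
      ‖(∫ W, ntr (B * wd (pert x r W) w) ∂(haarP k (Fin d))) - phi r w * ntr (B * wd x w)‖
        ≤ δ := by
    intro w hw B hB
    refine (hC k hk0 x r (2 * N) κ hκpos.le hκ1 hx w hw B hB).trans ?_
    exact mul_le_mul_of_nonneg_right (by linarith) (by positivity)
  -- the expectations
  have hexp : ∀ j, ∫ W, hs ((pol (pert x r W) (F j) : Mat k) - pol x (F j)) ^ 2
      ∂(haarP k (Fin d)) ≤ 17 * ρ j ^ 2 := by
    intro j
    refine (stepA hk0 x r N κ δ hκδ hx hp (F j) (hN j)).trans ?_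
    have h1 : ∑ w ∈ (F j).support, ‖F j w‖ ^ 2 * (2 * (1 - (phi r w).re)) ≤
        16 * ρ j ^ 2 + 2 * N * β * S2 j := by
      calc ∑ w ∈ (F j).support, ‖F j w‖ ^ 2 * (2 * (1 - (phi r w).re))
          ≤ ∑ w ∈ (F j).support, (16 * (‖F j w‖ ^ 2 * min 1 ((blen w : ℝ) * ε ^ 2)) +
              2 * N * β * ‖F j w‖ ^ 2) := by
            apply Finset.sum_le_sum
            intro w hw
            have h2 := phi_bound r ε β hε hε' hβpos.le hr1 hr2 hk0 w
            have h3 : 2 * (w.norm : ℝ) * β ≤ 2 * N * β := by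
              have : (w.norm : ℝ) ≤ N := by exact_mod_cast hN j w hw
              nlinarith
            calc ‖F j w‖ ^ 2 * (2 * (1 - (phi r w).re))
                ≤ ‖F j w‖ ^ 2 * (16 * min 1 ((blen w : ℝ) * ε ^ 2) + 2 * N * β) :=
                  mul_le_mul_of_nonneg_left (by linarith) (sq_nonneg _)
              _ = _ := by ring
        _ = 16 * ((F j).sum fun w c => ‖c‖ ^ 2 * min 1 ((blen w : ℝ) * ε ^ 2)) +
              2 * N * β * S2 j := by
            rw [Finset.sum_add_distrib, ← Finset.mul_sum, ← Finset.mul_sum]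
            rfl
        _ ≤ 16 * ρ j ^ 2 + 2 * N * β * S2 j := by
            have := hF j
            linarith
    have h2 : 2 * N * β * S2 j ≤ ε ^ 2 / 2 := by
      have hN0 : (0 : ℝ) ≤ N := Nat.cast_nonneg N
      calc 2 * N * β * S2 j ≤ 2 * (N + 1) * β * M := by
            apply mul_le_mul _ (hSM j).2 (hS2n j) (by positivity)
            nlinarith
        _ = ε ^ 2 / 2 := by
            rw [hβ]
            field_simp
            norm_num
    have h3 : 7 * δ * S1 j ≤ ε ^ 2 / 2 := by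
      calc 7 * δ * S1 j ≤ 7 * ((1 + C') * (2 * κ)) * M := by
            apply mul_le_mul _ (hSM j).1 (hS1n j) (by positivity)
            linarith
        _ = ε ^ 2 / 2 := by
            rw [hκ, hA]
            have : (1 + C') ≠ 0 := by linarith
            field_simp
            norm_num
    have h4 : ε ^ 2 ≤ ρ j ^ 2 := pow_le_pow_left₀ hε.le (hρ j) 2
    have h5 : (7 * δ) * (∑ w ∈ (F j).support, ‖F j w‖) ^ 2 = 7 * δ * S1 j := rfl
    rw [h5]
    linarith
  -- the second moments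
  have hcont : ∀ j, Continuous fun W : Fin d → UU k =>
      hs ((pol (pert x r W) (F j) : Mat k) - (u j : Mat k)) ^ 2 := fun j =>
    (continuous_hs.comp (((continuous_pol (F j)).comp (continuous_pert x r)).sub
      continuous_const)).pow 2
  have hcont2 : ∀ j, Continuous fun W : Fin d → UU k =>
      hs ((pol (pert x r W) (F j) : Mat k) - pol x (F j)) ^ 2 := fun j =>
    (continuous_hs.comp (((continuous_pol (F j)).comp (continuous_pert x r)).sub
      continuous_const)).pow 2
  have hmom : ∀ j, ∫ W, hs ((pol (pert x r W) (F j) : Mat k) - (u j : Mat k)) ^ 2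
      ∂(haarP k (Fin d)) ≤ 42 * ρ j ^ 2 := by
    intro j
    have hρj : 0 ≤ ρ j := hε.le.trans (hρ j)
    calc ∫ W, hs ((pol (pert x r W) (F j) : Mat k) - (u j : Mat k)) ^ 2 ∂(haarP k (Fin d))
        ≤ ∫ W, (2 * hs ((pol (pert x r W) (F j) : Mat k) - pol x (F j)) ^ 2 + 8 * ρ j ^ 2)
            ∂(haarP k (Fin d)) := by
          apply integral_mono (integ (hcont j))
            (integ ((continuous_const.mul (hcont2 j)).add continuous_const))
          intro W
          have h1 : hs ((pol (pert x r W) (F j) : Mat k) - (u j : Mat k)) ≤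
              hs ((pol (pert x r W) (F j) : Mat k) - pol x (F j)) + 2 * ρ j := by
            have h2 := hs_add_le ((pol (pert x r W) (F j) : Mat k) - pol x (F j))
              ((pol x (F j) : Mat k) - (u j : Mat k))
            rw [sub_add_sub_cancel] at h2
            linarith [hu j]
          have h3 := hs_nonneg ((pol (pert x r W) (F j) : Mat k) - (u j : Mat k))
          have h4 := hs_nonneg ((pol (pert x r W) (F j) : Mat k) - pol x (F j))
          change hs ((pol (pert x r W) (F j) : Mat k) - (u j : Mat k)) ^ 2 ≤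
            2 * hs ((pol (pert x r W) (F j) : Mat k) - pol x (F j)) ^ 2 + 8 * ρ j ^ 2
          have h5 := pow_le_pow_left₀ h3 h1 2
          refine h5.trans ?_
          generalize hs ((pol (pert x r W) (F j) : Mat k) - pol x (F j)) = a
          have h6 := sq_nonneg (a - 2 * ρ j)
          have e1 : (a + 2 * ρ j) ^ 2 = a ^ 2 + 4 * (a * ρ j) + 4 * ρ j ^ 2 := by ring
          have e2 : (a - 2 * ρ j) ^ 2 = a ^ 2 - 4 * (a * ρ j) + 4 * ρ j ^ 2 := by ring
          rw [e2] at h6
          rw [e1]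
          linarith
      _ = 2 * ∫ W, hs ((pol (pert x r W) (F j) : Mat k) - pol x (F j)) ^ 2 ∂(haarP k (Fin d)) +
            8 * ρ j ^ 2 := by
          have j1 : Integrable (fun W => 2 * hs ((pol (pert x r W) (F j) : Mat k) -
            pol x (F j)) ^ 2) (haarP k (Fin d)) := integ (continuous_const.mul (hcont2 j))
          rw [integral_add j1 (integrable_const _), integral_const_mul, integral_const]
          simp
      _ ≤ 42 * ρ j ^ 2 := by
          have := hexp j
          linarith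
  -- Markov
  have hmR : (0 : ℝ) < m := by exact_mod_cast hm
  have hbad : ∀ j, haarP k (Fin d)
      {W | 100 * m * ρ j ^ 2 ≤ hs ((pol (pert x r W) (F j) : Mat k) - (u j : Mat k)) ^ 2} ≤
        ENNReal.ofReal (1 / (2 * m)) := by
    intro j
    have hρj : 0 < ρ j := hε.trans_le (hρ j)
    have h1 := mul_meas_ge_le_integral_of_nonneg (μ := haarP k (Fin d))
      (f := fun W => hs ((pol (pert x r W) (F j) : Mat k) - (u j : Mat k)) ^ 2)
      (Filter.Eventually.of_forall fun W => sq_nonneg _) (integ (hcont j)) (100 * m * ρ j ^ 2)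
    have h2 : (haarP k (Fin d)).real
        {W | 100 * m * ρ j ^ 2 ≤ hs ((pol (pert x r W) (F j) : Mat k) - (u j : Mat k)) ^ 2} ≤
          1 / (2 * m) := by
      rw [le_div_iff₀ (by positivity)]
      have h3 := h1.trans (hmom j)
      set P := (haarP k (Fin d)).real
        {W | 100 * m * ρ j ^ 2 ≤ hs ((pol (pert x r W) (F j) : Mat k) - (u j : Mat k)) ^ 2}
      have h4 : (P * (2 * m)) * (50 * ρ j ^ 2) ≤ 1 * (50 * ρ j ^ 2) := by nlinarith [sq_nonneg (ρ j)]
      exact le_of_mul_le_mul_right h4 (by positivity)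
    rw [← ENNReal.ofReal_toReal (measure_ne_top (haarP k (Fin d)) _)]
    exact ENNReal.ofReal_le_ofReal h2
  have hcover : (Set.univ : Set (Fin d → UU k)) ⊆
      {W | ∀ j, hs ((pol (pert x r W) (F j) : Mat k) - (u j : Mat k)) ≤ 10 * √m * ρ j} ∪
      ⋃ j, {W | 100 * m * ρ j ^ 2 ≤
        hs ((pol (pert x r W) (F j) : Mat k) - (u j : Mat k)) ^ 2} := by
    intro W _
    by_cases h : ∀ j, hs ((pol (pert x r W) (F j) : Mat k) - (u j : Mat k)) ≤ 10 * √m * ρ j
    · exact Or.inl h
    · right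
      push Not at h
      obtain ⟨j, hj⟩ := h
      rw [Set.mem_iUnion]
      refine ⟨j, ?_⟩
      have hρj : 0 < ρ j := hε.trans_le (hρ j)
      have h1 : (10 * √m * ρ j) ^ 2 ≤
          hs ((pol (pert x r W) (F j) : Mat k) - (u j : Mat k)) ^ 2 :=
        pow_le_pow_left₀ (by positivity) hj.le 2
      have h2 : (10 * √m * ρ j) ^ 2 = 100 * m * ρ j ^ 2 := by
        rw [mul_pow, mul_pow, Real.sq_sqrt hmR.le]
        ring
      rw [h2] at h1
      exact h1
  have h1 : (1 : ℝ≥0∞) ≤ haarP k (Fin d)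
      {W | ∀ j, hs ((pol (pert x r W) (F j) : Mat k) - (u j : Mat k)) ≤ 10 * √m * ρ j} + 1 / 2 := by
    calc (1 : ℝ≥0∞) = haarP k (Fin d) Set.univ := measure_univ.symm
      _ ≤ _ := measure_mono hcover
      _ ≤ haarP k (Fin d)
          {W | ∀ j, hs ((pol (pert x r W) (F j) : Mat k) - (u j : Mat k)) ≤ 10 * √m * ρ j} +
          haarP k (Fin d) (⋃ j, {W | 100 * m * ρ j ^ 2 ≤
            hs ((pol (pert x r W) (F j) : Mat k) - (u j : Mat k)) ^ 2}) := measure_union_le _ _
      _ ≤ _ := by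
          apply add_le_add_right
          refine (measure_iUnion_fintype_le _ _).trans ?_
          calc ∑ j, haarP k (Fin d) {W | 100 * m * ρ j ^ 2 ≤
                hs ((pol (pert x r W) (F j) : Mat k) - (u j : Mat k)) ^ 2}
              ≤ ∑ _j : Fin m, ENNReal.ofReal (1 / (2 * m)) := Finset.sum_le_sum fun j _ => hbad j
            _ = 1 / 2 := by
                rw [Finset.sum_const, Finset.card_univ, Fintype.card_fin, nsmul_eq_mul,
                  ← ENNReal.ofReal_natCast, ← ENNReal.ofReal_mul (by positivity)]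
                have : (m : ℝ) * (1 / (2 * m)) = 1 / 2 := by field_simp
                rw [this, ENNReal.ofReal_div_of_pos (by norm_num)]
                simp
  have h2 : (1 : ℝ≥0∞) / 2 + 1 / 2 = 1 := ENNReal.add_halves 1
  exact (ENNReal.add_le_add_iff_right (by simp)).1 (h2.le.trans h1)

end Pool.Agent.H667R2.FG.TQUAD

namespace Pool.Agent.H667R2.FG

alias quadEst := TQUAD.quadEst

end Pool.Agent.H667R2.FG
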