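import Mathlib
import Pool.Agent.H667R2.FG.Defs
import Pool.Agent.H667R2.FG.OpDefs
import Pool.Agent.H667R2.FG.Herm
import Pool.Agent.H667R2.FG.THS
import Pool.Agent.H667R2.FG.TS2
import Pool.Agent.H667R2.FG.TPHI
import Pool.Agent.H667R2.FG.TQUAD

/-! Quadratic estimate with a family of radii (constants independent of the number of
generators). -/

namespace Pool.Agent.H667R2.FG

open MeasureTheory Matrix Filter
open scoped Matrix.Norms.L2Operator ComplexConjugate ENNReal

/-- the family of radii `2^{t_j} ρ_j` with `∑ t_j ≤ 43 m` -/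
noncomputable def famA (m : ℕ) (ρ : Fin m → ℝ) : Finset (Fin m → ℝ) :=
  ((Fintype.piFinset fun _ : Fin m => Finset.range (43 * m + 1)).filter
    (fun t => ∑ j, t j ≤ 43 * m)).image (fun t j => 2 ^ (t j) * ρ j)

theorem mem_famA (m : ℕ) (ρ : Fin m → ℝ) (t : Fin m → ℕ) (ht : ∑ j, t j ≤ 43 * m) :
    (fun j => 2 ^ (t j) * ρ j) ∈ famA m ρ := by
  unfold famA
  rw [Finset.mem_image]
  refine ⟨t, ?_, rfl⟩
  rw [Finset.mem_filter, Fintype.mem_piFinset]
  refine ⟨fun j => ?_, ht⟩
  rw [Finset.mem_range]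
  have : t j ≤ ∑ j, t j := Finset.single_le_sum (fun _ _ => Nat.zero_le _) (Finset.mem_univ j)
  omega

theorem exists_pow (x : ℝ) (hx : 0 ≤ x) : ∃ t : ℕ, x ≤ 2 ^ t ∧ (t : ℝ) ≤ (1 + x ^ 2) / 2 := by
  classical
  have h1 : ∃ t : ℕ, x ≤ 2 ^ t := by
    obtain ⟨n, hn⟩ := exists_nat_ge x
    refine ⟨n, hn.trans ?_⟩
    exact_mod_cast Nat.lt_two_pow_self.le
  refine ⟨Nat.find h1, Nat.find_spec h1, ?_⟩
  rcases Nat.eq_zero_or_pos (Nat.find h1) with h0 | h0
  · rw [h0]; push_cast; positivity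
  · have h2 := Nat.find_min h1 (m := Nat.find h1 - 1) (by omega)
    push Not at h2
    have h3 : (Nat.find h1 : ℝ) ≤ 2 ^ (Nat.find h1 - 1) := by
      have h4 : Nat.find h1 ≤ 2 ^ (Nat.find h1 - 1) := by
        have := Nat.lt_two_pow_self (n := Nat.find h1 - 1)
        omega
      exact_mod_cast h4
    nlinarith [sq_nonneg (x - 1)]

open TQUAD TQUAD.Quad in
theorem quadEst' (m d N : ℕ) (F : Fin m → (FreeGroup (Fin (d + 1)) →₀ ℂ)) (ε : ℝ)
    (ρ : Fin m → ℝ) (hm : 0 < m) (hε : 0 < ε) (hε' : ε ≤ 1 / 10) (hρ : ∀ j, ε ≤ ρ j)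
    (hN : ∀ j, ∀ w ∈ (F j).support, w.norm ≤ N)
    (hF : ∀ j, ((F j).sum fun w c => ‖c‖ ^ 2 * min 1 ((blen w : ℝ) * ε ^ 2)) ≤ ρ j ^ 2) :
    ∃ κ > 0, ∃ β > 0, ∃ k₀ : ℕ, ∀ k ≥ k₀, 0 < k → ∀ (x : Fin (d + 1) → UU k) (u : Fin m → UU k),
      SmallTr κ (2 * N) x → (∀ j, hs ((pol x (F j) : Mat k) - (u j : Mat k)) ≤ 2 * ρ j) →
      ∀ r : Fin d → UU k, (∀ i, ‖(r i : Mat k) - 1‖ ≤ 4 * ε) →
        (∀ i, |(ntr (r i : Mat k)).im| ≤ β) →
        1 / 2 ≤ haarP k (Fin d)
          {W | ∃ A ∈ famA m ρ, ∀ j,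
            hs ((pol (pert x r W) (F j) : Mat k) - (u j : Mat k)) ≤ A j} := by
  obtain ⟨C, hC0, hC⟩ := pertWord d
  set C' : ℝ := C (2 * N) with hC'
  have hC'0 : 0 ≤ C' := hC0 _
  set S1 : Fin m → ℝ := fun j => (∑ w ∈ (F j).support, ‖F j w‖) ^ 2 with hS1
  set S2 : Fin m → ℝ := fun j => ∑ w ∈ (F j).support, ‖F j w‖ ^ 2 with hS2
  have hS1n : ∀ j, 0 ≤ S1 j := fun j => sq_nonneg _
  have hS2n : ∀ j, 0 ≤ S2 j := fun j => Finset.sum_nonneg fun w _ => sq_nonneg _
  set M : ℝ := 1 + ∑ j, (S1 j + S2 j) with hM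
  have hM1 : 1 ≤ M := by
    have : 0 ≤ ∑ j, (S1 j + S2 j) := Finset.sum_nonneg fun j _ => add_nonneg (hS1n j) (hS2n j)
    linarith
  have hSM : ∀ j, S1 j ≤ M ∧ S2 j ≤ M := by
    intro j
    have h1 : S1 j + S2 j ≤ ∑ j, (S1 j + S2 j) :=
      Finset.single_le_sum (f := fun j => S1 j + S2 j)
        (fun j _ => add_nonneg (hS1n j) (hS2n j)) (Finset.mem_univ j)
    have := hS1n j
    have := hS2n j
    constructor <;> linarith
  set A : ℝ := 28 * (1 + C') * M with hA
  have hA1 : 28 ≤ A := by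
    have : 1 ≤ (1 + C') * M := by nlinarith
    nlinarith
  have hApos : 0 < A := by linarith
  set κ : ℝ := ε ^ 2 / A with hκ
  have hκpos : 0 < κ := by positivity
  have hκ1 : κ ≤ 1 := by
    rw [hκ, div_le_one hApos]
    nlinarith
  set β : ℝ := ε ^ 2 / (4 * (N + 1) * M) with hβ
  have hβpos : 0 < β := by positivity
  obtain ⟨k₀, hk₀⟩ := exists_nat_gt (1 / κ)
  refine ⟨κ, hκpos, β, hβpos, k₀, ?_⟩
  intro k hk hk0 x u hx hu r hr1 hr2
  have hkR : (0 : ℝ) < k := by exact_mod_cast hk0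
  have hkinv : 1 / (k : ℝ) ≤ κ := by
    rw [div_le_iff₀ hkR]
    rw [div_lt_iff₀ hκpos] at hk₀
    have : (k₀ : ℝ) ≤ k := by exact_mod_cast hk
    nlinarith
  set δ : ℝ := (1 + C') * (κ + 1 / k) with hδ
  have hδ2 : δ ≤ (1 + C') * (2 * κ) := by
    apply mul_le_mul_of_nonneg_left _ (by linarith)
    linarith
  have hκδ : κ ≤ δ := by
    have h1 : κ ≤ κ + 1 / (k : ℝ) := by
      have : 0 < 1 / (k : ℝ) := by positivity
      linarith
    have h2 : 1 * (κ + 1 / (k : ℝ)) ≤ (1 + C') * (κ + 1 / k) :=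
      mul_le_mul_of_nonneg_right (by linarith) (by positivity)
    linarith
  have hp : ∀ w : FreeGroup (Fin (d + 1)), w.norm ≤ 2 * N → ∀ B : Mat k, ‖B‖ ≤ 1 →
      ‖(∫ W, ntr (B * wd (pert x r W) w) ∂(haarP k (Fin d))) - phi r w * ntr (B * wd x w)‖
        ≤ δ := by
    intro w hw B hB
    refine (hC k hk0 x r (2 * N) κ hκpos.le hκ1 hx w hw B hB).trans ?_
    exact mul_le_mul_of_nonneg_right (by linarith) (by positivity)
  -- the expectations
  have hexp : ∀ j, ∫ W, hs ((pol (pert x r W) (F j) : Mat k) - pol x (F j)) ^ 2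
      ∂(haarP k (Fin d)) ≤ 17 * ρ j ^ 2 := by
    intro j
    refine (stepA hk0 x r N κ δ hκδ hx hp (F j) (hN j)).trans ?_
    have h1 : ∑ w ∈ (F j).support, ‖F j w‖ ^ 2 * (2 * (1 - (phi r w).re)) ≤
        16 * ρ j ^ 2 + 2 * N * β * S2 j := by
      calc ∑ w ∈ (F j).support, ‖F j w‖ ^ 2 * (2 * (1 - (phi r w).re))
          ≤ ∑ w ∈ (F j).support, (16 * (‖F j w‖ ^ 2 * min 1 ((blen w : ℝ) * ε ^ 2)) +
              2 * N * β * ‖F j w‖ ^ 2) := by
            apply Finset.sum_le_sum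
            intro w hw
            have h2 := phi_bound r ε β hε hε' hβpos.le hr1 hr2 hk0 w
            have h3 : 2 * (w.norm : ℝ) * β ≤ 2 * N * β := by
              have : (w.norm : ℝ) ≤ N := by exact_mod_cast hN j w hw
              nlinarith
            calc ‖F j w‖ ^ 2 * (2 * (1 - (phi r w).re))
                ≤ ‖F j w‖ ^ 2 * (16 * min 1 ((blen w : ℝ) * ε ^ 2) + 2 * N * β) :=
                  mul_le_mul_of_nonneg_left (by linarith) (sq_nonneg _)
              _ = _ := by ring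
        _ = 16 * ((F j).sum fun w c => ‖c‖ ^ 2 * min 1 ((blen w : ℝ) * ε ^ 2)) +
              2 * N * β * S2 j := by
            rw [Finset.sum_add_distrib, ← Finset.mul_sum, ← Finset.mul_sum]
            rfl
        _ ≤ 16 * ρ j ^ 2 + 2 * N * β * S2 j := by
            have := hF j
            linarith
    have h2 : 2 * N * β * S2 j ≤ ε ^ 2 / 2 := by
      have hN0 : (0 : ℝ) ≤ N := Nat.cast_nonneg N
      calc 2 * N * β * S2 j ≤ 2 * (N + 1) * β * M := by
            apply mul_le_mul _ (hSM j).2 (hS2n j) (by positivity)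
            nlinarith
        _ = ε ^ 2 / 2 := by
            rw [hβ]
            field_simp
            norm_num
    have h3 : 7 * δ * S1 j ≤ ε ^ 2 / 2 := by
      calc 7 * δ * S1 j ≤ 7 * ((1 + C') * (2 * κ)) * M := by
            apply mul_le_mul _ (hSM j).1 (hS1n j) (by positivity)
            linarith
        _ = ε ^ 2 / 2 := by
            rw [hκ, hA]
            have : (1 + C') ≠ 0 := by linarith
            field_simp
            norm_num
    have h4 : ε ^ 2 ≤ ρ j ^ 2 := pow_le_pow_left₀ hε.le (hρ j) 2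
    have h5 : (7 * δ) * (∑ w ∈ (F j).support, ‖F j w‖) ^ 2 = 7 * δ * S1 j := rfl
    rw [h5]
    linarith
  -- the second moments
  have hcont : ∀ j, Continuous fun W : Fin d → UU k =>
      hs ((pol (pert x r W) (F j) : Mat k) - (u j : Mat k)) ^ 2 := fun j =>
    (continuous_hs.comp (((continuous_pol (F j)).comp (continuous_pert x r)).sub
      continuous_const)).pow 2
  have hcont2 : ∀ j, Continuous fun W : Fin d → UU k =>
      hs ((pol (pert x r W) (F j) : Mat k) - pol x (F j)) ^ 2 := fun j =>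
    (continuous_hs.comp (((continuous_pol (F j)).comp (continuous_pert x r)).sub
      continuous_const)).pow 2
  have hmom : ∀ j, ∫ W, hs ((pol (pert x r W) (F j) : Mat k) - (u j : Mat k)) ^ 2
      ∂(haarP k (Fin d)) ≤ 42 * ρ j ^ 2 := by
    intro j
    have hρj : 0 ≤ ρ j := hε.le.trans (hρ j)
    calc ∫ W, hs ((pol (pert x r W) (F j) : Mat k) - (u j : Mat k)) ^ 2 ∂(haarP k (Fin d))
        ≤ ∫ W, (2 * hs ((pol (pert x r W) (F j) : Mat k) - pol x (F j)) ^ 2 + 8 * ρ j ^ 2)
            ∂(haarP k (Fin d)) := by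
          apply integral_mono (integ (hcont j))
            (integ ((continuous_const.mul (hcont2 j)).add continuous_const))
          intro W
          have h1 : hs ((pol (pert x r W) (F j) : Mat k) - (u j : Mat k)) ≤
              hs ((pol (pert x r W) (F j) : Mat k) - pol x (F j)) + 2 * ρ j := by
            have h2 := hs_add_le ((pol (pert x r W) (F j) : Mat k) - pol x (F j))
              ((pol x (F j) : Mat k) - (u j : Mat k))
            rw [sub_add_sub_cancel] at h2
            linarith [hu j]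
          have h3 := hs_nonneg ((pol (pert x r W) (F j) : Mat k) - (u j : Mat k))
          have h4 := hs_nonneg ((pol (pert x r W) (F j) : Mat k) - pol x (F j))
          change hs ((pol (pert x r W) (F j) : Mat k) - (u j : Mat k)) ^ 2 ≤
            2 * hs ((pol (pert x r W) (F j) : Mat k) - pol x (F j)) ^ 2 + 8 * ρ j ^ 2
          have h5 := pow_le_pow_left₀ h3 h1 2
          refine h5.trans ?_
          generalize hs ((pol (pert x r W) (F j) : Mat k) - pol x (F j)) = a
          have h6 := sq_nonneg (a - 2 * ρ j)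
          have e1 : (a + 2 * ρ j) ^ 2 = a ^ 2 + 4 * (a * ρ j) + 4 * ρ j ^ 2 := by ring
          have e2 : (a - 2 * ρ j) ^ 2 = a ^ 2 - 4 * (a * ρ j) + 4 * ρ j ^ 2 := by ring
          rw [e2] at h6
          rw [e1]
          linarith
      _ = 2 * ∫ W, hs ((pol (pert x r W) (F j) : Mat k) - pol x (F j)) ^ 2 ∂(haarP k (Fin d)) +
            8 * ρ j ^ 2 := by
          have j1 : Integrable (fun W => 2 * hs ((pol (pert x r W) (F j) : Mat k) -
            pol x (F j)) ^ 2) (haarP k (Fin d)) := integ (continuous_const.mul (hcont2 j))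
          rw [integral_add j1 (integrable_const _), integral_const_mul, integral_const]
          simp
      _ ≤ 42 * ρ j ^ 2 := by
          have := hexp j
          linarith
  -- Markov
  have hmR : (0 : ℝ) < m := by exact_mod_cast hm
  have hρp : ∀ j, 0 < ρ j := fun j => hε.trans_le (hρ j)
  set f : (Fin d → UU k) → ℝ := fun W => ∑ j, hs ((pol (pert x r W) (F j) : Mat k) -
    (u j : Mat k)) ^ 2 / ρ j ^ 2 with hf
  have hfc : Continuous f := by
    apply continuous_finset_sum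
    intro j _
    exact (hcont j).div_const _
  have hfi : ∫ W, f W ∂(haarP k (Fin d)) ≤ 42 * m := by
    rw [hf, integral_finset_sum _ (fun j _ => integ ((hcont j).div_const _))]
    calc ∑ j, ∫ W, hs ((pol (pert x r W) (F j) : Mat k) - (u j : Mat k)) ^ 2 / ρ j ^ 2
          ∂(haarP k (Fin d)) ≤ ∑ _j : Fin m, (42 : ℝ) := by
          apply Finset.sum_le_sum
          intro j _
          rw [integral_div, div_le_iff₀ (by have := hρp j; positivity)]
          exact hmom j
      _ = 42 * m := by simp [mul_comm]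
  have hbad : haarP k (Fin d) {W | 84 * (m : ℝ) ≤ f W} ≤ 1 / 2 := by
    have h1 := mul_meas_ge_le_integral_of_nonneg (μ := haarP k (Fin d)) (f := f)
      (Filter.Eventually.of_forall fun W => Finset.sum_nonneg fun j _ => by
        have := hρp j; positivity) (integ hfc) (84 * (m : ℝ))
    have h2 : (haarP k (Fin d)).real {W | 84 * (m : ℝ) ≤ f W} ≤ 1 / 2 := by
      have h3 := h1.trans hfi
      set P := (haarP k (Fin d)).real {W | 84 * (m : ℝ) ≤ f W}
      nlinarith
    rw [← ENNReal.ofReal_toReal (measure_ne_top (haarP k (Fin d)) _)]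
    refine (ENNReal.ofReal_le_ofReal h2).trans ?_
    rw [ENNReal.ofReal_div_of_pos (by norm_num)]
    simp
  have hcover : (Set.univ : Set (Fin d → UU k)) ⊆
      {W | ∃ A ∈ famA m ρ, ∀ j, hs ((pol (pert x r W) (F j) : Mat k) - (u j : Mat k)) ≤ A j} ∪
      {W | 84 * (m : ℝ) ≤ f W} := by
    intro W _
    by_cases h : 84 * (m : ℝ) ≤ f W
    · exact Or.inr h
    · left
      push Not at h
      choose t ht1 ht2 using fun j => exists_pow
        (hs ((pol (pert x r W) (F j) : Mat k) - (u j : Mat k)) / ρ j)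
        (div_nonneg (hs_nonneg _) (hρp j).le)
      have h3 : (∑ j, (t j : ℝ)) ≤ (m + f W) / 2 := by
        calc (∑ j, (t j : ℝ)) ≤ ∑ j, (1 + (hs ((pol (pert x r W) (F j) : Mat k) -
              (u j : Mat k)) / ρ j) ^ 2) / 2 := Finset.sum_le_sum fun j _ => ht2 j
          _ = (m + f W) / 2 := by
            rw [← Finset.sum_div, Finset.sum_add_distrib]
            simp [hf, div_pow]
      have h4 : ∑ j, t j ≤ 43 * m := by
        have h5 : (∑ j, (t j : ℝ)) ≤ 43 * m := by linarith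
        exact_mod_cast h5
      refine ⟨_, mem_famA m ρ t h4, fun j => ?_⟩
      have h6 := ht1 j
      rw [div_le_iff₀ (hρp j)] at h6
      exact h6
  have h1 : (1 : ℝ≥0∞) ≤ haarP k (Fin d)
      {W | ∃ A ∈ famA m ρ, ∀ j, hs ((pol (pert x r W) (F j) : Mat k) - (u j : Mat k)) ≤ A j}
        + 1 / 2 := by
    calc (1 : ℝ≥0∞) = haarP k (Fin d) Set.univ := measure_univ.symm
      _ ≤ _ := measure_mono hcover
      _ ≤ _ := measure_union_le _ _
      _ ≤ _ := by gcongr
  have h2 : (1 : ℝ≥0∞) / 2 + 1 / 2 = 1 := ENNReal.add_halves 1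
  exact (ENNReal.add_le_add_iff_right (by simp)).1 (h2.le.trans h1)

end Pool.Agent.H667R2.FG
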