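import Mathlib
import Pool.Agent.H667R2.FG.Defs
import Pool.Agent.H667R2.FG.OpDefs
import Pool.Agent.H667R2.FG.Herm
import Pool.Agent.H667R2.FG.THS
import Pool.Agent.H667R2.FG.TQUAD2
import Pool.Agent.H667R2.FG.TPHASE
import Pool.Agent.H667R2.FG.TDIAG
import Pool.Agent.H667R2.FG.TORB
import Pool.Agent.H667R2.FG.TFUB2

/-! The matrix inequality. -/

namespace Pool.Agent.H667R2.FG.TMT2

open MeasureTheory Matrix Filter
open scoped Matrix.Norms.L2Operator ComplexConjugate ENNReal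

theorem one_le_of_limit (M c a : ℝ) (hM : 0 ≤ M) (hc : 0 ≤ c) (ha : 0 ≤ a)
    (h : ∀ᶠ k : ℕ in atTop, 1 / 4 ≤ M * c ^ k * a ^ (k ^ 2)) : 1 ≤ a := by
  by_contra hlt
  push Not at hlt
  -- c * a ^ k → 0
  have h1 : Tendsto (fun k : ℕ => c * a ^ k) atTop (nhds 0) := by
    have := (tendsto_pow_atTop_nhds_zero_of_lt_one ha hlt).const_mul c
    simpa using this
  have h2 : ∀ᶠ k : ℕ in atTop, c * a ^ k ≤ 1 / 2 := by
    have := h1.eventually (gt_mem_nhds (by norm_num : (0 : ℝ) < 1 / 2))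
    exact this.mono fun k hk => hk.le
  have h3 : Tendsto (fun k : ℕ => M * (1 / 2 : ℝ) ^ k) atTop (nhds 0) := by
    have := (tendsto_pow_atTop_nhds_zero_of_lt_one (by norm_num : (0 : ℝ) ≤ 1 / 2)
      (by norm_num)).const_mul M
    simpa using this
  have h4 : ∀ᶠ k : ℕ in atTop, M * (1 / 2 : ℝ) ^ k < 1 / 4 :=
    h3.eventually (gt_mem_nhds (by norm_num))
  obtain ⟨k, hk1, hk2, hk3⟩ := (h.and (h2.and h4)).exists
  have h5 : c ^ k * a ^ (k ^ 2) ≤ (1 / 2 : ℝ) ^ k := by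
    have : c ^ k * a ^ (k ^ 2) = (c * a ^ k) ^ k := by
      rw [mul_pow, ← pow_mul]; congr 2; ring
    rw [this]
    exact pow_le_pow_left₀ (by positivity) hk2 k
  have h6 : M * c ^ k * a ^ (k ^ 2) ≤ M * (1 / 2 : ℝ) ^ k := by
    rw [mul_assoc]
    exact mul_le_mul_of_nonneg_left h5 hM
  linarith

/-- right multiplication of all coordinates preserves the product Haar measure -/
theorem haarP_right {k d : ℕ} (V : UU k) (E : Set (Fin d → UU k)) (hE : MeasurableSet E) :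
    haarP k (Fin d) {V' | (fun i => V' i * V) ∈ E} = haarP k (Fin d) E := by
  have h : MeasurePreserving (fun V' : Fin d → UU k => fun i => V' i * V)
      (haarP k (Fin d)) (haarP k (Fin d)) := by
    exact measurePreserving_pi (fun _ : Fin d => haarU k) (fun _ : Fin d => haarU k)
      (fun i => measurePreserving_mul_right (haarU k) V)
  exact h.measure_preimage hE.nullMeasurableSet

theorem continuous_pert {k d : ℕ} (x : Fin (d + 1) → UU k) (r : Fin d → UU k) :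
    Continuous fun W : Fin d → UU k => pert x r W := by
  refine continuous_pi fun i => ?_
  refine Fin.cases ?_ (fun j => ?_) i
  · simpa [pert] using continuous_const
  · simp only [pert, Fin.cons_succ]
    fun_prop

theorem key (k m d : ℕ) (hk : 0 < k) (hm : 0 < m) (F : Fin m → (FreeGroup (Fin (d + 1)) →₀ ℂ))
    (C₁ C₂ C₃ L ε ε₁ ρ₀ β κ₀ : ℝ) (ρ : Fin m → ℝ) (N : ℕ) (hL : 1 ≤ L) (hC₁ : 1 ≤ C₁)
    (hC₂ : 1 ≤ C₂) (hC₃ : 1 ≤ C₃)
    (hε : 0 < ε) (hε₁ : 0 < ε₁) (hρ₀ : 0 < ρ₀) (hρ₀ρ : ∀ j, ρ₀ ≤ ρ j)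
    (hquad : ∀ (x : Fin (d + 1) → UU k) (u : Fin m → UU k),
      SmallTr κ₀ (2 * N) x → (∀ j, hs ((pol x (F j) : Mat k) - (u j : Mat k)) ≤ 2 * ρ j) →
      ∀ r : Fin d → UU k, (∀ i, ‖(r i : Mat k) - 1‖ ≤ 4 * ε) →
        (∀ i, |(ntr (r i : Mat k)).im| ≤ β) →
        1 / 2 ≤ haarP k (Fin d)
          {W | ∃ A ∈ famA m ρ, ∀ j, hs ((pol (pert x r W) (F j) : Mat k) - (u j : Mat k)) ≤ A j})
    (TN : Finset (UU k)) (hTN : (TN.card : ℝ) ≤ L * (C₁ / ε) ^ (k ^ 2 + 1))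
    (hTN' : ∀ p : UU k, ∃ v ∈ TN, ‖((p⁻¹ * v : UU k) : Mat k) - 1‖ ≤ 4 * ε ∧
        |(ntr ((p⁻¹ * v : UU k) : Mat k)).im| ≤ β)
    (TD : Finset (UU k)) (hTD : (TD.card : ℝ) ≤ (C₂ / ε₁) ^ k)
    (hTD' : ∀ u : UU k, ∃ V : UU k, ∃ v ∈ TD, ‖((V⁻¹ * u * V : UU k) : Mat k) - (v : Mat k)‖ ≤ ε₁)
    (hκ : 2 * N * ε₁ ≤ κ₀ / 2)
    (hK : ∀ j, ((F j).sum fun w c => ‖c‖ * w.norm) * ε₁ ≤ ρ j)
    (horb : ∀ (T : Fin m → Mat k) (A : Fin m → ℝ), (∀ j, ρ₀ ≤ A j) →
      haarP k (Fin m) {u | ∃ V : UU k, ∀ j,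
        hs ((u j : Mat k) - (V : Mat k) * T j * ((V⁻¹ : UU k) : Mat k)) ≤ A j}
      ≤ ENNReal.ofReal ((C₃ / ρ₀) ^ (k ^ 2 + 1) * ∏ j, (C₃ * A j) ^ (k ^ 2)))
    (S : Set (Fin m → UU k)) (hS : MeasurableSet S) (hS' : 1 / 2 ≤ haarP k (Fin m) S)
    (hSx : ∀ u ∈ S, ∃ x : Fin (d + 1) → UU k, SmallTr (κ₀ / 2) (2 * N) x ∧
        ∀ j, hs ((pol x (F j) : Mat k) - (u j : Mat k)) ≤ ρ j) :
    1 / 4 ≤ (L ^ d * (C₁ / ε) ^ d * (C₃ / ρ₀) * (famA m ρ).card) * (C₂ / ε₁) ^ k *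
      ((C₁ / ε) ^ d * (C₃ / ρ₀) * (2 ^ (43 * m) * ∏ j, (C₃ * ρ j))) ^ (k ^ 2) := by
  have hm1 : 1 ≤ √(m : ℝ) := by
    rw [Real.one_le_sqrt]; exact_mod_cast hm
  have hρpos : ∀ j, 0 < ρ j := fun j => lt_of_lt_of_le hρ₀ (hρ₀ρ j)
  set B : ℝ := (C₃ / ρ₀) ^ (k ^ 2 + 1) * (2 ^ (43 * m) * ∏ j, (C₃ * ρ j)) ^ (k ^ 2) with hB
  have hPpos : 0 < ∏ j, (C₃ * ρ j) := by
    apply Finset.prod_pos
    intro j _
    have := hρpos j
    positivity
  have hBpos : 0 < B := by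
    rw [hB]
    positivity
  have hAfam : ∀ A ∈ famA m ρ, (∀ j, ρ₀ ≤ A j) ∧
      ∏ j, (C₃ * A j) ^ (k ^ 2) ≤ (2 ^ (43 * m) * ∏ j, (C₃ * ρ j)) ^ (k ^ 2) := by
    intro A hA
    unfold famA at hA
    rw [Finset.mem_image] at hA
    obtain ⟨t, ht, rfl⟩ := hA
    rw [Finset.mem_filter] at ht
    have h2t : ∀ j, (1 : ℝ) ≤ 2 ^ (t j) := fun j => one_le_pow₀ (by norm_num)
    refine ⟨fun j => ?_, ?_⟩
    · have h1 := hρ₀ρ j
      have h2 := hρpos j
      have h3 := h2t j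
      nlinarith
    · rw [Finset.prod_pow]
      apply pow_le_pow_left₀
      · exact Finset.prod_nonneg fun j _ => by have := hρpos j; positivity
      · have e1 : ∏ j, C₃ * (2 ^ t j * ρ j) = 2 ^ (∑ j, t j) * ∏ j, (C₃ * ρ j) := by
          rw [← Finset.prod_pow_eq_pow_sum, ← Finset.prod_mul_distrib]
          exact Finset.prod_congr rfl fun j _ => by ring
        rw [e1]
        apply mul_le_mul_of_nonneg_right _ hPpos.le
        exact pow_le_pow_right₀ (by norm_num) ht.2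
  have hfub := fubini_net' k m d TD TN (fun y j => pol y (F j)) (fun j => continuous_pol (F j))
    (famA m ρ) (ENNReal.ofReal B)
    (fun y A hA => (horb (fun j => pol y (F j)) A (hAfam A hA).1).trans
      (ENNReal.ofReal_le_ofReal (mul_le_mul_of_nonneg_left (hAfam A hA).2 (by positivity))))
    S hS ?_
  · -- numerical conclusion
    have h1 : (1 / 2 : ℝ≥0∞) / 2 ≤ TD.card * TN.card ^ d * (famA m ρ).card * ENNReal.ofReal B :=
      le_trans (ENNReal.div_le_div_right hS' 2) hfub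
    have h2 : ENNReal.ofReal (1 / 4) ≤
        ENNReal.ofReal ((TD.card : ℝ) * (TN.card : ℝ) ^ d * (famA m ρ).card * B) := by
      have e1 : ENNReal.ofReal ((TD.card : ℝ) * (TN.card : ℝ) ^ d * (famA m ρ).card * B)
          = TD.card * TN.card ^ d * (famA m ρ).card * ENNReal.ofReal B := by
        rw [ENNReal.ofReal_mul (by positivity), ENNReal.ofReal_mul (by positivity),
          ENNReal.ofReal_mul (by positivity), ENNReal.ofReal_pow (by positivity)]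
        simp
      have e2 : ENNReal.ofReal (1 / 4) = (1 / 2 : ℝ≥0∞) / 2 := by
        rw [show (1 / 4 : ℝ) = (1 / 2) / 2 by norm_num, ENNReal.ofReal_div_of_pos (by norm_num),
          ENNReal.ofReal_div_of_pos (by norm_num)]
        simp
      rw [e1, e2]; exact h1
    have h3 : (1 / 4 : ℝ) ≤ (TD.card : ℝ) * (TN.card : ℝ) ^ d * (famA m ρ).card * B :=
      (ENNReal.ofReal_le_ofReal_iff (by positivity)).1 h2
    refine h3.trans ?_
    have h4 : (TD.card : ℝ) * (TN.card : ℝ) ^ d * (famA m ρ).card * B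
        ≤ (C₂ / ε₁) ^ k * (L * (C₁ / ε) ^ (k ^ 2 + 1)) ^ d * (famA m ρ).card * B := by
      apply mul_le_mul_of_nonneg_right _ hBpos.le
      apply mul_le_mul_of_nonneg_right _ (Nat.cast_nonneg _)
      apply mul_le_mul hTD _ (by positivity) (by positivity)
      exact pow_le_pow_left₀ (by positivity) hTN d
    refine h4.trans (le_of_eq ?_)
    rw [hB]
    set P := (2 ^ (43 * m) * ∏ j, (C₃ * ρ j)) with hP
    rw [mul_pow, ← pow_mul, mul_pow, mul_pow, ← pow_mul, pow_succ (C₃ / ρ₀)]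
    have : (C₁ / ε) ^ ((k ^ 2 + 1) * d) = (C₁ / ε) ^ d * (C₁ / ε) ^ (d * k ^ 2) := by
      rw [← pow_add]; congr 1; ring
    rw [this]; ring
  · intro u hu
    obtain ⟨x, hx1, hx2⟩ := hSx u hu
    obtain ⟨V, v, hv, hVv⟩ := hTD' (x 0)
    refine ⟨V, v, hv, fun i => V⁻¹ * x i.succ * V, fun p => ?_⟩
    choose η hη1 hη2 hη3 using hTN'
    refine ⟨fun i => η (p i), fun i => hη1 (p i), ?_⟩
    set x2 : Fin (d + 1) → UU k := Fin.cons (V * v * V⁻¹) (fun i => x i.succ) with hx2def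
    set r : Fin d → UU k := fun i => (p i)⁻¹ * η (p i) with hr
    -- closeness of x and x2
    have hclose : ∀ i, ‖(x i : Mat k) - (x2 i : Mat k)‖ ≤ ε₁ := by
      intro i
      refine Fin.cases ?_ (fun j => ?_) i
      · have e : (x 0 : Mat k) - (x2 0 : Mat k)
            = (V : Mat k) * (((V⁻¹ * x 0 * V : UU k) : Mat k) - (v : Mat k)) *
              ((V⁻¹ : UU k) : Mat k) := by
          have e1 : (x 0 : Mat k) = ((V * (V⁻¹ * x 0 * V) * V⁻¹ : UU k) : Mat k) := by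
            congr 1; group
          have e2 : (x2 0 : Mat k) = ((V * v * V⁻¹ : UU k) : Mat k) := by
            rw [hx2def]; rfl
          rw [e2]
          conv_lhs => rw [e1]
          push_cast
          noncomm_ring
        rw [e]
        calc ‖(V : Mat k) * (((V⁻¹ * x 0 * V : UU k) : Mat k) - (v : Mat k)) *
              ((V⁻¹ : UU k) : Mat k)‖
            ≤ ‖(V : Mat k)‖ * ‖((V⁻¹ * x 0 * V : UU k) : Mat k) - (v : Mat k)‖ *
              ‖((V⁻¹ : UU k) : Mat k)‖ :=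
              (norm_mul_le _ _).trans (mul_le_mul_of_nonneg_right (norm_mul_le _ _)
                (norm_nonneg _))
          _ ≤ 1 * ε₁ * 1 := by
              apply mul_le_mul _ (norm_unitary_le _) (norm_nonneg _) (by positivity)
              exact mul_le_mul (norm_unitary_le _) hVv (norm_nonneg _) (by norm_num)
          _ = ε₁ := by ring
      · have : x2 j.succ = x j.succ := by rw [hx2def]; rfl
        rw [this]; simp [hε₁.le]
    have hsm : SmallTr κ₀ (2 * N) x2 := by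
      intro w hw1 hwN
      have h1 := hx1 w hw1 hwN
      have h2 : ‖ntr (wd x2 w : Mat k)‖ ≤ ‖ntr (wd x w : Mat k)‖ + ‖(wd x w : Mat k) - wd x2 w‖ := by
        have e : ntr (wd x2 w : Mat k) = ntr (wd x w : Mat k) - ntr ((wd x w : Mat k) - wd x2 w) := by
          rw [ntr_sub]; ring
        rw [e]
        exact (norm_sub_le _ _).trans (by gcongr; exact norm_ntr_le _)
      have h3 := norm_wd_sub_le x x2 ε₁ hclose w
      have h4 : (w.norm : ℝ) * ε₁ ≤ 2 * N * ε₁ := by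
        apply mul_le_mul_of_nonneg_right _ hε₁.le
        exact_mod_cast hwN
      linarith
    have hcl2 : ∀ j, hs ((pol x2 (F j) : Mat k) - (u j : Mat k)) ≤ 2 * ρ j := by
      intro j
      have h1 := hx2 j
      have h2 := norm_pol_sub_le x x2 ε₁ hclose (F j)
      have h3 := hK j
      have e : (pol x2 (F j) : Mat k) - (u j : Mat k)
          = ((pol x (F j) : Mat k) - (u j : Mat k)) + -((pol x (F j) : Mat k) - pol x2 (F j)) := by
        abel
      rw [e]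
      refine (hs_add_le _ _).trans ?_
      rw [hs_neg]
      have h4 := hs_le_norm ((pol x (F j) : Mat k) - pol x2 (F j))
      linarith
    have hq := hquad x2 u hsm hcl2 r (fun i => hη2 (p i)) (fun i => hη3 (p i))
    set E : Set (Fin d → UU k) := {W | ∃ A ∈ famA m ρ, ∀ j,
      hs ((pol (pert x2 r W) (F j) : Mat k) - (u j : Mat k)) ≤ A j} with hE
    have hEm : MeasurableSet E := by
      have : E = ⋃ A ∈ famA m ρ, ⋂ j, {W | hs ((pol (pert x2 r W) (F j) : Mat k) - (u j : Mat k))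
          ≤ A j} := by
        ext W; simp [hE]
      rw [this]
      refine Finset.measurableSet_biUnion _ fun A _ => MeasurableSet.iInter fun j => ?_
      have hc : Continuous fun W : Fin d → UU k =>
          hs ((pol (pert x2 r W) (F j) : Mat k) - (u j : Mat k)) := by
        apply continuous_hs.comp
        exact ((continuous_pol (F j)).comp (continuous_pert x2 r)).sub continuous_const
      exact (isClosed_le hc continuous_const).measurableSet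
    rw [← haarP_right V⁻¹ E hEm] at hq
    refine hq.trans (measure_mono ?_)
    intro V' hV'
    obtain ⟨A, hA, hV'⟩ := hV'
    refine ⟨A, hA, fun j => ?_⟩
    have hV2 := hV' j
    have e1 : (pert x2 r fun i => V' i * V⁻¹) = fun i => V * (Fin.cons v (fun i =>
        V⁻¹ * x i.succ * V * (V' i)⁻¹ * (p i)⁻¹ * η (p i) * V' i) : Fin (d + 1) → UU k) i * V⁻¹ := by
      funext i
      refine Fin.cases ?_ (fun l => ?_) i
      · simp [pert, hx2def]
      · simp only [pert, Fin.cons_succ, hx2def, hr]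
        group
    rw [e1, pol_conj] at hV2
    show hs ((u j : Mat k) - _) ≤ _
    rw [hs_sub_comm]
    exact hV2

theorem matrix_ineq' : ∃ C : ℝ, 1 ≤ C ∧ ∀ (m d N : ℕ)
    (F : Fin m → (FreeGroup (Fin (d + 1)) →₀ ℂ)) (ε ρ₀ : ℝ) (ρ : Fin m → ℝ),
    0 < m → 0 < ε → ε ≤ 1 / 10 → 0 < ρ₀ → ρ₀ ≤ 1 → (∀ j, ρ₀ ≤ ρ j) → (∀ j, ε ≤ ρ j) →
    (∀ j, ∀ w ∈ (F j).support, w.norm ≤ N) →
    (∀ j, ((F j).sum fun w c => ‖c‖ ^ 2 * min 1 ((blen w : ℝ) * ε ^ 2)) ≤ ρ j ^ 2) →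
    (∀ κ > 0, ∀ᶠ k in atTop, ∃ S : Set (Fin m → UU k), MeasurableSet S ∧
      1 / 2 ≤ haarP k (Fin m) S ∧ ∀ u ∈ S, ∃ x : Fin (d + 1) → UU k, SmallTr κ (2 * N) x ∧
        ∀ j, hs ((pol x (F j) : Mat k) - (u j : Mat k)) ≤ ρ j) →
    1 ≤ (C / ε) ^ d * (C / ρ₀) * ∏ j, (C * ρ j) := by
  obtain ⟨C₁, hC₁, H₁⟩ := net_phase
  obtain ⟨C₂, hC₂, H₂⟩ := net_diag
  obtain ⟨C₃, hC₃, H₃⟩ := orbit_ball
  refine ⟨max C₁ (2 ^ 43 * C₃), le_max_of_le_left hC₁, ?_⟩
  intro m d N F ε ρ₀ ρ hm hε hε' hρ₀ hρ₀' hρ₀ρ hερ hN hF hS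
  obtain ⟨κ₀, hκ₀, β, hβ, k₀, hquad⟩   := quadEst' m d N F ε ρ hm hε hε' hερ hN hF
  obtain ⟨L, hL, H₁'⟩ := H₁ ε hε hε' β hβ
  set K : ℝ := ∑ j, ((F j).sum fun w c => ‖c‖ * w.norm) with hKdef
  have hKj : ∀ j, 0 ≤ ((F j).sum fun w c => ‖c‖ * (w.norm : ℝ)) := fun j =>
    Finset.sum_nonneg fun w _ => by positivity
  have hK0 : 0 ≤ K := Finset.sum_nonneg fun j _ => hKj j
  set ε₁ : ℝ := min 1 (min (κ₀ / (4 * N + 4)) (ρ₀ / (K + 1))) with hε₁
  have hε₁pos : 0 < ε₁ := by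
    rw [hε₁]; positivity
  have hε₁1 : ε₁ ≤ 1 := min_le_left _ _
  have hε₁2 : ε₁ ≤ κ₀ / (4 * N + 4) := (min_le_right _ _).trans (min_le_left _ _)
  have hε₁3 : ε₁ ≤ ρ₀ / (K + 1) := (min_le_right _ _).trans (min_le_right _ _)
  have hκ : 2 * N * ε₁ ≤ κ₀ / 2 := by
    rw [le_div_iff₀ (by positivity)] at hε₁2
    have hN0 : (0 : ℝ) ≤ N := Nat.cast_nonneg N
    nlinarith
  have hK : ∀ j, ((F j).sum fun w c => ‖c‖ * (w.norm : ℝ)) * ε₁ ≤ ρ j := by
    intro j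
    have h1 : ((F j).sum fun w c => ‖c‖ * (w.norm : ℝ)) ≤ K :=
      Finset.single_le_sum (f := fun j => ((F j).sum fun w c => ‖c‖ * (w.norm : ℝ)))
        (fun j _ => hKj j) (Finset.mem_univ j)
    rw [le_div_iff₀ (by positivity)] at hε₁3
    have h2 := hρ₀ρ j
    nlinarith [hKj j]
  have hev := hS (κ₀ / 2) (by positivity)
  have hmain : ∀ᶠ k : ℕ in atTop,
      1 / 4 ≤ (L ^ d * (C₁ / ε) ^ d * (C₃ / ρ₀) * (famA m ρ).card) * (C₂ / ε₁) ^ k *
      ((C₁ / ε) ^ d * (C₃ / ρ₀) * (2 ^ (43 * m) * ∏ j, (C₃ * ρ j))) ^ (k ^ 2) := by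
    filter_upwards [hev, eventually_ge_atTop k₀, eventually_gt_atTop 0] with k hk hk1 hk2
    obtain ⟨S, hSm, hS1, hS2⟩ := hk
    obtain ⟨TN, hTN, hTN'⟩ := H₁' k hk2
    obtain ⟨TD, hTD, hTD'⟩ := H₂ k hk2 ε₁ hε₁pos hε₁1
    exact key k m d hk2 hm F C₁ C₂ C₃ L ε ε₁ ρ₀ β κ₀ ρ N hL hC₁ hC₂ hC₃ hε hε₁pos hρ₀ hρ₀ρ
      (fun x u h1 h2 r h3 h4 => hquad k hk1 hk2 x u h1 h2 r h3 h4) TN hTN hTN' TD hTD hTD' hκ hK
      (fun T A hA => H₃ k hk2 m hm T A ρ₀ hρ₀ hρ₀' hA) S hSm hS1 hS2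
  have hρpos : ∀ j, 0 < ρ j := fun j => lt_of_lt_of_le hρ₀ (hρ₀ρ j)
  have h1 := one_le_of_limit _ _ _ (by positivity) (by positivity) (by
    apply mul_nonneg (by positivity)
    apply mul_nonneg (by positivity)
    exact Finset.prod_nonneg fun j _ => by have := hρpos j; positivity) hmain
  refine h1.trans ?_
  have hCC : C₁ ≤ max C₁ (2 ^ 43 * C₃) := le_max_left _ _
  have hCC3 : 2 ^ 43 * C₃ ≤ max C₁ (2 ^ 43 * C₃) := le_max_right _ _
  have hCC3' : C₃ ≤ max C₁ (2 ^ 43 * C₃) := le_trans (by linarith) hCC3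
  have e2 : (2 : ℝ) ^ (43 * m) * ∏ j, (C₃ * ρ j) = ∏ j, (2 ^ 43 * C₃ * ρ j) := by
    have : (2 : ℝ) ^ (43 * m) = ∏ _j : Fin m, (2 : ℝ) ^ 43 := by
      rw [Finset.prod_const, Finset.card_univ, Fintype.card_fin, ← pow_mul]
    rw [this, ← Finset.prod_mul_distrib]
    exact Finset.prod_congr rfl fun j _ => by ring
  rw [e2]
  apply mul_le_mul
  · apply mul_le_mul
    · exact pow_le_pow_left₀ (by positivity) (by gcongr) d
    · gcongr
    · positivity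
    · positivity
  · apply Finset.prod_le_prod
    · intro j _; have := hρpos j; positivity
    · intro j _
      have h2 := hρpos j
      gcongr
  · exact Finset.prod_nonneg fun j _ => by have := hρpos j; positivity
  · positivity

end Pool.Agent.H667R2.FG.TMT2

namespace Pool.Agent.H667R2.FG

alias matrix_ineq' := TMT2.matrix_ineq'

end Pool.Agent.H667R2.FG
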