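import Mathlib
import Pool.Agent.H667R2.FG.GOM
import Pool.Agent.H667R2.FG.GCORE
import Pool.Agent.H667R2.FG.GTP
import Pool.Agent.H667R2.FG.TMT2
import Pool.Agent.H667R2.FG.TFIN

/-! The master inequality for isomorphisms onto a free group factor, and the Sobolev
obstruction. -/

namespace Pool.Agent.H667R2.FG.Master

open MeasureTheory Matrix Filter
open scoped Matrix.Norms.L2Operator ComplexConjugate ENNReal
open GOM

theorem min_one_le_rpow (t s : ℝ) (ht : 0 ≤ t) (hs0 : 0 ≤ s) (hs1 : s ≤ 1) :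
    min 1 t ≤ t ^ s := by
  rcases le_total 1 t with h | h
  · exact (min_le_left _ _).trans (Real.one_le_rpow h hs0)
  · rcases ht.eq_or_lt with h0 | h0
    · rw [← h0, min_eq_right (by norm_num : (0 : ℝ) ≤ 1)]
      exact Real.rpow_nonneg le_rfl _
    · refine (min_le_right _ _).trans ?_
      calc t = t ^ (1 : ℝ) := (Real.rpow_one t).symm
        _ ≤ t ^ s := Real.rpow_le_rpow_of_exponent_ge h0 h hs1

/-- finite truncation of an `ℓ²` vector -/
theorem exists_trunc {G : Type} [Group G] (ξ : Ell G) (ε : ℝ) (hε : 0 < ε) :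
    ∃ F : G →₀ ℂ, (∀ g, F g = 0 ∨ F g = ξ g) ∧ ‖ξ - F.sum fun w c => c • (delta w : Ell G)‖ ≤ ε := by
  classical
  have h1 : HasSum (fun g : G => (lp.single 2 g (ξ g) : Ell G)) ξ :=
    lp.hasSum_single (by norm_num) ξ
  have h2 := h1.eventually (Metric.ball_mem_nhds ξ hε)
  obtain ⟨Λ, hΛ⟩ := h2.exists
  refine ⟨Finsupp.onFinset Λ (fun g => if g ∈ Λ then ξ g else 0) (by
    intro a ha; by_contra h; simp [h] at ha), ?_, ?_⟩
  · intro g
    by_cases hg : g ∈ Λ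
    · right; simp [hg]
    · left; simp [hg]
  · rw [Finsupp.onFinset_sum _ (fun a => by simp)]
    have e : ∑ a ∈ Λ, (if a ∈ Λ then ξ a else 0) • (delta a : Ell G)
        = ∑ a ∈ Λ, (lp.single 2 a (ξ a) : Ell G) := by
      refine Finset.sum_congr rfl fun a ha => ?_
      rw [if_pos ha]
      have : (delta a : Ell G) = lp.single 2 a (1 : ℂ) := by
        ext k
        rw [delta_apply]
        by_cases hk : k = a
        · subst hk
          rw [if_pos rfl, lp.single_apply_self]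
        · rw [if_neg hk, lp.single_apply_ne _ _ _ hk]
      rw [this, ← lp.single_smul]
      simp
    rw [e]
    have h3 : dist (∑ a ∈ Λ, (lp.single 2 a (ξ a) : Ell G)) ξ < ε := hΛ
    rw [dist_comm, dist_eq_norm] at h3
    exact h3.le

/-- an `ℓ²` function is square summable -/
theorem summable_sq {G : Type} (ξ : Ell G) : Summable fun g => ‖ξ g‖ ^ 2 := by
  have h := (lp.memℓp ξ).summable (by norm_num : (0 : ℝ) < (2 : ENNReal).toReal)
  simpa using h

theorem tsum_sq {G : Type} (ξ : Ell G) : ∑' g, ‖ξ g‖ ^ 2 = ‖ξ‖ ^ 2 := by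
  have h := lp.norm_rpow_eq_tsum (by norm_num : (0 : ℝ) < (2 : ENNReal).toReal) ξ
  simpa using h.symm

/-- `Ω(ξ, ε)² = Σ_w |ξ(w)|² min(1, b(w) ε²)` -/
theorem summable_omega {d : ℕ} (ξ : Ell (FreeGroup (Fin (d + 1)))) (ε : ℝ) :
    Summable fun g : FreeGroup (Fin (d + 1)) => ‖ξ g‖ ^ 2 * min 1 ((blen g : ℝ) * ε ^ 2) := by
  refine Summable.of_nonneg_of_le (fun g => by positivity) (fun g => ?_) (summable_sq ξ)
  exact mul_le_of_le_one_right (by positivity) (min_le_left _ _)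

/-- **Master inequality.** -/
theorem master : ∃ C : ℝ, 1 ≤ C ∧ ∀ (ι : Type) (d m : ℕ)
    (v : ι → unitary (Op (FreeGroup (Fin (d + 1))))) (_ : CoreG (d + 1) v)
    (J : Fin m → ι) (_ : Function.Injective J) (ε ρ₀ : ℝ) (ρ : Fin m → ℝ),
    0 < m → 0 < ε → ε ≤ 1 / 10 → 0 < ρ₀ → ρ₀ ≤ 1 → (∀ j, ρ₀ ≤ ρ j) → (∀ j, ε ≤ ρ j) →
    (∀ j, ∑' g : FreeGroup (Fin (d + 1)), ‖((v (J j) : Op (FreeGroup (Fin (d + 1))))
      (delta 1)) g‖ ^ 2 * min 1 ((blen g : ℝ) * ε ^ 2) ≤ ρ j ^ 2) →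
    1 ≤ (C / ε) ^ d * (C / ρ₀) * ∏ j, (C * ρ j) := by
  classical
  obtain ⟨C, hC, HC⟩ := TMT2.matrix_ineq'
  refine ⟨C, hC, ?_⟩
  intro ι d m v hv J hJ ε ρ₀ ρ hm hε hε' hρ₀ hρ₀' hρ₀ρ hερ hΩ
  set ξ : Fin m → Ell (FreeGroup (Fin (d + 1))) := fun j =>
    (v (J j) : Op (FreeGroup (Fin (d + 1)))) (delta 1) with hξ
  choose F hF1 hF2 using fun j => exists_trunc (ξ j) (ε / 2) (by positivity)
  set N : ℕ := Finset.univ.sup fun j => (F j).support.sup fun w => w.norm with hNdef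
  have hN : ∀ j, ∀ w ∈ (F j).support, w.norm ≤ N := by
    intro j w hw
    exact (Finset.le_sup (f := fun w : FreeGroup (Fin (d + 1)) => w.norm) hw).trans
      (Finset.le_sup (f := fun j => (F j).support.sup fun w => w.norm) (Finset.mem_univ j))
  have hFsum : ∀ j, ((F j).sum fun w c => ‖c‖ ^ 2 * min 1 ((blen w : ℝ) * ε ^ 2)) ≤ ρ j ^ 2 := by
    intro j
    refine le_trans ?_ (hΩ j)
    have h1 : ((F j).sum fun w c => ‖c‖ ^ 2 * min 1 ((blen w : ℝ) * ε ^ 2))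
        = ∑ w ∈ (F j).support, ‖(ξ j) w‖ ^ 2 * min 1 ((blen w : ℝ) * ε ^ 2) := by
      refine Finset.sum_congr rfl fun w hw => ?_
      have hFw : F j w = ξ j w := by
        rcases hF1 j w with h | h
        · exact absurd h (Finsupp.mem_support_iff.1 hw)
        · exact h
      rw [hFw]
    rw [h1]
    exact (summable_omega (ξ j) ε).sum_le_tsum _ (fun w _ => by positivity)
  have hop := fun κ hκ => op_main_gen m d v hv J hJ F (fun _ => ε / 2) (fun _ => by positivity)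
    (fun j => hF2 j) (2 * N) κ hκ
  refine HC m d N F ε ρ₀ ρ hm hε hε' hρ₀ hρ₀' hρ₀ρ hερ hN hFsum ?_
  intro κ hκ
  filter_upwards [hop κ hκ] with k hk
  obtain ⟨S, h1, h2, h3⟩ := hk
  refine ⟨S, h1, h2, fun u hu => ?_⟩
  obtain ⟨x, hx1, hx2⟩ := h3 u hu
  refine ⟨x, hx1, fun j => (hx2 j).trans ?_⟩
  have := hερ j
  linarith

/-- The core theorem: Sobolev regularity exponents of a free generating family. -/
theorem core_theorem {ι : Type} (m d : ℕ)
    (v : ι → unitary (Op (FreeGroup (Fin (d + 1)))))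
    (hv : CoreG (d + 1) v) (J : Fin m → ι) (hJ : Function.Injective J)
    (s : Fin m → ℝ) (hs0 : ∀ j, 0 ≤ s j) (hs1 : ∀ j, s j ≤ 1)
    (hsum : ∀ j, Summable fun g : FreeGroup (Fin (d + 1)) => (blen g : ℝ) ^ (s j) *
      ‖((v (J j) : Op (FreeGroup (Fin (d + 1)))) (delta 1)) g‖ ^ 2)
    (j₀ : Fin m) (hj₀ : ∀ j, s j ≤ s j₀) : ∑ j ∈ Finset.univ.erase j₀, s j ≤ d := by
  classical
  obtain ⟨C, hC, HC⟩ := master
  have hm : 0 < m := Fin.pos j₀
  set ξ : Fin m → Ell (FreeGroup (Fin (d + 1))) := fun j =>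
    (v (J j) : Op (FreeGroup (Fin (d + 1)))) (delta 1) with hξ
  set M : Fin m → ℝ := fun j => ∑' g : FreeGroup (Fin (d + 1)), (blen g : ℝ) ^ (s j) *
      ‖(ξ j) g‖ ^ 2 with hM
  have hM0 : ∀ j, 0 ≤ M j := fun j => tsum_nonneg fun g => by positivity
  set Cj : Fin m → ℝ := fun j => √(M j) + 1 with hCj
  have hCj1 : ∀ j, 1 ≤ Cj j := fun j => by
    simp only [hCj]; have := Real.sqrt_nonneg (M j); linarith
  have hCjM : ∀ j, M j ≤ (Cj j) ^ 2 := fun j => by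
    simp only [hCj]
    have h1 := Real.sqrt_nonneg (M j)
    have h2 := Real.sq_sqrt (hM0 j)
    nlinarith
  refine final_calculus m d s (C ^ d * C * ∏ j, (C * Cj j)) ?_ j₀ hs0 hj₀ (1 / 10)
    (by norm_num) ?_
  · have : ∀ j, 0 < Cj j := fun j => lt_of_lt_of_le one_pos (hCj1 j)
    apply mul_pos (by positivity)
    exact Finset.prod_pos fun j _ => by have := this j; positivity
  · intro ε hε hε'
    have hε1 : ε ≤ 1 := hε'.trans (by norm_num)
    have hpow : ∀ j, ε ≤ ε ^ (s j) := fun j => by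
      calc ε = ε ^ (1 : ℝ) := (Real.rpow_one ε).symm
        _ ≤ ε ^ (s j) := Real.rpow_le_rpow_of_exponent_ge hε hε1 (hs1 j)
    have hpos : ∀ j, 0 < ε ^ (s j) := fun j => Real.rpow_pos_of_pos hε _
    have hρ₀ρ : ∀ j, ε ^ (s j₀) ≤ Cj j * ε ^ (s j) := fun j => by
      have h1 : ε ^ (s j₀) ≤ ε ^ (s j) := Real.rpow_le_rpow_of_exponent_ge hε hε1 (hj₀ j)
      nlinarith [hCj1 j, hpos j]
    have hερ : ∀ j, ε ≤ Cj j * ε ^ (s j) := fun j => by
      nlinarith [hCj1 j, hpos j, hpow j]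
    have hΩ : ∀ j, ∑' g : FreeGroup (Fin (d + 1)), ‖(ξ j) g‖ ^ 2 * min 1 ((blen g : ℝ) * ε ^ 2)
        ≤ (Cj j * ε ^ (s j)) ^ 2 := by
      intro j
      have hle : ∀ g : FreeGroup (Fin (d + 1)), ‖(ξ j) g‖ ^ 2 * min 1 ((blen g : ℝ) * ε ^ 2)
          ≤ (ε ^ (s j)) ^ 2 * ((blen g : ℝ) ^ (s j) * ‖(ξ j) g‖ ^ 2) := by
        intro w
        have h2 := min_one_le_rpow ((blen w : ℝ) * ε ^ 2) (s j) (by positivity) (hs0 j) (hs1 j)
        have h3 : ((blen w : ℝ) * ε ^ 2) ^ (s j) = (blen w : ℝ) ^ (s j) * (ε ^ (s j)) ^ 2 := by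
          rw [Real.mul_rpow (by positivity) (by positivity)]
          congr 1
          rw [← Real.rpow_natCast ε 2, ← Real.rpow_natCast (ε ^ (s j)) 2, ← Real.rpow_mul hε.le,
            ← Real.rpow_mul hε.le, mul_comm]
        rw [h3] at h2
        calc ‖(ξ j) w‖ ^ 2 * min 1 ((blen w : ℝ) * ε ^ 2)
            ≤ ‖(ξ j) w‖ ^ 2 * ((blen w : ℝ) ^ (s j) * (ε ^ (s j)) ^ 2) :=
              mul_le_mul_of_nonneg_left h2 (by positivity)
          _ = _ := by ring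
      have h4 : ∑' g : FreeGroup (Fin (d + 1)), ‖(ξ j) g‖ ^ 2 * min 1 ((blen g : ℝ) * ε ^ 2)
          ≤ ∑' g : FreeGroup (Fin (d + 1)), (ε ^ (s j)) ^ 2 * ((blen g : ℝ) ^ (s j) *
            ‖(ξ j) g‖ ^ 2) :=
        (summable_omega (ξ j) ε).tsum_le_tsum hle ((hsum j).mul_left _)
      rw [tsum_mul_left] at h4
      have h5 := hCjM j
      have h6 := hpos j
      refine h4.trans ?_
      calc (ε ^ (s j)) ^ 2 * ∑' g : FreeGroup (Fin (d + 1)), ((blen g : ℝ) ^ (s j) * ‖(ξ j) g‖ ^ 2)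
          ≤ (ε ^ (s j)) ^ 2 * (Cj j) ^ 2 := mul_le_mul_of_nonneg_left h5 (by positivity)
        _ = _ := by ring
    have hfin := HC ι d m v hv J hJ ε (ε ^ (s j₀)) (fun j => Cj j * ε ^ (s j)) hm hε hε'
      (hpos j₀) (Real.rpow_le_one hε.le hε1 (hs0 j₀)) hρ₀ρ hερ hΩ
    refine hfin.trans (le_of_eq ?_)
    have e1 : ∏ j, (C * (Cj j * ε ^ (s j)))
        = (∏ j, (C * Cj j)) * ∏ j, ε ^ (s j) := by
      rw [← Finset.prod_mul_distrib]
      exact Finset.prod_congr rfl fun j _ => by ring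
    rw [e1, div_pow, _root_.one_div_pow]
    have h7 := hpos j₀
    field_simp

end Pool.Agent.H667R2.FG.Master
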