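import Mathlib
import Pool.Agent.H667R2.FG.Defs
import Pool.Agent.H667R2.FG.OpDefs
import Pool.Agent.H667R2.FG.LamE
import Pool.Agent.H667R2.FG.Master

/-! Sobolev obstruction in terms of `EltG`. -/

namespace Pool.Agent.H667R2.FG.Sob

/-- The Fourier coefficient `x̂(g) = (x δ_1)(g)` of `x ∈ L(G)`. -/
noncomputable def coef {G : Type} [Group G] (x : EltG G) (g : G) : ℂ :=
  ((x : Ell G →L[ℂ] Ell G) (delta 1)) g

/-- The canonical unitary `u_i = λ(i) ∈ L(F_α)` of the free generator `i ∈ α`. -/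
noncomputable def gen {α : Type} (i : α) : EltG (FreeGroup α) := lamE (FreeGroup.of i)

theorem part_one (α : Type) (d : ℕ)
    (θ : EltG (FreeGroup α) ≃⋆ₐ[ℂ] EltG (FreeGroup (Fin (d + 1))))
    (J : Finset α) (s : α → ℝ) (j₀ : α) (hj₀ : j₀ ∈ J)
    (hs : ∀ j ∈ J, 0 ≤ s j ∧ s j ≤ s j₀) (hs1 : s j₀ ≤ 1)
    (hsum : ∀ j ∈ J, Summable fun g : FreeGroup (Fin (d + 1)) =>
      (blen g : ℝ) ^ s j * ‖coef (θ (gen j)) g‖ ^ 2) :
    ∑ j ∈ J, s j ≤ d + s j₀ := by
  classical
  by_cases hα : Nontrivial α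
  · have hθ : ∀ x : EltG (FreeGroup α),
        tau (θ x : Ell (FreeGroup (Fin (d + 1))) →L[ℂ] Ell (FreeGroup (Fin (d + 1))))
          = tau (x : Ell (FreeGroup α) →L[ℂ] Ell (FreeGroup α)) :=
      fun x => GTP.trace_preservingG θ x
    obtain ⟨v, hv1, hv2⟩ := GCORE.core_of_isoG (d + 1) θ hθ
    set e : Fin J.card → α := fun a => (J.equivFin.symm a : α) with he
    have hinj : Function.Injective e := fun a b hab =>
      J.equivFin.symm.injective (Subtype.ext hab)
    have heJ : ∀ a, e a ∈ J := fun a => (J.equivFin.symm a).2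
    set k₀ : Fin J.card := J.equivFin ⟨j₀, hj₀⟩ with hk₀
    have hek₀ : e k₀ = j₀ := by simp [he, hk₀]
    have h := Master.core_theorem J.card d v hv2 e hinj (fun a => s (e a))
      (fun a => (hs _ (heJ a)).1) (fun a => ((hs _ (heJ a)).2).trans hs1) (fun a => by
        have := hsum (e a) (heJ a)
        rw [hv1 (e a)]
        exact this) k₀ (fun a => by rw [hek₀]; exact (hs _ (heJ a)).2)
    have h2 : ∑ a, s (e a) = ∑ j ∈ J, s j := by
      rw [← Finset.sum_coe_sort J s]
      exact Equiv.sum_comp J.equivFin.symm (fun a : J => s (a : α))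
    have h3 := Finset.add_sum_erase Finset.univ (fun a => s (e a)) (Finset.mem_univ k₀)
    rw [hek₀, h2] at h3
    linarith
  · rw [not_nontrivial_iff_subsingleton] at hα
    have hJ : J = {j₀} := by
      ext j
      rw [Finset.mem_singleton]
      exact ⟨fun _ => Subsingleton.elim _ _, fun h => h ▸ hj₀⟩
    rw [hJ, Finset.sum_singleton]
    have : (0 : ℝ) ≤ d := Nat.cast_nonneg d
    linarith

theorem blen_le_norm {d : ℕ} (g : FreeGroup (Fin (d + 1))) : blen g ≤ g.norm := by
  unfold blen FreeGroup.norm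
  exact List.length_filter_le _ _

theorem part_two (n m : ℕ) (hn : 2 ≤ n) (hnm : n < m) (s : ℝ)
    (hs : ((n : ℝ) - 1) / ((m : ℝ) - 1) < s)
    (θ : EltG (FreeGroup (Fin m)) ≃⋆ₐ[ℂ] EltG (FreeGroup (Fin n))) :
    ∃ j : Fin m, ¬ Summable fun g : FreeGroup (Fin n) =>
      (g.norm : ℝ) ^ s * ‖coef (θ (gen j)) g‖ ^ 2 := by
  obtain ⟨d, rfl⟩ : ∃ d, n = d + 1 := ⟨n - 1, by omega⟩
  have hn' : (1 : ℝ) ≤ d := by
    have : 1 ≤ d := by omega
    exact_mod_cast this
  have hm' : (d : ℝ) + 2 ≤ m := by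
    have : d + 2 ≤ m := by omega
    exact_mod_cast this
  by_contra hcon
  push Not at hcon
  set t : ℝ := min s 1 with ht
  have hs0 : 0 < s := lt_of_le_of_lt (by
    apply div_nonneg
    · push_cast; linarith
    · linarith) hs
  have ht0 : 0 < t := lt_min hs0 one_pos
  have h1 : ((d : ℝ)) / ((m : ℝ) - 1) < t := by
    refine lt_min ?_ ?_
    · have : (((d + 1 : ℕ) : ℝ) - 1) = d := by push_cast; ring
      rwa [this] at hs
    · rw [div_lt_one (by linarith)]; linarith
  have h2 : ∀ j ∈ (Finset.univ : Finset (Fin m)), Summable fun g : FreeGroup (Fin (d + 1)) =>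
      (blen g : ℝ) ^ t * ‖coef (θ (gen j)) g‖ ^ 2 := by
    intro j _
    refine Summable.of_nonneg_of_le (fun g => by positivity) (fun g => ?_) (hcon j)
    refine mul_le_mul_of_nonneg_right ?_ (by positivity)
    have h3 : (blen g : ℝ) ≤ (g.norm : ℝ) := by exact_mod_cast blen_le_norm g
    refine (Real.rpow_le_rpow (by positivity) h3 ht0.le).trans ?_
    rcases Nat.eq_zero_or_pos g.norm with h0 | h0
    · rw [h0, Nat.cast_zero, Real.zero_rpow ht0.ne', Real.zero_rpow hs0.ne']
    · exact Real.rpow_le_rpow_of_exponent_le (by exact_mod_cast h0) (min_le_left _ _)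
  have hm0 : 0 < m := by omega
  have h4 := part_one (Fin m) d θ Finset.univ (fun _ => t) ⟨0, hm0⟩ (Finset.mem_univ _)
    (fun j _ => ⟨ht0.le, le_rfl⟩) (min_le_right _ _) h2
  rw [Finset.sum_const, Finset.card_univ, Fintype.card_fin, nsmul_eq_mul] at h4
  rw [div_lt_iff₀ (by linarith)] at h1
  linarith


theorem delta_eq {G : Type} [Group G] [DecidableEq G] (g : G) : (delta g : Ell G) = lp.single 2 g (1 : ℂ) := by
  ext k
  rw [delta_apply]
  by_cases hk : k = g
  · subst hk
    rw [if_pos rfl, lp.single_apply_self]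
  · rw [if_neg hk, lp.single_apply_ne _ _ _ hk]

/-- an operator acting as the left translation is `lam g` -/
theorem eq_lam {G : Type} [Group G] (L : G → Ell G →L[ℂ] Ell G)
    (h : ∀ g f k, L g f k = f (g⁻¹ * k)) : L = lam := by
  funext g
  refine ContinuousLinearMap.ext fun f => ?_
  ext k
  exact h g f k

end Pool.Agent.H667R2.FG.Sob
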