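import Mathlib
import Pool.Agent.H667R2.FG.Sob

/-! Transfer from abstract Hilbert spaces with a basis indexed by the group. -/

namespace Pool.Agent.H667R2.FG.Abs

open Sob

theorem mem_cent {A B : Type} [Mul A] [Mul B] (φ : A ≃* B) (S : Set A) (T : Set B)
    (hT : φ '' S = T) (x : A) : φ x ∈ Set.centralizer T ↔ x ∈ Set.centralizer S := by
  subst hT
  simp only [Set.mem_centralizer_iff]
  constructor
  · intro h m hm
    apply φ.injective
    rw [map_mul, map_mul]
    exact h (φ m) ⟨m, hm, rfl⟩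
  · rintro h _ ⟨m, hm, rfl⟩
    rw [← map_mul, ← map_mul, h m hm]

theorem image_cent {A B : Type} [Mul A] [Mul B] (φ : A ≃* B) (S : Set A) (T : Set B)
    (hT : φ '' S = T) : φ '' (Set.centralizer S) = Set.centralizer T := by
  ext y
  constructor
  · rintro ⟨x, hx, rfl⟩
    exact (mem_cent φ S T hT x).2 hx
  · intro hy
    refine ⟨φ.symm y, ?_, φ.apply_symm_apply y⟩
    rw [← mem_cent φ S T hT, φ.apply_symm_apply]
    exact hy

theorem LG_coe (G : Type) [Group G] :
    ((LG G).toStarSubalgebra : Set (Ell G →L[ℂ] Ell G))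
      = Set.centralizer (Set.centralizer (Set.range (lam (G := G)))) := by
  show ((StarSubalgebra.centralizer ℂ
    (StarSubalgebra.centralizer ℂ (Set.range (lam (G := G))) : Set (Ell G →L[ℂ] Ell G)) :
      StarSubalgebra ℂ (Ell G →L[ℂ] Ell G)) : Set (Ell G →L[ℂ] Ell G)) = _
  rw [StarSubalgebra.coe_centralizer_centralizer]
  congr 2
  rw [Set.union_eq_left]
  intro x hx
  obtain ⟨g, hg⟩ : star x ∈ Set.range (lam (G := G)) := hx
  refine ⟨g⁻¹, ?_⟩
  rw [← star_lam, hg, star_star]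

section

variable {G H : Type} [Group G] [NormedAddCommGroup H] [InnerProductSpace ℂ H] [CompleteSpace H]

theorem phi_lam (δ : HilbertBasis G ℂ H) (L : G → H →L[ℂ] H) (hL : ∀ g h, L g (δ h) = δ (g * h))
    (g : G) : δ.repr.conjStarAlgEquiv (L g) = (lam g : Ell G →L[ℂ] Ell G) := by
  classical
  have h1 : L g = δ.repr.conjStarAlgEquiv.symm (lam g : Ell G →L[ℂ] Ell G) := by
    refine ContinuousLinearMap.ext_on (s := Set.range δ) ?_ ?_
    · have := δ.dense_span
      rw [Submodule.dense_iff_topologicalClosure_eq_top]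
      exact this
    · rintro _ ⟨h, rfl⟩
      rw [hL, LinearIsometryEquiv.symm_conjStarAlgEquiv_apply_apply]
      have e1 : δ.repr (δ h) = (delta h : Ell G) := by
        rw [delta_eq]; exact δ.repr_self h
      have e2 : δ.repr (δ (g * h)) = (delta (g * h) : Ell G) := by
        rw [delta_eq]; exact δ.repr_self (g * h)
      rw [e1, lam_delta, ← e2, LinearIsometryEquiv.symm_apply_apply]
  rw [h1]
  exact δ.repr.conjStarAlgEquiv.apply_symm_apply _

theorem mem_iff (δ : HilbertBasis G ℂ H) (L : G → H →L[ℂ] H)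
    (hL : ∀ g h, L g (δ h) = δ (g * h)) (M : StarSubalgebra ℂ (H →L[ℂ] H))
    (hM : (M : Set (H →L[ℂ] H)) = Set.centralizer (Set.centralizer (Set.range L)))
    (x : H →L[ℂ] H) :
    δ.repr.conjStarAlgEquiv x ∈ (LG G).toStarSubalgebra ↔ x ∈ M := by
  let φ : (H →L[ℂ] H) ≃* (Ell G →L[ℂ] Ell G) :=
    { toFun := δ.repr.conjStarAlgEquiv
      invFun := δ.repr.conjStarAlgEquiv.symm
      left_inv := δ.repr.conjStarAlgEquiv.symm_apply_apply
      right_inv := δ.repr.conjStarAlgEquiv.apply_symm_apply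
      map_mul' := fun x y => map_mul δ.repr.conjStarAlgEquiv x y }
  have h0 : φ '' (Set.range L) = Set.range (lam (G := G)) := by
    rw [← Set.range_comp]
    congr 1
    funext g
    exact phi_lam δ L hL g
  have h1 := image_cent φ _ _ h0
  have h2 := mem_cent φ _ _ h1 x
  have e1 : x ∈ M ↔ x ∈ (M : Set (H →L[ℂ] H)) := Iff.rfl
  have e2 : δ.repr.conjStarAlgEquiv x ∈ (LG G).toStarSubalgebra
      ↔ φ x ∈ ((LG G).toStarSubalgebra : Set (Ell G →L[ℂ] Ell G)) := Iff.rfl
  rw [e1, e2, hM, LG_coe]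
  exact h2

/-- the isomorphism of an abstract copy of `L(G)` with `EltG G` -/
noncomputable def toElt (δ : HilbertBasis G ℂ H) (L : G → H →L[ℂ] H)
    (hL : ∀ g h, L g (δ h) = δ (g * h)) (M : StarSubalgebra ℂ (H →L[ℂ] H))
    (hM : (M : Set (H →L[ℂ] H)) = Set.centralizer (Set.centralizer (Set.range L))) :
    M ≃⋆ₐ[ℂ] EltG G where
  toFun x := ⟨δ.repr.conjStarAlgEquiv (x : H →L[ℂ] H), (mem_iff δ L hL M hM _).2 x.2⟩
  invFun y := ⟨δ.repr.conjStarAlgEquiv.symm (y : Ell G →L[ℂ] Ell G), by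
    rw [← mem_iff δ L hL M hM, StarAlgEquiv.apply_symm_apply]; exact y.2⟩
  left_inv x := Subtype.ext (δ.repr.conjStarAlgEquiv.symm_apply_apply _)
  right_inv y := Subtype.ext (δ.repr.conjStarAlgEquiv.apply_symm_apply _)
  map_mul' x y := Subtype.ext (map_mul δ.repr.conjStarAlgEquiv _ _)
  map_add' x y := Subtype.ext (map_add δ.repr.conjStarAlgEquiv _ _)
  map_smul' c x := Subtype.ext (map_smul δ.repr.conjStarAlgEquiv _ _)
  map_star' x := Subtype.ext (map_star δ.repr.conjStarAlgEquiv _)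

theorem inner_eq (δ : HilbertBasis G ℂ H) (x : H →L[ℂ] H) (g : G) :
    inner ℂ (δ g) (x (δ 1)) = (δ.repr.conjStarAlgEquiv x (delta 1)) g := by
  classical
  rw [← δ.repr_apply_apply, LinearIsometryEquiv.conjStarAlgEquiv_apply_apply]
  have : δ.repr.symm (delta 1 : Ell G) = δ 1 := by
    rw [delta_eq]; exact δ.repr_symm_single 1
  rw [this]

end

end Pool.Agent.H667R2.FG.Abs
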