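import Mathlib
import Pool.Agent.H667R2.FG.Stubs

/-! Main theorem from the matrix inequality and the operator side. -/

namespace Pool.Agent.H667R2.FG.P

open MeasureTheory Matrix Filter
open scoped Matrix.Norms.L2Operator ComplexConjugate ENNReal

theorem min_one_le_rpow (t s : ℝ) (ht : 0 ≤ t) (hs0 : 0 ≤ s) (hs1 : s ≤ 1) :
    min 1 t ≤ t ^ s := by
  rcases le_total 1 t with h | h
  · exact (min_le_left _ _).trans (Real.one_le_rpow h hs0)
  · rcases ht.eq_or_lt with h0 | h0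
    · rw [← h0, min_eq_right (by norm_num : (0 : ℝ) ≤ 1)]
      exact Real.rpow_nonneg le_rfl _
    · refine (min_le_right _ _).trans ?_
      calc t = t ^ (1 : ℝ) := (Real.rpow_one t).symm
        _ ≤ t ^ s := Real.rpow_le_rpow_of_exponent_ge h0 h hs1

/-- finite truncation of an `ℓ²` vector -/
theorem exists_trunc {G : Type} [Group G] (ξ : Ell G) (ε : ℝ) (hε : 0 < ε) :
    ∃ F : G →₀ ℂ, (∀ g, F g = 0 ∨ F g = ξ g) ∧ ‖ξ - F.sum fun w c => c • (delta w : Ell G)‖ ≤ ε := by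
  classical
  have h1 : HasSum (fun g : G => (lp.single 2 g (ξ g) : Ell G)) ξ :=
    lp.hasSum_single (by norm_num) ξ
  have h2 := h1.eventually (Metric.ball_mem_nhds ξ hε)
  obtain ⟨Λ, hΛ⟩ := h2.exists
  refine ⟨Finsupp.onFinset Λ (fun g => if g ∈ Λ then ξ g else 0) (by
    intro a ha; by_contra h; simp [h] at ha), ?_, ?_⟩
  · intro g
    by_cases hg : g ∈ Λ
    · right; simp [hg]
    · left; simp [hg]
  · rw [Finsupp.onFinset_sum _ (fun a => by simp)]
    have e : ∑ a ∈ Λ, (if a ∈ Λ then ξ a else 0) • (delta a : Ell G)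
        = ∑ a ∈ Λ, (lp.single 2 a (ξ a) : Ell G) := by
      refine Finset.sum_congr rfl fun a ha => ?_
      rw [if_pos ha]
      have : (delta a : Ell G) = lp.single 2 a (1 : ℂ) := by
        unfold delta
        congr!
      rw [this, ← lp.single_smul]
      simp
    rw [e]
    have h3 : dist (∑ a ∈ Λ, (lp.single 2 a (ξ a) : Ell G)) ξ < ε := hΛ
    rw [dist_comm, dist_eq_norm] at h3
    exact h3.le

/-- The core theorem: Sobolev regularity exponents of a free generating family. -/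
theorem core_theorem (m d : ℕ)
    (v : Fin m → unitary (Ell (FreeGroup (Fin (d + 1))) →L[ℂ] Ell (FreeGroup (Fin (d + 1)))))
    (hv : Core m (d + 1) v) (s : Fin m → ℝ) (hs0 : ∀ j, 0 ≤ s j) (hs1 : ∀ j, s j ≤ 1)
    (hsum : ∀ j, Summable fun g : FreeGroup (Fin (d + 1)) => (blen g : ℝ) ^ (s j) *
      ‖((v j : Ell (FreeGroup (Fin (d + 1))) →L[ℂ] Ell (FreeGroup (Fin (d + 1)))) (delta 1)) g‖ ^ 2)
    (j₀ : Fin m) (hj₀ : ∀ j, s j ≤ s j₀) : ∑ j ∈ Finset.univ.erase j₀, s j ≤ d := by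
  classical
  obtain ⟨C, hC, HC⟩ := matrix_ineq
  have hm : 0 < m := Fin.pos j₀
  set ξ : Fin m → Ell (FreeGroup (Fin (d + 1))) := fun j =>
    (v j : Ell (FreeGroup (Fin (d + 1))) →L[ℂ] Ell (FreeGroup (Fin (d + 1)))) (delta 1) with hξ
  set M : Fin m → ℝ := fun j => ∑' g : FreeGroup (Fin (d + 1)), (blen g : ℝ) ^ (s j) *
      ‖(ξ j) g‖ ^ 2 with hM
  have hM0 : ∀ j, 0 ≤ M j := fun j => tsum_nonneg fun g => by positivity
  set Cj : Fin m → ℝ := fun j => √(M j) + 1 with hCj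
  have hCj1 : ∀ j, 1 ≤ Cj j := fun j => by
    simp only [hCj]; have := Real.sqrt_nonneg (M j); linarith
  have hCjM : ∀ j, M j ≤ (Cj j) ^ 2 := fun j => by
    simp only [hCj]
    have h1 := Real.sqrt_nonneg (M j)
    have h2 := Real.sq_sqrt (hM0 j)
    nlinarith
  refine final_calculus m d s (C ^ d * C * ∏ j, (C * √m * Cj j)) ?_ j₀ hs0 hj₀ (1 / 10)
    (by norm_num) ?_
  · have : ∀ j, 0 < Cj j := fun j => lt_of_lt_of_le one_pos (hCj1 j)
    have hm' : (0 : ℝ) < m := by exact_mod_cast hm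
    apply mul_pos (by positivity)
    exact Finset.prod_pos fun j _ => by have := this j; positivity
  · intro ε hε hε'
    have hε1 : ε ≤ 1 := hε'.trans (by norm_num)
    choose F hF1 hF2 using fun j => exists_trunc (ξ j) (ε / 2) (by positivity)
    set N : ℕ := Finset.univ.sup fun j => (F j).support.sup fun w => w.norm with hNdef
    have hN : ∀ j, ∀ w ∈ (F j).support, w.norm ≤ N := by
      intro j w hw
      exact (Finset.le_sup (f := fun w : FreeGroup (Fin (d + 1)) => w.norm) hw).trans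
        (Finset.le_sup (f := fun j => (F j).support.sup fun w => w.norm) (Finset.mem_univ j))
    have hpow : ∀ j, ε ≤ ε ^ (s j) := fun j => by
      calc ε = ε ^ (1 : ℝ) := (Real.rpow_one ε).symm
        _ ≤ ε ^ (s j) := Real.rpow_le_rpow_of_exponent_ge hε hε1 (hs1 j)
    have hpos : ∀ j, 0 < ε ^ (s j) := fun j => Real.rpow_pos_of_pos hε _
    have hρ₀ρ : ∀ j, ε ^ (s j₀) ≤ Cj j * ε ^ (s j) := fun j => by
      have h1 : ε ^ (s j₀) ≤ ε ^ (s j) := Real.rpow_le_rpow_of_exponent_ge hε hε1 (hj₀ j)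
      nlinarith [hCj1 j, hpos j]
    have hερ : ∀ j, ε ≤ Cj j * ε ^ (s j) := fun j => by
      nlinarith [hCj1 j, hpos j, hpow j]
    have hFsum : ∀ j, ((F j).sum fun w c => ‖c‖ ^ 2 * min 1 ((blen w : ℝ) * ε ^ 2))
        ≤ (Cj j * ε ^ (s j)) ^ 2 := by
      intro j
      have h1 : ((F j).sum fun w c => ‖c‖ ^ 2 * min 1 ((blen w : ℝ) * ε ^ 2))
          ≤ ∑ w ∈ (F j).support, (ε ^ (s j)) ^ 2 * ((blen w : ℝ) ^ (s j) * ‖(ξ j) w‖ ^ 2) := by
        refine Finset.sum_le_sum fun w hw => ?_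
        have hFw : F j w = ξ j w := by
          rcases hF1 j w with h | h
          · exact absurd h (Finsupp.mem_support_iff.1 hw)
          · exact h
        rw [hFw]
        have h2 := min_one_le_rpow ((blen w : ℝ) * ε ^ 2) (s j) (by positivity) (hs0 j) (hs1 j)
        have h3 : ((blen w : ℝ) * ε ^ 2) ^ (s j) = (blen w : ℝ) ^ (s j) * (ε ^ (s j)) ^ 2 := by
          rw [Real.mul_rpow (by positivity) (by positivity)]
          congr 1
          rw [← Real.rpow_natCast ε 2, ← Real.rpow_natCast (ε ^ (s j)) 2, ← Real.rpow_mul hε.le,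
            ← Real.rpow_mul hε.le, mul_comm]
        rw [h3] at h2
        calc ‖(ξ j) w‖ ^ 2 * min 1 ((blen w : ℝ) * ε ^ 2)
            ≤ ‖(ξ j) w‖ ^ 2 * ((blen w : ℝ) ^ (s j) * (ε ^ (s j)) ^ 2) :=
              mul_le_mul_of_nonneg_left h2 (by positivity)
          _ = _ := by ring
      refine h1.trans ?_
      rw [← Finset.mul_sum]
      have h4 : ∑ w ∈ (F j).support, ((blen w : ℝ) ^ (s j) * ‖(ξ j) w‖ ^ 2) ≤ M j :=
        (hsum j).sum_le_tsum _ (fun w _ => by positivity)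
      have h5 := hCjM j
      have h6 := hpos j
      calc (ε ^ (s j)) ^ 2 * ∑ w ∈ (F j).support, ((blen w : ℝ) ^ (s j) * ‖(ξ j) w‖ ^ 2)
          ≤ (ε ^ (s j)) ^ 2 * (Cj j) ^ 2 :=
            mul_le_mul_of_nonneg_left (h4.trans h5) (by positivity)
        _ = _ := by ring
    have hop := fun κ hκ => op_main m d v hv F (fun _ => ε / 2) (fun _ => by positivity)
      (fun j => hF2 j) (2 * N) κ hκ
    have hfin := HC m d N F ε (ε ^ (s j₀)) (fun j => Cj j * ε ^ (s j)) hm hε hε'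
      (hpos j₀) (Real.rpow_le_one hε.le hε1 (hs0 j₀)) hρ₀ρ hερ hN hFsum
      (by
        intro κ hκ
        filter_upwards [hop κ hκ] with k hk
        obtain ⟨S, h1, h2, h3⟩ := hk
        refine ⟨S, h1, h2, fun u hu => ?_⟩
        obtain ⟨x, hx1, hx2⟩ := h3 u hu
        refine ⟨x, hx1, fun j => (hx2 j).trans ?_⟩
        have := hερ j
        linarith)
    refine hfin.trans (le_of_eq ?_)
    have e1 : ∏ j, (C * √(m : ℝ) * (Cj j * ε ^ (s j)))
        = (∏ j, (C * √(m : ℝ) * Cj j)) * ∏ j, ε ^ (s j) := by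
      rw [← Finset.prod_mul_distrib]
      exact Finset.prod_congr rfl fun j _ => by ring
    rw [e1, div_pow, _root_.one_div_pow]
    have h7 := hpos j₀
    field_simp

/-- **Main theorem.** -/
theorem main_theorem (m d : ℕ)
    (θ : EltG (FreeGroup (Fin m)) ≃⋆ₐ[ℂ] EltG (FreeGroup (Fin (d + 1))))
    (hθ : ∀ x : EltG (FreeGroup (Fin m)),
      tau (θ x : Ell (FreeGroup (Fin (d + 1))) →L[ℂ] Ell (FreeGroup (Fin (d + 1))))
        = tau (x : Ell (FreeGroup (Fin m)) →L[ℂ] Ell (FreeGroup (Fin m))))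
    (s : Fin m → ℝ) (hs0 : ∀ j, 0 ≤ s j) (hs1 : ∀ j, s j ≤ 1)
    (hsum : ∀ j, Summable fun g : FreeGroup (Fin (d + 1)) => (blen g : ℝ) ^ (s j) *
      ‖((θ (lamE (FreeGroup.of j)) : Ell (FreeGroup (Fin (d + 1))) →L[ℂ]
        Ell (FreeGroup (Fin (d + 1)))) (delta 1)) g‖ ^ 2)
    (j₀ : Fin m) (hj₀ : ∀ j, s j ≤ s j₀) : ∑ j ∈ Finset.univ.erase j₀, s j ≤ d := by
  obtain ⟨v, hv1, hv2⟩ := core_of_iso m (d + 1) θ hθ
  refine core_theorem m d v hv2 s hs0 hs1 (fun j => ?_) j₀ hj₀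
  have := hsum j
  rw [← hv1 j] at this
  exact this

end Pool.Agent.H667R2.FG.P
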