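import Mathlib
import Pool.Agent.H667R2.FG.TMT2

/-! The lemmas on random matrices and nets with explicit bounds for the constants. -/

namespace Pool.Agent.H667R2.FG.XC

open MeasureTheory Matrix Filter
open scoped Matrix.Norms.L2Operator ComplexConjugate ENNReal

theorem cKB_ge (C : ℝ) (hC1 : 1 ≤ C) (hC64 : C ≤ 64) : 1 / 1100 ≤ 1 / (4 * C) / TPACK.KB := by
  have hKB := TPACK.KB_pos
  have h1 : TPACK.KB ≤ 4.25 := by
    unfold TPACK.KB
    have h2 : Real.exp (1 / 2) ≤ 1.65 := by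
      have h3 : Real.exp (1 / 2) ^ 2 = Real.exp 1 := by
        rw [← Real.exp_nat_mul]; norm_num
      have h4 := Real.exp_one_lt_d9
      have h5 : Real.exp (1 / 2) ^ 2 ≤ 1.65 ^ 2 := by rw [h3]; norm_num; linarith
      exact le_of_pow_le_pow_left₀ (by norm_num) (by norm_num) h5
    have h6 : √(2 * Real.pi) ≤ 2.52 := by
      rw [Real.sqrt_le_left (by norm_num)]
      have := Real.pi_lt_d2
      norm_num; linarith
    calc Real.exp (1 / 2) * √(2 * Real.pi) ≤ 1.65 * 2.52 :=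
          mul_le_mul h2 h6 (Real.sqrt_nonneg _) (by norm_num)
      _ ≤ 4.25 := by norm_num
  rw [div_div, div_le_div_iff₀ (by norm_num) (by positivity)]
  have : 4 * C * TPACK.KB ≤ 4 * 64 * 4.25 := by
    apply mul_le_mul (by linarith) h1 hKB.le (by norm_num)
  linarith

section
open TRAND TRAND.RAND

theorem rand_normX : ∃ C : ℝ, 1 ≤ C ∧ C ≤ 64 ∧ ∀ k : ℕ, 0 < k →
    volume {S : Fin k × Fin k → ℝ | (∀ p, |S p| ≤ 1) ∧ C * √k ≤ ‖herm S‖}
      ≤ ENNReal.ofReal (2 ^ (k ^ 2) / 2) := by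
  refine ⟨64, by norm_num, le_rfl, ?_⟩
  intro k hk
  have hkpos : (0 : ℝ) < k := by exact_mod_cast hk
  have hsq : 0 < √(k : ℝ) := Real.sqrt_pos.2 hkpos
  obtain ⟨T, hT1, hT2, hT3⟩ := net k
  have hset : {S : Fin k × Fin k → ℝ | (∀ p, |S p| ≤ 1) ∧ 64 * √k ≤ ‖herm S‖} =
      {S | 64 * √k ≤ ‖herm S‖} ∩ (Set.pi Set.univ fun _ : Fin k × Fin k => Set.Icc (-1 : ℝ) 1) := by
    ext S
    simp only [Set.mem_ofPred_eq, Set.mem_inter_iff, Set.mem_pi, Set.mem_univ, true_imp_iff, Set.mem_Icc,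
      abs_le]
    tauto
  have hms : MeasurableSet (Set.pi Set.univ fun _ : Fin k × Fin k => Set.Icc (-1 : ℝ) 1) :=
    MeasurableSet.univ_pi fun _ => measurableSet_Icc
  rw [hset, ← Measure.restrict_apply' hms, ← mu_eq]
  set s : ℝ := 8 * √k with hs
  have hspos : 0 < s := by positivity
  have hsub : {S : Fin k × Fin k → ℝ | 64 * √k ≤ ‖herm S‖} ⊆
      ⋃ x ∈ T, ⋃ y ∈ T, {S | s ≤ ∑ p, S p * cf x y p} := by
    intro S hS
    simp only [Set.mem_ofPred_eq] at hS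
    by_contra hcon
    simp only [Set.mem_iUnion, Set.mem_ofPred_eq, not_exists, not_le] at hcon
    have h1 := norm_le_of_net hT2 (Matrix.toEuclideanCLM (n := Fin k) (𝕜 := ℂ) (herm S)) hspos.le
      (fun x hx y hy => by rw [inner_herm]; exact (hcon x hx y hy).le)
    rw [← Matrix.cstar_norm_def] at h1
    have : 64 * √k ≤ 4 * s := hS.trans h1
    rw [hs] at this
    nlinarith
  refine (measure_mono hsub).trans ?_
  have hE : ∀ x ∈ T, ∀ y ∈ T, mu k {S | s ≤ ∑ p, S p * cf x y p} ≤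
      ENNReal.ofReal (2 ^ (k ^ 2) * Real.exp (-(16 * k))) := by
    intro x hx y hy
    have h1 := chernoff (cf x y) (sum_cf_sq_le (hT1 x hx).le (hT1 y hy).le) s hspos.le
    have h2 : s ^ 2 / 4 = 16 * k := by
      rw [hs, mul_pow, Real.sq_sqrt hkpos.le]; ring
    rw [h2] at h1
    exact h1
  calc mu k (⋃ x ∈ T, ⋃ y ∈ T, {S | s ≤ ∑ p, S p * cf x y p})
      ≤ ∑ x ∈ T, mu k (⋃ y ∈ T, {S | s ≤ ∑ p, S p * cf x y p}) := measure_biUnion_finset_le _ _
    _ ≤ ∑ x ∈ T, ∑ y ∈ T, mu k {S | s ≤ ∑ p, S p * cf x y p} :=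
        Finset.sum_le_sum fun x _ => measure_biUnion_finset_le _ _
    _ ≤ ∑ x ∈ T, ∑ y ∈ T, ENNReal.ofReal (2 ^ (k ^ 2) * Real.exp (-(16 * k))) :=
        Finset.sum_le_sum fun x hx => Finset.sum_le_sum fun y hy => hE x hx y hy
    _ = ((T.card * T.card : ℕ) : ℝ≥0∞) * ENNReal.ofReal (2 ^ (k ^ 2) * Real.exp (-(16 * k))) := by
        rw [Finset.sum_const, Finset.sum_const, smul_smul, nsmul_eq_mul]
    _ ≤ ENNReal.ofReal (25 ^ k * 25 ^ k) * ENNReal.ofReal (2 ^ (k ^ 2) * Real.exp (-(16 * k))) := by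
        gcongr
        rw [← ENNReal.ofReal_natCast]
        apply ENNReal.ofReal_le_ofReal
        push_cast
        have : (T.card : ℝ) ≤ 25 ^ k := by exact_mod_cast hT3
        gcongr
    _ = ENNReal.ofReal (25 ^ k * 25 ^ k * (2 ^ (k ^ 2) * Real.exp (-(16 * k)))) := by
        exact (ENNReal.ofReal_mul (p := 25 ^ k * 25 ^ k) (by positivity)).symm
    _ ≤ ENNReal.ofReal (2 ^ (k ^ 2) / 2) := by
        apply ENNReal.ofReal_le_ofReal
        have h1 : (25 : ℝ) ^ k * 25 ^ k * Real.exp (-(16 * k)) ≤ 1 / 2 := by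
          have e1 : (25 : ℝ) ^ k * 25 ^ k * Real.exp (-(16 * k)) = (625 * Real.exp (-16)) ^ k := by
            rw [mul_pow, ← Real.exp_nat_mul, ← mul_pow]
            norm_num
            ring
          rw [e1]
          have e2 : 625 * Real.exp (-16) ≤ 1 / 2 := by
            have h3 : (2 : ℝ) ^ 16 ≤ Real.exp 16 := by
              have h4 : (2 : ℝ) ≤ Real.exp 1 := by
                have := Real.add_one_le_exp (1 : ℝ)
                linarith
              calc (2 : ℝ) ^ 16 ≤ (Real.exp 1) ^ 16 := by gcongr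
                _ = Real.exp 16 := by rw [← Real.exp_nat_mul]; norm_num
            rw [Real.exp_neg, ← div_eq_mul_inv, div_le_iff₀ (Real.exp_pos _)]
            nlinarith
          calc (625 * Real.exp (-16)) ^ k ≤ (625 * Real.exp (-16)) ^ 1 :=
                pow_le_pow_of_le_one (by positivity) (by linarith) hk
            _ ≤ 1 / 2 := by rw [pow_one]; exact e2
        calc (25 : ℝ) ^ k * 25 ^ k * (2 ^ (k ^ 2) * Real.exp (-(16 * k)))
            = 2 ^ (k ^ 2) * (25 ^ k * 25 ^ k * Real.exp (-(16 * k))) := by ring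
          _ ≤ 2 ^ (k ^ 2) * (1 / 2) := by gcongr
          _ = 2 ^ (k ^ 2) / 2 := by ring

end

section
open TPACK

theorem pack_hermX : ∃ c : ℝ, 0 < c ∧ 1 / 1100 ≤ c ∧ ∀ k : ℕ, 0 < k → ∀ δ : ℝ, 0 < δ → δ ≤ 1 →
    ∃ s : Finset (Mat k), (∀ a ∈ s, a.IsHermitian ∧ ‖a‖ ≤ 1 / 4) ∧
      (∀ a ∈ s, ∀ b ∈ s, a ≠ b → δ ≤ hs (a - b)) ∧ (c / δ) ^ (k ^ 2) ≤ s.card := by
  classical
  obtain ⟨C, hC1, hC64, hC⟩ := rand_normX
  have hC0 : 0 < C := by linarith
  set c₀ : ℝ := 1 / (4 * C) with hc₀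
  have hc0 : 0 < c₀ := by positivity
  have hKB := KB_pos
  refine ⟨c₀ / KB, by positivity, cKB_ge C hC1 hC64, fun k hk δ hδ hδ1 => ?_⟩
  have hk' : (0 : ℝ) < k := by exact_mod_cast hk
  set G : Set (Fin k × Fin k → ℝ) := {S | (∀ p, |S p| ≤ 1) ∧ ‖herm S‖ < C * √k} with hG
  have hGvol : ENNReal.ofReal (2 ^ (k ^ 2) / 2) ≤ volume G := by
    have h1 : {S : Fin k × Fin k → ℝ | ∀ p, |S p| ≤ 1} ⊆
        G ∪ {S : Fin k × Fin k → ℝ | (∀ p, |S p| ≤ 1) ∧ C * √k ≤ ‖herm S‖} := by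
      intro S hS
      rcases lt_or_ge ‖herm S‖ (C * √k) with h | h
      · exact Or.inl ⟨hS, h⟩
      · exact Or.inr ⟨hS, h⟩
    have h2 := (measure_mono h1).trans (measure_union_le (μ := volume) _ _)
    rw [pack_cube] at h2
    have h3 := h2.trans (add_le_add le_rfl (hC k hk))
    have h4 : ENNReal.ofReal (2 ^ (k ^ 2)) = ENNReal.ofReal (2 ^ (k ^ 2) / 2) +
        ENNReal.ofReal (2 ^ (k ^ 2) / 2) := by
      rw [← ENNReal.ofReal_add (by positivity) (by positivity)]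
      congr 1
      ring
    rw [h4] at h3
    exact (ENNReal.add_le_add_iff_right ENNReal.ofReal_ne_top).1 h3
  set Sep : Finset (Fin k × Fin k → ℝ) → Prop := fun s => (∀ S ∈ s, S ∈ G) ∧
    ∀ S ∈ s, ∀ T ∈ s, S ≠ T → δ ≤ hs (aS c₀ S - aS c₀ T) with hSep
  -- a covering separated set is large
  have hcov : ∀ s, Sep s → (∀ S ∈ G, ∃ T ∈ s, hs (aS c₀ S - aS c₀ T) < δ) →
      (c₀ / KB / δ) ^ (k ^ 2) ≤ s.card := by
    intro s _ hs'
    set R : ℝ := δ * k / c₀ with hR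
    have hR0 : 0 < R := by positivity
    have h1 : G ⊆ ⋃ T ∈ s, {S : Fin k × Fin k → ℝ | ∑ p, (S p - T p) ^ 2 ≤ R ^ 2} := by
      intro S hS
      obtain ⟨T, hT, hlt⟩ := hs' S hS
      rw [Set.mem_iUnion₂]
      refine ⟨T, hT, ?_⟩
      rw [Set.mem_ofPred_eq]
      have h2 : hs (aS c₀ S - aS c₀ T) ^ 2 ≤ δ ^ 2 :=
        pow_le_pow_left₀ (Real.sqrt_nonneg _) hlt.le 2
      rw [hs_aS_sub hk c₀ hc0] at h2
      have h5 : R ^ 2 = δ ^ 2 / (c₀ / k) ^ 2 := by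
        rw [hR]; field_simp
      rw [h5, le_div_iff₀ (by positivity)]
      linarith
    have h2 := (measure_mono h1).trans (measure_biUnion_finset_le (μ := volume) s _)
    have h3 : ∑ T ∈ s, volume {S : Fin k × Fin k → ℝ | ∑ p, (S p - T p) ^ 2 ≤ R ^ 2} ≤
        ∑ T ∈ s, ENNReal.ofReal ((KB * R / k) ^ (k ^ 2)) :=
      Finset.sum_le_sum fun T _ => pack_ball_volume hk R hR0 T
    rw [Finset.sum_const, nsmul_eq_mul] at h3
    have h4 := hGvol.trans (h2.trans h3)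
    have h5 : ((s.card : ℕ) : ℝ≥0∞) * ENNReal.ofReal ((KB * R / k) ^ (k ^ 2)) =
        ENNReal.ofReal ((s.card : ℝ) * (KB * R / k) ^ (k ^ 2)) := by
      rw [ENNReal.ofReal_mul (by positivity), ENNReal.ofReal_natCast]
    rw [h5, ENNReal.ofReal_le_ofReal_iff (by positivity)] at h4
    have h6 : (1 : ℝ) ≤ 2 ^ (k ^ 2) / 2 := by
      have h7 : (2 : ℝ) ^ 1 ≤ 2 ^ (k ^ 2) := pow_le_pow_right₀ (by norm_num) (Nat.one_le_pow 2 k hk)
      rw [le_div_iff₀ (by norm_num)]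
      linarith
    have h8 : c₀ / KB / δ * (KB * R / k) = 1 := by
      rw [hR]; field_simp
    have h9 : (c₀ / KB / δ) ^ (k ^ 2) * (KB * R / k) ^ (k ^ 2) = 1 := by
      rw [← mul_pow, h8, one_pow]
    have h10 : 0 < (KB * R / k) ^ (k ^ 2) := by positivity
    have h11 : (c₀ / KB / δ) ^ (k ^ 2) * (KB * R / k) ^ (k ^ 2) ≤
        (s.card : ℝ) * (KB * R / k) ^ (k ^ 2) := by
      rw [h9]; linarith
    exact le_of_mul_le_mul_right h11 h10
  -- existence of a large separated set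
  have hex : ∃ s, Sep s ∧ (c₀ / KB / δ) ^ (k ^ 2) ≤ s.card := by
    by_contra hcon
    push Not at hcon
    have hgrow : ∀ m : ℕ, ∃ s, Sep s ∧ m ≤ s.card := by
      intro m
      induction m with
      | zero => exact ⟨∅, ⟨by simp, by simp⟩, Nat.zero_le _⟩
      | succ m ih =>
        obtain ⟨s, hs1, hs2⟩ := ih
        by_cases hc : ∀ S ∈ G, ∃ T ∈ s, hs (aS c₀ S - aS c₀ T) < δ
        · exact absurd (hcov s hs1 hc) (not_le.2 (hcon s hs1))
        · push Not at hc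
          obtain ⟨S, hS, hfar⟩ := hc
          have hns : S ∉ s := by
            intro hmem
            have := hfar S hmem
            have h0 : hs (aS c₀ S - aS c₀ S) ^ 2 = 0 := by
              rw [hs_aS_sub hk c₀ hc0]; simp
            have h1 : hs (aS c₀ S - aS c₀ S) = 0 := by
              exact pow_eq_zero_iff (two_ne_zero) |>.1 h0
            linarith
          refine ⟨insert S s, ⟨?_, ?_⟩, ?_⟩
          · intro T hT
            rcases Finset.mem_insert.1 hT with rfl | hT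
            · exact hS
            · exact hs1.1 T hT
          · intro T hT U hU hne
            have hsymm : ∀ A B : Fin k × Fin k → ℝ,
                hs (aS c₀ A - aS c₀ B) = hs (aS c₀ B - aS c₀ A) := by
              intro A B
              have e : hs (aS c₀ A - aS c₀ B) ^ 2 = hs (aS c₀ B - aS c₀ A) ^ 2 := by
                rw [hs_aS_sub hk c₀ hc0, hs_aS_sub hk c₀ hc0]
                congr 1
                exact Finset.sum_congr rfl fun p _ => by ring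
              exact (pow_left_inj₀ (Real.sqrt_nonneg _) (Real.sqrt_nonneg _) two_ne_zero).1 e
            rcases Finset.mem_insert.1 hT with rfl | hT2
            · rcases Finset.mem_insert.1 hU with rfl | hU
              · exact absurd rfl hne
              · exact hfar U hU
            · rcases Finset.mem_insert.1 hU with rfl | hU
              · rw [hsymm]; exact hfar T (by assumption)
              · exact hs1.2 T (by assumption) U hU hne
          · rw [Finset.card_insert_of_notMem hns]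
            omega
    obtain ⟨s, hs1, hs2⟩ := hgrow ⌈(c₀ / KB / δ) ^ (k ^ 2)⌉₊
    have h1 := hcon s hs1
    have h2 : (c₀ / KB / δ) ^ (k ^ 2) ≤ (⌈(c₀ / KB / δ) ^ (k ^ 2)⌉₊ : ℝ) := Nat.le_ceil _
    have h3 : (⌈(c₀ / KB / δ) ^ (k ^ 2)⌉₊ : ℝ) ≤ s.card := by exact_mod_cast hs2
    linarith
  obtain ⟨s, hs1, hs2⟩ := hex
  have hne : ∀ S ∈ s, ∀ T ∈ s, S ≠ T → aS c₀ S ≠ aS c₀ T := by
    intro S hS T hT hST he
    have := hs1.2 S hS T hT hST
    rw [he] at this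
    have h0 : hs (aS c₀ T - aS c₀ T) ^ 2 = 0 := by
      rw [hs_aS_sub hk c₀ hc0]; simp
    have h1 : hs (aS c₀ T - aS c₀ T) = 0 := pow_eq_zero_iff (two_ne_zero) |>.1 h0
    linarith
  refine ⟨s.image (aS c₀), ?_, ?_, ?_⟩
  · intro a ha
    obtain ⟨S, hS, rfl⟩ := Finset.mem_image.1 ha
    refine ⟨aS_herm c₀ S, ?_⟩
    unfold aS
    rw [norm_smul, Complex.norm_real, Real.norm_eq_abs, abs_of_pos (by positivity)]
    have h1 := (hs1.1 S hS).2.le
    calc c₀ / √k * ‖herm S‖ ≤ c₀ / √k * (C * √k) := by gcongr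
      _ = 1 / 4 := by
        rw [hc₀]
        have : √(k : ℝ) ≠ 0 := (Real.sqrt_pos.2 hk').ne'
        field_simp
  · intro a ha b hb hab
    obtain ⟨S, hS, rfl⟩ := Finset.mem_image.1 ha
    obtain ⟨T, hT, rfl⟩ := Finset.mem_image.1 hb
    exact hs1.2 S hS T hT fun h => hab (h ▸ rfl)
  · rw [Finset.card_image_of_injOn]
    · exact hs2
    · intro S hS T hT he
      by_contra hST
      exact hne S hS T hT hST he

end

section
open TBALL

theorem small_ballX : ∃ C : ℝ, 1 ≤ C ∧ C ≤ 11000 ∧ ∀ k : ℕ, 0 < k → ∀ (T : Mat k) (δ : ℝ), 0 < δ →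
    haarU k {u | hs ((u : Mat k) - T) ≤ δ} ≤ ENNReal.ofReal ((C * δ) ^ (k ^ 2)) := by
  obtain ⟨c, hc, hc1100, hpack⟩ := pack_hermX
  refine ⟨max 10 (10 / c), (by norm_num : (1 : ℝ) ≤ 10).trans (le_max_left _ _),
    max_le (by norm_num) (by rw [div_le_iff₀ hc]; linarith), ?_⟩
  intro k hk T δ hδ
  set C := max 10 (10 / c) with hC
  have hC0 : 0 < C := lt_of_lt_of_le (by norm_num) (le_max_left _ _)
  rcases le_or_gt 1 (C * δ) with h1 | h1
  · calc haarU k {u | hs ((u : Mat k) - T) ≤ δ} ≤ 1 := prob_le_one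
      _ = ENNReal.ofReal 1 := by rw [ENNReal.ofReal_one]
      _ ≤ _ := ENNReal.ofReal_le_ofReal (one_le_pow₀ h1)
  rcases Set.eq_empty_or_nonempty {u : UU k | hs ((u : Mat k) - T) ≤ δ} with he | ⟨u₀, hu₀⟩
  · rw [he, measure_empty]
    positivity
  have h10 : 10 * δ ≤ 1 := by
    have : 10 * δ ≤ C * δ := mul_le_mul_of_nonneg_right (le_max_left _ _) hδ.le
    linarith
  obtain ⟨s, hs1, hs2, hs3⟩ := hpack k hk (10 * δ) (by positivity) h10
  have hsub : {u : UU k | hs ((u : Mat k) - T) ≤ δ} ⊆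
      {u : UU k | hs ((u : Mat k) - (u₀ : Mat k)) ≤ 2 * δ} := by
    intro u hu
    have h2 : (u : Mat k) - (u₀ : Mat k) = ((u : Mat k) - T) - ((u₀ : Mat k) - T) := by abel
    have h3 := hs_sub_le ((u : Mat k) - T) ((u₀ : Mat k) - T)
    simp only [Set.mem_ofPred_eq] at hu hu₀ ⊢
    rw [h2]
    linarith
  refine (measure_mono hsub).trans ?_
  rw [ball_meas]
  set β := haarU k {u : UU k | hs ((u : Mat k) - 1) ≤ 2 * δ} with hβ
  -- the disjoint balls
  classical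
  set f : Mat k → Set (UU k) := fun a => if ha : a.IsHermitian then
    {u : UU k | hs ((u : Mat k) - ((uexp a ha : UU k) : Mat k)) ≤ 2 * δ} else ∅ with hf
  have hf' : ∀ a (ha : a.IsHermitian), f a =
      {u : UU k | hs ((u : Mat k) - ((uexp a ha : UU k) : Mat k)) ≤ 2 * δ} := by
    intro a ha
    rw [hf]
    simp only
    rw [dif_pos ha]
  have hmeas : ∀ a ∈ s, MeasurableSet (f a) := by
    intro a ha
    rw [hf' a (hs1 a ha).1]
    exact (ball_closed _ _).measurableSet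
  have hdisj : Set.PairwiseDisjoint (↑s : Set (Mat k)) f := by
    intro a ha b hb hab
    rw [Function.onFun, Set.disjoint_left]
    intro u hua hub
    rw [hf' a (hs1 a ha).1, Set.mem_ofPred_eq] at hua
    rw [hf' b (hs1 b hb).1, Set.mem_ofPred_eq] at hub
    rw [uexp_coe] at hua hub
    have h2 := hs2 a ha b hb hab
    have h3 := exp_lower a b (hs1 a ha).1 (hs1 b hb).1 (hs1 a ha).2 (hs1 b hb).2
    have h4 : NormedSpace.exp (Complex.I • a) - NormedSpace.exp (Complex.I • b) =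
        ((u : Mat k) - NormedSpace.exp (Complex.I • b)) -
          ((u : Mat k) - NormedSpace.exp (Complex.I • a)) := by abel
    have h5 := hs_sub_le ((u : Mat k) - NormedSpace.exp (Complex.I • b))
      ((u : Mat k) - NormedSpace.exp (Complex.I • a))
    rw [← h4] at h5
    linarith
  have hsum : (s.card : ℝ≥0∞) * β ≤ 1 := by
    calc (s.card : ℝ≥0∞) * β = ∑ a ∈ s, haarU k (f a) := by
          rw [Finset.sum_congr rfl fun a ha => by rw [hf' a (hs1 a ha).1, ball_meas],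
            Finset.sum_const, nsmul_eq_mul]
      _ = haarU k (⋃ a ∈ s, f a) := (measure_biUnion_finset hdisj hmeas).symm
      _ ≤ 1 := prob_le_one
  have hβ1 : β ≤ 1 := prob_le_one
  have hβt : β ≠ ⊤ := ne_top_of_le_ne_top ENNReal.one_ne_top hβ1
  have hsum' : (s.card : ℝ) * β.toReal ≤ 1 := by
    have := ENNReal.toReal_mono ENNReal.one_ne_top hsum
    rwa [ENNReal.toReal_mul, ENNReal.toReal_natCast, ENNReal.toReal_one] at this
  rw [← ENNReal.ofReal_toReal hβt]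
  apply ENNReal.ofReal_le_ofReal
  have hq : 0 < (c / (10 * δ)) ^ (k ^ 2) := by positivity
  have h6 : (c / (10 * δ)) ^ (k ^ 2) * β.toReal ≤ 1 :=
    (mul_le_mul_of_nonneg_right hs3 ENNReal.toReal_nonneg).trans hsum'
  have h7 : β.toReal ≤ (10 * δ / c) ^ (k ^ 2) := by
    have h8 : β.toReal ≤ 1 / (c / (10 * δ)) ^ (k ^ 2) := by
      rw [le_div_iff₀ hq, mul_comm]
      exact h6
    refine h8.trans (le_of_eq ?_)
    rw [one_div, ← inv_pow, inv_div]
  refine h7.trans ?_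
  apply pow_le_pow_left₀ (by positivity)
  calc 10 * δ / c = 10 / c * δ := by ring
    _ ≤ C * δ := mul_le_mul_of_nonneg_right (le_max_right _ _) hδ.le

end

section
open TNET

theorem net_unitaryX : ∃ C : ℝ, 1 ≤ C ∧ C ≤ 14 ∧ ∀ k : ℕ, 0 < k → ∀ ε : ℝ, 0 < ε → ε ≤ 1 →
    ∃ T : Finset (UU k), (T.card : ℝ) ≤ (C / ε) ^ (k ^ 2 + 1) ∧
      ∀ u : UU k, ∃ v ∈ T, ‖(u : Mat k) - (v : Mat k)‖ ≤ ε := by
  classical
  have hpi := Real.pi_pos
  refine ⟨1 + 4 * Real.pi, by linarith, by linarith [Real.pi_lt_d2], ?_⟩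
  intro k _ ε hε hε1
  obtain ⟨s, hs, hs'⟩ := net_ball (E := ℝ) Real.pi (ε / 2) hpi (by positivity)
  obtain ⟨t, ht, ht'⟩ := net_ball (E := He k) Real.pi (ε / 2) hpi (by positivity)
  have hC1 : 1 + 2 * Real.pi / (ε / 2) ≤ (1 + 4 * Real.pi) / ε := by
    rw [add_div]
    have h1 : 1 ≤ 1 / ε := by rw [le_div_iff₀ hε]; linarith
    have h2 : 2 * Real.pi / (ε / 2) = 4 * Real.pi / ε := by
      field_simp
      ring
    rw [h2]
    linarith
  have hC0 : 1 ≤ 1 + 2 * Real.pi / (ε / 2) := by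
    have : 0 ≤ 2 * Real.pi / (ε / 2) := by positivity
    linarith
  refine ⟨(s ×ˢ t).image fun p => uexp p.1 p.2, ?_, ?_⟩
  · have h1 : (((s ×ˢ t).image fun p => uexp p.1 p.2).card : ℝ) ≤ (s.card : ℝ) * t.card := by
      have : ((s ×ˢ t).image fun p => uexp p.1 p.2).card ≤ s.card * t.card := by
        rw [← Finset.card_product]
        exact Finset.card_image_le
      exact_mod_cast this
    refine h1.trans ?_
    have h2 : (s.card : ℝ) ≤ (1 + 4 * Real.pi) / ε := by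
      refine hs.trans ?_
      rw [Module.finrank_self, pow_one]
      exact hC1
    have h3 : (t.card : ℝ) ≤ ((1 + 4 * Real.pi) / ε) ^ (k ^ 2) := by
      refine ht.trans ?_
      refine (pow_le_pow_right₀ hC0 (finrank_He k)).trans ?_
      exact pow_le_pow_left₀ (by linarith) hC1 _
    rw [pow_succ, mul_comm (((1 + 4 * Real.pi) / ε) ^ (k ^ 2))]
    exact mul_le_mul h2 h3 (Nat.cast_nonneg _) (by positivity)
  · intro u
    obtain ⟨c, hc, h, hh, hhn, hu⟩ := unitary_exp u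
    -- the phase
    have hc' : c = Complex.exp (Complex.I * (Complex.arg c : ℂ)) := by
      have := Complex.norm_mul_exp_arg_mul_I c
      rw [hc, Complex.ofReal_one, one_mul] at this
      rw [mul_comm]
      exact this.symm
    obtain ⟨θ, hθ, hθ'⟩ := hs' (Complex.arg c) (by
      rw [Real.norm_eq_abs]
      exact Complex.abs_arg_le_pi c)
    obtain ⟨g, hg, hg'⟩ := ht' ⟨h, hh⟩ hhn
    refine ⟨uexp θ g, Finset.mem_image.2 ⟨(θ, g), Finset.mem_product.2 ⟨hθ, hg⟩, rfl⟩, ?_⟩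
    have e1 : (u : Mat k) - (uexp θ g : UU k) =
        (c - Complex.exp (Complex.I * θ)) • NormedSpace.exp (Complex.I • h) +
        Complex.exp (Complex.I * θ) •
          (NormedSpace.exp (Complex.I • h) - NormedSpace.exp (Complex.I • (g : Mat k))) := by
      rw [hu]
      change _ - Complex.exp (Complex.I * θ) • NormedSpace.exp (Complex.I • (g : Mat k)) = _
      rw [sub_smul, smul_sub]
      abel
    have h4 : ‖NormedSpace.exp (Complex.I • h)‖ ≤ 1 :=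
      norm_unitary_le (selfAdjoint.expUnitary (⟨h, hh⟩ : selfAdjoint (Mat k)))
    have h5 : ‖c - Complex.exp (Complex.I * θ)‖ ≤ ε / 2 := by
      conv_lhs => rw [hc']
      refine (norm_phase_sub_le _ _).trans ?_
      rwa [Real.norm_eq_abs] at hθ'
    have h6 : ‖Complex.exp (Complex.I * θ)‖ = 1 := by
      rw [mul_comm Complex.I (θ : ℂ), Complex.norm_exp_ofReal_mul_I]
    have h7 := exp_lip h (g : Mat k) hh g.2
    have h8 : ‖h - (g : Mat k)‖ ≤ ε / 2 := hg'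
    rw [e1]
    refine (norm_add_le _ _).trans ?_
    rw [norm_smul, norm_smul, h6, one_mul]
    have h9 : ‖c - Complex.exp (Complex.I * θ)‖ * ‖NormedSpace.exp (Complex.I • h)‖ ≤ ε / 2 * 1 :=
      mul_le_mul h5 h4 (norm_nonneg _) (by positivity)
    linarith [h7.trans h8]

end

section
open TPHASE

theorem net_phaseX : ∃ C : ℝ, 1 ≤ C ∧ C ≤ 14 ∧ ∀ ε : ℝ, 0 < ε → ε ≤ 1 / 10 → ∀ β : ℝ, 0 < β →
    ∃ L : ℝ, 1 ≤ L ∧ ∀ k : ℕ, 0 < k →
    ∃ T : Finset (UU k), (T.card : ℝ) ≤ L * (C / ε) ^ (k ^ 2 + 1) ∧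
      ∀ p : UU k, ∃ v ∈ T, ‖((p⁻¹ * v : UU k) : Mat k) - 1‖ ≤ 4 * ε ∧
        |(ntr ((p⁻¹ * v : UU k) : Mat k)).im| ≤ β := by
  classical
  obtain ⟨C, hC, hC14, hnet⟩ := net_unitaryX
  refine ⟨C, hC, hC14, fun ε hε hε' β hβ => ?_⟩
  have hδ : 0 < min β (ε / 10) := lt_min hβ (by linarith)
  obtain ⟨Z, hZ⟩ := circ_net _ hδ
  refine ⟨(Z.card : ℝ) + 1, by have : (0:ℝ) ≤ Z.card := by positivity
                               linarith, fun k hk => ?_⟩
  obtain ⟨T, hT, hT'⟩ := hnet k hk ε hε (by linarith)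
  have hCε : 0 ≤ C / ε := by positivity
  refine ⟨(Z ×ˢ T).image (fun q => circMul q.1 q.2), ?_, fun p => ?_⟩
  · have h1 : (((Z ×ˢ T).image (fun q => circMul q.1 q.2)).card : ℝ) ≤ (Z.card : ℝ) * T.card := by
      have := (Finset.card_image_le (s := Z ×ˢ T) (f := fun q => circMul q.1 q.2))
      rw [Finset.card_product] at this
      exact_mod_cast this
    refine h1.trans ?_
    refine mul_le_mul (by linarith) hT (by positivity) (by positivity)
  · obtain ⟨v, hv, hpv⟩ := hT' p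
    set r : UU k := p⁻¹ * v with hr
    have hr1 : ‖(r : Mat k) - 1‖ ≤ ε := by
      have e1 : (r : Mat k) - 1 = ((p⁻¹ : UU k) : Mat k) * ((v : Mat k) - (p : Mat k)) := by
        rw [mul_sub, ← Submonoid.coe_mul, ← Submonoid.coe_mul, inv_mul_cancel]
        simp [hr]
      rw [e1]
      refine (norm_mul_le _ _).trans ?_
      have h2 := norm_unitary_le (p⁻¹ : UU k)
      have h3 : ‖(v : Mat k) - (p : Mat k)‖ ≤ ε := by rw [norm_sub_rev]; exact hpv
      have := mul_le_mul h2 h3 (norm_nonneg _) zero_le_one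
      linarith
    have hz : ‖ntr (r : Mat k) - 1‖ ≤ ε := by
      have e1 : ntr (r : Mat k) - 1 = ntr ((r : Mat k) - 1) := by
        rw [ntr_sub, ntr_one hk]
      rw [e1]
      exact (norm_ntr_le _).trans hr1
    have hz1 : ‖ntr (r : Mat k)‖ ≤ 1 := (norm_ntr_le _).trans (norm_unitary_le r)
    have h0 : 0 < ‖ntr (r : Mat k)‖ := by
      have : ‖(1 : ℂ)‖ ≤ ‖ntr (r : Mat k)‖ + ‖ntr (r : Mat k) - 1‖ := by
        have := norm_sub_le (ntr (r : Mat k)) (ntr (r : Mat k) - 1)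
        simpa using this
      rw [norm_one] at this
      linarith
    have hcirc : ‖conj (ntr (r : Mat k)) / (‖ntr (r : Mat k)‖ : ℂ)‖ = 1 := by
      rw [norm_div, Complex.norm_conj]
      simp [h0.ne']
    let ζs : Circle := ⟨conj (ntr (r : Mat k)) / (‖ntr (r : Mat k)‖ : ℂ), by
      rw [Submonoid.unitSphere, ]
      exact mem_sphere_zero_iff_norm.2 hcirc⟩
    obtain ⟨ζ, hζ, hd⟩ := hZ ζs
    have hζ' : ‖(ζ : ℂ) - conj (ntr (r : Mat k)) / (‖ntr (r : Mat k)‖ : ℂ)‖ ≤ min β (ε / 10) := by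
      have : dist ζ ζs = ‖(ζ : ℂ) - (ζs : ℂ)‖ := by
        change dist (ζ : ℂ) (ζs : ℂ) = _
        exact dist_eq_norm _ _
      rw [dist_comm] at hd
      rw [this] at hd
      exact hd.le
    obtain ⟨a1, a2⟩ := phase_aux (ntr (r : Mat k)) ε _ hε hε' hz hz1 (ζ : ℂ) hζ'
    refine ⟨circMul ζ v, Finset.mem_image.2 ⟨(ζ, v), Finset.mem_product.2 ⟨hζ, hv⟩, rfl⟩, ?_, ?_⟩
    · rw [inv_circMul]
      have e1 : (ζ : ℂ) • ((p⁻¹ * v : UU k) : Mat k) - 1
          = ((ζ : ℂ) - 1) • (r : Mat k) + ((r : Mat k) - 1) := by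
        rw [sub_smul, one_smul, hr]; abel
      rw [e1]
      refine (norm_add_le _ _).trans ?_
      rw [norm_smul]
      have h2 := norm_unitary_le r
      have h3 : ‖(ζ : ℂ) - 1‖ * ‖(r : Mat k)‖ ≤ ‖(ζ : ℂ) - 1‖ * 1 :=
        mul_le_mul_of_nonneg_left h2 (norm_nonneg _)
      have h4 := min_le_right β (ε / 10)
      linarith
    · rw [inv_circMul, ntr_smul]
      exact a2.trans (min_le_left _ _)

end

section
open TORB

theorem orbit_ballX : ∃ C : ℝ, 1 ≤ C ∧ C ≤ 2 ^ 16 ∧ ∀ k : ℕ, 0 < k → ∀ (m : ℕ), 0 < m → ∀ (T : Fin m → Mat k)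
    (A : Fin m → ℝ) (ρ₀ : ℝ), 0 < ρ₀ → ρ₀ ≤ 1 → (∀ j, ρ₀ ≤ A j) →
    haarP k (Fin m) {u | ∃ V : UU k, ∀ j, hs ((u j : Mat k) - (V : Mat k) * T j * ((V⁻¹ : UU k) : Mat k)) ≤ A j}
      ≤ ENNReal.ofReal ((C / ρ₀) ^ (k ^ 2 + 1) * ∏ j, (C * A j) ^ (k ^ 2)) := by
  obtain ⟨C₁, hC₁, hC14, hnet⟩ := net_unitaryX
  obtain ⟨C₂, hC₂, hC11, hball⟩ := small_ballX
  refine ⟨max C₁ (5 * C₂), le_max_of_le_left hC₁, max_le (by linarith) (by norm_num; linarith),
    ?_⟩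
  intro k hk m hm T A ρ₀ hρ hρ1 hA
  set C := max C₁ (5 * C₂) with hC
  have hC1 : C₁ ≤ C := le_max_left _ _
  have hC2 : 5 * C₂ ≤ C := le_max_right _ _
  have hC0 : 0 < C := by linarith
  have hA0 : ∀ j, 0 < A j := fun j => lt_of_lt_of_le hρ (hA j)
  obtain ⟨N, hN, hN2⟩ := hnet k hk ρ₀ hρ hρ1
  -- the covering
  have hcov : {u : Fin m → UU k | ∃ V : UU k, ∀ j,
      hs ((u j : Mat k) - (V : Mat k) * T j * ((V⁻¹ : UU k) : Mat k)) ≤ A j} ⊆
      ⋃ V' ∈ N, Set.pi Set.univ (fun j : Fin m =>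
        {w : UU k | hs ((w : Mat k) - (V' : Mat k) * T j * ((V'⁻¹ : UU k) : Mat k)) ≤ 5 * A j}) := by
    rintro u ⟨V, hV⟩
    obtain ⟨V', hV'N, hV'⟩ := hN2 V
    rw [Set.mem_iUnion₂]
    refine ⟨V', hV'N, ?_⟩
    intro j _
    have hT : hs (T j) ≤ 1 + A j := by
      have e1 : hs (T j) = hs ((V : Mat k) * T j * ((V⁻¹ : UU k) : Mat k)) := by
        rw [hs_mul_unitary, hs_unitary_mul]
      have e2 : (V : Mat k) * T j * ((V⁻¹ : UU k) : Mat k) = (u j : Mat k) -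
          ((u j : Mat k) - (V : Mat k) * T j * ((V⁻¹ : UU k) : Mat k)) := by abel
      rw [e1, e2]
      refine (hs_sub_le _ _).trans ?_
      rw [hs_unitary hk]
      linarith [hV j]
    have h1 := orb_conj_diff V V' (T j) ρ₀ hV'
    have h2 : 2 * ρ₀ * hs (T j) ≤ 4 * A j := by
      have h3 : 2 * ρ₀ * hs (T j) ≤ 2 * ρ₀ * (1 + A j) :=
        mul_le_mul_of_nonneg_left hT (by linarith)
      have h4 : ρ₀ * A j ≤ A j := by
        have := mul_le_mul_of_nonneg_right hρ1 (hA0 j).le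
        linarith
      have h5 := hA j
      nlinarith
    have e3 : (u j : Mat k) - (V' : Mat k) * T j * ((V'⁻¹ : UU k) : Mat k) =
        ((u j : Mat k) - (V : Mat k) * T j * ((V⁻¹ : UU k) : Mat k)) +
        ((V : Mat k) * T j * ((V⁻¹ : UU k) : Mat k) -
          (V' : Mat k) * T j * ((V'⁻¹ : UU k) : Mat k)) := by abel
    show hs ((u j : Mat k) - (V' : Mat k) * T j * ((V'⁻¹ : UU k) : Mat k)) ≤ 5 * A j
    rw [e3]
    refine (hs_add_le _ _).trans ?_
    linarith [hV j]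
  have hpiece : ∀ V' : UU k, haarP k (Fin m) (Set.pi Set.univ (fun j : Fin m =>
        {w : UU k | hs ((w : Mat k) - (V' : Mat k) * T j * ((V'⁻¹ : UU k) : Mat k)) ≤ 5 * A j})) ≤
      ENNReal.ofReal (∏ j, (C * A j) ^ (k ^ 2)) := by
    intro V'
    rw [Measure.pi_pi, ENNReal.ofReal_prod_of_nonneg
      (fun j _ => pow_nonneg (mul_nonneg hC0.le (hA0 j).le) _)]
    refine Finset.prod_le_prod' fun j _ => ?_
    refine (hball k hk _ (5 * A j) (by linarith [hA0 j])).trans ?_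
    apply ENNReal.ofReal_le_ofReal
    have h6 : C₂ * (5 * A j) ≤ C * A j := by
      have := mul_le_mul_of_nonneg_right hC2 (hA0 j).le
      linarith
    exact pow_le_pow_left₀ (mul_nonneg (by linarith) (by linarith [hA0 j])) h6 _
  have hprod0 : 0 ≤ ∏ j, (C * A j) ^ (k ^ 2) :=
    Finset.prod_nonneg fun j _ => pow_nonneg (mul_nonneg hC0.le (hA0 j).le) _
  calc haarP k (Fin m) _ ≤ haarP k (Fin m) (⋃ V' ∈ N, Set.pi Set.univ (fun j : Fin m =>
        {w : UU k | hs ((w : Mat k) - (V' : Mat k) * T j * ((V'⁻¹ : UU k) : Mat k)) ≤ 5 * A j})) :=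
        measure_mono hcov
    _ ≤ ∑ V' ∈ N, haarP k (Fin m) (Set.pi Set.univ (fun j : Fin m =>
        {w : UU k | hs ((w : Mat k) - (V' : Mat k) * T j * ((V'⁻¹ : UU k) : Mat k)) ≤ 5 * A j})) :=
        measure_biUnion_finset_le _ _
    _ ≤ ∑ V' ∈ N, ENNReal.ofReal (∏ j, (C * A j) ^ (k ^ 2)) :=
        Finset.sum_le_sum fun V' _ => hpiece V'
    _ = ENNReal.ofReal ((N.card : ℝ) * ∏ j, (C * A j) ^ (k ^ 2)) := by
        rw [Finset.sum_const, nsmul_eq_mul, ENNReal.ofReal_mul (Nat.cast_nonneg _),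
          ENNReal.ofReal_natCast]
    _ ≤ ENNReal.ofReal ((C / ρ₀) ^ (k ^ 2 + 1) * ∏ j, (C * A j) ^ (k ^ 2)) := by
        apply ENNReal.ofReal_le_ofReal
        apply mul_le_mul_of_nonneg_right _ hprod0
        refine hN.trans ?_
        apply pow_le_pow_left₀ (by positivity)
        exact div_le_div_of_nonneg_right hC1 hρ.le

end

section
open TMT2

theorem matrix_ineqX : ∃ C : ℝ, 1 ≤ C ∧ C ≤ 2 ^ 59 ∧ ∀ (m d N : ℕ)
    (F : Fin m → (FreeGroup (Fin (d + 1)) →₀ ℂ)) (ε ρ₀ : ℝ) (ρ : Fin m → ℝ),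
    0 < m → 0 < ε → ε ≤ 1 / 10 → 0 < ρ₀ → ρ₀ ≤ 1 → (∀ j, ρ₀ ≤ ρ j) → (∀ j, ε ≤ ρ j) →
    (∀ j, ∀ w ∈ (F j).support, w.norm ≤ N) →
    (∀ j, ((F j).sum fun w c => ‖c‖ ^ 2 * min 1 ((blen w : ℝ) * ε ^ 2)) ≤ ρ j ^ 2) →
    (∀ κ > 0, ∀ᶠ k in atTop, ∃ S : Set (Fin m → UU k), MeasurableSet S ∧
      1 / 2 ≤ haarP k (Fin m) S ∧ ∀ u ∈ S, ∃ x : Fin (d + 1) → UU k, SmallTr κ (2 * N) x ∧
        ∀ j, hs ((pol x (F j) : Mat k) - (u j : Mat k)) ≤ ρ j) →
    1 ≤ (C / ε) ^ d * (C / ρ₀) * ∏ j, (C * ρ j) := by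
  obtain ⟨C₁, hC₁, hC14, H₁⟩ := net_phaseX
  obtain ⟨C₂, hC₂, H₂⟩ := net_diag
  obtain ⟨C₃, hC₃, hC16, H₃⟩ := orbit_ballX
  refine ⟨max C₁ (2 ^ 43 * C₃), le_max_of_le_left hC₁, max_le (by norm_num; linarith)
    (by norm_num at hC16 ⊢; linarith), ?_⟩
  intro m d N F ε ρ₀ ρ hm hε hε' hρ₀ hρ₀' hρ₀ρ hερ hN hF hS
  obtain ⟨κ₀, hκ₀, β, hβ, k₀, hquad⟩   := quadEst' m d N F ε ρ hm hε hε' hερ hN hF
  obtain ⟨L, hL, H₁'⟩ := H₁ ε hε hε' β hβ
  set K : ℝ := ∑ j, ((F j).sum fun w c => ‖c‖ * w.norm) with hKdef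
  have hKj : ∀ j, 0 ≤ ((F j).sum fun w c => ‖c‖ * (w.norm : ℝ)) := fun j =>
    Finset.sum_nonneg fun w _ => by positivity
  have hK0 : 0 ≤ K := Finset.sum_nonneg fun j _ => hKj j
  set ε₁ : ℝ := min 1 (min (κ₀ / (4 * N + 4)) (ρ₀ / (K + 1))) with hε₁
  have hε₁pos : 0 < ε₁ := by
    rw [hε₁]; positivity
  have hε₁1 : ε₁ ≤ 1 := min_le_left _ _
  have hε₁2 : ε₁ ≤ κ₀ / (4 * N + 4) := (min_le_right _ _).trans (min_le_left _ _)
  have hε₁3 : ε₁ ≤ ρ₀ / (K + 1) := (min_le_right _ _).trans (min_le_right _ _)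
  have hκ : 2 * N * ε₁ ≤ κ₀ / 2 := by
    rw [le_div_iff₀ (by positivity)] at hε₁2
    have hN0 : (0 : ℝ) ≤ N := Nat.cast_nonneg N
    nlinarith
  have hK : ∀ j, ((F j).sum fun w c => ‖c‖ * (w.norm : ℝ)) * ε₁ ≤ ρ j := by
    intro j
    have h1 : ((F j).sum fun w c => ‖c‖ * (w.norm : ℝ)) ≤ K :=
      Finset.single_le_sum (f := fun j => ((F j).sum fun w c => ‖c‖ * (w.norm : ℝ)))
        (fun j _ => hKj j) (Finset.mem_univ j)
    rw [le_div_iff₀ (by positivity)] at hε₁3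
    have h2 := hρ₀ρ j
    nlinarith [hKj j]
  have hev := hS (κ₀ / 2) (by positivity)
  have hmain : ∀ᶠ k : ℕ in atTop,
      1 / 4 ≤ (L ^ d * (C₁ / ε) ^ d * (C₃ / ρ₀) * (famA m ρ).card) * (C₂ / ε₁) ^ k *
      ((C₁ / ε) ^ d * (C₃ / ρ₀) * (2 ^ (43 * m) * ∏ j, (C₃ * ρ j))) ^ (k ^ 2) := by
    filter_upwards [hev, eventually_ge_atTop k₀, eventually_gt_atTop 0] with k hk hk1 hk2
    obtain ⟨S, hSm, hS1, hS2⟩ := hk
    obtain ⟨TN, hTN, hTN'⟩ := H₁' k hk2
    obtain ⟨TD, hTD, hTD'⟩ := H₂ k hk2 ε₁ hε₁pos hε₁1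
    exact key k m d hk2 hm F C₁ C₂ C₃ L ε ε₁ ρ₀ β κ₀ ρ N hL hC₁ hC₂ hC₃ hε hε₁pos hρ₀ hρ₀ρ
      (fun x u h1 h2 r h3 h4 => hquad k hk1 hk2 x u h1 h2 r h3 h4) TN hTN hTN' TD hTD hTD' hκ hK
      (fun T A hA => H₃ k hk2 m hm T A ρ₀ hρ₀ hρ₀' hA) S hSm hS1 hS2
  have hρpos : ∀ j, 0 < ρ j := fun j => lt_of_lt_of_le hρ₀ (hρ₀ρ j)
  have h1 := one_le_of_limit _ _ _ (by positivity) (by positivity) (by
    apply mul_nonneg (by positivity)
    apply mul_nonneg (by positivity)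
    exact Finset.prod_nonneg fun j _ => by have := hρpos j; positivity) hmain
  refine h1.trans ?_
  have hCC : C₁ ≤ max C₁ (2 ^ 43 * C₃) := le_max_left _ _
  have hCC3 : 2 ^ 43 * C₃ ≤ max C₁ (2 ^ 43 * C₃) := le_max_right _ _
  have hCC3' : C₃ ≤ max C₁ (2 ^ 43 * C₃) := le_trans (by linarith) hCC3
  have e2 : (2 : ℝ) ^ (43 * m) * ∏ j, (C₃ * ρ j) = ∏ j, (2 ^ 43 * C₃ * ρ j) := by
    have : (2 : ℝ) ^ (43 * m) = ∏ _j : Fin m, (2 : ℝ) ^ 43 := by
      rw [Finset.prod_const, Finset.card_univ, Fintype.card_fin, ← pow_mul]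
    rw [this, ← Finset.prod_mul_distrib]
    exact Finset.prod_congr rfl fun j _ => by ring
  rw [e2]
  apply mul_le_mul
  · apply mul_le_mul
    · exact pow_le_pow_left₀ (by positivity) (by gcongr) d
    · gcongr
    · positivity
    · positivity
  · apply Finset.prod_le_prod
    · intro j _; have := hρpos j; positivity
    · intro j _
      have h2 := hρpos j
      gcongr
  · exact Finset.prod_nonneg fun j _ => by have := hρpos j; positivity
  · positivity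

end

end Pool.Agent.H667R2.FG.XC
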