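import Mathlib
import Pool.Agent.H667R2.FG.Master
import Pool.Agent.H667R2.FG.XC

/-! The master inequality with the explicit constant `2 ^ 59`. -/

namespace Pool.Agent.H667R2.FG.MasterX

open MeasureTheory Matrix Filter
open scoped Matrix.Norms.L2Operator ComplexConjugate ENNReal
open GOM Master

/-- **Master inequality.** -/
theorem masterX : ∀ (ι : Type) (d m : ℕ)
    (v : ι → unitary (Op (FreeGroup (Fin (d + 1))))) (_ : CoreG (d + 1) v)
    (J : Fin m → ι) (_ : Function.Injective J) (ε ρ₀ : ℝ) (ρ : Fin m → ℝ),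
    0 < m → 0 < ε → ε ≤ 1 / 10 → 0 < ρ₀ → ρ₀ ≤ 1 → (∀ j, ρ₀ ≤ ρ j) → (∀ j, ε ≤ ρ j) →
    (∀ j, ∑' g : FreeGroup (Fin (d + 1)), ‖((v (J j) : Op (FreeGroup (Fin (d + 1))))
      (delta 1)) g‖ ^ 2 * min 1 ((blen g : ℝ) * ε ^ 2) ≤ ρ j ^ 2) →
    1 ≤ (2 ^ 59 / ε) ^ d * (2 ^ 59 / ρ₀) * ∏ j, (2 ^ 59 * ρ j) := by
  classical
  obtain ⟨C, hC, hC59, HC⟩ := XC.matrix_ineqX
  intro ι d m v hv J hJ ε ρ₀ ρ hm hε hε' hρ₀ hρ₀' hρ₀ρ hερ hΩ
  set ξ : Fin m → Ell (FreeGroup (Fin (d + 1))) := fun j =>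
    (v (J j) : Op (FreeGroup (Fin (d + 1)))) (delta 1) with hξ
  choose F hF1 hF2 using fun j => exists_trunc (ξ j) (ε / 2) (by positivity)
  set N : ℕ := Finset.univ.sup fun j => (F j).support.sup fun w => w.norm with hNdef
  have hN : ∀ j, ∀ w ∈ (F j).support, w.norm ≤ N := by
    intro j w hw
    exact (Finset.le_sup (f := fun w : FreeGroup (Fin (d + 1)) => w.norm) hw).trans
      (Finset.le_sup (f := fun j => (F j).support.sup fun w => w.norm) (Finset.mem_univ j))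
  have hFsum : ∀ j, ((F j).sum fun w c => ‖c‖ ^ 2 * min 1 ((blen w : ℝ) * ε ^ 2)) ≤ ρ j ^ 2 := by
    intro j
    refine le_trans ?_ (hΩ j)
    have h1 : ((F j).sum fun w c => ‖c‖ ^ 2 * min 1 ((blen w : ℝ) * ε ^ 2))
        = ∑ w ∈ (F j).support, ‖(ξ j) w‖ ^ 2 * min 1 ((blen w : ℝ) * ε ^ 2) := by
      refine Finset.sum_congr rfl fun w hw => ?_
      have hFw : F j w = ξ j w := by
        rcases hF1 j w with h | h
        · exact absurd h (Finsupp.mem_support_iff.1 hw)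
        · exact h
      rw [hFw]
    rw [h1]
    exact (summable_omega (ξ j) ε).sum_le_tsum _ (fun w _ => by positivity)
  have hop := fun κ hκ => op_main_gen m d v hv J hJ F (fun _ => ε / 2) (fun _ => by positivity)
    (fun j => hF2 j) (2 * N) κ hκ
  have hfin := HC m d N F ε ρ₀ ρ hm hε hε' hρ₀ hρ₀' hρ₀ρ hερ hN hFsum ?_
  · refine hfin.trans ?_
    have hC0 : 0 < C := by linarith
    have hρpos : ∀ j, 0 < ρ j := fun j => lt_of_lt_of_le hρ₀ (hρ₀ρ j)
    have h1 : (C / ε) ^ d ≤ (2 ^ 59 / ε) ^ d :=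
      pow_le_pow_left₀ (by positivity) (div_le_div_of_nonneg_right hC59 hε.le) d
    have h2 : C / ρ₀ ≤ 2 ^ 59 / ρ₀ := div_le_div_of_nonneg_right hC59 hρ₀.le
    have h3 : ∏ j, (C * ρ j) ≤ ∏ j, (2 ^ 59 * ρ j) :=
      Finset.prod_le_prod (fun j _ => by have := hρpos j; positivity)
        (fun j _ => mul_le_mul_of_nonneg_right hC59 (hρpos j).le)
    have h4 : 0 ≤ ∏ j, (C * ρ j) :=
      Finset.prod_nonneg (fun j _ => by have := hρpos j; positivity)
    exact mul_le_mul (mul_le_mul h1 h2 (by positivity) (by positivity)) h3 h4 (by positivity)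
  intro κ hκ
  filter_upwards [hop κ hκ] with k hk
  obtain ⟨S, h1, h2, h3⟩ := hk
  refine ⟨S, h1, h2, fun u hu => ?_⟩
  obtain ⟨x, hx1, hx2⟩ := h3 u hu
  refine ⟨x, hx1, fun j => (hx2 j).trans ?_⟩
  have := hερ j
  linarith


end Pool.Agent.H667R2.FG.MasterX
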