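import Mathlib
import Pool.Agent.H667R2.FG.Sob
import Pool.Agent.H667R2.FG.MasterX

/-! Logarithmic bound for the number of generators with images close to short words. -/

namespace Pool.Agent.H667R2.FG.LogC

open GOM Master

theorem comb_apply {G : Type} [Group G] (f : G →₀ ℂ) (k : G) :
    (f.sum fun g c => c • (delta g : Ell G)) k = f k := by
  classical
  unfold Finsupp.sum
  rw [lp.coeFn_sum, Finset.sum_apply]
  have h : ∀ g ∈ f.support, (f g • (delta g : Ell G)) k = if k = g then f g else 0 := by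
    intro g _
    show f g * (delta g : Ell G) k = _
    rw [delta_apply]
    split_ifs <;> simp
  rw [Finset.sum_congr rfl h, Finset.sum_ite_eq f.support k f]
  split_ifs with hk
  · rfl
  · exact (Finsupp.notMem_support_iff.1 hk).symm

theorem omega_le {d : ℕ} (ξ : Ell (FreeGroup (Fin (d + 1)))) (hξ : ‖ξ‖ = 1) (L : ℕ) (hL : 1 ≤ L)
    (c : ℝ) (hc : 0 < c) (f : FreeGroup (Fin (d + 1)) →₀ ℂ) (hf : ∀ g, f g ≠ 0 → blen g ≤ L)
    (hfd : ‖ξ - f.sum fun g c => c • (delta g : Ell (FreeGroup (Fin (d + 1))))‖ ≤ c) :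
    ∑' g : FreeGroup (Fin (d + 1)), ‖ξ g‖ ^ 2 * min 1 ((blen g : ℝ) * (c / √L) ^ 2)
      ≤ (2 * c) ^ 2 := by
  set y : Ell (FreeGroup (Fin (d + 1))) := f.sum fun g c => c • delta g with hy
  have hL0 : (0 : ℝ) < L := by exact_mod_cast hL
  have hLε : (L : ℝ) * (c / √L) ^ 2 = c ^ 2 := by
    rw [div_pow, Real.sq_sqrt hL0.le]; field_simp
  have hle : ∀ g : FreeGroup (Fin (d + 1)), ‖ξ g‖ ^ 2 * min 1 ((blen g : ℝ) * (c / √L) ^ 2)
      ≤ c ^ 2 * ‖ξ g‖ ^ 2 + ‖(ξ - y) g‖ ^ 2 := by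
    intro g
    by_cases hg : blen g ≤ L
    · have h1 : min 1 ((blen g : ℝ) * (c / √L) ^ 2) ≤ c ^ 2 := by
        refine (min_le_right _ _).trans ?_
        rw [← hLε]
        exact mul_le_mul_of_nonneg_right (by exact_mod_cast hg) (by positivity)
      have h2 := mul_le_mul_of_nonneg_left h1 (by positivity : (0 : ℝ) ≤ ‖ξ g‖ ^ 2)
      have h3 : (0 : ℝ) ≤ ‖(ξ - y) g‖ ^ 2 := by positivity
      linarith
    · have h1 : f g = 0 := by
        by_contra h
        exact hg (hf g h)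
      have h2 : (ξ - y) g = ξ g := by
        show ξ g - y g = ξ g
        rw [hy, comb_apply, h1, sub_zero]
      rw [h2]
      have h3 : ‖ξ g‖ ^ 2 * min 1 ((blen g : ℝ) * (c / √L) ^ 2) ≤ ‖ξ g‖ ^ 2 :=
        mul_le_of_le_one_right (by positivity) (min_le_left _ _)
      have h4 : (0 : ℝ) ≤ c ^ 2 * ‖ξ g‖ ^ 2 := by positivity
      linarith
  have h1 := (summable_omega ξ (c / √L)).tsum_le_tsum hle
    (((summable_sq ξ).mul_left _).add (summable_sq (ξ - y)))
  rw [((summable_sq ξ).mul_left (c ^ 2)).tsum_add (summable_sq (ξ - y)), tsum_mul_left, tsum_sq,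
    tsum_sq, hξ] at h1
  have h2 : ‖ξ - y‖ ^ 2 ≤ c ^ 2 := pow_le_pow_left₀ (norm_nonneg _) hfd 2
  nlinarith [sq_nonneg c]

/-- the bound for a family of free generators -/
theorem log_core (ι : Type) (d m : ℕ)
    (v : ι → unitary (Op (FreeGroup (Fin (d + 1))))) (hv : CoreG (d + 1) v)
    (J : Fin m → ι) (hJ : Function.Injective J) (L : ℕ) (hL : 1 ≤ L)
    (hf : ∀ j, ∃ f : FreeGroup (Fin (d + 1)) →₀ ℂ, (∀ g, f g ≠ 0 → blen g ≤ L) ∧
      ‖(v (J j) : Op (FreeGroup (Fin (d + 1)))) (delta 1) - f.sum fun g c => c • delta g‖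
        ≤ 1 / 2 ^ 63) :
    (m : ℝ) ≤ (d + 1) * (41 + Real.log L / 4) := by
  have hL0 : (0 : ℝ) < L := by exact_mod_cast hL
  have hL1 : (1 : ℝ) ≤ L := by exact_mod_cast hL
  have hlogL : 0 ≤ Real.log L := Real.log_nonneg hL1
  rcases Nat.eq_zero_or_pos m with hm | hm
  · rw [hm, Nat.cast_zero]; positivity
  set c : ℝ := 1 / 2 ^ 63 with hc
  have hc0 : 0 < c := by positivity
  have hc1 : c ≤ 1 / 10 := by rw [hc]; norm_num
  have hc2 : 2 * c ≤ 1 := by rw [hc]; norm_num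
  have hsq : 1 ≤ √(L : ℝ) := Real.one_le_sqrt.2 hL1
  have hsq0 : 0 < √(L : ℝ) := by positivity
  have hε : c / √L ≤ c := div_le_self hc0.le hsq
  have key := MasterX.masterX ι d m v hv J hJ (c / √L) (2 * c) (fun _ => 2 * c) hm (by positivity)
    (hε.trans hc1) (by positivity) hc2 (fun _ => le_rfl) (fun _ => by linarith)
    (fun j => by
      obtain ⟨f, hf1, hf2⟩ := hf j
      refine omega_le _ ?_ L hL c hc0 f hf1 hf2
      have := Unitary.norm_map (v (J j)) (delta (1 : FreeGroup (Fin (d + 1))))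
      rw [this, norm_delta])
  rw [Finset.prod_const, Finset.card_univ, Fintype.card_fin] at key
  have e1 : (2 : ℝ) ^ 59 / (c / √L) = 2 ^ 122 * √L := by
    rw [hc, one_div, div_div_eq_mul_div, div_inv_eq_mul, mul_comm, ← mul_assoc, mul_comm]
    norm_num [mul_comm]
  have e2 : (2 : ℝ) ^ 59 / (2 * c) = 2 ^ 121 := by rw [hc]; norm_num
  have e3 : (2 : ℝ) ^ 59 * (2 * c) = 1 / 8 := by rw [hc]; norm_num
  rw [e1, e2, e3, one_div, inv_pow] at key
  have h5 : (8 : ℝ) ^ m ≤ (2 ^ 122 * √L) ^ d * 2 ^ 121 := by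
    have h6 : (0 : ℝ) < 8 ^ m := by positivity
    rw [← div_eq_mul_inv, one_le_div h6] at key
    exact key
  have h7 : (8 : ℝ) ^ m ≤ (2 ^ 122 * √L) ^ (d + 1) := by
    refine h5.trans ?_
    rw [pow_succ]
    refine mul_le_mul_of_nonneg_left ?_ (by positivity)
    have : (2 : ℝ) ^ 121 * 1 ≤ 2 ^ 122 * √L :=
      mul_le_mul (by norm_num) hsq zero_le_one (by positivity)
    linarith
  have h8 := Real.log_le_log (by positivity) h7
  rw [Real.log_pow, Real.log_pow, Real.log_mul (by positivity) (by positivity),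
    Real.log_sqrt hL0.le, Real.log_pow] at h8
  have h9 : Real.log 8 = 3 * Real.log 2 := by
    rw [show (8 : ℝ) = 2 ^ 3 by norm_num, Real.log_pow]; norm_num
  rw [h9] at h8
  have h11 : (0 : ℝ) ≤ d := Nat.cast_nonneg d
  push_cast at h8
  have hl2 := Real.log_two_gt_d9
  have h12 : 122 * Real.log 2 + Real.log L / 2 ≤ 3 * Real.log 2 * (41 + Real.log L / 4) := by
    nlinarith
  have h13 := mul_le_mul_of_nonneg_left h12 (by linarith : (0 : ℝ) ≤ (d : ℝ) + 1)
  have h14 : (m : ℝ) * (3 * Real.log 2)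
      ≤ ((d + 1) * (41 + Real.log L / 4)) * (3 * Real.log 2) := by
    calc (m : ℝ) * (3 * Real.log 2) ≤ _ := h8
      _ ≤ _ := h13
      _ = _ := by ring
  exact le_of_mul_le_mul_right h14 (by linarith)

end Pool.Agent.H667R2.FG.LogC
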