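import Mathlib
import Pool.Agent.H667R2.FG.Stubs

/-! Task statements, part 2: every *-isomorphism of `L(F_m)` preserves the trace. -/

namespace Pool.Agent.H667R2.FG

open Matrix Filter
open scoped ComplexConjugate Topology

section TP

variable {G G' : Type} [Group G] [Group G']

/-- operators on `ℓ²(G)` -/
abbrev Op (G : Type) := Ell G →L[ℂ] Ell G

/-! ## Task TPOS -/
theorem tau_mul_comm (x y : EltG G) :
    tau ((x : Op G) * (y : Op G)) = tau ((y : Op G) * (x : Op G)) := sorry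
theorem tau_star_mul (x : Op G) : tau (star x * x) = ((‖x (delta 1)‖ ^ 2 : ℝ) : ℂ) := sorry
/-- the trace is faithful -/
theorem eq_zero_of_delta (x : EltG G) (hx : (x : Op G) (delta 1) = 0) : (x : Op G) = 0 := sorry
theorem theta_norm (θ : EltG G ≃⋆ₐ[ℂ] EltG G') (x : EltG G) :
    ‖(θ x : Op G')‖ = ‖(x : Op G)‖ := sorry
theorem theta_pos (θ : EltG G ≃⋆ₐ[ℂ] EltG G') (x : EltG G) (hx : 0 ≤ (x : Op G)) :
    0 ≤ (θ x : Op G') := sorry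

/-! ## Task TCOMP -/
theorem ball_complete (T : ℕ → EltG G) (R : ℝ) (hT : ∀ k, ‖(T k : Op G)‖ ≤ R)
    (hc : CauchySeq fun k => (T k : Op G) (delta 1)) :
    ∃ S : EltG G, ‖(S : Op G)‖ ≤ R ∧
      ∀ ξ : Ell G, Tendsto (fun k => (T k : Op G) ξ) atTop (𝓝 ((S : Op G) ξ)) := sorry
/-- bounded monotone sequences converge strongly in `L(G)` -/
theorem mono_conv (T : ℕ → EltG G) (h1 : ∀ k, (T k : Op G) ≤ (T (k + 1) : Op G))
    (h0 : 0 ≤ (T 0 : Op G)) (hb : ∀ k, (T k : Op G) ≤ 1) :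
    ∃ S : EltG G, (∀ k, (T k : Op G) ≤ (S : Op G)) ∧ (S : Op G) ≤ 1 ∧
      ∀ ξ : Ell G, Tendsto (fun k => (T k : Op G) ξ) atTop (𝓝 ((S : Op G) ξ)) := sorry

/-! ## Task TMON (uses TPOS, TCOMP) -/
theorem mono_limit (θ : EltG G ≃⋆ₐ[ℂ] EltG G') (e : ℕ → EltG G)
    (h0 : ∀ k, 0 ≤ (e k : Op G)) (h1 : ∀ k, (e (k + 1) : Op G) ≤ (e k : Op G))
    (hb : (e 0 : Op G) ≤ 1) (ht : Tendsto (fun k => tau (e k : Op G)) atTop (𝓝 0)) :
    Tendsto (fun k => tau (θ (e k) : Op G')) atTop (𝓝 0) := sorry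

/-! ## Task TRAP (uses TPOS, TCOMP, TMON) -/
theorem rapid (θ : EltG G ≃⋆ₐ[ℂ] EltG G') (y : ℕ → EltG G) (C : ℝ)
    (h0 : ∀ k, 0 ≤ (y k : Op G)) (hC : ∀ k, ‖(y k : Op G)‖ ≤ C)
    (ht : ∀ k, (tau (y k : Op G)).re ≤ (1 / 16 : ℝ) ^ k) :
    Tendsto (fun k => tau (θ (y k) : Op G')) atTop (𝓝 0) := sorry

/-! ## Task TKAP: Kaplansky density for `L(G)` -/
theorem kaplansky (x : EltG G) : ∃ C : ℝ, ∀ ε : ℝ, 0 < ε → ∃ f : G →₀ ℂ,
    ‖f.sum fun g c => c • lam g‖ ≤ C ∧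
      ‖((x : Op G) - f.sum fun g c => c • lam g) (delta 1)‖ ≤ ε := sorry

/-! ## Task TPOW: Powers averaging in the free group -/
theorem powers (m : ℕ) (hm : 2 ≤ m) (w : FreeGroup (Fin m)) (hw : w ≠ 1) (N : ℕ) :
    ∃ g : Fin N → FreeGroup (Fin m), ‖∑ i, lam (g i * w * (g i)⁻¹)‖ ≤ 2 * √N := sorry

/-! ## Task TTP (uses everything above) -/
theorem trace_preserving (m : ℕ) (hm : 2 ≤ m) (θ : EltG (FreeGroup (Fin m)) ≃⋆ₐ[ℂ] EltG G')
    (x : EltG (FreeGroup (Fin m))) :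
    tau (θ x : Op G') = tau (x : Op (FreeGroup (Fin m))) := sorry

end TP

end Pool.Agent.H667R2.FG
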