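import Mathlib
import Pool.Agent.H667R2.FG.Defs
import Pool.Agent.H667R2.FG.OpDefs
import Pool.Agent.H667R2.FG.Herm
import Pool.Agent.H667R2.FG.THS

namespace Pool.Agent.H667R2.FG.TFUB

open MeasureTheory Matrix Filter
open scoped Matrix.Norms.L2Operator ComplexConjugate ENNReal

theorem secondCountable_UU (k : ℕ) : SecondCountableTopology (UU k) := by
  have h : SecondCountableTopology (Mat k) :=
    inferInstanceAs (SecondCountableTopology (Fin k → Fin k → ℂ))
  exact TopologicalSpace.Subtype.secondCountableTopology _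

theorem fubini_net (k m d : ℕ) (D N : Finset (UU k)) (T : (Fin (d + 1) → UU k) → Fin m → Mat k)
    (hT : ∀ j, Continuous fun y => T y j) (A : Fin m → ℝ) (B : ℝ≥0∞)
    (hB : ∀ y, haarP k (Fin m)
      {u | ∃ V : UU k, ∀ j, hs ((u j : Mat k) - (V : Mat k) * T y j * ((V⁻¹ : UU k) : Mat k)) ≤ A j} ≤ B)
    (S : Set (Fin m → UU k)) (hS : MeasurableSet S)
    (hmain : ∀ u ∈ S, ∃ V₀ : UU k, ∃ D₀ ∈ D, ∃ x' : Fin d → UU k, ∀ p : Fin d → UU k,
      ∃ η : Fin d → UU k, (∀ i, η i ∈ N) ∧
        1 / 2 ≤ haarP k (Fin d) {V' : Fin d → UU k | ∀ j, hs ((u j : Mat k) -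
          (V₀ : Mat k) * T (Fin.cons D₀ fun i => x' i * (V' i)⁻¹ * (p i)⁻¹ * η i * V' i) j *
            ((V₀⁻¹ : UU k) : Mat k)) ≤ A j}) :
    haarP k (Fin m) S / 2 ≤ D.card * N.card ^ d * B := by
  classical
  have hsc := secondCountable_UU k
  set P : Measure (Fin d → UU k) := haarP k (Fin d) with hP
  set μ : Measure (Fin m → UU k) := haarP k (Fin m) with hμ
  -- the closed sets
  let yy : UU k → (Fin d → UU k) → (Fin d → UU k) → (Fin d → UU k) → (Fin (d + 1) → UU k) :=
    fun D0 η V V' => Fin.cons D0 (fun i => V i * η i * V' i)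
  let E : UU k → (Fin d → UU k) → Set (((Fin d → UU k) × (Fin d → UU k)) × (Fin m → UU k)) :=
    fun D0 η => {z | ∃ V0 : UU k, ∀ j, hs ((z.2 j : Mat k) -
      (V0 : Mat k) * T (yy D0 η z.1.1 z.1.2) j * ((V0⁻¹ : UU k) : Mat k)) ≤ A j}
  have hEcl : ∀ D0 η, IsClosed (E D0 η) := by
    intro D0 η
    have h1 : IsClosed {q : UU k × (((Fin d → UU k) × (Fin d → UU k)) × (Fin m → UU k)) |
        ∀ j, hs ((q.2.2 j : Mat k) - (q.1 : Mat k) * T (yy D0 η q.2.1.1 q.2.1.2) j *
          ((q.1⁻¹ : UU k) : Mat k)) ≤ A j} := by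
      simp only [Set.setOf_forall]
      refine isClosed_iInter fun j => ?_
      refine isClosed_le ?_ continuous_const
      refine continuous_hs.comp ?_
      have c1 : Continuous fun q : UU k × (((Fin d → UU k) × (Fin d → UU k)) × (Fin m → UU k)) =>
          (q.2.2 j : Mat k) :=
        continuous_subtype_val.comp ((continuous_apply j).comp (continuous_snd.comp continuous_snd))
      have c2 : Continuous fun q : UU k × (((Fin d → UU k) × (Fin d → UU k)) × (Fin m → UU k)) =>
          (q.1 : Mat k) := continuous_subtype_val.comp continuous_fst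
      have c3 : Continuous fun q : UU k × (((Fin d → UU k) × (Fin d → UU k)) × (Fin m → UU k)) =>
          ((q.1⁻¹ : UU k) : Mat k) :=
        continuous_subtype_val.comp (continuous_inv.comp continuous_fst)
      have c4 : Continuous fun q : UU k × (((Fin d → UU k) × (Fin d → UU k)) × (Fin m → UU k)) =>
          yy D0 η q.2.1.1 q.2.1.2 := by
        refine continuous_pi fun i => ?_
        refine Fin.cases ?_ (fun i => ?_) i
        · simp only [yy, Fin.cons_zero]
          exact continuous_const
        · simp only [yy, Fin.cons_succ]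
          have d1 : Continuous fun q : UU k × (((Fin d → UU k) × (Fin d → UU k)) ×
              (Fin m → UU k)) => q.2.1.1 i :=
            (continuous_apply i).comp (continuous_fst.comp (continuous_fst.comp continuous_snd))
          have d2 : Continuous fun q : UU k × (((Fin d → UU k) × (Fin d → UU k)) ×
              (Fin m → UU k)) => q.2.1.2 i :=
            (continuous_apply i).comp (continuous_snd.comp (continuous_fst.comp continuous_snd))
          exact (d1.mul continuous_const).mul d2
      exact c1.sub ((c2.mul ((hT j).comp c4)).mul c3)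
    have h2 := isClosedMap_snd_of_compactSpace _ h1
    convert h2 using 1
    ext z
    constructor
    · rintro ⟨V0, h⟩
      exact ⟨(V0, z), h, rfl⟩
    · rintro ⟨⟨V0, z'⟩, h, rfl⟩
      exact ⟨V0, h⟩
  let IX : Finset (UU k × (Fin d → UU k)) := D ×ˢ (Fintype.piFinset fun _ : Fin d => N)
  let G : Set (((Fin d → UU k) × (Fin d → UU k)) × (Fin m → UU k)) := ⋃ e ∈ IX, E e.1 e.2
  have hGcl : IsClosed G := by
    refine isClosed_biUnion_finset fun e _ => hEcl e.1 e.2
  have hGm : MeasurableSet G := hGcl.measurableSet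
  -- upper bound
  have hup : ((P.prod P).prod μ) G ≤ D.card * N.card ^ d * B := by
    rw [Measure.prod_apply hGm]
    have h1 : ∀ z : (Fin d → UU k) × (Fin d → UU k), μ (Prod.mk z ⁻¹' G) ≤
        D.card * N.card ^ d * B := by
      intro z
      have h2 : Prod.mk z ⁻¹' G = ⋃ e ∈ IX, Prod.mk z ⁻¹' (E e.1 e.2) := by
        simp only [G, Set.preimage_iUnion]
      rw [h2]
      refine (measure_biUnion_finset_le _ _).trans ?_
      refine (Finset.sum_le_card_nsmul _ _ B fun e _ => ?_).trans ?_
      · exact hB (yy e.1 e.2 z.1 z.2)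
      · simp only [IX, Finset.card_product, Fintype.card_piFinset, Finset.prod_const,
          Finset.card_univ, Fintype.card_fin, nsmul_eq_mul, Nat.cast_mul, Nat.cast_pow]
        exact le_rfl
    refine (lintegral_mono h1).trans ?_
    rw [lintegral_const, measure_univ, mul_one]
  -- lower bound
  have hlow : μ S / 2 ≤ ((P.prod P).prod μ) G := by
    rw [Measure.prod_apply_symm hGm]
    have h1 : ∀ u ∈ S, 1 / 2 ≤ (P.prod P) ((fun z => (z, u)) ⁻¹' G) := by
      intro u hu
      obtain ⟨V₀, D₀, hD₀, x', hx'⟩ := hmain u hu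
      have hGu : MeasurableSet ((fun z : (Fin d → UU k) × (Fin d → UU k) => (z, u)) ⁻¹' G) :=
        measurable_prodMk_right hGm
      rw [Measure.prod_apply_symm hGu]
      have h2 : ∀ V' : Fin d → UU k,
          P ((fun V => (V, V')) ⁻¹' ((fun z => (z, u)) ⁻¹' G)) =
          P {p | ((x' * V'⁻¹) / p, V') ∈ ((fun z => (z, u)) ⁻¹' G)} := by
        intro V'
        have h3 : MeasurePreserving (fun p => (x' * V'⁻¹) / p) P P :=
          Measure.measurePreserving_div_left P (x' * V'⁻¹)
        exact (h3.measure_preimage (measurable_prodMk_right hGu).nullMeasurableSet).symm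
      simp_rw [h2]
      set G' : Set ((Fin d → UU k) × (Fin d → UU k)) :=
        {q | ((x' * q.1⁻¹) / q.2, q.1) ∈ ((fun z => (z, u)) ⁻¹' G)} with hG'
      have hG'm : MeasurableSet G' := by
        have hc : Continuous fun q : (Fin d → UU k) × (Fin d → UU k) =>
            ((x' * q.1⁻¹) / q.2, q.1) := by
          refine Continuous.prodMk ?_ continuous_fst
          exact (continuous_const.mul (continuous_inv.comp continuous_fst)).div' continuous_snd
        exact hc.measurable hGu
      have h4 : ∫⁻ V', P {p | ((x' * V'⁻¹) / p, V') ∈ ((fun z => (z, u)) ⁻¹' G)} ∂P =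
          (P.prod P) G' := by
        rw [Measure.prod_apply hG'm]
        rfl
      rw [h4, Measure.prod_apply_symm hG'm]
      have h5 : ∀ p : Fin d → UU k, 1 / 2 ≤ P ((fun V' => (V', p)) ⁻¹' G') := by
        intro p
        obtain ⟨η, hη, hη'⟩ := hx' p
        refine hη'.trans (measure_mono ?_)
        intro V' hV'
        simp only [Set.mem_setOf_eq] at hV'
        simp only [hG', Set.mem_preimage, Set.mem_setOf_eq, G, Set.mem_iUnion]
        refine ⟨(D₀, η), ?_, V₀, fun j => ?_⟩
        · simp only [IX, Finset.mem_product, Fintype.mem_piFinset]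
          exact ⟨hD₀, hη⟩
        · have h6 : yy D₀ η ((x' * V'⁻¹) / p) V' =
            Fin.cons D₀ fun i => x' i * (V' i)⁻¹ * (p i)⁻¹ * η i * V' i := by
            simp only [yy]
            congr 1
          simp only [h6]
          exact hV' j
      calc (1 / 2 : ℝ≥0∞) = ∫⁻ _ : Fin d → UU k, 1 / 2 ∂P := by
            rw [lintegral_const, measure_univ, mul_one]
        _ ≤ _ := lintegral_mono h5
    calc μ S / 2 = ∫⁻ _ in S, 1 / 2 ∂μ := by
          rw [setLIntegral_const, ENNReal.div_eq_inv_mul, one_div]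
      _ ≤ ∫⁻ u in S, (P.prod P) ((fun z => (z, u)) ⁻¹' G) ∂μ :=
          setLIntegral_mono' hS h1
      _ ≤ _ := setLIntegral_le_lintegral _ _
  exact hlow.trans hup

end Pool.Agent.H667R2.FG.TFUB

namespace Pool.Agent.H667R2.FG

alias fubini_net := TFUB.fubini_net

end Pool.Agent.H667R2.FG
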